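import Pool.Agent.Lib.MP_640417_ag.FO.SpecR
import Pool.Agent.Lib.MP_640417_ag.FT.Spec

set_option autoImplicit false

open Finset Pool.Agent.FC

namespace Pool.Agent.FO

theorem pAnv (hSzBas : S_SzBas) (h : Pool.Agent.FT.S_Coe) : S_Anv := by
  intro M _ χ hχ
  obtain ⟨k, hk, hne⟩ := h M χ hχ
  refine ⟨k, ?_⟩
  have e : ∑ s : (ZMod M)ˣ, χ (s : ZMod M) * ((sz ((s : ZMod M) * k) : ℚ) : ℂ) =
      ∑ s : (ZMod M)ˣ, χ s * (sw (ZMod.toAddCircle ((s : ZMod M) * k)) : ℂ) := by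
    refine Finset.sum_congr rfl fun s _ => ?_
    congr 1
    have h1 : (s : ZMod M) * k ≠ 0 := by
      intro h2
      apply hk
      have h3 := s.isUnit.mul_right_eq_zero.1 h2
      exact h3
    have h4 := (hSzBas M ((s : ZMod M) * k)).2.2 h1
    rw [← h4]
    push_cast
    rfl
  rw [e]
  exact hne

end Pool.Agent.FO
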