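import Pool.Agent.Lib.MP_640417_ag.FO.SpecR

/-!
# The arithmetic lemma on units (module Arc)
-/

set_option autoImplicit false

open Finset Pool.Agent.FC

namespace Pool.Agent.FO

namespace ArcAux

theorem unit {m n : ℕ} {Z' : ℤ} (hm : 0 < m) (hmn : n ∣ m) (hc : IsCoprime Z' (n : ℤ)) (u0 : ℤ)
    (hu : IsCoprime u0 (n : ℤ)) :
    ∃ t : ℕ, t.Coprime m ∧ ∃ k : ℤ, (t : ℤ) * Z' = u0 + n * k := by
  have : NeZero m := ⟨hm.ne'⟩
  have : NeZero n := ⟨(Nat.pos_of_dvd_of_pos hmn hm).ne'⟩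
  obtain ⟨a, ha⟩ := (ZMod.coe_int_isUnit_iff_isCoprime Z' n).2 hc.symm
  obtain ⟨b, hb⟩ := (ZMod.coe_int_isUnit_iff_isCoprime u0 n).2 hu.symm
  obtain ⟨v, hv⟩ := ZMod.unitsMap_surjective hmn (b * a⁻¹)
  refine ⟨(v : ZMod m).val, ZMod.val_coe_unit_coprime v, ?_⟩
  have h1 : (((v : ZMod m).val : ℕ) : ZMod n) = (b : ZMod n) * ((a⁻¹ : (ZMod n)ˣ) : ZMod n) := by
    have h2 := congrArg (fun x : (ZMod n)ˣ => (x : ZMod n)) hv
    simp only [ZMod.unitsMap_def, Units.coe_map, Units.val_mul] at h2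
    rw [← h2]
    simp [ZMod.castHom_apply]
  have h3 : ((((v : ZMod m).val : ℤ) * Z' - u0 : ℤ) : ZMod n) = 0 := by
    push_cast
    rw [h1, ← ha, ← hb, mul_assoc, Units.inv_mul, mul_one, sub_self]
  obtain ⟨k, hk⟩ := (ZMod.intCast_zmod_eq_zero_iff_dvd _ n).1 h3
  exact ⟨k, by linarith⟩

/-- A good unit close to a half. -/
theorem half (n : ℕ) (hn : 3 ≤ n) :
    ∃ u : ℤ, IsCoprime u (n : ℤ) ∧ (n : ℤ) ≤ 6 * u ∧ 2 * u ≤ n := by
  rcases Nat.even_or_odd n with he | ho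
  · obtain ⟨k, hk⟩ := he
    rcases Nat.even_or_odd k with h2 | h2
    · obtain ⟨j, hj⟩ := h2
      refine ⟨k - 1, ⟨2 * j - 1, 1 - j, ?_⟩, by omega, by omega⟩
      have h3 : (n : ℤ) = 2 * k := by omega
      have h4 : (k : ℤ) = 2 * j := by omega
      rw [h3, h4]
      ring
    · obtain ⟨j, hj⟩ := h2
      have h3 : (n : ℤ) = 2 * k := by omega
      have h4 : (k : ℤ) = 2 * j + 1 := by omega
      refine ⟨k - 2, ⟨(2 * j - 1) + 2 * j * (j - 1), -(j * (j - 1)), ?_⟩, by omega, by omega⟩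
      rw [h3, h4]
      ring
  · obtain ⟨k, hk⟩ := ho
    refine ⟨k, ⟨-2, 1, ?_⟩, by omega, by omega⟩
    have h3 : (n : ℤ) = 2 * k + 1 := by omega
    rw [h3]
    ring

end ArcAux

theorem pArc : S_Arc := by
  intro m Z κ hm h
  obtain ⟨g, hg⟩ : ∃ g : ℕ, g = Int.gcd Z m := ⟨_, rfl⟩
  have hg0 : 0 < g := by
    rw [hg]
    exact Int.gcd_pos_of_ne_zero_right _ (by exact_mod_cast hm.ne')
  obtain ⟨Z', hZ'⟩ : (g : ℤ) ∣ Z := by rw [hg]; exact Int.gcd_dvd_left _ _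
  obtain ⟨n', hn'⟩ : (g : ℤ) ∣ m := by rw [hg]; exact Int.gcd_dvd_right _ _
  have hgz : (0 : ℤ) < g := by exact_mod_cast hg0
  have hmz : (0 : ℤ) < m := by exact_mod_cast hm
  have hn0 : 0 < n' := by
    by_contra hc
    nlinarith
  lift n' to ℕ using hn0.le with n
  have hn0' : 0 < n := by exact_mod_cast hn0
  have hmn : m = g * n := by exact_mod_cast hn'
  have hc : IsCoprime Z' (n : ℤ) := by
    rw [Int.isCoprime_iff_gcd_eq_one]
    have h1 : Int.gcd ((g : ℤ) * Z') ((g : ℤ) * n) = g * Int.gcd Z' n := by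
      rw [Int.gcd_mul_left]
      simp
    rw [← hZ', ← hn', ← hg] at h1
    have h2 : g * 1 = g * Int.gcd Z' n := by rw [mul_one]; exact h1
    exact (Nat.eq_of_mul_eq_mul_left hg0 h2).symm
  have key : ∀ u : ℤ, IsCoprime u (n : ℤ) → ∃ w : ℤ, |(u : ℚ) / n - κ / 2 - w| < 1 / 6 := by
    intro u hu
    obtain ⟨t, ht, k, hk⟩ := ArcAux.unit hm ⟨g, by rw [hmn, mul_comm]⟩ hc u hu
    obtain ⟨w, hw⟩ := h t ht
    refine ⟨w - k, ?_⟩
    have hgq : (g : ℚ) ≠ 0 := by exact_mod_cast hg0.ne'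
    have hnq : (n : ℚ) ≠ 0 := by exact_mod_cast hn0'.ne'
    have e1 : (t : ℚ) * Z / m = (u : ℚ) / n + k := by
      have h5 : (t : ℚ) * Z' = u + n * k := by exact_mod_cast hk
      rw [hZ', hmn]
      push_cast
      have h6 : (t : ℚ) * (g * Z') = g * (u + n * k) := by rw [← h5]; ring
      rw [h6]
      field_simp
    rw [e1] at hw
    have e2 : (u : ℚ) / n - κ / 2 - ((w - k : ℤ) : ℚ) = (u : ℚ) / n + k - κ / 2 - w := by
      push_cast
      ring
    rw [e2]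
    exact hw
  have hn : n < 3 := by
    by_contra hc3
    have hn3 : 3 ≤ n := by omega
    have hnq : (0 : ℚ) < n := by exact_mod_cast hn0'
    have hn3q : (3 : ℚ) ≤ n := by exact_mod_cast hn3
    rcases Int.even_or_odd κ with he | ho
    · obtain ⟨l, hl⟩ := he
      obtain ⟨u, hu, h1, h2⟩ := ArcAux.half n hn3
      obtain ⟨w, hw⟩ := key u hu
      have e : (κ : ℚ) / 2 = l := by rw [hl]; push_cast; ring
      rw [e, abs_lt] at hw
      have h3 : (1 : ℚ) / 6 ≤ (u : ℚ) / n := by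
        rw [div_le_div_iff₀ (by norm_num) hnq]
        have : (n : ℚ) ≤ 6 * u := by exact_mod_cast h1
        linarith
      have h4 : (u : ℚ) / n ≤ 1 / 2 := by
        rw [div_le_div_iff₀ hnq (by norm_num)]
        have : 2 * (u : ℚ) ≤ n := by exact_mod_cast h2
        linarith
      rcases le_or_gt (l + w) 0 with h5 | h5
      · have : (l : ℚ) + w ≤ 0 := by exact_mod_cast h5
        linarith [hw.1, hw.2]
      · have : (1 : ℚ) ≤ (l : ℚ) + w := by exact_mod_cast h5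
        linarith [hw.1, hw.2]
    · obtain ⟨l, hl⟩ := ho
      obtain ⟨w, hw⟩ := key 1 isCoprime_one_left
      have e : (κ : ℚ) / 2 = l + 1 / 2 := by rw [hl]; push_cast; ring
      rw [e, abs_lt] at hw
      have h3 : (0 : ℚ) < ((1 : ℤ) : ℚ) / n := by push_cast; positivity
      have h4 : ((1 : ℤ) : ℚ) / n ≤ 1 / 3 := by
        push_cast
        rw [div_le_div_iff₀ hnq (by norm_num)]
        linarith
      rcases le_or_gt 0 (l + w) with h5 | h5
      · have : (0 : ℚ) ≤ (l : ℚ) + w := by exact_mod_cast h5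
        linarith [hw.1, hw.2]
      · have h6 : l + w ≤ -1 := by omega
        have : (l : ℚ) + w ≤ -1 := by exact_mod_cast h6
        linarith [hw.1, hw.2]
  rw [hmn, hZ']
  have : n = 1 ∨ n = 2 := by omega
  rcases this with rfl | rfl
  · exact ⟨2 * Z', by push_cast; ring⟩
  · exact ⟨Z', by push_cast; ring⟩

end Pool.Agent.FO
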