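import Pool.Agent.Lib.MP_640417_ag.FO.SpecL

/-!
# Theorem FO: arithmetic of the condition
-/

set_option autoImplicit false

open Finset Pool.Agent.FC

namespace Pool.Agent.FO

namespace AriAux

private lemma P0_eq_five {d s : ℕ} (hs : s ≤ 3) (hs1 : 2 ≤ s) (hsd : s ∣ d) : P0 d = 5 := by
  have h1 : d.minFac ≤ s := Nat.minFac_le_of_dvd hs1 hsd
  unfold P0
  rw [max_eq_left]
  have : d.minFac ≤ 5 := by omega
  exact_mod_cast this

private lemma five_le {p : ℕ} (hp : p.Prime) (h2 : p ≠ 2) (h3 : p ≠ 3) : 5 ≤ p := by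
  have h4 := hp.two_le
  by_contra h
  have h5 : p = 4 := by omega
  rw [h5] at hp
  exact absurd hp (by decide)

/-- common data -/
private lemma final1 {P ν N kp kq q : ℤ} (hP : P = 5) (hν : ν ≤ 2 * N) (hkp : 2 ≤ kp)
    (hkq : q - 1 ≤ kq) (hq : 4 * N < q - 1) (hN : 0 ≤ N) :
    2 * (P - 1) * ν < (P - 3) * (kp * kq) := by
  subst hP
  have h1 : 2 * (q - 1) ≤ kp * kq := mul_le_mul hkp hkq (by linarith) (by linarith)
  nlinarith

private lemma final2 {P ν N kp kq q : ℤ} (hP : 5 ≤ P) (hν : ν ≤ 4 * N) (hkp : P - 1 ≤ kp)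
    (hkq : q - 1 ≤ kq) (hq : 4 * N < q - 1) (hN : 0 ≤ N) :
    2 * (P - 1) * ν < (P - 3) * (kp * kq) := by
  have h1 : (P - 1) * (q - 1) ≤ kp * kq := mul_le_mul hkp hkq (by linarith) (by linarith)
  have h2 : (P - 3) * ((P - 1) * (q - 1)) ≤ (P - 3) * (kp * kq) :=
    mul_le_mul_of_nonneg_left h1 (by linarith)
  have h3 : 2 * ((P - 1) * (q - 1)) ≤ (P - 3) * ((P - 1) * (q - 1)) :=
    mul_le_mul_of_nonneg_right (by linarith) (mul_nonneg (by linarith) (by linarith))
  have h4 : (P - 1) * ν < (P - 1) * (q - 1) :=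
    mul_lt_mul_of_pos_left (by linarith) (by linarith)
  linarith

private lemma final3 {P ν N kp kq q : ℤ} (hP : 5 ≤ P) (hν : ν ≤ 2 * N) (hkp : P - 1 ≤ kp)
    (hkq : q - 1 ≤ kq) (hq : 4 * N < (P - 3) * (q - 1)) (hq1 : 1 ≤ q) :
    2 * (P - 1) * ν < (P - 3) * (kp * kq) := by
  have h1 : (P - 1) * (q - 1) ≤ kp * kq := mul_le_mul hkp hkq (by linarith) (by linarith)
  have h2 : (P - 3) * ((P - 1) * (q - 1)) ≤ (P - 3) * (kp * kq) :=
    mul_le_mul_of_nonneg_left h1 (by linarith)
  have h3 : (P - 1) * (2 * ν) ≤ (P - 1) * (4 * N) :=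
    mul_le_mul_of_nonneg_left (by linarith) (by linarith)
  have h4 : (P - 1) * (4 * N) < (P - 1) * ((P - 3) * (q - 1)) :=
    mul_lt_mul_of_pos_left hq (by linarith)
  linarith

/-- the case where exactly one of the primes `2`, `3` divides `m` -/
private lemma caseS {m N d p q s : ℕ} {ν kp kq : ℤ} (hm : 0 < m) (hC : Cond m N) (hd : d ∣ m)
    (hs : s.Prime) (hs3 : s ≤ 3) (ht : ∀ r : ℕ, r.Prime → r ∣ m → r = s ∨ 5 ≤ r)
    (hsm : s ∣ m) (hWd : s ∣ d → ν ≤ 2 * N) (hWd' : ¬ s ∣ d → ν ≤ 4 * N)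
    (hp : p.Prime) (hpd : p ∣ d) (hq : q.Prime) (hqd : q ∣ d) (hpq : p < q)
    (hkp : (p : ℤ) - 1 ≤ kp) (hkp2 : 2 ≤ kp) (hkq : (q : ℤ) - 1 ≤ kq) :
    2 * (P0 d - 1) * ν < (P0 d - 3) * (kp * kq) := by
  have hm' := hm.ne'
  have hsq : s < q := by
    rcases ht p hp (hpd.trans hd) with h | h
    · omega
    · omega
  have hc := hC s (Nat.mem_primeFactors.2 ⟨hs, hsm, hm'⟩) q
    (Nat.mem_primeFactors.2 ⟨hq, hqd.trans hd, hm'⟩) hsq
  have hs0 : s - 3 = 0 := by omega
  rw [hs0, max_eq_left (by norm_num), one_mul] at hc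
  have hq1 := hq.one_lt
  have hc' : (4 : ℤ) * N < (q : ℤ) - 1 := by
    have h : 4 * N + 1 < q := by omega
    have h' : ((4 * N + 1 : ℕ) : ℤ) < (q : ℕ) := by exact_mod_cast h
    push_cast at h'
    linarith
  have hN0 : (0 : ℤ) ≤ N := Int.natCast_nonneg N
  by_cases hsd : s ∣ d
  · exact final1 (P0_eq_five hs3 hs.two_le hsd) (hWd hsd) hkp2 hkq hc' hN0
  · have hd1 : d ≠ 1 := by
      rintro rfl
      exact hp.one_lt.ne' (Nat.dvd_one.1 hpd)
    have h0 : 5 ≤ d.minFac := by
      rcases ht d.minFac (Nat.minFac_prime hd1) ((Nat.minFac_dvd d).trans hd) with h | h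
      · exact absurd (h ▸ Nat.minFac_dvd d) hsd
      · exact h
    have h1 : P0 d = (d.minFac : ℤ) := by
      unfold P0
      exact max_eq_right (by exact_mod_cast h0)
    have h2 : (d.minFac : ℤ) ≤ p := by exact_mod_cast Nat.minFac_le_of_dvd hp.two_le hpd
    rw [h1]
    exact final2 (by exact_mod_cast h0) (hWd' hsd) (by linarith) hkq hc' hN0

private lemma core {m N d p q : ℕ} {ν kp kq : ℤ} (hm : 0 < m) (hC : Cond m N) (hd : d ∣ m)
    (hν0 : 0 ≤ ν) (hν : ν * W d ≤ 2 * N * W m)
    (hp : p.Prime) (hpd : p ∣ d) (hq : q.Prime) (hqd : q ∣ d) (hpq : p < q)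
    (hkp : (p : ℤ) - 1 ≤ kp) (hkp2 : 2 ≤ kp) (hkq : (q : ℤ) - 1 ≤ kq) :
    2 * (P0 d - 1) * ν < (P0 d - 3) * (kp * kq) := by
  have hm' := hm.ne'
  have hq1 : (2 : ℤ) ≤ q := by exact_mod_cast hq.two_le
  by_cases hN : N = 0
  · have hW : 0 < W d := by
      unfold W
      split_ifs <;> norm_num
    have h0 : ν = 0 := by
      rw [hN, Nat.cast_zero, mul_zero, zero_mul] at hν
      nlinarith
    have h5 : 5 ≤ P0 d := le_max_left _ _
    rw [h0, mul_zero]
    exact mul_pos (by linarith) (mul_pos (by linarith) (by linarith))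
  by_cases h2 : 2 ∣ m
  · by_cases h3 : 3 ∣ m
    · exfalso
      have hc := hC 2 (Nat.mem_primeFactors.2 ⟨Nat.prime_two, h2, hm'⟩) 3
        (Nat.mem_primeFactors.2 ⟨Nat.prime_three, h3, hm'⟩) (by norm_num)
      norm_num at hc
      omega
    · have hWm : W m = 2 := by
        unfold W
        rw [if_pos h2, if_neg h3]
        norm_num
      have h3d : ¬ 3 ∣ d := fun h => h3 (h.trans hd)
      refine caseS (s := 2) hm hC hd Nat.prime_two (by norm_num) ?_ h2 ?_ ?_ hp hpd hq
        hqd hpq hkp hkp2 hkq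
      · intro r hr hrm
        by_cases h : r = 2
        · exact Or.inl h
        · exact Or.inr (five_le hr h (by rintro rfl; exact h3 hrm))
      · intro h
        have hWd : W d = 2 := by
          unfold W
          rw [if_pos h, if_neg h3d]
          norm_num
        rw [hWm, hWd] at hν
        linarith
      · intro h
        have hWd : W d = 1 := by
          unfold W
          rw [if_neg h, if_neg h3d]
          norm_num
        rw [hWm, hWd] at hν
        linarith
  · by_cases h3 : 3 ∣ m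
    · have hWm : W m = 2 := by
        unfold W
        rw [if_neg h2, if_pos h3]
        norm_num
      have h2d : ¬ 2 ∣ d := fun h => h2 (h.trans hd)
      refine caseS (s := 3) hm hC hd Nat.prime_three le_rfl ?_ h3 ?_ ?_ hp hpd hq
        hqd hpq hkp hkp2 hkq
      · intro r hr hrm
        by_cases h : r = 3
        · exact Or.inl h
        · exact Or.inr (five_le hr (by rintro rfl; exact h2 hrm) h)
      · intro h
        have hWd : W d = 2 := by
          unfold W
          rw [if_neg h2d, if_pos h]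
          norm_num
        rw [hWm, hWd] at hν
        linarith
      · intro h
        have hWd : W d = 1 := by
          unfold W
          rw [if_neg h2d, if_neg h]
          norm_num
        rw [hWm, hWd] at hν
        linarith
    · have hWm : W m = 1 := by
        unfold W
        rw [if_neg h2, if_neg h3]
        norm_num
      have hWd : W d = 1 := by
        unfold W
        rw [if_neg fun h => h2 (h.trans hd), if_neg fun h => h3 (h.trans hd)]
        norm_num
      rw [hWm, hWd] at hν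
      have hd1 : d ≠ 1 := by
        rintro rfl
        exact hp.one_lt.ne' (Nat.dvd_one.1 hpd)
      have h0 : 5 ≤ d.minFac := by
        refine five_le (Nat.minFac_prime hd1) ?_ ?_
        · intro h
          exact h2 (h ▸ (Nat.minFac_dvd d).trans hd)
        · intro h
          exact h3 (h ▸ (Nat.minFac_dvd d).trans hd)
      have h1 : P0 d = (d.minFac : ℤ) := by
        unfold P0
        exact max_eq_right (by exact_mod_cast h0)
      have h4 : d.minFac ≤ p := Nat.minFac_le_of_dvd hp.two_le hpd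
      have hc := hC d.minFac (Nat.mem_primeFactors.2
        ⟨Nat.minFac_prime hd1, (Nat.minFac_dvd d).trans hd, hm'⟩) q
        (Nat.mem_primeFactors.2 ⟨hq, hqd.trans hd, hm'⟩) (by omega)
      rw [max_eq_right (by omega)] at hc
      have hc' : (4 : ℤ) * N < ((d.minFac : ℤ) - 3) * ((q : ℤ) - 1) := by
        have h : ((4 * N : ℕ) : ℤ) < (((d.minFac - 3) * (q - 1) : ℕ) : ℤ) := by exact_mod_cast hc
        rw [Nat.cast_mul (d.minFac - 3), Nat.cast_sub (by omega), Nat.cast_sub hq.one_lt.le] at h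
        push_cast at h
        exact h
      have h5 : (d.minFac : ℤ) ≤ p := by exact_mod_cast h4
      rw [h1]
      exact final3 (by exact_mod_cast h0) (by linarith) (by linarith) hkq hc' (by linarith)

/-- lower bounds for `κ_p` -/
private lemma kap1 {d p : ℕ} : (p : ℤ) - 1 ≤ (if p ^ 2 ∣ d then (p : ℤ) else p - 1) := by
  split_ifs
  · linarith
  · exact le_rfl

private lemma kap2 {d p : ℕ} (hd : Odd d ∨ 4 ∣ d) (hp : p.Prime) (hpd : p ∣ d) :
    2 ≤ (if p ^ 2 ∣ d then (p : ℤ) else p - 1) := by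
  by_cases h : p = 2
  · subst h
    have h4 : 2 ^ 2 ∣ d := by
      rcases hd with h | h
      · exact absurd (h.of_dvd_nat hpd) (by decide)
      · exact h
    rw [if_pos h4]
    norm_num
  · have h3 : 3 ≤ p := by
      have := hp.two_le
      omega
    have h3' : (3 : ℤ) ≤ p := by exact_mod_cast h3
    split_ifs
    · linarith
    · linarith

end AriAux

open AriAux

theorem pAri : S_Ari := by
  intro m N d ν hm hC hd hd4 hν0 hν p hp q hq hpq
  have hp' := Nat.prime_of_mem_primeFactors hp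
  have hq' := Nat.prime_of_mem_primeFactors hq
  have hpd := Nat.dvd_of_mem_primeFactors hp
  have hqd := Nat.dvd_of_mem_primeFactors hq
  rcases lt_or_gt_of_ne hpq with h | h
  · exact core hm hC hd hν0 hν hp' hpd hq' hqd h kap1 (kap2 hd4 hp' hpd) kap1
  · rw [mul_comm (if p ^ 2 ∣ d then (p : ℤ) else p - 1)]
    exact core hm hC hd hν0 hν hq' hqd hp' hpd h kap1 (kap2 hd4 hq' hqd) kap1

end Pool.Agent.FO
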