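import Pool.Agent.Lib.MP_640417_ag.FO.SpecH

/-!
# Theorem FG, part H: arithmetic of the sharp condition (task AriS)
-/

set_option autoImplicit false

noncomputable section

namespace Pool.Agent.FO

open Finset Pool.Agent.FC

namespace AriSAux

/-- the order of the kernel for the prime `p` -/
private def kap (d p : ℕ) : ℤ := if p ^ 2 ∣ d then (p : ℤ) else p - 1

private theorem kap_ge (d p : ℕ) : (p : ℤ) - 1 ≤ kap d p := by
  unfold kap
  split_ifs <;> omega

private theorem kap_ge2 {d p : ℕ} (hp : p.Prime) (hpd : p ∣ d) (h4 : ¬ 2 ∣ d ∨ 4 ∣ d) :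
    2 ≤ kap d p := by
  have h2 := hp.two_le
  rcases Nat.lt_or_ge 2 p with h | h
  · have := kap_ge d p
    omega
  · have hp2 : p = 2 := le_antisymm h h2
    subst hp2
    rcases h4 with h4 | h4
    · exact absurd hpd h4
    · unfold kap
      rw [if_pos (by simpa using h4)]
      norm_num

private theorem ariMain (m' N' d : ℕ) (ν : ℤ) (hm : 0 < m') (hC : CondS m' N') (hd : d ∣ m')
    (h4 : ¬ 2 ∣ d ∨ 4 ∣ d) (_hν : 0 ≤ ν) (hW : ν * W2 d ≤ 2 * N' * W2 m')
    (p : ℕ) (hp : p ∈ d.primeFactors) (q : ℕ) (hq : q ∈ d.primeFactors) (hpq : p < q) :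
    2 * ν < kap d p * kap d q := by
  have hpp := Nat.prime_of_mem_primeFactors hp
  have hqp := Nat.prime_of_mem_primeFactors hq
  have hpd := Nat.dvd_of_mem_primeFactors hp
  have hqd := Nat.dvd_of_mem_primeFactors hq
  have hpm : p ∈ m'.primeFactors := Nat.mem_primeFactors.2 ⟨hpp, hpd.trans hd, hm.ne'⟩
  have hqm : q ∈ m'.primeFactors := Nat.mem_primeFactors.2 ⟨hqp, hqd.trans hd, hm.ne'⟩
  have hp1 := kap_ge d p
  have hp2 := kap_ge2 hpp hpd h4
  have hq1 := kap_ge d q
  have hq2 := kap_ge2 hqp hqd h4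
  have hCpq := hC p hpm q hqm hpq
  have hple := hpp.two_le
  have hqle := hqp.two_le
  have hcast : (4 * N' : ℤ) < max 2 ((p : ℤ) - 1) * ((q : ℤ) - 1) := by
    have h1 : ((4 * N' : ℕ) : ℤ) < ((max 2 (p - 1) * (q - 1) : ℕ) : ℤ) := by exact_mod_cast hCpq
    push_cast at h1
    rw [Nat.cast_sub (by omega), Nat.cast_sub (by omega)] at h1
    push_cast at h1
    exact h1
  have hmaxp : max 2 ((p : ℤ) - 1) ≤ kap d p := max_le hp2 hp1
  have hprod : max 2 ((p : ℤ) - 1) * ((q : ℤ) - 1) ≤ kap d p * kap d q :=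
    mul_le_mul hmaxp hq1 (by omega) (by omega)
  by_cases h2m : 2 ∣ m'
  · by_cases h2d : 2 ∣ d
    · have e1 : W2 d = 2 := if_pos h2d
      have e2 : W2 m' = 2 := if_pos h2m
      rw [e1, e2] at hW
      linarith
    · have e1 : W2 d = 1 := if_neg h2d
      have e2 : W2 m' = 2 := if_pos h2m
      rw [e1, e2] at hW
      have hpne : p ≠ 2 := fun h => h2d (h ▸ hpd)
      have hqne : q ≠ 2 := fun h => h2d (h ▸ hqd)
      rcases Nat.eq_zero_or_pos N' with hN | hN
      · subst hN
        have : 0 < kap d p * kap d q := by positivity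
        push_cast at hW
        linarith
      · have h2mem : 2 ∈ m'.primeFactors := Nat.mem_primeFactors.2 ⟨Nat.prime_two, h2m, hm.ne'⟩
        have hp3 : p ≠ 3 := by
          intro h
          have := hC 2 h2mem 3 (h ▸ hpm) (by norm_num)
          norm_num at this
          omega
        have hp4 : p ≠ 4 := by
          intro h
          rw [h] at hpp
          exact absurd hpp (by norm_num)
        have hp5 : 4 ≤ kap d p := by omega
        have hC2 := hC 2 h2mem q hqm (by omega)
        norm_num at hC2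
        have hC3 : (4 * N' : ℤ) < 2 * ((q : ℤ) - 1) := by
          have h1 : ((4 * N' : ℕ) : ℤ) < ((2 * (q - 1) : ℕ) : ℤ) := by exact_mod_cast hC2
          push_cast at h1
          rw [Nat.cast_sub (by omega)] at h1
          push_cast at h1
          exact h1
        have h5 : 4 * ((q : ℤ) - 1) ≤ kap d p * kap d q :=
          mul_le_mul hp5 hq1 (by omega) (by omega)
        linarith
  · have h2d : ¬ 2 ∣ d := fun h => h2m (h.trans hd)
    have e1 : W2 d = 1 := if_neg h2d
    have e2 : W2 m' = 1 := if_neg h2m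
    rw [e1, e2] at hW
    linarith

end AriSAux

open AriSAux in
theorem pAriS : S_AriS := by
  intro m' N' d ν hm hC hd h4 hν hW p hp q hq hpq
  rcases lt_or_gt_of_ne hpq with h | h
  · exact ariMain m' N' d ν hm hC hd h4 hν hW p hp q hq h
  · have h1 := ariMain m' N' d ν hm hC hd h4 hν hW q hq p hp h
    rw [mul_comm (kap d q)] at h1
    exact h1

end Pool.Agent.FO
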