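import Pool.Agent.Lib.MP_640417_ag.FO.SpecL

/-!
# Theorem FO: arithmetic of the weights
-/

set_option autoImplicit false

open Finset Pool.Agent.FC

namespace Pool.Agent.FO

private theorem ariW_dvd {d p q : ℕ} (hp : p.Prime) (hq : q.Prime) (hpq : q ≠ p) (hpd : p ∣ d) :
    q ∣ d / p ↔ q ∣ d := by
  obtain ⟨k, rfl⟩ := hpd
  rw [Nat.mul_div_cancel_left k hp.pos]
  refine ⟨fun h => Dvd.dvd.mul_left h p, fun h => ?_⟩
  rcases (Nat.Prime.dvd_mul hq).mp h with h1 | h1
  · exact absurd ((Nat.prime_dvd_prime_iff_eq hq hp).mp h1) hpq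
  · exact h1

private theorem ariW_sq {d p : ℕ} (hp : p.Prime) (hpd : p ∣ d) : p ∣ d / p ↔ p ^ 2 ∣ d := by
  obtain ⟨k, rfl⟩ := hpd
  rw [Nat.mul_div_cancel_left k hp.pos, pow_two]
  exact (Nat.mul_dvd_mul_iff_left hp.pos).symm

private theorem ariW_pos (n : ℕ) : 1 ≤ W n := by
  unfold W
  split_ifs <;> norm_num

theorem pAriW : S_AriW := by
  intro d p hd0 hd hp hpd
  have hWp := ariW_pos (d / p)
  have hmin : d.minFac ≤ p := Nat.minFac_le_of_dvd hp.two_le hpd
  rcases eq_or_ne p 2 with rfl | h2
  · have h4 : 4 ∣ d := by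
      rcases hd with h | h
      · exact absurd hpd h.not_two_dvd_nat
      · exact h
    have hP : P0 d = 5 := by
      unfold P0
      rw [max_eq_left]
      have : (d.minFac : ℤ) ≤ 2 := by exact_mod_cast hmin
      linarith
    have hs : 2 ^ 2 ∣ d := by norm_num; exact h4
    have hW : W (d / 2) = W d := by
      unfold W
      rw [if_congr (ariW_dvd Nat.prime_two Nat.prime_three (by norm_num) hpd) rfl rfl,
        if_pos ((ariW_sq Nat.prime_two hpd).mpr hs), if_pos hpd]
    rw [if_pos hs, if_pos hs, hP, hW]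
    push_cast
    linarith
  rcases eq_or_ne p 3 with rfl | h3
  · have hP : P0 d = 5 := by
      unfold P0
      rw [max_eq_left]
      have : (d.minFac : ℤ) ≤ 3 := by exact_mod_cast hmin
      linarith
    have h2d := ariW_dvd Nat.prime_three Nat.prime_two (by norm_num) hpd
    rw [hP]
    by_cases hs : 3 ^ 2 ∣ d
    · have hW : W (d / 3) = W d := by
        unfold W
        rw [if_congr h2d rfl rfl, if_pos ((ariW_sq Nat.prime_three hpd).mpr hs), if_pos hpd]
      rw [if_pos hs, if_pos hs, hW]
      have := ariW_pos d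
      push_cast
      linarith
    · have hW : W d = 2 * W (d / 3) := by
        unfold W
        rw [if_congr h2d rfl rfl, if_neg (fun h => hs ((ariW_sq Nat.prime_three hpd).mp h)),
          if_pos hpd]
        ring
      rw [if_neg hs, if_neg hs, hW]
      push_cast
      linarith
  · have h5 : 5 ≤ p := by
      have h6 := hp.two_le
      have h7 : p ≠ 4 := by
        rintro rfl
        exact absurd hp (by norm_num)
      omega
    have hP : P0 d ≤ p := by
      unfold P0
      exact max_le (by exact_mod_cast h5) (by exact_mod_cast hmin)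
    have hW : W (d / p) = W d := by
      unfold W
      rw [if_congr (ariW_dvd hp Nat.prime_two (Ne.symm h2) hpd) rfl rfl,
        if_congr (ariW_dvd hp Nat.prime_three (Ne.symm h3) hpd) rfl rfl]
    have hWd := ariW_pos d
    have h5' : (5 : ℤ) ≤ p := by exact_mod_cast h5
    rw [hW]
    by_cases hs : p ^ 2 ∣ d
    · rw [if_pos hs, if_pos hs]
      nlinarith [mul_le_mul_of_nonneg_right (sub_le_sub_right hP 1) (by linarith : (0 : ℤ) ≤ W d)]
    · rw [if_neg hs, if_neg hs]
      nlinarith [mul_le_mul_of_nonneg_right (sub_le_sub_right hP 1) (by linarith : (0 : ℤ) ≤ W d)]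

end Pool.Agent.FO
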