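import Pool.Agent.Lib.MP_640417_ag.FO.SpecR

/-!
# Theorem FR: the auxiliary quadratic character
-/

set_option autoImplicit false

open Finset Pool.Agent.FC

namespace Pool.Agent.FO

theorem pAuxEx : S_AuxEx := by
  intro m _
  have hm : m ≠ 0 := NeZero.ne m
  have hq : NeZero (8 * m) := ⟨by omega⟩
  obtain ⟨r, hr1, hr2, hr3⟩ := Nat.forall_exists_prime_gt_and_eq_mod (q := 8 * m)
    (a := (-1 : ZMod (8 * m))) (isUnit_one.neg) m
  have hfr : Fact r.Prime := ⟨hr2⟩
  have hdvd : 8 * m ∣ r + 1 := by
    rw [← ZMod.natCast_eq_zero_iff, Nat.cast_add, hr3, Nat.cast_one, neg_add_cancel]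
  have h8 : r % 8 = 7 := by
    have h1 : 8 ∣ r + 1 := dvd_trans (dvd_mul_right 8 m) hdvd
    omega
  have hr0 : r ≠ 2 := by
    rintro rfl
    omega
  have hchar : ringChar (ZMod r) ≠ 2 := by
    rw [ZMod.ringChar_zmod_n]
    exact hr0
  refine ⟨r, quadraticChar (ZMod r), hr2, ?_, ?_, ?_⟩
  · intro h
    have := Nat.le_of_dvd (by omega) h
    omega
  · rw [quadraticChar_neg_one hchar, ZMod.card]
    exact ZMod.χ₄_nat_three_mod_four (by omega)
  · intro p hp
    have hpp : p.Prime := Nat.prime_of_mem_primeFactors hp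
    have hpm : p ∣ m := Nat.dvd_of_mem_primeFactors hp
    have hfp : Fact p.Prime := ⟨hpp⟩
    have hpr : p ∣ r + 1 := dvd_trans (dvd_trans hpm (dvd_mul_left m 8)) hdvd
    have hcast : quadraticChar (ZMod r) (p : ZMod r) = legendreSym r (p : ℤ) := by
      unfold legendreSym
      rw [Int.cast_natCast]
    rw [hcast]
    by_cases h2 : p = 2
    · subst h2
      have h3 : ((2 : ℕ) : ℤ) = 2 := rfl
      rw [h3, legendreSym.at_two hr0, ZMod.χ₈_nat_eq_if_mod_eight, if_neg (by omega),
        if_pos (Or.inr h8)]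
    · have hp1 : p % 2 = 1 := by
        rcases hpp.eq_two_or_odd with h | h
        · exact absurd h h2
        · exact h
      have h3 : legendreSym p (r : ℤ) = legendreSym p (-1) := by
        unfold legendreSym
        have h4 : ((r : ℤ) : ZMod p) = ((-1 : ℤ) : ZMod p) := by
          have h5 : ((r + 1 : ℕ) : ZMod p) = 0 := (ZMod.natCast_eq_zero_iff _ _).2 hpr
          rw [Nat.cast_add, Nat.cast_one] at h5
          rw [Int.cast_natCast, Int.cast_neg, Int.cast_one]
          exact eq_neg_of_add_eq_zero_left h5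
        rw [h4]
      rw [legendreSym.quadratic_reciprocity' h2 hr0, h3, legendreSym.at_neg_one h2,
        ZMod.χ₄_eq_neg_one_pow hp1, ← pow_add]
      have h6 : Even (p / 2 * (r / 2) + p / 2) := by
        have h7 : p / 2 * (r / 2) + p / 2 = p / 2 * (r / 2 + 1) := by ring
        rw [h7]
        refine Even.mul_left ?_ _
        rw [Nat.even_iff]
        omega
      exact h6.neg_one_pow

end Pool.Agent.FO

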