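import Pool.Agent.Lib.MP_640417_ag.FO.SpecH

/-!
# Theorem FG: the large step for the levels divisible by `3`
-/

set_option autoImplicit false

noncomputable section

namespace Pool.Agent.FO

open Finset Pool.Agent.FC

namespace BigStep3Aux

private lemma wb_nn (n : ℕ) : 0 ≤ wb n := by
  unfold wb; split_ifs <;> norm_num

private lemma w3_nn (n : ℕ) : 0 ≤ w3 n := by
  unfold w3; split_ifs <;> norm_num

private lemma w1_nn (n : ℕ) : 0 ≤ w1 n := by
  unfold w1; split_ifs <;> norm_num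

private lemma wb_le (n : ℕ) : wb n ≤ 1 := by
  unfold wb; split_ifs <;> norm_num

private lemma w3_le (n : ℕ) : w3 n ≤ 1 := by
  unfold w3; split_ifs <;> norm_num

private lemma w1_le (n : ℕ) : w1 n ≤ 3 := by
  unfold w1; split_ifs <;> norm_num

private lemma w1_le2 (n : ℕ) (h : ¬ 15 ∣ n) : w1 n ≤ 2 := by
  unfold w1
  rw [if_neg h]
  split_ifs <;> norm_num

private lemma w3_wb (n : ℕ) : w3 n ≤ 1 * wb n := by
  unfold w3 wb; split_ifs <;> norm_num

private lemma w1_wb (n : ℕ) : w1 n ≤ 3 * wb n := by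
  unfold w1 wb; split_ifs <;> norm_num

private lemma w3_zero (n : ℕ) (h : ¬ 3 ∣ n) : w3 n = 0 := by
  unfold w3
  rw [if_neg h]
  split_ifs <;> rfl

private lemma cx_zero (d p : ℕ) [NeZero d] : cx d p 0 = 0 := by
  unfold cx nm
  simp

end BigStep3Aux

open BigStep3Aux

theorem pBigStep3 (hVVBas : S_VVBas) (hTopG : S_TopG) (hStepGen : S_StepGen) (hCxBas : S_CxBas)
    (hD9 : S_D9) (hD3 : S_D3) (hInG : S_InG) : S_BigStep3 := by
  intro m d _ hdm hd2 hd3 hd39 hd105 f hf hR hI hsup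
  have : NeZero d := ⟨by omega⟩
  have hord : ∀ x : ZMod m, 0 < addOrderOf x := fun x => addOrderOf_pos x
  -- weights at the level `d`
  have hsm : ¬ (d ≤ 39 ∨ d = 105) := by omega
  have wbd : wb d = 1 := by unfold wb; rw [if_neg hsm]
  have w3d : w3 d = 1 := by unfold w3; rw [if_neg hsm, if_pos hd3]
  -- the function at the level `d`
  have hT : TlA d (fun u : (ZMod d)ˣ => f (el m d u)) :=
    hTopG m d hdm f hf hR fun x hx hdx =>
      le_antisymm (hsup x hx (dvd_trans hd3 hdx)) (Nat.le_of_dvd (hord x) hdx)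
  have hFo : ∀ u : (ZMod d)ˣ, (fun u : (ZMod d)ˣ => f (el m d u)) (-1 * u) =
      -(fun u : (ZMod d)ˣ => f (el m d u)) u := by
    intro u
    change f (el m d (-1 * u)) = -f (el m d u)
    rw [neg_one_mul, (hEl m d hdm).2.2.2.2.1 u, hf]
  have h6 : ∀ w : ℕ → ℤ, (∀ n, 0 ≤ w n) →
      w d * nm (fun u : (ZMod d)ˣ => f (el m d u)) ≤ VV w f := fun w hw =>
    (hVVBas m w w f f hw hw).2.2.2.2.2 d hdm
  have hVle : ∀ (w w' : ℕ → ℤ) (c : ℤ), (∀ n, 0 ≤ w n) → (∀ n, 0 ≤ w' n) →
      (∀ n, w n ≤ c * w' n) → VV w f ≤ c * VV w' f := fun w w' c hw hw' h =>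
    (hVVBas m w w' f f hw hw').2.1 c fun n _ => h n
  have hb6 := h6 wb wb_nn
  have h36 := h6 w3 w3_nn
  have hV3b := hVle w3 wb 1 w3_nn wb_nn w3_wb
  have hV1b := hVle w1 wb 3 w1_nn wb_nn w1_wb
  rw [wbd] at hb6
  rw [w3d] at h36
  have hV3 : VV w3 f ≤ 12 := by
    rcases hI with h | h
    · omega
    · omega
  have hV1 : VV w1 f ≤ 36 := by
    rcases hI with h | h
    · omega
    · exact h.2
  have hn12 : nm (fun u : (ZMod d)ˣ => f (el m d u)) ≤ 12 := by
    omega
  -- the end of the proof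
  suffices hmain : ∃ E : ℕ → (ZMod d)ˣ → ℤ, Dcm d (fun u : (ZMod d)ˣ => f (el m d u)) E ∧
      ∀ h : ZMod m → ℤ, (∀ w : ℕ → ℤ, (∀ n, 0 ≤ w n) →
        (VV w (fun x => f x - h x) : ℚ) + w d * nm (fun u : (ZMod d)ˣ => f (el m d u)) ≤
          VV w f + ∑ p ∈ d.primeFactors, (w (d / p) : ℚ) * cx d p (E p)) →
        Inv (fun x => f x - h x) by
    obtain ⟨E, hE, hh⟩ := hmain
    obtain ⟨h, hh1, hh2, hh3, hh4⟩ := hStepGen m d hdm (Or.inl hd2) f E hE
    refine ⟨h, (hInG m h h).1 hh1, ((hHoBas m h h).1 hh1).1, ((hHoBas m h h).1 hh1).2, hh h hh4, ?_⟩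
    intro x hx h3x
    have hxd : addOrderOf x ≠ d := by
      intro he
      rw [hh2 x he, sub_self] at hx
      exact hx rfl
    by_cases hfx : f x = 0
    · have hhx : h x ≠ 0 := by
        intro h0
        rw [hfx, h0, sub_self] at hx
        exact hx rfl
      rcases hh3 x hhx with he | ⟨p, hp, he⟩
      · exact absurd he hxd
      · rw [he]
        exact Nat.div_lt_self (by omega) (Nat.prime_of_mem_primeFactors hp).one_lt
    · exact lt_of_le_of_ne (hsup x hfx h3x) hxd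
  have hcx0 : ∀ p ∈ d.primeFactors, ∀ E : (ZMod d)ˣ → ℤ, 0 ≤ cx d p E := fun p hp E =>
    (hCxBas d p hp E).1
  have hcxct : ∀ p ∈ d.primeFactors, ∀ E : (ZMod d)ˣ → ℤ, cx d p E ≤ ct (Kp d p) E :=
    fun p hp E => (hCxBas d p hp E).2.1 (Or.inl hd2)
  have hctnm : ∀ p ∈ d.primeFactors, ∀ E : (ZMod d)ˣ → ℤ, ct (Kp d p) E ≤ nm E :=
    fun p hp E => (hCxBas d p hp E).2.2.2.1
  -- the first situation: the potentials do not increase
  have hgood : ∀ E : ℕ → (ZMod d)ˣ → ℤ,
      (∀ w : ℕ → ℤ, (∀ n, 0 ≤ w n) → (∀ p ∈ d.primeFactors, w (d / p) ≤ w d) →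
        ∑ p ∈ d.primeFactors, (w (d / p) : ℚ) * cx d p (E p) ≤
          w d * nm (fun u : (ZMod d)ˣ => f (el m d u))) →
      ∀ h : ZMod m → ℤ, (∀ w : ℕ → ℤ, (∀ n, 0 ≤ w n) →
        (VV w (fun x => f x - h x) : ℚ) + w d * nm (fun u : (ZMod d)ˣ => f (el m d u)) ≤
          VV w f + ∑ p ∈ d.primeFactors, (w (d / p) : ℚ) * cx d p (E p)) →
        Inv (fun x => f x - h x) := by
    intro E hE h hh
    have hw : ∀ w : ℕ → ℤ, (∀ n, 0 ≤ w n) → (∀ p ∈ d.primeFactors, w (d / p) ≤ w d) →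
        VV w (fun x => f x - h x) ≤ VV w f := by
      intro w hw1 hw2
      have h1 := hh w hw1
      have h2 := hE w hw1 hw2
      have h3 : (VV w (fun x => f x - h x) : ℚ) ≤ VV w f := by linarith
      exact_mod_cast h3
    have e1 := hw wb wb_nn fun p _ => by rw [wbd]; exact wb_le _
    have e2 := hw w3 w3_nn fun p _ => by rw [w3d]; exact w3_le _
    have e3 := hw w1 w1_nn fun p hp => by
      by_cases h15 : 15 ∣ d
      · have : w1 d = 3 := by unfold w1; rw [if_neg hsm, if_pos h15]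
        rw [this]
        exact w1_le _
      · have : w1 d = 2 := by unfold w1; rw [if_neg hsm, if_neg h15]
        rw [this]
        exact w1_le2 _ fun h => h15 (dvd_trans h (Nat.div_dvd_of_dvd (Nat.dvd_of_mem_primeFactors hp)))
    rcases hI with hI | hI
    · exact Or.inl (le_trans e1 hI)
    · exact Or.inr ⟨le_trans e2 hI.1, le_trans e3 hI.2⟩
  by_cases hd9 : 9 ∣ d
  · obtain ⟨E, hE, hEs⟩ := hD9 d hd2 hd9 _ hFo hT hn12
    refine ⟨E, hE, hgood E fun w hw1 hw2 => ?_⟩
    have hwd : (0 : ℚ) ≤ w d := by exact_mod_cast hw1 d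
    calc ∑ p ∈ d.primeFactors, (w (d / p) : ℚ) * cx d p (E p)
        ≤ ∑ p ∈ d.primeFactors, (w d : ℚ) * ct (Kp d p) (E p) := by
          refine Finset.sum_le_sum fun p hp => ?_
          have h1 : (w (d / p) : ℚ) ≤ w d := by exact_mod_cast hw2 p hp
          exact mul_le_mul h1 (hcxct p hp _) (hcx0 p hp _) hwd
      _ = w d * ∑ p ∈ d.primeFactors, ct (Kp d p) (E p) := by rw [Finset.mul_sum]
      _ ≤ w d * nm (fun u : (ZMod d)ˣ => f (el m d u)) := mul_le_mul_of_nonneg_left hEs hwd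
  have h3d3 : ¬ 3 ∣ d / 3 := by
    intro h
    apply hd9
    obtain ⟨k, hk⟩ := hd3
    rw [hk, Nat.mul_div_cancel_left k (by norm_num)] at h
    obtain ⟨j, hj⟩ := h
    exact ⟨j, by rw [hk, hj]; ring⟩
  have h3m : 3 ∈ d.primeFactors := Nat.mem_primeFactors.2 ⟨Nat.prime_three, hd3, NeZero.ne d⟩
  obtain ⟨E, hE, hE3, hE'⟩ := hD3 d hd2 hd3 hd9 hd39 hd105 _ hFo hT hn12
  have hE3q : cx d 3 (E 3) ≤ nm (fun u : (ZMod d)ˣ => f (el m d u)) := by
    have h1 : (nm (E 3) : ℚ) ≤ nm (fun u : (ZMod d)ˣ => f (el m d u)) := by exact_mod_cast hE3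
    exact le_trans (hcxct 3 h3m _) (le_trans (hctnm 3 h3m _) h1)
  rcases hE' with hA | ⟨p, hp, hp57, hother, hnmp, hkF⟩
  · refine ⟨E, hE, hgood E fun w hw1 hw2 => ?_⟩
    have hwd : (0 : ℚ) ≤ w d := by exact_mod_cast hw1 d
    rw [Finset.sum_eq_single 3 (fun q hq hq3 => by rw [hA q hq hq3, cx_zero, mul_zero])
      (fun h => absurd h3m h)]
    have h1 : (w (d / 3) : ℚ) ≤ w d := by exact_mod_cast hw2 3 h3m
    exact mul_le_mul h1 hE3q (hcx0 3 h3m _) hwd
  -- the second situation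
  refine ⟨E, hE, fun h hh => ?_⟩
  have hp3 : 3 ≠ p := by omega
  have hpd : p ∣ d := Nat.dvd_of_mem_primeFactors hp
  have hsum : ∀ w : ℕ → ℤ, ∑ q ∈ d.primeFactors, (w (d / q) : ℚ) * cx d q (E q) =
      (w (d / 3) : ℚ) * cx d 3 (E 3) + (w (d / p) : ℚ) * cx d p (E p) := by
    intro w
    refine Finset.sum_eq_add 3 p hp3 (fun q hq hqq => ?_) (fun h => absurd h3m h)
      (fun h => absurd hp h)
    rw [hother q hq hqq.1 hqq.2, cx_zero, mul_zero]
  have hkap := (pKpBas d).2 p hp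
  have hkpos : (0 : ℤ) < (sK (Kp d p)).card := by
    rw [hkap]
    split_ifs <;> omega
  have hcxp : cx d p (E p) = if p ^ 2 ∣ d then 2 else 4 := by
    unfold cx
    rw [hnmp]
    have hk0 : ((sK (Kp d p)).card : ℚ) ≠ 0 := by
      have : (sK (Kp d p)).card ≠ 0 := by
        intro h0
        rw [h0] at hkpos
        exact absurd hkpos (by norm_num)
      exact_mod_cast this
    push_cast
    split_ifs
    · field_simp
    · field_simp
      norm_num
  have k3 := hh w3 w3_nn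
  have k1 := hh w1 w1_nn
  rw [hsum, w3d, w3_zero _ h3d3, hcxp] at k3
  rw [hsum, hcxp] at k1
  have hc30 := hcx0 3 h3m (E 3)
  have hw3p : (w3 (d / p) : ℚ) ≤ 1 := by exact_mod_cast w3_le (d / p)
  have hw3p0 : (0 : ℚ) ≤ w3 (d / p) := by exact_mod_cast w3_nn (d / p)
  have h15d3 : ¬ 15 ∣ d / 3 := fun h => h3d3 (dvd_trans ⟨5, rfl⟩ h)
  have hw13 : (w1 (d / 3) : ℚ) ≤ 2 := by exact_mod_cast w1_le2 _ h15d3
  have hw13' : (w1 (d / 3) : ℚ) * cx d 3 (E 3) ≤
      2 * nm (fun u : (ZMod d)ˣ => f (el m d u)) :=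
    mul_le_mul hw13 hE3q hc30 (by norm_num)
  set ν : ℤ := nm (fun u : (ZMod d)ˣ => f (el m d u)) with hν
  have hV3q : (VV w3 f : ℚ) ≤ 12 := by exact_mod_cast hV3
  have hV1q : (VV w1 f : ℚ) ≤ 36 := by exact_mod_cast hV1
  have hw1p : (w1 (d / p) : ℚ) ≤ 3 := by exact_mod_cast w1_le (d / p)
  rcases hp57 with rfl | rfl
  · -- `p = 5`
    have h15 : 15 ∣ d := by
      have h := Nat.Coprime.mul_dvd_of_dvd_of_dvd (by norm_num : Nat.Coprime 3 5) hd3 hpd
      exact h
    have hw1d : w1 d = 3 := by unfold w1; rw [if_neg hsm, if_pos h15]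
    rw [hw1d] at k1
    by_cases h25 : 5 ^ 2 ∣ d
    · rw [if_pos h25] at hkap k3 k1
      have hN : (10 : ℚ) ≤ ν := by
        have : (10 : ℤ) ≤ ν := by rw [hkap] at hkF; push_cast at hkF; linarith
        exact_mod_cast this
      refine Or.inr ⟨?_, ?_⟩
      · have : (VV w3 (fun x => f x - h x) : ℚ) ≤ 10 := by
          push_cast at k3
          linarith
        exact_mod_cast this
      · have : (VV w1 (fun x => f x - h x) : ℚ) ≤ 36 := by
          push_cast at k1
          linarith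
        exact_mod_cast this
    · rw [if_neg h25] at hkap k3 k1
      have hN : (8 : ℚ) ≤ ν := by
        have : (8 : ℤ) ≤ ν := by rw [hkap] at hkF; push_cast at hkF; linarith
        exact_mod_cast this
      have h15p : ¬ 15 ∣ d / 5 := by
        intro h
        apply h25
        obtain ⟨k, hk⟩ := hpd
        rw [hk, Nat.mul_div_cancel_left k (by norm_num)] at h
        obtain ⟨j, hj⟩ := h
        exact ⟨3 * j, by rw [hk, hj]; ring⟩
      have hw15 : (w1 (d / 5) : ℚ) ≤ 2 := by exact_mod_cast w1_le2 _ h15p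
      refine Or.inr ⟨?_, ?_⟩
      · have : (VV w3 (fun x => f x - h x) : ℚ) ≤ 10 := by
          push_cast at k3
          linarith
        exact_mod_cast this
      · have : (VV w1 (fun x => f x - h x) : ℚ) ≤ 36 := by
          push_cast at k1
          linarith
        exact_mod_cast this
  · -- `p = 7`
    by_cases h49 : 7 ^ 2 ∣ d
    · rw [if_pos h49] at hkap
      rw [hkap] at hkF
      push_cast at hkF
      omega
    · rw [if_neg h49] at hkap k3 k1
      rw [hkap] at hkF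
      push_cast at hkF
      have hN : ν = 12 := by omega
      have hNq : (ν : ℚ) = 12 := by rw [hN]; norm_num
      have hVb : VV wb f ≤ 12 := by
        rcases hI with h | h
        · exact h
        · omega
      -- all terms of positive weight have the order `d`
      have h5b := (hVVBas m wb wb f f wb_nn wb_nn).2.2.2.2.1 d hdm
      have h51 := (hVVBas m w1 w1 f f w1_nn w1_nn).2.2.2.2.1 d hdm
      rw [wbd, ← hν, hN] at h5b
      rw [← hν, hN] at h51
      have hS1 : ∑ x ∈ univ.filter (fun x : ZMod m => addOrderOf x ≠ d), |f x| * w1 (addOrderOf x) ≤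
          3 * ∑ x ∈ univ.filter (fun x : ZMod m => addOrderOf x ≠ d), |f x| * wb (addOrderOf x) := by
        rw [Finset.mul_sum]
        refine Finset.sum_le_sum fun x _ => ?_
        have h1 := mul_le_mul_of_nonneg_left (w1_wb (addOrderOf x)) (abs_nonneg (f x))
        linarith
      have hV1' : VV w1 f ≤ w1 d * 12 := by
        rw [h51]
        linarith
      have hV1q' : (VV w1 f : ℚ) ≤ w1 d * 12 := by exact_mod_cast hV1'
      rw [hNq] at k3 k1 hw13'
      refine Or.inr ⟨?_, ?_⟩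
      · have : (VV w3 (fun x => f x - h x) : ℚ) ≤ 10 := by
          push_cast at k3
          linarith
        exact_mod_cast this
      · have : (VV w1 (fun x => f x - h x) : ℚ) ≤ 36 := by
          linarith
        exact_mod_cast this

end Pool.Agent.FO
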