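import Pool.Agent.Lib.MP_640417_ag.FO.SpecR

/-! Module FO/Bne: `B_{1,χ} ≠ 0` for primitive odd characters (helper67). -/

set_option autoImplicit false

open Finset Pool.Agent.FC

namespace Pool.Agent.FO

private theorem Bne_unit (d : ℕ) [NeZero d] (k : ZMod d) (h : d ∣ addOrderOf k) :
    ∃ u : (ZMod d)ˣ, (u : ZMod d) = k := by
  have hd : d ≠ 0 := NeZero.ne d
  have h1 : addOrderOf k = d / d.gcd k.val := by
    conv_lhs => rw [← ZMod.natCast_zmod_val k]
    exact ZMod.addOrderOf_coe k.val hd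
  have hg : 0 < d.gcd k.val := Nat.gcd_pos_of_pos_left _ (Nat.pos_of_ne_zero hd)
  have h2 : d.gcd k.val = 1 := by
    by_contra hne
    have h3 : 1 < d.gcd k.val := by omega
    have h4 : d / d.gcd k.val < d := Nat.div_lt_self (Nat.pos_of_ne_zero hd) h3
    have h5 : 0 < d / d.gcd k.val :=
      Nat.div_pos (Nat.gcd_le_left _ (Nat.pos_of_ne_zero hd)) hg
    rw [h1] at h
    exact absurd (Nat.le_of_dvd h5 h) (not_le.2 h4)
  have h3 : k.val.Coprime d := by
    rw [Nat.Coprime, Nat.gcd_comm]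
    exact h2
  exact ⟨ZMod.unitOfCoprime k.val h3, by
    rw [ZMod.coe_unitOfCoprime, ZMod.natCast_zmod_val]⟩

theorem pBne (hAnv : S_Anv) (hSv : S_Sv) : S_Bne := by
  intro d _ χ hprim hodd h0
  obtain ⟨k, hk⟩ := hAnv d χ hodd
  have hdvd : d ∣ addOrderOf k := by
    by_contra hnd
    have h1 := hSv d d dvd_rfl χ hprim k hnd
    apply hk
    rw [← h1]
    refine Finset.sum_congr rfl fun t _ => ?_
    rw [ZMod.unitsMap_self]
    rfl
  obtain ⟨u, rfl⟩ := Bne_unit d k hdvd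
  apply hk
  have h2 : ∑ s : (ZMod d)ˣ, χ (s : ZMod d) * ((sz ((s : ZMod d) * (u : ZMod d)) : ℚ) : ℂ) =
      ∑ t : (ZMod d)ˣ, χ ((u⁻¹ : (ZMod d)ˣ) : ZMod d) *
        (χ (t : ZMod d) * ((sz (t : ZMod d) : ℚ) : ℂ)) := by
    refine Fintype.sum_equiv (Equiv.mulRight u) _ _ fun s => ?_
    rw [Equiv.coe_mulRight, ← mul_assoc, ← map_mul, ← Units.val_mul, ← Units.val_mul]
    congr 3
    change s = u⁻¹ * (s * u)
    rw [mul_comm s u, inv_mul_cancel_left]
  rw [h2, ← Finset.mul_sum, h0, mul_zero]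

end Pool.Agent.FO
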