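import Pool.Agent.Lib.MP_640417_ag.FO.SpecL
import Pool.Agent.Lib.MP_640417_ag.FC.Main

/-!
# Theorem FO: bridge from `IsTate` (helper17)
-/

set_option autoImplicit false

open Finset Pool.Agent.FC

namespace Pool.Agent.FO

theorem pBrg (hSzBas : S_SzBas) : S_Brg := by
  intro m N _ a ha
  obtain ⟨h1, h2, h3⟩ := (Pool.Agent.FC.final.1 m N a).1 ha
  refine ⟨h1, h2, fun t => ?_⟩
  have hsm : ∀ (k : ℕ) (x : ZMod m), k • (ZMod.toAddCircle x : UnitAddCircle) =
      ZMod.toAddCircle ((k : ZMod m) * x) := by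
    intro k x
    rw [← map_nsmul, nsmul_eq_mul]
  have hcop : ∀ i ∈ (univ : Finset (Fin N)),
      (t : ZMod m).val.Coprime (addOrderOf (ZMod.toAddCircle (a i) : UnitAddCircle)) := by
    intro i _
    refine Nat.Coprime.coprime_dvd_right ?_ (ZMod.val_coe_unit_coprime t)
    rw [addOrderOf_dvd_iff_nsmul_eq_zero, hsm]
    simp
  have h4 := h3 (t : ZMod m).val hcop
  have h5 : ∀ i : Fin N, sw ((t : ZMod m).val • (ZMod.toAddCircle (a i) : UnitAddCircle)) =
      ((sz ((t : ZMod m) * a i) : ℚ) : ℝ) := by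
    intro i
    rw [hsm, ZMod.natCast_zmod_val]
    refine ((hSzBas m _).2.2 ?_).symm
    intro h0
    exact h1 i (t.isUnit.mul_right_eq_zero.1 h0)
  rw [Finset.sum_congr rfl fun i _ => h5 i] at h4
  exact_mod_cast h4

end Pool.Agent.FO
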