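import Pool.Agent.Lib.MP_640417_ag.FO.SpecL
import Pool.Agent.Lib.MP_640417_ag.FC.Main
import Pool.Agent.Lib.MP_640417_ag.FC.B.Cop

/-!
# Theorems FO, FR: from Stickelberger's relation to Tate characters
-/

set_option autoImplicit false

open Finset Pool.Agent.FC

namespace Pool.Agent.FO

/-- Stickelberger's relation for a tuple with sum zero: it is a Tate character. -/
theorem isTate_of_St (hSzBas : S_SzBas) (m N : ℕ) [NeZero m] (a : Fin N → ZMod m) (h1 : ∀ i, a i ≠ 0)
    (h2 : ∑ i, a i = 0) (h3 : St a) : IsTate m a := by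
  refine (Pool.Agent.FC.final.1 m N a).2 ⟨h1, h2, fun t ht => ?_⟩
  have hsm : ∀ (k : ℕ) (x : ZMod m), k • (ZMod.toAddCircle x : UnitAddCircle) =
      ZMod.toAddCircle ((k : ZMod m) * x) := by
    intro k x
    rw [← map_nsmul, nsmul_eq_mul]
  have hm : 0 < m := Nat.pos_of_ne_zero (NeZero.ne m)
  have hord : ∀ i, addOrderOf (ZMod.toAddCircle (a i) : UnitAddCircle) ∣ m := by
    intro i
    rw [addOrderOf_dvd_iff_nsmul_eq_zero, hsm]
    simp
  set L := (univ : Finset (Fin N)).lcm (fun i => addOrderOf (ZMod.toAddCircle (a i) : UnitAddCircle)) with hL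
  have hLm : L ∣ m := Finset.lcm_dvd fun i _ => hord i
  have hL0 : 0 < L := Nat.pos_of_dvd_of_pos hLm hm
  have htL : t.Coprime L := by
    have : L ∣ ∏ i, addOrderOf (ZMod.toAddCircle (a i) : UnitAddCircle) :=
      Finset.lcm_dvd fun i _ => Finset.dvd_prod_of_mem _ (mem_univ i)
    exact Nat.Coprime.coprime_dvd_right this (Nat.Coprime.prod_right fun i hi => ht i hi)
  obtain ⟨t', ht1, ht2⟩ := tCop L m t hL0 hm htL
  have ht3 : t'.Coprime m := Nat.Coprime.coprime_mul_left_right ht2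
  have h4 := h3 (ZMod.unitOfCoprime t' ht3)
  have h5 : ∀ i : Fin N, sw (t • (ZMod.toAddCircle (a i) : UnitAddCircle)) =
      ((sz (((ZMod.unitOfCoprime t' ht3 : (ZMod m)ˣ) : ZMod m) * a i) : ℚ) : ℝ) := by
    intro i
    have h6 : t • (ZMod.toAddCircle (a i) : UnitAddCircle) = t' • (ZMod.toAddCircle (a i) : UnitAddCircle) := by
      rw [nsmul_eq_nsmul_iff_modEq]
      have h7 : addOrderOf (ZMod.toAddCircle (a i) : UnitAddCircle) ∣ L :=
        Finset.dvd_lcm (f := fun i => addOrderOf (ZMod.toAddCircle (a i) : UnitAddCircle)) (mem_univ i)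
      exact ht1.symm.of_dvd h7
    rw [h6, hsm, ZMod.coe_unitOfCoprime]
    refine ((hSzBas m _).2.2 ?_).symm
    intro h0
    have hu : IsUnit ((t' : ℕ) : ZMod m) := (ZMod.isUnit_iff_coprime t' m).2 ht3
    exact h1 i (hu.mul_right_eq_zero.1 h0)
  rw [Finset.sum_congr rfl fun i _ => h5 i]
  exact_mod_cast h4

end Pool.Agent.FO
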