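import Pool.Agent.Lib.MP_640417_ag.FO.SpecL

/-!
# Theorem FO: the class of an even function is in `HD` (helper27)
-/

set_option autoImplicit false

noncomputable section

namespace Pool.Agent.FO

open Finset Pool.Agent.FC

namespace ClEvenAux

theorem pair {y : UnitAddCircle} (hy : y ≠ 0) :
    (Finsupp.single y 1 + Finsupp.single (-y) 1 : UnitAddCircle →₀ ℤ) ∈ HD :=
  AddSubgroup.subset_closure (Or.inl ⟨y, hy, rfl⟩)

theorem pairZ {y : UnitAddCircle} (hy : y ≠ 0) (k : ℤ) :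
    (Finsupp.single y k + Finsupp.single (-y) k : UnitAddCircle →₀ ℤ) ∈ HD := by
  have h := HD.zsmul_mem (pair hy) k
  have e : (k • (Finsupp.single y 1 + Finsupp.single (-y) 1 : UnitAddCircle →₀ ℤ)) =
      Finsupp.single y k + Finsupp.single (-y) k := by
    rw [smul_add, Finsupp.smul_single, Finsupp.smul_single]
    simp
  rwa [e] at h

theorem quarter_ne {k : ℤ} (hk : ¬ (4 : ℤ) ∣ k) : (((k : ℝ) / 4 : ℝ) : UnitAddCircle) ≠ 0 := by
  intro h
  rw [AddCircle.coe_eq_zero_iff] at h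
  obtain ⟨n, hn⟩ := h
  apply hk
  refine ⟨n, ?_⟩
  have h1 : (k : ℝ) = 4 * (n : ℝ) := by
    rw [zsmul_eq_mul, mul_one] at hn
    rw [hn]
    ring
  exact_mod_cast h1

theorem neg_quarter : -(((1 : ℝ) / 4 : ℝ) : UnitAddCircle) = (((3 : ℝ) / 4 : ℝ) : UnitAddCircle) := by
  rw [← sub_eq_zero, ← AddCircle.coe_neg, ← AddCircle.coe_sub, AddCircle.coe_eq_zero_iff]
  exact ⟨-1, by norm_num⟩

theorem half1 : (Finsupp.single (((1 : ℝ) / 2 : ℝ) : UnitAddCircle) 1 : UnitAddCircle →₀ ℤ) ∈ HD := by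
  have h4 : (((1 : ℝ) / 4 : ℝ) : UnitAddCircle) ≠ 0 := by
    have := quarter_ne (k := 1) (by norm_num)
    simpa using this
  have h2 : (2 : ℕ) • (((1 : ℝ) / 4 : ℝ) : UnitAddCircle) = (((1 : ℝ) / 2 : ℝ) : UnitAddCircle) := by
    rw [← AddCircle.coe_nsmul]
    congr 1
    rw [nsmul_eq_mul]
    norm_num
  have h20 : (2 : ℕ) • (((1 : ℝ) / 4 : ℝ) : UnitAddCircle) ≠ 0 := by
    rw [h2]
    have := quarter_ne (k := 2) (by norm_num)
    have e : (((2 : ℤ) : ℝ) / 4 : ℝ) = 1 / 2 := by norm_num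
    rwa [e] at this
  have g2 : (∑ j ∈ range 2, Finsupp.single
        ((((1 : ℝ) / 4 : ℝ) : UnitAddCircle) + ((j / (2 : ℕ) : ℝ) : UnitAddCircle)) 1 -
      Finsupp.single ((2 : ℕ) • (((1 : ℝ) / 4 : ℝ) : UnitAddCircle)) 1 : UnitAddCircle →₀ ℤ) ∈ HD :=
    AddSubgroup.subset_closure (Or.inr ⟨2, _, by norm_num, h20, rfl⟩)
  have g1 := pair h4
  have e : (Finsupp.single (((1 : ℝ) / 2 : ℝ) : UnitAddCircle) 1 : UnitAddCircle →₀ ℤ) =
      (Finsupp.single (((1 : ℝ) / 4 : ℝ) : UnitAddCircle) 1 +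
        Finsupp.single (-(((1 : ℝ) / 4 : ℝ) : UnitAddCircle)) 1) -
      (∑ j ∈ range 2, Finsupp.single
        ((((1 : ℝ) / 4 : ℝ) : UnitAddCircle) + ((j / (2 : ℕ) : ℝ) : UnitAddCircle)) 1 -
      Finsupp.single ((2 : ℕ) • (((1 : ℝ) / 4 : ℝ) : UnitAddCircle)) 1) := by
    rw [h2, neg_quarter, Finset.sum_range_succ, Finset.sum_range_one]
    have e0 : ((((0 : ℕ) : ℝ) / ((2 : ℕ) : ℝ) : ℝ) : UnitAddCircle) = 0 := by
      simp
    have e1 : (((1 : ℝ) / 4 : ℝ) : UnitAddCircle) + ((((1 : ℕ) : ℝ) / ((2 : ℕ) : ℝ) : ℝ) : UnitAddCircle) =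
        (((3 : ℝ) / 4 : ℝ) : UnitAddCircle) := by
      rw [← AddCircle.coe_add]
      congr 1
      norm_num
    rw [e0, e1, add_zero]
    abel
  rw [e]
  exact HD.sub_mem g1 g2

theorem half (k : ℤ) :
    (Finsupp.single (((1 : ℝ) / 2 : ℝ) : UnitAddCircle) k : UnitAddCircle →₀ ℤ) ∈ HD := by
  have h := HD.zsmul_mem half1 k
  rw [Finsupp.smul_single] at h
  simpa using h

theorem eq_half {c : UnitAddCircle} (h0 : c ≠ 0) (h : -c = c) :
    c = (((1 : ℝ) / 2 : ℝ) : UnitAddCircle) := by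
  obtain ⟨r, rfl⟩ := QuotientAddGroup.mk_surjective c
  change ((r : ℝ) : UnitAddCircle) ≠ 0 at h0
  change -((r : ℝ) : UnitAddCircle) = ((r : ℝ) : UnitAddCircle) at h
  change ((r : ℝ) : UnitAddCircle) = _
  have h1 : ((r + r : ℝ) : UnitAddCircle) = 0 := by
    rw [AddCircle.coe_add]
    nth_rewrite 1 [← h]
    exact neg_add_cancel _
  rw [AddCircle.coe_eq_zero_iff] at h1
  obtain ⟨k, hk⟩ := h1
  rw [zsmul_eq_mul, mul_one] at hk
  rcases Int.even_or_odd k with ⟨l, hl⟩ | ⟨l, hl⟩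
  · exfalso
    apply h0
    rw [AddCircle.coe_eq_zero_iff]
    refine ⟨l, ?_⟩
    rw [zsmul_eq_mul, mul_one]
    rw [hl] at hk
    push_cast at hk
    linarith
  · rw [← sub_eq_zero, ← AddCircle.coe_sub, AddCircle.coe_eq_zero_iff]
    refine ⟨l, ?_⟩
    rw [zsmul_eq_mul, mul_one]
    rw [hl] at hk
    push_cast at hk
    linarith

end ClEvenAux

open ClEvenAux in
theorem pClEven : S_ClEven := by
  intro m _ e he0 he
  have key : QuotientAddGroup.mk' HD (cl e) = 0 := by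
    unfold cl
    rw [map_sum]
    refine Finset.sum_involution (fun x _ => -x) ?_ ?_ ?_ ?_
    · intro x _
      by_cases hx : x = 0
      · subst hx
        simp [he0]
      · have hc : (ZMod.toAddCircle x : UnitAddCircle) ≠ 0 := by
          intro h
          exact hx (ZMod.toAddCircle_injective m (by rw [h, map_zero]))
        rw [he x, map_neg, ← map_add]
        exact (QuotientAddGroup.eq_zero_iff _).mpr (pairZ hc (e x))
    · intro x _ hx hxx
      apply hx
      by_cases h0 : x = 0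
      · subst h0
        simp [he0]
      · have hc : (ZMod.toAddCircle x : UnitAddCircle) ≠ 0 := by
          intro h
          exact h0 (ZMod.toAddCircle_injective m (by rw [h, map_zero]))
        have hc2 : -(ZMod.toAddCircle x : UnitAddCircle) = ZMod.toAddCircle x := by
          rw [← map_neg, hxx]
        rw [eq_half hc hc2]
        exact (QuotientAddGroup.eq_zero_iff _).mpr (half (e x))
    · intro x _
      exact mem_univ _
    · intro x _
      exact neg_neg x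
  exact (QuotientAddGroup.eq_zero_iff _).mp key

end Pool.Agent.FO
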