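import Pool.Agent.Lib.MP_640417_ag.FO.SpecL

set_option autoImplicit false

/-!
# Theorem FO, module ClHd: the class of `hD p G` is in the group `HD`
-/

open Finset Pool.Agent.FC

namespace Pool.Agent.FO

namespace ClHdAux

private lemma rel {m : ℕ} [NeZero m] {p k : ℕ} (hp : p ≠ 0) (hk : m = p * k) (y : ZMod m)
    (hy : (p : ZMod m) * y ≠ 0) :
    ∑ x ∈ (univ : Finset (ZMod m)).filter (fun x => (p : ZMod m) * x = p * y),
      Finsupp.single (ZMod.toAddCircle x) (1 : ℤ) -
      Finsupp.single (ZMod.toAddCircle ((p : ZMod m) * y)) 1 ∈ HD := by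
  have hm0 : m ≠ 0 := NeZero.ne m
  have hk0 : k ≠ 0 := by
    rintro rfl
    exact hm0 (by simpa using hk)
  have hpm : (p : ZMod m) * ((k : ℕ) : ZMod m) = 0 := by
    rw [← Nat.cast_mul, ← hk, ZMod.natCast_self]
  have hsm : (p : ℕ) • ZMod.toAddCircle y = ZMod.toAddCircle ((p : ZMod m) * y) := by
    rw [← map_nsmul, nsmul_eq_mul]
  have hfib : ∑ j ∈ range p, Finsupp.single (ZMod.toAddCircle y + ((j / p : ℝ) : UnitAddCircle))
      (1 : ℤ) = ∑ x ∈ (univ : Finset (ZMod m)).filter (fun x => (p : ZMod m) * x = p * y),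
      Finsupp.single (ZMod.toAddCircle x) (1 : ℤ) := by
    refine Finset.sum_bij (fun j _ => y + ((k * j : ℕ) : ZMod m)) ?_ ?_ ?_ ?_
    · intro j _
      simp only [mem_filter, mem_univ, true_and]
      rw [mul_add, Nat.cast_mul, ← mul_assoc, hpm, zero_mul, add_zero]
    · intro i hi j hj h
      have h1 := add_left_cancel h
      have hlt : ∀ t ∈ range p, k * t < m := by
        intro t ht
        rw [hk, mul_comm p k]
        exact Nat.mul_lt_mul_of_pos_left (mem_range.1 ht) (Nat.pos_of_ne_zero hk0)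
      have h2 := congrArg ZMod.val h1
      rw [ZMod.val_natCast_of_lt (hlt i hi), ZMod.val_natCast_of_lt (hlt j hj)] at h2
      exact Nat.eq_of_mul_eq_mul_left (Nat.pos_of_ne_zero hk0) h2
    · intro x hx
      simp only [mem_filter, mem_univ, true_and] at hx
      have h1 : (p : ZMod m) * (x - y) = 0 := by rw [mul_sub, hx, sub_self]
      obtain ⟨t, ht⟩ : ∃ t : ZMod m, t = x - y := ⟨_, rfl⟩
      rw [← ht] at h1
      have h2 : ((p * t.val : ℕ) : ZMod m) = 0 := by
        rw [Nat.cast_mul, ZMod.natCast_zmod_val, h1]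
      rw [ZMod.natCast_eq_zero_iff] at h2
      have h3 : k ∣ t.val := by
        have h4 : p * k ∣ p * t.val := hk ▸ h2
        exact Nat.dvd_of_mul_dvd_mul_left (Nat.pos_of_ne_zero hp) h4
      obtain ⟨j, hj⟩ := h3
      have hjp : j < p := by
        have h5 := ZMod.val_lt t
        rw [hj] at h5
        have h6 : k * j < k * p := by
          calc k * j < m := h5
            _ = k * p := by rw [hk, mul_comm]
        exact Nat.lt_of_mul_lt_mul_left h6
      refine ⟨j, mem_range.2 hjp, ?_⟩
      rw [← hj, ZMod.natCast_zmod_val, ht]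
      abel
    · intro j _
      have h1 : ZMod.toAddCircle (((k * j : ℕ) : ZMod m)) = ((j / p : ℝ) : UnitAddCircle) := by
        rw [ZMod.toAddCircle_natCast]
        congr 1
        have hk' : (k : ℝ) ≠ 0 := Nat.cast_ne_zero.2 hk0
        have hp' : (p : ℝ) ≠ 0 := Nat.cast_ne_zero.2 hp
        have hm' : (m : ℝ) = p * k := by
          rw [hk]
          push_cast
          ring
        rw [hm']
        push_cast
        field_simp
      rw [map_add, h1]
  rw [← hfib, ← hsm]
  refine AddSubgroup.subset_closure (Or.inr ⟨p, ZMod.toAddCircle y, hp, ?_, rfl⟩)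
  rw [hsm]
  intro h
  exact hy (ZMod.toAddCircle_eq_zero.1 h)

end ClHdAux

theorem pClHd : S_ClHd := by
  intro m p _ hpm G hG0 hG
  obtain ⟨k, hk⟩ := hpm
  have hp : p ≠ 0 := by
    rintro rfl
    exact NeZero.ne m (by simpa using hk)
  have h1 : cl (hD p G) = ∑ z : ZMod m, G z •
      (∑ x ∈ (univ : Finset (ZMod m)).filter (fun x => (p : ZMod m) * x = z),
        Finsupp.single (ZMod.toAddCircle x) (1 : ℤ) - Finsupp.single (ZMod.toAddCircle z) 1) := by
    have h2 : ∑ x : ZMod m, Finsupp.single (ZMod.toAddCircle x) (G (p * x)) =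
        ∑ z : ZMod m, ∑ x ∈ (univ : Finset (ZMod m)).filter (fun x => (p : ZMod m) * x = z),
          Finsupp.single (ZMod.toAddCircle x) (G z) := by
      rw [← Finset.sum_fiberwise (s := (univ : Finset (ZMod m)))
        (g := fun x => (p : ZMod m) * x)]
      refine Finset.sum_congr rfl fun z _ => Finset.sum_congr rfl fun x hx => ?_
      rw [(mem_filter.1 hx).2]
    have h3 : ∀ (c : UnitAddCircle) (a : ℤ), Finsupp.single c a = a • Finsupp.single c (1 : ℤ) := by
      intro c a
      rw [Finsupp.smul_single, smul_eq_mul, mul_one]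
    unfold cl hD
    simp only [Finsupp.single_sub]
    rw [Finset.sum_sub_distrib, h2, ← Finset.sum_sub_distrib]
    refine Finset.sum_congr rfl fun z _ => ?_
    rw [smul_sub, Finset.smul_sum, ← h3]
    congr 1
    refine Finset.sum_congr rfl fun x _ => ?_
    rw [← h3]
  rw [h1]
  refine AddSubgroup.sum_mem _ fun z _ => ?_
  by_cases hz : G z = 0
  · rw [hz, zero_smul]
    exact AddSubgroup.zero_mem _
  · refine AddSubgroup.zsmul_mem _ ?_ _
    obtain ⟨y, rfl⟩ := hG z hz
    refine ClHdAux.rel hp hk y ?_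
    intro h
    rw [h] at hz
    exact hz hG0

end Pool.Agent.FO
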