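import Pool.Agent.Lib.MP_640417_ag.FO.SpecG

/-!
# Coset norms: basic facts
-/

set_option autoImplicit false

noncomputable section

namespace Pool.Agent.FO

open Finset Pool.Agent.FC

private theorem CnBas_inv {G : Type} [CommGroup G] [Fintype G] (K : Subgroup G) (F : G → ℤ) (k : G)
    (hk : k ∈ K) (a : G) : cn K F (k * a) = cn K F a :=
  (gTBas G K K (fun x => |F x|) F).2.2.1 k hk a

private theorem CnBas_mem {G : Type} [CommGroup G] [Fintype G] (K : Subgroup G) (k : G) :
    k ∈ sK K ↔ k ∈ K := (gTBas G K K (fun _ => 0) (fun _ => 0)).1 k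

private theorem CnBas_sum {G : Type} [CommGroup G] [Fintype G] (K : Subgroup G) (F : G → ℤ) :
    ∑ a, cn K F a = (sK K).card * nm F := by
  unfold cn
  rw [Finset.sum_comm]
  have h : ∀ b ∈ sK K, ∑ a, |F (b * a)| = nm F := fun b _ =>
    Fintype.sum_equiv (Equiv.mulLeft b) _ _ fun a => rfl
  rw [Finset.sum_congr rfl h, Finset.sum_const, nsmul_eq_mul]

private theorem CnBas_L {G : Type} [CommGroup G] [Fintype G] (K L : Subgroup G) (F : G → ℤ)
    (hKL : K ≤ L) (a : G) : ((sK K).card : ℤ) * cn L F a = ∑ c ∈ sK L, cn K F (c * a) := by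
  have h1 : ∑ c ∈ sK L, cn K F (c * a) = ∑ b ∈ sK K, cn L F a := by
    unfold cn
    rw [Finset.sum_comm]
    refine Finset.sum_congr rfl fun b hb => ?_
    have h2 : ∑ c ∈ sK L, |F (c * (b * a))| = ∑ c ∈ sK L, |F (c * a)| :=
      CnBas_inv L F b (hKL ((CnBas_mem K b).1 hb)) a
    rw [← h2]
    refine Finset.sum_congr rfl fun c _ => ?_
    rw [mul_left_comm]
  rw [h1, Finset.sum_const, nsmul_eq_mul]

theorem pCnBas : S_CnBas := by
  intro G _ _ K L F H
  have hpos : 0 < (sK K).card := (gTBas G K K F F).2.1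
  have h0 : ∀ a, 0 ≤ cn K F a := fun a => Finset.sum_nonneg fun _ _ => abs_nonneg _
  refine ⟨h0, fun a => ?_, fun k hk a => CnBas_inv K F k hk a, fun hKL a => ?_, fun a => ?_,
    CnBas_sum K F, fun hKL h a => ?_, fun h => ?_, fun τ s hs hF a => ?_⟩
  · have h1 := Finset.single_le_sum (f := fun b => |F (b * a)|) (fun b _ => abs_nonneg (F (b * a)))
      ((CnBas_mem K 1).2 K.one_mem)
    rw [one_mul] at h1
    exact h1
  · exact Finset.sum_le_sum_of_subset_of_nonneg
      (fun b hb => (CnBas_mem L b).2 (hKL ((CnBas_mem K b).1 hb))) fun _ _ _ => abs_nonneg _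
  · have h1 : cn K F a ≤ ∑ b, |F (b * a)| :=
      Finset.sum_le_sum_of_subset_of_nonneg (Finset.subset_univ _) fun _ _ _ => abs_nonneg _
    have h2 : ∑ b, |F (b * a)| = nm F := Fintype.sum_equiv (Equiv.mulRight a) _ _ fun b => rfl
    rwa [h2] at h1
  · have h1 : ((sK K).card : ℤ) * cn L H a ≤ (sK K).card * cn L F a := by
      rw [CnBas_L K L H hKL, CnBas_L K L F hKL]
      exact Finset.sum_le_sum fun c _ => h (c * a)
    exact le_of_mul_le_mul_left h1 (by exact_mod_cast hpos)
  · have h1 : ((sK K).card : ℤ) * nm H ≤ (sK K).card * nm F := by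
      rw [← CnBas_sum K H, ← CnBas_sum K F]
      exact Finset.sum_le_sum fun c _ => h c
    exact le_of_mul_le_mul_left h1 (by exact_mod_cast hpos)
  · unfold cn
    refine Finset.sum_congr rfl fun b _ => ?_
    rw [mul_left_comm, hF, abs_mul, hs, one_mul]

end Pool.Agent.FO
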