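import Pool.Agent.Lib.MP_640417_ag.FO.SpecG

/-!
# Theorem FG, part G: coset norms, sums over different cosets
-/

set_option autoImplicit false

noncomputable section

open Finset Pool.Agent.FC

namespace Pool.Agent.FO

theorem pCnSum : S_CnSum := by
  classical
  intro G _ _ K F A hA
  have hm : ∀ (M : Subgroup G) (k : G), k ∈ sK M ↔ k ∈ M := fun M =>
    (gTBas G M M (fun _ => 0) (fun _ => 0)).1
  have key : ∀ S : Finset G, (∀ a ∈ A, ∀ b ∈ K, b * a ∈ S) →
      ∑ a ∈ A, cn K F a ≤ ∑ x ∈ S, |F x| := by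
    intro S hS
    have h1 : ∑ a ∈ A, cn K F a =
        ∑ x ∈ A.biUnion (fun a => (sK K).image fun b => b * a), |F x| := by
      rw [Finset.sum_biUnion]
      · refine Finset.sum_congr rfl fun a _ => ?_
        rw [Finset.sum_image (fun b _ b' _ h => mul_right_cancel h)]
        rfl
      · intro a ha b hb hab
        change Disjoint ((sK K).image fun x => x * a) ((sK K).image fun x => x * b)
        rw [Finset.disjoint_left]
        intro x hx hx'
        rw [Finset.mem_image] at hx hx'
        obtain ⟨u, hu, rfl⟩ := hx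
        obtain ⟨v, hv, hv'⟩ := hx'
        apply hA a ha b hb hab
        have h2 : b * a⁻¹ = v⁻¹ * u := by
          rw [eq_inv_mul_iff_mul_eq, ← mul_assoc, hv', mul_inv_cancel_right]
        rw [h2]
        exact mul_mem (inv_mem ((hm K v).1 hv)) ((hm K u).1 hu)
    rw [h1]
    refine Finset.sum_le_sum_of_subset_of_nonneg ?_ (fun _ _ _ => abs_nonneg _)
    intro x hx
    rw [Finset.mem_biUnion] at hx
    obtain ⟨a, ha, hx⟩ := hx
    rw [Finset.mem_image] at hx
    obtain ⟨b, hb, rfl⟩ := hx
    exact hS a ha b ((hm K b).1 hb)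
  refine ⟨key Finset.univ (fun _ _ _ _ => Finset.mem_univ _), ?_⟩
  intro L c hKL hc
  have h1 := key ((sK L).image fun b => b * c) (by
    intro a ha b hb
    rw [Finset.mem_image]
    refine ⟨b * (a * c⁻¹), (hm L _).2 (mul_mem (hKL hb) (hc a ha)), ?_⟩
    rw [← mul_assoc, inv_mul_cancel_right])
  rw [Finset.sum_image (fun b _ b' _ h => mul_right_cancel h)] at h1
  exact h1

end Pool.Agent.FO
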