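import Pool.Agent.Lib.MP_640417_ag.FO.SpecR

set_option autoImplicit false

open Finset Pool.Agent.FC

namespace Pool.Agent.FO

namespace CntNSAux

private lemma sz_neg {m : ℕ} [NeZero m] (x : ZMod m) : sz (-x) = -sz x := by
  have hm : (0 : ℚ) < m := by exact_mod_cast Nat.pos_of_ne_zero (NeZero.ne m)
  by_cases hx : x = 0
  · rw [hx, neg_zero]
    unfold sz
    rw [if_pos rfl, neg_zero]
  · unfold sz
    rw [if_neg hx, if_neg (fun h => hx (neg_eq_zero.1 h)), ZMod.neg_val, if_neg hx,
      Nat.cast_sub (ZMod.val_lt x).le]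
    field_simp
    ring

/-- the number of elements with a property -/
private noncomputable def nc {m : ℕ} [NeZero m] (A : ZMod m → Prop) : ℕ := {x : ZMod m | A x}.ncard

private lemma nc_eq {m : ℕ} [NeZero m] (A : ZMod m → Prop) [DecidablePred A] :
    nc A = #(univ.filter fun x : ZMod m => A x) := by
  unfold nc
  rw [← Set.ncard_coe_finset]
  congr 1
  ext x
  simp

private lemma nc_congr {m : ℕ} [NeZero m] (A B : ZMod m → Prop) (h : ∀ x, A x ↔ B x) :
    nc A = nc B := by
  have : A = B := by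
    funext x
    exact propext (h x)
  rw [this]

private lemma nc_split {m : ℕ} [NeZero m] (A B : ZMod m → Prop) :
    nc (fun x => A x ∧ B x) + nc (fun x => A x ∧ ¬ B x) = nc A := by
  classical
  have h := Finset.card_filter_add_card_filter_not
    (s := univ.filter fun x : ZMod m => A x) (fun x => B x)
  rw [Finset.filter_filter, Finset.filter_filter] at h
  simp only [nc_eq]
  exact h

/-- one step: a set stable under translation by `m / p` -/
private lemma one (m p : ℕ) [NeZero m] (hp0 : 0 < p)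
    (h1 : ∀ x : ZMod m, ∃ j < p, Spc m p (x + j * ((m / p : ℕ) : ZMod m)) ∧
      ∀ i < p, Spc m p (x + i * ((m / p : ℕ) : ZMod m)) → i = j)
    (A : ZMod m → Prop) (hA : ∀ (x : ZMod m) (j : ℕ), A (x + j * ((m / p : ℕ) : ZMod m)) ↔ A x) :
    p * nc (fun x : ZMod m => A x ∧ ¬ Spc m p x) = (p - 1) * nc A := by
  classical
  have e1 : ∑ i ∈ range p, nc (fun x : ZMod m => A x ∧ Spc m p (x + i * ((m / p : ℕ) : ZMod m))) =
      nc A := by
    simp only [nc_eq, Finset.card_eq_sum_ones, Finset.sum_filter]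
    rw [Finset.sum_comm]
    apply Finset.sum_congr rfl
    intro x _
    by_cases hx : A x
    · obtain ⟨j, hj, hj1, hj2⟩ := h1 x
      rw [if_pos hx, Finset.sum_eq_single j]
      · rw [if_pos ⟨hx, hj1⟩]
      · intro i hi hij
        rw [if_neg]
        rintro ⟨-, h⟩
        exact hij (hj2 i (mem_range.1 hi) h)
      · intro h
        exact absurd (mem_range.2 hj) h
    · rw [if_neg hx]
      apply Finset.sum_eq_zero
      intro i _
      rw [if_neg]
      rintro ⟨h, -⟩
      exact hx h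
  have e2 : ∀ i ∈ range p,
      nc (fun x : ZMod m => A x ∧ Spc m p (x + i * ((m / p : ℕ) : ZMod m))) =
      nc (fun x : ZMod m => A x ∧ Spc m p x) := by
    intro i _
    simp only [nc_eq]
    apply Finset.card_equiv (Equiv.addRight ((i : ZMod m) * ((m / p : ℕ) : ZMod m)))
    intro x
    simp only [mem_filter, mem_univ, true_and, Equiv.coe_addRight, hA]
  rw [Finset.sum_congr rfl e2, Finset.sum_const, card_range, smul_eq_mul] at e1
  have e3 := nc_split A (fun x => Spc m p x)
  obtain ⟨p', rfl⟩ : ∃ p', p = p' + 1 := ⟨p - 1, by omega⟩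
  have e4 : (p' + 1 - 1) = p' := by omega
  rw [e4]
  nlinarith

private lemma cntS (hSpcBas : S_SpcBas) (m q : ℕ) [NeZero m] (hq : q ∈ m.primeFactors)
    (T : ZMod m → Prop) (S : Finset ℕ) (hS : ∀ p ∈ S, p ∈ m.primeFactors ∧ p ≠ q) :
    (∏ p ∈ S, p) *
        nc (fun x : ZMod m => T (((m / q : ℕ) : ZMod m) * x) ∧ ∀ p ∈ S, ¬ Spc m p x) =
      (∏ p ∈ S, (p - 1)) * nc (fun x : ZMod m => T (((m / q : ℕ) : ZMod m) * x)) := by
  classical
  induction S using Finset.induction_on with
  | empty => simp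
  | insert p S hpS ih =>
    have ih' := ih (fun p hp => hS p (mem_insert_of_mem hp))
    obtain ⟨hp, hpq⟩ := hS p (mem_insert_self p S)
    obtain ⟨B1, B2, B3, B4, B5, B6⟩ := hSpcBas m p hp
    have h1 := one m p (Nat.pos_of_mem_primeFactors hp) B1
      (fun x => T (((m / q : ℕ) : ZMod m) * x) ∧ ∀ p ∈ S, ¬ Spc m p x) (by
        intro x j
        rw [B4 q hq hpq.symm x j]
        have h2 : (∀ p' ∈ S, ¬ Spc m p' (x + j * ((m / p : ℕ) : ZMod m))) ↔
            ∀ p' ∈ S, ¬ Spc m p' x := by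
          apply forall₂_congr
          intro p' hp'
          have hne : p' ≠ p := by
            rintro rfl
            exact hpS hp'
          rw [B3 p' (hS p' (mem_insert_of_mem hp')).1 hne x j]
        rw [h2])
    rw [prod_insert hpS, prod_insert hpS]
    have e : nc (fun x : ZMod m => T (((m / q : ℕ) : ZMod m) * x) ∧
          ∀ p' ∈ insert p S, ¬ Spc m p' x) =
        nc fun x : ZMod m => (T (((m / q : ℕ) : ZMod m) * x) ∧
          ∀ p ∈ S, ¬ Spc m p x) ∧ ¬ Spc m p x := by
      apply nc_congr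
      intro x
      simp only [mem_insert, forall_eq_or_imp]
      tauto
    rw [e]
    calc p * (∏ p ∈ S, p) * nc (fun x : ZMod m => (T (((m / q : ℕ) : ZMod m) * x) ∧
          ∀ p ∈ S, ¬ Spc m p x) ∧ ¬ Spc m p x)
        = (∏ p ∈ S, p) * (p * nc (fun x : ZMod m => (T (((m / q : ℕ) : ZMod m) * x) ∧
          ∀ p ∈ S, ¬ Spc m p x) ∧ ¬ Spc m p x)) := by ring
      _ = (∏ p ∈ S, p) * ((p - 1) * nc (fun x : ZMod m => T (((m / q : ℕ) : ZMod m) * x) ∧
          ∀ p ∈ S, ¬ Spc m p x)) := by rw [h1]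
      _ = (p - 1) * ((∏ p ∈ S, p) * nc (fun x : ZMod m => T (((m / q : ℕ) : ZMod m) * x) ∧
          ∀ p ∈ S, ¬ Spc m p x)) := by ring
      _ = (p - 1) * (∏ p ∈ S, (p - 1)) *
          nc (fun x : ZMod m => T (((m / q : ℕ) : ZMod m) * x)) := by
        rw [ih']
        ring

private lemma top (m q : ℕ) [NeZero m] (hq : q ∈ m.primeFactors) :
    q * nc (fun x : ZMod m => ((m / q : ℕ) : ZMod m) * x ≠ 0) ≤ (q - 1) * m := by
  classical
  have hqp := Nat.prime_of_mem_primeFactors hq
  have hqm := Nat.dvd_of_mem_primeFactors hq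
  have hm : 0 < m := Nat.pos_of_ne_zero (NeZero.ne m)
  have h1 : m / q ≤ nc (fun x : ZMod m => ¬ ((m / q : ℕ) : ZMod m) * x ≠ 0) := by
    rw [nc_eq]
    have h0 : #(range (m / q)) ≤
        #(univ.filter fun x : ZMod m => ¬ ((m / q : ℕ) : ZMod m) * x ≠ 0) := by
      apply Finset.card_le_card_of_injOn (fun i : ℕ => ((q * i : ℕ) : ZMod m))
      · intro i _
        rw [Finset.mem_coe, Finset.mem_filter, not_not]
        refine ⟨mem_univ _, ?_⟩
        rw [← Nat.cast_mul, ← mul_assoc, Nat.div_mul_cancel hqm]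
        simp
      · intro i hi j hj h
        rw [coe_range, Set.mem_Iio] at hi hj
        have h' : ((q * i : ℕ) : ZMod m) = ((q * j : ℕ) : ZMod m) := h
        rw [ZMod.natCast_eq_natCast_iff'] at h'
        have hlt : ∀ i < m / q, q * i < m := by
          intro i hi
          calc q * i < q * (m / q) := Nat.mul_lt_mul_of_pos_left hi hqp.pos
            _ = m := Nat.mul_div_cancel' hqm
        rw [Nat.mod_eq_of_lt (hlt i hi), Nat.mod_eq_of_lt (hlt j hj)] at h'
        exact Nat.eq_of_mul_eq_mul_left hqp.pos h'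
    rwa [card_range] at h0
  have h2 := nc_split (fun _ : ZMod m => True) (fun x => ((m / q : ℕ) : ZMod m) * x ≠ 0)
  simp only [true_and] at h2
  have h4 : nc (fun _ : ZMod m => True) = m := by
    rw [nc_eq, Finset.filter_true, Finset.card_univ, ZMod.card]
  rw [h4] at h2
  have h3 : q * (m / q) = m := Nat.mul_div_cancel' hqm
  obtain ⟨q', rfl⟩ : ∃ q', q = q' + 1 := ⟨q - 1, by have := hqp.pos; omega⟩
  have e4 : (q' + 1 - 1) = q' := by omega
  rw [e4]
  nlinarith

private lemma fin (m N N0 q : ℕ) (hq : q ∈ m.primeFactors)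
    (h1 : (∏ p ∈ m.primeFactors.erase q, p) * N = (∏ p ∈ m.primeFactors.erase q, (p - 1)) * N0)
    (h2 : q * N0 ≤ (q - 1) * m) : N ≤ m.totient := by
  have h3 := Nat.totient_mul_prod_primeFactors m
  have hpos : 0 < ∏ p ∈ m.primeFactors, p :=
    Finset.prod_pos fun p hp => Nat.pos_of_mem_primeFactors hp
  apply Nat.le_of_mul_le_mul_left _ hpos
  calc (∏ p ∈ m.primeFactors, p) * N = q * ((∏ p ∈ m.primeFactors.erase q, p) * N) := by
        rw [← Finset.mul_prod_erase _ _ hq]
        ring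
    _ = (∏ p ∈ m.primeFactors.erase q, (p - 1)) * (q * N0) := by
        rw [h1]
        ring
    _ ≤ (∏ p ∈ m.primeFactors.erase q, (p - 1)) * ((q - 1) * m) := Nat.mul_le_mul_left _ h2
    _ = m * ∏ p ∈ m.primeFactors, (p - 1) := by
        rw [← Finset.mul_prod_erase _ (fun p => p - 1) hq]
        ring
    _ = (∏ p ∈ m.primeFactors, p) * m.totient := by
        rw [← h3]
        ring

private lemma main (hSpcBas : S_SpcBas) (m q : ℕ) [NeZero m] (hq : q ∈ m.primeFactors) :
    nc (fun x => NS m q x) ≤ m.totient ∧ 2 * nc (fun x => NS m q x ∧ Pos m q x) ≤ m.totient := by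
  classical
  have hS : ∀ p ∈ m.primeFactors.erase q, p ∈ m.primeFactors ∧ p ≠ q := by
    intro p hp
    rw [Finset.mem_erase] at hp
    exact ⟨hp.2, hp.1⟩
  have hS' : ∀ x : ZMod m, (∀ p ∈ m.primeFactors.erase q, ¬ Spc m p x) ↔
      ∀ p ∈ m.primeFactors, p ≠ q → ¬ Spc m p x := by
    intro x
    simp only [Finset.mem_erase]
    tauto
  have ht := top m q hq
  constructor
  · have h1 := cntS hSpcBas m q hq (fun y => y ≠ 0) _ hS
    have h2 := fin m _ _ q hq h1 ht
    refine le_trans (le_of_eq (nc_congr _ _ ?_)) h2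
    intro x
    rw [hS']
    rfl
  · have h1 := cntS hSpcBas m q hq (fun y => y ≠ 0 ∧ 0 < sz y) _ hS
    have h3 : 2 * nc (fun x : ZMod m => ((m / q : ℕ) : ZMod m) * x ≠ 0 ∧
        0 < sz (((m / q : ℕ) : ZMod m) * x)) ≤
        nc (fun x : ZMod m => ((m / q : ℕ) : ZMod m) * x ≠ 0) := by
      have e := nc_split (fun x : ZMod m => ((m / q : ℕ) : ZMod m) * x ≠ 0)
        (fun x => 0 < sz (((m / q : ℕ) : ZMod m) * x))
      have e2 : nc (fun x : ZMod m => ((m / q : ℕ) : ZMod m) * x ≠ 0 ∧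
          0 < sz (((m / q : ℕ) : ZMod m) * x)) ≤
          nc (fun x : ZMod m => ((m / q : ℕ) : ZMod m) * x ≠ 0 ∧
          ¬ 0 < sz (((m / q : ℕ) : ZMod m) * x)) := by
        rw [nc_eq, nc_eq]
        apply Finset.card_le_card_of_injOn (fun x => -x)
        · intro x hx
          rw [Finset.mem_coe, Finset.mem_filter] at hx ⊢
          rw [mul_neg, neg_ne_zero, sz_neg]
          refine ⟨mem_univ _, hx.2.1, ?_⟩
          linarith [hx.2.2]
        · intro x _ y _ h
          exact neg_injective h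
      omega
    have h2 := fin m (2 * nc (fun x : ZMod m => (((m / q : ℕ) : ZMod m) * x ≠ 0 ∧
        0 < sz (((m / q : ℕ) : ZMod m) * x)) ∧ ∀ p ∈ m.primeFactors.erase q, ¬ Spc m p x))
      (2 * nc (fun x : ZMod m => ((m / q : ℕ) : ZMod m) * x ≠ 0 ∧
        0 < sz (((m / q : ℕ) : ZMod m) * x))) q hq (by
          rw [mul_left_comm, mul_left_comm _ 2, h1]) (le_trans (Nat.mul_le_mul_left q h3) ht)
    refine le_trans (le_of_eq ?_) h2
    rw [nc_congr (fun x => NS m q x ∧ Pos m q x) (fun x : ZMod m =>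
      (((m / q : ℕ) : ZMod m) * x ≠ 0 ∧ 0 < sz (((m / q : ℕ) : ZMod m) * x)) ∧
        ∀ p ∈ m.primeFactors.erase q, ¬ Spc m p x)]
    intro x
    rw [hS']
    unfold NS Pos Tp
    tauto

end CntNSAux

open CntNSAux

theorem pCntNS (hSpcBas : S_SpcBas) : S_CntNS := by
  intro m q _ hq _
  exact main hSpcBas m q hq

end Pool.Agent.FO
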