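import Pool.Agent.Lib.MP_640417_ag.FO.SpecH

/-!
# Theorem FG, part H: costs
-/

set_option autoImplicit false

noncomputable section

namespace Pool.Agent.FO

open Finset Pool.Agent.FC

private theorem CxBas_nm {G : Type} [Fintype G] (E : G → ℤ) : (0 : ℚ) ≤ (nm E : ℚ) := by
  have h : 0 ≤ nm E := Finset.sum_nonneg fun a _ => abs_nonneg _
  exact_mod_cast h

theorem pCxBas : S_CxBas := by
  intro d _ p hp E
  have hpp : p.Prime := Nat.prime_of_mem_primeFactors hp
  have hpd : p ∣ d := Nat.dvd_of_mem_primeFactors hp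
  have hn := CxBas_nm E
  have hk := (pKpBas d).2 p hp
  have h2 := hpp.two_le
  unfold cx ct
  generalize (sK (Kp d p)).card = k at hk ⊢
  generalize (nm E : ℚ) = n at hn ⊢
  by_cases hpq : p ^ 2 ∣ d
  · rw [if_pos hpq] at hk
    have hkp : k = p := by exact_mod_cast hk
    subst hkp
    rw [if_pos hpq]
    have hk0 : (0 : ℚ) < (k : ℚ) := by exact_mod_cast hpp.pos
    have hk2 : (2 : ℚ) ≤ (k : ℚ) := by exact_mod_cast h2
    have hc1 : (1 : ℚ) ≤ (co k : ℚ) ∧ (co k : ℚ) ≤ 2 := by
      unfold co
      split_ifs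
      · norm_num
      · norm_num
    have e1 : 0 ≤ n / (k : ℚ) := div_nonneg hn hk0.le
    have r1 : ∀ c : ℚ, c / (k : ℚ) * n = c * (n / k) := fun c => by ring
    rw [r1, r1]
    refine ⟨by linarith, fun _ => ?_, fun hp2 => ?_, ?_, ?_⟩
    · exact mul_le_mul_of_nonneg_right hc1.1 e1
    · have hodd : k % 2 = 1 := Nat.odd_iff.mp (hpp.odd_of_ne_two hp2)
      unfold co
      rw [if_pos hodd]
      norm_num
    · calc (co k : ℚ) * (n / k) ≤ k * (n / k) :=
            mul_le_mul_of_nonneg_right (hc1.2.trans hk2) e1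
        _ = n := by field_simp
    · exact mul_nonneg (by linarith [hc1.1]) e1
  · rw [if_neg hpq] at hk
    rw [if_neg hpq]
    have hkp : k = p - 1 := by omega
    by_cases hp2 : p = 2
    · subst hp2
      have hk1 : k = 1 := by omega
      subst hk1
      have hco : co 1 = 1 := by
        unfold co
        norm_num
      rw [hco]
      refine ⟨by push_cast; linarith, fun h => ?_, fun h => absurd rfl h, by push_cast; linarith,
        by push_cast; linarith⟩
      exfalso
      rcases h with h | h
      · exact h hpd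
      · exact hpq (by norm_num; exact h)
    · have hodd := Nat.odd_iff.mp (hpp.odd_of_ne_two hp2)
      have hk2 : 2 ≤ k := by omega
      have hke : ¬ k % 2 = 1 := by omega
      have hco : co k = 2 := by
        unfold co
        rw [if_neg hke]
      rw [hco]
      have hk2' : (2 : ℚ) ≤ (k : ℚ) := by exact_mod_cast hk2
      have hk0 : (0 : ℚ) < (k : ℚ) := by linarith
      have e1 : 0 ≤ n / (k : ℚ) := div_nonneg hn hk0.le
      have r1 : ∀ c : ℚ, c / (k : ℚ) * n = c * (n / k) := fun c => by ring
      rw [r1, r1]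
      push_cast
      refine ⟨by linarith, fun _ => le_rfl, fun _ => rfl, ?_, by linarith⟩
      calc (2 : ℚ) * (n / k) ≤ k * (n / k) := mul_le_mul_of_nonneg_right hk2' e1
        _ = n := by field_simp

end Pool.Agent.FO
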