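import Pool.Agent.Lib.MP_640417_ag.FO.SpecH

/-!
# Levels exactly divisible by 3
-/

set_option autoImplicit false

noncomputable section

namespace Pool.Agent.FO

open Finset Pool.Agent.FC

/-- the first case: `F` is invariant under `Kp d 3` -/
private theorem d3inv (d : ℕ) [NeZero d] (F : (ZMod d)ˣ → ℤ) (h3 : 3 ∈ d.primeFactors)
    (hodd : ∀ u, F (-1 * u) = -F u) (hinv : ∀ k ∈ Kp d 3, ∀ a, F (k * a) = F a) :
    ∃ E, Dcm d F E ∧ nm (E 3) ≤ nm F ∧
      ((∀ p ∈ d.primeFactors, p ≠ 3 → E p = 0) ∨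
        ∃ p ∈ d.primeFactors, (p = 5 ∨ p = 7) ∧ (∀ q ∈ d.primeFactors, q ≠ 3 → q ≠ p → E q = 0) ∧
          nm (E p) = 2 * (sK (Kp d p)).card ∧ 2 * ((sK (Kp d p)).card : ℤ) ≤ nm F) := by
  refine ⟨fun q => if q = 3 then F else 0, ⟨?_, ?_⟩, ?_, Or.inl ?_⟩
  · intro p _
    by_cases h : p = 3
    · subst h
      simp only [if_pos]
      exact ⟨hodd, hinv⟩
    · simp [h]
  · intro u
    rw [Finset.sum_eq_single_of_mem 3 h3]
    · simp
    · intro b _ hb
      simp [hb]
  · simp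
  · intro p _ hp
    simp [hp]

theorem pD3 (hD3h : S_D3h) (hHLem : S_HLem) : S_D3 := by
  intro d _ h2 h3 h9 h39 h105 F hodd hTl hnm
  obtain ⟨κ, hK3, hκ1, hκκ, hcase⟩ := hD3h d h2 h3 h9 h39 h105 F hodd hTl hnm
  have h3p : 3 ∈ d.primeFactors :=
    Nat.mem_primeFactors.2 ⟨Nat.prime_three, h3, NeZero.ne d⟩
  have hε : (-1 : (ZMod d)ˣ) * -1 = 1 := by simp
  rcases hcase with h0 | ⟨p, hp, hp57, a, s, hs, hn, hp1, hp2, hp3, hT⟩
  · rcases hHLem (ZMod d)ˣ (Kp d) (Kp d 3) [] (-1) κ hK3 hκ1 hε hκκ (by simp) F hodd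
      (Or.inl h0) with hinv | ⟨p, hp, _⟩
    · exact d3inv d F h3p hodd hinv
    · simp at hp
  · have hls : ∀ q ∈ [p], (-1 : (ZMod d)ˣ) ∉ Kp d q ∧ κ ∉ Kp d q ∧ -1 * κ ∉ Kp d q := by
      intro q hq
      rw [List.mem_singleton] at hq
      subst hq
      exact ⟨hp1, hp2, hp3⟩
    rcases hHLem (ZMod d)ˣ (Kp d) (Kp d 3) [p] (-1) κ hK3 hκ1 hε hκκ hls F hodd
      (Or.inr ⟨p, List.mem_singleton.2 rfl, a, s, hs, hn, hT⟩) with
      hinv | ⟨q, hq, E, hEodd, hEinv, hEn, hEc, hEF, hE3⟩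
    · exact d3inv d F h3p hodd hinv
    · rw [List.mem_singleton] at hq
      subst hq
      have hq3 : q ≠ 3 := by rcases hp57 with h | h <;> omega
      refine ⟨fun r => if r = q then E else if r = 3 then fun a => F a - E a else 0,
        ⟨?_, ?_⟩, ?_, Or.inr ⟨q, hp, hp57, ?_, ?_, hEc⟩⟩
      · intro r _
        by_cases h : r = q
        · subst h
          simp only [if_pos]
          exact ⟨hEodd, hEinv⟩
        · by_cases h' : r = 3
          · subst h'
            simp only [if_neg h, if_pos]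
            refine ⟨fun u => ?_, hE3⟩
            rw [hodd, hEodd]
            ring
          · simp [h, h']
      · intro u
        rw [Finset.sum_eq_add_of_mem q 3 hp h3p hq3]
        · simp [hq3.symm]
        · rintro c _ ⟨hc1, hc2⟩
          simp [hc1, hc2]
      · simp only [if_neg hq3.symm, if_pos]
        exact hEF
      · intro r _ hr3 hrq
        simp [hr3, hrq]
      · simp only [if_pos]
        exact hEn

end Pool.Agent.FO
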