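import Pool.Agent.Lib.MP_640417_ag.FO.SpecH

/-!
# Theorem FG, part H, module D3h: levels exactly divisible by 3, relation for the difference
-/

set_option autoImplicit false

noncomputable section

namespace Pool.Agent.FO

open Finset Pool.Agent.FC

namespace D3hAux

theorem exists_ls (P : Finset ℕ) : ∃ ls : List ℕ, ls.Nodup ∧
    (∀ p, p ∈ ls ↔ p ∈ P ∧ (p = 5 ∨ p = 7)) ∧ (ls = [] ∨ ls = [5] ∨ ls = [7] ∨ ls = [7, 5]) := by
  by_cases h7 : 7 ∈ P <;> by_cases h5 : 5 ∈ P
  · refine ⟨[7, 5], by decide, fun p => ?_, by tauto⟩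
    simp only [List.mem_cons, List.not_mem_nil, or_false]
    constructor
    · rintro (rfl | rfl)
      · exact ⟨h7, Or.inr rfl⟩
      · exact ⟨h5, Or.inl rfl⟩
    · rintro ⟨_, h⟩
      exact h.symm
  · refine ⟨[7], by decide, fun p => ?_, by tauto⟩
    simp only [List.mem_cons, List.not_mem_nil, or_false]
    constructor
    · rintro rfl
      exact ⟨h7, Or.inr rfl⟩
    · rintro ⟨h, rfl | rfl⟩
      · exact absurd h h5
      · rfl
  · refine ⟨[5], by decide, fun p => ?_, by tauto⟩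
    simp only [List.mem_cons, List.not_mem_nil, or_false]
    constructor
    · rintro rfl
      exact ⟨h5, Or.inl rfl⟩
    · rintro ⟨h, rfl | rfl⟩
      · rfl
      · exact absurd h h7
  · refine ⟨[], by decide, fun p => ?_, by tauto⟩
    constructor
    · intro h
      exact absurd h List.not_mem_nil
    · rintro ⟨h, rfl | rfl⟩
      · exact absurd h h5
      · exact absurd h h7

theorem le_KS {G : Type} [Group G] (K : ℕ → Subgroup G) {l : List ℕ} {p : ℕ} (hp : p ∈ l) :
    K p ≤ KS K l := by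
  induction l with
  | nil => exact absurd hp List.not_mem_nil
  | cons i l ih =>
    rcases List.mem_cons.1 hp with rfl | h
    · exact le_sup_left
    · exact (ih h).trans le_sup_right

theorem dvd_div {d p q : ℕ} (hp : p.Prime) (hq : q.Prime) (hpq : p ≠ q) (hpd : p ∣ d)
    (hqd : q ∣ d) : q ∣ d / p := by
  have h1 : p * q ∣ d := ((Nat.coprime_primes hp hq).2 hpq).mul_dvd_of_dvd_of_dvd hpd hqd
  exact (Nat.dvd_div_iff_mul_dvd hpd).2 h1

theorem dvd_div_sq {d p : ℕ} (hpd : p ∣ d) (h : p ^ 2 ∣ d) : p ∣ d / p := by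
  refine (Nat.dvd_div_iff_mul_dvd hpd).2 ?_
  rwa [← sq]

/-- `d` squarefree with prime divisors in `s`. -/
theorem dvd_prod {d : ℕ} (s : Finset ℕ) (hs : d.primeFactors ⊆ s)
    (hsq : ∀ p, p.Prime → ¬ p ^ 2 ∣ d) : d ∣ ∏ p ∈ s, p := by
  have h1 : Squarefree d := by
    rw [Nat.squarefree_iff_prime_squarefree]
    intro p hp h
    exact hsq p hp (by rwa [sq])
  rw [← Nat.prod_primeFactors_of_squarefree h1]
  exact Finset.prod_dvd_prod_of_subset _ _ _ hs

/-- Four different cosets. -/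
theorem four {G : Type} [CommGroup G] [Fintype G] (hCnSum : S_CnSum) (M : Subgroup G) (e κ : G)
    (he : e * e = 1) (hκ : κ * κ = 1) (n1 : e ∉ M) (n2 : κ ∉ M) (n3 : e * κ ∉ M) (h : G → ℤ)
    (a : G) (c1 : cn M h (e * a) = cn M h a) (c2 : cn M h (κ * a) = cn M h a)
    (c3 : cn M h (e * κ * a) = cn M h a) : 4 * cn M h a ≤ nm h := by
  classical
  have e1 : e ≠ 1 := fun h => n1 (by rw [h]; exact one_mem _)
  have e2 : κ ≠ 1 := fun h => n2 (by rw [h]; exact one_mem _)
  have e3 : e * κ ≠ 1 := fun h => n3 (by rw [h]; exact one_mem _)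
  have e4 : e ≠ κ := fun h => e3 (by rw [h, hκ])
  have e5 : e ≠ e * κ := fun h => e2 (mul_eq_left.1 h.symm)
  have e6 : κ ≠ e * κ := fun h => e1 (mul_eq_right.1 h.symm)
  have i1 : e⁻¹ = e := inv_eq_of_mul_eq_one_right he
  have i2 : κ⁻¹ = κ := inv_eq_of_mul_eq_one_right hκ
  have i3 : (e * κ)⁻¹ = e * κ := by rw [mul_inv, i1, i2]
  let S : Finset G := {1, e, κ, e * κ}
  have hS : ∀ g, g ∈ S ↔ g = 1 ∨ g = e ∨ g = κ ∨ g = e * κ := by
    intro g
    simp [S]
  have key : ∀ g ∈ S, ∀ g' ∈ S, g ≠ g' → g' * g⁻¹ ∉ M := by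
    intro g hg g' hg' hne
    rcases (hS g).1 hg with rfl | rfl | rfl | rfl
    · rw [inv_one, mul_one]
      rcases (hS g').1 hg' with rfl | rfl | rfl | rfl
      · exact absurd rfl hne
      · exact n1
      · exact n2
      · exact n3
    · rw [i1]
      rcases (hS g').1 hg' with rfl | rfl | rfl | rfl
      · rwa [one_mul]
      · exact absurd rfl hne
      · rwa [mul_comm]
      · rwa [mul_right_comm, he, one_mul]
    · rw [i2]
      rcases (hS g').1 hg' with rfl | rfl | rfl | rfl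
      · rwa [one_mul]
      · exact n3
      · exact absurd rfl hne
      · rwa [mul_assoc, hκ, mul_one]
    · rw [i3]
      rcases (hS g').1 hg' with rfl | rfl | rfl | rfl
      · rwa [one_mul]
      · rwa [← mul_assoc, he, one_mul]
      · rwa [mul_left_comm, hκ, mul_one]
      · exact absurd rfl hne
  have h1 := (hCnSum G M h (S.image (fun g => g * a)) ?_).1
  · rw [Finset.sum_image (fun x _ y _ hxy => mul_right_cancel hxy)] at h1
    have h2 : ∑ g ∈ S, cn M h (g * a) = 4 * cn M h a := by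
      have h3 : S.card = 4 := by
        have m1 : (1 : G) ∉ ({e, κ, e * κ} : Finset G) := by
          simp only [Finset.mem_insert, Finset.mem_singleton]
          rintro (h | h | h)
          · exact e1 h.symm
          · exact e2 h.symm
          · exact e3 h.symm
        have m2 : e ∉ ({κ, e * κ} : Finset G) := by
          simp only [Finset.mem_insert, Finset.mem_singleton]
          rintro (h | h)
          · exact e4 h
          · exact e5 h
        rw [Finset.card_insert_of_notMem m1, Finset.card_insert_of_notMem m2,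
          Finset.card_pair e6]
      have h4 : ∀ g ∈ S, cn M h (g * a) = cn M h a := by
        intro g hg
        rcases (hS g).1 hg with rfl | rfl | rfl | rfl
        · rw [one_mul]
        · exact c1
        · exact c2
        · exact c3
      rw [Finset.sum_congr rfl h4, Finset.sum_const, h3, nsmul_eq_mul]
      rfl
    rwa [h2] at h1
  · intro x hx y hy hxy
    obtain ⟨g, hg, rfl⟩ := Finset.mem_image.1 hx
    obtain ⟨g', hg', rfl⟩ := Finset.mem_image.1 hy
    have h5 : g' * a * (g * a)⁻¹ = g' * g⁻¹ := by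
      rw [mul_inv_rev, mul_assoc, mul_inv_cancel_left]
    rw [h5]
    exact key g hg g' hg' (fun h => hxy (by rw [h]))

end D3hAux

open D3hAux in
theorem pD3h (hCnBas : S_CnBas) (hCnSum : S_CnSum) (hHBig : S_HBig) (hHCls : S_HCls)
    (hKsNeg : S_KsNeg) : S_D3h := by
  classical
  intro d _ h2 h3 h9 h39 h105 F hodd hTl hnm
  have hd0 : d ≠ 0 := NeZero.ne d
  have hInd := (pKpBas d).1
  have hcard := (pKpBas d).2
  have hpd : ∀ p ∈ d.primeFactors, p ∣ d := fun p hp => Nat.dvd_of_mem_primeFactors hp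
  have hpp : ∀ p ∈ d.primeFactors, p.Prime := fun p hp => Nat.prime_of_mem_primeFactors hp
  have h3P : 3 ∈ d.primeFactors := Nat.mem_primeFactors.2 ⟨Nat.prime_three, h3, hd0⟩
  have hmS : ∀ (K : Subgroup (ZMod d)ˣ) (k : (ZMod d)ˣ), k ∈ sK K ↔ k ∈ K :=
    fun K k => (hTBas _ K K F F).1 k
  -- the element `κ`
  have hc3 : (sK (Kp d 3)).card = 2 := by
    have h := hcard 3 h3P
    rw [if_neg (by norm_num; exact h9)] at h
    omega
  obtain ⟨κ, hK3, hκ1⟩ : ∃ κ : (ZMod d)ˣ, sK (Kp d 3) = {1, κ} ∧ κ ≠ 1 := by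
    obtain ⟨x, y, hxy, hs⟩ := Finset.card_eq_two.1 hc3
    have h1 : (1 : (ZMod d)ˣ) ∈ sK (Kp d 3) := (hmS _ _).2 (one_mem _)
    rw [hs, Finset.mem_insert, Finset.mem_singleton] at h1
    rcases h1 with h | h
    · exact ⟨y, by rw [hs, ← h], fun h' => hxy (by rw [← h, h'])⟩
    · exact ⟨x, by rw [hs, ← h, Finset.pair_comm], fun h' => hxy (by rw [← h, h'])⟩
  have hK3' : ∀ x, x ∈ Kp d 3 ↔ x = 1 ∨ x = κ := by
    intro x
    rw [← hmS, hK3, Finset.mem_insert, Finset.mem_singleton]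
  have hκK : κ ∈ Kp d 3 := (hK3' κ).2 (Or.inr rfl)
  have hκκ : κ * κ = 1 := by
    rcases (hK3' (κ * κ)).1 (mul_mem hκK hκK) with h | h
    · exact h
    · exact absurd (mul_eq_left.1 h) hκ1
  refine ⟨κ, hK3', hκ1, hκκ, ?_⟩
  -- the function `h`
  have hh : ∀ a, T (Kp d 3) F a = F a - F (κ * a) := by
    intro a
    unfold T
    rw [hc3, hK3, Finset.sum_pair hκ1.symm, one_mul]
    push_cast
    ring
  have hone : (-1 : (ZMod d)ˣ) * -1 = 1 := by rw [neg_mul_neg, one_mul]
  have hhm : ∀ a, T (Kp d 3) F (-1 * a) = - T (Kp d 3) F a := by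
    intro a
    rw [hh, hh, mul_left_comm κ (-1) a, hodd, hodd]
    ring
  have hhκ : ∀ a, T (Kp d 3) F (κ * a) = - T (Kp d 3) F a := by
    intro a
    rw [hh, hh, ← mul_assoc, hκκ, one_mul]
    ring
  have hhτ : ∀ a, T (Kp d 3) F (-1 * κ * a) = T (Kp d 3) F a := by
    intro a
    rw [mul_assoc, hhm, hhκ, neg_neg]
  have hnmh : nm (T (Kp d 3) F) ≤ 24 := by
    have h4 : ∑ a, |F (κ * a)| = nm F :=
      Fintype.sum_equiv (Equiv.mulLeft κ) _ _ fun _ => rfl
    have h1 : nm (T (Kp d 3) F) ≤ ∑ a, |F a| + ∑ a, |F (κ * a)| := by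
      rw [← Finset.sum_add_distrib]
      refine Finset.sum_le_sum fun a _ => ?_
      rw [hh a]
      exact abs_sub _ _
    rw [h4] at h1
    change nm (T (Kp d 3) F) ≤ nm F + nm F at h1
    omega
  -- the lists
  obtain ⟨ls, hls1, hls2, hls3⟩ := exists_ls d.primeFactors
  set lb : List ℕ := (d.primeFactors.filter (fun p => 11 ≤ p)).toList with hlb
  have hlb2 : ∀ p, p ∈ lb ↔ p ∈ d.primeFactors ∧ 11 ≤ p := by
    intro p
    rw [hlb, Finset.mem_toList, Finset.mem_filter]
  have hlb1 : lb.Nodup := Finset.nodup_toList _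
  have hnd : (lb ++ ls).Nodup := by
    refine List.Nodup.append hlb1 hls1 ?_
    intro p hp hp'
    have e1 := ((hlb2 p).1 hp).2
    have e2 := ((hls2 p).1 hp').2
    omega
  have hmem : ∀ p ∈ lb ++ ls, p ∈ d.primeFactors ∧ p ≠ 3 := by
    intro p hp
    rcases List.mem_append.1 hp with h | h
    · exact ⟨((hlb2 p).1 h).1, by have := ((hlb2 p).1 h).2; omega⟩
    · exact ⟨((hls2 p).1 h).1, by have := ((hls2 p).1 h).2; omega⟩
  have hcases : ∀ p ∈ d.primeFactors, p = 3 ∨ p = 5 ∨ p = 7 ∨ 11 ≤ p := by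
    intro p hp
    have e1 := hpp p hp
    have e2 : p ≠ 2 := by
      rintro rfl
      exact h2 (hpd _ hp)
    by_contra hcon
    push Not at hcon
    obtain ⟨c1, c2, c3, c4⟩ := hcon
    have e3 := e1.two_le
    interval_cases p <;> first | omega | (revert e1; decide)
  have hall : ∀ p, p ∈ 3 :: (lb ++ ls) ↔ p ∈ d.primeFactors := by
    intro p
    constructor
    · intro h
      rcases List.mem_cons.1 h with rfl | h
      · exact h3P
      · exact (hmem p h).1
    · intro h
      rcases hcases p h with rfl | h' | h' | h'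
      · exact List.mem_cons_self
      · exact List.mem_cons_of_mem _ (List.mem_append.2 (Or.inr ((hls2 p).2 ⟨h, by omega⟩)))
      · exact List.mem_cons_of_mem _ (List.mem_append.2 (Or.inr ((hls2 p).2 ⟨h, by omega⟩)))
      · exact List.mem_cons_of_mem _ (List.mem_append.2 (Or.inl ((hlb2 p).2 ⟨h, h'⟩)))
  have hnd3 : ∀ l : List ℕ, (∀ p ∈ l, p ∈ lb ++ ls) → l.Nodup → (3 :: l).Nodup := by
    intro l hl hn
    rw [List.nodup_cons]
    exact ⟨fun h => (hmem 3 (hl 3 h)).2 rfl, hn⟩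
  have hTlh : Tl (Kp d) (lb ++ ls) (T (Kp d 3) F) = 0 := hTl (3 :: (lb ++ ls)) hall
  have hInd3 : ∀ l : List ℕ, (∀ p ∈ l, p ∈ lb ++ ls) → l.Nodup →
      Disjoint (Kp d 3) (KS (Kp d) l) ∧ Ind (Kp d) l := by
    intro l hl hn
    refine hInd (3 :: l) (hnd3 l hl hn) ?_
    intro p hp
    rcases List.mem_cons.1 hp with rfl | h
    · exact h3P
    · exact (hmem p (hl p h)).1
  -- `-1` and `κ` are not in `KS l`
  have hm1 : ∀ l : List ℕ, (∀ p ∈ l, p ∈ lb ++ ls) → (-1 : (ZMod d)ˣ) ∉ KS (Kp d) l := by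
    intro l hl
    refine (hKsNeg d l (fun p hp => (hmem p (hl p hp)).1) 3 le_rfl h3 ?_).1
    intro p hp
    have e := hmem p (hl p hp)
    exact dvd_div (hpp p e.1) Nat.prime_three e.2 (hpd p e.1) h3
  have hκ : ∀ l : List ℕ, (∀ p ∈ l, p ∈ lb ++ ls) → l.Nodup → κ ∉ KS (Kp d) l := by
    intro l hl hn hk
    have e := Subgroup.disjoint_def.1 (hInd3 l hl hn).1 hκK hk
    exact hκ1 e
  have hτ : ∀ l : List ℕ, (∀ p ∈ l, p ∈ lb ++ ls) → ∀ n, 3 ≤ n → n ∣ d → (∀ p ∈ l, n ∣ d / p) →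
      n ∣ d / 3 → -1 * κ ∉ KS (Kp d) l := by
    intro l hl n hn hnd' hnp hn3
    exact (hKsNeg d l (fun p hp => (hmem p (hl p hp)).1) n hn hnd' hnp).2 κ hκK h3 hn3
  -- the coset norms
  have hall' : ∀ p ∈ lb ++ ls, p ∈ lb ++ ls := fun _ h => h
  have hcnm : ∀ a, cn (KS (Kp d) (lb ++ ls)) (T (Kp d 3) F) (-1 * a) =
      cn (KS (Kp d) (lb ++ ls)) (T (Kp d 3) F) a :=
    (hCnBas _ (KS (Kp d) (lb ++ ls)) (KS (Kp d) (lb ++ ls)) (T (Kp d 3) F)
      (T (Kp d 3) F)).2.2.2.2.2.2.2.2 (-1) (-1) (by norm_num) (fun a => by rw [hhm]; ring)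
  have hcnκ : ∀ a, cn (KS (Kp d) (lb ++ ls)) (T (Kp d 3) F) (κ * a) =
      cn (KS (Kp d) (lb ++ ls)) (T (Kp d 3) F) a :=
    (hCnBas _ (KS (Kp d) (lb ++ ls)) (KS (Kp d) (lb ++ ls)) (T (Kp d 3) F)
      (T (Kp d 3) F)).2.2.2.2.2.2.2.2 κ (-1) (by norm_num) (fun a => by rw [hhκ]; ring)
  have hcn12 : ∀ a, cn (KS (Kp d) (lb ++ ls)) (T (Kp d 3) F) a ≤ 12 := by
    intro a
    have hne : a ≠ -1 * a := by
      intro h
      have e : (-1 : (ZMod d)ˣ) = 1 := by
        have e1 : 1 * a = -1 * a := by rw [one_mul]; exact h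
        exact (mul_right_cancel e1).symm
      exact hm1 _ hall' (by rw [e]; exact one_mem _)
    have h1 := (hCnSum _ (KS (Kp d) (lb ++ ls)) (T (Kp d 3) F) {a, -1 * a} ?_).1
    · rw [Finset.sum_pair hne, hcnm] at h1
      omega
    · intro x hx y hy hxy
      rw [Finset.mem_insert, Finset.mem_singleton] at hx hy
      rcases hx with rfl | rfl <;> rcases hy with rfl | rfl
      · exact absurd rfl hxy
      · rw [mul_inv_cancel_right]
        exact hm1 _ hall'
      · rw [mul_inv_rev, mul_inv_cancel_left, show (-1 : (ZMod d)ˣ)⁻¹ = -1 from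
          inv_eq_of_mul_eq_one_right hone]
        exact hm1 _ hall'
      · exact absurd rfl hxy
  have hτ6 : -1 * κ ∈ KS (Kp d) (lb ++ ls) ∨
      ∀ a, cn (KS (Kp d) (lb ++ ls)) (T (Kp d 3) F) a ≤ 6 := by
    by_cases hmτ : -1 * κ ∈ KS (Kp d) (lb ++ ls)
    · exact Or.inl hmτ
    right
    intro a
    have h1 := four hCnSum (KS (Kp d) (lb ++ ls)) (-1) κ hone hκκ (hm1 _ hall')
      (hκ _ hall' hnd) hmτ (T (Kp d 3) F) a (hcnm a) (hcnκ a) (by rw [mul_assoc, hcnm, hcnκ])
    omega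
  -- the big primes
  have hsq3 : ¬ 3 ^ 2 ∣ d := by norm_num; exact h9
  have hbig : ∀ r ∈ lb, 10 ≤ (sK (Kp d r)).card ∧
      (-1 * κ ∉ Kp d r ∨ 12 < (sK (Kp d r)).card) := by
    intro r hr
    obtain ⟨hrP, hr11⟩ := (hlb2 r).1 hr
    have hrm : ∀ p ∈ [r], p ∈ lb ++ ls := by
      intro p hp
      rw [List.mem_singleton.1 hp]
      exact List.mem_append.2 (Or.inl hr)
    have hcr := hcard r hrP
    refine ⟨by split_ifs at hcr <;> omega, ?_⟩
    by_cases hq : ∃ q ∈ d.primeFactors, q ≠ 3 ∧ q ≠ r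
    · left
      obtain ⟨q, hqP, hq3, hqr⟩ := hq
      intro hmemr
      refine hτ [r] hrm q ?_ (hpd q hqP) ?_ ?_ (le_KS (Kp d) (List.mem_singleton_self r) hmemr)
      · have := hcases q hqP
        omega
      · intro p hp
        rw [List.mem_singleton.1 hp]
        exact dvd_div (hpp r hrP) (hpp q hqP) hqr.symm (hpd r hrP) (hpd q hqP)
      · exact dvd_div Nat.prime_three (hpp q hqP) hq3.symm h3 (hpd q hqP)
    · by_cases hr2 : r ^ 2 ∣ d
      · left
        intro hmemr
        refine hτ [r] hrm r (by omega) (hpd r hrP) ?_ ?_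
          (le_KS (Kp d) (List.mem_singleton_self r) hmemr)
        · intro p hp
          rw [List.mem_singleton.1 hp]
          exact dvd_div_sq (hpd r hrP) hr2
        · exact dvd_div Nat.prime_three (hpp r hrP) (by omega) h3 (hpd r hrP)
      · right
        push Not at hq
        have h5 : d ∣ ∏ p ∈ ({3, r} : Finset ℕ), p := by
          refine dvd_prod {3, r} ?_ ?_
          · intro q hqP
            rw [Finset.mem_insert, Finset.mem_singleton]
            by_cases hq3 : q = 3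
            · exact Or.inl hq3
            · exact Or.inr (hq q hqP hq3)
          · intro q hqp hqd
            have hqP : q ∈ d.primeFactors :=
              Nat.mem_primeFactors.2 ⟨hqp, (dvd_pow_self q two_ne_zero).trans hqd, hd0⟩
            by_cases hq3 : q = 3
            · subst hq3
              exact hsq3 hqd
            · rw [hq q hqP hq3] at hqd
              exact hr2 hqd
        rw [Finset.prod_pair (by omega)] at h5
        have h6 := Nat.le_of_dvd (by omega) h5
        rw [if_neg hr2] at hcr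
        omega
  have hsm : ∀ j ∈ ls, 4 ≤ (sK (Kp d j)).card := by
    intro j hj
    obtain ⟨hjP, hj5⟩ := (hls2 j).1 hj
    have hcj := hcard j hjP
    split_ifs at hcj <;> omega
  obtain ⟨hTls, -⟩ := hHBig _ (Kp d) (-1 * κ) lb ls hnd (hInd3 _ hall' hnd).2 hbig hsm
    (T (Kp d 3) F) hhτ hTlh hcn12 hτ6
  by_cases hls0 : ls = []
  · left
    rw [hls0] at hTls
    exact hTls
  have hlsm : ∀ p ∈ ls, p ∈ lb ++ ls := fun p hp => List.mem_append.2 (Or.inr hp)
  have hτls : -1 * κ ∉ KS (Kp d) ls := by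
    by_cases hlb0 : ∃ r, r ∈ lb
    · obtain ⟨r, hr⟩ := hlb0
      obtain ⟨hrP, hr11⟩ := (hlb2 r).1 hr
      refine hτ ls hlsm r (by omega) (hpd r hrP) ?_ ?_
      · intro p hp
        obtain ⟨hpP, hp5⟩ := (hls2 p).1 hp
        exact dvd_div (hpp p hpP) (hpp r hrP) (by omega) (hpd p hpP) (hpd r hrP)
      · exact dvd_div Nat.prime_three (hpp r hrP) (by omega) h3 (hpd r hrP)
    · by_cases hsq : ∃ n, (n = 5 ∨ n = 7) ∧ n ^ 2 ∣ d
      · obtain ⟨n, hn, hnd2⟩ := hsq
        have hnd1 : n ∣ d := (dvd_pow_self n two_ne_zero).trans hnd2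
        have hnp : n.Prime := by rcases hn with rfl | rfl <;> decide
        refine hτ ls hlsm n (by omega) hnd1 ?_ ?_
        · intro p hp
          obtain ⟨hpP, hp5⟩ := (hls2 p).1 hp
          by_cases hpn : p = n
          · subst hpn
            exact dvd_div_sq hnd1 hnd2
          · exact dvd_div (hpp p hpP) hnp hpn (hpd p hpP) hnd1
        · exact dvd_div Nat.prime_three hnp (by omega) h3 hnd1
      · exfalso
        have hP : ∀ q ∈ d.primeFactors, q = 3 ∨ q = 5 ∨ q = 7 := by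
          intro q hq
          rcases hcases q hq with h | h | h | h
          · exact Or.inl h
          · exact Or.inr (Or.inl h)
          · exact Or.inr (Or.inr h)
          · exact absurd ⟨q, (hlb2 q).2 ⟨hq, h⟩⟩ hlb0
        have h5 : d ∣ ∏ p ∈ ({3, 5, 7} : Finset ℕ), p := by
          refine dvd_prod {3, 5, 7} ?_ ?_
          · intro q hq
            rw [Finset.mem_insert, Finset.mem_insert, Finset.mem_singleton]
            exact hP q hq
          · intro q hqp hqd
            have hqP : q ∈ d.primeFactors :=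
              Nat.mem_primeFactors.2 ⟨hqp, (dvd_pow_self q two_ne_zero).trans hqd, hd0⟩
            rcases hP q hqP with rfl | rfl | rfl
            · exact hsq3 hqd
            · exact hsq ⟨5, Or.inl rfl, hqd⟩
            · exact hsq ⟨7, Or.inr rfl, hqd⟩
        have h6 : d ∣ 105 := by
          have h7 : ∏ p ∈ ({3, 5, 7} : Finset ℕ), p = 105 := by decide
          rwa [h7] at h5
        have h8 : d ∈ Nat.divisors 105 := Nat.mem_divisors.2 ⟨h6, by norm_num⟩
        have h10 : ∀ n ∈ Nat.divisors 105, n ≤ 39 ∨ n = 105 := by decide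
        rcases h10 d h8 with h | h
        · omega
        · exact h105 h
  have hform : ls = [] ∨ (∃ j, ls = [j] ∧ 4 ≤ (sK (Kp d j)).card) ∨
      ∃ i j, ls = [i, j] ∧ 6 ≤ (sK (Kp d i)).card ∧ 4 ≤ (sK (Kp d j)).card := by
    rcases hls3 with h | h | h | h
    · exact Or.inl h
    · exact Or.inr (Or.inl ⟨5, h, hsm 5 (by rw [h]; exact List.mem_singleton_self 5)⟩)
    · exact Or.inr (Or.inl ⟨7, h, hsm 7 (by rw [h]; exact List.mem_singleton_self 7)⟩)
    · refine Or.inr (Or.inr ⟨7, 5, h, ?_, hsm 5 (by rw [h]; simp)⟩)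
      have h7 : 7 ∈ d.primeFactors := ((hls2 7).1 (by rw [h]; simp)).1
      have hc7 := hcard 7 h7
      split_ifs at hc7 <;> omega
  rcases hHCls _ (Kp d) ls (hInd3 ls hlsm hls1).2 hform (-1) κ hone hκκ (hm1 ls hlsm)
    (hκ ls hlsm hls1) hτls (T (Kp d 3) F) hhm hhκ hTls hnmh with h | ⟨p, hp, a, t, ht, hn, hx⟩
  · exact Or.inl h
  · right
    obtain ⟨hpP, hp5⟩ := (hls2 p).1 hp
    exact ⟨p, hpP, hp5, a, t, ht, hn, fun h => hm1 ls hlsm (le_KS (Kp d) hp h),
      fun h => hκ ls hlsm hls1 (le_KS (Kp d) hp h), fun h => hτls (le_KS (Kp d) hp h), hx⟩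

end Pool.Agent.FO
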