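import Pool.Agent.Lib.MP_640417_ag.FO.SpecH

/-!
# Theorem FG, part H: levels prime to 6 (task D5)
-/

set_option autoImplicit false

noncomputable section

namespace Pool.Agent.FO

open Finset Pool.Agent.FC

namespace D5Aux

private theorem co_nonneg (k : ℕ) : 0 ≤ co k := by
  unfold co
  split <;> norm_num

private theorem nm_nonneg {G : Type} [Fintype G] (F : G → ℤ) : 0 ≤ nm F :=
  Finset.sum_nonneg fun _ _ => abs_nonneg _

private theorem ct_nonneg {G : Type} [CommGroup G] [Fintype G] (K : Subgroup G) (E : G → ℤ) :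
    0 ≤ ct K E := by
  unfold ct
  have h1 : (0 : ℚ) ≤ (co (sK K).card : ℚ) := by exact_mod_cast co_nonneg _
  have h2 : (0 : ℚ) ≤ (nm E : ℚ) := by exact_mod_cast nm_nonneg E
  positivity

/-- an odd function has at most half of its norm on a coset of a subgroup without `ε` -/
private theorem cnHalf (hCnBas : S_CnBas) (hCnSum : S_CnSum) {G : Type} [CommGroup G] [Fintype G]
    (M : Subgroup G) (ε : G) (hεε : ε * ε = 1) (hε : ε ∉ M) (F : G → ℤ)
    (hodd : ∀ a, F (ε * a) = -F a) (a : G) : 2 * cn M F a ≤ nm F := by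
  classical
  have hne : a ≠ ε * a := by
    intro h
    apply hε
    have : ε = 1 := by
      have h2 := h.symm
      rwa [mul_eq_right] at h2
    rw [this]
    exact M.one_mem
  have hinv : ε⁻¹ = ε := inv_eq_of_mul_eq_one_left hεε
  have h1 := (hCnSum G M F {a, ε * a} ?_).1
  · rw [Finset.sum_pair hne] at h1
    have h2 := (hCnBas G M M F F).2.2.2.2.2.2.2.2 ε (-1) (by norm_num)
      (fun b => by rw [hodd]; ring) a
    rw [h2] at h1
    linarith
  · intro x hx y hy hxy
    rw [Finset.mem_insert, Finset.mem_singleton] at hx hy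
    rcases hx with rfl | rfl <;> rcases hy with rfl | rfl
    · exact absurd rfl hxy
    · rwa [mul_inv_cancel_right]
    · have : y * (ε * y)⁻¹ = ε := by
        rw [mul_inv, hinv, mul_comm ε, mul_inv_cancel_left]
      rwa [this]
    · exact absurd rfl hxy

/-- assembly -/
private theorem asm (d : ℕ) [NeZero d] (F H : (ZMod d)ˣ → ℤ) (lb ls : List ℕ)
    (hnd : (lb ++ ls).Nodup) (hmem : ∀ p, p ∈ lb ++ ls ↔ p ∈ d.primeFactors)
    (E E' : ℕ → (ZMod d)ˣ → ℤ)
    (h1 : ∀ i ∈ lb, (∀ a, E i (-1 * a) = -E i a) ∧ ∀ k ∈ Kp d i, ∀ a, E i (k * a) = E i a)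
    (h2 : ∀ i ∈ ls, (∀ a, E' i (-1 * a) = -E' i a) ∧ ∀ k ∈ Kp d i, ∀ a, E' i (k * a) = E' i a)
    (hF : ∀ a, F a = ∑ i ∈ lb.toFinset, E i a + H a)
    (hH : ∀ a, H a = ∑ i ∈ ls.toFinset, E' i a)
    (hc : ∑ i ∈ lb.toFinset, ct (Kp d i) (E i) + nm H ≤ nm F)
    (hc' : ∑ i ∈ ls.toFinset, ct (Kp d i) (E' i) ≤ nm H) :
    ∃ E, Dcm d F E ∧ ∑ p ∈ d.primeFactors, ct (Kp d p) (E p) ≤ nm F := by
  classical
  have hdis : Disjoint lb.toFinset ls.toFinset := by
    rw [Finset.disjoint_left]
    intro p hp hp'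
    rw [List.mem_toFinset] at hp hp'
    exact (List.nodup_append.1 hnd).2.2 p hp p hp' rfl
  have hun : d.primeFactors = lb.toFinset ∪ ls.toFinset := by
    ext p
    rw [← hmem p, Finset.mem_union, List.mem_toFinset, List.mem_toFinset, List.mem_append]
  have hls : ∀ p ∈ ls.toFinset, p ∉ lb := fun p hp hp' =>
    Finset.disjoint_left.1 hdis (List.mem_toFinset.2 hp') hp
  refine ⟨fun p => if p ∈ lb then E p else E' p, ⟨?_, ?_⟩, ?_⟩
  · intro p hp
    by_cases h : p ∈ lb
    · simp only [if_pos h]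
      exact h1 p h
    · simp only [if_neg h]
      refine h2 p ?_
      rw [← hmem p, List.mem_append] at hp
      exact hp.resolve_left h
  · intro u
    rw [hun, Finset.sum_union hdis, hF u, hH u]
    refine congrArg₂ _ ?_ ?_
    · refine Finset.sum_congr rfl fun p hp => ?_
      simp only [if_pos (List.mem_toFinset.1 hp)]
    · refine Finset.sum_congr rfl fun p hp => ?_
      simp only [if_neg (hls p hp)]
  · rw [hun, Finset.sum_union hdis]
    have e1 : ∑ p ∈ lb.toFinset, ct (Kp d p) (if p ∈ lb then E p else E' p) =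
        ∑ p ∈ lb.toFinset, ct (Kp d p) (E p) := by
      refine Finset.sum_congr rfl fun p hp => ?_
      rw [if_pos (List.mem_toFinset.1 hp)]
    have e2 : ∑ p ∈ ls.toFinset, ct (Kp d p) (if p ∈ lb then E p else E' p) =
        ∑ p ∈ ls.toFinset, ct (Kp d p) (E' p) := by
      refine Finset.sum_congr rfl fun p hp => ?_
      rw [if_neg (hls p hp)]
    rw [e1, e2]
    linarith


private theorem co_le {k : ℕ} (hk : 2 ≤ k) : co k ≤ k := by
  unfold co
  split <;> omega

private theorem ct_le {G : Type} [CommGroup G] [Fintype G] (K : Subgroup G) (hK : 2 ≤ (sK K).card)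
    (E : G → ℤ) : ct K E ≤ nm E := by
  unfold ct
  have h1 : (co (sK K).card : ℚ) ≤ ((sK K).card : ℚ) := by exact_mod_cast co_le hK
  have h2 : (0 : ℚ) ≤ (nm E : ℚ) := by exact_mod_cast nm_nonneg E
  have h3 : (0 : ℚ) < ((sK K).card : ℚ) := by
    have : 0 < (sK K).card := by omega
    exact_mod_cast this
  have h4 : (co (sK K).card : ℚ) / (sK K).card ≤ 1 := by
    rw [div_le_one h3]
    exact h1
  calc (co (sK K).card : ℚ) / (sK K).card * nm E ≤ 1 * nm E := mul_le_mul_of_nonneg_right h4 h2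
    _ = nm E := one_mul _

end D5Aux

open D5Aux

theorem pD5 (hCnBas : S_CnBas) (hCnSum : S_CnSum) (hStripG : S_StripG) (hTwoP : S_TwoP)
    (hKsNeg : S_KsNeg) : S_D5 := by
  classical
  intro d _ hd2 hd3 hd39 F hodd hTl hnm
  have hεε : (-1 : (ZMod d)ˣ) * -1 = 1 := by simp
  have hd0 : d ≠ 0 := NeZero.ne d
  obtain ⟨hInd, hcard⟩ := pKpBas d
  have hF0 := nm_nonneg F
  -- the lists
  obtain ⟨lb, hlb, hlbnd⟩ : ∃ lb : List ℕ,
      (∀ p, p ∈ lb ↔ p ∈ d.primeFactors ∧ 11 ≤ p) ∧ lb.Nodup :=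
    ⟨(d.primeFactors.filter (fun p => 11 ≤ p)).toList, fun p => by
      rw [Finset.mem_toList, Finset.mem_filter], Finset.nodup_toList _⟩
  have hsm : ∀ p, p ∈ d.primeFactors → p < 11 → p = 5 ∨ p = 7 := by
    intro p hp hp7
    have hpp := Nat.prime_of_mem_primeFactors hp
    have hpd := Nat.dvd_of_mem_primeFactors hp
    interval_cases p
    · exact absurd hpp (by norm_num)
    · exact absurd hpp (by norm_num)
    · exact absurd hpd hd2
    · exact absurd hpd hd3
    · exact absurd hpp (by norm_num)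
    · exact Or.inl rfl
    · exact absurd hpp (by norm_num)
    · exact Or.inr rfl
    · exact absurd hpp (by norm_num)
    · exact absurd hpp (by norm_num)
    · exact absurd hpp (by norm_num)
  obtain ⟨ls, hls, hls'⟩ : ∃ ls : List ℕ, (∀ p, p ∈ ls ↔ p ∈ d.primeFactors ∧ p < 11) ∧
      (ls = [] ∨ (∃ p ∈ d.primeFactors, ls = [p]) ∨
        (7 ∈ d.primeFactors ∧ 5 ∈ d.primeFactors ∧ ls = [7, 5])) := by
    by_cases h5 : 5 ∈ d.primeFactors <;> by_cases h7 : 7 ∈ d.primeFactors
    · refine ⟨[7, 5], fun p => ?_, Or.inr (Or.inr ⟨h7, h5, rfl⟩)⟩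
      simp only [List.mem_cons, List.not_mem_nil, or_false]
      constructor
      · rintro (rfl | rfl)
        · exact ⟨h7, by norm_num⟩
        · exact ⟨h5, by norm_num⟩
      · rintro ⟨hp, hp7⟩
        exact (hsm p hp hp7).symm
    · refine ⟨[5], fun p => ?_, Or.inr (Or.inl ⟨5, h5, rfl⟩)⟩
      simp only [List.mem_cons, List.not_mem_nil, or_false]
      constructor
      · rintro rfl
        exact ⟨h5, by norm_num⟩
      · rintro ⟨hp, hp7⟩
        rcases hsm p hp hp7 with h | h
        · exact h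
        · exact absurd (h ▸ hp) h7
    · refine ⟨[7], fun p => ?_, Or.inr (Or.inl ⟨7, h7, rfl⟩)⟩
      simp only [List.mem_cons, List.not_mem_nil, or_false]
      constructor
      · rintro rfl
        exact ⟨h7, by norm_num⟩
      · rintro ⟨hp, hp7⟩
        rcases hsm p hp hp7 with h | h
        · exact absurd (h ▸ hp) h5
        · exact h
    · refine ⟨[], fun p => ?_, Or.inl rfl⟩
      simp only [List.not_mem_nil, false_iff]
      rintro ⟨hp, hp7⟩
      rcases hsm p hp hp7 with h | h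
      · exact h5 (h ▸ hp)
      · exact h7 (h ▸ hp)
  have hlsnd : ls.Nodup := by
    rcases hls' with h | ⟨p, _, h⟩ | ⟨_, _, h⟩ <;> rw [h] <;> simp
  have hnd : (lb ++ ls).Nodup := by
    rw [List.nodup_append]
    refine ⟨hlbnd, hlsnd, ?_⟩
    intro a ha b hb hab
    have h1 := ((hlb a).1 ha).2
    have h2 := ((hls b).1 hb).2
    omega
  have hmem : ∀ p, p ∈ lb ++ ls ↔ p ∈ d.primeFactors := by
    intro p
    rw [List.mem_append, hlb, hls]
    constructor
    · rintro (h | h)
      · exact h.1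
      · exact h.1
    · intro h
      rcases le_or_gt 11 p with h7 | h7
      · exact Or.inl ⟨h, h7⟩
      · exact Or.inr ⟨h, h7⟩
  have hge : ∀ p ∈ d.primeFactors, (4 : ℤ) ≤ (sK (Kp d p)).card ∧
      ((p : ℤ) - 1 ≤ (sK (Kp d p)).card) := by
    intro p hp
    have hk : ((p : ℤ) - 1) ≤ (sK (Kp d p)).card := by
      rw [hcard p hp]
      split <;> linarith
    have h5 : 5 ≤ p := by
      by_contra h
      rcases hsm p hp (by omega) with h | h <;> omega
    have h5' : (5 : ℤ) ≤ p := by exact_mod_cast h5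
    exact ⟨by linarith, hk⟩
  have hTl' : Tl (Kp d) (lb ++ ls) F = 0 := hTl _ hmem
  have hInd' : Ind (Kp d) (lb ++ ls) := hInd _ hnd fun p hp => (hmem p).1 hp
  obtain ⟨E, H, hE, hHodd, hHTl, hFE, hcost⟩ := hStripG (ZMod d)ˣ (Kp d) lb ls hnd hInd' (-1) (nm F) F
    hodd hTl' (fun a => (hCnBas (ZMod d)ˣ (KS (Kp d) (lb ++ ls)) (KS (Kp d) (lb ++ ls)) F F).2.2.2.2.1 a)
    (by
      intro r hr j hj _
      have h1 := (hge r ((hlb r).1 hr).1).2
      have h2 : (11 : ℤ) ≤ r := by exact_mod_cast ((hlb r).1 hr).2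
      have h3 := (hge j ((hmem j).1 hj)).1
      nlinarith)
  have hHnm : nm H ≤ nm F := by
    have h1 : (0 : ℚ) ≤ ∑ i ∈ lb.toFinset, ct (Kp d i) (E i) :=
      Finset.sum_nonneg fun i _ => ct_nonneg _ _
    have h2 : (nm H : ℚ) ≤ nm F := by linarith
    exact_mod_cast h2
  rcases hls' with hl | ⟨p0, hp0, hl⟩ | ⟨h7, h5, hl⟩
  · subst hl
    have hH0 : H = 0 := hHTl
    refine asm d F H lb [] hnd hmem E (fun _ => H) hE ?_ hFE ?_ hcost ?_
    · intro i hi
      exact absurd hi List.not_mem_nil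
    · intro a
      rw [hH0]
      simp
    · simp only [List.toFinset_nil, Finset.sum_empty]
      exact_mod_cast nm_nonneg H
  · subst hl
    have hT3 : T (Kp d p0) H = 0 := hHTl
    have hinv := (hTBas (ZMod d)ˣ (Kp d p0) (Kp d p0) H H).2.2.2.2.2.2.2.1.1 hT3
    have he : [p0].toFinset = ({p0} : Finset ℕ) := by simp
    refine asm d F H lb [p0] hnd hmem E (fun _ => H) hE ?_ hFE ?_ hcost ?_
    · intro i hi
      rw [List.mem_singleton] at hi
      subst hi
      exact ⟨hHodd, hinv⟩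
    · intro a
      rw [he, Finset.sum_singleton]
    · rw [he, Finset.sum_singleton]
      refine ct_le _ ?_ H
      have := (hge p0 hp0).1
      have h4 : 4 ≤ (sK (Kp d p0)).card := by exact_mod_cast this
      omega
  · subst hl
    have hcm := (hTBas (ZMod d)ˣ (Kp d 5) (Kp d 7) H H).2.2.2.2.2.2.1
    have hT2 : T (Kp d 7) (T (Kp d 5) H) = 0 := by
      rw [← hcm]
      exact hHTl
    have hKS75 : KS (Kp d) [7, 5] = Kp d 7 ⊔ Kp d 5 := by
      simp [KS]
    have hmem75 : ∀ p ∈ [7, 5], p ∈ d.primeFactors := fun p hp => ((hls p).1 hp).1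
    have hdis : Disjoint (Kp d 7) (Kp d 5) := by
      have := (hInd [7, 5] hlsnd hmem75).1
      simpa [KS] using this
    have h6 : (6 : ℤ) ≤ (sK (Kp d 7)).card := by
      have := (hge 7 h7).2
      push_cast at this
      linarith
    have h4 : 4 ≤ (sK (Kp d 7)).card := by
      have : 6 ≤ (sK (Kp d 7)).card := by exact_mod_cast h6
      omega
    have hco5 : co (sK (Kp d 5)).card + 2 ≤ (sK (Kp d 5)).card := by
      have h1 := hcard 5 h5
      by_cases h : 5 ^ 2 ∣ d
      · rw [if_pos h] at h1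
        have h2 : (sK (Kp d 5)).card = 5 := by exact_mod_cast h1
        rw [h2]
        norm_num [co]
      · rw [if_neg h] at h1
        push_cast at h1
        have h2 : (sK (Kp d 5)).card = 4 := by
          have h3 : ((sK (Kp d 5)).card : ℤ) = 4 := by linarith
          exact_mod_cast h3
        rw [h2]
        norm_num [co]
    -- the element -1 is not in the subgroup
    have h7d := Nat.dvd_of_mem_primeFactors h7
    have h5d := Nat.dvd_of_mem_primeFactors h5
    have h35 : 35 ∣ d := by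
      have : 5 * 7 ∣ d := Nat.Coprime.mul_dvd_of_dvd_of_dvd (by norm_num) h5d h7d
      simpa using this
    obtain ⟨n, hn⟩ := h35
    have hn3 : 3 ≤ n := by
      have h1 : n ≠ 2 := by
        rintro rfl
        exact hd2 (by omega)
      omega
    have hneg : (-1 : (ZMod d)ˣ) ∉ KS (Kp d) [7, 5] := by
      refine (hKsNeg d [7, 5] hmem75 n hn3 ⟨35, by rw [hn]; ring⟩ ?_).1
      intro p hp
      simp only [List.mem_cons, List.not_mem_nil, or_false] at hp
      apply Nat.dvd_div_of_mul_dvd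
      rcases hp with rfl | rfl
      · exact ⟨5, by rw [hn]; ring⟩
      · exact ⟨7, by rw [hn]; ring⟩
    rw [hKS75] at hneg
    have hbd : ∀ a, cn (Kp d 7 ⊔ Kp d 5) H a ≤ 2 * (sK (Kp d 7)).card := by
      intro a
      have h1 := cnHalf hCnBas hCnSum (Kp d 7 ⊔ Kp d 5) (-1) hεε hneg H hHodd a
      linarith
    obtain ⟨E1, E2, hE1, hE2, hE1i, hE2i, hHE, hcE⟩ := hTwoP (ZMod d)ˣ (Kp d 7) (Kp d 5) hdis h4
      hco5 (-1) hεε hneg H hHodd hT2 hbd
    have h57 : (5 : ℕ) ≠ 7 := by norm_num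
    have he : [7, 5].toFinset = ({7, 5} : Finset ℕ) := rfl
    refine asm d F H lb [7, 5] hnd hmem E (fun p => if p = 7 then E1 else E2) hE ?_ hFE ?_ hcost ?_
    · intro i hi
      simp only [List.mem_cons, List.not_mem_nil, or_false] at hi
      rcases hi with rfl | rfl
      · simp only [if_pos]
        exact ⟨hE1, hE1i⟩
      · simp only [if_neg h57]
        exact ⟨hE2, hE2i⟩
    · intro a
      rw [hHE a, he, Finset.sum_pair (by norm_num)]
      simp
    · rw [he, Finset.sum_pair (by norm_num)]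
      simpa using hcE

end Pool.Agent.FO
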