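import Pool.Agent.Lib.MP_640417_ag.FO.SpecH

/-!
# Levels divisible by 9
-/

set_option autoImplicit false

noncomputable section

namespace Pool.Agent.FO

open Finset Pool.Agent.FC

namespace D9Aux

private theorem co_nonneg (k : ℕ) : 0 ≤ co k := by
  unfold co
  split <;> norm_num

private theorem nm_nonneg {G : Type} [Fintype G] (F : G → ℤ) : 0 ≤ nm F :=
  Finset.sum_nonneg fun _ _ => abs_nonneg _

private theorem ct_nonneg {G : Type} [CommGroup G] [Fintype G] (K : Subgroup G) (E : G → ℤ) :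
    0 ≤ ct K E := by
  unfold ct
  have h1 : (0 : ℚ) ≤ (co (sK K).card : ℚ) := by exact_mod_cast co_nonneg _
  have h2 : (0 : ℚ) ≤ (nm E : ℚ) := by exact_mod_cast nm_nonneg E
  positivity

/-- an odd function has at most half of its norm on a coset of a subgroup without `ε` -/
private theorem cnHalf (hCnBas : S_CnBas) (hCnSum : S_CnSum) {G : Type} [CommGroup G] [Fintype G]
    (M : Subgroup G) (ε : G) (hεε : ε * ε = 1) (hε : ε ∉ M) (F : G → ℤ)
    (hodd : ∀ a, F (ε * a) = -F a) (a : G) : 2 * cn M F a ≤ nm F := by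
  classical
  have hne : a ≠ ε * a := by
    intro h
    apply hε
    have : ε = 1 := by
      have h2 := h.symm
      rwa [mul_eq_right] at h2
    rw [this]
    exact M.one_mem
  have hinv : ε⁻¹ = ε := inv_eq_of_mul_eq_one_left hεε
  have h1 := (hCnSum G M F {a, ε * a} ?_).1
  · rw [Finset.sum_pair hne] at h1
    have h2 := (hCnBas G M M F F).2.2.2.2.2.2.2.2 ε (-1) (by norm_num)
      (fun b => by rw [hodd]; ring) a
    rw [h2] at h1
    linarith
  · intro x hx y hy hxy
    rw [Finset.mem_insert, Finset.mem_singleton] at hx hy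
    rcases hx with rfl | rfl <;> rcases hy with rfl | rfl
    · exact absurd rfl hxy
    · rwa [mul_inv_cancel_right]
    · have : y * (ε * y)⁻¹ = ε := by
        rw [mul_inv, hinv, mul_comm ε, mul_inv_cancel_left]
      rwa [this]
    · exact absurd rfl hxy

/-- assembly -/
private theorem asm (d : ℕ) [NeZero d] (F H : (ZMod d)ˣ → ℤ) (lb ls : List ℕ)
    (hnd : (lb ++ ls).Nodup) (hmem : ∀ p, p ∈ lb ++ ls ↔ p ∈ d.primeFactors)
    (E E' : ℕ → (ZMod d)ˣ → ℤ)
    (h1 : ∀ i ∈ lb, (∀ a, E i (-1 * a) = -E i a) ∧ ∀ k ∈ Kp d i, ∀ a, E i (k * a) = E i a)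
    (h2 : ∀ i ∈ ls, (∀ a, E' i (-1 * a) = -E' i a) ∧ ∀ k ∈ Kp d i, ∀ a, E' i (k * a) = E' i a)
    (hF : ∀ a, F a = ∑ i ∈ lb.toFinset, E i a + H a)
    (hH : ∀ a, H a = ∑ i ∈ ls.toFinset, E' i a)
    (hc : ∑ i ∈ lb.toFinset, ct (Kp d i) (E i) + nm H ≤ nm F)
    (hc' : ∑ i ∈ ls.toFinset, ct (Kp d i) (E' i) ≤ nm H) :
    ∃ E, Dcm d F E ∧ ∑ p ∈ d.primeFactors, ct (Kp d p) (E p) ≤ nm F := by
  classical
  have hdis : Disjoint lb.toFinset ls.toFinset := by
    rw [Finset.disjoint_left]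
    intro p hp hp'
    rw [List.mem_toFinset] at hp hp'
    exact (List.nodup_append.1 hnd).2.2 p hp p hp' rfl
  have hun : d.primeFactors = lb.toFinset ∪ ls.toFinset := by
    ext p
    rw [← hmem p, Finset.mem_union, List.mem_toFinset, List.mem_toFinset, List.mem_append]
  have hls : ∀ p ∈ ls.toFinset, p ∉ lb := fun p hp hp' =>
    Finset.disjoint_left.1 hdis (List.mem_toFinset.2 hp') hp
  refine ⟨fun p => if p ∈ lb then E p else E' p, ⟨?_, ?_⟩, ?_⟩
  · intro p hp
    by_cases h : p ∈ lb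
    · simp only [if_pos h]
      exact h1 p h
    · simp only [if_neg h]
      refine h2 p ?_
      rw [← hmem p, List.mem_append] at hp
      exact hp.resolve_left h
  · intro u
    rw [hun, Finset.sum_union hdis, hF u, hH u]
    refine congrArg₂ _ ?_ ?_
    · refine Finset.sum_congr rfl fun p hp => ?_
      simp only [if_pos (List.mem_toFinset.1 hp)]
    · refine Finset.sum_congr rfl fun p hp => ?_
      simp only [if_neg (hls p hp)]
  · rw [hun, Finset.sum_union hdis]
    have e1 : ∑ p ∈ lb.toFinset, ct (Kp d p) (if p ∈ lb then E p else E' p) =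
        ∑ p ∈ lb.toFinset, ct (Kp d p) (E p) := by
      refine Finset.sum_congr rfl fun p hp => ?_
      rw [if_pos (List.mem_toFinset.1 hp)]
    have e2 : ∑ p ∈ ls.toFinset, ct (Kp d p) (if p ∈ lb then E p else E' p) =
        ∑ p ∈ ls.toFinset, ct (Kp d p) (E' p) := by
      refine Finset.sum_congr rfl fun p hp => ?_
      rw [if_neg (hls p hp)]
    rw [e1, e2]
    linarith

end D9Aux

open D9Aux

theorem pD9 (hCnBas : S_CnBas) (hCnSum : S_CnSum) (hStripG : S_StripG) (hTwoP : S_TwoP)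
    (hKsNeg : S_KsNeg) : S_D9 := by
  classical
  intro d _ hd2 hd9 F hodd hTl hnm
  have hεε : (-1 : (ZMod d)ˣ) * -1 = 1 := by simp
  have hd0 : d ≠ 0 := NeZero.ne d
  have hd3 : 3 ∣ d := (by norm_num : (3 : ℕ) ∣ 9).trans hd9
  have h3p : 3 ∈ d.primeFactors := Nat.mem_primeFactors.2 ⟨Nat.prime_three, hd3, hd0⟩
  -- the element -1 is not in the subgroups
  have hKS : ∀ l : List ℕ, (∀ p ∈ l, p ∈ d.primeFactors) → (-1 : (ZMod d)ˣ) ∉ KS (Kp d) l := by
    intro l hl
    refine (hKsNeg d l hl 3 le_rfl hd3 ?_).1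
    intro p hp
    have hpp := Nat.prime_of_mem_primeFactors (hl p hp)
    have hpd := Nat.dvd_of_mem_primeFactors (hl p hp)
    apply Nat.dvd_div_of_mul_dvd
    by_cases h : p = 3
    · subst h
      exact hd9
    · exact Nat.Coprime.mul_dvd_of_dvd_of_dvd
        ((Nat.coprime_primes hpp Nat.prime_three).2 h) hpd hd3
  have hhalf : ∀ l : List ℕ, (∀ p ∈ l, p ∈ d.primeFactors) → ∀ H : (ZMod d)ˣ → ℤ,
      (∀ u, H (-1 * u) = -H u) → nm H ≤ 12 → ∀ a, cn (KS (Kp d) l) H a ≤ 6 := by
    intro l hl H hH hH12 a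
    have := cnHalf hCnBas hCnSum (KS (Kp d) l) (-1) hεε (hKS l hl) H hH a
    linarith
  obtain ⟨hInd, hcard⟩ := pKpBas d
  have hc3 : (sK (Kp d 3)).card = 3 := by
    have := hcard 3 h3p
    rw [if_pos (show 3 ^ 2 ∣ d from hd9)] at this
    exact_mod_cast this
  -- the lists
  obtain ⟨lb, hlb, hlbnd⟩ : ∃ lb : List ℕ, (∀ p, p ∈ lb ↔ p ∈ d.primeFactors ∧ 7 ≤ p) ∧ lb.Nodup :=
    ⟨(d.primeFactors.filter (fun p => 7 ≤ p)).toList, fun p => by
      rw [Finset.mem_toList, Finset.mem_filter], Finset.nodup_toList _⟩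
  obtain ⟨ls, hls, hls'⟩ : ∃ ls : List ℕ, (∀ p, p ∈ ls ↔ p ∈ d.primeFactors ∧ p < 7) ∧
      ((5 ∈ d.primeFactors ∧ ls = [5, 3]) ∨ ls = [3]) := by
    have hsm : ∀ p, p ∈ d.primeFactors → p < 7 → p = 3 ∨ p = 5 := by
      intro p hp hp7
      have hpp := Nat.prime_of_mem_primeFactors hp
      have hpd := Nat.dvd_of_mem_primeFactors hp
      interval_cases p
      · exact absurd hpp (by norm_num)
      · exact absurd hpp (by norm_num)
      · exact absurd hpd hd2
      · exact Or.inl rfl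
      · exact absurd hpp (by norm_num)
      · exact Or.inr rfl
      · exact absurd hpp (by norm_num)
    by_cases h5 : 5 ∈ d.primeFactors
    · refine ⟨[5, 3], fun p => ?_, Or.inl ⟨h5, rfl⟩⟩
      simp only [List.mem_cons, List.not_mem_nil, or_false]
      constructor
      · rintro (rfl | rfl)
        · exact ⟨h5, by norm_num⟩
        · exact ⟨h3p, by norm_num⟩
      · rintro ⟨hp, hp7⟩
        exact (hsm p hp hp7).symm
    · refine ⟨[3], fun p => ?_, Or.inr rfl⟩
      simp only [List.mem_cons, List.not_mem_nil, or_false]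
      constructor
      · rintro rfl
        exact ⟨h3p, by norm_num⟩
      · rintro ⟨hp, hp7⟩
        rcases hsm p hp hp7 with h | h
        · exact h
        · subst h
          exact absurd hp h5
  have hlsnd : ls.Nodup := by
    rcases hls' with ⟨_, h⟩ | h <;> rw [h] <;> simp
  have hnd : (lb ++ ls).Nodup := by
    rw [List.nodup_append]
    refine ⟨hlbnd, hlsnd, ?_⟩
    intro a ha b hb hab
    have h1 := ((hlb a).1 ha).2
    have h2 := ((hls b).1 hb).2
    omega
  have hmem : ∀ p, p ∈ lb ++ ls ↔ p ∈ d.primeFactors := by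
    intro p
    rw [List.mem_append, hlb, hls]
    constructor
    · rintro (h | h)
      · exact h.1
      · exact h.1
    · intro h
      rcases le_or_gt 7 p with h7 | h7
      · exact Or.inl ⟨h, h7⟩
      · exact Or.inr ⟨h, h7⟩
  have hge : ∀ p ∈ d.primeFactors, (3 : ℤ) ≤ (sK (Kp d p)).card ∧
      (7 ≤ p → (6 : ℤ) ≤ (sK (Kp d p)).card) ∧ (p = 5 → (4 : ℤ) ≤ (sK (Kp d p)).card) := by
    intro p hp
    by_cases h : p = 3
    · subst h
      rw [hc3]
      exact ⟨by norm_num, fun h => absurd h (by norm_num), fun h => absurd h (by norm_num)⟩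
    · have hpp := Nat.prime_of_mem_primeFactors hp
      have hpd := Nat.dvd_of_mem_primeFactors hp
      have h2 : p ≠ 2 := fun h => hd2 (h ▸ hpd)
      have h4 : p ≠ 4 := by
        rintro rfl
        exact absurd hpp (by norm_num)
      have h5 : 5 ≤ p := by
        have := hpp.two_le
        omega
      have hk : ((p : ℤ) - 1) ≤ (sK (Kp d p)).card := by
        rw [hcard p hp]
        split <;> linarith
      have h5' : (5 : ℤ) ≤ p := by exact_mod_cast h5
      refine ⟨by linarith, fun h7 => ?_, fun _ => by linarith⟩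
      have h7' : (7 : ℤ) ≤ p := by exact_mod_cast h7
      linarith
  have hTl' : Tl (Kp d) (lb ++ ls) F = 0 := hTl _ hmem
  have hInd' : Ind (Kp d) (lb ++ ls) := hInd _ hnd fun p hp => (hmem p).1 hp
  obtain ⟨E, H, hE, hHodd, hHTl, hFE, hcost⟩ := hStripG (ZMod d)ˣ (Kp d) lb ls hnd hInd' (-1) 6 F hodd
    hTl' (hhalf _ (fun p hp => (hmem p).1 hp) F hodd hnm) (by
      intro r hr j hj _
      have h1 := (hge r ((hlb r).1 hr).1).2.1 ((hlb r).1 hr).2
      have h2 := (hge j ((hmem j).1 hj)).1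
      nlinarith)
  have hHnm : nm H ≤ nm F := by
    have h1 : (0 : ℚ) ≤ ∑ i ∈ lb.toFinset, ct (Kp d i) (E i) :=
      Finset.sum_nonneg fun i _ => ct_nonneg _ _
    have h2 : (nm H : ℚ) ≤ nm F := by linarith
    exact_mod_cast h2
  have hco3 : co (sK (Kp d 3)).card = 1 := by
    rw [hc3]
    rfl
  rcases hls' with ⟨h5, hl⟩ | hl
  · subst hl
    have hcm := (hTBas (ZMod d)ˣ (Kp d 3) (Kp d 5) H H).2.2.2.2.2.2.1
    have hT2 : T (Kp d 5) (T (Kp d 3) H) = 0 := by
      rw [← hcm]
      exact hHTl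
    have hKS53 : KS (Kp d) [5, 3] = Kp d 5 ⊔ Kp d 3 := by
      simp [KS]
    have hmem53 : ∀ p ∈ [5, 3], p ∈ d.primeFactors := fun p hp => ((hls p).1 hp).1
    have hdis : Disjoint (Kp d 5) (Kp d 3) := by
      have := (hInd [5, 3] hlsnd hmem53).1
      simpa [KS] using this
    have h4 : 4 ≤ (sK (Kp d 5)).card := by
      have := (hge 5 h5).2.2 rfl
      exact_mod_cast this
    have hbd : ∀ a, cn (Kp d 5 ⊔ Kp d 3) H a ≤ 2 * (sK (Kp d 5)).card := by
      intro a
      have h1 := hhalf [5, 3] hmem53 H hHodd (le_trans hHnm hnm) a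
      rw [hKS53] at h1
      have h4' : (4 : ℤ) ≤ (sK (Kp d 5)).card := by exact_mod_cast h4
      linarith
    obtain ⟨E1, E2, hE1, hE2, hE1i, hE2i, hHE, hcE⟩ := hTwoP (ZMod d)ˣ (Kp d 5) (Kp d 3) hdis h4
      (by rw [hco3, hc3]; norm_num) (-1) hεε (hKS53 ▸ hKS [5, 3] hmem53) H hHodd hT2 hbd
    have h53 : (3 : ℕ) ≠ 5 := by norm_num
    refine asm d F H lb [5, 3] hnd hmem E (fun p => if p = 5 then E1 else E2) hE ?_ hFE ?_ hcost ?_
    · intro i hi
      simp only [List.mem_cons, List.not_mem_nil, or_false] at hi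
      rcases hi with rfl | rfl
      · simp only [if_pos]
        exact ⟨hE1, hE1i⟩
      · simp only [if_neg h53]
        exact ⟨hE2, hE2i⟩
    · intro a
      rw [hHE a]
      have : [5, 3].toFinset = ({5, 3} : Finset ℕ) := rfl
      rw [this, Finset.sum_pair (by norm_num)]
      simp
    · have : [5, 3].toFinset = ({5, 3} : Finset ℕ) := rfl
      rw [this, Finset.sum_pair (by norm_num)]
      simpa using hcE
  · subst hl
    have hT3 : T (Kp d 3) H = 0 := hHTl
    have hinv := (hTBas (ZMod d)ˣ (Kp d 3) (Kp d 3) H H).2.2.2.2.2.2.2.1.1 hT3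
    refine asm d F H lb [3] hnd hmem E (fun _ => H) hE ?_ hFE ?_ hcost ?_
    · intro i hi
      rw [List.mem_singleton] at hi
      subst hi
      exact ⟨hHodd, hinv⟩
    · intro a
      have : [3].toFinset = ({3} : Finset ℕ) := rfl
      rw [this, Finset.sum_singleton]
    · have : [3].toFinset = ({3} : Finset ℕ) := rfl
      rw [this, Finset.sum_singleton]
      unfold ct
      rw [hco3, hc3]
      have h2 : (0 : ℚ) ≤ (nm H : ℚ) := by exact_mod_cast nm_nonneg H
      push_cast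
      linarith

end Pool.Agent.FO
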