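import Pool.Agent.Lib.MP_640417_ag.FO.SpecR
import Pool.Agent.Lib.MP_640417_ag.FO.ClHd

/-!
# Theorem FR: the functionals kill the relations (helper17)
-/

set_option autoImplicit false
set_option linter.unusedSectionVars false

open Finset Pool.Agent.FC

namespace Pool.Agent.FO

namespace DGBasAux

variable {m q : ℕ} [NeZero m]

theorem pos_prime {p : ℕ} (hp : p ∈ m.primeFactors) : p.Prime ∧ p ∣ m :=
  ⟨Nat.prime_of_mem_primeFactors hp, Nat.dvd_of_mem_primeFactors hp⟩

/-- Induction for `DG`. -/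
theorem ind {C : (ZMod m → ℤ) → Prop} (h1 : ∀ p ∈ m.primeFactors, p ≠ q → ∀ y : ZMod m,
      Tp m q y → C (rl m p y)) (h0 : C 0) (ha : ∀ f g, C f → C g → C (f + g))
    (hn : ∀ f, C f → C (-f)) : ∀ h ∈ DG m q, C h := by
  intro h hh
  refine AddSubgroup.closure_induction (p := fun f _ => C f) ?_ h0 (fun f g _ _ => ha f g)
    (fun f _ => hn f) hh
  rintro f ⟨p, hp, hpq, y, hy, rfl⟩
  exact h1 p hp hpq y hy

/-- Induction for the pairs. -/
theorem indP {C : (ZMod m → ℤ) → Prop} (h1 : ∀ y : ZMod m, Tp m q y →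
      C (Pi.single y 1 + Pi.single (-y) 1)) (h0 : C 0) (ha : ∀ f g, C f → C g → C (f + g))
    (hn : ∀ f, C f → C (-f)) : ∀ h ∈ DGp m q, (∀ f ∈ DG m q, C f) → C h := by
  intro h hh hD
  obtain ⟨f, hf, g, hg, rfl⟩ := AddSubgroup.mem_sup.1 hh
  refine ha _ _ (hD f hf) ?_
  refine AddSubgroup.closure_induction (p := fun f _ => C f) ?_ h0 (fun f g _ _ => ha f g)
    (fun f _ => hn f) hg
  rintro f ⟨y, hy, rfl⟩
  exact h1 y hy

/-- The value of a functional on a relation. -/
theorem sum_rl (p : ℕ) (y : ZMod m) (φ : ZMod m → ℚ) :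
    ∑ x, (rl m p y x : ℚ) * φ x =
      ∑ x ∈ univ.filter (fun x : ZMod m => (p : ZMod m) * x = p * y), φ x - φ (p * y) := by
  have h : ∀ x : ZMod m, (rl m p y x : ℚ) * φ x = (if (p : ZMod m) * x = p * y then φ x else 0) -
      (if x = (p : ZMod m) * y then φ x else 0) := by
    intro x
    unfold rl
    push_cast
    rw [sub_mul, ite_mul, ite_mul, one_mul, zero_mul]
  rw [Finset.sum_congr rfl fun x _ => h x, Finset.sum_sub_distrib, Finset.sum_filter]
  simp

theorem lin (φ : ZMod m → ℚ) (h1 : ∀ p ∈ m.primeFactors, p ≠ q → ∀ y : ZMod m,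
    ∑ x ∈ univ.filter (fun x : ZMod m => (p : ZMod m) * x = p * y), φ x = φ (p * y)) :
    ∀ h ∈ DG m q, ∑ x, (h x : ℚ) * φ x = 0 := by
  refine ind ?_ ?_ ?_ ?_
  · intro p hp hpq y _
    rw [sum_rl, h1 p hp hpq y, sub_self]
  · simp
  · intro f g hf hg
    simp only [Pi.add_apply, Int.cast_add, add_mul]
    rw [Finset.sum_add_distrib, hf, hg, add_zero]
  · intro f hf
    simp only [Pi.neg_apply, Int.cast_neg, neg_mul]
    rw [Finset.sum_neg_distrib, hf, neg_zero]

theorem tp_unit (k : (ZMod m)ˣ) (y : ZMod m) (hy : Tp m q y) : Tp m q ((k : ZMod m) * y) := by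
  unfold Tp at hy ⊢
  rw [mul_left_comm]
  intro h
  exact hy (k.isUnit.mul_right_eq_zero.1 h)

theorem rl_unit (p : ℕ) (k : (ZMod m)ˣ) (y x : ZMod m) :
    rl m p y ((k : ZMod m) * x) = rl m p (((k⁻¹ : (ZMod m)ˣ) : ZMod m) * y) x := by
  have e1 : ((p : ZMod m) * ((k : ZMod m) * x) = p * y) ↔
      ((p : ZMod m) * x = p * (((k⁻¹ : (ZMod m)ˣ) : ZMod m) * y)) := by
    constructor
    · intro h
      rw [mul_left_comm (p : ZMod m), ← h, mul_left_comm (p : ZMod m), Units.inv_mul_cancel_left]
    · intro h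
      rw [mul_left_comm (p : ZMod m), h, mul_left_comm (p : ZMod m), Units.mul_inv_cancel_left]
  have e2 : ((k : ZMod m) * x = p * y) ↔
      (x = (p : ZMod m) * (((k⁻¹ : (ZMod m)ˣ) : ZMod m) * y)) := by
    constructor
    · intro h
      rw [mul_left_comm (p : ZMod m), ← h, Units.inv_mul_cancel_left]
    · intro h
      rw [h, mul_left_comm (p : ZMod m), Units.mul_inv_cancel_left]
  unfold rl
  simp only [e1, e2]

/-- (2) -/
theorem unit_mem (k : (ZMod m)ˣ) : ∀ h ∈ DG m q, (fun x => h ((k : ZMod m) * x)) ∈ DG m q := by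
  refine ind (C := fun h => (fun x => h ((k : ZMod m) * x)) ∈ DG m q) ?_ ?_ ?_ ?_
  · intro p hp hpq y hy
    refine AddSubgroup.subset_closure ⟨p, hp, hpq, ((k⁻¹ : (ZMod m)ˣ) : ZMod m) * y,
      tp_unit _ _ hy, ?_⟩
    funext x
    exact rl_unit p k y x
  · exact zero_mem _
  · intro f g hf hg
    exact add_mem hf hg
  · intro f hf
    exact neg_mem hf

theorem neg_mem' (h : ZMod m → ℤ) (hh : h ∈ DG m q) : (fun x => h (-x)) ∈ DG m q := by
  have h1 := unit_mem (-1) h hh
  simpa using h1

/-- (3) -/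
theorem odd_mem : ∀ h ∈ DGp m q, (fun x => h x - h (-x)) ∈ DG m q := by
  intro h hh
  refine indP (C := fun h => (fun x => h x - h (-x)) ∈ DG m q) ?_ ?_ ?_ ?_ h hh ?_
  · intro y _
    have e : (fun x : ZMod m => (Pi.single y 1 + Pi.single (-y) 1 : ZMod m → ℤ) x -
        (Pi.single y 1 + Pi.single (-y) 1 : ZMod m → ℤ) (-x)) = 0 := by
      funext x
      simp only [Pi.add_apply, Pi.single_apply, Pi.zero_apply]
      have e1 : (-x = y) ↔ (x = -y) := by
        rw [neg_eq_iff_eq_neg]
      have e2 : (-x = -y) ↔ (x = y) := neg_inj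
      simp only [e1, e2]
      ring
    rw [e]
    exact zero_mem _
  · simp only [Pi.zero_apply, sub_self]
    exact zero_mem _
  · intro f g hf hg
    have h1 := add_mem hf hg
    have e : (fun x => f x - f (-x)) + (fun x => g x - g (-x)) =
        fun x => (f + g) x - (f + g) (-x) := by
      funext x
      simp only [Pi.add_apply]
      ring
    rwa [e] at h1
  · intro f hf
    have h1 := neg_mem hf
    have e : -(fun x => f x - f (-x)) = fun x => (-f) x - (-f) (-x) := by
      funext x
      simp only [Pi.neg_apply]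
      ring
    rwa [e] at h1
  · intro f hf
    exact sub_mem hf (neg_mem' f hf)

theorem tp_neg {y : ZMod m} (hy : Tp m q y) : Tp m q (-y) := by
  unfold Tp at hy ⊢
  rw [mul_neg]
  exact neg_ne_zero.2 hy

/-- (4) -/
theorem supp (hSpcBas : S_SpcBas) (hq : q ∈ m.primeFactors) : ∀ h ∈ DGp m q, ∀ x, h x ≠ 0 →
    Tp m q x := by
  intro h hh
  refine indP (C := fun h => ∀ x, h x ≠ 0 → Tp m q x) ?_ ?_ ?_ ?_ h hh ?_
  · intro y hy x hx
    simp only [Pi.add_apply, Pi.single_apply] at hx
    by_cases h1 : x = y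
    · rw [h1]
      exact hy
    · rw [if_neg h1, zero_add] at hx
      by_cases h2 : x = -y
      · rw [h2]
        exact tp_neg hy
      · rw [if_neg h2] at hx
        exact absurd rfl hx
  · intro x hx
    exact absurd rfl hx
  · intro f g hf hg x hx
    by_cases h1 : f x = 0
    · refine hg x ?_
      intro h2
      refine hx ?_
      rw [Pi.add_apply, h1, h2, add_zero]
    · exact hf x h1
  · intro f hf x hx
    refine hf x ?_
    intro h1
    refine hx ?_
    rw [Pi.neg_apply, h1, neg_zero]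
  · refine ind ?_ ?_ ?_ ?_
    · intro p hp hpq y hy x hx
      have h1 : Tp m q ((p : ZMod m) * y) :=
        (hSpcBas m p hp).2.2.2.2.2 q hq (Ne.symm hpq) y hy
      unfold rl at hx
      by_cases h2 : x = (p : ZMod m) * y
      · rw [h2]
        exact h1
      · rw [if_neg h2, sub_zero] at hx
        by_cases h3 : (p : ZMod m) * x = p * y
        · intro h4
          refine h1 ?_
          rw [← h3, mul_left_comm, h4, mul_zero]
        · rw [if_neg h3] at hx
          exact absurd rfl hx
    · intro x hx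
      exact absurd rfl hx
    · intro f g hf hg x hx
      by_cases h1 : f x = 0
      · refine hg x ?_
        intro h2
        refine hx ?_
        rw [Pi.add_apply, h1, h2, add_zero]
      · exact hf x h1
    · intro f hf x hx
      refine hf x ?_
      intro h1
      refine hx ?_
      rw [Pi.neg_apply, h1, neg_zero]

theorem tp_ne {y : ZMod m} (hy : Tp m q y) : y ≠ 0 := by
  rintro rfl
  exact hy (mul_zero _)

theorem cl_zero : cl (0 : ZMod m → ℤ) = 0 := by
  unfold cl
  simp

theorem cl_add (f g : ZMod m → ℤ) : cl (f + g) = cl f + cl g := by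
  unfold cl
  rw [← Finset.sum_add_distrib]
  refine Finset.sum_congr rfl fun x _ => ?_
  rw [Pi.add_apply, Finsupp.single_add]

theorem cl_neg (f : ZMod m → ℤ) : cl (-f) = -cl f := by
  unfold cl
  rw [← Finset.sum_neg_distrib]
  refine Finset.sum_congr rfl fun x _ => ?_
  rw [Pi.neg_apply, Finsupp.single_neg]

theorem cl_single (y : ZMod m) : cl (Pi.single y 1 : ZMod m → ℤ) =
    Finsupp.single (ZMod.toAddCircle y) 1 := by
  unfold cl
  rw [Finset.sum_eq_single y]
  · rw [Pi.single_eq_same]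
  · intro x _ hx
    rw [Pi.single_eq_of_ne hx, Finsupp.single_zero]
  · intro h
    exact absurd (Finset.mem_univ y) h

/-- (5) -/
theorem cl_mem (hSpcBas : S_SpcBas) (hq : q ∈ m.primeFactors) : ∀ h ∈ DGp m q, cl h ∈ HD := by
  intro h hh
  refine indP (C := fun h => cl h ∈ HD) ?_ ?_ ?_ ?_ h hh ?_
  · intro y hy
    rw [cl_add, cl_single, cl_single, map_neg]
    refine AddSubgroup.subset_closure (Or.inl ⟨ZMod.toAddCircle y, ?_, rfl⟩)
    rw [Ne, ZMod.toAddCircle_eq_zero]
    exact tp_ne hy
  · rw [cl_zero]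
    exact zero_mem _
  · intro f g hf hg
    rw [cl_add]
    exact add_mem hf hg
  · intro f hf
    rw [cl_neg]
    exact neg_mem hf
  · refine ind ?_ ?_ ?_ ?_
    · intro p hp hpq y hy
      have h1 : Tp m q ((p : ZMod m) * y) :=
        (hSpcBas m p hp).2.2.2.2.2 q hq (Ne.symm hpq) y hy
      have e : rl m p y = hD p (Pi.single ((p : ZMod m) * y) 1) := by
        funext x
        unfold rl hD
        rw [Pi.single_apply, Pi.single_apply]
      rw [e]
      refine pClHd m p (pos_prime hp).2 _ ?_ ?_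
      · rw [Pi.single_eq_of_ne (tp_ne h1).symm]
      · intro z hz
        refine ⟨y, ?_⟩
        by_contra hne
        rw [Pi.single_eq_of_ne hne] at hz
        exact hz rfl
    · rw [cl_zero]
      exact zero_mem _
    · intro f g hf hg
      rw [cl_add]
      exact add_mem hf hg
    · intro f hf
      rw [cl_neg]
      exact neg_mem hf

end DGBasAux

open DGBasAux in
theorem pDGBas (hSzBas : S_SzBas) (hDist : S_Dist) (hPsiBas : S_PsiBas) (hSpcBas : S_SpcBas) :
    S_DGBas := by
  have _ := hSzBas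
  intro m q r _ _ ψ hA hq
  refine ⟨?_, ?_, odd_mem, supp hSpcBas hq, cl_mem hSpcBas hq, le_sup_left⟩
  · intro h hh t ht
    constructor
    · unfold P
      refine lin _ ?_ h hh
      intro p hp hpq y
      rw [(hDist m p (pos_prime hp).2).2 t (ht p hp hpq) y]
      congr 1
      ring
    · unfold Q
      refine lin _ ?_ h hh
      intro p hp hpq y
      rw [(hPsiBas m r ψ hA).2 p hp t (ht p hp hpq) y]
      congr 1
      ring
  · intro h hh k
    exact unit_mem k h hh

end Pool.Agent.FO
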