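import Pool.Agent.Lib.MP_640417_ag.FO.SpecH

/-!
# Theorem FG, part H: sharp decomposition
-/

set_option autoImplicit false

noncomputable section

namespace Pool.Agent.FO

open Finset Pool.Agent.FC

theorem pDS (hCnBas : S_CnBas) (hStripG : S_StripG) : S_DS := by
  classical
  intro d _ F hF hT hc
  have hnd : (d.primeFactors.toList ++ []).Nodup := by
    rw [List.append_nil]
    exact Finset.nodup_toList _
  have hInd : Ind (Kp d) (d.primeFactors.toList ++ []) := by
    rw [List.append_nil]
    exact (pKpBas d).1 _ (Finset.nodup_toList _) fun p hp => Finset.mem_toList.1 hp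
  have hTl : Tl (Kp d) (d.primeFactors.toList ++ []) F = 0 := by
    rw [List.append_nil]
    exact hT _ fun p => Finset.mem_toList
  obtain ⟨E, H, hE, -, hH0, hFE, hsum⟩ := hStripG (ZMod d)ˣ (Kp d) d.primeFactors.toList [] hnd hInd
    (-1) (nm F) F hF hTl
    (fun a => (hCnBas (ZMod d)ˣ (KS (Kp d) (d.primeFactors.toList ++ [])) ⊤ F F).2.2.2.2.1 a)
    (fun r hr j hj hrj => hc r (Finset.mem_toList.1 hr) j
      (Finset.mem_toList.1 (by rwa [List.append_nil] at hj)) hrj)
  have hH : H = 0 := hH0
  rw [Finset.toList_toFinset] at hsum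
  refine ⟨E, ⟨fun p hp => hE p (Finset.mem_toList.2 hp), fun u => ?_⟩, ?_⟩
  · have h1 := hFE u
    rw [hH, Finset.toList_toFinset] at h1
    rw [h1, Pi.zero_apply, add_zero]
  · have h2 : nm H = 0 := by
      rw [hH]
      unfold nm
      exact Finset.sum_eq_zero fun a _ => by rw [Pi.zero_apply, abs_zero]
    rw [h2, Int.cast_zero, add_zero] at hsum
    exact hsum

end Pool.Agent.FO
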