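import Pool.Agent.Lib.MP_640417_ag.FO.SpecH

/-!
# Theorem FG, part H: small levels
-/

set_option autoImplicit false

noncomputable section

namespace Pool.Agent.FO

open Finset Pool.Agent.FC

namespace DSmAux

/-- The small odd levels. -/
private theorem cases_small (d : ℕ) (h2 : ¬ 2 ∣ d) (h1 : 1 < d) (h : d ≤ 39) :
    (∃ p k : ℕ, p.Prime ∧ k ≠ 0 ∧ d = p ^ k) ∨
      ∃ p q : ℕ, p.Prime ∧ q.Prime ∧ 2 < p ∧ p < q ∧ d = p * q := by
  interval_cases d
  · omega
  · exact Or.inl ⟨3, 1, by norm_num, by norm_num, by norm_num⟩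
  · omega
  · exact Or.inl ⟨5, 1, by norm_num, by norm_num, by norm_num⟩
  · omega
  · exact Or.inl ⟨7, 1, by norm_num, by norm_num, by norm_num⟩
  · omega
  · exact Or.inl ⟨3, 2, by norm_num, by norm_num, by norm_num⟩
  · omega
  · exact Or.inl ⟨11, 1, by norm_num, by norm_num, by norm_num⟩
  · omega
  · exact Or.inl ⟨13, 1, by norm_num, by norm_num, by norm_num⟩
  · omega
  · exact Or.inr ⟨3, 5, by norm_num, by norm_num, by norm_num, by norm_num, by norm_num⟩
  · omega
  · exact Or.inl ⟨17, 1, by norm_num, by norm_num, by norm_num⟩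
  · omega
  · exact Or.inl ⟨19, 1, by norm_num, by norm_num, by norm_num⟩
  · omega
  · exact Or.inr ⟨3, 7, by norm_num, by norm_num, by norm_num, by norm_num, by norm_num⟩
  · omega
  · exact Or.inl ⟨23, 1, by norm_num, by norm_num, by norm_num⟩
  · omega
  · exact Or.inl ⟨5, 2, by norm_num, by norm_num, by norm_num⟩
  · omega
  · exact Or.inl ⟨3, 3, by norm_num, by norm_num, by norm_num⟩
  · omega
  · exact Or.inl ⟨29, 1, by norm_num, by norm_num, by norm_num⟩
  · omega
  · exact Or.inl ⟨31, 1, by norm_num, by norm_num, by norm_num⟩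
  · omega
  · exact Or.inr ⟨3, 11, by norm_num, by norm_num, by norm_num, by norm_num, by norm_num⟩
  · omega
  · exact Or.inr ⟨5, 7, by norm_num, by norm_num, by norm_num, by norm_num, by norm_num⟩
  · omega
  · exact Or.inl ⟨37, 1, by norm_num, by norm_num, by norm_num⟩
  · omega
  · exact Or.inr ⟨3, 13, by norm_num, by norm_num, by norm_num, by norm_num, by norm_num⟩

private theorem mem_sK {G : Type} [Group G] [Fintype G] (K : Subgroup G) (k : G) : k ∈ sK K ↔ k ∈ K := by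
  unfold sK
  simp

/-- The number of elements of the product. -/
private theorem card_sup {G : Type} [CommGroup G] [Fintype G] (K L : Subgroup G) (h : Disjoint K L) :
    (sK (K ⊔ L)).card = (sK K).card * (sK L).card := by
  have h1 := pSumKK G K L h (fun _ => 1)
  simp only [Finset.sum_const, nsmul_eq_mul, mul_one] at h1
  exact_mod_cast h1

private theorem eq_top {G : Type} [CommGroup G] [Fintype G] (K : Subgroup G) (h : (sK K).card = Fintype.card G) :
    K = ⊤ := by
  have h1 : sK K = univ := (Finset.card_eq_iff_eq_univ _).1 h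
  rw [Subgroup.eq_top_iff']
  intro x
  rw [← mem_sK, h1]
  exact mem_univ x

private theorem sq_one {G : Type} [CommGroup G] (K L : Subgroup G) (h : Disjoint K L) (e1 e2 : G) (h1 : e1 ∈ K)
    (h2 : e2 ∈ L) (hh : (e1 * e2) * (e1 * e2) = 1) : e1 * e1 = 1 ∧ e2 * e2 = 1 := by
  have h3 : (e1 * e1) * (e2 * e2) = 1 := by
    rw [← hh]
    exact mul_mul_mul_comm e1 e1 e2 e2
  have h4 : e1 * e1 = (e2 * e2)⁻¹ := mul_eq_one_iff_eq_inv.1 h3
  have h5 : e1 * e1 = 1 := by
    apply (Subgroup.disjoint_def.1 h) (K.mul_mem h1 h1)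
    rw [h4]
    exact L.inv_mem (L.mul_mem h2 h2)
  refine ⟨h5, ?_⟩
  rw [h5, one_mul] at h3
  exact h3

private theorem neg_one_sq {d : ℕ} : (-1 : (ZMod d)ˣ) * -1 = 1 := by
  rw [neg_mul_neg, one_mul]

/-- Prime powers. -/
private theorem one_prime (d : ℕ) [NeZero d] (p : ℕ) (hp : d.primeFactors = {p}) (F : (ZMod d)ˣ → ℤ)
    (hF : ∀ u, F (-1 * u) = -F u) (hT : TlA d F) : ∃ E, Dcm d F E := by
  have h1 : T (Kp d p) F = 0 := hT [p] (by intro r; rw [hp]; simp)
  have h2 := (hTBas _ (Kp d p) (Kp d p) F F).2.2.2.2.2.2.2.1.1 h1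
  refine ⟨fun _ => F, ?_, ?_⟩
  · intro r hr
    rw [hp, Finset.mem_singleton] at hr
    rw [hr]
    exact ⟨hF, h2⟩
  · intro u
    rw [hp, Finset.sum_singleton]

/-- Products of two primes. -/
private theorem two_primes (hPairR : S_PairR) (p q : ℕ) [NeZero (p * q)] (hp : p.Prime) (hq : q.Prime)
    (hpq : p < q) (F : (ZMod (p * q))ˣ → ℤ) (hF : ∀ u, F (-1 * u) = -F u) (hT : TlA (p * q) F)
    (hpar : ∀ e ∈ Kp (p * q) p, -1 * e ∈ Kp (p * q) q → (2 : ℤ) ∣ F 1 + F e) : ∃ E, Dcm (p * q) F E := by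
  have hcop : Nat.Coprime p q := (Nat.coprime_primes hp hq).2 hpq.ne
  have hpf : (p * q).primeFactors = {p, q} := by
    rw [hcop.primeFactors_mul, hp.primeFactors, hq.primeFactors]
    rfl
  have hmp : p ∈ (p * q).primeFactors := by rw [hpf]; simp
  have hmq : q ∈ (p * q).primeFactors := by rw [hpf]; simp
  set K := Kp (p * q) p with hK
  set L := Kp (p * q) q with hL
  have hdis : Disjoint K L := by
    have h1 := (pKpBas (p * q)).1 [p, q] (by simp [hpq.ne]) (by
      intro r hr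
      rcases List.mem_cons.1 hr with rfl | hr
      · exact hmp
      · rw [List.mem_singleton] at hr
        rw [hr]
        exact hmq)
    have h2 := h1.1
    change Disjoint (Kp (p * q) p) (Kp (p * q) q ⊔ ⊥) at h2
    rw [sup_bot_eq] at h2
    exact h2
  have hp2 : ¬ p ^ 2 ∣ p * q := by
    rw [sq]
    intro h
    have h1 : p ∣ q := Nat.dvd_of_mul_dvd_mul_left hp.pos h
    exact hpq.ne ((Nat.prime_dvd_prime_iff_eq hp hq).1 h1)
  have hq2 : ¬ q ^ 2 ∣ p * q := by
    rw [sq]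
    intro h
    have h1 : q ∣ p := Nat.dvd_of_mul_dvd_mul_right hq.pos h
    exact hpq.ne ((Nat.prime_dvd_prime_iff_eq hq hp).1 h1).symm
  have hcK : (sK K).card = p - 1 := by
    have h1 := (pKpBas (p * q)).2 p hmp
    rw [if_neg hp2, ← hK] at h1
    have := hp.one_lt
    omega
  have hcL : (sK L).card = q - 1 := by
    have h1 := (pKpBas (p * q)).2 q hmq
    rw [if_neg hq2, ← hL] at h1
    have := hq.one_lt
    omega
  have htop : K ⊔ L = ⊤ := by
    apply eq_top
    rw [card_sup K L hdis, hcK, hcL, ZMod.card_units_eq_totient, Nat.totient_mul hcop,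
      Nat.totient_prime hp, Nat.totient_prime hq]
  obtain ⟨e1, he1, e2, he2, he⟩ : ∃ e1 ∈ K, ∃ e2 ∈ L, e1 * e2 = (-1 : (ZMod (p * q))ˣ) := by
    rw [← Subgroup.mem_sup, htop]
    exact Subgroup.mem_top _
  obtain ⟨hs1, hs2⟩ := sq_one K L hdis e1 e2 he1 he2 (by rw [he]; exact neg_one_sq)
  have he21 : -1 * e1 = e2 := by
    rw [← he, mul_right_comm, hs1, one_mul]
  have hTT : T K (T L F) = 0 := hT [q, p] (by intro r; rw [hpf]; simp [or_comm])
  obtain ⟨E1, E2, hE1, hE2, hi1, hi2, hsum⟩ := hPairR _ K L hdis htop e1 he1 e2 he2 hs1 hs2 F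
    (by rw [he]; exact hF) hTT (hpar e1 he1 (by rw [he21]; exact he2))
  rw [he] at hE1 hE2
  refine ⟨fun r => if r = p then E1 else E2, ?_, ?_⟩
  · intro r hr
    rw [hpf, Finset.mem_insert, Finset.mem_singleton] at hr
    rcases hr with rfl | rfl
    · simp only [if_true]
      exact ⟨hE1, hi1⟩
    · simp only [if_neg hpq.ne']
      exact ⟨hE2, hi2⟩
  · intro u
    rw [hpf, Finset.sum_pair hpq.ne]
    simp only [if_true, if_neg hpq.ne']
    exact hsum u

/-- Elements of `Kp d p` are `1` modulo `n` if `n ∣ d / p`. -/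
private theorem kp_le {d n p : ℕ} (hn : n ∣ d) (hp : p ∣ d) (h : n ∣ d / p) :
    Kp d p ≤ (ZMod.unitsMap hn).ker := by
  intro u hu
  unfold Kp at hu
  rw [dif_pos hp, MonoidHom.mem_ker] at hu
  rw [MonoidHom.mem_ker, ← ZMod.unitsMap_comp h (Nat.div_dvd_of_dvd hp), MonoidHom.comp_apply, hu, map_one]

private theorem neg_not_mem {d n : ℕ} (hn : n ∣ d) (h3 : 3 ≤ n) : (-1 : (ZMod d)ˣ) ∉ (ZMod.unitsMap hn).ker := by
  intro h
  rw [MonoidHom.mem_ker, Units.ext_iff, ZMod.unitsMap_val, Units.val_neg, Units.val_one, Units.val_one,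
    ZMod.cast_neg hn, ZMod.cast_one hn] at h
  have h1 : (2 : ZMod n) = 0 := by
    have h2 : (1 : ZMod n) + 1 = 0 := by
      nth_rewrite 1 [← h]
      ring
    rw [← h2]
    ring
  have h4 : ((2 : ℕ) : ZMod n) = 0 := by exact_mod_cast h1
  rw [ZMod.natCast_eq_zero_iff] at h4
  have := Nat.le_of_dvd (by norm_num) h4
  omega

private theorem mem357 (r : ℕ) : r ∈ [7, 5, 3] ↔ r ∈ ({3, 5, 7} : Finset ℕ) := by
  simp only [List.mem_cons, List.not_mem_nil, or_false, Finset.mem_insert, Finset.mem_singleton]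
  omega

/-- The level `105`. -/
private theorem level105 (hThree : S_Three) (F : (ZMod 105)ˣ → ℤ) (hF : ∀ u, F (-1 * u) = -F u)
    (hT : TlA 105 F) : ∃ E, Dcm 105 F E := by
  have hpf : (105 : ℕ).primeFactors = {3, 5, 7} := by
    have h1 : (105 : ℕ) = 3 * (5 * 7) := by norm_num
    have hc1 : Nat.Coprime 3 (5 * 7) := by norm_num
    have hc2 : Nat.Coprime 5 7 := by norm_num
    have p3 : Nat.Prime 3 := by norm_num
    have p5 : Nat.Prime 5 := by norm_num
    have p7 : Nat.Prime 7 := by norm_num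
    rw [h1, hc1.primeFactors_mul, hc2.primeFactors_mul, p3.primeFactors, p5.primeFactors, p7.primeFactors]
    rfl
  have m3 : 3 ∈ (105 : ℕ).primeFactors := by rw [hpf]; simp
  have m5 : 5 ∈ (105 : ℕ).primeFactors := by rw [hpf]; simp
  have m7 : 7 ∈ (105 : ℕ).primeFactors := by rw [hpf]; simp
  set K1 := Kp 105 3 with hK1
  set K2 := Kp 105 5 with hK2
  set K3 := Kp 105 7 with hK3
  have hind := (pKpBas 105).1 [3, 5, 7] (by simp) (by
    intro r hr
    simp only [List.mem_cons, List.not_mem_nil, or_false] at hr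
    rcases hr with rfl | rfl | rfl
    · exact m3
    · exact m5
    · exact m7)
  have hd1 : Disjoint K1 (K2 ⊔ K3) := by
    have h2 := hind.1
    change Disjoint (Kp 105 3) (Kp 105 5 ⊔ (Kp 105 7 ⊔ ⊥)) at h2
    rw [sup_bot_eq] at h2
    exact h2
  have hd2 : Disjoint K2 K3 := by
    have h2 := hind.2.1
    change Disjoint (Kp 105 5) (Kp 105 7 ⊔ ⊥) at h2
    rw [sup_bot_eq] at h2
    exact h2
  have hc1 : (sK K1).card = 2 := by
    have h1 := (pKpBas 105).2 3 m3
    rw [if_neg (by norm_num)] at h1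
    push_cast at h1
    have h2 : ((sK (Kp 105 3)).card : ℤ) = 2 := h1.trans (by norm_num)
    exact_mod_cast h2
  have hc2 : (sK K2).card = 4 := by
    have h1 := (pKpBas 105).2 5 m5
    rw [if_neg (by norm_num)] at h1
    push_cast at h1
    have h2 : ((sK (Kp 105 5)).card : ℤ) = 4 := h1.trans (by norm_num)
    exact_mod_cast h2
  have hc3 : (sK K3).card = 6 := by
    have h1 := (pKpBas 105).2 7 m7
    rw [if_neg (by norm_num)] at h1
    push_cast at h1
    have h2 : ((sK (Kp 105 7)).card : ℤ) = 6 := h1.trans (by norm_num)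
    exact_mod_cast h2
  have htop : K1 ⊔ (K2 ⊔ K3) = ⊤ := by
    apply eq_top
    rw [card_sup _ _ hd1, card_sup _ _ hd2, hc1, hc2, hc3, ZMod.card_units_eq_totient]
    have h1 : (105 : ℕ) = 3 * (5 * 7) := by norm_num
    have p3 : Nat.Prime 3 := by norm_num
    have p5 : Nat.Prime 5 := by norm_num
    have p7 : Nat.Prime 7 := by norm_num
    rw [h1, Nat.totient_mul (by norm_num), Nat.totient_mul (by norm_num), Nat.totient_prime p3,
      Nat.totient_prime p5, Nat.totient_prime p7]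
  obtain ⟨e1, he1, f, hf, hef⟩ : ∃ e1 ∈ K1, ∃ f ∈ K2 ⊔ K3, e1 * f = (-1 : (ZMod 105)ˣ) := by
    rw [← Subgroup.mem_sup, htop]
    exact Subgroup.mem_top _
  obtain ⟨e2, he2, e3, he3, hf23⟩ := Subgroup.mem_sup.1 hf
  have he : e1 * (e2 * e3) = (-1 : (ZMod 105)ˣ) := by rw [hf23, hef]
  obtain ⟨hs1, hsf⟩ := sq_one K1 (K2 ⊔ K3) hd1 e1 f he1 hf (by rw [hef]; exact neg_one_sq)
  obtain ⟨hs2, hs3⟩ := sq_one K2 K3 hd2 e2 e3 he2 he3 (by rw [hf23]; exact hsf)
  have hn1 : e1 ≠ 1 := by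
    intro h
    rw [h, one_mul] at he
    have h1 : (3 : ℕ) ∣ 105 := by norm_num
    apply neg_not_mem h1 (by norm_num)
    rw [← he]
    exact Subgroup.mul_mem _ (kp_le h1 (by norm_num) (by norm_num) he2) (kp_le h1 (by norm_num) (by norm_num) he3)
  have hn2 : e2 ≠ 1 := by
    intro h
    rw [h, one_mul] at he
    have h1 : (5 : ℕ) ∣ 105 := by norm_num
    apply neg_not_mem h1 (by norm_num)
    rw [← he]
    exact Subgroup.mul_mem _ (kp_le h1 (by norm_num) (by norm_num) he1) (kp_le h1 (by norm_num) (by norm_num) he3)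
  have hn3 : e3 ≠ 1 := by
    intro h
    rw [h, mul_one] at he
    have h1 : (7 : ℕ) ∣ 105 := by norm_num
    apply neg_not_mem h1 (by norm_num)
    rw [← he]
    exact Subgroup.mul_mem _ (kp_le h1 (by norm_num) (by norm_num) he1) (kp_le h1 (by norm_num) (by norm_num) he2)
  have hK1' : ∀ x, x ∈ K1 ↔ x = 1 ∨ x = e1 := by
    have h1 : ({1, e1} : Finset (ZMod 105)ˣ) = sK K1 := by
      apply Finset.eq_of_subset_of_card_le
      · intro x hx
        rw [Finset.mem_insert, Finset.mem_singleton] at hx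
        rw [mem_sK]
        rcases hx with rfl | rfl
        · exact K1.one_mem
        · exact he1
      · rw [hc1, Finset.card_pair hn1.symm]
    intro x
    rw [← mem_sK, ← h1, Finset.mem_insert, Finset.mem_singleton]
  have hTT : T K1 (T K2 (T K3 F)) = 0 := hT [7, 5, 3] (by
    intro r
    rw [hpf]
    exact mem357 r)
  obtain ⟨E1, E2, E3, hE1, hE2, hE3, hi1, hi2, hi3, hsum⟩ := hThree _ K1 K2 K3 hd1 hd2 htop e1 e2 e3 hK1'
    he2 he3 hs1 hs2 hs3 hn1 hn2 hn3 F (by rw [he]; exact hF) hTT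
  rw [he] at hE1 hE2 hE3
  obtain ⟨g, hg3, hg5, hg7⟩ : ∃ g : ℕ → (ZMod 105)ˣ → ℤ, g 3 = E1 ∧ g 5 = E2 ∧ g 7 = E3 :=
    ⟨fun r => if r = 3 then E1 else if r = 5 then E2 else E3, if_pos rfl,
      (if_neg (by norm_num)).trans (if_pos rfl), (if_neg (by norm_num)).trans (if_neg (by norm_num))⟩
  refine ⟨g, ?_, ?_⟩
  · intro r hr
    rw [hpf, Finset.mem_insert, Finset.mem_insert, Finset.mem_singleton] at hr
    rcases hr with rfl | rfl | rfl
    · rw [hg3]
      exact ⟨hE1, hi1⟩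
    · rw [hg5]
      exact ⟨hE2, hi2⟩
    · rw [hg7]
      exact ⟨hE3, hi3⟩
  · intro u
    rw [hpf, Finset.sum_insert (by simp), Finset.sum_pair (by norm_num), ← add_assoc, hg3, hg5, hg7]
    exact hsum u

end DSmAux

theorem pDSm (hPairR : S_PairR) (hThree : S_Three) : S_DSm := by
  intro d _ h2 h1 hd F hF hT hpar
  rcases hd with hd | rfl
  · rcases DSmAux.cases_small d h2 h1 hd with ⟨p, k, hp, hk, rfl⟩ | ⟨p, q, hp, hq, -, hpq, rfl⟩
    · exact DSmAux.one_prime _ p (Nat.primeFactors_prime_pow hk hp) F hF hT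
    · exact DSmAux.two_primes hPairR p q hp hq hpq F hF hT (hpar p q hp hq hpq rfl)
  · exact DSmAux.level105 hThree F hF hT

end Pool.Agent.FO
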