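import Pool.Agent.Lib.MP_640417_ag.FO.SpecB

/-!
# Theorem FO, part B: the decomposition lemma
-/

set_option autoImplicit false

noncomputable section

open Finset Pool.Agent.FC

namespace Pool.Agent.FO

private theorem nm_nonneg' {G : Type} [Fintype G] (F : G → ℤ) : 0 ≤ nm F :=
  Finset.sum_nonneg fun _ _ => abs_nonneg _

theorem pDec (hTBas : S_TBas) (hMaj : S_Maj) : S_Dec := by
  intro G _ _ K l
  induction l with
  | nil =>
    intro _ _ ε n hn F _ hT _
    refine ⟨fun _ _ => 0, fun i hi => absurd hi List.not_mem_nil, fun a => ?_, ?_⟩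
    · have h1 : F = 0 := hT
      rw [h1]
      simp
    · have h1 := nm_nonneg' F
      simp only [List.toFinset_nil, Finset.sum_empty, mul_zero]
      positivity
  | cons r l ih =>
    intro hnd hI ε n hn F hodd hT hK
    rcases l with _ | ⟨j, l⟩
    · refine ⟨fun _ => F, fun i hi => ⟨hodd, ?_⟩, fun a => ?_, ?_⟩
      · have h1 : i = r := List.mem_singleton.1 hi
        subst h1
        have h2 : T (K i) F = 0 := hT
        exact ((hTBas G (K i) (K i) F F).2.2.2.2.2.2.2.1).1 h2
      · simp
      · have h1 := nm_nonneg' F
        simp only [List.toFinset_cons, List.toFinset_nil, insert_empty_eq, Finset.sum_singleton]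
        nlinarith
    · obtain ⟨hr, hnd'⟩ := List.nodup_cons.1 hnd
      obtain ⟨E0, hE1, hE2, hE3, hE4⟩ := hMaj G K r (j :: l) (List.cons_ne_nil _ _) hI ε n hn F hodd hT
        (fun i hi => hK r List.mem_cons_self i (List.mem_cons_of_mem _ hi)
          (fun h => hr (h ▸ hi)))
      have h0 := nm_nonneg' E0
      have hF0 := nm_nonneg' F
      have hH0 := nm_nonneg' (fun a => F a - E0 a)
      have hle : nm (fun a => F a - E0 a) ≤ nm F := by
        have h1 : (n + 2) * nm (fun a => F a - E0 a) ≤ (n + 2) * nm F := by linarith
        exact le_of_mul_le_mul_left h1 (by linarith)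
      obtain ⟨E', h1, h2, h3⟩ := ih hnd' hI.2 ε n hn (fun a => F a - E0 a)
        (fun a => by rw [hodd, hE1]; ring) hE3
        (fun i hi k hk hik => by
          have h4 := hK i (List.mem_cons_of_mem _ hi) k (List.mem_cons_of_mem _ hk) hik
          have h5 : 2 * (n + 2) * nm (fun a => F a - E0 a) ≤ 2 * (n + 2) * nm F :=
            mul_le_mul_of_nonneg_left hle (by linarith)
          exact lt_of_le_of_lt h5 h4)
      have hrF : r ∉ (j :: l).toFinset := by
        rw [List.mem_toFinset]
        exact hr
      have hne : ∀ i ∈ (j :: l), i ≠ r := fun i hi h => hr (h ▸ hi)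
      classical
      refine ⟨fun i => if i = r then E0 else E' i, fun i hi => ?_, fun a => ?_, ?_⟩
      · rcases List.mem_cons.1 hi with h | h
        · simp only [h, if_true]
          exact ⟨hE1, hE2⟩
        · simp only [if_neg (hne i h)]
          exact h1 i h
      · rw [List.toFinset_cons, Finset.sum_insert hrF]
        have h4 : ∑ i ∈ (j :: l).toFinset, (if i = r then E0 else E' i) a =
            ∑ i ∈ (j :: l).toFinset, E' i a := by
          refine Finset.sum_congr rfl fun i hi => ?_
          rw [if_neg (hne i (List.mem_toFinset.1 hi))]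
        have h5 : (fun i => if i = r then E0 else E' i) r = E0 := if_pos rfl
        rw [h4, h5, ← h2 a]
        ring
      · rw [List.toFinset_cons, Finset.sum_insert hrF]
        have h4 : ∑ i ∈ (j :: l).toFinset, nm (if i = r then E0 else E' i) =
            ∑ i ∈ (j :: l).toFinset, nm (E' i) := by
          refine Finset.sum_congr rfl fun i hi => ?_
          rw [if_neg (hne i (List.mem_toFinset.1 hi))]
        have h5 : (fun i => if i = r then E0 else E' i) r = E0 := if_pos rfl
        rw [h4, h5]
        linarith

end Pool.Agent.FO
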