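import Pool.Agent.Lib.MP_640417_ag.FC.Defs

/-!
# Theorems FO and FR: definitions (note 4086)

`f : ZMod m → ℤ` stands for the formal sum of the classes `f(x) [x / m]`.
-/

set_option autoImplicit false

noncomputable section

namespace Pool.Agent.FO

open Finset Pool.Agent.FC

/-! ## Functions on `ZMod m` -/

/-- the sawtooth function with the value `0` at `0` -/
def sz {m : ℕ} (x : ZMod m) : ℚ := if x = 0 then 0 else (x.val : ℚ) / m - 1 / 2

/-- odd functions -/
def IsOdd {m : ℕ} (f : ZMod m → ℤ) : Prop := ∀ x, f (-x) = -f x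

/-- `P(f; t) = ∑ f(x) sz(t x)` -/
def P {m : ℕ} [NeZero m] (f : ZMod m → ℤ) (t : ZMod m) : ℚ := ∑ x, (f x : ℚ) * sz (t * x)

/-- Stickelberger's relation -/
def Rl {m : ℕ} [NeZero m] (f : ZMod m → ℤ) : Prop := ∀ t : (ZMod m)ˣ, P f t = 0

/-- Stickelberger's relation for a tuple -/
def St {m : ℕ} [NeZero m] {ι : Type} [Fintype ι] (a : ι → ZMod m) : Prop :=
  ∀ t : (ZMod m)ˣ, ∑ i, sz ((t : ZMod m) * a i) = 0

/-- the formal sum `∑ f(x) [x / m]` in the free group on `ℝ/ℤ` -/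
def cl {m : ℕ} [NeZero m] (f : ZMod m → ℤ) : UnitAddCircle →₀ ℤ :=
  ∑ x, Finsupp.single (ZMod.toAddCircle x) (f x)

/-- the formal sum of a tuple -/
def clt {m : ℕ} [NeZero m] {ι : Type} [Fintype ι] (a : ι → ZMod m) : UnitAddCircle →₀ ℤ :=
  ∑ i, Finsupp.single (ZMod.toAddCircle (a i)) (1 : ℤ)

/-- the counting function of a tuple -/
def cnt {m : ℕ} {ι : Type} [Fintype ι] (a : ι → ZMod m) (x : ZMod m) : ℤ := by
  classical
  exact (({i | a i = x} : Finset ι).card : ℤ)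

/-- `G(p x) - G(x)` -/
def hD {m : ℕ} (p : ℕ) (G : ZMod m → ℤ) (x : ZMod m) : ℤ := G (p * x) - G x

/-- `f` is a sum of Hasse-Davenport relations for the primes dividing `m`, with odd coefficients -/
def InHo {m : ℕ} (f : ZMod m → ℤ) : Prop :=
  ∃ G : ℕ → ZMod m → ℤ, (∀ p ∈ m.primeFactors, IsOdd (G p) ∧ ∀ z, G p z ≠ 0 → ∃ x, z = p * x) ∧
    ∀ x, f x = ∑ p ∈ m.primeFactors, hD p (G p) x

/-- the element `(m / d) u` of order `d` -/
def el (m d : ℕ) (u : (ZMod d)ˣ) : ZMod m := ((m / d : ℕ) : ZMod m) * ((u : ZMod d).val : ZMod m)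

/-- the kernel of `(ZMod d)ˣ → (ZMod (d / p))ˣ` -/
def Kp (d p : ℕ) : Subgroup (ZMod d)ˣ := by
  classical
  exact if h : p ∣ d then (ZMod.unitsMap (Nat.div_dvd_of_dvd h)).ker else ⊥

/-- the weight `W` -/
def W (n : ℕ) : ℤ := (if 2 ∣ n then 2 else 1) * (if 3 ∣ n then 2 else 1)

/-- the potential -/
def V {m : ℕ} [NeZero m] (f : ZMod m → ℤ) : ℤ := ∑ x, |f x| * W (addOrderOf x)

/-- `max(5, least prime factor of d)` -/
def P0 (d : ℕ) : ℤ := max 5 (d.minFac : ℤ)

/-- the condition for two primes: `4 N < max(1, p - 3) (q - 1)` -/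
def Cond (m N : ℕ) : Prop :=
  ∀ p ∈ m.primeFactors, ∀ q ∈ m.primeFactors, p < q → 4 * N < max 1 (p - 3) * (q - 1)

/-- the condition of Theorem FO -/
def CondF (m N : ℕ) : Prop := if m % 4 = 2 then Cond (m / 2) (2 * N) else Cond m N

/-! ## Finite abelian groups -/

/-- the elements of a subgroup -/
def sK {G : Type} [Group G] [Fintype G] (K : Subgroup G) : Finset G := by
  classical
  exact {k | k ∈ K}

/-- `T_K F (a) = |K| F(a) - ∑_{k ∈ K} F(k a)` -/
def T {G : Type} [Group G] [Fintype G] (K : Subgroup G) (F : G → ℤ) (a : G) : ℤ :=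
  (sK K).card * F a - ∑ k ∈ sK K, F (k * a)

/-- the product of the operators `T_{K i}`, `i ∈ l` -/
def Tl {G : Type} [Group G] [Fintype G] (K : ℕ → Subgroup G) : List ℕ → (G → ℤ) → G → ℤ
  | [], F => F
  | i :: l, F => Tl K l (T (K i) F)

/-- the product of the subgroups `K i`, `i ∈ l` -/
def KS {G : Type} [Group G] (K : ℕ → Subgroup G) : List ℕ → Subgroup G
  | [] => ⊥
  | i :: l => K i ⊔ KS K l

/-- the subgroups `K i`, `i ∈ l`, are independent -/
def Ind {G : Type} [Group G] (K : ℕ → Subgroup G) : List ℕ → Prop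
  | [] => True
  | i :: l => Disjoint (K i) (KS K l) ∧ Ind K l

/-- the norm -/
def nm {G : Type} [Fintype G] (F : G → ℤ) : ℤ := ∑ a, |F a|

end Pool.Agent.FO
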