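import Pool.Agent.Lib.MP_640417_ag.FO.SpecL

/-!
# Theorem FO, part L, module Dist: distribution relation of the sawtooth function
-/

set_option autoImplicit false

noncomputable section

namespace Pool.Agent.FO

open Finset Pool.Agent.FC

namespace DistAux

/-- the value of `sz` at a natural number below `m` -/
lemma sz_nat {m : ℕ} [NeZero m] (a : ℕ) (ha : a < m) :
    sz ((a : ℕ) : ZMod m) = (a : ℚ) / m - 1 / 2 + (if a = 0 then 1 / 2 else 0) := by
  unfold sz
  by_cases h : a = 0
  · rw [if_pos (by rw [h]; simp), if_pos h, h]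
    simp
  · have h1 : ((a : ℕ) : ZMod m) ≠ 0 := by
      intro h2
      rw [ZMod.natCast_eq_zero_iff] at h2
      exact h (Nat.eq_zero_of_dvd_of_lt h2 ha)
    rw [if_neg h1, if_neg h, ZMod.val_natCast_of_lt ha, add_zero]

lemma sum_id (p : ℕ) : ∑ j ∈ range p, (j : ℚ) = (p : ℚ) * ((p : ℚ) - 1) / 2 := by
  induction p with
  | zero => simp
  | succ p ih =>
    rw [Finset.sum_range_succ, ih]
    push_cast
    ring

/-- the distribution relation -/
lemma main1 (m p : ℕ) [NeZero m] (hp : p ∣ m) (y : ZMod m) :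
    ∑ x ∈ univ.filter (fun x : ZMod m => (p : ZMod m) * x = p * y), sz x =
      sz ((p : ZMod m) * y) := by
  obtain ⟨M, hM⟩ := hp
  have hm0 : m ≠ 0 := NeZero.ne m
  have hp0 : 0 < p := by
    rcases Nat.eq_zero_or_pos p with h | h
    · rw [h, zero_mul] at hM
      exact absurd hM hm0
    · exact h
  have hM0 : 0 < M := by
    rcases Nat.eq_zero_or_pos M with h | h
    · rw [h, mul_zero] at hM
      exact absurd hM hm0
    · exact h
  set v := y.val % M with hv
  have hvM : v < M := Nat.mod_lt _ hM0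
  have hlt : ∀ j, j < p → v + j * M < m := by
    intro j hj
    have h1 : (j + 1) * M ≤ p * M := Nat.mul_le_mul_right M hj
    rw [hM]
    nlinarith
  have hy : y = ((y.val : ℕ) : ZMod m) := (ZMod.natCast_zmod_val y).symm
  have hmul : ∀ a b : ℕ, ((p : ZMod m) * (a : ℕ) = (p : ZMod m) * (b : ℕ)) ↔
      a % M = b % M := by
    intro a b
    have h1 : ((p : ZMod m) * (a : ℕ) = (p : ZMod m) * (b : ℕ)) ↔
        ((p * a : ℕ) : ZMod m) = ((p * b : ℕ) : ZMod m) := by push_cast; rfl
    rw [h1, ZMod.natCast_eq_natCast_iff]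
    have h2 : p * a ≡ p * b [MOD m] ↔ a ≡ b [MOD M] := by
      rw [hM]
      exact Nat.ModEq.mul_left_cancel_iff' hp0.ne'
    rw [h2]
    rfl
  have hpy : (p : ZMod m) * y = ((p * v : ℕ) : ZMod m) := by
    rw [hy]
    push_cast
    rw [hmul, hv, Nat.mod_mod]
  have hbij : ∑ x ∈ univ.filter (fun x : ZMod m => (p : ZMod m) * x = p * y), sz x =
      ∑ j ∈ range p, sz (((v + j * M : ℕ) : ℕ) : ZMod m) := by
    refine Finset.sum_nbij' (fun x => x.val / M) (fun j => ((v + j * M : ℕ) : ZMod m))
      ?_ ?_ ?_ ?_ ?_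
    · intro x _
      rw [mem_range]
      apply Nat.div_lt_of_lt_mul
      have h1 := x.val_lt
      have h2 : M * p = m := by rw [hM, mul_comm]
      omega
    · intro j _
      rw [mem_filter]
      refine ⟨mem_univ _, ?_⟩
      rw [hy, hmul, Nat.add_mul_mod_self_right, hv, Nat.mod_mod]
    · intro x hx
      rw [mem_filter] at hx
      have h1 : x.val % M = v := by
        have h2 := hx.2
        rw [hy] at h2
        have h3 : x = ((x.val : ℕ) : ZMod m) := (ZMod.natCast_zmod_val x).symm
        rw [h3, hmul] at h2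
        exact h2
      have h4 : v + x.val / M * M = x.val := by
        rw [← h1, mul_comm]
        exact Nat.mod_add_div _ _
      show ((v + x.val / M * M : ℕ) : ZMod m) = x
      rw [h4]
      exact ZMod.natCast_zmod_val x
    · intro j hj
      rw [mem_range] at hj
      show (((v + j * M : ℕ) : ZMod m)).val / M = j
      rw [ZMod.val_natCast_of_lt (hlt j hj), Nat.add_mul_div_right _ _ hM0,
        Nat.div_eq_of_lt hvM, zero_add]
    · intro x hx
      rw [mem_filter] at hx
      have h1 : x.val % M = v := by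
        have h2 := hx.2
        rw [hy] at h2
        have h3 : x = ((x.val : ℕ) : ZMod m) := (ZMod.natCast_zmod_val x).symm
        rw [h3, hmul] at h2
        exact h2
      have h4 : v + x.val / M * M = x.val := by
        rw [← h1, mul_comm]
        exact Nat.mod_add_div _ _
      rw [h4, ZMod.natCast_zmod_val]
  have hmQ : (m : ℚ) ≠ 0 := by exact_mod_cast hm0
  have hMQ : (M : ℚ) ≠ 0 := by exact_mod_cast hM0.ne'
  have hpQ : (p : ℚ) ≠ 0 := by exact_mod_cast hp0.ne'
  have hmpM : (m : ℚ) = p * M := by exact_mod_cast hM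
  rw [hbij, hpy, sz_nat (p * v) (by rw [hM]; exact Nat.mul_lt_mul_of_pos_left hvM hp0)]
  have h1 : ∀ j ∈ range p, sz (((v + j * M : ℕ) : ℕ) : ZMod m) =
      ((v : ℚ) / m - 1 / 2) + (j : ℚ) * ((M : ℚ) / m) +
        (if j = 0 then (if v = 0 then 1 / 2 else 0) else 0) := by
    intro j hj
    rw [mem_range] at hj
    rw [sz_nat _ (hlt j hj)]
    have h2 : (if v + j * M = 0 then (1 / 2 : ℚ) else 0) =
        if j = 0 then (if v = 0 then 1 / 2 else 0) else 0 := by
      by_cases hj0 : j = 0
      · rw [if_pos hj0, hj0, zero_mul, add_zero]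
      · have : v + j * M ≠ 0 := by
          have : 0 < j * M := Nat.mul_pos (Nat.pos_of_ne_zero hj0) hM0
          omega
        rw [if_neg this, if_neg hj0]
    rw [h2]
    push_cast
    ring
  rw [Finset.sum_congr rfl h1, Finset.sum_add_distrib, Finset.sum_add_distrib,
    Finset.sum_const, card_range, nsmul_eq_mul, ← Finset.sum_mul, sum_id,
    Finset.sum_ite_eq', if_pos (mem_range.2 hp0)]
  have h3 : (if p * v = 0 then (1 / 2 : ℚ) else 0) = if v = 0 then 1 / 2 else 0 := by
    by_cases hv0 : v = 0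
    · rw [if_pos hv0, hv0, mul_zero, if_pos rfl]
    · rw [if_neg hv0, if_neg (Nat.mul_ne_zero hp0.ne' hv0)]
  rw [h3, hmpM]
  push_cast
  field_simp
  ring

end DistAux

open DistAux

theorem pDist (_hSzBas : S_SzBas) : S_Dist := by
  intro m p _ hp
  refine ⟨main1 m p hp, ?_⟩
  intro t htp y
  rw [← main1 m p hp ((t : ZMod m) * y)]
  obtain ⟨a, b, hab⟩ : IsCoprime (t : ℤ) (p : ℤ) := Nat.isCoprime_iff_coprime.2 htp
  have hab' : (a : ZMod m) * (t : ZMod m) + (b : ZMod m) * (p : ZMod m) = 1 := by
    have := congrArg (fun z : ℤ => (z : ZMod m)) hab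
    push_cast at this
    exact this
  refine Finset.sum_nbij' (fun x => (t : ZMod m) * x)
    (fun x' => y + (a : ZMod m) * (x' - (t : ZMod m) * y)) ?_ ?_ ?_ ?_ ?_
  · intro x hx
    rw [mem_filter] at hx ⊢
    refine ⟨mem_univ _, ?_⟩
    linear_combination (t : ZMod m) * hx.2
  · intro x' hx'
    rw [mem_filter] at hx' ⊢
    refine ⟨mem_univ _, ?_⟩
    linear_combination (a : ZMod m) * hx'.2
  · intro x hx
    rw [mem_filter] at hx
    linear_combination (x - y) * hab' - (b : ZMod m) * hx.2
  · intro x' hx'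
    rw [mem_filter] at hx'
    linear_combination (x' - (t : ZMod m) * y) * hab' - (b : ZMod m) * hx'.2
  · intro x _
    rfl

end Pool.Agent.FO
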