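import Pool.Agent.Lib.MP_640417_ag.FO.SpecL

/-!
# Theorem FO, part L: the elements of order `d`
-/

set_option autoImplicit false

noncomputable section

namespace Pool.Agent.FO

open Finset Pool.Agent.FC

namespace ElAux

/-- `M k` modulo `m = d M` depends only on `k` modulo `d`. -/
private theorem key {m d : ℕ} (hd : d ∣ m) {k k' : ℕ} (h : (k : ZMod d) = (k' : ZMod d)) :
    ((m / d : ℕ) : ZMod m) * (k : ZMod m) = ((m / d : ℕ) : ZMod m) * (k' : ZMod m) := by
  rw [← Nat.cast_mul, ← Nat.cast_mul, ZMod.natCast_eq_natCast_iff]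
  have h1 := (ZMod.natCast_eq_natCast_iff _ _ _).mp h
  have h2 := Nat.ModEq.mul_left' (m / d) h1
  rwa [Nat.div_mul_cancel hd] at h2

private theorem val_lt {m d : ℕ} [NeZero m] [NeZero d] (hd : d ∣ m) (u : ZMod d) :
    m / d * u.val < m := by
  have hm : 0 < m := Nat.pos_of_ne_zero (NeZero.ne m)
  have hd0 : 0 < d := Nat.pos_of_ne_zero (NeZero.ne d)
  have hM : 0 < m / d := Nat.div_pos (Nat.le_of_dvd hm hd) hd0
  calc m / d * u.val < m / d * d := Nat.mul_lt_mul_of_pos_left (ZMod.val_lt u) hM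
    _ = m := Nat.div_mul_cancel hd

private theorem el_val {m d : ℕ} [NeZero m] [NeZero d] (hd : d ∣ m) (u : (ZMod d)ˣ) :
    (el m d u).val = m / d * (u : ZMod d).val := by
  unfold el
  rw [← Nat.cast_mul]
  exact ZMod.val_natCast_of_lt (val_lt hd _)

end ElAux

open ElAux in
theorem pEl : S_El := by
  intro m d _ _ hd
  have hm : 0 < m := Nat.pos_of_ne_zero (NeZero.ne m)
  have hd0 : 0 < d := Nat.pos_of_ne_zero (NeZero.ne d)
  have hM : 0 < m / d := Nat.div_pos (Nat.le_of_dvd hm hd) hd0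
  have hmd : m / d * d = m := Nat.div_mul_cancel hd
  refine ⟨fun u => ?_, fun u v h => ?_, fun x hx => ?_, fun t u => ?_, fun u => ?_, fun u => ?_⟩
  · have h1 : el m d u = ((m / d * (u : ZMod d).val : ℕ) : ZMod m) := by
      unfold el; rw [Nat.cast_mul]
    rw [h1, ZMod.addOrderOf_coe _ hm.ne']
    have h2 : m.gcd (m / d * (u : ZMod d).val) = m / d := by
      conv_lhs => rw [← hmd]
      rw [Nat.mul_div_cancel _ hd0, Nat.gcd_mul_left,
        Nat.Coprime.gcd_eq_one (ZMod.val_coe_unit_coprime u).symm, mul_one]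
    rw [h2]
    exact Nat.div_div_self hd hm.ne'
  · have h1 := congrArg ZMod.val h
    rw [el_val hd, el_val hd] at h1
    exact Units.ext (ZMod.val_injective d (Nat.eq_of_mul_eq_mul_left hM h1))
  · have h1 : ((x.val : ℕ) : ZMod m) = x := ZMod.natCast_zmod_val x
    rw [← h1, ZMod.addOrderOf_coe _ hm.ne'] at hx
    set g := m.gcd x.val with hg
    have hgm : g ∣ m := Nat.gcd_dvd_left _ _
    have hg' : g = m / d := by
      rw [← hx, Nat.div_div_self hgm hm.ne']
    obtain ⟨v, hv⟩ : g ∣ x.val := Nat.gcd_dvd_right _ _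
    have hg0 : 0 < g := by rw [hg']; exact hM
    have hcop : d.Coprime v := by
      have h2 : g = g * d.gcd v := by
        conv_lhs => rw [hg, hv]
        conv_lhs => rw [← hmd, ← hg']
        rw [Nat.gcd_mul_left]
      have h3 : g * 1 = g * d.gcd v := by rw [mul_one]; exact h2
      exact (Nat.eq_of_mul_eq_mul_left hg0 h3).symm
    refine ⟨ZMod.unitOfCoprime v hcop.symm, ?_⟩
    have hvd : v < d := by
      have h2 : m / d * v < m / d * d := by
        rw [hmd, ← hg', ← hv]
        exact ZMod.val_lt x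
      exact lt_of_mul_lt_mul_left h2 (Nat.zero_le _)
    unfold el
    rw [ZMod.coe_unitOfCoprime, ZMod.val_natCast_of_lt hvd, ← Nat.cast_mul, ← hg', ← hv, h1]
  · have ht : (((t : ZMod m).val : ℕ) : ZMod m) = t := ZMod.natCast_zmod_val _
    have h1 : (t : ZMod m) * el m d u =
        ((m / d : ℕ) : ZMod m) * (((t : ZMod m).val * (u : ZMod d).val : ℕ) : ZMod m) := by
      unfold el
      rw [Nat.cast_mul, ht]
      ring
    rw [h1]
    unfold el
    apply key hd
    rw [Nat.cast_mul, ZMod.natCast_zmod_val, ZMod.natCast_zmod_val, Units.val_mul, ZMod.unitsMap_val,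
      ZMod.cast_eq_val]
  · rw [eq_neg_iff_add_eq_zero]
    have h1 : el m d (-u) + el m d u =
        ((m / d : ℕ) : ZMod m) * ((((-u : (ZMod d)ˣ) : ZMod d).val + (u : ZMod d).val : ℕ) : ZMod m) := by
      unfold el
      rw [Nat.cast_add, mul_add]
    rw [h1, key hd (k' := 0), Nat.cast_zero, mul_zero]
    rw [Nat.cast_add, ZMod.natCast_zmod_val, ZMod.natCast_zmod_val, Units.val_neg, neg_add_cancel,
      Nat.cast_zero]
  · have h0 : el m d u = 0 ↔ (u : ZMod d) = 0 := by
      rw [← ZMod.val_eq_zero, el_val hd, ← ZMod.val_eq_zero, Nat.mul_eq_zero]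
      constructor
      · rintro (h | h)
        · exact absurd h hM.ne'
        · exact h
      · exact fun h => Or.inr h
    unfold sz
    by_cases hu : (u : ZMod d) = 0
    · rw [if_pos hu, if_pos (h0.mpr hu)]
    · rw [if_neg hu, if_neg (fun h => hu (h0.mp h)), el_val hd]
      congr 1
      have hMq : ((m / d : ℕ) : ℚ) ≠ 0 := by exact_mod_cast hM.ne'
      have e : (m : ℚ) = ((m / d : ℕ) : ℚ) * d := by
        rw [← Nat.cast_mul, hmd]
      rw [e, Nat.cast_mul]
      exact mul_div_mul_left _ _ hMq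

end Pool.Agent.FO
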