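import Pool.Agent.Lib.MP_640417_ag.FO.SpecL

/-!
# Theorem FO, module ElP: multiplication of the elements of order `d` by `p`
-/

set_option autoImplicit false

noncomputable section

namespace Pool.Agent.FO

open Finset Pool.Agent.FC

namespace ElPAux

/-- Congruence of values. -/
theorem castHom_iff {d e : ℕ} [NeZero d] (h : e ∣ d) (u v : (ZMod d)ˣ) :
    ZMod.unitsMap h u = ZMod.unitsMap h v ↔
      (e : ℤ) ∣ ((u : ZMod d).val : ℤ) - ((v : ZMod d).val : ℤ) := by
  rw [Units.ext_iff, ZMod.unitsMap_val, ZMod.unitsMap_val, ZMod.cast_eq_val, ZMod.cast_eq_val]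
  have h1 : (((u : ZMod d).val : ℕ) : ZMod e) = (((u : ZMod d).val : ℤ) : ZMod e) := by push_cast; rfl
  have h2 : (((v : ZMod d).val : ℕ) : ZMod e) = (((v : ZMod d).val : ℤ) : ZMod e) := by push_cast; rfl
  rw [h1, h2, eq_comm, ZMod.intCast_eq_intCast_iff_dvd_sub]

theorem mul_eq_iff {M e a b m : ℕ} (hM : 0 < M) (hm : m = M * e) :
    ((M : ℕ) : ZMod m) * ((a : ℕ) : ZMod m) = (M : ZMod m) * (b : ZMod m) ↔
      (e : ℤ) ∣ (a : ℤ) - (b : ℤ) := by
  have h1 : ((M : ℕ) : ZMod m) * ((a : ℕ) : ZMod m) = ((M * a : ℤ) : ZMod m) := by push_cast; rfl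
  have h2 : ((M : ℕ) : ZMod m) * ((b : ℕ) : ZMod m) = ((M * b : ℤ) : ZMod m) := by push_cast; rfl
  rw [h1, h2, eq_comm, ZMod.intCast_eq_intCast_iff_dvd_sub, hm, ← mul_sub]
  push_cast
  exact mul_dvd_mul_iff_left (by exact_mod_cast hM.ne')

end ElPAux

open ElPAux

theorem pElP (hEl : S_El) : S_ElP := by
  intro m d p _ _ hd hp hpd
  obtain ⟨h1, -, h3, -, -, -⟩ := hEl m d hd
  have hd0 : 0 < d := Nat.pos_of_ne_zero (NeZero.ne d)
  have hm0 : 0 < m := Nat.pos_of_ne_zero (NeZero.ne m)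
  obtain ⟨e, he⟩ := hpd
  have he0 : 0 < e := Nat.pos_of_ne_zero (by rintro rfl; omega)
  obtain ⟨M, hM⟩ := hd
  have hM0 : 0 < M := Nat.pos_of_ne_zero (by rintro rfl; simp at hM; omega)
  have hdp : d / p = e := by
    rw [he]
    exact Nat.mul_div_cancel_left e hp.pos
  have hmd : m / d = M := by
    rw [hM]
    exact Nat.mul_div_cancel_left M hd0
  have hme : m / e = p * M := by
    rw [hM, he, show p * e * M = p * M * e by ring]
    exact Nat.mul_div_cancel _ he0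
  have hmm : m = (p * M) * e := by
    rw [hM, he]
    ring
  have hpM : 0 < p * M := Nat.mul_pos hp.pos hM0
  have hel : ∀ u : (ZMod d)ˣ, (p : ZMod m) * el m d u =
      ((p * M : ℕ) : ZMod m) * (((u : ZMod d).val : ℕ) : ZMod m) := by
    intro u
    unfold el
    rw [hmd]
    push_cast
    ring
  have hed : e ∣ d := ⟨p, by rw [he]; ring⟩
  rw [hdp]
  refine ⟨?_, ?_, ?_, ?_, ?_⟩
  · intro u
    have := addOrderOf_nsmul_of_dvd (x := el m d u) hp.ne_zero (by rw [h1 u]; exact ⟨e, he⟩)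
    rw [h1 u, hdp, nsmul_eq_mul] at this
    exact this
  · intro u v
    rw [hel, hel, mul_eq_iff hpM hmm, ← castHom_iff hed u v]
    have hK : ∀ k : (ZMod d)ˣ, k ∈ Kp d p ↔ ZMod.unitsMap hed k = 1 := by
      intro k
      subst hdp
      unfold Kp
      rw [dif_pos ⟨d / p, he⟩, MonoidHom.mem_ker]
    constructor
    · intro h
      refine ⟨v * u⁻¹, (hK _).2 ?_, by group⟩
      rw [map_mul, map_inv, h, mul_inv_cancel]
    · rintro ⟨k, hk, rfl⟩
      rw [map_mul, (hK k).1 hk, one_mul]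
  · intro z hz
    have : NeZero e := ⟨he0.ne'⟩
    obtain ⟨-, -, h3', -, -, -⟩ := hEl m e ⟨p * M, by rw [hmm]; ring⟩
    obtain ⟨u', hu'⟩ := h3' z hz
    obtain ⟨u, hu⟩ := ZMod.unitsMap_surjective hed u'
    refine ⟨u, ?_⟩
    rw [← hu', hel]
    unfold el
    rw [hme, mul_eq_iff hpM hmm]
    have h4 : (((u' : ZMod e).val : ℕ) : ZMod e) = (((u : ZMod d).val : ℕ) : ZMod e) := by
      rw [ZMod.natCast_val, ZMod.cast_id, ← hu, ZMod.unitsMap_val, ZMod.cast_eq_val]
    have h5 := (ZMod.natCast_eq_natCast_iff _ _ _).1 h4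
    exact (Nat.modEq_iff_dvd.1 h5.symm)
  · intro x hx
    by_cases hpx : p ∣ addOrderOf x
    · left
      have := addOrderOf_nsmul_of_dvd (x := x) hp.ne_zero hpx
      rw [nsmul_eq_mul, hx] at this
      obtain ⟨t, ht⟩ := hpx
      rw [ht, Nat.mul_div_cancel_left t hp.pos] at this
      rw [ht, ← this, he]
    · right
      have hc : (addOrderOf x).Coprime p := ((Nat.Prime.coprime_iff_not_dvd hp).2 hpx).symm
      have := hc.addOrderOf_nsmul
      rw [nsmul_eq_mul, hx] at this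
      rw [← this] at hpx
      exact ⟨this.symm, hpx⟩
  · intro hpe x y hx hy hxy
    have h6 : p • (x - y) = 0 := by
      rw [nsmul_eq_mul, mul_sub, hxy, sub_self]
    have h7 : e • (x - y) = 0 := by
      rw [smul_sub, ← hx, addOrderOf_nsmul_eq_zero, hx, ← hy, addOrderOf_nsmul_eq_zero, sub_zero]
    have h8 := addOrderOf_dvd_of_nsmul_eq_zero h6
    have h9 := addOrderOf_dvd_of_nsmul_eq_zero h7
    have h10 : addOrderOf (x - y) = 1 :=
      Nat.eq_one_of_dvd_coprimes ((Nat.Prime.coprime_iff_not_dvd hp).2 hpe) h8 h9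
    exact sub_eq_zero.1 (AddMonoid.addOrderOf_eq_one_iff.1 h10)

end Pool.Agent.FO
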