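import Pool.Agent.Lib.MP_640417_ag.FO.SpecH

/-!
# Theorem FG: assembly (author helper21)
-/

set_option autoImplicit false

noncomputable section

namespace Pool.Agent.FO

open Finset Pool.Agent.FC

private theorem FG_wb (n : ℕ) : 0 ≤ wb n ∧ wb n ≤ 1 := by
  unfold wb
  split_ifs <;> norm_num

private theorem FG_w1 (n : ℕ) : 0 ≤ w1 n ∧ (¬ 3 ∣ n → w1 n ≤ 2) := by
  unfold w1
  split_ifs with h1 h2
  · norm_num
  · refine ⟨by norm_num, fun h3 => absurd ?_ h3⟩
    exact (by norm_num : 3 ∣ 15).trans h2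
  · norm_num

/-- **THEOREM FG.** -/
theorem pFG (hVVBas : S_VVBas) (hInG : S_InG) (hPh1 : S_Ph1) (hPh2 : S_Ph2) : S_FG := by
  intro m N _ ι _ a hcard ha hSt hOdd
  obtain ⟨hodd, hP, habs, -, hcl, hc0⟩ := hTup m ι a
  set f : ZMod m → ℤ := fun x => cnt a x - cnt a (-x) with hf
  have hRl : Rl f := by
    intro t
    rw [hP, hSt t, mul_zero]
  obtain ⟨h2m, hN⟩ := hOdd
  have hcard' : ((Fintype.card ι : ℕ) : ℤ) ≤ (N : ℤ) := by exact_mod_cast hcard
  have hIn : InG f := by
    rcases hN with hN | ⟨h3m, hN⟩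
    · -- phase 1, phase 2
      have hN' : (N : ℤ) ≤ 6 := by exact_mod_cast hN
      have h1 := (hVVBas m wb wb f f (fun n => (FG_wb n).1) (fun n => (FG_wb n).1)).2.2.1 1
        (fun x _ => (FG_wb _).2)
      have h2 : Inv f := Or.inl (by linarith)
      obtain ⟨h, hh1, hh2, hh3, hh4, hh5⟩ := hPh1 m h2m f hodd hRl h2
      have h6 : IsOdd (fun x => f x - h x) := by
        intro x
        have e1 := hodd x
        have e2 := hh2 x
        change f (-x) - h (-x) = -(f x - h x)
        rw [e1, e2]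
        ring
      have h7 : Rl (fun x => f x - h x) := by
        intro t
        have e1 := hRl t
        have e2 := hh3 t
        unfold P at e1 e2 ⊢
        have e3 : ∑ x, (((f x - h x : ℤ)) : ℚ) * sz ((t : ZMod m) * x) =
            ∑ x, (f x : ℚ) * sz ((t : ZMod m) * x) - ∑ x, (h x : ℚ) * sz ((t : ZMod m) * x) := by
          rw [← Finset.sum_sub_distrib]
          refine Finset.sum_congr rfl fun x _ => ?_
          push_cast
          ring
        rw [e3, e1, e2, sub_zero]
      have h8 := hPh2 m h2m _ h6 h7 hh4 hh5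
      have h9 := (hInG m (fun x => f x - h x) h).2.1 h8 hh1
      have h10 : (fun x => f x - h x + h x) = f := by
        funext x
        ring
      rwa [h10] at h9
    · have hN' : (N : ℤ) ≤ 9 := by exact_mod_cast hN
      have h3 : ∀ x : ZMod m, ¬ 3 ∣ addOrderOf x := by
        intro x h
        apply h3m
        have h4 : addOrderOf x ∣ m := by
          rw [addOrderOf_dvd_iff_nsmul_eq_zero, nsmul_eq_mul, ZMod.natCast_self, zero_mul]
        exact h.trans h4
      have h1 := (hVVBas m w1 w1 f f (fun n => (FG_w1 n).1) (fun n => (FG_w1 n).1)).2.2.1 2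
        (fun x _ => (FG_w1 _).2 (h3 x))
      exact hPh2 m h2m f hodd hRl (fun x _ => h3 x) (by linarith)
  rw [hcl]
  exact (hInG m f (cnt a)).2.2.2 (hc0 ha) hIn

end Pool.Agent.FO
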