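import Pool.Agent.Lib.MP_640417_ag.FO.SpecL

/-!
# Theorem FO: assembly
-/

set_option autoImplicit false

noncomputable section

namespace Pool.Agent.FO

open Finset Pool.Agent.FC

private theorem W_nonneg (n : ℕ) : 0 ≤ W n := by
  unfold W
  positivity

private theorem W_half (m : ℕ) (hm : m % 4 = 2) : W m = 2 * W (m / 2) := by
  unfold W
  have h1 : 2 ∣ m := by omega
  have h2 : ¬ 2 ∣ m / 2 := by omega
  have h3 : 3 ∣ m ↔ 3 ∣ m / 2 := by omega
  rw [if_pos h1, if_neg h2]
  by_cases h : 3 ∣ m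
  · rw [if_pos h, if_pos (h3.1 h)]
    norm_num
  · rw [if_neg h, if_neg (fun h4 => h (h3.2 h4))]
    norm_num

/-- **THEOREM FO.** -/
theorem pFO (hIte : S_Ite) (hTra : S_Tra) (hTup : S_Tup) : S_FO := by
  intro m N _ ι _ a hcard ha hSt hC
  obtain ⟨hodd, hP, -, hV, hcl, hc0⟩ := hTup m ι a
  have hRl : Rl (fun x => cnt a x - cnt a (-x)) := by
    intro t
    rw [hP, hSt t, mul_zero]
  have hV' : V (fun x => cnt a x - cnt a (-x)) ≤ 2 * (N : ℤ) * W m := by
    refine hV.trans ?_
    have h1 : ((Fintype.card ι : ℕ) : ℤ) ≤ (N : ℤ) := by exact_mod_cast hcard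
    exact mul_le_mul_of_nonneg_right (by linarith) (W_nonneg m)
  have hm0 : 0 < m := Nat.pos_of_ne_zero (NeZero.ne m)
  have hIn : InHo (fun x => cnt a x - cnt a (-x)) := by
    unfold CondF at hC
    by_cases hm : m % 4 = 2
    · rw [if_pos hm] at hC
      refine hIte m (m / 2) (2 * N) (by omega) hC ?_ _ hodd hRl ?_
      · intro d hd hd2
        have h2 : m = 2 * (m / 2) := by omega
        rcases hd2 with h3 | h3
        · rw [h2] at hd
          exact Nat.Coprime.dvd_of_dvd_mul_left (Nat.coprime_two_right.2 h3) hd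
        · exact absurd (h3.trans hd) (by omega)
      · rw [W_half m hm] at hV'
        push_cast
        linarith
    · rw [if_neg hm] at hC
      exact hIte m m N hm0 hC (fun d hd _ => hd) _ hodd hRl hV'
  rw [hcl]
  exact hTra m (cnt a) (hc0 ha) hIn

end Pool.Agent.FO
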