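import Pool.Agent.Lib.MP_640417_ag.FO.SpecH

/-!
# Theorem FO, sharp form: induction over the levels and assembly
-/

set_option autoImplicit false

noncomputable section

namespace Pool.Agent.FO

open Finset Pool.Agent.FC

namespace FOSAux

theorem main (hStepA : S_StepAG) (hStepB : S_StepBG) (m m' N' : ℕ) [NeZero m]
    (hm' : 0 < m') (hC : CondS m' N') (hd : ∀ d, d ∣ m → (¬ 2 ∣ d ∨ 4 ∣ d) → d ∣ m') (D : ℕ) :
    ∀ f : ZMod m → ℤ, IsOdd f → Rl f → (∀ x, f x ≠ 0 → addOrderOf x ≤ D) →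
      VV W2 f ≤ 2 * N' * W2 m' → InHo f := by
  induction D with
  | zero =>
    intro f _ _ hD _
    have h0 : f = fun _ => 0 := by
      funext x
      by_contra hx
      have h1 := hD x hx
      have h2 : 0 < addOrderOf x := addOrderOf_pos x
      omega
    rw [h0]
    exact (hHoBas m f f).2.2
  | succ D ih =>
    intro f hf hR hD hV
    by_cases hex : ∃ x, f x ≠ 0 ∧ addOrderOf x = D + 1
    · obtain ⟨x0, -, hx0⟩ := hex
      have hdm : D + 1 ∣ m := by
        rw [← hx0]
        have h1 := addOrderOf_dvd_card (x := x0)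
        rwa [ZMod.card] at h1
      have key : ∃ h : ZMod m → ℤ, InHo h ∧ (∀ x, f x - h x ≠ 0 → addOrderOf x < D + 1) ∧
          VV W2 (fun x => f x - h x) ≤ VV W2 f := by
        by_cases hpar : ¬ 2 ∣ (D + 1) ∨ 4 ∣ D + 1
        · exact hStepA m (D + 1) m' N' hdm hpar hm' (hd _ hdm hpar) hC f hf hR hD hV
        · refine hStepB m (D + 1) hdm ?_ f hf hD
          omega
      obtain ⟨h, hh, hlt, hVh⟩ := key
      obtain ⟨ho, hr⟩ := (hHoBas m h h).1 hh
      have h1 : InHo (fun x => f x - h x) :=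
        ih _ (IteAux.odd_sub hf ho) (IteAux.rl_sub hR hr)
          (fun x hx => Nat.lt_succ_iff.1 (hlt x hx)) (hVh.trans hV)
      have h2 := (hHoBas m (fun x => f x - h x) h).2.1 h1 hh
      have h3 : (fun x => f x - h x + h x) = f := by
        funext x
        ring
      rwa [h3] at h2
    · push Not at hex
      refine ih f hf hR (fun x hx => ?_) hV
      have h1 := hD x hx
      have h2 := hex x hx
      omega

theorem W2_nonneg (n : ℕ) : 0 ≤ W2 n := by
  unfold W2
  split_ifs <;> norm_num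

theorem W2_mono {n m : ℕ} (h : n ∣ m) : W2 n ≤ W2 m := by
  unfold W2
  by_cases h1 : 2 ∣ n
  · rw [if_pos h1, if_pos (h1.trans h)]
  · rw [if_neg h1]
    split_ifs <;> norm_num

theorem W2_half (m : ℕ) (hm : m % 4 = 2) : W2 m = 2 * W2 (m / 2) := by
  unfold W2
  have h1 : 2 ∣ m := by omega
  have h2 : ¬ 2 ∣ m / 2 := by omega
  rw [if_pos h1, if_neg h2]
  norm_num

end FOSAux

/-- **THEOREM FO, sharp form.** -/
theorem pFOS (hVVBas : S_VVBas) (hStepAG : S_StepAG) (hStepBG : S_StepBG) : S_FOS := by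
  intro m N _ ι _ a hcard ha hSt hC
  obtain ⟨hodd, hP, hS, -, hcl, hc0⟩ := hTup m ι a
  have hRl : Rl (fun x => cnt a x - cnt a (-x)) := by
    intro t
    rw [hP, hSt t, mul_zero]
  have hord : ∀ x : ZMod m, addOrderOf x ∣ m := by
    intro x
    have h1 := addOrderOf_dvd_card (x := x)
    rwa [ZMod.card] at h1
  have hm0 : 0 < m := Nat.pos_of_ne_zero (NeZero.ne m)
  have hV' : VV W2 (fun x => cnt a x - cnt a (-x)) ≤ 2 * (N : ℤ) * W2 m := by
    have h0 := (hVVBas m W2 W2 (fun x => cnt a x - cnt a (-x)) (fun _ => 0) FOSAux.W2_nonneg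
      FOSAux.W2_nonneg).2.2.1 (W2 m) (fun x _ => FOSAux.W2_mono (hord x))
    refine h0.trans ?_
    have h1 : ((Fintype.card ι : ℕ) : ℤ) ≤ (N : ℤ) := by exact_mod_cast hcard
    have h2 : ∑ x, |cnt a x - cnt a (-x)| ≤ 2 * (N : ℤ) := hS.trans (by linarith)
    have h3 := mul_le_mul_of_nonneg_left h2 (FOSAux.W2_nonneg m)
    linarith
  have hle : ∀ x : ZMod m, (fun x => cnt a x - cnt a (-x)) x ≠ 0 → addOrderOf x ≤ m :=
    fun x _ => Nat.le_of_dvd hm0 (hord x)
  have hIn : InHo (fun x => cnt a x - cnt a (-x)) := by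
    unfold CondSF at hC
    by_cases hm : m % 4 = 2
    · rw [if_pos hm] at hC
      refine FOSAux.main hStepAG hStepBG m (m / 2) (2 * N) (by omega) hC ?_ m _ hodd hRl hle ?_
      · intro d hd hd2
        have h2 : m = 2 * (m / 2) := by omega
        rcases hd2 with h3 | h3
        · rw [h2] at hd
          refine Nat.Coprime.dvd_of_dvd_mul_left ?_ hd
          exact (Nat.Prime.coprime_iff_not_dvd Nat.prime_two).2 h3 |>.symm
        · exact absurd (h3.trans hd) (by omega)
      · rw [FOSAux.W2_half m hm] at hV'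
        push_cast
        linarith
    · rw [if_neg hm] at hC
      exact FOSAux.main hStepAG hStepBG m m N hm0 hC (fun d hd _ => hd) m _ hodd hRl hle hV'
  rw [hcl]
  exact hTra m (cnt a) (hc0 ha) hIn

end Pool.Agent.FO
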