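import Pool.Agent.Lib.MP_640417_ag.FO.SpecR

/-!
# FO/FR: THEOREM FR, the induction
-/

set_option autoImplicit false

noncomputable section

open Finset Pool.Agent.FC

namespace Pool.Agent.FO

private lemma fr_aux (hFR1 : S_FR1) (s N : ℕ) [NeZero s] : ∀ (k m : ℕ) [NeZero m] (ι : Type)
    [Fintype ι] (a : ι → ZMod m), m ≤ k → s ∣ m →
    (∀ q : ℕ, q.Prime → q ∣ m / s → 6 * N + 1 < q) → Fintype.card ι ≤ N → (∀ i, a i ≠ 0) → St a →
    ∃ (n : ℕ) (b : Fin n → ZMod s), n ≤ Fintype.card ι ∧ (∀ i, b i ≠ 0) ∧ St b ∧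
      clt a - clt b ∈ HD := by
  intro k
  induction k with
  | zero =>
    intro m hm ι _ a h0
    exact absurd (Nat.le_zero.mp h0) (NeZero.ne m)
  | succ k ih =>
    intro m _ ι _ a hmk hsm hq hN ha hSt
    by_cases h1 : m / s = 1
    · have hms : m = s := by
        have h2 := Nat.div_mul_cancel hsm
        rw [h1, one_mul] at h2
        exact h2.symm
      subst hms
      refine ⟨Fintype.card ι, fun i => a ((Fintype.equivFin ι).symm i), le_rfl,
        fun i => ha _, ?_, ?_⟩
      · intro t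
        exact (Equiv.sum_comp (Fintype.equivFin ι).symm
          (fun i => sz ((t : ZMod m) * a i))).trans (hSt t)
      · have h3 : clt (fun i => a ((Fintype.equivFin ι).symm i)) = clt a :=
          Equiv.sum_comp (Fintype.equivFin ι).symm
            (fun i => Finsupp.single (ZMod.toAddCircle (a i)) (1 : ℤ))
        rw [h3, sub_self]
        exact HD.zero_mem
    · obtain ⟨q, hqp, c, hc⟩ := Nat.exists_prime_and_dvd h1
      have hm : m = q * (s * c) := by
        rw [← Nat.div_mul_cancel hsm, hc]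
        ring
      subst hm
      have hne : NeZero (s * c) := ⟨fun h0 => NeZero.ne (q * (s * c)) (by rw [h0, mul_zero])⟩
      have hs0 : 0 < s := Nat.pos_of_ne_zero (NeZero.ne s)
      have hsc0 : 0 < s * c := Nat.pos_of_ne_zero (NeZero.ne (s * c))
      have hlt : s * c ≤ k := by
        have h4 : 2 * (s * c) ≤ q * (s * c) := Nat.mul_le_mul_right _ hqp.two_le
        omega
      obtain ⟨n1, b1, hn1, hb1, hSt1, hd1⟩ := hFR1 (s * c) q N ι a hqp
        (hq q hqp ⟨c, hc⟩) hN ha hSt
      obtain ⟨n2, b2, hn2, hb2, hSt2, hd2⟩ := ih (s * c) (Fin n1) b1 hlt (Nat.dvd_mul_right s c)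
        (fun p hp hpd => hq p hp (by
          rw [Nat.mul_div_cancel_left c hs0] at hpd
          rw [hc]
          exact hpd.mul_left q))
        (by rw [Fintype.card_fin]; exact hn1.trans hN) hb1 hSt1
      rw [Fintype.card_fin] at hn2
      refine ⟨n2, b2, hn2.trans hn1, hb2, hSt2, ?_⟩
      have h5 : clt a - clt b2 = (clt a - clt b1) + (clt b1 - clt b2) := by abel
      rw [h5]
      exact HD.add_mem hd1 hd2

/-- THEOREM FR. -/
theorem pFR (hFR1 : S_FR1) : S_FR := by
  intro s m N _ _ ι _ a hsm hq hN ha hSt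
  exact fr_aux hFR1 s N m m ι a le_rfl hsm hq hN ha hSt

end Pool.Agent.FO
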