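import Pool.Agent.Lib.MP_640417_ag.FO.SpecR

/-!
# THEOREM FR for one prime
-/

set_option autoImplicit false

open Finset Pool.Agent.FC

namespace Pool.Agent.FO

private lemma FR1_sz (q m1 z : ℕ) [NeZero m1] [NeZero (q * m1)] (hq : 0 < q) :
    sz (((q * z : ℕ) : ZMod (q * m1))) = sz ((z : ℕ) : ZMod m1) := by
  have h0 : (((q * z : ℕ) : ZMod (q * m1)) = 0) ↔ ((z : ℕ) : ZMod m1) = 0 := by
    rw [ZMod.natCast_eq_zero_iff, ZMod.natCast_eq_zero_iff]
    exact Nat.mul_dvd_mul_iff_left hq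
  have hq' : (q : ℚ) ≠ 0 := by exact_mod_cast hq.ne'
  have hm' : (m1 : ℚ) ≠ 0 := by exact_mod_cast NeZero.ne m1
  unfold sz
  by_cases h : ((z : ℕ) : ZMod m1) = 0
  · rw [if_pos h, if_pos (h0.2 h)]
  · rw [if_neg h, if_neg (fun h' => h (h0.1 h')), ZMod.val_natCast, ZMod.val_natCast,
      Nat.mul_mod_mul_left]
    push_cast
    rw [mul_div_mul_left _ _ hq']

private lemma FR1_circ (q m1 : ℕ) [NeZero m1] [NeZero (q * m1)] (hq : 0 < q)
    (x : ZMod (q * m1)) (w : ℕ) (hw : x.val = q * w) :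
    ZMod.toAddCircle ((w : ℕ) : ZMod m1) = ZMod.toAddCircle x := by
  have hlt : w < m1 := by
    have h := ZMod.val_lt x
    rw [hw] at h
    exact Nat.lt_of_mul_lt_mul_left h
  have hq' : (q : ℝ) ≠ 0 := by exact_mod_cast hq.ne'
  rw [ZMod.toAddCircle_apply, ZMod.toAddCircle_apply, hw, ZMod.val_natCast,
    Nat.mod_eq_of_lt hlt]
  push_cast
  rw [mul_div_mul_left _ _ hq']

private lemma FR1_nt (q m1 : ℕ) [NeZero m1] [NeZero (q * m1)]
    (x : ZMod (q * m1)) (hx : ((m1 : ℕ) : ZMod (q * m1)) * x = 0) : ∃ w, x.val = q * w := by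
  have hm : 0 < m1 := Nat.pos_of_ne_zero (NeZero.ne m1)
  have h1 : ((m1 * x.val : ℕ) : ZMod (q * m1)) = 0 := by
    rw [Nat.cast_mul, ZMod.natCast_zmod_val]
    exact hx
  rw [ZMod.natCast_eq_zero_iff] at h1
  have h2 : m1 * q ∣ m1 * x.val := dvd_trans (dvd_of_eq (mul_comm m1 q)) h1
  exact (Nat.mul_dvd_mul_iff_left hm).1 h2

private lemma FR1_cnt {m : ℕ} {ι : Type} [Fintype ι] (a : ι → ZMod m) (x : ZMod m) :
    cnt a x = ∑ i, if a i = x then 1 else 0 := by
  classical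
  rw [cnt, Finset.card_filter]
  push_cast
  refine Finset.sum_congr rfl fun i _ => ?_
  by_cases h : a i = x
  · simp [h]
  · simp [h]

private lemma FR1_cnt1 {m : ℕ} {ι : Type} [Fintype ι] (a : ι → ZMod m) (p : ZMod m → Prop)
    [DecidablePred p] [Fintype {i // p (a i)}] (x : ZMod m) (hx : p x) :
    cnt (fun i : {i // p (a i)} => a i) x = cnt a x := by
  classical
  rw [FR1_cnt, FR1_cnt, ← Fintype.sum_subtype_add_sum_subtype (fun i => p (a i))
    (fun i => if a i = x then (1 : ℤ) else 0)]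
  have h0 : ∑ i : {i // ¬ p (a i)}, (if a i = x then (1 : ℤ) else 0) = 0 :=
    Finset.sum_eq_zero fun i _ => if_neg fun h : a i = x => i.2 (h ▸ hx)
  rw [h0, add_zero]
  exact Finset.sum_congr (by ext; simp) fun i _ => rfl

private lemma FR1_cnt0 {m : ℕ} {ι : Type} [Fintype ι] (a : ι → ZMod m) (p : ZMod m → Prop)
    [DecidablePred p] [Fintype {i // p (a i)}] (x : ZMod m) (hx : ¬ p x) :
    cnt (fun i : {i // p (a i)} => a i) x = 0 := by
  rw [FR1_cnt]
  exact Finset.sum_eq_zero fun i _ => if_neg fun h : a i = x => hx (h ▸ i.2)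

theorem pFR1 (hSzBas : S_SzBas) (hTup : S_Tup) (hTopRel : S_TopRel) (hTopHD : S_TopHD) :
    S_FR1 := by
  classical
  intro m1 q N _ _ ι _ a hq h6 hN ha hSt
  by_cases hN0 : N = 0
  · have : IsEmpty ι := Fintype.card_eq_zero_iff.1 (by omega)
    refine ⟨0, Fin.elim0, Nat.zero_le _, fun i => i.elim0, fun t => by simp, ?_⟩
    rw [clt, clt, Finset.univ_eq_empty, Finset.univ_eq_empty, Finset.sum_empty, Finset.sum_empty,
      sub_zero]
    exact HD.zero_mem
  have hq2 : q ≠ 2 := by omega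
  have hqm : q ∈ (q * m1).primeFactors :=
    Nat.mem_primeFactors.2 ⟨hq, Dvd.intro m1 rfl, NeZero.ne (q * m1)⟩
  have hdiv : q * m1 / q = m1 := Nat.mul_div_cancel_left m1 hq.pos
  have hTp : ∀ x : ZMod (q * m1), ¬ Tp (q * m1) q x ↔ ((m1 : ℕ) : ZMod (q * m1)) * x = 0 := by
    intro x
    rw [Tp, hdiv, not_not]
  have hneg : ∀ x : ZMod (q * m1), Tp (q * m1) q (-x) ↔ Tp (q * m1) q x := by
    intro x
    rw [Tp, Tp, mul_neg, Ne, Ne, neg_eq_zero]
  let a' : {i // Tp (q * m1) q (a i)} → ZMod (q * m1) := fun i => a i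
  let a'' : {i // ¬ Tp (q * m1) q (a i)} → ZMod (q * m1) := fun i => a i
  obtain ⟨ho, hP, hs, -, hcl, -⟩ := hTup (q * m1) ι a
  obtain ⟨-, hP', -, -, hcl', -⟩ := hTup (q * m1) _ a'
  have h1 : ∀ x, Tp (q * m1) q x → cnt a' x = cnt a x := fun x hx =>
    FR1_cnt1 a (Tp (q * m1) q) x hx
  have h0 : ∀ x, ¬ Tp (q * m1) q x → cnt a' x = 0 := fun x hx =>
    FR1_cnt0 a (Tp (q * m1) q) x hx
  have hRl : Rl fun x => cnt a x - cnt a (-x) := fun t => by
    rw [hP, hSt t, mul_zero]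
  have hft : ∀ t : ℕ, Pq (q * m1) q t →
      P (fun x => cnt a' x - cnt a' (-x)) (t : ZMod (q * m1)) = 0 := by
    refine hTopRel (q * m1) q N hqm h6 (fun x => cnt a x - cnt a (-x))
      (fun x => cnt a' x - cnt a' (-x)) ho hRl ?_ ?_ ?_
    · refine hs.trans ?_
      have : (Fintype.card ι : ℤ) ≤ N := by exact_mod_cast hN
      linarith
    · intro x hx
      show cnt a' x - cnt a' (-x) = cnt a x - cnt a (-x)
      rw [h1 x hx, h1 (-x) ((hneg x).2 hx)]
    · intro x hx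
      show cnt a' x - cnt a' (-x) = 0
      rw [h0 x hx, h0 (-x) fun h => hx ((hneg x).1 h), sub_zero]
  have hHD : clt a' ∈ HD := by
    rw [hcl']
    refine hTopHD (q * m1) q hqm hq2 (cnt a') (fun x hx => ?_) hft
    by_contra h
    exact hx (h0 x h)
  have htop : ∀ t : (ZMod (q * m1))ˣ, ∑ i, sz ((t : ZMod (q * m1)) * a' i) = 0 := by
    intro t
    have hco : Pq (q * m1) q ((t : ZMod (q * m1)).val) := by
      intro p hp _
      have h := ZMod.val_coe_unit_coprime t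
      exact Nat.Coprime.coprime_dvd_right (Nat.dvd_of_mem_primeFactors hp) h
    have h := hft _ hco
    rw [ZMod.natCast_zmod_val, hP'] at h
    linarith
  have hbot : ∀ t : (ZMod (q * m1))ˣ, ∑ i, sz ((t : ZMod (q * m1)) * a'' i) = 0 := by
    intro t
    have h := Fintype.sum_subtype_add_sum_subtype (fun i => Tp (q * m1) q (a i))
      (fun i => sz ((t : ZMod (q * m1)) * a i))
    have h' := htop t
    have h'' := hSt t
    rw [← h] at h''
    have h3 : (∑ i : {i // Tp (q * m1) q (a i)}, sz ((t : ZMod (q * m1)) * a i)) = 0 := h'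
    rw [h3, zero_add] at h''
    exact h''
  have hw : ∀ i : {i // ¬ Tp (q * m1) q (a i)}, ∃ w, (a'' i).val = q * w := fun i =>
    FR1_nt q m1 (a'' i) ((hTp _).1 i.2)
  choose w hw using hw
  let e := Fintype.equivFin {i // ¬ Tp (q * m1) q (a i)}
  refine ⟨Fintype.card {i // ¬ Tp (q * m1) q (a i)}, fun k => ((w (e.symm k) : ℕ) : ZMod m1),
    Fintype.card_subtype_le _, ?_, ?_, ?_⟩
  · intro k h
    have hd := (ZMod.natCast_eq_zero_iff _ _).1 h
    refine ha (e.symm k) ?_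
    have h2 : ((a'' (e.symm k)).val : ZMod (q * m1)) = 0 := by
      rw [hw, ZMod.natCast_eq_zero_iff]
      exact Nat.mul_dvd_mul_left q hd
    rwa [ZMod.natCast_zmod_val] at h2
  · intro t
    obtain ⟨t', ht'⟩ := ZMod.unitsMap_surjective (Dvd.intro_left q rfl : m1 ∣ q * m1) t
    have h := hbot t'
    rw [← Equiv.sum_comp e.symm] at h
    rw [← h]
    refine Finset.sum_congr rfl fun k _ => ?_
    have h1 : ((t' : ZMod (q * m1)) * a'' (e.symm k)) =
        ((q * ((t' : ZMod (q * m1)).val * w (e.symm k)) : ℕ) : ZMod (q * m1)) := by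
      rw [show q * ((t' : ZMod (q * m1)).val * w (e.symm k)) =
        (t' : ZMod (q * m1)).val * (q * w (e.symm k)) by ring, ← hw, Nat.cast_mul,
        ZMod.natCast_zmod_val, ZMod.natCast_zmod_val]
    have h2 : (t : ZMod m1) = (((t' : ZMod (q * m1)).val : ℕ) : ZMod m1) := by
      rw [← ht', ZMod.unitsMap_val, ZMod.cast_eq_val]
    rw [h1, FR1_sz q m1 _ hq.pos, h2, Nat.cast_mul]
  · have h := Fintype.sum_subtype_add_sum_subtype (fun i => Tp (q * m1) q (a i))
      (fun i => Finsupp.single (ZMod.toAddCircle (a i)) (1 : ℤ))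
    have h3 : clt (fun k => ((w (e.symm k) : ℕ) : ZMod m1)) =
        ∑ i : {i // ¬ Tp (q * m1) q (a i)}, Finsupp.single (ZMod.toAddCircle (a i)) (1 : ℤ) := by
      rw [← Equiv.sum_comp e.symm, clt]
      refine Finset.sum_congr rfl fun k _ => ?_
      rw [FR1_circ q m1 hq.pos (a'' (e.symm k)) _ (hw _)]
    have h4 : clt a = clt a' + clt (fun k => ((w (e.symm k) : ℕ) : ZMod m1)) := by
      rw [h3]
      exact h.symm
    rw [h4, add_sub_cancel_right]
    exact hHD

end Pool.Agent.FO
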