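import Pool.Agent.Lib.MP_640417_ag.FO.SpecR

set_option autoImplicit false

open Finset Pool.Agent.FC

namespace Pool.Agent.FO

namespace FibAux

open Classical in
private lemma card_fib (m q : ℕ) [NeZero m] (hq : q ∈ m.primeFactors) (x0 : ZMod m) :
    #(univ.filter fun x : ZMod m => (q : ZMod m) * x = q * x0) = q := by
  have hqp := Nat.prime_of_mem_primeFactors hq
  have hqm := Nat.dvd_of_mem_primeFactors hq
  have hm : 0 < m := Nat.pos_of_ne_zero (NeZero.ne m)
  have hM : 0 < m / q := Nat.div_pos (Nat.le_of_dvd hm hqm) hqp.pos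
  have hmul : q * (m / q) = m := Nat.mul_div_cancel' hqm
  have hlt : ∀ i < q, i * (m / q) < m := by
    intro i hi
    calc i * (m / q) < q * (m / q) := Nat.mul_lt_mul_of_pos_right hi hM
      _ = m := hmul
  have h : #(range q) = #(univ.filter fun x : ZMod m => (q : ZMod m) * x = q * x0) := by
    apply Finset.card_bij (fun i _ => x0 + ((i * (m / q) : ℕ) : ZMod m))
    · intro i _
      rw [mem_filter]
      refine ⟨mem_univ _, ?_⟩
      rw [mul_add, ← Nat.cast_mul, mul_left_comm, hmul]
      simp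
    · intro i hi j hj h
      have h' := add_left_cancel h
      rw [ZMod.natCast_eq_natCast_iff', Nat.mod_eq_of_lt (hlt i (mem_range.1 hi)),
        Nat.mod_eq_of_lt (hlt j (mem_range.1 hj))] at h'
      exact Nat.eq_of_mul_eq_mul_right hM h'
    · intro x hx
      rw [mem_filter] at hx
      have h1 : (q : ZMod m) * (x - x0) = 0 := by
        rw [mul_sub, hx.2, sub_self]
      have h2 : m ∣ q * (x - x0).val := by
        rw [← ZMod.natCast_eq_zero_iff, Nat.cast_mul, ZMod.natCast_zmod_val]
        exact h1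
      have h3 : (m / q) ∣ (x - x0).val := by
        apply Nat.dvd_of_mul_dvd_mul_left hqp.pos
        rw [hmul]
        exact h2
      obtain ⟨i, hi⟩ := h3
      refine ⟨i, ?_, ?_⟩
      · rw [mem_range]
        by_contra hcon
        push Not at hcon
        have h4 := ZMod.val_lt (x - x0)
        rw [hi] at h4
        nlinarith
      · have h5 : ((x - x0).val : ZMod m) = x - x0 := ZMod.natCast_zmod_val _
        rw [mul_comm i, ← hi, h5]
        ring
  rw [← h, card_range]

open Classical in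
/-- the inner sum -/
private noncomputable def I {m : ℕ} [NeZero m] (q : ℕ) (F : ZMod m → ℚ) (z : ZMod m) : ℚ :=
  ∑ x ∈ univ.filter (fun x : ZMod m => (q : ZMod m) * x = z), if Tp m q x then F x else 0

private lemma P_eq (m q : ℕ) [NeZero m] (g f0 : ZMod m → ℤ)
    (hA : ∀ x, Tp m q x → g x = f0 ((q : ZMod m) * x)) (hB : ∀ x, ¬ Tp m q x → g x = 0)
    (t : ZMod m) :
    P g t = ∑ z, (f0 z : ℚ) * I q (fun x => sz (t * x)) z := by
  classical
  unfold P I
  rw [← Finset.sum_fiberwise (univ : Finset (ZMod m)) (fun x => (q : ZMod m) * x)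
    (fun x => (g x : ℚ) * sz (t * x))]
  apply Finset.sum_congr rfl
  intro z _
  rw [Finset.mul_sum]
  apply Finset.sum_congr rfl
  intro x hx
  rw [mem_filter] at hx
  by_cases hT : Tp m q x
  · rw [if_pos hT, hA x hT, hx.2]
  · rw [if_neg hT, hB x hT]
    simp

private lemma P_congr (m q : ℕ) [NeZero m] (g f0 : ZMod m → ℤ)
    (hA : ∀ x, Tp m q x → g x = f0 ((q : ZMod m) * x)) (hB : ∀ x, ¬ Tp m q x → g x = 0)
    (hC : ∀ z, f0 z ≠ 0 → ∃ x, Tp m q x ∧ z = (q : ZMod m) * x) (t : ZMod m) (G : ZMod m → ℚ)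
    (hG : ∀ x0, Tp m q x0 → I q (fun x => sz (t * x)) ((q : ZMod m) * x0) =
      G ((q : ZMod m) * x0)) :
    P g t = ∑ z, (f0 z : ℚ) * G z := by
  rw [P_eq m q g f0 hA hB]
  apply Finset.sum_congr rfl
  intro z _
  by_cases hz : f0 z = 0
  · rw [hz]
    simp
  · obtain ⟨x0, hx0, rfl⟩ := hC z hz
    rw [hG x0 hx0]

private lemma fib_sq (m q : ℕ) [NeZero m] (hq : q ∈ m.primeFactors) (h2 : q ^ 2 ∣ m)
    (F : ZMod m → ℚ) (x0 : ZMod m) (hx0 : Tp m q x0) :
    I q F ((q : ZMod m) * x0) =
      ∑ x ∈ univ.filter (fun x : ZMod m => (q : ZMod m) * x = q * x0), F x := by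
  classical
  unfold I
  apply Finset.sum_congr rfl
  intro x hx
  rw [mem_filter] at hx
  rw [if_pos]
  have hd : q ∣ m / q := by
    rw [pow_two] at h2
    exact Nat.dvd_div_of_mul_dvd h2
  obtain ⟨k, hk⟩ := hd
  unfold Tp at *
  rw [hk] at hx0 ⊢
  push_cast at hx0 ⊢
  intro h
  apply hx0
  calc (q : ZMod m) * k * x0 = k * (q * x0) := by ring
    _ = k * (q * x) := by rw [hx.2]
    _ = (q : ZMod m) * k * x := by ring
    _ = 0 := h

private lemma fib_ns (m q e : ℕ) [NeZero m] (hq : q ∈ m.primeFactors)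
    (he : ((q * e * q : ℕ) : ZMod m) = q) (hqe : q ∣ e)
    (F : ZMod m → ℚ) (x0 : ZMod m) :
    I q F ((q : ZMod m) * x0) =
      ∑ x ∈ univ.filter (fun x : ZMod m => (q : ZMod m) * x = q * x0), F x -
        F ((e : ZMod m) * (q * x0)) := by
  classical
  have hqp := Nat.prime_of_mem_primeFactors hq
  have hqm := Nat.dvd_of_mem_primeFactors hq
  have hm : 0 < m := Nat.pos_of_ne_zero (NeZero.ne m)
  have hmul : q * (m / q) = m := Nat.mul_div_cancel' hqm
  have hM : 0 < m / q := Nat.div_pos (Nat.le_of_dvd hm hqm) hqp.pos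
  push_cast at he
  have h1 : ∑ x ∈ univ.filter (fun x : ZMod m => (q : ZMod m) * x = q * x0),
      (if Tp m q x then 0 else F x) = F ((e : ZMod m) * (q * x0)) := by
    rw [Finset.sum_eq_single ((e : ZMod m) * (q * x0))]
    · rw [if_neg]
      unfold Tp
      rw [not_not]
      obtain ⟨k, rfl⟩ := hqe
      have e1 : ((m / q : ℕ) : ZMod m) * (((q * k : ℕ) : ZMod m) * (q * x0)) =
          ((q * (m / q) : ℕ) : ZMod m) * (k * (q * x0)) := by
        push_cast
        ring
      rw [e1, hmul, ZMod.natCast_self, zero_mul]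
    · intro x hx hne
      rw [mem_filter] at hx
      rw [if_pos]
      by_contra hT
      apply hne
      unfold Tp at hT
      rw [not_not] at hT
      have h2 : m ∣ (m / q) * x.val := by
        rw [← ZMod.natCast_eq_zero_iff, Nat.cast_mul, ZMod.natCast_zmod_val]
        exact hT
      have h3 : q ∣ x.val := by
        apply Nat.dvd_of_mul_dvd_mul_left hM
        rw [mul_comm (m / q) q, hmul]
        exact h2
      obtain ⟨y, hy⟩ := h3
      have h4 : x = (q : ZMod m) * y := by
        rw [← Nat.cast_mul, ← hy, ZMod.natCast_zmod_val]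
      rw [← hx.2]
      conv_lhs => rw [h4, ← he]
      rw [h4]
      ring
    · intro hne
      exfalso
      apply hne
      rw [mem_filter]
      refine ⟨mem_univ _, ?_⟩
      conv_rhs => rw [← he]
      ring
  rw [← h1, ← Finset.sum_sub_distrib]
  unfold I
  apply Finset.sum_congr rfl
  intro x _
  split_ifs
  · ring
  · ring

private lemma ex_e (m q : ℕ) [NeZero m] (hq : q ∈ m.primeFactors) (h2 : ¬ q ^ 2 ∣ m) :
    ∃ e : ℕ, ((q * e * q : ℕ) : ZMod m) = q ∧ q ∣ e ∧ Pq m q e := by
  have hqp := Nat.prime_of_mem_primeFactors hq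
  have hqm := Nat.dvd_of_mem_primeFactors hq
  have hm : 0 < m := Nat.pos_of_ne_zero (NeZero.ne m)
  have hmul : q * (m / q) = m := Nat.mul_div_cancel' hqm
  have hM : 0 < m / q := Nat.div_pos (Nat.le_of_dvd hm hqm) hqp.pos
  haveI : NeZero (m / q) := ⟨hM.ne'⟩
  have hc : Nat.Coprime q (m / q) := by
    rw [hqp.coprime_iff_not_dvd]
    intro h
    apply h2
    rw [pow_two, ← hmul]
    exact Nat.mul_dvd_mul_left q h
  have hc2 : Nat.Coprime (q * q) (m / q) := Nat.Coprime.mul_left hc hc
  obtain ⟨e', he'⟩ : ∃ e' : ℕ, q * q * e' ≡ 1 [MOD (m / q)] := by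
    refine ⟨(((ZMod.unitOfCoprime (q * q) hc2)⁻¹ : (ZMod (m / q))ˣ) : ZMod (m / q)).val, ?_⟩
    rw [← ZMod.natCast_eq_natCast_iff, Nat.cast_mul, ZMod.natCast_zmod_val, Nat.cast_one,
      ← ZMod.coe_unitOfCoprime (q * q) hc2, Units.mul_inv]
  refine ⟨q * e', ?_, Dvd.intro _ rfl, ?_⟩
  · rw [ZMod.natCast_eq_natCast_iff]
    have h3 := Nat.ModEq.mul_left' q he'
    rw [hmul, mul_one] at h3
    have e1 : q * (q * e') * q = q * (q * q * e') := by ring
    rw [e1]
    exact h3
  · intro p hp hpq
    have hpp := Nat.prime_of_mem_primeFactors hp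
    have hpm := Nat.dvd_of_mem_primeFactors hp
    have hpd : p ∣ m / q := by
      rw [← hmul] at hpm
      exact Nat.Coprime.dvd_of_dvd_mul_left ((Nat.coprime_primes hpp hqp).2 hpq) hpm
    have h3 : q * q * e' ≡ 1 [MOD p] := he'.of_dvd hpd
    rw [Nat.coprime_comm, hpp.coprime_iff_not_dvd]
    intro h4
    have h5 : p ∣ q * q * e' := by
      rw [mul_assoc]
      exact h4.mul_left q
    have h6 := (Nat.modEq_zero_iff_dvd.2 h5).symm.trans h3
    have h7 := (Nat.modEq_zero_iff_dvd.1 h6.symm)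
    exact hpp.one_lt.ne' (Nat.dvd_one.1 h7)

end FibAux

open FibAux

theorem pFib (hDist : S_Dist) : S_Fib := by
  classical
  intro m q _ hq g f0 hA hB hC
  have hqp := Nat.prime_of_mem_primeFactors hq
  have hqm := Nat.dvd_of_mem_primeFactors hq
  have hm0 : m ≠ 0 := NeZero.ne m
  have part1 : ∀ t' : ZMod m, P g ((q : ZMod m) * t') =
      (if q ^ 2 ∣ m then (q : ℚ) else q - 1) * P f0 t' := by
    intro t'
    have hsum : ∀ x0 : ZMod m,
        ∑ x ∈ univ.filter (fun x : ZMod m => (q : ZMod m) * x = q * x0),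
          sz ((q : ZMod m) * t' * x) = (q : ℚ) * sz (t' * ((q : ZMod m) * x0)) := by
      intro x0
      have h1 : ∀ x ∈ univ.filter (fun x : ZMod m => (q : ZMod m) * x = q * x0),
          sz ((q : ZMod m) * t' * x) = sz (t' * ((q : ZMod m) * x0)) := by
        intro x hx
        rw [mem_filter] at hx
        congr 1
        rw [← hx.2]
        ring
      rw [Finset.sum_congr rfl h1, Finset.sum_const, card_fib m q hq x0, nsmul_eq_mul]
    rw [P_congr m q g f0 hA hB hC _
      (fun z => (if q ^ 2 ∣ m then (q : ℚ) else q - 1) * sz (t' * z))]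
    · unfold P
      rw [Finset.mul_sum]
      apply Finset.sum_congr rfl
      intro z _
      ring
    · intro x0 hx0
      by_cases h2 : q ^ 2 ∣ m
      · rw [fib_sq m q hq h2 _ x0 hx0, if_pos h2]
        exact hsum x0
      · obtain ⟨e, he1, he2, he3⟩ := ex_e m q hq h2
        rw [fib_ns m q e hq he1 he2, if_neg h2]
        rw [hsum x0]
        have e1 : (q : ZMod m) * t' * ((e : ZMod m) * (q * x0)) = t' * (q * x0) := by
          push_cast at he1
          conv_rhs => rw [← he1]
          ring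
        rw [e1]
        ring
  refine ⟨part1, ?_⟩
  intro h0 t ht
  by_cases hqt : q ∣ t
  · obtain ⟨t', rfl⟩ := hqt
    have e1 : ((q * t' : ℕ) : ZMod m) = (q : ZMod m) * (t' : ZMod m) := by push_cast; rfl
    rw [e1, part1, h0 t', mul_zero]
    intro p hp hpq
    exact Nat.Coprime.coprime_dvd_left (Dvd.intro_left q rfl) (ht p hp hpq)
  · have hcop : t.Coprime q := by
      rw [Nat.coprime_comm, hqp.coprime_iff_not_dvd]
      exact hqt
    by_cases h2 : q ^ 2 ∣ m
    · rw [P_congr m q g f0 hA hB hC _ (fun z => sz ((t : ZMod m) * z))]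
      · exact h0 t ht
      · intro x0 hx0
        rw [fib_sq m q hq h2 _ x0 hx0]
        rw [(hDist m q hqm).2 t hcop x0]
        congr 1
        ring
    · obtain ⟨e, he1, he2, he3⟩ := ex_e m q hq h2
      rw [P_congr m q g f0 hA hB hC _ (fun z => sz ((t : ZMod m) * z) -
        sz (((t * e : ℕ) : ZMod m) * z))]
      · have h3 := h0 t ht
        have h4 := h0 (t * e) (fun p hp hpq => Nat.Coprime.mul_left (ht p hp hpq) (he3 p hp hpq))
        unfold P at h3 h4
        simp only [mul_sub]
        rw [Finset.sum_sub_distrib, h3, h4, sub_zero]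
      · intro x0 hx0
        rw [fib_ns m q e hq he1 he2]
        rw [(hDist m q hqm).2 t hcop x0]
        congr 1
        · congr 1
          ring
        · congr 1
          push_cast
          ring

end Pool.Agent.FO
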