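import Pool.Agent.Lib.MP_640417_ag.FO.Brg2

/-!
# Theorems FO, FR: tuples with Stickelberger's relation and Tate characters
-/

set_option autoImplicit false

open Finset Pool.Agent.FC

namespace Pool.Agent.FO

/-- For a tuple of nonzero entries with Stickelberger's relation `2 ∑ val = s n`. -/
theorem two_sum_val (s : ℕ) [NeZero s] {ι : Type} [Fintype ι] (b : ι → ZMod s) (h1 : ∀ i, b i ≠ 0)
    (h3 : St b) : 2 * ∑ i, (b i).val = s * Fintype.card ι := by
  have h := h3 1
  have hs : (s : ℚ) ≠ 0 := Nat.cast_ne_zero.2 (NeZero.ne s)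
  have h5 : ∀ i, sz (((1 : (ZMod s)ˣ) : ZMod s) * b i) = ((b i).val : ℚ) / s - 1 / 2 := by
    intro i
    rw [Units.val_one, one_mul]
    simp [sz, h1 i]
  rw [Finset.sum_congr rfl fun i _ => h5 i, Finset.sum_sub_distrib, ← Finset.sum_div] at h
  simp only [Finset.sum_const, Finset.card_univ, nsmul_eq_mul] at h
  have h6 : (2 : ℚ) * ∑ i, ((b i).val : ℚ) = s * Fintype.card ι := by
    field_simp at h
    linarith
  exact_mod_cast h6

/-- The length of a Tate character is even. -/
theorem even_of_sum (s : ℕ) [NeZero s] {ι : Type} [Fintype ι] (b : ι → ZMod s) (h1 : ∀ i, b i ≠ 0)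
    (h2 : ∑ i, b i = 0) (h3 : St b) : Even (Fintype.card ι) := by
  have h := two_sum_val s b h1 h3
  have h4 : s ∣ ∑ i, (b i).val := by
    rw [← ZMod.natCast_eq_zero_iff]
    push_cast
    simpa using h2
  obtain ⟨k, hk⟩ := h4
  have hs : 0 < s := Nat.pos_of_ne_zero (NeZero.ne s)
  rw [hk] at h
  have : 2 * k = Fintype.card ι := by
    have : s * (2 * k) = s * Fintype.card ι := by rw [← h]; ring
    exact Nat.eq_of_mul_eq_mul_left hs this
  exact ⟨k, by omega⟩

/-- **From a relation to a Tate character**: add the entry `s / 2` if the length is odd. -/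
theorem half (hSzBas : S_SzBas) (hClEven : S_ClEven) (s n : ℕ) [NeZero s] (b : Fin n → ZMod s)
    (h1 : ∀ i, b i ≠ 0) (h3 : St b) :
    ∃ (n' : ℕ) (b' : Fin n' → ZMod s), (n' = n ∨ (Odd n ∧ n' = n + 1)) ∧ IsTate s b' ∧ clt b - clt b' ∈ HD := by
  have h := two_sum_val s b h1 h3
  rw [Fintype.card_fin] at h
  have hs : 0 < s := Nat.pos_of_ne_zero (NeZero.ne s)
  rcases Nat.even_or_odd n with ⟨k, hk⟩ | hodd
  · refine ⟨n, b, Or.inl rfl, isTate_of_St hSzBas s n b h1 ?_ h3, ?_⟩
    · have h4 : ∑ i, (b i).val = s * k := by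
        have : 2 * ∑ i, (b i).val = 2 * (s * k) := by rw [h, hk]; ring
        omega
      have h5 : ((∑ i, (b i).val : ℕ) : ZMod s) = 0 := by
        rw [h4]; push_cast; simp
      push_cast at h5
      simpa using h5
    · rw [sub_self]; exact HD.zero_mem
  · obtain ⟨k, hk⟩ := hodd
    have heven : Even (s * n) := ⟨_, by rw [← h]; ring⟩
    have hse : Even s := by
      rcases Nat.even_mul.1 heven with h' | h'
      · exact h'
      · exact absurd h' (by rw [hk]; simp)
    obtain ⟨c, hc⟩ := hse
    have hc2 : s = 2 * c := by omega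
    have hc0 : 0 < c := by omega
    have hcc : ((c : ℕ) : ZMod s) + (c : ℕ) = 0 := by
      rw [← Nat.cast_add, ← hc]; simp
    have hcne : ((c : ℕ) : ZMod s) ≠ 0 := by
      intro h0
      rw [ZMod.natCast_eq_zero_iff] at h0
      have := Nat.le_of_dvd hc0 h0
      omega
    have hval : ((c : ℕ) : ZMod s).val = c := ZMod.val_natCast_of_lt (by omega)
    have hneg : -((c : ℕ) : ZMod s) = (c : ℕ) := by
      rw [neg_eq_iff_add_eq_zero]; exact hcc
    have hunit : ∀ t : (ZMod s)ˣ, (t : ZMod s) * (c : ℕ) = (c : ℕ) := by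
      intro t
      have ht : Odd (t : ZMod s).val := by
        have h6 := ZMod.val_coe_unit_coprime t
        rcases Nat.even_or_odd (t : ZMod s).val with h7 | h7
        · exfalso
          have h8 : 2 ∣ Nat.gcd (t : ZMod s).val s := Nat.dvd_gcd h7.two_dvd ⟨c, hc2⟩
          rw [Nat.Coprime] at h6
          rw [h6] at h8
          omega
        · exact h7
      obtain ⟨j, hj⟩ := ht
      have h6 : (t : ZMod s) = ((2 * j + 1 : ℕ) : ZMod s) := by
        rw [← hj, ZMod.natCast_zmod_val]
      rw [h6]
      push_cast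
      have h7 : (2 : ZMod s) * j * c = j * (c + c) := by ring
      have h8 : (c : ZMod s) + c = 0 := by exact_mod_cast hcc
      calc ((2 : ZMod s) * j + 1) * c = 2 * j * c + c := by ring
        _ = c := by rw [h7, h8, mul_zero, zero_add]
    have hsz : sz (((c : ℕ) : ZMod s)) = 0 := by
      unfold sz
      rw [if_neg hcne, hval]
      have : (s : ℚ) = 2 * c := by exact_mod_cast hc2
      rw [this]
      have : (c : ℚ) ≠ 0 := by exact_mod_cast hc0.ne'
      field_simp
      ring
    set b' : Fin (n + 1) → ZMod s := Fin.snoc b ((c : ℕ) : ZMod s) with hb'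
    have h1' : ∀ i, b' i ≠ 0 := by
      intro i
      refine Fin.lastCases ?_ (fun j => ?_) i
      · rw [hb', Fin.snoc_last]; exact hcne
      · rw [hb', Fin.snoc_castSucc]; exact h1 j
    have h2' : ∑ i, b' i = 0 := by
      rw [Fin.sum_univ_castSucc]
      simp only [hb', Fin.snoc_castSucc, Fin.snoc_last]
      have h4 : ∑ i, (b i).val = s * k + c := by
        have : 2 * ∑ i, (b i).val = 2 * (s * k + c) := by
          rw [h, hk]
          have : s * (2 * k + 1) = 2 * (s * k) + s := by ring
          omega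
        omega
      have h5 : ((∑ i, (b i).val : ℕ) : ZMod s) = c := by
        rw [h4]; push_cast; simp
      push_cast at h5
      have h6 : ∑ i, b i = c := by simpa using h5
      rw [h6]
      exact_mod_cast hcc
    have h3' : St b' := by
      intro t
      rw [Fin.sum_univ_castSucc]
      simp only [hb', Fin.snoc_castSucc, Fin.snoc_last]
      rw [hunit t, hsz, add_zero]
      exact h3 t
    refine ⟨n + 1, b', Or.inr ⟨⟨k, hk⟩, rfl⟩, isTate_of_St hSzBas s (n + 1) b' h1' h2' h3', ?_⟩
    have h6 : clt b - clt b' = -Finsupp.single (ZMod.toAddCircle (((c : ℕ) : ZMod s))) (1 : ℤ) := by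
      unfold clt
      rw [Fin.sum_univ_castSucc (n := n)]
      simp only [hb', Fin.snoc_castSucc, Fin.snoc_last]
      abel
    rw [h6]
    apply HD.neg_mem
    have h7 := hClEven s (Pi.single ((c : ℕ) : ZMod s) 1) (Pi.single_eq_of_ne (Ne.symm hcne) 1) (by
      intro x
      by_cases hx : x = ((c : ℕ) : ZMod s)
      · rw [hx, hneg]
      · rw [Pi.single_eq_of_ne hx, Pi.single_eq_of_ne]
        intro hx'
        apply hx
        rw [← neg_neg x, hx', hneg])
    have h8 : cl (Pi.single ((c : ℕ) : ZMod s) (1 : ℤ)) =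
        Finsupp.single (ZMod.toAddCircle (((c : ℕ) : ZMod s))) (1 : ℤ) := by
      unfold cl
      rw [Finset.sum_eq_single ((c : ℕ) : ZMod s)]
      · rw [Pi.single_eq_same]
      · intro x _ hx
        rw [Pi.single_eq_of_ne hx, Finsupp.single_zero]
      · intro h; exact absurd (mem_univ _) h
    rw [h8] at h7
    exact h7

end Pool.Agent.FO
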