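import Pool.Agent.Lib.MP_640417_ag.FO.SpecR
import Pool.Agent.Lib.MP_640417_ag.FO.Half
import Pool.Agent.Lib.MP_640417_ag.FT.Spec

/-!
# Theorem FermatDegrees from its parts F3P, FO, FR
-/

set_option autoImplicit false

open Finset Pool.Agent.FC

namespace Pool.Agent.FO

theorem fin (hSzBas : S_SzBas) (hClEven : S_ClEven) (hBrg : S_Brg) (hFO : S_FO) (hFR : S_FR)
    (hEndT : Pool.Agent.FT.S_EndT) (m N s : ℕ) [NeZero m] [NeZero s] (a : Fin N → ZMod m) (ha : IsTate m a)
    (hs : s ∣ m) (hq : ∀ q : ℕ, q.Prime → q ∣ m / s → 6 * N + 1 < q) :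
    (∃ (n : ℕ) (b : Fin n → ZMod s), n ≤ N ∧ IsTate s b ∧ clt a - clt b ∈ HD) ∧
    (CondF s N → clt a ∈ HD) ∧ (Pool.Agent.FT.Deg s → clt a ∈ Pool.Agent.FT.GG) := by
  obtain ⟨h1, h2, h3⟩ := hBrg m N a ha
  obtain ⟨n, b, hn, hb0, hbS, hb⟩ := hFR s m N (Fin N) a hs hq (by simp) h1 h3
  rw [Fintype.card_fin] at hn
  have hN : Even N := by
    have := even_of_sum m a h1 h2 h3
    rwa [Fintype.card_fin] at this
  refine ⟨?_, ?_, ?_⟩
  · obtain ⟨n', b', hn', hb', hbb⟩ := half hSzBas hClEven s n b hb0 hbS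
    refine ⟨n', b', ?_, hb', ?_⟩
    · rcases hn' with rfl | ⟨hodd, rfl⟩
      · exact hn
      · rcases hN with ⟨k, hk⟩
        rcases hodd with ⟨j, hj⟩
        omega
    · have : clt a - clt b' = (clt a - clt b) + (clt b - clt b') := by abel
      rw [this]
      exact HD.add_mem hb hbb
  · intro hc
    have h4 := hFO s N (Fin n) b (by simpa using hn) hb0 hbS hc
    have : clt a = (clt a - clt b) + clt b := by abel
    rw [this]
    exact HD.add_mem hb h4
  · intro hd
    have hs0 : 0 < s := Nat.pos_of_ne_zero (NeZero.ne s)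
    have hsm : ∀ (k : ℕ) (x : ZMod s), k • (ZMod.toAddCircle x : UnitAddCircle) =
        ZMod.toAddCircle ((k : ZMod s) * x) := by
      intro k x
      rw [← map_nsmul, nsmul_eq_mul]
    have hne : ∀ i, (ZMod.toAddCircle (b i) : UnitAddCircle) ≠ 0 := by
      intro i h0
      exact hb0 i ((ZMod.toAddCircle_inj (j := b i) (k := 0)).1 (by rw [h0, map_zero]))
    have hK : ∀ i ∈ (univ : Finset (Fin n)), (ZMod.toAddCircle (b i) : UnitAddCircle) ∈ Pool.Agent.FT.Kz s := by
      intro i _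
      refine ⟨?_, hne i⟩
      rw [hsm]
      simp
    obtain ⟨n', b', hn', hb', hbb⟩ := half hSzBas hClEven s n b hb0 hbS
    have hK' : ∀ i ∈ (univ : Finset (Fin n')), (ZMod.toAddCircle (b' i) : UnitAddCircle) ∈ Pool.Agent.FT.Kz s := by
      intro i _
      refine ⟨?_, ?_⟩
      · rw [hsm]
        simp
      · intro h0
        exact hb'.1 i ((ZMod.toAddCircle_inj (j := b' i) (k := 0)).1 (by rw [h0, map_zero]))
    have hR := ((Pool.Agent.FC.final.1 s n' b').1 hb').2.2
    have h5 := hEndT s hs0 hd (Fin n') univ (fun i => (ZMod.toAddCircle (b' i) : UnitAddCircle)) hK' hR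
    have h6 : clt a = (clt a - clt b) + (clt b - clt b') + clt b' := by abel
    rw [h6]
    exact add_mem (add_mem (Pool.Agent.FT.HD_le_GG hb) (Pool.Agent.FT.HD_le_GG hbb)) h5

end Pool.Agent.FO
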