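import Pool.Agent.Lib.MP_640417_ag.FO.Main

/-!
# FermatDegrees: the form with bounded exponents
-/

set_option autoImplicit false

open Finset Pool.Agent.FC

namespace Pool.Agent.FO

theorem smul_toAddCircle {g : ℕ} [NeZero g] (k : ℕ) (x : ZMod g) :
    k • (ZMod.toAddCircle x : UnitAddCircle) = ZMod.toAddCircle ((k : ZMod g) * x) := by
  rw [← map_nsmul, nsmul_eq_mul]

theorem addOrderOf_toAddCircle_dvd {g : ℕ} [NeZero g] (x : ZMod g) :
    addOrderOf (ZMod.toAddCircle x : UnitAddCircle) ∣ g := by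
  rw [addOrderOf_dvd_iff_nsmul_eq_zero, smul_toAddCircle]
  simp

theorem toAddCircle_ne_zero {g : ℕ} [NeZero g] {x : ZMod g} (hx : x ≠ 0) :
    (ZMod.toAddCircle x : UnitAddCircle) ≠ 0 := by
  intro h0
  exact hx ((ZMod.toAddCircle_inj (j := x) (k := 0)).1 (by rw [h0, map_zero]))

/-- Stickelberger's relation for the points of the circle gives the relation `St`. -/
theorem St_of_RelOn {g : ℕ} [NeZero g] {ι : Type} [Fintype ι] (y : ι → ZMod g) (h1 : ∀ i, y i ≠ 0)
    (h : RelOn univ (fun i => (ZMod.toAddCircle (y i) : UnitAddCircle))) : St y := by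
  intro t
  have hcop : ∀ i ∈ (univ : Finset ι),
      (t : ZMod g).val.Coprime (addOrderOf (ZMod.toAddCircle (y i) : UnitAddCircle)) := by
    intro i _
    exact Nat.Coprime.coprime_dvd_right (addOrderOf_toAddCircle_dvd _) (ZMod.val_coe_unit_coprime t)
  have h4 := h (t : ZMod g).val hcop
  have h5 : ∀ i : ι, sw ((t : ZMod g).val • (ZMod.toAddCircle (y i) : UnitAddCircle)) =
      ((sz ((t : ZMod g) * y i) : ℚ) : ℝ) := by
    intro i
    rw [smul_toAddCircle, ZMod.natCast_zmod_val]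
    refine ((hSzBas g _).2.2 ?_).symm
    intro h0
    exact h1 i (t.isUnit.mul_right_eq_zero.1 h0)
  rw [Finset.sum_congr rfl fun i _ => h5 i] at h4
  exact_mod_cast h4

/-- The relation `St` gives Stickelberger's relation for the points of the circle. -/
theorem RelOn_of_St {m : ℕ} [NeZero m] {ι : Type} [Fintype ι] (a : ι → ZMod m) (h1 : ∀ i, a i ≠ 0)
    (h3 : St a) : RelOn univ (fun i => (ZMod.toAddCircle (a i) : UnitAddCircle)) := by
  intro t ht
  have hm : 0 < m := Nat.pos_of_ne_zero (NeZero.ne m)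
  set L := (univ : Finset ι).lcm (fun i => addOrderOf (ZMod.toAddCircle (a i) : UnitAddCircle)) with hL
  have hLm : L ∣ m := Finset.lcm_dvd fun i _ => addOrderOf_toAddCircle_dvd _
  have hL0 : 0 < L := Nat.pos_of_dvd_of_pos hLm hm
  have htL : t.Coprime L := by
    have : L ∣ ∏ i, addOrderOf (ZMod.toAddCircle (a i) : UnitAddCircle) :=
      Finset.lcm_dvd fun i _ => Finset.dvd_prod_of_mem _ (mem_univ i)
    exact Nat.Coprime.coprime_dvd_right this (Nat.Coprime.prod_right fun i hi => ht i hi)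
  obtain ⟨t', ht1, ht2⟩ := tCop L m t hL0 hm htL
  have ht3 : t'.Coprime m := Nat.Coprime.coprime_mul_left_right ht2
  have h4 := h3 (ZMod.unitOfCoprime t' ht3)
  have h5 : ∀ i : ι, sw (t • (ZMod.toAddCircle (a i) : UnitAddCircle)) =
      ((sz (((ZMod.unitOfCoprime t' ht3 : (ZMod m)ˣ) : ZMod m) * a i) : ℚ) : ℝ) := by
    intro i
    have h6 : t • (ZMod.toAddCircle (a i) : UnitAddCircle) = t' • (ZMod.toAddCircle (a i) : UnitAddCircle) := by
      rw [nsmul_eq_nsmul_iff_modEq]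
      have h7 : addOrderOf (ZMod.toAddCircle (a i) : UnitAddCircle) ∣ L :=
        Finset.dvd_lcm (f := fun i => addOrderOf (ZMod.toAddCircle (a i) : UnitAddCircle)) (mem_univ i)
      exact ht1.symm.of_dvd h7
    rw [h6, smul_toAddCircle, ZMod.coe_unitOfCoprime]
    refine ((hSzBas m _).2.2 ?_).symm
    intro h0
    have hu : IsUnit ((t' : ℕ) : ZMod m) := (ZMod.isUnit_iff_coprime t' m).2 ht3
    exact h1 i (hu.mul_right_eq_zero.1 h0)
  rw [Finset.sum_congr rfl fun i _ => h5 i]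
  exact_mod_cast h4

/-- The points killed by `g` are those of level `g`. -/
theorem exists_toAddCircle {g : ℕ} [NeZero g] {x : UnitAddCircle} (hx : g • x = 0) :
    ∃ y : ZMod g, (ZMod.toAddCircle y : UnitAddCircle) = x := by
  have hg : 0 < g := Nat.pos_of_ne_zero (NeZero.ne g)
  obtain ⟨k, -, hk⟩ := (Pool.Agent.FT.hPt.1 g x hg).1 hx
  refine ⟨(k : ZMod g), ?_⟩
  rw [hk, ZMod.toAddCircle_natCast]
  rfl

theorem pow_dvd_lcm {p k : ℕ} (hp : p.Prime) (hk : 0 < k) (S : Finset ℕ) (hS : 0 ∉ S) (h : p ^ k ∣ S.lcm id) :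
    ∃ j ∈ S, p ^ k ∣ j := by
  classical
  induction S using Finset.induction_on with
  | empty =>
    rw [Finset.lcm_empty] at h
    have h1 := Nat.le_of_dvd Nat.one_pos h
    have h2 := Nat.one_lt_pow hk.ne' hp.one_lt
    omega
  | insert a S ha ih =>
    rw [Finset.lcm_insert, id] at h
    have ha0 : a ≠ 0 := fun h0 => hS (h0 ▸ mem_insert_self a S)
    have hS0 : 0 ∉ S := fun h0 => hS (mem_insert_of_mem h0)
    have hl0 : S.lcm id ≠ 0 := by
      intro h0
      rw [Finset.lcm_eq_zero_iff] at h0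
      obtain ⟨x, hx, hx0⟩ := h0
      exact hS0 (by simpa using hx0 ▸ hx)
    have h3 : k ≤ (Nat.lcm a (S.lcm id)).factorization p :=
      (hp.pow_dvd_iff_le_factorization (Nat.lcm_ne_zero ha0 hl0)).1 h
    rw [Nat.factorization_lcm ha0 hl0, Finsupp.sup_apply] at h3
    rcases le_sup_iff.1 h3 with h4 | h4
    · exact ⟨a, mem_insert_self a S, (hp.pow_dvd_iff_le_factorization ha0).2 h4⟩
    · obtain ⟨j, hj, hjd⟩ := ih hS0 ((hp.pow_dvd_iff_le_factorization hl0).2 h4)
      exact ⟨j, mem_insert_of_mem hj, hjd⟩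

theorem pow_le_of_dvd_MM {p k N : ℕ} (hp : p.Prime) (hk : 0 < k) (h : p ^ k ∣ MM N) :
    p ^ k ≤ (32 * N) ^ (2 * N) := by
  obtain ⟨j, hj, hjd⟩ := pow_dvd_lcm hp hk (Icc 1 ((32 * N) ^ (2 * N))) (by simp) h
  rw [mem_Icc] at hj
  exact (Nat.le_of_dvd (by omega) hjd).trans hj.2

/-- **Levels.** Every Tate character of length `N` and level `m` is, modulo `HD`, a relation of level
`gcd m (MM N)`, of length at most `N`. -/
theorem level_gcd (m N : ℕ) [NeZero m] [NeZero (m.gcd (MM N))] (a : Fin N → ZMod m) (ha : IsTate m a) :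
    ∃ (ι : Type) (_ : Fintype ι) (y : ι → ZMod (m.gcd (MM N))), Fintype.card ι ≤ N ∧ (∀ i, y i ≠ 0) ∧ St y ∧
      clt a - clt y ∈ HD := by
  classical
  obtain ⟨ha0, -, -⟩ := (Pool.Agent.FC.final.1 m N a).1 ha
  obtain ⟨b, u, c, hM, hrel, hblk⟩ := Pool.Agent.FC.final.2.2.1 m N a ha
  set g := m.gcd (MM N) with hg
  have hkill : ∀ i : {i // b i = none}, g • (ZMod.toAddCircle (a i.1) : UnitAddCircle) = 0 := by
    rintro ⟨i, hi⟩
    have h1 : m • (ZMod.toAddCircle (a i) : UnitAddCircle) = 0 := by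
      rw [smul_toAddCircle]; simp
    have h2 := hM i hi
    rw [← addOrderOf_dvd_iff_nsmul_eq_zero] at h1 h2 ⊢
    exact Nat.dvd_gcd h1 h2
  choose y hy using fun i => exists_toAddCircle (hkill i)
  have hy0 : ∀ i, y i ≠ 0 := by
    intro i h0
    have h1 := hy i
    rw [h0, map_zero] at h1
    exact toAddCircle_ne_zero (ha0 i.1) h1.symm
  refine ⟨{i // b i = none}, inferInstance, y, ?_, hy0, ?_, ?_⟩
  · calc Fintype.card {i // b i = none} ≤ Fintype.card (Fin N) := Fintype.card_subtype_le _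
      _ = N := Fintype.card_fin N
  · refine St_of_RelOn y hy0 ?_
    intro t ht
    have h1 := hrel t (by
      intro i hi
      have hi' : b i = none := by simpa using hi
      have h2 : t.Coprime (addOrderOf (ZMod.toAddCircle (y ⟨i, hi'⟩) : UnitAddCircle)) :=
        ht ⟨i, hi'⟩ (mem_univ _)
      rw [hy] at h2
      exact h2)
    rw [← h1]
    have h3 : ∀ i : {i // b i = none}, sw (t • (ZMod.toAddCircle (y i) : UnitAddCircle)) =
        sw (t • (ZMod.toAddCircle (a i.1) : UnitAddCircle)) := by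
      intro i
      rw [hy]
    rw [Finset.sum_congr rfl fun i _ => h3 i]
    rw [Finset.sum_subtype (univ.filter fun i => b i = none) (p := fun i => b i = none) (by simp)
      (fun i => sw (t • (ZMod.toAddCircle (a i) : UnitAddCircle)))]
  · have h1 : clt a = ∑ o : Option (Fin N), ∑ i ∈ univ.filter (fun i => b i = o),
        Finsupp.single (ZMod.toAddCircle (a i) : UnitAddCircle) (1 : ℤ) := by
      unfold clt
      rw [Finset.sum_fiberwise]
    have h2 : clt y = ∑ i ∈ univ.filter (fun i => b i = none),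
        Finsupp.single (ZMod.toAddCircle (a i) : UnitAddCircle) (1 : ℤ) := by
      unfold clt
      rw [Finset.sum_subtype (univ.filter fun i => b i = none) (p := fun i => b i = none) (by simp)
        (fun i => Finsupp.single (ZMod.toAddCircle (a i) : UnitAddCircle) (1 : ℤ))]
      exact Finset.sum_congr rfl fun i _ => by rw [hy]
    rw [h1, Fintype.sum_option, h2, add_sub_cancel_left]
    refine HD.sum_mem fun β _ => ?_
    obtain ⟨hu, -, -, ⟨w, hw, hx⟩, hfam⟩ := hblk β
    have h3 := (hfam w hw (by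
      intro i hi
      rw [← hx i hi]
      exact toAddCircle_ne_zero (ha0 i))).2
    rw [Finset.sum_congr rfl fun i hi => by rw [← hx i hi]] at h3
    exact h3

/-- Raising the level. -/
theorem raise {s' s : ℕ} [NeZero s'] [NeZero s] (h : s' ∣ s) {ι : Type} [Fintype ι] (b : ι → ZMod s')
    (h1 : ∀ i, b i ≠ 0) (h3 : St b) :
    ∃ b' : ι → ZMod s, (∀ i, b' i ≠ 0) ∧ St b' ∧ clt b' = clt b := by
  have hk : ∀ i, s • (ZMod.toAddCircle (b i) : UnitAddCircle) = 0 := by
    intro i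
    have h2 : s' • (ZMod.toAddCircle (b i) : UnitAddCircle) = 0 := by rw [smul_toAddCircle]; simp
    rw [← addOrderOf_dvd_iff_nsmul_eq_zero] at h2 ⊢
    exact h2.trans h
  choose b' hb' using fun i => exists_toAddCircle (hk i)
  have h0 : ∀ i, b' i ≠ 0 := by
    intro i h0
    have h2 := hb' i
    rw [h0, map_zero] at h2
    exact toAddCircle_ne_zero (h1 i) h2.symm
  refine ⟨b', h0, ?_, ?_⟩
  · refine St_of_RelOn b' h0 ?_
    have h4 := RelOn_of_St b h1 h3
    have h5 : (fun i => (ZMod.toAddCircle (b' i) : UnitAddCircle)) = fun i => (ZMod.toAddCircle (b i) : UnitAddCircle) :=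
      funext hb'
    rw [h5]
    exact h4
  · unfold clt
    exact Finset.sum_congr rfl fun i _ => by rw [hb']

/-- **Levels, second form.** -/
theorem level (m N s : ℕ) [NeZero m] [NeZero s] (a : Fin N → ZMod m) (ha : IsTate m a)
    (hp : ∀ p k : ℕ, p.Prime → p ≤ 6 * N + 1 → p ^ k ≤ (32 * N) ^ (2 * N) → p ^ k ∣ m → p ^ k ∣ s) :
    ∃ (n : ℕ) (b : Fin n → ZMod s), n ≤ N ∧ (∀ i, b i ≠ 0) ∧ St b ∧ clt a - clt b ∈ HD := by
  have hm0 : m ≠ 0 := NeZero.ne m
  have hs0 : s ≠ 0 := NeZero.ne s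
  have hg0 : m.gcd (MM N) ≠ 0 := fun h => hm0 (Nat.eq_zero_of_gcd_eq_zero_left h)
  have : NeZero (m.gcd (MM N)) := ⟨hg0⟩
  obtain ⟨ι, _, y, hyN, hy0, hySt, hy⟩ := level_gcd m N a ha
  have hs'0 : (m.gcd (MM N)).gcd s ≠ 0 := fun h => hg0 (Nat.eq_zero_of_gcd_eq_zero_left h)
  have : NeZero ((m.gcd (MM N)).gcd s) := ⟨hs'0⟩
  obtain ⟨n, b, hn, hb0, hbSt, hb⟩ := hFR ((m.gcd (MM N)).gcd s) (m.gcd (MM N)) N ι y (Nat.gcd_dvd_left _ _) (by
      intro q hq hqd
      by_contra hlt
      push Not at hlt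
      -- the power of `q` in `g` divides `s`
      set g := m.gcd (MM N) with hg
      set k := g.factorization q with hk
      have hqg : q ∣ g := hqd.trans (Nat.div_dvd_of_dvd (Nat.gcd_dvd_left _ _))
      have hk0 : 0 < k := hq.factorization_pos_of_dvd hg0 hqg
      have hkg : q ^ k ∣ g := Nat.ordProj_dvd g q
      have hkm : q ^ k ∣ m := hkg.trans (Nat.gcd_dvd_left _ _)
      have hkM : q ^ k ∣ MM N := hkg.trans (Nat.gcd_dvd_right _ _)
      have hks : q ^ k ∣ s := hp q k hq hlt (pow_le_of_dvd_MM hq hk0 hkM) hkm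
      have hkgs : q ^ k ∣ g.gcd s := Nat.dvd_gcd hkg hks
      have h1 : q ^ (k + 1) ∣ g := by
        have h2 : g = g.gcd s * (g / g.gcd s) := (Nat.mul_div_cancel' (Nat.gcd_dvd_left _ _)).symm
        rw [h2, pow_succ]
        exact Nat.mul_dvd_mul hkgs hqd
      have h3 : k + 1 ≤ g.factorization q := (hq.pow_dvd_iff_le_factorization hg0).1 h1
      omega) hyN hy0 hySt
  obtain ⟨b', hb'0, hb'St, hb'⟩ := raise (Nat.gcd_dvd_right (m.gcd (MM N)) s) b hb0 hbSt
  refine ⟨n, b', hn.trans hyN, hb'0, hb'St, ?_⟩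
  have h1 : clt a - clt b' = (clt a - clt y) + (clt y - clt b) := by rw [hb']; abel
  rw [h1]
  exact HD.add_mem hy hb

/-- **THEOREM FermatDegrees.** -/
theorem main2 (m N s : ℕ) [NeZero m] [NeZero s] (a : Fin N → ZMod m) (ha : IsTate m a)
    (hp : ∀ p k : ℕ, p.Prime → p ≤ 6 * N + 1 → p ^ k ≤ (32 * N) ^ (2 * N) → p ^ k ∣ m → p ^ k ∣ s) :
    (∃ (n : ℕ) (b : Fin n → ZMod s), n ≤ N ∧ IsTate s b ∧ clt a - clt b ∈ HD) ∧
    (CondF s N → clt a ∈ HD) ∧ (Pool.Agent.FT.Deg s → clt a ∈ Pool.Agent.FT.GG) := by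
  obtain ⟨h1, h2, h3⟩ := pBrg hSzBas m N a ha
  obtain ⟨n, b, hn, hb0, hbS, hb⟩ := level m N s a ha hp
  have hN : Even N := by
    have := even_of_sum m a h1 h2 h3
    rwa [Fintype.card_fin] at this
  refine ⟨?_, ?_, ?_⟩
  · obtain ⟨n', b', hn', hb', hbb⟩ := half hSzBas pClEven s n b hb0 hbS
    refine ⟨n', b', ?_, hb', ?_⟩
    · rcases hn' with rfl | ⟨hodd, rfl⟩
      · exact hn
      · rcases hN with ⟨k, hk⟩
        rcases hodd with ⟨j, hj⟩
        omega
    · have : clt a - clt b' = (clt a - clt b) + (clt b - clt b') := by abel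
      rw [this]
      exact HD.add_mem hb hbb
  · intro hc
    have h4 := hFO s N (Fin n) b (by simpa using hn) hb0 hbS hc
    have : clt a = (clt a - clt b) + clt b := by abel
    rw [this]
    exact HD.add_mem hb h4
  · intro hd
    have hs0 : 0 < s := Nat.pos_of_ne_zero (NeZero.ne s)
    have hK : ∀ i ∈ (univ : Finset (Fin n)), (ZMod.toAddCircle (b i) : UnitAddCircle) ∈ Pool.Agent.FT.Kz s := by
      intro i _
      refine ⟨?_, toAddCircle_ne_zero (hb0 i)⟩
      rw [smul_toAddCircle]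
      simp
    have h5 := Pool.Agent.FT.hEndT s hs0 hd (Fin n) univ (fun i => (ZMod.toAddCircle (b i) : UnitAddCircle)) hK
      (RelOn_of_St b hb0 hbS)
    have h6 : clt a = (clt a - clt b) + clt b := by abel
    rw [h6]
    exact add_mem (Pool.Agent.FT.HD_le_GG hb) h5

end Pool.Agent.FO
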