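import Pool.Agent.Lib.MP_640417_ag.FO.SpecL

/-!
# Theorem FO: functions with vanishing primitive Fourier coefficients
-/

set_option autoImplicit false

noncomputable section

namespace Pool.Agent.FO

open Finset Pool.Agent.FC

namespace FouAux

variable {d : ℕ} [NeZero d]

/-- Fourier coefficients. -/
def hat (F : (ZMod d)ˣ → ℤ) (χ : DirichletCharacter ℂ d) : ℂ :=
  ∑ u : (ZMod d)ˣ, (F u : ℂ) * χ ((u⁻¹ : (ZMod d)ˣ) : ZMod d)

theorem mem_sK {G : Type} [Group G] [Fintype G] (K : Subgroup G) (k : G) : k ∈ sK K ↔ k ∈ K := by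
  unfold sK
  simp

theorem hat_T (K : Subgroup (ZMod d)ˣ) (F : (ZMod d)ˣ → ℤ) (χ : DirichletCharacter ℂ d) :
    hat (T K F) χ = (((sK K).card : ℂ) - ∑ k ∈ sK K, χ (k : ZMod d)) * hat F χ := by
  have h1 : ∀ k : (ZMod d)ˣ, ∑ u : (ZMod d)ˣ, (F (k * u) : ℂ) * χ ((u⁻¹ : (ZMod d)ˣ) : ZMod d) =
      χ (k : ZMod d) * hat F χ := by
    intro k
    unfold hat
    rw [Finset.mul_sum]
    refine Fintype.sum_equiv (Equiv.mulLeft k) _ _ fun u => ?_
    rw [Equiv.coe_mulLeft]
    have h2 : χ ((u⁻¹ : (ZMod d)ˣ) : ZMod d) =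
        χ (k : ZMod d) * χ (((k * u)⁻¹ : (ZMod d)ˣ) : ZMod d) := by
      rw [← map_mul, ← Units.val_mul]
      congr 2
      rw [mul_inv_rev, mul_comm, inv_mul_cancel_right]
    rw [h2]
    show (F (k * u) : ℂ) * _ = χ (k : ZMod d) * ((F (k * u) : ℂ) * _)
    ring
  have h3 : hat (T K F) χ = ((sK K).card : ℂ) * hat F χ -
      ∑ k ∈ sK K, ∑ u : (ZMod d)ˣ, (F (k * u) : ℂ) * χ ((u⁻¹ : (ZMod d)ˣ) : ZMod d) := by
    rw [Finset.sum_comm]
    unfold hat T
    rw [Finset.mul_sum, ← Finset.sum_sub_distrib]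
    refine Finset.sum_congr rfl fun u _ => ?_
    rw [← Finset.sum_mul]
    push_cast
    ring
  rw [h3, Finset.sum_congr rfl fun k _ => h1 k, ← Finset.sum_mul, sub_mul]

theorem hat_Tl_zero (K : ℕ → Subgroup (ZMod d)ˣ) (χ : DirichletCharacter ℂ d) :
    ∀ (l : List ℕ) (F : (ZMod d)ˣ → ℤ), hat F χ = 0 → hat (Tl K l F) χ = 0 := by
  intro l
  induction l with
  | nil => exact fun F h => h
  | cons i l ih =>
    intro F h
    refine ih (T (K i) F) ?_
    rw [hat_T, h, mul_zero]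

theorem hat_Tl (K : ℕ → Subgroup (ZMod d)ˣ) (χ : DirichletCharacter ℂ d) :
    ∀ (l : List ℕ) (F : (ZMod d)ˣ → ℤ), (∃ i ∈ l, ∀ k ∈ K i, χ (k : ZMod d) = 1) →
      hat (Tl K l F) χ = 0 := by
  intro l
  induction l with
  | nil =>
    rintro F ⟨i, hi, -⟩
    exact absurd hi List.not_mem_nil
  | cons i l ih =>
    rintro F ⟨j, hj, hk⟩
    rcases List.mem_cons.1 hj with rfl | hj
    · refine hat_Tl_zero K χ l (T (K j) F) ?_
      rw [hat_T, Finset.sum_congr rfl fun k hk' => hk k ((mem_sK _ _).1 hk'), Finset.sum_const,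
        nsmul_eq_mul, mul_one, sub_self, zero_mul]
    · exact ih (T (K i) F) ⟨j, hj, hk⟩

/-- Characters which are not primitive. -/
theorem exists_p (χ : DirichletCharacter ℂ d) (hχ : ¬ χ.IsPrimitive) :
    ∃ p ∈ d.primeFactors, ∀ k ∈ Kp d p, χ (k : ZMod d) = 1 := by
  have hd0 : d ≠ 0 := NeZero.ne d
  obtain ⟨e, he⟩ : χ.conductor ∣ d := χ.conductor_dvd_level
  have he1 : e ≠ 1 := by
    rintro rfl
    rw [mul_one] at he
    exact hχ ((DirichletCharacter.isPrimitive_def χ).2 he.symm)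
  obtain ⟨p, hp, q, hq⟩ := Nat.exists_prime_and_dvd he1
  have hpd : p ∣ d := by
    rw [he, hq]
    exact Dvd.dvd.mul_left (Dvd.intro q rfl) _
  have hdp : d / p = χ.conductor * q := by
    refine Nat.div_eq_of_eq_mul_right hp.pos ?_
    rw [← mul_assoc, mul_comm p, mul_assoc, ← hq]
    exact he
  refine ⟨p, Nat.mem_primeFactors.2 ⟨hp, hpd, hd0⟩, fun k hk => ?_⟩
  have h1 : χ.FactorsThrough (d / p) :=
    DirichletCharacter.FactorsThrough.mono χ (DirichletCharacter.factorsThrough_conductor χ)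
      (Dvd.intro q hdp.symm) (Nat.div_dvd_of_dvd hpd)
  rw [DirichletCharacter.factorsThrough_iff_ker_unitsMap (Nat.div_dvd_of_dvd hpd)] at h1
  have h2 : k ∈ (ZMod.unitsMap (Nat.div_dvd_of_dvd hpd)).ker := by
    unfold Kp at hk
    rw [dif_pos hpd] at hk
    exact hk
  have h3 := h1 h2
  rw [MonoidHom.mem_ker] at h3
  have h4 := congrArg (fun v : ℂˣ => (v : ℂ)) h3
  rw [MulChar.coe_toUnitHom, Units.val_one] at h4
  exact h4

/-- A function is zero if its Fourier coefficients are. -/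
theorem eq_zero (F : (ZMod d)ˣ → ℤ) (h : ∀ χ : DirichletCharacter ℂ d, hat F χ = 0) : F = 0 := by
  funext a
  have h1 : ∑ χ : DirichletCharacter ℂ d, χ (a : ZMod d) * hat F χ = (d.totient : ℂ) * F a := by
    unfold hat
    rw [Finset.sum_congr rfl fun χ _ => Finset.mul_sum _ _ _, Finset.sum_comm]
    rw [Finset.sum_eq_single a]
    · have h2 := DirichletCharacter.sum_char_inv_mul_char_eq ℂ (a := (a : ZMod d)) a.isUnit
        (a : ZMod d)
      rw [if_pos rfl] at h2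
      rw [← h2, Finset.sum_mul]
      refine Finset.sum_congr rfl fun χ _ => ?_
      rw [ZMod.inv_coe_unit]
      ring
    · intro u _ hua
      have h2 := DirichletCharacter.sum_char_inv_mul_char_eq ℂ (a := (u : ZMod d)) u.isUnit
        (a : ZMod d)
      rw [if_neg (fun h => hua (Units.ext h))] at h2
      rw [Finset.sum_congr rfl (g := fun χ : DirichletCharacter ℂ d => (F u : ℂ) *
        (χ (u : ZMod d)⁻¹ * χ (a : ZMod d))), ← Finset.mul_sum, h2, mul_zero]
      intro χ _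
      rw [ZMod.inv_coe_unit]
      ring
    · intro ha
      exact absurd (Finset.mem_univ a) ha
  rw [Finset.sum_eq_zero fun χ _ => by rw [h χ, mul_zero]] at h1
  have hd : (d.totient : ℂ) ≠ 0 := by
    exact_mod_cast (Nat.totient_pos.2 (Nat.pos_of_ne_zero (NeZero.ne d))).ne'
  have h3 := (mul_eq_zero.1 h1.symm).resolve_left hd
  exact_mod_cast h3

end FouAux

theorem pFou (hTBas : S_TBas) : S_Fou := by
  intro d _ F hF l hl
  have _ := hTBas
  refine FouAux.eq_zero _ fun χ => ?_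
  by_cases hχ : χ.IsPrimitive
  · exact FouAux.hat_Tl_zero _ χ l F (hF χ hχ)
  · obtain ⟨p, hp, hk⟩ := FouAux.exists_p χ hχ
    exact FouAux.hat_Tl _ χ l F ⟨p, (hl p).2 hp, hk⟩

end Pool.Agent.FO
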