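import Pool.Agent.Lib.MP_640417_ag.FO.SpecH

/-!
# Theorem FG, part H: the five tuples of odd level
-/

set_option autoImplicit false

noncomputable section

open Finset Pool.Agent.FC

namespace Pool.Agent.FO

namespace GamAux

/-- the tuple `(m / M) k_i` -/
private def aa (m M : ℕ) (ks : List ℕ) (i : Fin ks.length) : ZMod m :=
  ((m / M * ks.get i : ℕ) : ZMod m)

section

variable {m M : ℕ} [NeZero m] [NeZero M]

omit [NeZero m] [NeZero M] in
private theorem val_mul (hM : M ∣ m) (j : ℕ) : (((m / M * j : ℕ)) : ZMod m).val = m / M * (j % M) := by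
  rw [ZMod.val_natCast]
  have h1 : m / M * M = m := Nat.div_mul_cancel hM
  calc m / M * j % m = m / M * j % (m / M * M) := by rw [h1]
    _ = m / M * (j % M) := Nat.mul_mod_mul_left _ _ _

private theorem div_pos' (hM : M ∣ m) : 0 < m / M :=
  Nat.div_pos (Nat.le_of_dvd (Nat.pos_of_ne_zero (NeZero.ne m)) hM) (Nat.pos_of_ne_zero (NeZero.ne M))

private theorem eq_iff (hM : M ∣ m) (j j' : ℕ) :
    ((m / M * j : ℕ) : ZMod m) = ((m / M * j' : ℕ) : ZMod m) ↔ j % M = j' % M := by
  constructor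
  · intro h
    have h1 := congrArg ZMod.val h
    rw [val_mul hM, val_mul hM] at h1
    exact Nat.eq_of_mul_eq_mul_left (div_pos' hM) h1
  · intro h
    apply ZMod.val_injective
    rw [val_mul hM, val_mul hM, h]

private theorem eq_zero_iff (hM : M ∣ m) (j : ℕ) : ((m / M * j : ℕ) : ZMod m) = 0 ↔ j % M = 0 := by
  have h := eq_iff hM j 0
  rw [Nat.mul_zero, Nat.cast_zero, Nat.zero_mod] at h
  exact h

private theorem sz_mul (hM : M ∣ m) (j : ℕ) (hj : j % M ≠ 0) :
    sz ((m / M * j : ℕ) : ZMod m) = ((j % M : ℕ) : ℚ) / M - 1 / 2 := by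
  unfold sz
  rw [if_neg (fun h => hj ((eq_zero_iff hM j).1 h)), val_mul hM]
  have h1 : ((m / M : ℕ) : ℚ) ≠ 0 := by exact_mod_cast (div_pos' hM).ne'
  have h2 : (M : ℚ) ≠ 0 := by exact_mod_cast NeZero.ne M
  have h3 : (m : ℚ) = (m / M : ℕ) * M := by
    rw [← Nat.cast_mul, Nat.div_mul_cancel hM]
  rw [h3]
  push_cast
  field_simp

private theorem cnt_aa (hM : M ∣ m) (ks : List ℕ) (hlt : ∀ k ∈ ks, 0 < k ∧ k < M) (w : ℕ) (hw : w < M) :
    cnt (aa m M ks) ((m / M * w : ℕ) : ZMod m) =
      ((univ.filter (fun i : Fin ks.length => ks.get i = w)).card : ℤ) := by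
  unfold cnt
  congr 2
  ext i
  simp only [mem_filter, mem_univ, true_and]
  unfold aa
  rw [eq_iff hM, Nat.mod_eq_of_lt hw, Nat.mod_eq_of_lt (hlt _ (List.get_mem _ _)).2]

omit [NeZero m] [NeZero M] in
private theorem neg_mul' (hM : M ∣ m) (v : ℕ) (hv : v ≤ M) :
    -((m / M * v : ℕ) : ZMod m) = ((m / M * (M - v) : ℕ) : ZMod m) := by
  rw [neg_eq_iff_add_eq_zero, ← Nat.cast_add, ← Nat.mul_add, Nat.add_sub_cancel' hv,
    Nat.div_mul_cancel hM, ZMod.natCast_self]

private theorem sum_get {A : Type*} [AddCommMonoid A] (l : List ℕ) (f : ℕ → A) :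
    ∑ i : Fin l.length, f (l.get i) = (l.map f).sum := by
  simp

private theorem sum_zero (ks : List ℕ) (t : ℕ)
    (hs : 2 * (ks.map fun k => t * k % M).sum = M * ks.length) :
    ∑ i : Fin ks.length, (((t * ks.get i % M : ℕ) : ℚ) / M - 1 / 2) = 0 := by
  have h2 : (M : ℚ) ≠ 0 := by exact_mod_cast NeZero.ne M
  have h3 : ∑ i : Fin ks.length, (t * ks.get i % M) = (ks.map fun k => t * k % M).sum := by
    rw [sum_get ks (fun k => t * k % M)]
  rw [Finset.sum_sub_distrib, ← Finset.sum_div, ← Nat.cast_sum, h3]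
  have h4 : (2 : ℚ) * ((ks.map fun k => t * k % M).sum : ℕ) = M * ks.length := by exact_mod_cast hs
  simp only [Finset.sum_const, Finset.card_univ, Fintype.card_fin, nsmul_eq_mul]
  field_simp
  linarith

end

private theorem kp1 (d p : ℕ) [NeZero d] (hp : p ∣ d) (e : (ZMod d)ˣ) (he : e ∈ Kp d p) :
    (e : ZMod d).val % (d / p) = 1 % (d / p) := by
  unfold Kp at he
  rw [dif_pos hp] at he
  have h1 := congrArg (fun u : (ZMod (d / p))ˣ => (u : ZMod (d / p))) (MonoidHom.mem_ker.1 he)
  simp only [ZMod.unitsMap_val, Units.val_one] at h1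
  rw [← ZMod.natCast_val] at h1
  have h2 : (((e : ZMod d).val : ℕ) : ZMod (d / p)) = ((1 : ℕ) : ZMod (d / p)) := by
    rw [h1, Nat.cast_one]
  exact (ZMod.natCast_eq_natCast_iff' _ _ _).1 h2

private theorem kp2 (d p : ℕ) [NeZero d] (hp : p ∣ d) (e : (ZMod d)ˣ) (he : -1 * e ∈ Kp d p) :
    ((e : ZMod d).val + 1) % (d / p) = 0 := by
  unfold Kp at he
  rw [dif_pos hp] at he
  have h1 := congrArg (fun u : (ZMod (d / p))ˣ => (u : ZMod (d / p))) (MonoidHom.mem_ker.1 he)
  have h3 : (ZMod.castHom (Nat.div_dvd_of_dvd hp) (ZMod (d / p))) (((-1 * e : (ZMod d)ˣ)) : ZMod d) = 1 := by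
    simpa [ZMod.unitsMap_val] using h1
  rw [Units.val_mul, Units.val_neg, Units.val_one, neg_one_mul, map_neg] at h3
  have h4 : (ZMod.castHom (Nat.div_dvd_of_dvd hp) (ZMod (d / p))) (e : ZMod d) =
      (((e : ZMod d).val : ℕ) : ZMod (d / p)) := by
    rw [ZMod.castHom_apply, ZMod.natCast_val]
  rw [h4] at h3
  have h5 : ((((e : ZMod d).val + 1 : ℕ)) : ZMod (d / p)) = 0 := by
    push_cast
    linear_combination -h3
  exact Nat.mod_eq_zero_of_dvd ((ZMod.natCast_eq_zero_iff _ _).1 h5)

private def Q1 (M : ℕ) (ks : List ℕ) (p q v : ℕ) : Prop := v % (M / p) = 1 → (v + 1) % (M / q) = 0 →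
      (((univ.filter (fun i : Fin ks.length => ks.get i = 1)).card : ℤ) -
        ((univ.filter (fun i : Fin ks.length => ks.get i = M - 1)).card : ℤ) +
        (((univ.filter (fun i : Fin ks.length => ks.get i = v)).card : ℤ) -
        ((univ.filter (fun i : Fin ks.length => ks.get i = M - v)).card : ℤ))) % 2 ≠ 0

private instance (M : ℕ) (ks : List ℕ) (p q v : ℕ) : Decidable (Q1 M ks p q v) := by
  unfold Q1
  infer_instance

/-- One tuple. -/
private theorem one (m M : ℕ) [NeZero m] [NeZero M] (hM : M ∣ m) (ks : List ℕ)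
    (hq : (M, ks) ∈ Pool.Agent.FT.tup) (hM1 : 1 < M)
    (hlt : ∀ k ∈ ks, 0 < k ∧ k < M)
    (hsum : ∀ u < M, u.Coprime M → 2 * (ks.map fun k => u * k % M).sum = M * ks.length)
    (hchk : ∀ p < M, ∀ q < M, (1 < p ∧ p < q ∧ M = p * q) → ∀ v < M, Q1 M ks p q v) :
    ∃ g : ZMod m → ℤ, InG g ∧ IsOdd g ∧ Rl g ∧ (∀ x, g x ≠ 0 → addOrderOf x ∣ M) ∧
    ∀ p q : ℕ, p.Prime → q.Prime → p < q → M = p * q → ∀ e ∈ Kp M p, -1 * e ∈ Kp M q →
      ¬ (2 : ℤ) ∣ g (el m M 1) + g (el m M e) := by
  classical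
  obtain ⟨t1, t2, _, _, t5, t6⟩ := hTup m (Fin ks.length) (aa m M ks)
  have hne : ∀ i, aa m M ks i ≠ 0 := by
    intro i h
    have h1 := (eq_zero_iff hM _).1 h
    have h2 := hlt _ (List.get_mem ks i)
    rw [Nat.mod_eq_of_lt h2.2] at h1
    omega
  refine ⟨fun x => cnt (aa m M ks) x - cnt (aa m M ks) (-x), ⟨cnt (aa m M ks), t6 hne, fun x => rfl, ?_⟩,
    t1, ?_, ?_, ?_⟩
  · rw [← t5]
    refine AddSubgroup.mem_sup_right (AddSubgroup.subset_closure ⟨(M, ks), 1, hq, Nat.coprime_one_left _, ?_⟩)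
    have h1 : ∀ k : ℕ, ZMod.toAddCircle ((m / M * k : ℕ) : ZMod m) = Pool.Agent.FT.pt M (1 * k) := by
      intro k
      rw [ZMod.toAddCircle_natCast]
      unfold Pool.Agent.FT.pt
      congr 1
      have h2 : (M : ℝ) ≠ 0 := by exact_mod_cast NeZero.ne M
      have h3 : ((m / M : ℕ) : ℝ) ≠ 0 := by exact_mod_cast (div_pos' hM).ne'
      have h4 : (m : ℝ) = (m / M : ℕ) * M := by
        rw [← Nat.cast_mul, Nat.div_mul_cancel hM]
      rw [h4, one_mul]
      push_cast
      field_simp
    unfold clt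
    have h5 := sum_get ks
      (fun k => Finsupp.single (Pool.Agent.FT.pt M (1 * k)) (1 : ℤ))
    rw [← h5]
    refine Finset.sum_congr rfl fun i _ => ?_
    unfold aa
    rw [h1]
  · intro t
    rw [t2]
    have hu : Nat.Coprime (t : ZMod m).val m := ZMod.val_coe_unit_coprime t
    have huM : Nat.Coprime (t : ZMod m).val M := hu.coprime_dvd_right hM
    have h0 : ∀ i, sz ((t : ZMod m) * aa m M ks i) =
        ((((t : ZMod m).val % M) * ks.get i % M : ℕ) : ℚ) / M - 1 / 2 := by
      intro i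
      have h1 : (t : ZMod m) * aa m M ks i = ((m / M * ((t : ZMod m).val * ks.get i) : ℕ) : ZMod m) := by
        unfold aa
        nth_rewrite 1 [← ZMod.natCast_zmod_val (t : ZMod m)]
        push_cast
        ring
      have h2 := hlt _ (List.get_mem ks i)
      have h3 : (t : ZMod m).val * ks.get i % M ≠ 0 := by
        intro h
        have h4 : M ∣ ks.get i := huM.symm.dvd_of_dvd_mul_left (Nat.dvd_of_mod_eq_zero h)
        have h5 := Nat.le_of_dvd h2.1 h4
        omega
      rw [h1, sz_mul hM _ h3, Nat.mod_mul_mod]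
    rw [Finset.sum_congr rfl fun i _ => h0 i]
    have hc : ((t : ZMod m).val % M).Coprime M := by
      have h5 := Nat.gcd_rec M (t : ZMod m).val
      unfold Nat.Coprime at huM ⊢
      rw [Nat.gcd_comm] at huM
      rw [← h5, huM]
    rw [sum_zero ks _ (hsum _ (Nat.mod_lt _ (Nat.pos_of_ne_zero (NeZero.ne M))) hc), mul_zero]
  · intro x hx
    have hord : ∀ i, addOrderOf (aa m M ks i) ∣ M := by
      intro i
      apply addOrderOf_dvd_of_nsmul_eq_zero
      unfold aa
      rw [nsmul_eq_mul, ← Nat.cast_mul]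
      have h1 : M * (m / M * ks.get i) = m * ks.get i := by
        rw [← Nat.mul_assoc, Nat.mul_div_cancel' hM]
      rw [h1, Nat.cast_mul, ZMod.natCast_self, zero_mul]
    have hc : ∀ y, cnt (aa m M ks) y ≠ 0 → ∃ i, aa m M ks i = y := by
      intro y hy
      by_contra hcon
      push Not at hcon
      apply hy
      unfold cnt
      rw [Finset.filter_eq_empty_iff.2 (fun i _ => hcon i)]
      rfl
    by_cases h1 : cnt (aa m M ks) x = 0
    · have h2 : cnt (aa m M ks) (-x) ≠ 0 := by
        intro h2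
        apply hx
        change cnt (aa m M ks) x - cnt (aa m M ks) (-x) = 0
        rw [h1, h2, sub_zero]
      obtain ⟨i, hi⟩ := hc _ h2
      have h3 := hord i
      rwa [hi, addOrderOf_neg] at h3
    · obtain ⟨i, hi⟩ := hc _ h1
      rw [← hi]
      exact hord i
  · intro p q hp hq' hpq hMpq e he1 he2 hdvd
    have hpM : p ∣ M := ⟨q, hMpq⟩
    have hqM : q ∣ M := ⟨p, by rw [hMpq, Nat.mul_comm]⟩
    have hp1 := hp.one_lt
    have hq1 := hq'.one_lt
    have hpl : p < M := by
      rw [hMpq]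
      nlinarith
    have hql : q < M := by
      rw [hMpq]
      nlinarith
    have hMp : M / p = q := by
      rw [hMpq]
      exact Nat.mul_div_cancel_left _ hp.pos
    have hv : (e : ZMod M).val < M := ZMod.val_lt _
    have h1 : (e : ZMod M).val % (M / p) = 1 := by
      rw [kp1 M p hpM e he1, hMp]
      exact Nat.mod_eq_of_lt hq1
    have h2 : ((e : ZMod M).val + 1) % (M / q) = 0 := kp2 M q hqM e he2
    have hv0 : 0 < (e : ZMod M).val := by
      rcases Nat.eq_zero_or_pos (e : ZMod M).val with h | h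
      · rw [h, Nat.zero_mod] at h1
        omega
      · exact h
    have h3 := hchk p hpl q hql ⟨hp1, hpq, hMpq⟩ _ hv h1 h2
    apply h3
    have hel : ∀ u : (ZMod M)ˣ, el m M u = ((m / M * (u : ZMod M).val : ℕ) : ZMod m) := by
      intro u
      unfold el
      push_cast
      rfl
    have hval : ∀ u : (ZMod M)ˣ, 0 < (u : ZMod M).val →
        cnt (aa m M ks) (el m M u) - cnt (aa m M ks) (-el m M u) =
        ((univ.filter (fun i : Fin ks.length => ks.get i = (u : ZMod M).val)).card : ℤ) -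
        ((univ.filter (fun i : Fin ks.length => ks.get i = M - (u : ZMod M).val)).card : ℤ) := by
      intro u hu
      have hul : (u : ZMod M).val < M := ZMod.val_lt _
      rw [hel, neg_mul' hM _ hul.le, cnt_aa hM ks hlt _ hul, cnt_aa hM ks hlt _ (by omega)]
    have h11 : ((1 : (ZMod M)ˣ) : ZMod M).val = 1 := by
      rw [Units.val_one]
      exact ZMod.val_one'' (by omega)
    have h4 := hval 1 (by rw [h11]; exact one_pos)
    have h5 := hval e hv0
    rw [h11] at h4
    have h6 : (2 : ℤ) ∣ (cnt (aa m M ks) (el m M 1) - cnt (aa m M ks) (-el m M 1)) +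
        (cnt (aa m M ks) (el m M e) - cnt (aa m M ks) (-el m M e)) := hdvd
    rw [h4, h5] at h6
    exact Int.emod_eq_zero_of_dvd h6

end GamAux

open GamAux in
theorem pGam : S_Gam := by
  intro m M _ _ hM h
  rcases h with h | h | h | h | h
  · subst h
    exact one m 15 hM [1, 6, 10, 13] (by decide) (by norm_num) (by decide) (by decide +kernel)
      (by decide +kernel)
  · subst h
    exact one m 21 hM [1, 4, 18, 19] (by decide) (by norm_num) (by decide) (by decide +kernel)
      (by decide +kernel)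
  · subst h
    exact one m 33 hM [1, 4, 16, 22, 25, 31] (by decide) (by norm_num) (by decide) (by decide +kernel)
      (by decide +kernel)
  · subst h
    exact one m 35 hM [1, 1, 17, 21, 30, 34, 31, 22, 16, 2] (by decide) (by norm_num) (by decide)
      (by decide +kernel) (by decide +kernel)
  · subst h
    exact one m 39 hM [1, 16, 22, 7, 34, 37] (by decide) (by norm_num) (by decide) (by decide +kernel)
      (by decide +kernel)

end Pool.Agent.FO
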