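import Pool.Agent.Lib.MP_640417_ag.FO.SpecG

/-!
# Theorem FG, part G: glueing
-/

set_option autoImplicit false

open Finset Pool.Agent.FC

namespace Pool.Agent.FO

namespace GlueAux

/-- the subgroup generated by `M` and the involution `ε` -/
def ext {G : Type} [CommGroup G] (M : Subgroup G) (ε : G) (hε : ε * ε = 1) : Subgroup G where
  carrier := {x | x ∈ M ∨ ε * x ∈ M}
  one_mem' := Or.inl M.one_mem
  mul_mem' := by
    intro x y hx hy
    rcases hx with hx | hx <;> rcases hy with hy | hy
    · exact Or.inl (M.mul_mem hx hy)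
    · refine Or.inr ?_
      have := M.mul_mem hx hy
      rwa [mul_left_comm] at this
    · refine Or.inr ?_
      have := M.mul_mem hx hy
      rwa [mul_assoc] at this
    · refine Or.inl ?_
      have := M.mul_mem hx hy
      rwa [mul_mul_mul_comm, hε, one_mul] at this
  inv_mem' := by
    intro x hx
    rcases hx with hx | hx
    · exact Or.inl (M.inv_mem hx)
    · refine Or.inr ?_
      have h1 := M.inv_mem hx
      have h2 : ε⁻¹ = ε := inv_eq_of_mul_eq_one_left hε
      rwa [mul_inv, h2] at h1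

theorem mem_ext {G : Type} [CommGroup G] (M : Subgroup G) (ε : G) (hε : ε * ε = 1) (x : G) :
    x ∈ ext M ε hε ↔ x ∈ M ∨ ε * x ∈ M := Iff.rfl

end GlueAux

open GlueAux in
theorem pGlue : S_Glue := by
  classical
  intro G _ _ M ε hε hM e
  obtain ⟨r, hr1, hr2⟩ : ∃ r : G → G, (∀ a, a * (r a)⁻¹ ∈ M ∨ ε * (a * (r a)⁻¹) ∈ M) ∧
      ∀ a b, (b ∈ M ∨ ε * b ∈ M) → r (b * a) = r a := by
    refine ⟨fun a => Quotient.out (QuotientGroup.mk a : G ⧸ ext M ε hε), ?_, ?_⟩
    · intro a
      have h1 : (QuotientGroup.mk (Quotient.out (QuotientGroup.mk a : G ⧸ ext M ε hε)) :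
          G ⧸ ext M ε hε) = QuotientGroup.mk a := QuotientGroup.out_eq' _
      rw [QuotientGroup.eq, mem_ext] at h1
      rwa [mul_comm] at h1
    · intro a b hb
      have h1 : (QuotientGroup.mk (b * a) : G ⧸ ext M ε hε) = QuotientGroup.mk a := by
        symm
        rw [QuotientGroup.eq, mem_ext]
        have h2 : a⁻¹ * (b * a) = b := by
          rw [mul_comm b a, inv_mul_cancel_left]
        rw [h2]
        exact hb
      change Quotient.out (QuotientGroup.mk (b * a) : G ⧸ ext M ε hε) = _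
      rw [h1]
  have hnb : ∀ y, y ∈ M → ε * y ∈ M → False := by
    intro y h1 h2
    apply hM
    have h3 := M.mul_mem h2 (M.inv_mem h1)
    rwa [mul_inv_cancel_right] at h3
  have hεε : ∀ y, ε * (ε * y) = y := by
    intro y
    rw [← mul_assoc, hε, one_mul]
  refine ⟨fun a => if a * (r a)⁻¹ ∈ M then e (r a) a else -e (r a) (ε * a), ?_, ?_⟩
  · intro a
    have hra : r (ε * a) = r a := hr2 a ε (Or.inr (by rw [hε]; exact M.one_mem))
    change (if ε * a * (r (ε * a))⁻¹ ∈ M then e (r (ε * a)) (ε * a)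
      else -e (r (ε * a)) (ε * (ε * a))) = -(if a * (r a)⁻¹ ∈ M then e (r a) a else -e (r a) (ε * a))
    rw [hra, hεε]
    by_cases h : a * (r a)⁻¹ ∈ M
    · rw [if_pos h, if_neg (fun h2 => hnb _ h (by rwa [mul_assoc] at h2))]
    · have h2 : ε * a * (r a)⁻¹ ∈ M := by
        rw [mul_assoc]
        exact (hr1 a).resolve_left h
      rw [if_neg h, if_pos h2, neg_neg]
  · intro a
    refine ⟨r a, ?_⟩
    by_cases h : a * (r a)⁻¹ ∈ M
    · refine Or.inl ⟨h, fun b hb => ?_⟩
      have hrb : r (b * a) = r a := hr2 a b (Or.inl hb)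
      have h2 : b * a * (r a)⁻¹ ∈ M := by
        rw [mul_assoc]
        exact M.mul_mem hb h
      change (if b * a * (r (b * a))⁻¹ ∈ M then e (r (b * a)) (b * a)
        else -e (r (b * a)) (ε * (b * a))) = _
      rw [hrb, if_pos h2]
    · have h3 := (hr1 a).resolve_left h
      refine Or.inr ⟨by rw [mul_assoc]; exact h3, fun b hb => ?_⟩
      have hrb : r (b * a) = r a := hr2 a b (Or.inl hb)
      have h2 : ¬ b * a * (r a)⁻¹ ∈ M := by
        intro h4
        apply h
        have h5 := M.mul_mem (M.inv_mem hb) h4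
        rwa [mul_assoc b, inv_mul_cancel_left] at h5
      change (if b * a * (r (b * a))⁻¹ ∈ M then e (r (b * a)) (b * a)
        else -e (r (b * a)) (ε * (b * a))) = _
      rw [hrb, if_neg h2]

end Pool.Agent.FO
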