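import Pool.Agent.Lib.MP_640417_ag.FO.SpecG

/-!
# Theorem FG, part G: stripping without cost
-/

set_option autoImplicit false

noncomputable section

open Finset Pool.Agent.FC

namespace Pool.Agent.FO

namespace HBigAux

private theorem pair (hCnSum : S_CnSum) {G : Type} [CommGroup G] [Fintype G] (K L : Subgroup G)
    (F : G → ℤ) (τ a : G) (hKL : K ≤ L) (h1 : τ ∉ K) (h2 : τ ∈ L) :
    cn K F a + cn K F (τ * a) ≤ cn L F a := by
  classical
  have hne : a ≠ τ * a := by
    intro h
    apply h1
    have : τ = 1 := by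
      have h3 : (1 : G) * a = τ * a := by rw [one_mul]; exact h
      exact (mul_right_cancel h3).symm
    rw [this]
    exact one_mem _
  have h3 := (hCnSum G K F {a, τ * a} (by
    intro x hx y hy hxy
    rw [Finset.mem_insert, Finset.mem_singleton] at hx hy
    rcases hx with rfl | rfl
    · rcases hy with rfl | rfl
      · exact absurd rfl hxy
      · rw [mul_inv_cancel_right]
        exact h1
    · rcases hy with rfl | rfl
      · have h4 : y * (τ * y)⁻¹ = τ⁻¹ := by
          rw [mul_inv_rev, mul_inv_cancel_left]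
        rw [h4]
        exact fun h => h1 (by simpa using inv_mem h)
      · exact absurd rfl hxy)).2 L a hKL (by
    intro x hx
    rw [Finset.mem_insert, Finset.mem_singleton] at hx
    rcases hx with rfl | rfl
    · rw [mul_inv_cancel]
      exact one_mem _
    · rw [mul_inv_cancel_right]
      exact h2)
  rwa [Finset.sum_pair hne] at h3

private theorem cn_inv {G : Type} [CommGroup G] [Fintype G] (K : Subgroup G) (E : G → ℤ)
    (hE : ∀ k ∈ K, ∀ a, E (k * a) = E a) (a : G) : cn K E a = (sK K).card * |E a| := by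
  have hm : ∀ k, k ∈ sK K ↔ k ∈ K := (gTBas G K K E E).1
  unfold cn
  rw [Finset.sum_congr rfl fun x hx => by rw [hE x ((hm x).1 hx) a], Finset.sum_const,
    nsmul_eq_mul]

/-- the claim -/
private theorem zero (hCnBas : S_CnBas) (hCnSum : S_CnSum) {G : Type} [CommGroup G] [Fintype G]
    (K M : Subgroup G) (hKM : K ≤ M) (τ : G) (hc : 10 ≤ (sK K).card)
    (hd : τ ∉ K ∨ 12 < (sK K).card) (E : G → ℤ) (hE : ∀ k ∈ K, ∀ a, E (k * a) = E a)
    (hτ : ∀ a, E (τ * a) = E a) (h12 : ∀ a, cn M E a ≤ 12)
    (h6 : τ ∈ M ∨ ∀ a, cn M E a ≤ 6) : E = 0 := by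
  funext a
  by_contra hne
  change E a ≠ 0 at hne
  have h1 : ((sK K).card : ℤ) ≤ cn K E a := by
    rw [cn_inv K E hE a]
    have h2 : (1 : ℤ) ≤ |E a| := Int.one_le_abs hne
    have h3 : (0 : ℤ) ≤ (sK K).card := by positivity
    nlinarith
  have h4 : cn K E a ≤ cn M E a := (hCnBas G K M E E).2.2.2.1 hKM a
  have h5 : (10 : ℤ) ≤ (sK K).card := by exact_mod_cast hc
  have h7 := h12 a
  rcases h6 with h6 | h6
  · rcases hd with hd | hd
    · have h8 := pair hCnSum K M E τ a hKM hd h6
      have h9 : cn K E (τ * a) = cn K E a := by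
        rw [cn_inv K E hE, cn_inv K E hE, hτ]
      linarith
    · have h8 : (12 : ℤ) < (sK K).card := by exact_mod_cast hd
      linarith
  · have := h6 a
    linarith

end HBigAux

open HBigAux

theorem pHBig (hCnBas : S_CnBas) (hCnSum : S_CnSum) (hMajG : S_MajG) : S_HBig := by
  intro G _ _ K τ lb
  induction lb with
  | nil =>
    intro ls _ _ _ _ h _ hT _ h6
    exact ⟨hT, h6⟩
  | cons r lb' ih =>
    intro ls hnd hI hlb hls h hτ hT h12 h6
    rw [List.cons_append] at hnd hI hT h12 h6
    have hr := hlb r (List.mem_cons_self ..)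
    have hlb' : ∀ r ∈ lb', 10 ≤ (sK (K r)).card ∧ (τ ∉ K r ∨ 12 < (sK (K r)).card) :=
      fun x hx => hlb x (List.mem_cons_of_mem _ hx)
    obtain ⟨rest, hrest⟩ : ∃ rest, rest = lb' ++ ls := ⟨_, rfl⟩
    have hrM : K r ≤ KS K (r :: rest) := le_sup_left
    have hRM : KS K rest ≤ KS K (r :: rest) := le_sup_right
    rw [← hrest] at hnd hI hT h12 h6
    -- all powers
    have h4 : ∀ j ∈ rest, 4 ≤ (sK (K j)).card := by
      intro j hj
      rw [hrest, List.mem_append] at hj
      rcases hj with hj | hj
      · have := (hlb' j hj).1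
        omega
      · exact hls j hj
    have hTr : Tl K rest h = 0 := by
      by_cases hnil : rest = []
      · have h1 : T (K r) h = 0 := by
          rw [hnil] at hT
          exact hT
        have h2 := ((gTBas G (K r) (K r) h h).2.2.2.2.2.2.2.1).1 h1
        have h3 := zero hCnBas hCnSum (K r) (KS K (r :: rest)) hrM τ hr.1 hr.2 h h2 hτ h12 h6
        rw [hnil]
        exact h3
      · obtain ⟨E, hE1, hE2, -, hE4, hE5⟩ := hMajG G K r rest hnil hI h hT (by
          intro a j hj
          have h1 := h12 a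
          have h2 : (4 : ℤ) ≤ (sK (K j)).card := by exact_mod_cast h4 j hj
          have h3 : (10 : ℤ) ≤ (sK (K r)).card := by exact_mod_cast hr.1
          nlinarith)
        have h5 := zero hCnBas hCnSum (K r) (KS K (r :: rest)) hrM τ hr.1 hr.2 E hE1
          (fun a => by rw [hE5 τ 1 (fun a => by rw [hτ a, one_mul]) a, one_mul])
          (fun a => (hE4 a).trans (h12 a))
          (h6.imp id fun h6 a => (hE4 a).trans (h6 a))
        rw [h5] at hE2
        have h7 : (fun a => h a - (0 : G → ℤ) a) = h := by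
          funext a
          simp
        rw [h7] at hE2
        exact hE2
    have h12' : ∀ a, cn (KS K rest) h a ≤ 12 := fun a =>
      ((hCnBas G (KS K rest) (KS K (r :: rest)) h h).2.2.2.1 hRM a).trans (h12 a)
    have h6' : τ ∈ KS K rest ∨ ∀ a, cn (KS K rest) h a ≤ 6 := by
      by_cases hin : τ ∈ KS K rest
      · exact Or.inl hin
      · right
        intro a
        rcases h6 with h6 | h6
        · have h1 := pair hCnSum (KS K rest) (KS K (r :: rest)) h τ a hRM hin h6
          have h2 := (hCnBas G (KS K rest) (KS K rest) h h).2.2.2.2.2.2.2.2 τ 1 (by norm_num)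
            (fun a => by rw [hτ a, one_mul]) a
          have h3 := h12 a
          linarith
        · exact ((hCnBas G (KS K rest) (KS K (r :: rest)) h h).2.2.2.1 hRM a).trans (h6 a)
    rw [hrest] at hnd hI hTr h12' h6'
    exact ih ls (List.nodup_cons.1 hnd).2 hI.2 hlb' hls h hτ hTr h12' h6'

end Pool.Agent.FO
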