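import Pool.Agent.Lib.MP_640417_ag.FO.SpecG

/-!
# Theorem FG, part G: classification of relations of norm at most 24 with three signs
-/

set_option autoImplicit false

noncomputable section

namespace Pool.Agent.FO

open Finset Pool.Agent.FC

namespace HClsAux

variable {G : Type} [CommGroup G]

theorem mem_sK [Fintype G] (K : Subgroup G) (x : G) : x ∈ sK K ↔ x ∈ K := by
  classical
  simp [sK]

theorem le_KS (K : ℕ → Subgroup G) : ∀ (l : List ℕ) (p : ℕ), p ∈ l → K p ≤ KS K l
  | [], p, h => by simp at h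
  | i :: l, p, h => by
      rcases List.mem_cons.1 h with h | h
      · subst h
        exact le_sup_left
      · exact (le_KS K l p h).trans le_sup_right

theorem ix_of_mem {K : Subgroup G} {a x : G} (h : x * a⁻¹ ∈ K) : ix K a x = 1 := by
  classical
  simp [ix, h]

theorem ix_of_not {K : Subgroup G} {a x : G} (h : x * a⁻¹ ∉ K) : ix K a x = 0 := by
  classical
  simp [ix, h]

theorem ix_mul (K : Subgroup G) (e a x : G) : ix K (e * a) (e * x) = ix K a x := by
  have h : e * x * (e * a)⁻¹ = x * a⁻¹ := by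
    rw [mul_inv, mul_mul_mul_comm, mul_inv_cancel, one_mul]
  by_cases h1 : x * a⁻¹ ∈ K
  · rw [ix_of_mem h1, ix_of_mem (by rwa [h])]
  · rw [ix_of_not h1, ix_of_not (by rwa [h])]

theorem ix_swap (K : Subgroup G) {e : G} (he : e * e = 1) (a x : G) :
    ix K a (e * x) = ix K (e * a) x := by
  rw [← ix_mul K e (e * a) x, ← mul_assoc, he, one_mul]

theorem sum_ix [Fintype G] (K : Subgroup G) (a : G) : ∑ x, ix K a x = (sK K).card := by
  classical
  have h1 : ∑ x, ix K a x = ∑ y : G, (if y ∈ K then (1 : ℤ) else 0) := by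
    refine Fintype.sum_equiv (Equiv.mulRight a⁻¹) _ _ ?_
    intro x
    by_cases h1 : x * a⁻¹ ∈ K
    · rw [ix_of_mem h1]
      simp [h1]
    · rw [ix_of_not h1]
      simp [h1]
  rw [h1, Finset.sum_boole]
  congr 2

/-- the four elements -/
def W4 (ε κ : G) : Set G := {u | u = 1 ∨ u = ε ∨ u = κ ∨ u = ε * κ}

theorem W4_mul {ε κ : G} (he : ε * ε = 1) (hk : κ * κ = 1) {u v : G} (hu : u ∈ W4 ε κ)
    (hv : v ∈ W4 ε κ) : u * v ∈ W4 ε κ := by
  have e1 : κ * ε = ε * κ := mul_comm _ _
  have e2 : ε * (ε * κ) = κ := by rw [← mul_assoc, he, one_mul]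
  have e3 : κ * (ε * κ) = ε := by rw [mul_comm ε κ, ← mul_assoc, hk, one_mul]
  have e4 : ε * κ * ε = κ := by rw [mul_comm, e2]
  have e5 : ε * κ * κ = ε := by rw [mul_assoc, hk, mul_one]
  have e6 : ε * κ * (ε * κ) = 1 := by rw [mul_mul_mul_comm, he, hk, one_mul]
  unfold W4 at *
  simp only [Set.mem_ofPred_eq] at *
  rcases hu with rfl | rfl | rfl | rfl <;> rcases hv with rfl | rfl | rfl | rfl <;>
    simp [he, hk, e1, e2, e3, e4, e5, e6]

theorem W4_sq {ε κ : G} (he : ε * ε = 1) (hk : κ * κ = 1) {u : G} (hu : u ∈ W4 ε κ) :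
    u * u = 1 := by
  have e6 : ε * κ * (ε * κ) = 1 := by rw [mul_mul_mul_comm, he, hk, one_mul]
  rcases hu with rfl | rfl | rfl | rfl
  · exact one_mul 1
  · exact he
  · exact hk
  · exact e6

theorem W4_one {ε κ : G} {M : Subgroup G} (h1 : ε ∉ M) (h2 : κ ∉ M) (h3 : ε * κ ∉ M) {u : G}
    (hu : u ∈ W4 ε κ) (hM : u ∈ M) : u = 1 := by
  rcases hu with rfl | rfl | rfl | rfl
  · rfl
  · exact absurd hM h1
  · exact absurd hM h2
  · exact absurd hM h3

end HClsAux

open HClsAux

theorem pHCls (hCnBas : S_CnBas) (hCnSum : S_CnSum) (hHLoc : S_HLoc) : S_HCls := by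
  classical
  intro G _ _ K ls hInd hls ε κ he hk he1 hk1 hek h hε hκ hT hn
  set M : Subgroup G := KS K ls with hM
  have b3 := fun (L : Subgroup G) => (hCnBas G L L h h).2.2.1
  have b9 := fun (τ : G) (s : ℤ) => (hCnBas G M M h h).2.2.2.2.2.2.2.2 τ s
  -- the finset of the four elements
  have hεκ : ∀ a, h (ε * κ * a) = 1 * h a := by
    intro a
    rw [mul_assoc, hε, hκ, neg_neg, one_mul]
  have cnW : ∀ u ∈ W4 ε κ, ∀ a, cn M h (u * a) = cn M h a := by
    rintro u (rfl | rfl | rfl | rfl) a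
    · rw [one_mul]
    · exact b9 _ (-1) (by simp) (fun a => by rw [hε]; ring) a
    · exact b9 _ (-1) (by simp) (fun a => by rw [hκ]; ring) a
    · exact b9 _ 1 (by simp) hεκ a
  let W : Finset G := {1, ε, κ, ε * κ}
  have hW : ∀ u, u ∈ W ↔ u ∈ W4 ε κ := by
    intro u
    simp [W, W4]
  have hone : (1 : G) ∈ M := M.one_mem
  have cW : W.card = 4 := by
    have d1 : (1 : G) ≠ ε := fun h => he1 (h ▸ hone)
    have d2 : (1 : G) ≠ κ := fun h => hk1 (h ▸ hone)
    have d3 : (1 : G) ≠ ε * κ := fun h => hek (h ▸ hone)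
    have d4 : ε ≠ κ := by
      intro h
      apply d3
      rw [← h, he]
    have d5 : ε ≠ ε * κ := by
      intro h
      exact d2 (mul_left_cancel (a := ε) (by rw [mul_one]; exact h))
    have d6 : κ ≠ ε * κ := by
      intro h
      exact d1 (mul_right_cancel (b := κ) (by rw [one_mul]; exact h))
    simp only [W]
    rw [card_insert_of_notMem (by simp [d1, d2, d3]), card_insert_of_notMem (by simp [d4, d5]),
      card_insert_of_notMem (by simp [d6]), card_singleton]
  have sep : ∀ u ∈ W4 ε κ, ∀ v ∈ W4 ε κ, v * u⁻¹ ∈ M → v = u := by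
    intro u hu v hv h1
    have e1 : u⁻¹ = u := inv_eq_of_mul_eq_one_right (W4_sq he hk hu)
    rw [e1] at h1
    have h2 := W4_one he1 hk1 hek (W4_mul he hk hv hu) h1
    calc v = v * (u * u) := by rw [W4_sq he hk hu, mul_one]
      _ = (v * u) * u := by rw [mul_assoc]
      _ = u := by rw [h2, one_mul]
  -- sums over the four cosets
  have sumW : ∀ a, ∑ b ∈ W.image (fun u => u * a), cn M h b = 4 * cn M h a := by
    intro a
    rw [sum_image (fun x _ y _ hxy => mul_right_cancel hxy),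
      sum_congr rfl (fun u hu => cnW u ((hW u).1 hu) a), sum_const, cW]
    simp
  have cancel : ∀ u v a : G, v * a * (u * a)⁻¹ = v * u⁻¹ := by
    intro u v a
    rw [mul_inv, mul_mul_mul_comm, mul_inv_cancel, mul_one]
  have h4 : ∀ a, 4 * cn M h a ≤ nm h := by
    intro a
    rw [← sumW a]
    refine (hCnSum G M h _ ?_).1
    intro x hx y hy hxy h1
    obtain ⟨u, hu, rfl⟩ := mem_image.1 hx
    obtain ⟨v, hv, rfl⟩ := mem_image.1 hy
    rw [cancel] at h1
    exact hxy (by rw [sep u ((hW u).1 hu) v ((hW v).1 hv) h1])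
  have h6 : ∀ a, cn M h a ≤ 6 := fun a => by linarith [h4 a]
  have card4 : ∀ p ∈ ls, (4 : ℤ) ≤ (sK (K p)).card := by
    intro p hp
    rcases hls with h0 | ⟨j, h0, h1⟩ | ⟨i, j, h0, h1, h2⟩
    · rw [h0] at hp
      simp at hp
    · rw [h0, List.mem_singleton] at hp
      rw [hp]
      exact_mod_cast h1
    · rw [h0] at hp
      simp only [List.mem_cons, List.not_mem_nil, or_false] at hp
      rcases hp with rfl | rfl
      · exact_mod_cast (by omega : 4 ≤ (sK (K p)).card)
      · exact_mod_cast h2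
  have loc : ∀ a, h a ≠ 0 → ∃ p ∈ ls, ∃ c ∈ M, ∃ s : ℤ, |s| = 1 ∧
      (∀ b ∈ M, h (b * a) = s * ix (K p) (c * a) (b * a)) ∧ 4 ≤ cn M h a := by
    intro a ha
    rcases hHLoc G K ls hInd hls h hT a (h6 a) with h0 | ⟨p, hp, c, hc, s, hs, hb⟩
    · have := h0 1 hone
      rw [one_mul] at this
      exact absurd this ha
    · refine ⟨p, hp, c, hc, s, hs, hb, ?_⟩
      have hKM : K p ≤ M := le_KS K ls p hp
      have e1 : cn (K p) h (c * a) = (sK (K p)).card := by
        unfold cn
        rw [sum_congr rfl (g := fun _ => (1 : ℤ)), sum_const]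
        · simp
        · intro b hb'
          have hbK : b ∈ K p := (mem_sK _ _).1 hb'
          rw [← mul_assoc, hb (b * c) (M.mul_mem (hKM hbK) hc), ix_of_mem, mul_one, hs]
          rw [cancel, mul_inv_cancel_right]
          exact hbK
      have e2 : cn (K p) h (c * a) ≤ cn M h (c * a) := (hCnBas G (K p) M h h).2.2.2.1 hKM _
      rw [b3 M c hc, e1] at e2
      linarith [card4 p hp]
  by_cases h0 : h = 0
  · exact Or.inl h0
  right
  obtain ⟨a, ha⟩ : ∃ a, h a ≠ 0 := by
    by_contra hcon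
    push Not at hcon
    exact h0 (funext hcon)
  obtain ⟨p, hp, c, hc, s, hs, hb, ha4⟩ := loc a ha
  have hKM : K p ≤ M := le_KS K ls p hp
  -- the support is in the four cosets
  have supp : ∀ x, h x ≠ 0 → ∃ u ∈ W4 ε κ, x * (u * a)⁻¹ ∈ M := by
    intro x hx
    by_contra hcon
    push Not at hcon
    obtain ⟨-, -, -, -, -, -, -, hx4⟩ := loc x hx
    have hdis : Disjoint (W.image (fun u => u * a)) (W.image (fun u => u * x)) := by
      rw [Finset.disjoint_left]
      intro y hy1 hy2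
      obtain ⟨u, hu, rfl⟩ := mem_image.1 hy1
      obtain ⟨v, hv, hv2⟩ := mem_image.1 hy2
      have hv' := (hW v).1 hv
      have hu' := (hW u).1 hu
      apply hcon (v * u) (W4_mul he hk hv' hu')
      have e1 : x = v * u * a := by
        calc x = v * (v * x) := by rw [← mul_assoc, W4_sq he hk hv', one_mul]
          _ = v * (u * a) := by rw [hv2]
          _ = v * u * a := by rw [mul_assoc]
      rw [← e1, mul_inv_cancel]
      exact hone
    have key := (hCnSum G M h (W.image (fun u => u * a) ∪ W.image (fun u => u * x)) (by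
      intro y hy z hz hyz h1
      have inv4 : ∀ u ∈ W4 ε κ, u⁻¹ = u := fun u hu =>
        inv_eq_of_mul_eq_one_right (W4_sq he hk hu)
      rcases mem_union.1 hy with hy | hy <;> rcases mem_union.1 hz with hz | hz <;>
        obtain ⟨u, hu, rfl⟩ := mem_image.1 hy <;> obtain ⟨v, hv, rfl⟩ := mem_image.1 hz <;>
        have hv' := (hW v).1 hv <;> have hu' := (hW u).1 hu
      · rw [cancel] at h1
        exact hyz (by rw [sep u hu' v hv' h1])
      · apply hcon (v * u) (W4_mul he hk hv' hu')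
        have e1 : x * (v * u * a)⁻¹ = v * x * (u * a)⁻¹ := by
          rw [mul_assoc v u a, mul_inv v (u * a), inv4 v hv', ← mul_assoc, mul_comm x v]
        rw [e1]
        exact h1
      · apply hcon (v * u) (W4_mul he hk hv' hu')
        have e1 : x * (v * u * a)⁻¹ = (v * a * (u * x)⁻¹)⁻¹ := by
          rw [mul_inv (v * a), inv_inv, mul_inv v a, inv4 v hv', mul_inv (v * u) a,
            mul_inv v u, inv4 v hv', inv4 u hu']
          rw [← mul_assoc, ← mul_assoc, mul_comm (v * a⁻¹) (u * x), ← mul_assoc, mul_comm u x,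
            mul_assoc x u v, mul_comm u v, ← mul_assoc]
        rw [e1]
        exact M.inv_mem h1
      · rw [cancel] at h1
        exact hyz (by rw [sep u hu' v hv' h1]))).1
    rw [sum_union hdis, sumW, sumW] at key
    linarith
  -- the function
  set a1 : G := c * a with ha1
  let f : G → ℤ := fun x =>
    s * (ix (K p) a1 x - ix (K p) (ε * a1) x - ix (K p) (κ * a1) x + ix (K p) (ε * κ * a1) x)
  have fε : ∀ x, f (ε * x) = -f x := by
    intro x
    have e1 : ix (K p) (ε * a1) (ε * x) = ix (K p) a1 x := ix_mul _ _ _ _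
    have e2 : ix (K p) a1 (ε * x) = ix (K p) (ε * a1) x := ix_swap _ he _ _
    have e3 : ix (K p) (ε * κ * a1) (ε * x) = ix (K p) (κ * a1) x := by
      rw [mul_assoc]
      exact ix_mul _ _ _ _
    have e4 : ix (K p) (κ * a1) (ε * x) = ix (K p) (ε * κ * a1) x := by
      rw [mul_assoc]
      exact ix_swap _ he _ _
    simp only [f]
    rw [e1, e2, e3, e4]
    ring
  have fκ : ∀ x, f (κ * x) = -f x := by
    intro x
    have e1 : ix (K p) (κ * a1) (κ * x) = ix (K p) a1 x := ix_mul _ _ _ _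
    have e2 : ix (K p) a1 (κ * x) = ix (K p) (κ * a1) x := ix_swap _ hk _ _
    have e3 : ix (K p) (ε * κ * a1) (κ * x) = ix (K p) (ε * a1) x := by
      rw [mul_comm ε κ, mul_assoc]
      exact ix_mul _ _ _ _
    have e4 : ix (K p) (ε * a1) (κ * x) = ix (K p) (ε * κ * a1) x := by
      rw [mul_comm ε κ, mul_assoc]
      exact ix_swap _ hk _ _
    simp only [f]
    rw [e1, e2, e3, e4]
    ring
  -- the terms with a different sign vanish
  have off : ∀ x, ∀ u ∈ W4 ε κ, x * (u * a)⁻¹ ∈ M → ∀ v ∈ W4 ε κ, v ≠ u →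
      ix (K p) (v * a1) x = 0 := by
    intro x u hu hx v hv hvu
    apply ix_of_not
    intro h1
    have h2 := hKM h1
    have e1 : u * v⁻¹ = (x * (v * a1)⁻¹) * (x * (u * a)⁻¹)⁻¹ * c := by
      rw [ha1, mul_inv x, inv_inv, mul_inv v, mul_inv c a]
      have : x * (v⁻¹ * (c⁻¹ * a⁻¹)) * (x⁻¹ * (u * a)) * c =
          (x * x⁻¹) * (c⁻¹ * c) * (a⁻¹ * a) * (u * v⁻¹) := by
        simp only [mul_comm, mul_left_comm, mul_assoc]
      rw [this, mul_inv_cancel, inv_mul_cancel, inv_mul_cancel]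
      simp
    have h3 : u * v⁻¹ ∈ M := by
      rw [e1]
      exact M.mul_mem (M.mul_mem h2 (M.inv_mem hx)) hc
    exact hvu (sep v hv u hu h3).symm
  have w1 : (1 : G) ∈ W4 ε κ := Or.inl rfl
  have w2 : ε ∈ W4 ε κ := Or.inr (Or.inl rfl)
  have w3 : κ ∈ W4 ε κ := Or.inr (Or.inr (Or.inl rfl))
  have w4 : ε * κ ∈ W4 ε κ := Or.inr (Or.inr (Or.inr rfl))
  have ne2 : ε ≠ 1 := fun h => he1 (h ▸ hone)
  have ne3 : κ ≠ 1 := fun h => hk1 (h ▸ hone)
  have ne4 : ε * κ ≠ 1 := fun h => hek (h ▸ hone)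
  have base : ∀ x, x * a⁻¹ ∈ M → h x = f x := by
    intro x hx
    have hx' : x * (1 * a)⁻¹ ∈ M := by rwa [one_mul]
    have e0 : h x = s * ix (K p) a1 x := by
      have := hb (x * a⁻¹) hx
      rwa [inv_mul_cancel_right] at this
    simp only [f]
    rw [e0, off x 1 w1 hx' ε w2 ne2, off x 1 w1 hx' κ w3 ne3, off x 1 w1 hx' (ε * κ) w4 ne4]
    ring
  have hf : ∀ x, h x = f x := by
    intro x
    by_cases hx : ∃ u ∈ W4 ε κ, x * (u * a)⁻¹ ∈ M
    · obtain ⟨u, hu, hxu⟩ := hx
      have e1 : u * x * a⁻¹ = x * (u * a)⁻¹ := by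
        rw [mul_inv, inv_eq_of_mul_eq_one_right (W4_sq he hk hu), mul_comm u x, mul_assoc]
      have e2 := base (u * x) (by rw [e1]; exact hxu)
      rcases hu with rfl | rfl | rfl | rfl
      · rwa [one_mul] at e2
      · rw [hε, fε] at e2
        exact neg_injective e2
      · rw [hκ, fκ] at e2
        exact neg_injective e2
      · rw [mul_assoc, hε, hκ, fε, fκ, neg_neg, neg_neg] at e2
        exact e2
    · have e1 : h x = 0 := by
        by_contra h1
        exact hx (supp x h1)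
      push Not at hx
      have e2 : ∀ v ∈ W4 ε κ, ix (K p) (v * a1) x = 0 := by
        intro v hv
        apply ix_of_not
        intro h1
        apply hx v hv
        have e3 : x * (v * a)⁻¹ = x * (v * a1)⁻¹ * c := by
          rw [ha1, mul_inv v (c * a), mul_inv c a, mul_inv v a]
          have : x * (v⁻¹ * (c⁻¹ * a⁻¹)) * c = (c⁻¹ * c) * (x * (v⁻¹ * a⁻¹)) := by
            simp only [mul_comm, mul_left_comm, mul_assoc]
          rw [this, inv_mul_cancel, one_mul]
        rw [e3]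
        exact M.mul_mem (hKM h1) hc
      have e3 := e2 1 w1
      rw [one_mul] at e3
      simp only [f]
      rw [e1, e3, e2 ε w2, e2 κ w3, e2 (ε * κ) w4]
      ring
  refine ⟨p, hp, a1, s, hs, ?_, hf⟩
  -- the norm
  have habs : ∀ x, |h x| = ix (K p) a1 x + ix (K p) (ε * a1) x + ix (K p) (κ * a1) x +
      ix (K p) (ε * κ * a1) x := by
    intro x
    have ex : ∀ u ∈ W4 ε κ, ∀ v ∈ W4 ε κ, u ≠ v → x * (u * a1)⁻¹ ∈ K p → x * (v * a1)⁻¹ ∉ K p := by
      intro u hu v hv huv h1 h2
      apply huv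
      apply (sep u hu v hv _).symm
      have e1 : v * u⁻¹ = (x * (u * a1)⁻¹) * (x * (v * a1)⁻¹)⁻¹ := by
        rw [mul_inv x, inv_inv, mul_inv u a1]
        have : x * (u⁻¹ * a1⁻¹) * (x⁻¹ * (v * a1)) = (x * x⁻¹) * (a1⁻¹ * a1) * (v * u⁻¹) := by
          simp only [mul_comm, mul_left_comm, mul_assoc]
        rw [this, mul_inv_cancel, inv_mul_cancel]
        simp
      rw [e1]
      exact M.mul_mem (hKM h1) (M.inv_mem (hKM h2))
    have ne23 : ε ≠ κ := by
      intro h
      apply ne4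
      rw [← h, he]
    have ne24 : ε ≠ ε * κ := by
      intro h
      exact ne3 (mul_left_cancel (a := ε) (by rw [mul_one]; exact h)).symm
    have ne34 : κ ≠ ε * κ := by
      intro h
      exact ne2 (mul_right_cancel (b := κ) (by rw [one_mul]; exact h)).symm
    rw [hf x]
    simp only [f]
    have z1 : ix (K p) a1 x = ix (K p) (1 * a1) x := by rw [one_mul]
    rw [z1]
    by_cases c1 : x * (1 * a1)⁻¹ ∈ K p
    · rw [ix_of_mem c1, ix_of_not (ex 1 w1 ε w2 (Ne.symm ne2) c1),
        ix_of_not (ex 1 w1 κ w3 (Ne.symm ne3) c1), ix_of_not (ex 1 w1 (ε * κ) w4 (Ne.symm ne4) c1)]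
      simp [hs]
    · by_cases c2 : x * (ε * a1)⁻¹ ∈ K p
      · rw [ix_of_not c1, ix_of_mem c2, ix_of_not (ex ε w2 κ w3 ne23 c2),
          ix_of_not (ex ε w2 (ε * κ) w4 ne24 c2)]
        simp [hs]
      · by_cases c3 : x * (κ * a1)⁻¹ ∈ K p
        · rw [ix_of_not c1, ix_of_not c2, ix_of_mem c3, ix_of_not (ex κ w3 (ε * κ) w4 ne34 c3)]
          simp [hs]
        · by_cases c4 : x * (ε * κ * a1)⁻¹ ∈ K p
          · rw [ix_of_not c1, ix_of_not c2, ix_of_not c3, ix_of_mem c4]
            simp [hs]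
          · rw [ix_of_not c1, ix_of_not c2, ix_of_not c3, ix_of_not c4]
            simp
  unfold nm
  rw [sum_congr rfl (fun x _ => habs x), sum_add_distrib, sum_add_distrib, sum_add_distrib,
    sum_ix, sum_ix, sum_ix, sum_ix]
  ring

end Pool.Agent.FO
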