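import Pool.Agent.Lib.MP_640417_ag.FO.SpecG

/-!
# Theorem FG, part G: a subgroup of order two, choice of the lift
-/

set_option autoImplicit false

noncomputable section

namespace Pool.Agent.FO

open Finset Pool.Agent.FC

variable {G : Type} [CommGroup G]

private theorem HLem_ix_mul {M : Subgroup G} {τ : G} (hτ : τ * τ = 1) (b x : G) :
    ix M b (τ * x) = ix M (τ * b) x := by
  classical
  have h1 : τ * x * b⁻¹ = x * (τ * b)⁻¹ := by
    have h2 : τ⁻¹ = τ := inv_eq_of_mul_eq_one_right hτ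
    rw [mul_inv, h2, mul_comm τ x, mul_assoc]
  unfold ix
  rw [h1]

private theorem HLem_ix_inv {M : Subgroup G} {k : G} (hk : k ∈ M) (b x : G) :
    ix M b (k * x) = ix M b x := by
  classical
  unfold ix
  have h : k * x * b⁻¹ ∈ M ↔ x * b⁻¹ ∈ M := by
    rw [mul_assoc]
    exact Subgroup.mul_mem_cancel_left M hk
  simp only [h]

private theorem HLem_ix_zo (M : Subgroup G) (b x : G) : ix M b x = 0 ∨ ix M b x = 1 := by
  classical
  unfold ix
  split_ifs
  · exact Or.inr rfl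
  · exact Or.inl rfl

private theorem HLem_ix_one {M : Subgroup G} {b x : G} (h : ix M b x = 1) : x * b⁻¹ ∈ M := by
  classical
  unfold ix at h
  by_contra hc
  rw [if_neg hc] at h
  exact zero_ne_one h

private theorem HLem_ix_disj {M : Subgroup G} {τ b c : G} (hτ : τ ∉ M) (hc : c = τ * b) (x : G) :
    ¬ (ix M b x = 1 ∧ ix M c x = 1) := by
  rintro ⟨h1, h2⟩
  have h3 := HLem_ix_one h1
  have h4 := HLem_ix_one h2
  apply hτ
  have h5 : τ = (x * b⁻¹) * (x * c⁻¹)⁻¹ := by
    rw [eq_mul_inv_iff_mul_eq, hc, mul_inv, mul_left_comm, mul_inv_cancel_left]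
  rw [h5]
  exact M.mul_mem h3 (M.inv_mem h4)

private theorem HLem_ix_sum [Fintype G] (M : Subgroup G) (b : G) :
    ∑ x, ix M b x = (sK M).card := by
  classical
  have h1 : ∑ x, ix M b x = ∑ y : G, (if y ∈ M then (1 : ℤ) else 0) := by
    refine Fintype.sum_equiv (Equiv.mulRight b⁻¹) _ _ fun x => ?_
    rw [Equiv.coe_mulRight]
    unfold ix
    split_ifs <;> rfl
  rw [h1, Finset.sum_boole]
  unfold sK
  norm_cast

private theorem HLem_sum_mul [Fintype G] (κ : G) (f : G → ℤ) : ∑ x, f (κ * x) = ∑ x, f x :=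
  Fintype.sum_equiv (Equiv.mulLeft κ) _ _ fun x => by rw [Equiv.coe_mulLeft]

/-- The value of `T` for a subgroup of order two. -/
private theorem HLem_T [Fintype G] {K3 : Subgroup G} {κ : G} (h3 : ∀ x, x ∈ K3 ↔ x = 1 ∨ x = κ)
    (hκ : κ ≠ 1) (F : G → ℤ) (a : G) : T K3 F a = F a - F (κ * a) := by
  classical
  have h1 : sK K3 = {1, κ} := by
    ext x
    unfold sK
    simp only [Finset.mem_filter, Finset.mem_univ, true_and, Finset.mem_insert,
      Finset.mem_singleton]
    exact h3 x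
  unfold T
  rw [h1, Finset.card_pair hκ.symm, Finset.sum_pair hκ.symm, one_mul]
  push_cast
  ring

private theorem HLem_abs {u v s : ℤ} (hu : u = 0 ∨ u = 1) (hv : v = 0 ∨ v = 1)
    (h : ¬ (u = 1 ∧ v = 1)) (hs : |s| = 1) : |s * (u - v)| = u + v := by
  rw [abs_mul, hs, one_mul]
  rcases hu with rfl | rfl <;> rcases hv with rfl | rfl
  · norm_num
  · norm_num
  · norm_num
  · exact absurd ⟨rfl, rfl⟩ h

private theorem HLem_nmE [Fintype G] {M : Subgroup G} {b c τ : G} (hτ : τ ∉ M) (hc : c = τ * b)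
    {s : ℤ} (hs : |s| = 1) :
    nm (fun x => s * (ix M b x - ix M c x)) = 2 * (sK M).card := by
  unfold nm
  rw [Finset.sum_congr rfl fun x _ => HLem_abs (HLem_ix_zo M b x) (HLem_ix_zo M c x)
    (HLem_ix_disj hτ hc x) hs, Finset.sum_add_distrib, HLem_ix_sum, HLem_ix_sum]
  ring

/-- the pointwise identity -/
private theorem HLem_pt {u0 u1 u2 u3 s f g : ℤ} (h0 : u0 = 0 ∨ u0 = 1) (h1 : u1 = 0 ∨ u1 = 1)
    (h2 : u2 = 0 ∨ u2 = 1) (h3 : u3 = 0 ∨ u3 = 1) (d01 : ¬ (u0 = 1 ∧ u1 = 1))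
    (d02 : ¬ (u0 = 1 ∧ u2 = 1)) (d03 : ¬ (u0 = 1 ∧ u3 = 1)) (d12 : ¬ (u1 = 1 ∧ u2 = 1))
    (d13 : ¬ (u1 = 1 ∧ u3 = 1)) (d23 : ¬ (u2 = 1 ∧ u3 = 1))
    (hfg : f - g = s * (u0 - u1 - u2 + u3)) :
    |f - s * (u0 - u1)| + |f - (-s) * (u2 - u3)| = |f| + |g| := by
  have hg : g = f - s * (u0 - u1 - u2 + u3) := by linarith
  rcases h0 with rfl | rfl
  · rcases h1 with rfl | rfl
    · have e : f - (-s) * (u2 - u3) = g := by rw [hg]; ring
      rw [e]
      simp
    · have e2 : u2 = 0 := h2.resolve_right fun h => d12 ⟨rfl, h⟩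
      have e3 : u3 = 0 := h3.resolve_right fun h => d13 ⟨rfl, h⟩
      have e : f - s * (0 - 1) = g := by rw [hg, e2, e3]; ring
      have e' : f - (-s) * (u2 - u3) = f := by rw [e2, e3]; ring
      rw [e, e', add_comm]
  · have e1 : u1 = 0 := h1.resolve_right fun h => d01 ⟨rfl, h⟩
    have e2 : u2 = 0 := h2.resolve_right fun h => d02 ⟨rfl, h⟩
    have e3 : u3 = 0 := h3.resolve_right fun h => d03 ⟨rfl, h⟩
    have e : f - s * (1 - u1) = g := by rw [hg, e1, e2, e3]; ring
    have e' : f - (-s) * (u2 - u3) = f := by rw [e2, e3]; ring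
    rw [e, e', add_comm]

theorem pHLem : S_HLem := by
  intro G _ _ K K3 ls ε κ h3 hκ hε hκ2 hM F hF hT
  have hTv := HLem_T h3 hκ F
  rcases hT with hT | ⟨p, hp, a, s, hs, hnm, hx⟩
  · left
    intro k hk b
    rcases (h3 k).1 hk with rfl | rfl
    · rw [one_mul]
    · have := hTv b
      rw [hT] at this
      simp only [Pi.zero_apply] at this
      linarith
  · right
    obtain ⟨hM1, hM2, hM3⟩ := hM p hp
    have hs' : |(-s)| = 1 := by rw [abs_neg]; exact hs
    -- the two lifts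
    set E1 : G → ℤ := fun x => s * (ix (K p) a x - ix (K p) (ε * a) x) with hE1
    set E2 : G → ℤ := fun x => (-s) * (ix (K p) (κ * a) x - ix (K p) (ε * κ * a) x) with hE2
    have hh : ∀ x, F x - F (κ * x) = s * (ix (K p) a x - ix (K p) (ε * a) x - ix (K p) (κ * a) x +
        ix (K p) (ε * κ * a) x) := fun x => by rw [← hx x, hTv x]
    have c1 : ε * (ε * a) = a := by rw [← mul_assoc, hε, one_mul]
    have c2 : ε * (κ * a) = ε * κ * a := (mul_assoc _ _ _).symm
    have c3 : ε * (ε * κ * a) = κ * a := by rw [← mul_assoc, ← mul_assoc, hε, one_mul]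
    have c4 : κ * (ε * a) = ε * κ * a := by rw [← mul_assoc, mul_comm κ ε]
    have c5 : κ * (κ * a) = a := by rw [← mul_assoc, hκ2, one_mul]
    have c6 : κ * (ε * κ * a) = ε * a := by
      rw [mul_comm ε κ, ← mul_assoc, ← mul_assoc, hκ2, one_mul]
    have c7 : κ * a = ε * κ * (ε * a) := by
      rw [mul_comm ε κ, mul_assoc, c1]
    have o1 : ∀ x, E1 (ε * x) = -E1 x := by
      intro x
      simp only [hE1]
      rw [HLem_ix_mul hε, HLem_ix_mul hε, c1]
      ring
    have o2 : ∀ x, E2 (ε * x) = -E2 x := by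
      intro x
      simp only [hE2]
      rw [HLem_ix_mul hε, HLem_ix_mul hε, c2, c3]
      ring
    have k1 : ∀ x, E1 x - E1 (κ * x) = F x - F (κ * x) := by
      intro x
      rw [hh x]
      simp only [hE1]
      rw [HLem_ix_mul hκ2, HLem_ix_mul hκ2, c4]
      ring
    have k2 : ∀ x, E2 x - E2 (κ * x) = F x - F (κ * x) := by
      intro x
      rw [hh x]
      simp only [hE2]
      rw [HLem_ix_mul hκ2, HLem_ix_mul hκ2, c5, c6]
      ring
    have i1 : ∀ k ∈ K p, ∀ x, E1 (k * x) = E1 x := by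
      intro k hk x
      simp only [hE1]
      rw [HLem_ix_inv hk, HLem_ix_inv hk]
    have i2 : ∀ k ∈ K p, ∀ x, E2 (k * x) = E2 x := by
      intro k hk x
      simp only [hE2]
      rw [HLem_ix_inv hk, HLem_ix_inv hk]
    have n1 : nm E1 = 2 * (sK (K p)).card := HLem_nmE hM1 rfl hs
    have n2 : nm E2 = 2 * (sK (K p)).card := HLem_nmE hM1 c2.symm hs'
    have hsumκ : ∑ x, |F (κ * x)| = nm F := HLem_sum_mul κ (fun x => |F x|)
    have hle : 2 * ((sK (K p)).card : ℤ) ≤ nm F := by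
      have h1 : nm (T K3 F) ≤ nm F + nm F := by
        unfold nm at hsumκ ⊢
        calc ∑ x, |T K3 F x| ≤ ∑ x, (|F x| + |F (κ * x)|) := by
              refine Finset.sum_le_sum fun x _ => ?_
              rw [hTv x]
              exact abs_sub _ _
          _ = _ := by rw [Finset.sum_add_distrib, hsumκ]
      rw [hnm] at h1
      linarith
    have hsum : nm (fun x => F x - E1 x) + nm (fun x => F x - E2 x) = nm F + nm F := by
      unfold nm at hsumκ ⊢
      nth_rewrite 2 [← hsumκ]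
      rw [← Finset.sum_add_distrib, ← Finset.sum_add_distrib]
      refine Finset.sum_congr rfl fun x _ => ?_
      exact HLem_pt (HLem_ix_zo _ _ _) (HLem_ix_zo _ _ _) (HLem_ix_zo _ _ _) (HLem_ix_zo _ _ _)
        (HLem_ix_disj hM1 rfl x) (HLem_ix_disj hM2 rfl x) (HLem_ix_disj hM3 rfl x)
        (HLem_ix_disj hM3 c7 x) (HLem_ix_disj hM2 c4.symm x) (HLem_ix_disj hM1 c2.symm x) (hh x)
    have inv3 : ∀ E : G → ℤ, (∀ x, E x - E (κ * x) = F x - F (κ * x)) →
        ∀ k ∈ K3, ∀ x, F (k * x) - E (k * x) = F x - E x := by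
      intro E hE k hk x
      rcases (h3 k).1 hk with rfl | rfl
      · rw [one_mul]
      · have := hE x
        linarith
    by_cases hc : nm (fun x => F x - E1 x) ≤ nm F
    · exact ⟨p, hp, E1, o1, i1, n1, hle, hc, inv3 E1 k1⟩
    · refine ⟨p, hp, E2, o2, i2, n2, hle, ?_, inv3 E2 k2⟩
      have := not_le.1 hc
      linarith

end Pool.Agent.FO
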