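import Pool.Agent.Lib.MP_640417_ag.FO.SpecG

/-!
# Theorem FG, part G: relations of norm at most 6 on one coset
-/

set_option autoImplicit false

open Finset Pool.Agent.FC

namespace Pool.Agent.FO

namespace HLocAux

variable {G : Type} [CommGroup G] [Fintype G]

theorem diffc (K L : Subgroup G) (h : G → ℤ) (hT : T L (T K h) = 0)
    {x x' : G} (hx : x ∈ K) (hx' : x' ∈ K) {b : G} (hb : b ∈ L) (c : G) :
    h (x * (b * c)) - h (x' * (b * c)) = h (x * c) - h (x' * c) := by
  have hc : T K (T L h) = 0 := by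
    rw [TBasAux.t_comm]
    exact hT
  have hi := (TBasAux.t_zero_iff K (T L h)).1 hc
  have hg : T L (fun c => h (x * c) - h (x' * c)) = 0 := by
    rw [TBasAux.t_sub L (fun c => h (x * c)) (fun c => h (x' * c)), TBasAux.t_trans L h x,
      TBasAux.t_trans L h x']
    funext c
    show T L h (x * c) - T L h (x' * c) = 0
    rw [hi x hx c, hi x' hx' c, sub_self]
  exact (TBasAux.t_zero_iff L _).1 hg b hb c

theorem ix_eq (K : Subgroup G) (a x : G) (hx : x * a⁻¹ ∈ K) : ix K a x = 1 := by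
  unfold ix
  rw [if_pos hx]

theorem ix_ne (K : Subgroup G) (a x : G) (hx : x * a⁻¹ ∉ K) : ix K a x = 0 := by
  unfold ix
  rw [if_neg hx]

/-- two terms of a sum of nonnegative integers -/
theorem two_le {ι : Type} [DecidableEq ι] (s : Finset ι) (f : ι → ℤ) (hf : ∀ i ∈ s, 0 ≤ f i) {i j : ι}
    (hi : i ∈ s) (hj : j ∈ s) (hij : i ≠ j) : f i + f j ≤ ∑ k ∈ s, f k := by
  have h1 := Finset.sum_le_sum_of_subset_of_nonneg (f := f) (s := {i, j}) (t := s)
    (by
      intro k hk
      rw [Finset.mem_insert, Finset.mem_singleton] at hk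
      rcases hk with rfl | rfl
      · exact hi
      · exact hj)
    (fun k hk _ => hf k hk)
  rwa [Finset.sum_pair hij] at h1

theorem two (K L : Subgroup G) (hd : Disjoint K L) (hK : 6 ≤ (sK K).card) (hL : 4 ≤ (sK L).card) (h : G → ℤ)
    (hT : T L (T K h) = 0) (a : G) (hn : cn (K ⊔ L) h a ≤ 6) :
    (∀ b ∈ K ⊔ L, h (b * a) = 0) ∨
      (∃ c ∈ K ⊔ L, ∃ s : ℤ, |s| = 1 ∧ ∀ b ∈ K ⊔ L, h (b * a) = s * ix L (c * a) (b * a)) ∨
      (∃ c ∈ K ⊔ L, ∃ s : ℤ, |s| = 1 ∧ ∀ b ∈ K ⊔ L, h (b * a) = s * ix K (c * a) (b * a)) := by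
  classical
  have hL' : (4 : ℤ) ≤ ((sK L).card : ℤ) := by exact_mod_cast hL
  have hK' : (6 : ℤ) ≤ ((sK K).card : ℤ) := by exact_mod_cast hK
  have hsum : ∑ x ∈ sK K, ∑ b ∈ sK L, |h (x * b * a)| ≤ 6 := by
    rw [← pSumKK G K L hd (fun c => |h (c * a)|)]
    exact hn
  have hnn : ∀ x ∈ sK K, 0 ≤ ∑ b ∈ sK L, |h (x * b * a)| :=
    fun x _ => Finset.sum_nonneg fun b _ => abs_nonneg _
  have hdf : ∀ x ∈ K, ∀ x' ∈ K, ∀ b ∈ L, h (x * b * a) - h (x' * b * a) = h (x * a) - h (x' * a) := by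
    intro x hx x' hx' b hb
    rw [mul_assoc, mul_assoc]
    exact diffc K L h hT hx hx' hb a
  have hKL : K ≤ K ⊔ L := le_sup_left
  have hLL : L ≤ K ⊔ L := le_sup_right
  by_cases hz : ∃ x0 ∈ K, ∑ b ∈ sK L, |h (x0 * b * a)| = 0
  · obtain ⟨x0, hx0, h0⟩ := hz
    have h1 : ∀ b ∈ L, h (x0 * b * a) = 0 := by
      intro b hb
      have h2 := (Finset.sum_eq_zero_iff_of_nonneg (fun b _ => abs_nonneg _)).1 h0 b
        ((TBasAux.mem_sK L b).2 hb)
      exact abs_eq_zero.1 h2
    have h1' : h (x0 * a) = 0 := by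
      have := h1 1 (one_mem L)
      rwa [mul_one] at this
    have h2 : ∀ x ∈ K, ∀ b ∈ L, h (x * b * a) = h (x * a) := by
      intro x hx b hb
      have h3 := hdf x hx x0 hx0 b hb
      rw [h1 b hb, h1'] at h3
      linarith
    have h3 : ∀ x ∈ K, ∑ b ∈ sK L, |h (x * b * a)| = (sK L).card * |h (x * a)| := by
      intro x hx
      rw [Finset.sum_congr rfl (fun b hb => by rw [h2 x hx b ((TBasAux.mem_sK L b).1 hb)]),
        Finset.sum_const, nsmul_eq_mul]
    by_cases hall : ∀ x ∈ K, h (x * a) = 0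
    · left
      intro b hb
      rw [Subgroup.mem_sup] at hb
      obtain ⟨x, hx, y, hy, rfl⟩ := hb
      rw [h2 x hx y hy, hall x hx]
    · right
      left
      push Not at hall
      obtain ⟨x1, hx1, hc⟩ := hall
      have hc1 : 1 ≤ |h (x1 * a)| := Int.one_le_abs hc
      have h4 : ((sK L).card : ℤ) * |h (x1 * a)| ≤ 6 := by
        rw [← h3 x1 hx1]
        exact le_trans (Finset.single_le_sum hnn ((TBasAux.mem_sK K x1).2 hx1)) hsum
      have hc2 : |h (x1 * a)| = 1 := by nlinarith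
      refine ⟨x1, hKL hx1, h (x1 * a), hc2, ?_⟩
      intro b hb
      rw [Subgroup.mem_sup] at hb
      obtain ⟨x, hx, y, hy, rfl⟩ := hb
      rw [h2 x hx y hy]
      by_cases hxx : x = x1
      · subst hxx
        rw [ix_eq, mul_one]
        have : x * y * a * (x * a)⁻¹ = y := by
          rw [mul_inv]
          have : x * y * a * (x⁻¹ * a⁻¹) = y * (x * x⁻¹) * (a * a⁻¹) := by
            rw [mul_comm x y]
            simp only [mul_assoc]
            rw [mul_left_comm a x⁻¹ a⁻¹]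
          rw [this, mul_inv_cancel, mul_inv_cancel, mul_one, mul_one]
        rw [this]
        exact hy
      · have h5 := two_le (sK K) _ hnn ((TBasAux.mem_sK K x).2 hx) ((TBasAux.mem_sK K x1).2 hx1) hxx
        simp only [h3 x hx, h3 x1 hx1, hc2] at h5
        have h6 : ((sK L).card : ℤ) * |h (x * a)| + (sK L).card * 1 ≤ 6 := le_trans h5 hsum
        have h7 : |h (x * a)| = 0 := by
          by_contra hne
          have : 1 ≤ |h (x * a)| := Int.one_le_abs (fun h0 => hne (by rw [h0, abs_zero]))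
          nlinarith
        rw [abs_eq_zero.1 h7, ix_ne, mul_zero]
        intro hm
        have e1 : x * y * a * (x1 * a)⁻¹ = x * x1⁻¹ * y := by
          rw [mul_inv]
          have : x * y * a * (x1⁻¹ * a⁻¹) = x * x1⁻¹ * y * (a * a⁻¹) := by
            simp only [mul_assoc]
            rw [mul_left_comm a x1⁻¹ a⁻¹, mul_left_comm y x1⁻¹]
          rw [this, mul_inv_cancel, mul_one]
        rw [e1] at hm
        have h8 : x * x1⁻¹ ∈ L := (Subgroup.mul_mem_cancel_right L hy).1 hm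
        have h9 : x * x1⁻¹ = 1 := Subgroup.disjoint_def.1 hd (K.mul_mem hx (K.inv_mem hx1)) h8
        exact hxx (mul_inv_eq_one.1 h9)
  · right
    right
    push Not at hz
    have h1 : ∀ x ∈ sK K, 1 ≤ ∑ b ∈ sK L, |h (x * b * a)| := by
      intro x hx
      have := hnn x hx
      have h2 := hz x ((TBasAux.mem_sK K x).1 hx)
      omega
    have h2 : ∀ x ∈ sK K, ∑ b ∈ sK L, |h (x * b * a)| = 1 := by
      intro x hx
      have h3 : ∑ x ∈ sK K, (∑ b ∈ sK L, |h (x * b * a)| - 1) ≤ 0 := by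
        rw [Finset.sum_sub_distrib, Finset.sum_const, nsmul_eq_mul, mul_one]
        linarith
      have h4 := Finset.single_le_sum (f := fun x => ∑ b ∈ sK L, |h (x * b * a)| - 1)
        (fun y hy => sub_nonneg.2 (h1 y hy)) hx
      have h5 := h1 x hx
      linarith
    have h3 : ∀ x ∈ K, ∀ b ∈ L, h (x * b * a) = h (1 * b * a) := by
      intro x hx b hb
      have e := hdf x hx 1 (one_mem K)
      have h4 : ∑ b ∈ sK L, |h (x * b * a) - h (1 * b * a)| ≤ 2 := by
        calc ∑ b ∈ sK L, |h (x * b * a) - h (1 * b * a)|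
            ≤ ∑ b ∈ sK L, (|h (x * b * a)| + |h (1 * b * a)|) :=
              Finset.sum_le_sum fun b _ => abs_sub _ _
          _ = 2 := by
              rw [Finset.sum_add_distrib, h2 x ((TBasAux.mem_sK K x).2 hx),
                h2 1 ((TBasAux.mem_sK K 1).2 (one_mem K))]
              norm_num
      rw [Finset.sum_congr rfl (fun b hb => by rw [e b ((TBasAux.mem_sK L b).1 hb)]),
        Finset.sum_const, nsmul_eq_mul] at h4
      have h5 : |h (x * a) - h (1 * a)| = 0 := by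
        by_contra hne
        have : 1 ≤ |h (x * a) - h (1 * a)| := Int.one_le_abs (fun h0 => hne (by rw [h0, abs_zero]))
        nlinarith
      have h6 := e b hb
      rw [abs_eq_zero.1 h5] at h6
      linarith
    have h4 := h2 1 ((TBasAux.mem_sK K 1).2 (one_mem K))
    have h5 : ∃ b0 ∈ sK L, |h (1 * b0 * a)| ≠ 0 := by
      apply Finset.exists_ne_zero_of_sum_ne_zero
      rw [h4]
      exact one_ne_zero
    obtain ⟨b0, hb0, hc⟩ := h5
    have hb0' : b0 ∈ L := (TBasAux.mem_sK L b0).1 hb0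
    have hnn1 : ∀ b ∈ sK L, 0 ≤ |h (1 * b * a)| := fun b _ => abs_nonneg _
    have h6 : |h (1 * b0 * a)| = 1 := by
      have h7 := Finset.single_le_sum hnn1 hb0
      have h8 := hnn1 b0 hb0
      omega
    refine ⟨b0, hLL hb0', h (1 * b0 * a), h6, ?_⟩
    intro b hb
    rw [Subgroup.mem_sup] at hb
    obtain ⟨x, hx, y, hy, rfl⟩ := hb
    rw [h3 x hx y hy]
    have e1 : x * y * a * (b0 * a)⁻¹ = x * (y * b0⁻¹) := by
      rw [mul_inv]
      have : x * y * a * (b0⁻¹ * a⁻¹) = x * (y * b0⁻¹) * (a * a⁻¹) := by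
        simp only [mul_assoc]
        rw [mul_left_comm a b0⁻¹ a⁻¹]
      rw [this, mul_inv_cancel, mul_one]
    by_cases hyy : y = b0
    · subst hyy
      rw [ix_eq, mul_one]
      rw [e1, mul_inv_cancel, mul_one]
      exact hx
    · have h7 := two_le (sK L) _ hnn1 ((TBasAux.mem_sK L y).2 hy) hb0 hyy
      have h8 := hnn1 y ((TBasAux.mem_sK L y).2 hy)
      have h9 : |h (1 * y * a)| = 0 := by
        omega
      rw [abs_eq_zero.1 h9, ix_ne, mul_zero]
      intro hm
      rw [e1] at hm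
      have h10 : y * b0⁻¹ ∈ K := (Subgroup.mul_mem_cancel_left K hx).1 hm
      have h11 : y * b0⁻¹ = 1 := Subgroup.disjoint_def.1 hd h10 (L.mul_mem hy (L.inv_mem hb0'))
      exact hyy (mul_inv_eq_one.1 h11)

theorem one (L : Subgroup G) (hL : 4 ≤ (sK L).card) (h : G → ℤ) (hT : T L h = 0) (a : G) (hn : cn L h a ≤ 6) :
    (∀ b ∈ L, h (b * a) = 0) ∨
      (∃ c ∈ L, ∃ s : ℤ, |s| = 1 ∧ ∀ b ∈ L, h (b * a) = s * ix L (c * a) (b * a)) := by
  have hL' : (4 : ℤ) ≤ ((sK L).card : ℤ) := by exact_mod_cast hL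
  have hi := (TBasAux.t_zero_iff L h).1 hT
  have h1 : cn L h a = (sK L).card * |h a| := by
    unfold cn
    rw [Finset.sum_congr rfl (fun b hb => by rw [hi b ((TBasAux.mem_sK L b).1 hb) a]),
      Finset.sum_const, nsmul_eq_mul]
  rw [h1] at hn
  by_cases h0 : h a = 0
  · left
    intro b hb
    rw [hi b hb a, h0]
  · right
    have h2 : 1 ≤ |h a| := Int.one_le_abs h0
    refine ⟨1, one_mem L, h a, by nlinarith, ?_⟩
    intro b hb
    rw [hi b hb a, ix_eq, mul_one]
    rw [one_mul, mul_inv_cancel_right]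
    exact hb

end HLocAux

open HLocAux in
theorem pHLoc : S_HLoc := by
  intro G _ _ K ls hI hcase h hT a hn
  rcases hcase with rfl | ⟨j, rfl, hj⟩ | ⟨i, j, rfl, hi, hj⟩
  · left
    intro b _
    exact congrFun hT (b * a)
  · have e : KS K [j] = K j := by
      show K j ⊔ ⊥ = K j
      exact sup_bot_eq _
    rw [e] at hn ⊢
    rcases one (K j) hj h hT a hn with h1 | ⟨c, hc, s, hs, h1⟩
    · left
      exact h1
    · right
      exact ⟨j, List.mem_singleton.2 rfl, c, hc, s, hs, h1⟩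
  · have e : KS K [i, j] = K i ⊔ K j := by
      show K i ⊔ (K j ⊔ ⊥) = K i ⊔ K j
      rw [sup_bot_eq]
    have hd : Disjoint (K i) (K j) := by
      have h1 : Disjoint (K i) (K j ⊔ ⊥) := hI.1
      rwa [sup_bot_eq] at h1
    rw [e] at hn ⊢
    rcases two (K i) (K j) hd hi hj h hT a hn with h1 | ⟨c, hc, s, hs, h1⟩ | ⟨c, hc, s, hs, h1⟩
    · left
      exact h1
    · right
      exact ⟨j, by simp, c, hc, s, hs, h1⟩
    · right
      exact ⟨i, by simp, c, hc, s, hs, h1⟩

end Pool.Agent.FO
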