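import Pool.Agent.Lib.MP_640417_ag.FO.SpecL

/-!
# Theorem FO: `hD p G` satisfies the relations (module `HdP`)
-/

set_option autoImplicit false

noncomputable section

namespace Pool.Agent.FO

open Finset Pool.Agent.FC

theorem pHdP (hDist : S_Dist) : S_HdP := by
  intro m p _ hp G hG t ht
  have h1 : ∑ x : ZMod m, ((G (p * x) : ℤ) : ℚ) * sz ((t : ZMod m) * x) =
      ∑ z : ZMod m, ((G z : ℤ) : ℚ) * sz ((t : ZMod m) * z) := by
    rw [← Finset.sum_fiberwise univ (fun x : ZMod m => (p : ZMod m) * x)]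
    refine Finset.sum_congr rfl fun z _ => ?_
    have h2 : ∀ x ∈ univ.filter (fun x : ZMod m => (p : ZMod m) * x = z),
        ((G (p * x) : ℤ) : ℚ) * sz ((t : ZMod m) * x) = ((G z : ℤ) : ℚ) * sz ((t : ZMod m) * x) := by
      intro x hx
      rw [(Finset.mem_filter.1 hx).2]
    rw [Finset.sum_congr rfl h2, ← Finset.mul_sum]
    by_cases hz : G z = 0
    · rw [hz]
      simp
    · obtain ⟨y, rfl⟩ := hG z hz
      rw [(hDist m p hp).2 t ht y, mul_left_comm]
  unfold P hD
  have h3 : ∀ x : ZMod m, (((G (p * x) - G x : ℤ)) : ℚ) * sz ((t : ZMod m) * x) =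
      ((G (p * x) : ℤ) : ℚ) * sz ((t : ZMod m) * x) - ((G x : ℤ) : ℚ) * sz ((t : ZMod m) * x) := by
    intro x
    push_cast
    ring
  rw [Finset.sum_congr rfl fun x _ => h3 x, Finset.sum_sub_distrib, h1, sub_self]

end Pool.Agent.FO
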