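import Pool.Agent.Lib.MP_640417_ag.FO.SpecL

set_option autoImplicit false

namespace Pool.Agent.FO

open Finset Pool.Agent.FC

private theorem HoBas_odd {m : ℕ} (p : ℕ) (G : ZMod m → ℤ) (h : IsOdd G) (x : ZMod m) :
    hD p G (-x) = -hD p G x := by
  unfold hD
  rw [mul_neg, h, h]
  ring

private theorem HoBas_P {m : ℕ} [NeZero m] (s : Finset ℕ) (h : ℕ → ZMod m → ℤ) (t : ZMod m) :
    P (fun x => ∑ p ∈ s, h p x) t = ∑ p ∈ s, P (h p) t := by
  unfold P
  rw [Finset.sum_comm]
  refine Finset.sum_congr rfl fun x _ => ?_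
  push_cast
  rw [Finset.sum_mul]

theorem pHoBas (hHdP : S_HdP) : S_HoBas := by
  intro m _ f g
  refine ⟨?_, ?_, ?_⟩
  · rintro ⟨G, hG, hf⟩
    constructor
    · intro x
      rw [hf, hf, ← Finset.sum_neg_distrib]
      exact Finset.sum_congr rfl fun p hp => HoBas_odd p (G p) (hG p hp).1 x
    · intro t
      have e : f = fun x => ∑ p ∈ m.primeFactors, hD p (G p) x := funext hf
      rw [e, HoBas_P]
      refine Finset.sum_eq_zero fun p hp => ?_
      have hpm : p ∣ m := Nat.dvd_of_mem_primeFactors hp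
      have hc : ((t : ZMod m).val).Coprime p :=
        Nat.Coprime.coprime_dvd_right hpm (ZMod.val_coe_unit_coprime t)
      have h1 := hHdP m p hpm (G p) (hG p hp).2 _ hc
      rwa [ZMod.natCast_zmod_val] at h1
  · rintro ⟨G, hG, hf⟩ ⟨G', hG', hg⟩
    refine ⟨fun p x => G p x + G' p x, fun p hp => ⟨?_, ?_⟩, ?_⟩
    · intro x
      change G p (-x) + G' p (-x) = -(G p x + G' p x)
      rw [(hG p hp).1 x, (hG' p hp).1 x]
      ring
    · intro z hz
      by_cases h0 : G p z = 0
      · by_cases h1 : G' p z = 0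
        · exfalso
          apply hz
          change G p z + G' p z = 0
          rw [h0, h1, add_zero]
        · exact (hG' p hp).2 z h1
      · exact (hG p hp).2 z h0
    · intro x
      change f x + g x = _
      rw [hf, hg, ← Finset.sum_add_distrib]
      refine Finset.sum_congr rfl fun p _ => ?_
      unfold hD
      ring
  · refine ⟨fun _ _ => 0, fun p _ => ⟨fun x => by simp, fun z hz => absurd rfl hz⟩, ?_⟩
    intro x
    simp [hD]

end Pool.Agent.FO
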