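import Pool.Agent.Lib.MP_640417_ag.FO.SpecL

/-!
# Theorem FO: sums of the functions `hD p (G p)` are `InHo`
-/

set_option autoImplicit false

open Finset Pool.Agent.FC

namespace Pool.Agent.FO

/-- Sums of Hasse-Davenport relations with odd coefficients are `InHo`. -/
theorem pHoHd : S_HoHd := by
  classical
  intro m _ s G hs hG
  refine ⟨fun p => if p ∈ s then G p else fun _ => 0, fun p _ => ?_, fun x => ?_⟩
  · by_cases h : p ∈ s
    · simp only [if_pos h]
      exact hG p h
    · simp only [if_neg h]
      exact ⟨fun x => by simp, fun z hz => absurd rfl hz⟩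
  · have h1 : ∑ p ∈ s, hD p (G p) x =
        ∑ p ∈ s, hD p ((fun p => if p ∈ s then G p else fun _ => 0) p) x := by
      refine Finset.sum_congr rfl fun p hp => ?_
      simp only [if_pos hp]
    show ∑ p ∈ s, hD p (G p) x = _
    rw [h1]
    refine Finset.sum_subset hs fun p _ hp => ?_
    simp only [if_neg hp, hD, sub_self]

end Pool.Agent.FO
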