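import Pool.Agent.Lib.MP_640417_ag.FO.SpecR

set_option autoImplicit false

open Finset Pool.Agent.FC

namespace Pool.Agent.FO

namespace IndAllAux

private lemma single_sum {m : ℕ} [NeZero m] (x : ZMod m) (g : ZMod m → ℤ) (F : ZMod m → ℚ)
    (h : ∑ z, (((Pi.single x 1 - g : ZMod m → ℤ) z : ℤ) : ℚ) * F z = 0) :
    F x = ∑ z, (g z : ℚ) * F z := by
  classical
  have e : ∑ z, (((Pi.single x 1 - g : ZMod m → ℤ) z : ℤ) : ℚ) * F z =
      F x - ∑ z, (g z : ℚ) * F z := by
    have e1 : ∀ z, (((Pi.single x 1 - g : ZMod m → ℤ) z : ℤ) : ℚ) * F z =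
        (if z = x then F z else 0) - (g z : ℚ) * F z := by
      intro z
      rw [Pi.sub_apply, Pi.single_apply]
      split_ifs
      · push_cast
        ring
      · push_cast
        ring
    rw [Finset.sum_congr rfl (fun z _ => e1 z), Finset.sum_sub_distrib, Finset.sum_ite_eq']
    simp
  rw [e] at h
  linarith

private lemma supp_sum {m : ℕ} [NeZero m] (B : Finset (ZMod m)) (g : ZMod m → ℤ)
    (hg : ∀ z, g z ≠ 0 → z ∈ B) (F : ZMod m → ℚ) :
    ∑ z, (g z : ℚ) * F z = ∑ b ∈ B, (g b : ℚ) * F b := by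
  symm
  apply Finset.sum_subset (subset_univ B)
  intro z _ hz
  have : g z = 0 := by
    by_contra h
    exact hz (hg z h)
  rw [this]
  simp

end IndAllAux

open IndAllAux

theorem pIndAll (hRankG : S_RankG) (hNvO : S_NvO) (hNvE : S_NvE) (hCntNS : S_CntNS)
    (hSpan : S_Span) (hDGBas : S_DGBas) : S_IndAll := by
  classical
  intro m q r _ _ ψ hA hq hq2 c hc hrel
  have hqp := Nat.prime_of_mem_primeFactors hq
  have hqm := Nat.dvd_of_mem_primeFactors hq
  have hPqm : ∀ (t : ℕ) (s : (ZMod m)ˣ), Pq m q t → Pq m q (t * (s : ZMod m).val) := by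
    intro t s ht p hp hpq
    apply Nat.Coprime.mul_left (ht p hp hpq)
    exact Nat.Coprime.coprime_dvd_right (Nat.dvd_of_mem_primeFactors hp)
      (ZMod.val_coe_unit_coprime s)
  let B : Finset (ZMod m) := univ.filter (fun x => NS m q x)
  have hB : ∀ x, x ∈ B ↔ NS m q x := fun x => by simp [B]
  have hBc : B.card ≤ (univ : Finset (DirichletCharacter ℂ m)).card := by
    rw [Finset.card_univ, ← Nat.card_eq_fintype_card,
      DirichletCharacter.card_eq_totient_of_hasEnoughRootsOfUnity]
    refine le_trans (le_of_eq ?_) (hCntNS m q hq hq2).1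
    rw [← Set.ncard_coe_finset]
    congr 1
    ext x
    rw [Finset.mem_coe, hB]
    rfl
  have key := hRankG m ({t : ℕ // Pq m q t} × Bool)
    (fun x i => if i.2 = true then ((spsi m r ψ ((i.1.1 : ZMod m) * x) : ℚ) : ℂ)
      else ((sz ((i.1.1 : ZMod m) * x) : ℚ) : ℂ))
    (fun s i => (⟨i.1.1 * (s : ZMod m).val, hPqm i.1.1 s i.1.2⟩, i.2))
    {x | Tp m q x} B univ
    (by
      intro s x i
      have e : (i.1.1 : ZMod m) * ((s : ZMod m) * x) =
          ((i.1.1 * (s : ZMod m).val : ℕ) : ZMod m) * x := by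
        push_cast
        rw [ZMod.natCast_zmod_val]
        ring
      simp only [e])
    (by
      intro x hx s
      change ((m / q : ℕ) : ZMod m) * ((s : ZMod m) * x) ≠ 0
      intro h
      apply hx
      rw [mul_left_comm] at h
      exact (Units.mul_right_eq_zero s).1 h)
    (by
      intro x hx
      obtain ⟨⟨g, hg, hh⟩, -⟩ := hSpan m q hq hq2 x hx
      refine ⟨fun b => (g b : ℂ), ?_⟩
      rintro ⟨⟨t, ht⟩, b⟩
      obtain ⟨h1, h2⟩ := (hDGBas m q r ψ hA hq).1 _ hh t ht
      have hgB : ∀ z, g z ≠ 0 → z ∈ B := fun z hz => (hB z).2 (hg z hz)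
      cases b
      · have h3 := single_sum x g (fun z => sz ((t : ZMod m) * z)) h1
        rw [supp_sum B g hgB] at h3
        have h4 := congrArg (fun r : ℚ => (r : ℂ)) h3
        simp only [Bool.false_eq_true, if_false]
        push_cast at h4
        exact h4
      · have h3 := single_sum x g (fun z => spsi m r ψ ((t : ZMod m) * z)) h2
        rw [supp_sum B g hgB] at h3
        have h4 := congrArg (fun r : ℚ => (r : ℂ)) h3
        simp only [if_true]
        push_cast at h4
        exact h4)
    (by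
      intro χ _
      rcases χ.even_or_odd with he | ho
      · obtain ⟨x, t, hx, ht, h⟩ := hNvE m q r ψ hA hqp hqm χ he
        refine ⟨x, hx, (⟨t, ht⟩, true), ?_⟩
        simp only [if_true]
        exact h
      · obtain ⟨x, t, hx, ht, h⟩ := hNvO m q hqp hqm χ ho
        refine ⟨x, hx, (⟨t, ht⟩, false), ?_⟩
        simp only [Bool.false_eq_true, if_false]
        exact h)
    hBc (fun b => (c b : ℂ))
    (by
      rintro ⟨⟨t, ht⟩, b⟩
      obtain ⟨h1, h2⟩ := hrel t ht
      have hcB : ∀ z, c z ≠ 0 → z ∈ B := fun z hz => (hB z).2 (hc z hz)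
      cases b
      · have h3 : ∑ z, (c z : ℚ) * sz ((t : ZMod m) * z) = 0 := h1
        rw [supp_sum B c hcB] at h3
        have h4 := congrArg (fun r : ℚ => (r : ℂ)) h3
        simp only [Bool.false_eq_true, if_false]
        push_cast at h4
        exact h4
      · have h3 : ∑ z, (c z : ℚ) * spsi m r ψ ((t : ZMod m) * z) = 0 := h2
        rw [supp_sum B c hcB] at h3
        have h4 := congrArg (fun r : ℚ => (r : ℂ)) h3
        simp only [if_true]
        push_cast at h4
        exact h4)
  funext x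
  by_cases hx : c x = 0
  · exact hx
  · have := key x ((hB x).2 (hc x hx))
    exact_mod_cast this

end Pool.Agent.FO
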