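import Pool.Agent.Lib.MP_640417_ag.FO.SpecR
import Pool.Agent.Lib.MP_640417_ag.FT.Spec

/-!
# Theorem FR, module IndOdd (helper47): independence of the positive non special elements
-/

set_option autoImplicit false

open Finset Pool.Agent.FC

namespace Pool.Agent.FO

namespace IndOddAux

theorem P_sub {m : ℕ} [NeZero m] (f g : ZMod m → ℤ) (t : ZMod m) :
    P (fun x => f x - g x) t = P f t - P g t := by
  unfold P
  rw [← Finset.sum_sub_distrib]
  refine Finset.sum_congr rfl fun x _ => ?_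
  push_cast
  ring

theorem P_neg (hSzBas : S_SzBas) {m : ℕ} [NeZero m] (f : ZMod m → ℤ) (t : ZMod m) :
    P (fun x => f (-x)) t = - P f t := by
  unfold P
  rw [← Finset.sum_neg_distrib, ← Equiv.sum_comp (Equiv.neg (ZMod m))]
  refine Finset.sum_congr rfl fun x _ => ?_
  rw [Equiv.neg_apply]
  change ((f (- -x) : ℤ) : ℚ) * sz (t * -x) = -((f x : ℤ) * sz (t * x))
  rw [neg_neg, mul_neg, (hSzBas m (t * x)).1]
  ring

theorem P_single {m : ℕ} [NeZero m] (x t : ZMod m) : P (Pi.single x 1) t = sz (t * x) := by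
  unfold P
  rw [Finset.sum_eq_single x]
  · rw [Pi.single_eq_same]
    simp
  · intro y _ hy
    rw [Pi.single_eq_of_ne hy]
    simp
  · intro h
    exact absurd (Finset.mem_univ x) h

end IndOddAux

open IndOddAux in
theorem pIndOdd (hRankG : S_RankG) (hNvO : S_NvO) (hOdd : Pool.Agent.FT.S_Odd)
    (hCntNS : S_CntNS) (hSpan : S_Span) (hDGBas : S_DGBas) (hAuxEx : S_AuxEx)
    (hSzBas : S_SzBas) : S_IndOdd := by
  classical
  intro m q _ hq hq2 c hc hPc
  have hqp : q.Prime := Nat.prime_of_mem_primeFactors hq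
  have hqm : q ∣ m := Nat.dvd_of_mem_primeFactors hq
  have hm0 : 0 < m := Nat.pos_of_ne_zero (NeZero.ne m)
  have hm3 : 3 ≤ m := by
    have h1 := hqp.two_le
    have h2 := Nat.le_of_dvd hm0 hqm
    omega
  obtain ⟨r, ψ, haux⟩ := hAuxEx m
  have hr : NeZero r := ⟨haux.1.ne_zero⟩
  obtain ⟨hD1, -, hD3, -, -, -⟩ := hDGBas m q r ψ haux hq
  obtain ⟨C, hC, hCcard⟩ := hOdd m hm3
  obtain ⟨B, hB⟩ : ∃ B : Finset (ZMod m), B = univ.filter (fun x => NS m q x ∧ Pos m q x) :=
    ⟨_, rfl⟩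
  have hBmem : ∀ x, x ∈ B ↔ NS m q x ∧ Pos m q x := by
    intro x
    rw [hB, Finset.mem_filter]
    exact ⟨fun h => h.2, fun h => ⟨Finset.mem_univ _, h⟩⟩
  have hBcard : 2 * B.card ≤ m.totient := by
    have h1 := (hCntNS m q hq hq2).2
    have h2 : {x : ZMod m | NS m q x ∧ Pos m q x}.ncard = B.card := by
      rw [← Set.ncard_coe_finset B]
      congr 1
      ext x
      rw [Finset.mem_coe, hBmem]
      exact Iff.rfl
    rwa [h2] at h1
  have hsupp : ∀ (g : ZMod m → ℤ), (∀ z, g z ≠ 0 → NS m q z ∧ Pos m q z) → ∀ t : ZMod m,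
      P g t = ∑ b ∈ B, (g b : ℚ) * sz (t * b) := by
    intro g hg t
    unfold P
    symm
    refine Finset.sum_subset (Finset.subset_univ B) fun x _ hx => ?_
    have h1 : g x = 0 := by
      by_contra h1
      exact hx ((hBmem x).2 (hg x h1))
    rw [h1, Int.cast_zero, zero_mul]
  have hunit : ∀ s : (ZMod m)ˣ, Pq m q (s : ZMod m).val := by
    intro s p hp _
    exact Nat.Coprime.coprime_dvd_right (Nat.dvd_of_mem_primeFactors hp) (ZMod.val_coe_unit_coprime s)
  have key := hRankG m {t : ℕ // Pq m q t}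
    (fun x i => ((sz ((i.1 : ZMod m) * x) : ℚ) : ℂ))
    (fun s i => ⟨i.1 * (s : ZMod m).val, fun p hp hpq =>
      Nat.Coprime.mul_left (i.2 p hp hpq) (hunit s p hp hpq)⟩)
    {x | Tp m q x} B C ?_ ?_ ?_ ?_ ?_ (fun x => (c x : ℂ)) ?_
  · funext x
    by_contra hx
    have hx' : c x ≠ 0 := hx
    have h1 := key x ((hBmem x).2 (hc x hx'))
    exact hx' (by exact_mod_cast h1)
  · intro s x i
    change ((sz ((i.1 : ZMod m) * ((s : ZMod m) * x)) : ℚ) : ℂ) =
      ((sz (((i.1 * (s : ZMod m).val : ℕ) : ZMod m) * x) : ℚ) : ℂ)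
    rw [Nat.cast_mul, ZMod.natCast_zmod_val, mul_assoc]
  · intro x hx s
    change ((m / q : ℕ) : ZMod m) * ((s : ZMod m) * x) ≠ 0
    intro h
    apply hx
    rw [mul_left_comm] at h
    exact (Units.mul_right_eq_zero s).1 h
  · intro x hx
    obtain ⟨g, hg, hgD⟩ := (hSpan m q hq hq2 x hx).2
    refine ⟨fun b => (g b : ℂ), fun i => ?_⟩
    have h1 : (P (Pi.single x 1 - g) (i.1 : ZMod m)) = 0 := by
      have h2 := (hD1 _ (hD3 _ hgD) i.1 i.2).1
      rw [P_sub, P_neg hSzBas (Pi.single x 1 - g)] at h2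
      have h3 : P (fun z => (Pi.single x 1 - g : ZMod m → ℤ) z) (i.1 : ZMod m) =
          P (Pi.single x 1 - g) (i.1 : ZMod m) := rfl
      rw [h3] at h2
      linarith
    have h4 : P (Pi.single x 1 - g) (i.1 : ZMod m) =
        P (Pi.single x 1) (i.1 : ZMod m) - P g (i.1 : ZMod m) :=
      P_sub (Pi.single x 1) g (i.1 : ZMod m)
    rw [h4, P_single, sub_eq_zero] at h1
    change ((sz ((i.1 : ZMod m) * x) : ℚ) : ℂ) = _
    rw [h1, hsupp g hg, Rat.cast_sum]
    refine Finset.sum_congr rfl fun b _ => ?_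
    push_cast
    rfl
  · intro χ hχ
    obtain ⟨x, t, hx, ht, hne⟩ := hNvO m q hqp hqm χ (hC χ hχ)
    exact ⟨x, hx, ⟨t, ht⟩, hne⟩
  · omega
  · intro i
    have h1 := hPc i.1 i.2
    rw [hsupp c hc] at h1
    have h2 := congrArg (fun z : ℚ => (z : ℂ)) h1
    rw [Rat.cast_sum, Rat.cast_zero] at h2
    rw [← h2]
    refine Finset.sum_congr rfl fun b _ => ?_
    push_cast
    rfl

end Pool.Agent.FO
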