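import Pool.Agent.Lib.MP_640417_ag.FO.SpecR

/-!
# Theorem FR: integrality (C5)
-/

set_option autoImplicit false

open Finset Pool.Agent.FC

namespace Pool.Agent.FO

namespace IntAux

theorem sz_mul {m : ℕ} [NeZero m] (t : ℕ) (x : ZMod m) :
    ∃ k : ℤ, sz ((t : ZMod m) * x) =
      (t : ℚ) * (x.val : ℚ) / m - k - (if (t : ZMod m) * x ≠ 0 then 1 else 0) / 2 := by
  have hm : (m : ℚ) ≠ 0 := by exact_mod_cast NeZero.ne m
  have h1 : (((((t : ZMod m) * x).val : ℕ) : ℤ) : ZMod m) =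
      ((((t : ℕ) : ℤ) * ((x.val : ℕ) : ℤ) : ℤ) : ZMod m) := by
    push_cast
    rw [ZMod.natCast_zmod_val, ZMod.natCast_zmod_val]
  rw [ZMod.intCast_eq_intCast_iff_dvd_sub] at h1
  obtain ⟨k, hk⟩ := h1
  have hk' : (t : ℚ) * (x.val : ℚ) - ((((t : ZMod m) * x).val : ℕ) : ℚ) = m * k := by
    exact_mod_cast hk
  have hk2 : (t : ℚ) * (x.val : ℚ) = ((((t : ZMod m) * x).val : ℕ) : ℚ) + m * k := by
    linarith
  refine ⟨k, ?_⟩
  rw [hk2, add_div, mul_div_cancel_left₀ _ hm]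
  unfold sz
  by_cases h : (t : ZMod m) * x = 0
  · rw [if_pos h, if_neg (not_not.2 h), h, ZMod.val_zero]
    simp
  · rw [if_neg h, if_pos h]
    ring

theorem P_eq {m : ℕ} [NeZero m] (f0 : ZMod m → ℤ) (t : ℕ) :
    ∃ w : ℤ, P f0 (t : ZMod m) =
      (t : ℚ) * ((∑ x : ZMod m, f0 x * ((x.val : ℕ) : ℤ) : ℤ) : ℚ) / m
        - ((∑ x ∈ univ.filter (fun x : ZMod m => (t : ZMod m) * x ≠ 0), f0 x : ℤ) : ℚ) / 2 - w := by
  choose k hk using fun x : ZMod m => sz_mul t x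
  refine ⟨∑ x, f0 x * k x, ?_⟩
  unfold P
  rw [Finset.sum_filter]
  push_cast
  rw [Finset.mul_sum, Finset.sum_div, Finset.sum_div, ← Finset.sum_sub_distrib,
    ← Finset.sum_sub_distrib]
  refine Finset.sum_congr rfl fun x _ => ?_
  rw [hk x]
  split_ifs <;> ring

end IntAux

open IntAux in
theorem pInt (hArc : S_Arc) : S_Int := by
  intro m q _ f0 hP t ht
  have hm0 : 0 < m := Nat.pos_of_ne_zero (NeZero.ne m)
  have hm : (m : ℚ) ≠ 0 := by exact_mod_cast NeZero.ne m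
  have hdvd : (m : ℤ) ∣ 2 * ∑ x : ZMod m, f0 x * ((x.val : ℕ) : ℤ) := by
    refine hArc m _ (∑ x ∈ univ.filter (fun x : ZMod m => x ≠ 0), f0 x) hm0 ?_
    intro s hs
    obtain ⟨w, hw⟩ := P_eq f0 s
    refine ⟨w, ?_⟩
    have hPq : Pq m q s := fun p hp _ =>
      Nat.Coprime.coprime_dvd_right (Nat.dvd_of_mem_primeFactors hp) hs
    have h1 := hP s hPq
    have h2 : univ.filter (fun x : ZMod m => (s : ZMod m) * x ≠ 0) =
        univ.filter (fun x : ZMod m => x ≠ 0) := by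
      refine Finset.filter_congr fun x _ => ?_
      have hu : IsUnit (s : ZMod m) := (ZMod.isUnit_iff_coprime s m).2 hs
      rw [ne_eq, hu.mul_right_eq_zero]
    rw [h2] at hw
    rw [hw] at h1
    exact h1
  obtain ⟨c, hc⟩ := hdvd
  obtain ⟨w, hw⟩ := P_eq f0 t
  have h1 := hP t ht
  have hc' : 2 * ((∑ x : ZMod m, f0 x * ((x.val : ℕ) : ℤ) : ℤ) : ℚ) = m * c := by
    exact_mod_cast hc
  have h2 : 2 * P f0 (t : ZMod m) =
      (((t : ℤ) * c - (∑ x ∈ univ.filter (fun x : ZMod m => (t : ZMod m) * x ≠ 0), f0 x) - 2 * w : ℤ) : ℚ) := by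
    rw [hw]
    push_cast
    have h3 : (t : ℚ) * (∑ x : ZMod m, (f0 x : ℚ) * ((x.val : ℕ) : ℚ)) / m = (t : ℚ) * c / 2 := by
      push_cast at hc'
      rw [div_eq_div_iff hm (by norm_num)]
      linear_combination (t : ℚ) * hc'
    rw [h3]
    ring
  have h4 : |(((t : ℤ) * c - (∑ x ∈ univ.filter (fun x : ZMod m => (t : ZMod m) * x ≠ 0), f0 x) - 2 * w : ℤ) : ℚ)|
      < 1 := by
    rw [← h2, abs_mul, abs_of_pos (by norm_num : (0 : ℚ) < 2)]
    linarith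
  have h5 : |((t : ℤ) * c - (∑ x ∈ univ.filter (fun x : ZMod m => (t : ZMod m) * x ≠ 0), f0 x) - 2 * w : ℤ)|
      < 1 := by
    exact_mod_cast h4
  rw [Int.abs_lt_one_iff] at h5
  rw [h5] at h2
  simpa using h2

end Pool.Agent.FO
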