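import Pool.Agent.Lib.MP_640417_ag.FO.SpecL

/-!
# Theorem FO: induction over the levels
-/

set_option autoImplicit false

noncomputable section

namespace Pool.Agent.FO

open Finset Pool.Agent.FC

namespace IteAux

theorem odd_sub {m : ℕ} {f h : ZMod m → ℤ} (hf : IsOdd f) (hh : IsOdd h) :
    IsOdd (fun x => f x - h x) := by
  intro x
  show f (-x) - h (-x) = -(f x - h x)
  rw [hf x, hh x]
  ring

theorem P_sub {m : ℕ} [NeZero m] (f h : ZMod m → ℤ) (t : ZMod m) :
    P (fun x => f x - h x) t = P f t - P h t := by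
  unfold P
  rw [← Finset.sum_sub_distrib]
  refine Finset.sum_congr rfl fun x _ => ?_
  push_cast
  ring

theorem rl_sub {m : ℕ} [NeZero m] {f h : ZMod m → ℤ} (hf : Rl f) (hh : Rl h) :
    Rl (fun x => f x - h x) := by
  intro t
  rw [P_sub, hf t, hh t, sub_zero]

theorem main (hHoBas : S_HoBas) (hStepA : S_StepA) (hStepB : S_StepB) (m m' N' : ℕ) [NeZero m]
    (hm' : 0 < m') (hC : Cond m' N') (hd : ∀ d, d ∣ m → (Odd d ∨ 4 ∣ d) → d ∣ m') (D : ℕ) :
    ∀ f : ZMod m → ℤ, IsOdd f → Rl f → (∀ x, f x ≠ 0 → addOrderOf x ≤ D) →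
      V f ≤ 2 * N' * W m' → InHo f := by
  induction D with
  | zero =>
    intro f _ _ hD _
    have h0 : f = fun _ => 0 := by
      funext x
      by_contra hx
      have h1 := hD x hx
      have h2 : 0 < addOrderOf x := addOrderOf_pos x
      omega
    rw [h0]
    exact (hHoBas m f f).2.2
  | succ D ih =>
    intro f hf hR hD hV
    by_cases hex : ∃ x, f x ≠ 0 ∧ addOrderOf x = D + 1
    · obtain ⟨x0, -, hx0⟩ := hex
      have hdm : D + 1 ∣ m := by
        rw [← hx0]
        have h1 := addOrderOf_dvd_card (x := x0)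
        rwa [ZMod.card] at h1
      have key : ∃ h : ZMod m → ℤ, InHo h ∧ (∀ x, f x - h x ≠ 0 → addOrderOf x < D + 1) ∧
          V (fun x => f x - h x) ≤ V f := by
        by_cases hpar : Odd (D + 1) ∨ 4 ∣ D + 1
        · exact hStepA m (D + 1) m' N' hdm hpar hm' (hd _ hdm hpar) hC f hf hR hD hV
        · refine hStepB m (D + 1) hdm ?_ f hf hD
          rw [not_or, Nat.odd_iff] at hpar
          omega
      obtain ⟨h, hh, hlt, hVh⟩ := key
      obtain ⟨ho, hr⟩ := (hHoBas m h h).1 hh
      have h1 : InHo (fun x => f x - h x) :=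
        ih _ (odd_sub hf ho) (rl_sub hR hr) (fun x hx => Nat.lt_succ_iff.1 (hlt x hx))
          (hVh.trans hV)
      have h2 := (hHoBas m (fun x => f x - h x) h).2.1 h1 hh
      have h3 : (fun x => f x - h x + h x) = f := by
        funext x
        ring
      rwa [h3] at h2
    · push Not at hex
      refine ih f hf hR (fun x hx => ?_) hV
      have h1 := hD x hx
      have h2 := hex x hx
      omega

end IteAux

theorem pIte (hHoBas : S_HoBas) (hStepA : S_StepA) (hStepB : S_StepB) : S_Ite := by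
  intro m m' N' _ hm' hC hd f hf hR hV
  refine IteAux.main hHoBas hStepA hStepB m m' N' hm' hC hd m f hf hR (fun x _ => ?_) hV
  have h1 := addOrderOf_dvd_card (x := x)
  rw [ZMod.card] at h1
  exact Nat.le_of_dvd (NeZero.pos m) h1

end Pool.Agent.FO
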