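import Pool.Agent.Lib.MP_640417_ag.FO.SpecR

set_option autoImplicit false

open Finset Pool.Agent.FC

namespace Pool.Agent.FO

namespace KInvAux

/-- generic functional -/
private def S {m : ℕ} [NeZero m] (F : ZMod m → ℚ) (f : ZMod m → ℤ) : ℚ := ∑ x, (f x : ℚ) * F x

private lemma S_sub {m : ℕ} [NeZero m] (F : ZMod m → ℚ) (f g : ZMod m → ℤ) :
    S F (fun x => f x - g x) = S F f - S F g := by
  unfold S
  rw [← Finset.sum_sub_distrib]
  apply Finset.sum_congr rfl
  intro x _
  push_cast
  ring

end KInvAux

open KInvAux

theorem pKInv (hAuxEx : S_AuxEx) (hPsiBas : S_PsiBas) (hDGBas : S_DGBas) (hIndAll : S_IndAll) :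
    S_KInv := by
  classical
  intro m q _ hq hq2 f ft g hf hRl hft1 hft0 hg hh k hk
  have hqp := Nat.prime_of_mem_primeFactors hq
  have hqm := Nat.dvd_of_mem_primeFactors hq
  have hm0 : m ≠ 0 := NeZero.ne m
  obtain ⟨r, ψ, hA⟩ := hAuxEx m
  haveI : NeZero r := ⟨hA.1.ne_zero⟩
  obtain ⟨D1, D2, -, -, -, -⟩ := hDGBas m q r ψ hA hq
  -- multiplication by `k` and top elements
  have hTk : ∀ x, Tp m q ((k : ZMod m) * x) ↔ Tp m q x := by
    intro x
    unfold Tp
    rw [mul_left_comm, Ne, Units.mul_right_eq_zero]
  have hqz : ∀ (n : ℕ) (x : ZMod m), q ∣ n → ¬ Tp m q ((n : ZMod m) * x) := by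
    rintro n x ⟨n', rfl⟩
    unfold Tp
    rw [not_not, ← mul_assoc, ← Nat.cast_mul, ← mul_assoc, Nat.div_mul_cancel hqm]
    push_cast
    rw [ZMod.natCast_self, zero_mul, zero_mul]
  have hkn : ∀ (n : ℕ) (x : ZMod m), q ∣ n →
      (n : ZMod m) * ((k : ZMod m) * x) = (n : ZMod m) * x := by
    intro n x hn
    rw [mul_left_comm]
    exact hk _ (hqz n x hn)
  have hNS : ∀ x, NS m q ((k : ZMod m) * x) ↔ NS m q x := by
    intro x
    unfold NS
    rw [hTk]
    apply and_congr_right
    intro _
    apply forall₃_congr
    intro p hp hpq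
    have hpp := Nat.prime_of_mem_primeFactors hp
    have hd : q ∣ cop m p := by
      unfold cop
      have h1 : q ∣ p ^ m.factorization p * (m / p ^ m.factorization p) := by
        rw [Nat.ordProj_mul_ordCompl_eq_self]
        exact hqm
      apply Nat.Coprime.dvd_of_dvd_mul_left _ h1
      exact Nat.Coprime.pow_right _ ((Nat.coprime_primes hqp hpp).2 hpq.symm)
    unfold Spc
    rw [hkn _ x hd]
  -- the function c
  have hc := hIndAll m q r ψ hA hq hq2 (fun x => g ((k : ZMod m) * x) - g x) ?_ ?_
  · intro x
    have := congrFun hc x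
    simp only [Pi.zero_apply] at this
    linarith
  · intro x hx
    by_cases h1 : g x = 0
    · apply (hNS x).1
      apply hg
      intro h2
      apply hx
      simp only [h1, h2, sub_zero]
    · exact hg x h1
  · -- the functionals
    have hD : ∀ x, ft ((k : ZMod m) * x) - ft x = f ((k : ZMod m) * x) - f x := by
      intro x
      by_cases hx : Tp m q x
      · rw [hft1 x hx, hft1 _ ((hTk x).2 hx)]
      · rw [hk x hx]
        ring
    have hred : ∀ F : ZMod m → ℚ, (∀ h ∈ DG m q, S F h = 0) →
        S F (fun x => g ((k : ZMod m) * x) - g x) =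
          S F (fun x => f ((k : ZMod m) * x) - f x) := by
      intro F hF
      have e1 : (fun x => g ((k : ZMod m) * x) - g x) = fun x =>
          (f ((k : ZMod m) * x) - f x) -
            ((ft - g) ((k : ZMod m) * x) - (ft - g) x) := by
        funext x
        rw [← hD x, Pi.sub_apply, Pi.sub_apply]
        ring
      rw [e1, S_sub F (fun x => f ((k : ZMod m) * x) - f x) (fun x =>
        ((ft - g) ((k : ZMod m) * x) - (ft - g) x)),
        S_sub F (fun x => (ft - g) ((k : ZMod m) * x)) (ft - g), hF _ hh, hF _ (D2 _ hh k)]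
      ring
    intro t ht
    constructor
    · have h1 : S (fun x => sz ((t : ZMod m) * x)) (fun x => g ((k : ZMod m) * x) - g x) = 0 := by
        rw [hred _ (fun h hh => (D1 h hh t ht).1), S_sub, sub_eq_zero]
        have e1 : S (fun x => sz ((t : ZMod m) * x)) (fun x => f ((k : ZMod m) * x)) =
            P f ((t : ZMod m) * ((k⁻¹ : (ZMod m)ˣ) : ZMod m)) := by
          unfold S P
          rw [← Equiv.sum_comp (Units.mulLeft k) (fun x => (f x : ℚ) *
            sz ((t : ZMod m) * ((k⁻¹ : (ZMod m)ˣ) : ZMod m) * x))]
          apply Finset.sum_congr rfl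
          intro x _
          rw [Units.mulLeft_apply, mul_assoc (t : ZMod m), Units.inv_mul_cancel_left]
        have e2 : S (fun x => sz ((t : ZMod m) * x)) f = P f (t : ZMod m) := rfl
        rw [e1, e2]
        by_cases hqt : q ∣ t
        · unfold P
          apply Finset.sum_congr rfl
          intro x _
          congr 2
          have h2 := hk _ (hqz t (((k⁻¹ : (ZMod m)ˣ) : ZMod m) * x) hqt)
          rw [mul_assoc, ← h2, mul_left_comm, Units.mul_inv_cancel_left]
        · have hcop : t.Coprime m := by
            rw [Nat.coprime_comm]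
            apply Nat.Coprime.symm
            rw [Nat.coprime_iff_gcd_eq_one]
            by_contra hne
            obtain ⟨p, hp, hp'⟩ := Nat.exists_prime_and_dvd hne
            have hpt : p ∣ t := hp'.trans (Nat.gcd_dvd_left _ _)
            have hpm : p ∣ m := hp'.trans (Nat.gcd_dvd_right _ _)
            by_cases hpq : p = q
            · exact hqt (hpq ▸ hpt)
            · have := ht p (Nat.mem_primeFactors.2 ⟨hp, hpm, hm0⟩) hpq
              have h3 := Nat.eq_one_of_dvd_coprimes this hpt (dvd_refl p)
              exact hp.one_lt.ne' h3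
          have e3 : (t : ZMod m) = (ZMod.unitOfCoprime t hcop : ZMod m) :=
            (ZMod.coe_unitOfCoprime t hcop).symm
          rw [e3, ← Units.val_mul, hRl, hRl]
      exact h1
    · have h1 : S (fun x => spsi m r ψ ((t : ZMod m) * x))
          (fun x => g ((k : ZMod m) * x) - g x) = 0 := by
        rw [hred _ (fun h hh => (D1 h hh t ht).2)]
        have e1 : S (fun x => spsi m r ψ ((t : ZMod m) * x)) (fun x => f ((k : ZMod m) * x) - f x) =
            -S (fun x => spsi m r ψ ((t : ZMod m) * x)) (fun x => f ((k : ZMod m) * x) - f x) := by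
          conv_lhs =>
            unfold S
            rw [← Equiv.sum_comp (Equiv.neg (ZMod m))]
          unfold S
          rw [← Finset.sum_neg_distrib]
          apply Finset.sum_congr rfl
          intro x _
          simp only [Equiv.neg_apply]
          rw [mul_neg, mul_neg, (hPsiBas m r ψ hA).1, hf, hf]
          push_cast
          ring
        linarith
      exact h1

end Pool.Agent.FO
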