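import Pool.Agent.Lib.MP_640417_ag.FO.SpecL

/-!
# Theorem FO, part L: the groups `K_p`: independence and size
-/

set_option autoImplicit false

noncomputable section

namespace Pool.Agent.FO

open Finset Pool.Agent.FC

namespace KpBasAux

/-- The units of `ZMod d` which are `1` modulo `e`. -/
private theorem mem_ker {d e : ℕ} [NeZero d] (h : e ∣ d) (u : (ZMod d)ˣ) :
    u ∈ (ZMod.unitsMap h).ker ↔ (u : ZMod d).val ≡ 1 [MOD e] := by
  rw [MonoidHom.mem_ker, Units.ext_iff, ZMod.unitsMap_val, ZMod.cast_eq_val, Units.val_one,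
    ← ZMod.natCast_eq_natCast_iff, Nat.cast_one]

private theorem ker_le {d e e' : ℕ} [NeZero d] (h : e ∣ d) (h' : e' ∣ d) (hee : e' ∣ e) :
    (ZMod.unitsMap h).ker ≤ (ZMod.unitsMap h').ker := by
  intro u hu
  rw [mem_ker] at hu ⊢
  exact hu.of_dvd hee

private theorem Kp_eq {d p : ℕ} (h : p ∣ d) : Kp d p = (ZMod.unitsMap (Nat.div_dvd_of_dvd h)).ker := by
  unfold Kp
  rw [dif_pos h]

private theorem KS_le {d : ℕ} [NeZero d] {q : ℕ} (hq : q ∣ d) :
    ∀ l : List ℕ, (∀ r ∈ l, r ∣ d ∧ q ∣ d / r) → KS (Kp d) l ≤ (ZMod.unitsMap hq).ker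
  | [], _ => bot_le
  | r :: l, h => by
    have h1 := h r List.mem_cons_self
    refine sup_le ?_ (KS_le hq l fun s hs => h s (List.mem_cons_of_mem _ hs))
    rw [Kp_eq h1.1]
    exact ker_le _ _ h1.2

private theorem ind {d : ℕ} [NeZero d] :
    ∀ l : List ℕ, l.Nodup → (∀ p ∈ l, p ∈ d.primeFactors) → Ind (Kp d) l
  | [], _, _ => trivial
  | p :: l, hl, h => by
    have hd0 : d ≠ 0 := NeZero.ne d
    refine ⟨?_, ind l (List.nodup_cons.mp hl).2 fun r hr => h r (List.mem_cons_of_mem _ hr)⟩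
    have hp := h p List.mem_cons_self
    have hpp : p.Prime := Nat.prime_of_mem_primeFactors hp
    have hpd : p ∣ d := Nat.dvd_of_mem_primeFactors hp
    set q := p ^ d.factorization p with hq
    have hqd : q ∣ d := Nat.ordProj_dvd d p
    have hcop : Nat.Coprime q (d / q) := (Nat.coprime_ordCompl hpp hd0).pow_left _
    have hsp : d / q ∣ d / p := by
      have hpq : p ∣ q := dvd_pow_self p (hpp.factorization_pos_of_dvd hd0 hpd).ne'
      exact Nat.div_dvd_div_left hqd hpq
    rw [Subgroup.disjoint_def]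
    intro u hu1 hu2
    rw [Kp_eq hpd, mem_ker] at hu1
    have hu3 := KS_le hqd l (fun r hr => by
      have hr' := h r (List.mem_cons_of_mem _ hr)
      have hrp : r.Prime := Nat.prime_of_mem_primeFactors hr'
      have hrd : r ∣ d := Nat.dvd_of_mem_primeFactors hr'
      have hne : r ≠ p := by
        rintro rfl
        exact (List.nodup_cons.mp hl).1 hr
      refine ⟨hrd, ?_⟩
      have hc : Nat.Coprime q r := ((Nat.coprime_primes hpp hrp).mpr hne.symm).pow_left _
      obtain ⟨c, hc'⟩ := hc.mul_dvd_of_dvd_of_dvd hqd hrd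
      refine ⟨c, ?_⟩
      rw [hc', mul_assoc, mul_left_comm, Nat.mul_div_cancel_left _ hrp.pos]) hu2
    rw [mem_ker] at hu3
    have h4 : (u : ZMod d).val ≡ 1 [MOD d / q] := hu1.of_dvd hsp
    have h5 : (u : ZMod d).val ≡ 1 [MOD q * (d / q)] :=
      (Nat.modEq_and_modEq_iff_modEq_mul hcop).mp ⟨hu3, h4⟩
    rw [Nat.mul_div_cancel' hqd] at h5
    have h6 := (ZMod.natCast_eq_natCast_iff _ _ _).mpr h5
    rw [ZMod.natCast_zmod_val, Nat.cast_one] at h6
    exact Units.ext h6

private theorem card_sK {G : Type} [Group G] [Fintype G] (K : Subgroup G) :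
    (sK K).card = Nat.card K := by
  classical
  unfold sK
  rw [Nat.card_eq_fintype_card, Fintype.card_subtype]

end KpBasAux

open KpBasAux in
theorem pKpBas : S_KpBas := by
  intro d _
  refine ⟨ind, fun p hp => ?_⟩
  have hpp : p.Prime := Nat.prime_of_mem_primeFactors hp
  have hpd : p ∣ d := Nat.dvd_of_mem_primeFactors hp
  have hd0 : 0 < d := Nat.pos_of_ne_zero (NeZero.ne d)
  have hdp : 0 < d / p := Nat.div_pos (Nat.le_of_dvd hd0 hpd) hpp.pos
  have : NeZero (d / p) := ⟨hdp.ne'⟩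
  rw [card_sK, Kp_eq hpd]
  set f := ZMod.unitsMap (Nat.div_dvd_of_dvd hpd) with hf
  have h1 : Nat.card f.ker * (d / p).totient = d.totient := by
    have h2 := Subgroup.card_mul_index f.ker
    rw [Subgroup.index_ker, MonoidHom.range_eq_top.mpr (ZMod.unitsMap_surjective _),
      Subgroup.card_top, Nat.card_eq_fintype_card (α := (ZMod (d / p))ˣ),
      Nat.card_eq_fintype_card (α := (ZMod d)ˣ), ZMod.card_units_eq_totient,
      ZMod.card_units_eq_totient] at h2
    exact h2
  have hφ : 0 < (d / p).totient := Nat.totient_pos.mpr hdp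
  have hmul : p * (d / p) = d := Nat.mul_div_cancel' hpd
  have hiff : p ^ 2 ∣ d ↔ p ∣ d / p := by
    conv_lhs => rw [← hmul, sq]
    exact Nat.mul_dvd_mul_iff_left hpp.pos
  by_cases h : p ^ 2 ∣ d
  · rw [if_pos h]
    have h3 := Nat.totient_mul_of_prime_of_dvd hpp (hiff.mp h)
    rw [hmul, ← h1] at h3
    exact_mod_cast Nat.eq_of_mul_eq_mul_right hφ h3
  · rw [if_neg h]
    have h3 := Nat.totient_mul_of_prime_of_not_dvd hpp (fun h' => h (hiff.mpr h'))
    rw [hmul, ← h1] at h3
    rw [Nat.eq_of_mul_eq_mul_right hφ h3]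
    push_cast [Nat.cast_sub hpp.one_le]
    rfl

end Pool.Agent.FO
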