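import Pool.Agent.Lib.MP_640417_ag.FO.SpecH

/-!
# Theorem FG, part H: `-1` and `-κ` are not in products of the `K_p`
-/

set_option autoImplicit false

noncomputable section

namespace Pool.Agent.FO

open Finset Pool.Agent.FC

private theorem KsNeg_mem {d e : ℕ} [NeZero d] (h : e ∣ d) (u : (ZMod d)ˣ) :
    u ∈ (ZMod.unitsMap h).ker ↔ (u : ZMod d).val ≡ 1 [MOD e] := by
  rw [MonoidHom.mem_ker, Units.ext_iff, ZMod.unitsMap_val, ZMod.cast_eq_val, Units.val_one,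
    ← ZMod.natCast_eq_natCast_iff, Nat.cast_one]

private theorem KsNeg_Kp {d p n : ℕ} [NeZero d] (h : p ∣ d) (hn : n ∣ d) (hnp : n ∣ d / p) :
    Kp d p ≤ (ZMod.unitsMap hn).ker := by
  have e : Kp d p = (ZMod.unitsMap (Nat.div_dvd_of_dvd h)).ker := by
    unfold Kp
    rw [dif_pos h]
  rw [e]
  intro u hu
  rw [KsNeg_mem] at hu ⊢
  exact hu.of_dvd hnp

private theorem KsNeg_KS {d n : ℕ} [NeZero d] (hn : n ∣ d) :
    ∀ l : List ℕ, (∀ p ∈ l, p ∣ d ∧ n ∣ d / p) → KS (Kp d) l ≤ (ZMod.unitsMap hn).ker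
  | [], _ => bot_le
  | p :: l, h => by
    have h1 := h p List.mem_cons_self
    exact sup_le (KsNeg_Kp h1.1 hn h1.2) (KsNeg_KS hn l fun q hq => h q (List.mem_cons_of_mem _ hq))

private theorem KsNeg_neg {d n : ℕ} [NeZero d] (hn : n ∣ d) (h3 : 3 ≤ n) :
    (-1 : (ZMod d)ˣ) ∉ (ZMod.unitsMap hn).ker := by
  intro h
  rw [MonoidHom.mem_ker, Units.ext_iff, ZMod.unitsMap_val, Units.val_neg, Units.val_one,
    ← ZMod.castHom_apply (h := hn), map_neg, map_one, Units.val_one] at h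
  have : Fact (2 < n) := ⟨by omega⟩
  exact ZMod.neg_one_ne_one h

theorem pKsNeg : S_KsNeg := by
  intro d _ l hl n h3 hnd hnl
  have hKS : KS (Kp d) l ≤ (ZMod.unitsMap hnd).ker :=
    KsNeg_KS hnd l fun p hp => ⟨Nat.dvd_of_mem_primeFactors (hl p hp), hnl p hp⟩
  refine ⟨fun h => KsNeg_neg hnd h3 (hKS h), fun κ hκ h3d hn3 h => ?_⟩
  have h1 := hKS h
  have h2 := KsNeg_Kp h3d hnd hn3 hκ
  refine KsNeg_neg hnd h3 ?_
  have h4 := mul_mem h1 (inv_mem h2)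
  rwa [mul_assoc, mul_inv_cancel, mul_one] at h4

end Pool.Agent.FO
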