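import Pool.Agent.Lib.MP_640417_ag.FO.SpecL

/-!
# Theorem FO, part L: lift of an invariant function to level `d / p`
-/

set_option autoImplicit false

noncomputable section

namespace Pool.Agent.FO

open Finset Pool.Agent.FC

namespace LiftAux

open Classical in
/-- the lift along `φ` -/
private def lft {A B : Type} (φ : A → B) (E : A → ℤ) (z : B) : ℤ :=
  if h : ∃ u, z = φ u then E h.choose else 0

private theorem lft_apply {A B : Type} (φ : A → B) (E : A → ℤ)
    (h : ∀ u v, φ u = φ v → E u = E v) (u : A) : lft φ E (φ u) = E u := by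
  unfold lft
  have hex : ∃ v, φ u = φ v := ⟨u, rfl⟩
  rw [dif_pos hex]
  exact (h _ _ hex.choose_spec).symm

private theorem lft_zero {A B : Type} (φ : A → B) (E : A → ℤ) (z : B) (h : ¬ ∃ u, z = φ u) :
    lft φ E z = 0 := by
  unfold lft
  rw [dif_neg h]

private theorem mem_sK {G : Type} [Group G] [Fintype G] (K : Subgroup G) (k : G) :
    k ∈ sK K ↔ k ∈ K := by
  classical
  unfold sK
  simp

end LiftAux

open LiftAux in
theorem pLift (hEl : S_El) (hElP : S_ElP) : S_Lift := by
  intro m d p _ _ hd hp hpd E hodd hinv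
  classical
  obtain ⟨-, -, -, -, hneg, -⟩ := hEl m d hd
  obtain ⟨hord, hker, -, -, -⟩ := hElP m d p hd hp hpd
  set φ : (ZMod d)ˣ → ZMod m := fun u => (p : ZMod m) * el m d u with hφ
  have hE : ∀ u v, φ u = φ v → E u = E v := by
    intro u v huv
    obtain ⟨k, hk, hkv⟩ := (hker u v).1 huv
    rw [hkv, hinv k hk u]
  have hφneg : ∀ u, φ (-u) = -φ u := by
    intro u
    simp only [hφ]
    rw [hneg]
    ring
  have happ := lft_apply φ E hE
  refine ⟨lft φ E, ?_, ?_, happ, ?_⟩
  · intro z
    by_cases hz : ∃ u, z = φ u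
    · obtain ⟨u, rfl⟩ := hz
      rw [← hφneg, happ, happ, ← hodd u, neg_one_mul]
    · have hz' : ¬ ∃ u, -z = φ u := by
        rintro ⟨u, hu⟩
        exact hz ⟨-u, by rw [hφneg, ← hu, neg_neg]⟩
      rw [lft_zero φ E z hz, lft_zero φ E (-z) hz', neg_zero]
  · intro z hz
    by_cases hz' : ∃ u, z = φ u
    · obtain ⟨u, rfl⟩ := hz'
      exact ⟨hord u, el m d u, rfl⟩
    · exact absurd (lft_zero φ E z hz') hz
  · unfold nm
    rw [← Finset.sum_fiberwise univ φ (fun u => |E u|), Finset.mul_sum]
    refine Finset.sum_congr rfl fun z _ => ?_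
    by_cases hz : ∃ u, z = φ u
    · obtain ⟨u, rfl⟩ := hz
      have h1 : ∀ v ∈ univ.filter (fun v => φ v = φ u), |E v| = |lft φ E (φ u)| := by
        intro v hv
        rw [Finset.mem_filter] at hv
        rw [happ u, hE v u hv.2]
      rw [Finset.sum_congr rfl h1, Finset.sum_const, nsmul_eq_mul]
      have h2 : univ.filter (fun v => φ v = φ u) = (sK (Kp d p)).image (fun k => k * u) := by
        ext v
        simp only [Finset.mem_filter, Finset.mem_univ, true_and, Finset.mem_image, mem_sK]
        constructor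
        · intro hv
          obtain ⟨k, hk, hkv⟩ := (hker u v).1 hv.symm
          exact ⟨k, hk, hkv.symm⟩
        · rintro ⟨k, hk, hkv⟩
          exact ((hker u v).2 ⟨k, hk, hkv.symm⟩).symm
      rw [h2, Finset.card_image_of_injective _ (mul_left_injective u)]
    · rw [lft_zero φ E z hz]
      have h3 : univ.filter (fun v => φ v = z) = ∅ := by
        rw [Finset.filter_eq_empty_iff]
        intro v _ hv
        exact hz ⟨v, hv.symm⟩
      rw [h3]
      simp

end Pool.Agent.FO
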