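import Pool.Agent.Lib.MP_640417_ag.FO.SpecB

/-!
# Theorem FO, part B: the majority function
-/

set_option autoImplicit false

noncomputable section

open Finset Pool.Agent.FC

namespace Pool.Agent.FO

private theorem avoid {G : Type} [Group G] [Fintype G] [DecidableEq G] (K : Subgroup G)
    (hm : ∀ k, k ∈ sK K ↔ k ∈ K) (n : ℤ) (hn : 1 ≤ n) (B B' : Finset G)
    (hB : 2 * (n + 2) * (B.card : ℤ) < n * (sK K).card)
    (hB' : 2 * (n + 2) * (B'.card : ℤ) < n * (sK K).card) : ∃ x ∈ K, x ∉ B ∧ x ∉ B' := by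
  by_contra hc
  push Not at hc
  have h1 : sK K ⊆ B ∪ B' := by
    intro x hx
    rw [Finset.mem_union]
    by_cases h : x ∈ B
    · exact Or.inl h
    · exact Or.inr (hc x ((hm x).1 hx) h)
  have h2 : ((sK K).card : ℤ) ≤ B.card + B'.card := by
    exact_mod_cast (Finset.card_le_card h1).trans (Finset.card_union_le _ _)
  have h3 : (0 : ℤ) ≤ (sK K).card := by positivity
  nlinarith

theorem pMaj (hTBas : S_TBas) (hTlBas : S_TlBas) (hTlLoc : S_TlLoc) (hSlice : S_Slice)
    (hNormIneq : S_NormIneq) : S_Maj := by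
  classical
  intro G _ _ K r l hl hI ε n hn F hodd hT hK
  have hm : ∀ k, k ∈ sK (K r) ↔ k ∈ K r := (hTBas G (K r) (K r) F F).1
  choose x0 hx0 B hBs hBc hB using hSlice G K r l hl hI n hn F hT hK
  set E : G → ℤ := fun a => F (x0 a * a) with hE
  have hone : ∀ a, ∀ x ∈ K r, x ∉ B a → F (x * a) = E a := by
    intro a x hx hxB
    have h := hB a x hx hxB 1 (one_mem _)
    rw [mul_one, mul_one] at h
    exact h
  have huniq : ∀ (a : G) (B' : Finset G) (v : ℤ), 2 * (n + 2) * (B'.card : ℤ) < n * (sK (K r)).card →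
      (∀ x ∈ K r, x ∉ B' → F (x * a) = v) → E a = v := by
    intro a B' v hB' hv
    obtain ⟨x, hx, h1, h2⟩ := avoid (K r) hm n hn (B a) B' (hBc a) hB'
    rw [← hone a x hx h1, hv x hx h2]
  have hEe : ∀ a, E (ε * a) = -E a := by
    intro a
    refine huniq (ε * a) (B a) _ (hBc a) fun x hx hxB => ?_
    rw [← hone a x hx hxB, ← hodd (x * a)]
    congr 1
    rw [← mul_assoc, ← mul_assoc, mul_comm x ε]
  have hEk : ∀ k ∈ K r, ∀ a, E (k * a) = E a := by
    intro k hk a
    refine huniq (k * a) ((B a).image fun x => x * k⁻¹) _ ?_ fun x hx hxB => ?_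
    · rw [Finset.card_image_of_injective _ (mul_left_injective k⁻¹)]
      exact hBc a
    · rw [← mul_assoc]
      refine hone a (x * k) (mul_mem hx hk) fun h => hxB ?_
      rw [Finset.mem_image]
      exact ⟨x * k, h, by rw [mul_inv_cancel_right]⟩
  have hEb : ∀ a, ∀ b ∈ KS K l, E (b * a) = F (x0 a * (b * a)) := by
    intro a b hb
    refine huniq (b * a) (B a) _ (hBc a) fun x hx hxB => ?_
    rw [← mul_assoc, ← mul_assoc]
    exact hB a x hx hxB b hb
  have hinv : ∀ k ∈ K r, ∀ a, Tl K l F (k * a) = Tl K l F a := by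
    have h1 : T (K r) (Tl K l F) = 0 := by
      rw [← (hTlBas G K l (K r) F F).2.2.2.1]
      exact hT
    exact ((hTBas G (K r) (K r) (Tl K l F) F).2.2.2.2.2.2.2.1).1 h1
  have hTE : ∀ a, Tl K l E a = Tl K l F a := by
    intro a
    rw [hTlLoc G K l E (fun c => F (x0 a * c)) a (fun b hb => hEb a b hb),
      (hTlBas G K l (K r) F F).2.2.1 (x0 a)]
    exact hinv (x0 a) (hx0 a) a
  refine ⟨E, hEe, hEk, ?_, hNormIneq G (K r) n hn F E hEk fun a => ⟨B a, hBs a, hBc a, hone a⟩⟩
  rw [(hTlBas G K l (K r) F E).2.1]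
  funext a
  rw [hTE a, sub_self]
  rfl

end Pool.Agent.FO
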