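import Pool.Agent.Lib.MP_640417_ag.FO.SpecB

/-!
# Theorem FO, part B: minimal norm of functions killed by `Tl`
-/

set_option autoImplicit false

open Finset Pool.Agent.FC

namespace Pool.Agent.FO

theorem pMin (hTBas : S_TBas) (hTlBas : S_TlBas) (hTlLoc : S_TlLoc) (hSumKK : S_SumKK) : S_Min := by
  intro G _ _ K l
  induction l with
  | nil =>
    intro _ H a h hne
    exfalso
    apply hne
    have h1 := h 1 (Subgroup.one_mem _)
    rw [one_mul] at h1
    exact h1
  | cons r l' ih =>
    intro hInd H a h hne
    obtain ⟨hdis, hind⟩ := hInd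
    have hmem : ∀ (L : Subgroup G) (k : G), k ∈ sK L ↔ k ∈ L := fun L => (hTBas G L L H H).1
    have hsum := hSumKK G (K r) (KS K l') hdis (fun b => |H (b * a)|)
    change ∃ i ∈ r :: l', ((sK (K i)).card : ℤ) ≤ ∑ b ∈ sK (K r ⊔ KS K l'), |H (b * a)|
    rw [hsum]
    by_cases hcase : ∀ x ∈ K r, ∃ b ∈ KS K l', H (x * b * a) ≠ 0
    · refine ⟨r, List.mem_cons_self, ?_⟩
      have h0 : ((sK (K r)).card : ℤ) = ∑ x ∈ sK (K r), (1 : ℤ) := by simp
      rw [h0]
      apply Finset.sum_le_sum
      intro x hx
      obtain ⟨b, hb, hne'⟩ := hcase x ((hmem _ x).1 hx)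
      have h1 : |H (x * b * a)| ≤ ∑ b ∈ sK (KS K l'), |H (x * b * a)| :=
        Finset.single_le_sum (f := fun b => |H (x * b * a)|) (fun _ _ => abs_nonneg _)
          ((hmem _ b).2 hb)
      exact (Int.one_le_abs hne').trans h1
    · push Not at hcase
      obtain ⟨k0, hk0, hz⟩ := hcase
      obtain ⟨-, hcpos, hinv, -⟩ := hTBas G (K r) (K r) H H
      set A : G → ℤ := fun c => ∑ k ∈ sK (K r), H (k * c) with hA
      have hAinv : (fun c => A (k0 * c)) = A := by
        funext c
        exact hinv k0 hk0 c
      have hT : T (K r) H = fun c => (fun c => ((sK (K r)).card : ℤ) * H c) c - A c := rfl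
      obtain ⟨-, hsub, -, -, -, -⟩ :=
        hTlBas G K l' (K r) (fun c => ((sK (K r)).card : ℤ) * H c) A
      obtain ⟨-, -, -, -, hsc, -⟩ := hTlBas G K l' (K r) H H
      obtain ⟨-, -, htr, -, -, -⟩ := hTlBas G K l' (K r) A A
      have hD : ∀ c, Tl K (r :: l') H c =
          ((sK (K r)).card : ℤ) * Tl K l' H c - Tl K l' A c := by
        intro c
        change Tl K l' (T (K r) H) c = _
        rw [hT, hsub, hsc]
      have hDA : ∀ c, Tl K l' A (k0 * c) = Tl K l' A c := by
        intro c
        have h1 := congrFun (htr k0) c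
        rw [hAinv] at h1
        exact h1.symm
      have hLle : KS K l' ≤ K r ⊔ KS K l' := le_sup_right
      have hKle : K r ≤ K r ⊔ KS K l' := le_sup_left
      have hkey : ∀ b ∈ KS K l', Tl K l' H (b * a) = 0 := by
        intro b hb
        have h1 : Tl K l' H (k0 * b * a) = 0 := by
          have h2 := hTlLoc G K l' H (fun _ => 0) (k0 * b * a) (by
            intro b' hb'
            have h3 := hz (b' * b) (Subgroup.mul_mem _ hb' hb)
            have h4 : b' * (k0 * b * a) = k0 * (b' * b) * a := by
              rw [mul_left_comm b' _ a, ← mul_assoc]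
              have h5 : k0 * b * b' = k0 * (b' * b) := by rw [mul_assoc, mul_comm b b']
              rw [h5]
            rw [h4]
            exact h3)
          rw [h2, (hTlBas G K l' (K r) H H).2.2.2.2.2]
        have h6 := h (k0 * b) (Subgroup.mul_mem _ (hKle hk0) (hLle hb))
        rw [hD, h1, mul_zero, zero_sub, neg_eq_zero] at h6
        have h7 : Tl K l' A (b * a) = 0 := by
          rw [← hDA (b * a), ← mul_assoc]
          exact h6
        have h8 := h b (hLle hb)
        rw [hD, h7, sub_zero] at h8
        rcases mul_eq_zero.mp h8 with h9 | h9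
        · exfalso
          have : (sK (K r)).card = 0 := by exact_mod_cast h9
          omega
        · exact h9
      obtain ⟨i, hi, hle⟩ := ih hind H a hkey hne
      refine ⟨i, List.mem_cons_of_mem _ hi, hle.trans ?_⟩
      have h1 : ∑ b ∈ sK (KS K l'), |H (1 * b * a)| ≤
          ∑ x ∈ sK (K r), ∑ b ∈ sK (KS K l'), |H (x * b * a)| :=
        Finset.single_le_sum (f := fun x => ∑ b ∈ sK (KS K l'), |H (x * b * a)|)
          (fun _ _ => Finset.sum_nonneg fun _ _ => abs_nonneg _)
          ((hmem _ 1).2 (Subgroup.one_mem _))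
      simpa only [one_mul] using h1

end Pool.Agent.FO
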