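import Pool.Agent.Lib.MP_640417_ag.FO.SpecL

/-!
# Theorem FO: new terms of the reduction step (`S_New`)
-/

set_option autoImplicit false

open Finset Pool.Agent.FC

namespace Pool.Agent.FO

namespace NewAux

theorem W_nonneg (n : ℕ) : 0 ≤ W n := by
  unfold W
  split_ifs <;> norm_num

end NewAux

open NewAux

theorem pNew (hElP : S_ElP) : S_New := by
  classical
  intro m d p _ hdm hp hpd G hG
  have : NeZero d := ⟨fun h => NeZero.ne m (Nat.eq_zero_of_zero_dvd (h ▸ hdm))⟩
  obtain ⟨-, -, -, h4, h5⟩ := hElP m d p hdm hp hpd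
  have hiff : p ^ 2 ∣ d ↔ p ∣ d / p := by
    rw [Nat.dvd_div_iff_mul_dvd hpd, sq]
  have hGx : ∀ x : ZMod m, |G x| * W (addOrderOf x) = W (d / p) * |G x| := by
    intro x
    by_cases h : G x = 0
    · rw [h, abs_zero, zero_mul, mul_zero]
    · rw [hG x h, mul_comm]
  have hsum : ∑ x ∈ univ.filter (fun x : ZMod m => addOrderOf x ≠ d), W (d / p) * |G x| ≤
      W (d / p) * ∑ z, |G z| := by
    rw [← mul_sum]
    refine mul_le_mul_of_nonneg_left ?_ (W_nonneg _)
    exact sum_le_sum_of_subset_of_nonneg (filter_subset _ _) fun x _ _ => abs_nonneg _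
  by_cases hpp : p ^ 2 ∣ d
  · rw [if_pos hpp, one_mul]
    refine le_trans (sum_le_sum fun x hx => ?_) hsum
    have hx' : addOrderOf x ≠ d := (mem_filter.1 hx).2
    have h0 : G ((p : ZMod m) * x) = 0 := by
      by_contra h
      rcases h4 x (hG _ h) with h6 | h6
      · exact hx' h6
      · exact h6.2 (hiff.1 hpp)
    rw [← hGx x, hD, h0, zero_sub, abs_neg]
  · rw [if_neg hpp]
    have hnp : ¬ p ∣ d / p := fun h => hpp (hiff.2 h)
    have hsum2 : ∑ x ∈ univ.filter (fun x : ZMod m => addOrderOf x ≠ d),
        W (d / p) * (if addOrderOf x = d / p then |G ((p : ZMod m) * x)| else 0) ≤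
        W (d / p) * ∑ z, |G z| := by
      rw [← mul_sum]
      refine mul_le_mul_of_nonneg_left ?_ (W_nonneg _)
      calc ∑ x ∈ univ.filter (fun x : ZMod m => addOrderOf x ≠ d),
            (if addOrderOf x = d / p then |G ((p : ZMod m) * x)| else 0)
          ≤ ∑ x : ZMod m, (if addOrderOf x = d / p then |G ((p : ZMod m) * x)| else 0) := by
            refine sum_le_sum_of_subset_of_nonneg (filter_subset _ _) fun x _ _ => ?_
            split_ifs
            · exact abs_nonneg _
            · exact le_rfl
        _ = ∑ x ∈ univ.filter (fun x : ZMod m => addOrderOf x = d / p),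
            |G ((p : ZMod m) * x)| := (sum_filter _ _).symm
        _ = ∑ z ∈ (univ.filter (fun x : ZMod m => addOrderOf x = d / p)).image
            (fun x => (p : ZMod m) * x), |G z| := by
            rw [sum_image]
            intro x hx y hy hxy
            exact h5 hnp x y (mem_filter.1 (mem_coe.1 hx)).2 (mem_filter.1 (mem_coe.1 hy)).2 hxy
        _ ≤ ∑ z, |G z| :=
            sum_le_sum_of_subset_of_nonneg (subset_univ _) fun x _ _ => abs_nonneg _
    have hle : ∀ x ∈ univ.filter (fun x : ZMod m => addOrderOf x ≠ d),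
        |hD p G x| * W (addOrderOf x) ≤
        W (d / p) * (if addOrderOf x = d / p then |G ((p : ZMod m) * x)| else 0) +
          W (d / p) * |G x| := by
      intro x hx
      have hx' : addOrderOf x ≠ d := (mem_filter.1 hx).2
      have h1 : |hD p G x| ≤ |G ((p : ZMod m) * x)| + |G x| := by
        rw [hD]
        exact abs_sub _ _
      have h2 : |G ((p : ZMod m) * x)| * W (addOrderOf x) =
          W (d / p) * (if addOrderOf x = d / p then |G ((p : ZMod m) * x)| else 0) := by
        by_cases h : G ((p : ZMod m) * x) = 0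
        · rw [h, abs_zero, zero_mul]
          split_ifs <;> rw [mul_zero]
        · rcases h4 x (hG _ h) with h6 | h6
          · exact absurd h6 hx'
          · rw [if_pos h6.1, h6.1, mul_comm]
      calc |hD p G x| * W (addOrderOf x)
          ≤ (|G ((p : ZMod m) * x)| + |G x|) * W (addOrderOf x) :=
            mul_le_mul_of_nonneg_right h1 (W_nonneg _)
        _ = _ := by rw [add_mul, h2, hGx x]
    refine le_trans (sum_le_sum hle) ?_
    rw [sum_add_distrib]
    calc _ ≤ W (d / p) * ∑ z, |G z| + W (d / p) * ∑ z, |G z| := add_le_add hsum2 hsum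
      _ = 2 * W (d / p) * ∑ z, |G z| := by ring

end Pool.Agent.FO
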