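import Pool.Agent.Lib.MP_640417_ag.FO.SpecB

/-!
# Theorem FO, part B, module NormIneq: norm inequality for the majority function
-/

set_option autoImplicit false

noncomputable section

open Finset Pool.Agent.FC

namespace Pool.Agent.FO

namespace NormIneqAux

variable {G : Type} [CommGroup G] [Fintype G] (K : Subgroup G)

private theorem mem (k : G) : k ∈ sK K ↔ k ∈ K := by
  classical
  simp [sK]

private theorem pos : 0 < (sK K).card := Finset.card_pos.2 ⟨1, (mem K 1).2 K.one_mem⟩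

private theorem dbl (g : G → ℤ) :
    ∑ a, ∑ x ∈ sK K, g (x * a) = (sK K).card * ∑ a, g a := by
  rw [Finset.sum_comm]
  have h : ∀ x ∈ sK K, ∑ a, g (x * a) = ∑ a, g a := fun x _ =>
    Fintype.sum_equiv (Equiv.mulLeft x) _ _ fun _ => rfl
  rw [Finset.sum_congr rfl h, Finset.sum_const, nsmul_eq_mul]

private theorem loc (n : ℤ) (hn : 1 ≤ n) (F E : G → ℤ) (hE : ∀ k ∈ K, ∀ a, E (k * a) = E a)
    (a : G) (hB : ∃ B : Finset G, B ⊆ sK K ∧ 2 * (n + 2) * (B.card : ℤ) < n * (sK K).card ∧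
      ∀ x ∈ K, x ∉ B → F (x * a) = E a) :
    2 * ∑ x ∈ sK K, |E (x * a)| + (n + 2) * ∑ x ∈ sK K, |F (x * a) - E (x * a)| ≤
      (n + 2) * ∑ x ∈ sK K, |F (x * a)| := by
  classical
  obtain ⟨B, hBs, hBc, hBF⟩ := hB
  have h1 : ∀ x ∈ sK K, |F (x * a) - E (x * a)| + (|E a| - 2 * (if x ∈ B then |E a| else 0)) ≤
      |F (x * a)| := by
    intro x hx
    have hxK := (mem K x).1 hx
    rw [hE x hxK a]
    by_cases hxB : x ∈ B
    · rw [if_pos hxB]
      have h2 := abs_sub (F (x * a)) (E a)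
      linarith
    · rw [if_neg hxB, hBF x hxK hxB, sub_self, abs_zero]
      linarith
  have h2 := Finset.sum_le_sum h1
  have h3 : ∑ x ∈ sK K, (if x ∈ B then |E a| else 0) = B.card * |E a| := by
    rw [← Finset.sum_filter, Finset.filter_mem_eq_inter, Finset.inter_eq_right.2 hBs,
      Finset.sum_const, nsmul_eq_mul]
  have h4 : ∑ x ∈ sK K, |E (x * a)| = (sK K).card * |E a| := by
    rw [Finset.sum_congr rfl fun x hx => by rw [hE x ((mem K x).1 hx) a], Finset.sum_const,
      nsmul_eq_mul]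
  rw [Finset.sum_add_distrib, Finset.sum_sub_distrib, ← Finset.mul_sum, h3, Finset.sum_const,
    nsmul_eq_mul] at h2
  rw [h4]
  have h5 : 0 ≤ |E a| := abs_nonneg _
  have h6 : 0 ≤ (n * (sK K).card - 2 * (n + 2) * (B.card : ℤ)) * |E a| :=
    mul_nonneg (by linarith) h5
  have h7 := mul_le_mul_of_nonneg_left h2 (show (0 : ℤ) ≤ n + 2 by linarith)
  nlinarith

end NormIneqAux

open NormIneqAux in
theorem pNormIneq : S_NormIneq := by
  intro G _ _ K n hn F E hE hB
  have h1 := Finset.sum_le_sum fun a (_ : a ∈ Finset.univ) => loc K n hn F E hE a (hB a)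
  rw [Finset.sum_add_distrib, ← Finset.mul_sum, ← Finset.mul_sum, ← Finset.mul_sum,
    dbl K fun a => |E a|, dbl K fun a => |F a - E a|, dbl K fun a => |F a|] at h1
  have h2 : (0 : ℤ) < (sK K).card := by exact_mod_cast pos K
  refine le_of_mul_le_mul_left ?_ h2
  unfold nm
  linarith

end Pool.Agent.FO
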