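import Pool.Agent.Lib.MP_640417_ag.FO.SpecR

/-!
# Theorem FR: nonvanishing for even characters
-/

set_option autoImplicit false

open Finset Pool.Agent.FC

namespace Pool.Agent.FO

namespace NvEAux

theorem mulmod (m r a b : ℕ) (h : (a : ZMod m) = (b : ZMod m)) :
    ((a * r : ℕ) : ZMod (m * r)) = ((b * r : ℕ) : ZMod (m * r)) := by
  rw [ZMod.natCast_eq_natCast_iff] at h ⊢
  exact h.mul_right' r

theorem mulmod' (m r a b : ℕ) (h : (a : ZMod r) = (b : ZMod r)) :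
    ((a * m : ℕ) : ZMod (m * r)) = ((b * m : ℕ) : ZMod (m * r)) := by
  rw [ZMod.natCast_eq_natCast_iff] at h ⊢
  have h1 := h.mul_left' m
  rwa [mul_comm m a, mul_comm m b] at h1

/-- sums over the units and over all elements -/
theorem sum_units (r : ℕ) [NeZero r] (ψ : MulChar (ZMod r) ℂ) (f : ZMod r → ℂ) :
    ∑ i : (ZMod r)ˣ, ψ (i : ZMod r) * f i = ∑ i : ZMod r, ψ i * f i := by
  refine Fintype.sum_of_injective (fun i : (ZMod r)ˣ => (i : ZMod r)) Units.val_injective _ _ ?_ ?_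
  · intro i hi
    have h1 : ¬ IsUnit i := by
      rintro ⟨u, hu⟩
      exact hi ⟨u, hu⟩
    rw [MulChar.map_nonunit ψ h1, zero_mul]
  · intro i
    rfl

/-- the sum of an odd character over the units -/
theorem sum_odd (r : ℕ) [NeZero r] (ψ : MulChar (ZMod r) ℂ) (h : ψ (-1) = -1) :
    ∑ i : (ZMod r)ˣ, ψ (i : ZMod r) = 0 := by
  have h1 : ∑ i : (ZMod r)ˣ, ψ (i : ZMod r) = ∑ i : (ZMod r)ˣ, ψ ((-i : (ZMod r)ˣ) : ZMod r) :=
    (Equiv.sum_comp (Equiv.neg (ZMod r)ˣ) (fun i : (ZMod r)ˣ => ψ (i : ZMod r))).symm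
  have h2 : ∀ i : (ZMod r)ˣ, ψ ((-i : (ZMod r)ˣ) : ZMod r) = -ψ (i : ZMod r) := by
    intro i
    rw [Units.val_neg, ← neg_one_mul, map_mul, h, neg_one_mul]
  simp only [h2, Finset.sum_neg_distrib] at h1
  linear_combination (1 / 2 : ℂ) * h1

end NvEAux

open NvEAux in
theorem pNvE (hAnv : S_Anv) (hTopRep : S_TopRep) : S_NvE := by
  intro m q r _ _ ψ hA hq hqm χ hχ
  obtain ⟨hr, hrm, hψ1, -⟩ := hA
  have : Fact r.Prime := ⟨hr⟩
  have : NeZero (m * r) := ⟨mul_ne_zero (NeZero.ne m) (NeZero.ne r)⟩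
  have hc : m.Coprime r := ((Nat.Prime.coprime_iff_not_dvd hr).2 hrm).symm
  have hd1 : m ∣ m * r := Dvd.intro _ rfl
  have hd2 : r ∣ m * r := Dvd.intro_left _ rfl
  obtain ⟨ψC, hψC⟩ : ∃ ψC : DirichletCharacter ℂ r, ψC = ψ.ringHomComp (Int.castRingHom ℂ) :=
    ⟨_, rfl⟩
  have hψv : ∀ i : ZMod r, ψC i = ((ψ i : ℤ) : ℂ) := by
    intro i
    rw [hψC]
    rfl
  have hψC1 : ψC (-1) = -1 := by
    rw [hψv, hψ1]
    norm_num
  obtain ⟨Ψ, hΨdef⟩ : ∃ Ψ : DirichletCharacter ℂ (m * r), Ψ =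
      DirichletCharacter.changeLevel hd1 χ * DirichletCharacter.changeLevel hd2 ψC := ⟨_, rfl⟩
  let c1 : ZMod (m * r) →+* ZMod m := ZMod.castHom hd1 (ZMod m)
  let c2 : ZMod (m * r) →+* ZMod r := ZMod.castHom hd2 (ZMod r)
  have hΨ : ∀ S : (ZMod (m * r))ˣ, Ψ (S : ZMod (m * r)) =
      χ (c1 (S : ZMod (m * r))) * ψC (c2 (S : ZMod (m * r))) := by
    intro S
    rw [hΨdef, MulChar.mul_apply, DirichletCharacter.changeLevel_eq_cast_of_dvd,
      DirichletCharacter.changeLevel_eq_cast_of_dvd]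
    rfl
  have hΨodd : Ψ.Odd := by
    have h1 := hΨ (-1)
    have e1 : c1 (-1) = -1 := by rw [map_neg, map_one]
    have e2 : c2 (-1) = -1 := by rw [map_neg, map_one]
    rw [Units.val_neg, Units.val_one, e1, e2, hψC1] at h1
    have h2 : χ (-1) = 1 := hχ
    rw [h2, one_mul] at h1
    exact h1
  obtain ⟨K, hK⟩ := hAnv (m * r) Ψ hΨodd
  have e1 : ∀ z : ZMod (m * r), (ZMod.chineseRemainder hc z) = (c1 z, c2 z) := by
    intro z
    exact RingHom.congr_fun (Subsingleton.elim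
      ((ZMod.chineseRemainder hc) : ZMod (m * r) →+* ZMod m × ZMod r) (c1.prod c2)) z
  -- decomposition of `K`
  obtain ⟨x, j, hxj⟩ : ∃ (x : ZMod m) (j : ZMod r),
      K = ((x.val * r + j.val * m : ℕ) : ZMod (m * r)) := by
    have hu1 : (r : ZMod m) * (r : ZMod m)⁻¹ = 1 :=
      ZMod.coe_mul_inv_eq_one r hc.symm
    have hu2 : (m : ZMod r) * (m : ZMod r)⁻¹ = 1 :=
      ZMod.coe_mul_inv_eq_one m hc
    refine ⟨c1 K * (r : ZMod m)⁻¹, c2 K * (m : ZMod r)⁻¹, ?_⟩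
    apply (ZMod.chineseRemainder hc).injective
    rw [e1, e1]
    apply Prod.ext
    · change c1 K = c1 _
      rw [map_natCast]
      push_cast
      rw [ZMod.natCast_zmod_val, ZMod.natCast_self, mul_zero, add_zero, mul_assoc,
        mul_comm _ (r : ZMod m), hu1, mul_one]
    · change c2 K = c2 _
      rw [map_natCast]
      push_cast
      rw [ZMod.natCast_zmod_val, ZMod.natCast_self, mul_zero, zero_add, mul_assoc,
        mul_comm _ (m : ZMod r), hu2, mul_one]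
  -- the product `S K`
  have hSK : ∀ S : ZMod (m * r), S * K =
      (((c1 S * x).val * r + (c2 S * j).val * m : ℕ) : ZMod (m * r)) := by
    intro S
    have h1 : (((S.val * x.val : ℕ) : ZMod m)) = (((c1 S * x).val : ℕ) : ZMod m) := by
      rw [ZMod.natCast_zmod_val, Nat.cast_mul, ZMod.natCast_zmod_val]
      congr 1
      have h2 := map_natCast c1 S.val
      rw [ZMod.natCast_zmod_val] at h2
      exact h2.symm
    have h1' : (((S.val * j.val : ℕ) : ZMod r)) = (((c2 S * j).val : ℕ) : ZMod r) := by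
      rw [ZMod.natCast_zmod_val, Nat.cast_mul, ZMod.natCast_zmod_val]
      congr 1
      have h2 := map_natCast c2 S.val
      rw [ZMod.natCast_zmod_val] at h2
      exact h2.symm
    have h3 := mulmod m r _ _ h1
    have h4 := mulmod' m r _ _ h1'
    rw [Nat.cast_add, ← h3, ← h4, hxj]
    have h5 : S = ((S.val : ℕ) : ZMod (m * r)) := (ZMod.natCast_zmod_val S).symm
    conv_lhs => rw [h5]
    push_cast
    ring
  -- the equivalence of the unit groups
  let e : (ZMod (m * r))ˣ ≃* (ZMod m)ˣ × (ZMod r)ˣ :=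
    (Units.mapEquiv (ZMod.chineseRemainder hc).toMulEquiv).trans MulEquiv.prodUnits
  have he1 : ∀ S : (ZMod (m * r))ˣ, (((e S).1 : (ZMod m)ˣ) : ZMod m) = c1 (S : ZMod (m * r)) := by
    intro S
    change (ZMod.chineseRemainder hc (S : ZMod (m * r))).1 = _
    rw [e1]
  have he2 : ∀ S : (ZMod (m * r))ˣ, (((e S).2 : (ZMod r)ˣ) : ZMod r) = c2 (S : ZMod (m * r)) := by
    intro S
    change (ZMod.chineseRemainder hc (S : ZMod (m * r))).2 = _
    rw [e1]
  let F : ZMod m → ZMod r → ℂ := fun a b =>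
    ((sz (((a * x).val * r + (b * j).val * m : ℕ) : ZMod (m * r)) : ℚ) : ℂ)
  have hsum : ∑ S : (ZMod (m * r))ˣ, Ψ (S : ZMod (m * r)) *
      ((sz ((S : ZMod (m * r)) * K) : ℚ) : ℂ) =
      ∑ s : (ZMod m)ˣ, χ (s : ZMod m) * ∑ i : (ZMod r)ˣ, ψC (i : ZMod r) *
        F (s : ZMod m) (i : ZMod r) := by
    rw [Fintype.sum_equiv e.toEquiv _ (fun p : (ZMod m)ˣ × (ZMod r)ˣ =>
      χ (p.1 : ZMod m) * (ψC (p.2 : ZMod r) * F (p.1 : ZMod m) (p.2 : ZMod r)))]
    · rw [Fintype.sum_prod_type]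
      refine Finset.sum_congr rfl fun s _ => ?_
      rw [Finset.mul_sum]
    · intro S
      change _ = χ (((e S).1 : (ZMod m)ˣ) : ZMod m) * (ψC (((e S).2 : (ZMod r)ˣ) : ZMod r) *
        F (((e S).1 : (ZMod m)ˣ) : ZMod m) (((e S).2 : (ZMod r)ˣ) : ZMod r))
      rw [he1, he2, hΨ, mul_assoc, hSK]
  rw [hsum] at hK
  -- `j` is a unit
  have hj : j ≠ 0 := by
    intro hj0
    apply hK
    refine Finset.sum_eq_zero fun s _ => ?_
    have h1 : ∀ i : (ZMod r)ˣ, F (s : ZMod m) (i : ZMod r) = F (s : ZMod m) 0 := by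
      intro i
      simp only [F, hj0, mul_zero]
    simp only [h1]
    rw [← Finset.sum_mul, sum_odd r ψC hψC1, zero_mul, mul_zero]
  let ju : (ZMod r)ˣ := Units.mk0 j hj
  have hju : (ju : ZMod r) = j := rfl
  have hin : ∀ s : (ZMod m)ˣ, ∑ i : (ZMod r)ˣ, ψC (i : ZMod r) * F (s : ZMod m) (i : ZMod r) =
      ψC ((ju⁻¹ : (ZMod r)ˣ) : ZMod r) * ((spsi m r ψ ((s : ZMod m) * x) : ℚ) : ℂ) := by
    intro s
    rw [← Equiv.sum_comp (Equiv.mulRight ju⁻¹) (fun i : (ZMod r)ˣ => ψC (i : ZMod r) *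
      F (s : ZMod m) (i : ZMod r))]
    have h1 : ((spsi m r ψ ((s : ZMod m) * x) : ℚ) : ℂ) = ∑ i : ZMod r, ψC i *
        ((sz ((((s : ZMod m) * x).val * r + i.val * m : ℕ) : ZMod (m * r)) : ℚ) : ℂ) := by
      unfold spsi
      push_cast
      refine Finset.sum_congr rfl fun i _ => ?_
      rw [hψv]
    rw [h1, ← sum_units, Finset.mul_sum]
    refine Finset.sum_congr rfl fun i _ => ?_
    change ψC ((i * ju⁻¹ : (ZMod r)ˣ) : ZMod r) * F (s : ZMod m) ((i * ju⁻¹ : (ZMod r)ˣ) : ZMod r) = _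
    have h2 : ((i * ju⁻¹ : (ZMod r)ˣ) : ZMod r) * j = i := by
      rw [Units.val_mul, mul_assoc, ← hju, Units.inv_mul, mul_one]
    have h3 : F (s : ZMod m) ((i * ju⁻¹ : (ZMod r)ˣ) : ZMod r) =
        ((sz ((((s : ZMod m) * x).val * r + (i : ZMod r).val * m : ℕ) : ZMod (m * r)) : ℚ) : ℂ) := by
      simp only [F]
      rw [h2]
    rw [h3, Units.val_mul, map_mul]
    ring
  have hK2 : ∑ s : (ZMod m)ˣ, χ (s : ZMod m) * ((spsi m r ψ ((s : ZMod m) * x) : ℚ) : ℂ) ≠ 0 := by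
    intro h0
    apply hK
    have h1 : ∑ s : (ZMod m)ˣ, χ (s : ZMod m) * ∑ i : (ZMod r)ˣ, ψC (i : ZMod r) *
        F (s : ZMod m) (i : ZMod r) = ψC ((ju⁻¹ : (ZMod r)ˣ) : ZMod r) *
        ∑ s : (ZMod m)ˣ, χ (s : ZMod m) * ((spsi m r ψ ((s : ZMod m) * x) : ℚ) : ℂ) := by
      rw [Finset.mul_sum]
      refine Finset.sum_congr rfl fun s _ => ?_
      rw [hin]
      ring
    rw [h1, h0, mul_zero]
  obtain ⟨k, y, hy, hxy⟩ := hTopRep m q hq hqm x
  refine ⟨y, q ^ k, hy, ?_, ?_⟩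
  · intro p hp hpq
    have hp' : p.Prime := Nat.prime_of_mem_primeFactors hp
    exact ((Nat.coprime_primes hq hp').2 (Ne.symm hpq)).pow_left k
  · have h1 : ∀ s : (ZMod m)ˣ, ((q ^ k : ℕ) : ZMod m) * ((s : ZMod m) * y) = (s : ZMod m) * x := by
      intro s
      rw [hxy]
      ring
    simp only [h1]
    exact hK2

end Pool.Agent.FO
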