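import Pool.Agent.Lib.MP_640417_ag.FO.SpecR

/-!
# Theorem FR: nonvanishing for odd characters
-/

set_option autoImplicit false

open Finset Pool.Agent.FC

namespace Pool.Agent.FO

theorem pNvO (hAnv : S_Anv) (hTopRep : S_TopRep) : S_NvO := by
  intro m q _ hq hqm χ hχ
  obtain ⟨k, hk⟩ := hAnv m χ hχ
  obtain ⟨j, x, hx, hkx⟩ := hTopRep m q hq hqm k
  refine ⟨x, q ^ j, hx, ?_, ?_⟩
  · intro p hp hpq
    have hp' : p.Prime := Nat.prime_of_mem_primeFactors hp
    exact ((Nat.coprime_primes hq hp').2 (Ne.symm hpq)).pow_left j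
  · have h1 : ∀ s : (ZMod m)ˣ, ((q ^ j : ℕ) : ZMod m) * ((s : ZMod m) * x) = (s : ZMod m) * k := by
      intro s
      rw [hkx]
      ring
    simp only [h1]
    exact hk

end Pool.Agent.FO
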