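import Pool.Agent.Lib.MP_640417_ag.FO.SpecR

set_option autoImplicit false

noncomputable section

open Finset Pool.Agent.FC

namespace Pool.Agent.FO

private theorem Orb_key (q M : ℕ) [NeZero (q * M)] (hq : q.Prime) (x x' : ZMod (q * M))
    (hx : (M : ZMod (q * M)) * x ≠ 0) (hx' : (M : ZMod (q * M)) * x' ≠ 0)
    (h : (q : ZMod (q * M)) * x = q * x') :
    ∃ k : (ZMod (q * M))ˣ, (∀ y : ZMod (q * M), (M : ZMod (q * M)) * y = 0 →
      (k : ZMod (q * M)) * y = y) ∧ (k : ZMod (q * M)) * x = x' := by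
  obtain ⟨a, rfl⟩ : ∃ a : ℕ, (a : ZMod (q * M)) = x := ⟨x.val, ZMod.natCast_zmod_val x⟩
  obtain ⟨a', rfl⟩ : ∃ a' : ℕ, (a' : ZMod (q * M)) = x' := ⟨x'.val, ZMod.natCast_zmod_val x'⟩
  have h1 : (q * a) ≡ (q * a') [MOD (q * M)] := by
    rw [← ZMod.natCast_eq_natCast_iff]
    push_cast
    exact h
  have h2 : a ≡ a' [MOD M] := Nat.ModEq.mul_left_cancel' hq.ne_zero h1
  obtain ⟨i, hi⟩ := (Nat.modEq_iff_dvd).1 h2
  have hqa : ¬ q ∣ a := by
    rintro ⟨b, rfl⟩
    apply hx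
    have h3 : (M : ZMod (q * M)) * ((q * b : ℕ) : ZMod (q * M)) = ((q * M : ℕ) : ZMod (q * M)) * b := by
      push_cast
      ring
    rw [h3, ZMod.natCast_self, zero_mul]
  haveI : Fact q.Prime := ⟨hq⟩
  have ha0 : (a : ZMod q) ≠ 0 := by
    rw [Ne, ZMod.natCast_eq_zero_iff]
    exact hqa
  obtain ⟨j, hj⟩ : ∃ j : ℕ, (j : ZMod q) = (i : ZMod q) * (a : ZMod q)⁻¹ :=
    ⟨_, ZMod.natCast_zmod_val _⟩
  have hj2 : (q : ℤ) ∣ i - j * a := by
    rw [← ZMod.intCast_zmod_eq_zero_iff_dvd]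
    push_cast
    rw [hj, mul_assoc, inv_mul_cancel₀ ha0, mul_one, sub_self]
  have hk : ((1 + j * M : ℕ) : ZMod (q * M)) * (a : ZMod (q * M)) = (a' : ZMod (q * M)) := by
    obtain ⟨r, hr⟩ := hj2
    have h3 : (a' : ℤ) = (1 + j * M) * a + (q * M) * r := by
      have h4 : (a' : ℤ) = a + M * i := by linarith
      rw [h4]
      have h5 : i = j * a + q * r := by linarith
      rw [h5]
      ring
    have h6 := congrArg (fun z : ℤ => (z : ZMod (q * M))) h3
    push_cast at h6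
    have h7 : (q : ZMod (q * M)) * M = 0 := by
      have h8 : ((q * M : ℕ) : ZMod (q * M)) = 0 := ZMod.natCast_self _
      rwa [Nat.cast_mul] at h8
    rw [h6, h7, zero_mul, add_zero]
    push_cast
    ring
  have hcop : Nat.Coprime (1 + j * M) (q * M) := by
    refine Nat.Coprime.mul_right ?_ ?_
    · rw [Nat.coprime_comm, Nat.Prime.coprime_iff_not_dvd hq]
      rintro ⟨b, hb⟩
      apply hx'
      rw [← hk, hb]
      have h3 : (M : ZMod (q * M)) * (((q * b : ℕ) : ZMod (q * M)) * a) =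
          ((q * M : ℕ) : ZMod (q * M)) * (b * a) := by
        push_cast
        ring
      rw [h3, ZMod.natCast_self, zero_mul]
    · simp
  refine ⟨ZMod.unitOfCoprime _ hcop, fun y hy => ?_, ?_⟩
  · rw [ZMod.coe_unitOfCoprime]
    push_cast
    rw [add_mul, one_mul, mul_assoc, hy, mul_zero, add_zero]
  · rw [ZMod.coe_unitOfCoprime]
    exact hk

theorem pOrb : S_Orb := by
  classical
  intro m q _ hq g hg hinv
  have hqp := Nat.prime_of_mem_primeFactors hq
  obtain ⟨M, rfl⟩ := Nat.dvd_of_mem_primeFactors hq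
  have hMq : q * M / q = M := Nat.mul_div_cancel_left _ hqp.pos
  have hTp : ∀ x, Tp (q * M) q x ↔ (M : ZMod (q * M)) * x ≠ 0 := by
    intro x
    unfold Tp
    rw [hMq]
  refine ⟨fun z => if h : ∃ x, Tp (q * M) q x ∧ z = (q : ZMod (q * M)) * x then g h.choose else 0,
    fun x hx => ?_, fun z hz => ?_⟩
  · have h : ∃ x', Tp (q * M) q x' ∧ (q : ZMod (q * M)) * x = (q : ZMod (q * M)) * x' :=
      ⟨x, hx, rfl⟩
    simp only [dif_pos h]
    obtain ⟨h1, h2⟩ := h.choose_spec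
    obtain ⟨k, hk1, hk2⟩ := Orb_key q M hqp x h.choose ((hTp x).1 hx) ((hTp _).1 h1) h2
    rw [← hk2]
    refine (hinv k (fun y hy => ?_) x).symm
    apply hk1
    rw [hTp, not_not] at hy
    exact hy
  · by_contra hc
    apply hz
    simp only [dif_neg hc]

end Pool.Agent.FO
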