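import Pool.Agent.Lib.MP_640417_ag.FO.SpecR

/-!
# Theorem FR, module PsiBas: the even distribution `spsi`
-/

set_option autoImplicit false

noncomputable section

namespace Pool.Agent.FO

open Finset Pool.Agent.FC

namespace PsiBasAux

/-- The element `a r + b m` depends only on `a` mod `m` and `b` mod `r`. -/
lemma ecast {m r : ℕ} {a a' b b' : ℕ} (h : (a : ZMod m) = (a' : ZMod m))
    (h' : (b : ZMod r) = (b' : ZMod r)) :
    ((a * r + b * m : ℕ) : ZMod (m * r)) = ((a' * r + b' * m : ℕ) : ZMod (m * r)) := by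
  rw [ZMod.natCast_eq_natCast_iff] at h h' ⊢
  have h1 : a * r ≡ a' * r [MOD m * r] := h.mul_right' r
  have h2 : b * m ≡ b' * m [MOD m * r] := by
    have := h'.mul_right' m
    rwa [mul_comm r m] at this
  exact h1.add h2

/-- The element of `ZMod (m r)` attached to `x`, `j`. -/
def e (m r : ℕ) (x : ZMod m) (j : ZMod r) : ZMod (m * r) :=
  ((x.val * r + j.val * m : ℕ) : ZMod (m * r))

lemma e_add {m r : ℕ} [NeZero m] [NeZero r] (x x' : ZMod m) (j j' : ZMod r) :
    e m r (x + x') (j + j') = e m r x j + e m r x' j' := by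
  unfold e
  rw [← Nat.cast_add]
  have h : x.val * r + j.val * m + (x'.val * r + j'.val * m) =
      (x.val + x'.val) * r + (j.val + j'.val) * m := by ring
  rw [h]
  refine ecast ?_ ?_
  · rw [Nat.cast_add, ZMod.natCast_zmod_val, ZMod.natCast_zmod_val, ZMod.natCast_zmod_val]
  · rw [Nat.cast_add, ZMod.natCast_zmod_val, ZMod.natCast_zmod_val, ZMod.natCast_zmod_val]

lemma e_mul {m r : ℕ} [NeZero m] [NeZero r] (p : ℕ) (x : ZMod m) (j : ZMod r) :
    e m r ((p : ZMod m) * x) ((p : ZMod r) * j) = (p : ZMod (m * r)) * e m r x j := by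
  unfold e
  rw [← Nat.cast_mul]
  have h : p * (x.val * r + j.val * m) = (p * x.val) * r + (p * j.val) * m := by ring
  rw [h]
  refine ecast ?_ ?_
  · rw [Nat.cast_mul, ZMod.natCast_zmod_val, ZMod.natCast_zmod_val]
  · rw [Nat.cast_mul, ZMod.natCast_zmod_val, ZMod.natCast_zmod_val]

lemma e_zero (m r : ℕ) [NeZero m] [NeZero r] : e m r 0 0 = 0 := by
  unfold e
  simp

lemma e_neg {m r : ℕ} [NeZero m] [NeZero r] (x : ZMod m) (j : ZMod r) :
    e m r (-x) (-j) = - e m r x j := by
  rw [eq_neg_iff_add_eq_zero, ← e_add, neg_add_cancel, neg_add_cancel, e_zero]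

lemma e_inj {m r : ℕ} [NeZero m] [NeZero r] (x x' : ZMod m) (j : ZMod r)
    (h : e m r x j = e m r x' j) : x = x' := by
  unfold e at h
  rw [ZMod.natCast_eq_natCast_iff] at h
  have h1 : x.val * r ≡ x'.val * r [MOD m * r] := Nat.ModEq.add_right_cancel' _ h
  have h2 : x.val ≡ x'.val [MOD m] := Nat.ModEq.mul_right_cancel_iff' (NeZero.ne r) |>.mp h1
  rw [← ZMod.natCast_eq_natCast_iff, ZMod.natCast_zmod_val, ZMod.natCast_zmod_val] at h2
  exact h2

lemma e_surj {m r p : ℕ} [NeZero m] [NeZero r] (hp : p ∣ m) (D : ZMod (m * r))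
    (hD : (p : ZMod (m * r)) * D = 0) : ∃ z : ZMod m, (p : ZMod m) * z = 0 ∧ e m r z 0 = D := by
  have hm0 : 0 < m := Nat.pos_of_ne_zero (NeZero.ne m)
  have hr0 : 0 < r := Nat.pos_of_ne_zero (NeZero.ne r)
  have : NeZero (m * r) := ⟨(Nat.mul_pos hm0 hr0).ne'⟩
  obtain ⟨M, hM⟩ := hp
  have hp0 : 0 < p := by
    rcases Nat.eq_zero_or_pos p with h | h
    · rw [h, zero_mul] at hM
      exact absurd hM hm0.ne'
    · exact h
  have h1 : ((p * D.val : ℕ) : ZMod (m * r)) = 0 := by
    rw [Nat.cast_mul, ZMod.natCast_zmod_val, hD]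
  rw [ZMod.natCast_eq_zero_iff] at h1
  have h2 : M * r ∣ D.val := by
    have h3 : p * (M * r) ∣ p * D.val := by
      rw [← mul_assoc, ← hM]
      exact h1
    exact Nat.dvd_of_mul_dvd_mul_left hp0 h3
  obtain ⟨i, hi⟩ := h2
  refine ⟨((M * i : ℕ) : ZMod m), ?_, ?_⟩
  · rw [← Nat.cast_mul, ZMod.natCast_eq_zero_iff]
    exact ⟨i, by rw [hM]; ring⟩
  · have h4 : e m r ((M * i : ℕ) : ZMod m) 0 = ((M * i * r + 0 * m : ℕ) : ZMod (m * r)) := by
      unfold e
      refine ecast ?_ ?_
      · rw [ZMod.natCast_zmod_val]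
      · rw [ZMod.natCast_zmod_val]
        simp
    rw [h4]
    have h5 : M * i * r + 0 * m = D.val := by rw [hi]; ring
    rw [h5, ZMod.natCast_zmod_val]

end PsiBasAux

open PsiBasAux

theorem pPsiBas (hSzBas : S_SzBas) (hDist : S_Dist) : S_PsiBas := by
  intro m r _ _ ψ hψ
  obtain ⟨hr, hrm, hψ1, hψp⟩ := hψ
  have hm0 : 0 < m := Nat.pos_of_ne_zero (NeZero.ne m)
  have hr0 : 0 < r := Nat.pos_of_ne_zero (NeZero.ne r)
  have : NeZero (m * r) := ⟨(Nat.mul_pos hm0 hr0).ne'⟩
  have : Fact r.Prime := ⟨hr⟩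
  have hs : ∀ x : ZMod m, spsi m r ψ x = ∑ j : ZMod r, (ψ j : ℚ) * sz (e m r x j) :=
    fun x => rfl
  constructor
  · intro x
    rw [hs, hs, ← Equiv.sum_comp (Equiv.neg (ZMod r))]
    refine Finset.sum_congr rfl fun j _ => ?_
    have h1 : ψ (-j) = - ψ j := by
      rw [← neg_one_mul, map_mul, hψ1, neg_one_mul]
    rw [Equiv.neg_apply, e_neg, (hSzBas (m * r) _).1, h1]
    push_cast
    ring
  · intro p hp t htp y
    have hpp : p.Prime := Nat.prime_of_mem_primeFactors hp
    have hpm : p ∣ m := Nat.dvd_of_mem_primeFactors hp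
    have hpr : (p : ZMod r) ≠ 0 := by
      intro h
      rw [ZMod.natCast_eq_zero_iff] at h
      exact hrm (h.trans hpm)
    -- the case `t = 1`
    have h1 : ∀ y : ZMod m,
        ∑ x ∈ univ.filter (fun x : ZMod m => (p : ZMod m) * x = p * y), spsi m r ψ x =
          spsi m r ψ ((p : ZMod m) * y) := by
      intro y
      have h2 : ∀ j : ZMod r,
          ∑ x ∈ univ.filter (fun x : ZMod m => (p : ZMod m) * x = p * y), sz (e m r x j) =
            sz (e m r ((p : ZMod m) * y) ((p : ZMod r) * j)) := by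
        intro j
        rw [e_mul, ← (hDist (m * r) p (hpm.mul_right r)).1 (e m r y j)]
        refine Finset.sum_bij (fun x _ => e m r x j) ?_ ?_ ?_ ?_
        · intro x hx
          rw [mem_filter] at hx ⊢
          refine ⟨mem_univ _, ?_⟩
          rw [← e_mul, ← e_mul, hx.2]
        · intro x _ x' _ h
          exact e_inj x x' j h
        · intro X hX
          rw [mem_filter] at hX
          obtain ⟨z, hz, hzD⟩ := e_surj hpm (X - e m r y j) (by
            rw [mul_sub, hX.2, sub_self])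
          refine ⟨y + z, ?_, ?_⟩
          · rw [mem_filter]
            refine ⟨mem_univ _, ?_⟩
            rw [mul_add, hz, add_zero]
          · have h3 := e_add y z j 0
            rw [add_zero] at h3
            rw [h3, hzD]
            ring
        · intro x _
          rfl
      calc ∑ x ∈ univ.filter (fun x : ZMod m => (p : ZMod m) * x = p * y), spsi m r ψ x
          = ∑ x ∈ univ.filter (fun x : ZMod m => (p : ZMod m) * x = p * y),
              ∑ j : ZMod r, (ψ j : ℚ) * sz (e m r x j) := rfl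
        _ = ∑ j : ZMod r, (ψ j : ℚ) *
              ∑ x ∈ univ.filter (fun x : ZMod m => (p : ZMod m) * x = p * y), sz (e m r x j) := by
            rw [Finset.sum_comm]
            refine Finset.sum_congr rfl fun j _ => ?_
            rw [Finset.mul_sum]
        _ = ∑ j : ZMod r, (ψ ((p : ZMod r) * j) : ℚ) *
              sz (e m r ((p : ZMod m) * y) ((p : ZMod r) * j)) := by
            refine Finset.sum_congr rfl fun j _ => ?_
            rw [h2, map_mul, hψp p hp, one_mul]
        _ = spsi m r ψ ((p : ZMod m) * y) := by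
            rw [hs]
            exact Equiv.sum_comp (Equiv.mulLeft₀ (p : ZMod r) hpr)
              (fun j => (ψ j : ℚ) * sz (e m r ((p : ZMod m) * y) j))
    rw [← h1 ((t : ZMod m) * y)]
    obtain ⟨a, b, hab⟩ : IsCoprime (t : ℤ) (p : ℤ) := Nat.isCoprime_iff_coprime.2 htp
    have hab' : (a : ZMod m) * (t : ZMod m) + (b : ZMod m) * (p : ZMod m) = 1 := by
      have := congrArg (fun z : ℤ => (z : ZMod m)) hab
      push_cast at this
      exact this
    refine Finset.sum_nbij' (fun x => (t : ZMod m) * x)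
      (fun x' => y + (a : ZMod m) * (x' - (t : ZMod m) * y)) ?_ ?_ ?_ ?_ ?_
    · intro x hx
      rw [mem_filter] at hx ⊢
      refine ⟨mem_univ _, ?_⟩
      linear_combination (t : ZMod m) * hx.2
    · intro x' hx'
      rw [mem_filter] at hx' ⊢
      refine ⟨mem_univ _, ?_⟩
      linear_combination (a : ZMod m) * hx'.2
    · intro x hx
      rw [mem_filter] at hx
      linear_combination (x - y) * hab' - (b : ZMod m) * hx.2
    · intro x' hx'
      rw [mem_filter] at hx'
      linear_combination (x' - (t : ZMod m) * y) * hab' - (b : ZMod m) * hx'.2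
    · intro x _
      rfl

end Pool.Agent.FO
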