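import Pool.Agent.Lib.MP_640417_ag.FO.SpecL

/-!
# Theorem FO: character sums, value at the level `d`
-/

set_option autoImplicit false

noncomputable section

namespace Pool.Agent.FO

open Finset Pool.Agent.FC

namespace SeAux

/-- Sum over the fibres of a surjective homomorphism. -/
theorem fibre {G H : Type} [Group G] [Fintype G] [Group H] [Fintype H] (φ : G →* H)
    (hφ : Function.Surjective φ) (g : H → ℂ) :
    (Fintype.card H : ℂ) * ∑ t : G, g (φ t) = (Fintype.card G : ℂ) * ∑ v : H, g v := by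
  classical
  obtain ⟨c, hc⟩ : ∃ c : ℕ, c = (univ.filter fun t : G => φ t = 1).card := ⟨_, rfl⟩
  have h1 : ∀ v : H, (univ.filter fun t : G => φ t = v).card = c := by
    intro v
    rw [hc]
    exact MonoidHom.card_fiber_eq_of_mem_range φ (hφ v) (hφ 1)
  have h2 : ∑ t : G, g (φ t) = (c : ℂ) * ∑ v : H, g v := by
    rw [← Finset.sum_fiberwise (s := univ) (g := fun t : G => φ t) (f := fun t => g (φ t)),
      Finset.mul_sum]
    refine Finset.sum_congr rfl fun v _ => ?_
    rw [Finset.sum_congr rfl (g := fun _ => g v) (fun t ht => by rw [(Finset.mem_filter.1 ht).2]),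
      Finset.sum_const, h1, nsmul_eq_mul]
  have h3 : Fintype.card G = Fintype.card H * c := by
    have h4 := Finset.card_eq_sum_card_fiberwise (s := (univ : Finset G)) (t := (univ : Finset H))
      (f := fun t => φ t) (fun t _ => Finset.mem_univ _)
    rw [Finset.card_univ] at h4
    rw [h4, Finset.sum_congr rfl fun v _ => h1 v, Finset.sum_const, Finset.card_univ, smul_eq_mul]
  rw [h2, h3]
  push_cast
  ring

end SeAux

theorem pSe (hEl : S_El) : S_Se := by
  intro m d _ _ hd χ u
  obtain ⟨-, -, -, h4, -, h6⟩ := hEl m d hd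
  have h1 : ∀ t : (ZMod m)ˣ, χ ((ZMod.unitsMap hd t : (ZMod d)ˣ) : ZMod d) *
      ((sz ((t : ZMod m) * el m d u) : ℚ) : ℂ) =
      (fun v : (ZMod d)ˣ => χ (v : ZMod d) * ((sz ((v * u : (ZMod d)ˣ) : ZMod d) : ℚ) : ℂ))
        (ZMod.unitsMap hd t) := by
    intro t
    rw [h4, h6]
  rw [Finset.sum_congr rfl fun t _ => h1 t]
  have h2 := SeAux.fibre (ZMod.unitsMap hd) (ZMod.unitsMap_surjective hd)
    (fun v : (ZMod d)ˣ => χ (v : ZMod d) * ((sz ((v * u : (ZMod d)ˣ) : ZMod d) : ℚ) : ℂ))
  rw [ZMod.card_units_eq_totient, ZMod.card_units_eq_totient] at h2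
  rw [h2, mul_assoc]
  congr 1
  rw [Finset.mul_sum]
  refine Fintype.sum_equiv (Equiv.mulRight u) _ _ fun v => ?_
  rw [Equiv.coe_mulRight]
  rw [← mul_assoc]
  congr 1
  rw [← map_mul, ← Units.val_mul]
  congr 2
  show v = u⁻¹ * (v * u)
  rw [mul_comm v u, inv_mul_cancel_left]

end Pool.Agent.FO
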