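import Pool.Agent.Lib.MP_640417_ag.FO.SpecB

/-!
# Theorem FO, part B, module Slice (helper47): most slices agree
-/

set_option autoImplicit false

open Finset Pool.Agent.FC

namespace Pool.Agent.FO

namespace SliceAux

theorem arith (n s e σ w N : ℤ) (hn : 1 ≤ n) (hs : 0 < s) (he : 0 ≤ e)
    (h1 : s * e ≤ N) (h2 : w * (σ - 2 * e) + s * e ≤ N) (h3 : 2 * (n + 2) * N < n * (s * σ)) :
    2 * (n + 2) * w < n * s := by
  by_contra hcon
  push Not at hcon
  have h4 : 2 * (n + 2) * (s * e) < n * (s * σ) := by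
    refine lt_of_le_of_lt ?_ h3
    exact mul_le_mul_of_nonneg_left h1 (by linarith)
  have h5 : s * (2 * (n + 2) * e) < s * (n * σ) := by nlinarith
  have h6 : 2 * (n + 2) * e < n * σ := lt_of_mul_lt_mul_left h5 hs.le
  have h7 : n * (2 * e) < n * σ := by nlinarith
  have h8 : 2 * e < σ := lt_of_mul_lt_mul_left h7 (by linarith)
  have h9 : (n * s) * (σ - 2 * e) ≤ (2 * (n + 2) * w) * (σ - 2 * e) :=
    mul_le_mul_of_nonneg_right hcon (by linarith)
  have h10 : 2 * (n + 2) * (w * (σ - 2 * e) + s * e) ≤ 2 * (n + 2) * N :=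
    mul_le_mul_of_nonneg_left h2 (by linarith)
  have h11 : 0 ≤ s * e := mul_nonneg hs.le he
  nlinarith

end SliceAux

theorem pSlice (hTBas : S_TBas) (hTlBas : S_TlBas) (hSumKK : S_SumKK) (hMin : S_Min) : S_Slice := by
  classical
  intro G _ _ K r l hl hInd n hn F hF hcond a
  obtain ⟨hdisj, hInd'⟩ := hInd
  obtain ⟨hmem, hcard, -⟩ := hTBas G (K r) (KS K l) F F
  -- the invariance of `Tl K l F`
  have hinv : ∀ k ∈ K r, ∀ c, Tl K l F (k * c) = Tl K l F c := by
    have h1 : T (K r) (Tl K l F) = 0 := by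
      rw [← (hTlBas G K l (K r) F F).2.2.2.1]
      exact hF
    exact (hTBas G (K r) (K r) (Tl K l F) F).2.2.2.2.2.2.2.1.1 h1
  -- the sums over the slices
  obtain ⟨ν, hν⟩ : ∃ ν : G → ℤ, ν = fun x => ∑ b ∈ sK (KS K l), |F (x * b * a)| := ⟨_, rfl⟩
  have hsum : ∑ x ∈ sK (K r), ν x ≤ nm F := by
    have h1 := hSumKK G (K r) (KS K l) hdisj (fun c => |F (c * a)|)
    have h2 : ∑ x ∈ sK (K r), ν x = ∑ b ∈ sK (K r ⊔ KS K l), |F (b * a)| := by
      rw [h1, hν]
    rw [h2]
    have h3 : ∑ c : G, |F (c * a)| = nm F :=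
      Equiv.sum_comp (Equiv.mulRight a) (fun c => |F c|)
    rw [← h3]
    exact Finset.sum_le_sum_of_subset_of_nonneg (Finset.subset_univ _)
      (fun _ _ _ => abs_nonneg _)
  obtain ⟨x0, hx0, hmin⟩ := Finset.exists_min_image (sK (K r)) ν (Finset.card_pos.1 hcard)
  have he : 0 ≤ ν x0 := by
    rw [hν]
    exact Finset.sum_nonneg fun _ _ => abs_nonneg _
  have hse : ((sK (K r)).card : ℤ) * ν x0 ≤ nm F := by
    refine le_trans ?_ hsum
    have := Finset.card_nsmul_le_sum (sK (K r)) ν (ν x0) hmin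
    rwa [nsmul_eq_mul] at this
  -- the smallest of the other groups
  obtain ⟨j0, hj0, hjmin⟩ := Finset.exists_min_image l.toFinset (fun j => (sK (K j)).card)
    (by
      obtain ⟨j, hj⟩ := List.exists_mem_of_ne_nil l hl
      exact ⟨j, List.mem_toFinset.2 hj⟩)
  rw [List.mem_toFinset] at hj0
  obtain ⟨B, hB⟩ : ∃ B : Finset G, B = (sK (K r)).filter
    (fun x => ∃ b ∈ KS K l, F (x * b * a) ≠ F (x0 * b * a)) := ⟨_, rfl⟩
  have hBsub : B ⊆ sK (K r) := by
    rw [hB]
    exact Finset.filter_subset _ _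
  have hσ : ∀ x ∈ B, ((sK (K j0)).card : ℤ) ≤ ν x + ν x0 := by
    intro x hx
    rw [hB, Finset.mem_filter] at hx
    obtain ⟨hxK, b0, hb0, hne⟩ := hx
    obtain ⟨H, hH⟩ : ∃ H : G → ℤ, H = fun c => F (x * c) - F (x0 * c) := ⟨_, rfl⟩
    have hHz : ∀ c, Tl K l H c = 0 := by
      intro c
      have h1 := (hTlBas G K l (K r) (fun c => F (x * c)) (fun c => F (x0 * c))).2.1
      have h2 := (hTlBas G K l (K r) F F).2.2.1 x
      have h3 := (hTlBas G K l (K r) F F).2.2.1 x0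
      rw [hH, h1, h2, h3]
      change Tl K l F (x * c) - Tl K l F (x0 * c) = 0
      rw [hinv x ((hmem x).1 hxK) c, hinv x0 ((hmem x0).1 hx0) c, sub_self]
    have hHne : H (b0 * a) ≠ 0 := by
      rw [hH]
      change F (x * (b0 * a)) - F (x0 * (b0 * a)) ≠ 0
      rw [← mul_assoc, ← mul_assoc, sub_ne_zero]
      exact hne
    obtain ⟨i, hi, hle⟩ := hMin G K l hInd' H (b0 * a) (fun b _ => hHz _) hHne
    have h4 := (hTBas G (KS K l) (KS K l) (fun c => |H c|) F).2.2.1 b0 hb0 a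
    have h5 : ((sK (K j0)).card : ℤ) ≤ (sK (K i)).card := by
      exact_mod_cast hjmin i (List.mem_toFinset.2 hi)
    refine h5.trans (hle.trans ?_)
    rw [h4, hν]
    change ∑ b ∈ sK (KS K l), |H (b * a)| ≤
      (∑ b ∈ sK (KS K l), |F (x * b * a)|) + ∑ b ∈ sK (KS K l), |F (x0 * b * a)|
    rw [← Finset.sum_add_distrib]
    refine Finset.sum_le_sum fun b _ => ?_
    rw [hH]
    change |F (x * (b * a)) - F (x0 * (b * a))| ≤ _
    rw [← mul_assoc, ← mul_assoc]
    exact abs_sub _ _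
  have hcount : (B.card : ℤ) * ((sK (K j0)).card - 2 * ν x0) + (sK (K r)).card * ν x0 ≤ nm F := by
    refine le_trans ?_ hsum
    have h1 : ∑ x ∈ sK (K r), (ν x0 + if x ∈ B then ((sK (K j0)).card : ℤ) - 2 * ν x0 else 0) =
        (B.card : ℤ) * ((sK (K j0)).card - 2 * ν x0) + (sK (K r)).card * ν x0 := by
      rw [Finset.sum_add_distrib, Finset.sum_const, nsmul_eq_mul, ← Finset.sum_filter,
        Finset.filter_mem_eq_inter, Finset.inter_eq_right.2 hBsub, Finset.sum_const, nsmul_eq_mul]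
      ring
    rw [← h1]
    refine Finset.sum_le_sum fun x hx => ?_
    by_cases hxB : x ∈ B
    · rw [if_pos hxB]
      have := hσ x hxB
      linarith
    · rw [if_neg hxB, add_zero]
      exact hmin x hx
  refine ⟨x0, (hmem x0).1 hx0, B, hBsub, ?_, ?_⟩
  · exact SliceAux.arith n (sK (K r)).card (ν x0) (sK (K j0)).card B.card (nm F) hn
      (by exact_mod_cast hcard) he hse hcount (hcond j0 hj0)
  · intro x hx hxB b hb
    by_contra hne
    apply hxB
    rw [hB, Finset.mem_filter]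
    exact ⟨(hmem x).2 hx, b, hb, hne⟩

end Pool.Agent.FO
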