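import Pool.Agent.Lib.MP_640417_ag.FO.SpecR

set_option autoImplicit false

open Finset Pool.Agent.FC

namespace Pool.Agent.FO

namespace SpanAux

private lemma sz_neg {m : ℕ} [NeZero m] (x : ZMod m) : sz (-x) = -sz x := by
  have hm : (0 : ℚ) < m := by exact_mod_cast Nat.pos_of_ne_zero (NeZero.ne m)
  by_cases hx : x = 0
  · rw [hx, neg_zero]
    unfold sz
    rw [if_pos rfl, neg_zero]
  · unfold sz
    rw [if_neg hx, if_neg (fun h => hx (neg_eq_zero.1 h)), ZMod.neg_val, if_neg hx,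
      Nat.cast_sub (ZMod.val_lt x).le]
    field_simp
    ring

private lemma key (m p : ℕ) [NeZero m] (hp : p ∈ m.primeFactors)
    (h5 : ∀ x y : ZMod m, (p : ZMod m) * x = p * y ↔ ∃ j < p, x = y + j * ((m / p : ℕ) : ZMod m))
    (x : ZMod m) :
    (∑ j ∈ range p, Pi.single (x + j * ((m / p : ℕ) : ZMod m)) 1 : ZMod m → ℤ) =
      fun z => if (p : ZMod m) * z = p * x then 1 else 0 := by
  classical
  have hpp := Nat.prime_of_mem_primeFactors hp
  have hpm := Nat.dvd_of_mem_primeFactors hp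
  have hm : 0 < m := Nat.pos_of_ne_zero (NeZero.ne m)
  have hM : 0 < m / p := Nat.div_pos (Nat.le_of_dvd hm hpm) hpp.pos
  have hinj : ∀ i < p, ∀ j < p, x + i * ((m / p : ℕ) : ZMod m) = x + j * ((m / p : ℕ) : ZMod m) →
      i = j := by
    intro i hi j hj h
    have h' := add_left_cancel h
    rw [← Nat.cast_mul, ← Nat.cast_mul, ZMod.natCast_eq_natCast_iff'] at h'
    have hlt : ∀ i < p, i * (m / p) < m := by
      intro i hi
      calc i * (m / p) < p * (m / p) := Nat.mul_lt_mul_of_pos_right hi hM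
        _ = m := Nat.mul_div_cancel' hpm
    rw [Nat.mod_eq_of_lt (hlt i hi), Nat.mod_eq_of_lt (hlt j hj)] at h'
    exact Nat.eq_of_mul_eq_mul_right hM h'
  funext z
  rw [Finset.sum_apply]
  simp only [Pi.single_apply]
  by_cases hz : (p : ZMod m) * z = p * x
  · rw [if_pos hz]
    obtain ⟨j, hj, e⟩ := (h5 z x).1 hz
    rw [Finset.sum_eq_single j]
    · rw [if_pos e]
    · intro i hi hij
      rw [if_neg]
      intro h
      exact hij (hinj i (mem_range.1 hi) j hj (h.symm.trans e))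
    · intro h
      exact absurd (mem_range.2 hj) h
  · rw [if_neg hz]
    apply Finset.sum_eq_zero
    intro j hj
    rw [if_neg]
    intro h
    exact hz ((h5 z x).2 ⟨j, mem_range.1 hj, h⟩)

private lemma step (m q p : ℕ) [NeZero m] (hp : p ∈ m.primeFactors) (hpq : p ≠ q)
    (h5 : ∀ x y : ZMod m, (p : ZMod m) * x = p * y ↔ ∃ j < p, x = y + j * ((m / p : ℕ) : ZMod m))
    (U : AddSubgroup (ZMod m → ℤ)) (hU : DG m q ≤ U) (x : ZMod m) (hx : Tp m q x)
    (hx1 : (Pi.single ((p : ZMod m) * x) 1 : ZMod m → ℤ) ∈ U)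
    (hx2 : ∀ j, 0 < j → j < p →
      (Pi.single (x + j * ((m / p : ℕ) : ZMod m)) 1 : ZMod m → ℤ) ∈ U) :
    (Pi.single x 1 : ZMod m → ℤ) ∈ U := by
  classical
  have hpp := Nat.prime_of_mem_primeFactors hp
  have h1 : rl m p x ∈ U := hU (AddSubgroup.subset_closure ⟨p, hp, hpq, x, hx, rfl⟩)
  have h2 : (∑ j ∈ Ico 1 p, Pi.single (x + j * ((m / p : ℕ) : ZMod m)) 1 : ZMod m → ℤ) ∈ U := by
    apply sum_mem
    intro j hj
    rw [mem_Ico] at hj
    exact hx2 j (by omega) hj.2
  have h3 := key m p hp h5 x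
  rw [Finset.range_eq_Ico, Finset.sum_eq_sum_Ico_succ_bot hpp.pos] at h3
  have h4 : (Pi.single x 1 : ZMod m → ℤ) = rl m p x + Pi.single ((p : ZMod m) * x) 1 -
      ∑ j ∈ Ico 1 p, Pi.single (x + j * ((m / p : ℕ) : ZMod m)) 1 := by
    have h5 : (Pi.single x 1 : ZMod m → ℤ) = (fun z => if (p : ZMod m) * z = p * x then 1 else 0) -
        ∑ j ∈ Ico 1 p, Pi.single (x + j * ((m / p : ℕ) : ZMod m)) 1 := by
      rw [← h3]
      simp
    rw [h5]
    congr 1
    funext z
    simp only [rl, Pi.add_apply, Pi.single_apply]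
    ring
  rw [h4]
  exact U.sub_mem (U.add_mem h1 hx1) h2

private lemma ind (hSpcBas : S_SpcBas) (m q : ℕ) [NeZero m]
    (U : AddSubgroup (ZMod m → ℤ)) (R : ZMod m → Prop)
    (hU : DG m q ≤ U) (hR : ∀ x, R x → Tp m q x)
    (hRs : ∀ p ∈ m.primeFactors, p ≠ q → ∀ x, R x → ∀ j : ℕ,
      R (x + j * ((m / p : ℕ) : ZMod m)))
    (hRp : ∀ p ∈ m.primeFactors, p ≠ q → ∀ x, R x →
      (∀ y, R y → addOrderOf y ≤ addOrderOf ((p : ZMod m) * x) →
        (Pi.single y 1 : ZMod m → ℤ) ∈ U) →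
      (Pi.single ((p : ZMod m) * x) 1 : ZMod m → ℤ) ∈ U)
    (hb : ∀ x, R x → (∀ p ∈ m.primeFactors, p ≠ q → ¬ Spc m p x) →
      (Pi.single x 1 : ZMod m → ℤ) ∈ U) :
    ∀ x, R x → (Pi.single x 1 : ZMod m → ℤ) ∈ U := by
  classical
  have main : ∀ n : ℕ, ∀ k : ℕ, ∀ x, R x → addOrderOf x ≤ n →
      #{p ∈ m.primeFactors | p ≠ q ∧ Spc m p x} = k → (Pi.single x 1 : ZMod m → ℤ) ∈ U := by
    intro n
    induction n using Nat.strong_induction_on with
    | _ n ihn =>
    intro k
    induction k using Nat.strong_induction_on with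
    | _ k ihk =>
    intro x hx hxn hk
    by_cases hs : ∃ p ∈ m.primeFactors, p ≠ q ∧ Spc m p x
    · obtain ⟨p, hp, hpq, hps⟩ := hs
      obtain ⟨B1, B2, B3, B4, B5, B6⟩ := hSpcBas m p hp
      obtain ⟨C1, C2, C3⟩ := B2 x hps
      apply step m q p hp hpq B5 U hU x (hR x hx)
      · apply hRp p hp hpq x hx
        intro y hy hyo
        exact ihn (addOrderOf y) (by omega) _ y hy le_rfl rfl
      · intro j hj0 hjp
        refine ihk _ ?_ _ (hRs p hp hpq x hx j) ((C3 j).trans hxn) rfl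
        rw [← hk]
        apply Finset.card_lt_card
        rw [Finset.ssubset_iff_of_subset]
        · refine ⟨p, ?_, ?_⟩
          · rw [Finset.mem_filter]
            exact ⟨hp, hpq, hps⟩
          · rw [Finset.mem_filter]
            rintro ⟨-, -, h9⟩
            obtain ⟨j', -, -, hj'⟩ := B1 x
            have e0 := hj' 0 (by omega) (by simpa using hps)
            have e1 := hj' j hjp h9
            omega
        · intro p' hp'
          rw [Finset.mem_filter] at hp' ⊢
          obtain ⟨a1, a2, a3⟩ := hp'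
          refine ⟨a1, a2, ?_⟩
          by_cases hpp : p' = p
          · rw [hpp]
            exact hps
          · exact (B3 p' a1 hpp x j).1 a3
    · push Not at hs
      exact hb x hx hs
  intro x hx
  exact main _ _ x hx le_rfl rfl

/-- functions supported on a set -/
private def Su {m : ℕ} (R : ZMod m → Prop) : AddSubgroup (ZMod m → ℤ) where
  carrier := {g | ∀ z, g z ≠ 0 → R z}
  zero_mem' := by
    intro z hz
    exact absurd rfl hz
  add_mem' := by
    intro f g hf hg z hz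
    by_cases h : f z = 0
    · apply hg
      intro h'
      apply hz
      rw [Pi.add_apply, h, h', add_zero]
    · exact hf z h
  neg_mem' := by
    intro f hf z hz
    apply hf
    intro h
    apply hz
    rw [Pi.neg_apply, h, neg_zero]

private lemma single_mem_Su {m : ℕ} (R : ZMod m → Prop) (x : ZMod m) (hx : R x) :
    (Pi.single x 1 : ZMod m → ℤ) ∈ Su R := by
  intro z hz
  by_cases h : z = x
  · rw [h]
    exact hx
  · exact absurd (Pi.single_eq_of_ne h _) hz

private lemma of_mem_sup {m : ℕ} (R : ZMod m → Prop) (D : AddSubgroup (ZMod m → ℤ))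
    (f : ZMod m → ℤ) (hf : f ∈ D ⊔ Su R) : ∃ g : ZMod m → ℤ, (∀ z, g z ≠ 0 → R z) ∧ f - g ∈ D := by
  obtain ⟨h, hh, g, hg, e⟩ := AddSubgroup.mem_sup.1 hf
  refine ⟨g, hg, ?_⟩
  rw [← e, add_sub_cancel_right]
  exact hh

private lemma sz_ne (m q : ℕ) [NeZero m] (hq : q ∈ m.primeFactors) (hq2 : q ≠ 2) (x : ZMod m)
    (hx : Tp m q x) : sz (((m / q : ℕ) : ZMod m) * x) ≠ 0 := by
  have hqp := Nat.prime_of_mem_primeFactors hq
  have hqm := Nat.dvd_of_mem_primeFactors hq
  have hm : 0 < m := Nat.pos_of_ne_zero (NeZero.ne m)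
  have hmQ : (0 : ℚ) < m := by exact_mod_cast hm
  obtain ⟨y, hy⟩ : ∃ y, y = ((m / q : ℕ) : ZMod m) * x := ⟨_, rfl⟩
  unfold Tp at hx
  rw [← hy] at hx ⊢
  intro h
  unfold sz at h
  rw [if_neg hx, sub_eq_zero, div_eq_div_iff hmQ.ne' (by norm_num)] at h
  have h1 : y.val * 2 = 1 * m := by exact_mod_cast h
  have h2 : (q : ZMod m) * y = 0 := by
    rw [hy, ← mul_assoc, ← Nat.cast_mul, Nat.mul_div_cancel' hqm]
    simp
  have h3 : m ∣ q * y.val := by
    rw [← ZMod.natCast_eq_zero_iff, Nat.cast_mul, ZMod.natCast_zmod_val]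
    exact h2
  have hv : 0 < y.val := by omega
  have h4 : y.val * 2 ∣ y.val * q := by
    rw [h1, one_mul, mul_comm]
    exact h3
  have h5 : 2 ∣ q := Nat.dvd_of_mul_dvd_mul_left hv h4
  exact hq2 ((Nat.prime_dvd_prime_iff_eq Nat.prime_two hqp).1 h5).symm

private lemma pos_or (m q : ℕ) [NeZero m] (hq : q ∈ m.primeFactors) (hq2 : q ≠ 2) (x : ZMod m)
    (hx : Tp m q x) : Pos m q x ∨ Pos m q (-x) := by
  unfold Pos
  rw [mul_neg, sz_neg]
  rcases lt_or_gt_of_ne (sz_ne m q hq hq2 x hx) with h | h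
  · right
    linarith
  · left
    exact h

private lemma tp_neg (m q : ℕ) [NeZero m] (x : ZMod m) (hx : Tp m q x) : Tp m q (-x) := by
  unfold Tp at *
  rwa [mul_neg, neg_ne_zero]

end SpanAux

open SpanAux

theorem pSpan (hSpcBas : S_SpcBas) : S_Span := by
  classical
  intro m q _ hq hq2 x hx
  constructor
  · apply of_mem_sup
    apply ind hSpcBas m q (DG m q ⊔ Su (NS m q)) (Tp m q) le_sup_left (fun x h => h)
      ?_ ?_ ?_ x hx
    · intro p hp hpq x hx j
      have h4 := (hSpcBas m p hp).2.2.2.1 q hq hpq.symm x j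
      unfold Tp at *
      rwa [h4]
    · intro p hp hpq x hx h
      exact h _ ((hSpcBas m p hp).2.2.2.2.2 q hq hpq.symm x hx) le_rfl
    · intro x hx h
      exact AddSubgroup.mem_sup_right (single_mem_Su _ x ⟨hx, h⟩)
  · apply of_mem_sup
    have hpair : ∀ y, Tp m q y → (Pi.single (-y) 1 : ZMod m → ℤ) ∈
        DGp m q ⊔ Su (fun z => NS m q z ∧ Pos m q z) →
        (Pi.single y 1 : ZMod m → ℤ) ∈ DGp m q ⊔ Su (fun z => NS m q z ∧ Pos m q z) := by
      intro y hy h
      have h1 : (Pi.single y 1 + Pi.single (-y) 1 : ZMod m → ℤ) ∈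
          DGp m q ⊔ Su (fun z => NS m q z ∧ Pos m q z) :=
        AddSubgroup.mem_sup_left (AddSubgroup.mem_sup_right
          (AddSubgroup.subset_closure ⟨y, hy, rfl⟩))
      have h2 := AddSubgroup.sub_mem _ h1 h
      rwa [add_sub_cancel_right] at h2
    have hmain : ∀ x, Tp m q x ∧ Pos m q x → (Pi.single x 1 : ZMod m → ℤ) ∈
        DGp m q ⊔ Su (fun z => NS m q z ∧ Pos m q z) := by
      apply ind hSpcBas m q (DGp m q ⊔ Su (fun z => NS m q z ∧ Pos m q z))
        (fun x => Tp m q x ∧ Pos m q x) (le_sup_left.trans le_sup_left) (fun x h => h.1) ?_ ?_ ?_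
      · intro p hp hpq x hx j
        have h4 := (hSpcBas m p hp).2.2.2.1 q hq hpq.symm x j
        unfold Tp Pos at *
        rwa [h4]
      · intro p hp hpq x hx h
        have htp := (hSpcBas m p hp).2.2.2.2.2 q hq hpq.symm x hx.1
        rcases pos_or m q hq hq2 _ htp with h1 | h1
        · exact h _ ⟨htp, h1⟩ le_rfl
        · apply hpair _ htp
          apply h _ ⟨tp_neg m q _ htp, h1⟩
          rw [addOrderOf_neg]
      · intro x hx h
        exact AddSubgroup.mem_sup_right (single_mem_Su _ x ⟨⟨hx.1, h⟩, hx.2⟩)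
    rcases pos_or m q hq hq2 x hx with h | h
    · exact hmain x ⟨hx, h⟩
    · exact hpair x hx (hmain (-x) ⟨tp_neg m q x hx, h⟩)

end Pool.Agent.FO
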