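import Pool.Agent.Lib.MP_640417_ag.FO.SpecR

/-!
# Theorem FR: spanning, functions supported on top elements
-/

set_option autoImplicit false

noncomputable section

namespace Pool.Agent.FO

open Finset Pool.Agent.FC

private theorem SpanF_gen {m : ℕ} [NeZero m] (D : AddSubgroup (ZMod m → ℤ)) (N T : ZMod m → Prop)
    (h : ∀ x, T x → ∃ g : ZMod m → ℤ, (∀ z, g z ≠ 0 → N z) ∧ (Pi.single x 1 - g : ZMod m → ℤ) ∈ D)
    (f : ZMod m → ℤ) (hf : ∀ x, f x ≠ 0 → T x) :
    ∃ g : ZMod m → ℤ, (∀ z, g z ≠ 0 → N z) ∧ (f - g) ∈ D := by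
  classical
  have h' : ∀ x, ∃ g : ZMod m → ℤ, (∀ z, g z ≠ 0 → N z) ∧
      (f x ≠ 0 → (Pi.single x 1 - g : ZMod m → ℤ) ∈ D) := by
    intro x
    by_cases hx : f x = 0
    · exact ⟨0, fun z hz => absurd rfl hz, fun hx' => absurd hx hx'⟩
    · obtain ⟨g, h1, h2⟩ := h x (hf x hx)
      exact ⟨g, h1, fun _ => h2⟩
  choose g hg1 hg2 using h'
  refine ⟨∑ x, f x • g x, ?_, ?_⟩
  · intro z hz
    rw [Finset.sum_apply] at hz
    obtain ⟨x, _, hx⟩ := Finset.exists_ne_zero_of_sum_ne_zero hz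
    refine hg1 x z fun h0 => hx ?_
    rw [Pi.smul_apply, h0, smul_zero]
  · have e : f - ∑ x, f x • g x = ∑ x, f x • (Pi.single x 1 - g x : ZMod m → ℤ) := by
      have e1 : f = ∑ x, f x • (Pi.single x 1 : ZMod m → ℤ) := by
        funext z
        rw [Finset.sum_apply, Finset.sum_eq_single z]
        · rw [Pi.smul_apply, Pi.single_eq_same, smul_eq_mul, mul_one]
        · intro x _ hx
          rw [Pi.smul_apply, Pi.single_eq_of_ne hx.symm, smul_zero]
        · intro hz
          exact absurd (Finset.mem_univ z) hz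
      have e2 : ∑ x, f x • (Pi.single x 1 - g x : ZMod m → ℤ) =
          ∑ x, f x • (Pi.single x 1 : ZMod m → ℤ) - ∑ x, f x • g x := by
        rw [← Finset.sum_sub_distrib]
        exact Finset.sum_congr rfl fun x _ => smul_sub _ _ _
      rw [e2, ← e1]
    rw [e]
    refine sum_mem fun x _ => ?_
    by_cases hx : f x = 0
    · rw [hx, zero_smul]
      exact zero_mem _
    · exact zsmul_mem (hg2 x hx) _

theorem pSpanF (hSpan : S_Span) : S_SpanF := by
  intro m q _ hq hq2 f hf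
  exact ⟨SpanF_gen (DG m q) (NS m q) (Tp m q) (fun x hx => (hSpan m q hq hq2 x hx).1) f hf,
    SpanF_gen (DGp m q) (fun z => NS m q z ∧ Pos m q z) (Tp m q)
      (fun x hx => (hSpan m q hq hq2 x hx).2) f hf⟩

end Pool.Agent.FO
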