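import Pool.Agent.Lib.MP_640417_ag.FO.SpecR

/-!
# Special elements (Theorem FR)
-/

set_option autoImplicit false

noncomputable section

namespace Pool.Agent.FO

open Finset Pool.Agent.FC

namespace SpcBasAux

theorem val_shift {m p : ℕ} [NeZero m] (hp : 0 < p) (hpm : p ∣ m) (y : ZMod m) (k : ℕ) :
    (y + k * ((m / p : ℕ) : ZMod m)).val = y.val % (m / p) + ((y.val / (m / p) + k) % p) * (m / p) := by
  obtain ⟨M, hM⟩ := hpm
  have hm : 0 < m := Nat.pos_of_ne_zero (NeZero.ne m)
  have hM0 : 0 < M := by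
    rcases Nat.eq_zero_or_pos M with h | h
    · rw [h] at hM; omega
    · exact h
  have hMe : m / p = M := by rw [hM, Nat.mul_div_cancel_left _ hp]
  rw [hMe]
  have h1 : (y + k * ((M : ℕ) : ZMod m)) = ((y.val + k * M : ℕ) : ZMod m) := by
    push_cast
    rw [ZMod.natCast_zmod_val]
  rw [h1, ZMod.val_natCast]
  have h2 := Nat.mod_add_div y.val M
  have h3 := Nat.mod_add_div (y.val / M + k) p
  have h4 : y.val + k * M = (y.val % M + ((y.val / M + k) % p) * M) + m * ((y.val / M + k) / p) := by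
    generalize y.val = Y at *
    rw [hM]
    calc Y + k * M = (Y % M + M * (Y / M)) + k * M := by rw [h2]
      _ = Y % M + (Y / M + k) * M := by ring
      _ = Y % M + ((Y / M + k) % p + p * ((Y / M + k) / p)) * M := by rw [h3]
      _ = _ := by ring
  rw [h4, Nat.add_mul_mod_self_left]
  apply Nat.mod_eq_of_lt
  have h5 : y.val % M < M := Nat.mod_lt _ hM0
  have h6 : (y.val / M + k) % p < p := Nat.mod_lt _ hp
  calc y.val % M + (y.val / M + k) % p * M < M + (y.val / M + k) % p * M := by omega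
    _ = ((y.val / M + k) % p + 1) * M := by ring
    _ ≤ p * M := Nat.mul_le_mul_right _ h6
    _ = m := hM.symm

theorem cop_mul {m p : ℕ} : p ^ m.factorization p * cop m p = m := Nat.ordProj_mul_ordCompl_eq_self m p

theorem spc_iff {m p : ℕ} [NeZero m] (hp : p.Prime) (hpm : p ∣ m) (x : ZMod m) (j : ℕ) :
    Spc m p (x + j * ((m / p : ℕ) : ZMod m)) ↔
      ((((cop m p : ZMod m) * x).val / (m / p)) + j * cop m p) % p = 1 := by
  have hm : 0 < m := Nat.pos_of_ne_zero (NeZero.ne m)
  have h1 : (cop m p : ZMod m) * (x + j * ((m / p : ℕ) : ZMod m)) =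
      (cop m p : ZMod m) * x + ((j * cop m p : ℕ) : ZMod m) * ((m / p : ℕ) : ZMod m) := by
    push_cast; ring
  unfold Spc
  rw [h1, val_shift hp.pos hpm]
  set y := (cop m p : ZMod m) * x
  obtain ⟨M, hM⟩ := hpm
  have hMe : m / p = M := by rw [hM, Nat.mul_div_cancel_left _ hp.pos]
  have hM0 : 0 < M := by
    rcases Nat.eq_zero_or_pos M with h | h
    · rw [h] at hM; omega
    · exact h
  rw [hMe]
  set r := y.val % M
  have hr : r < M := Nat.mod_lt _ hM0
  set s := (y.val / M + j * cop m p) % p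
  rw [hM]
  have hp0 := hp.pos
  constructor
  · rintro ⟨h2, h3⟩
    have h2' : M ≤ r + s * M := Nat.le_of_mul_le_mul_left h2 hp0
    have h3' : r + s * M < 2 * M := by
      apply Nat.lt_of_mul_lt_mul_left (a := p)
      calc p * (r + s * M) < 2 * (p * M) := h3
        _ = p * (2 * M) := by ring
    have h4 : s ≠ 0 := by
      intro h; rw [h] at h2'; omega
    have h5 : s < 2 := by
      by_contra h
      push Not at h
      have : 2 * M ≤ s * M := Nat.mul_le_mul_right _ h
      omega
    omega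
  · intro h
    rw [h]
    constructor
    · exact Nat.mul_le_mul_left _ (by omega)
    · calc p * (r + 1 * M) < p * (2 * M) := Nat.mul_lt_mul_of_pos_left (by omega) hp0
        _ = 2 * (p * M) := by ring

theorem mul_div_zero {m p : ℕ} (hpm : p ∣ m) {n : ℕ} (hn : p ∣ n) :
    (n : ZMod m) * ((m / p : ℕ) : ZMod m) = 0 := by
  obtain ⟨k, rfl⟩ := hn
  have : (p * k : ℕ) * (m / p) = m * k := by
    rw [mul_comm p k, mul_assoc, Nat.mul_div_cancel' hpm, mul_comm]
  rw [← Nat.cast_mul, this, Nat.cast_mul, ZMod.natCast_self, zero_mul]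

end SpcBasAux

open SpcBasAux in
theorem pSpcBas : S_SpcBas := by
  intro m p _ hpf
  have hp : p.Prime := Nat.prime_of_mem_primeFactors hpf
  have hpm : p ∣ m := Nat.dvd_of_mem_primeFactors hpf
  have hm : 0 < m := Nat.pos_of_ne_zero (NeZero.ne m)
  have hucop : (cop m p).Coprime p := (Nat.coprime_ordCompl hp hm.ne').symm
  refine ⟨?_, ?_, ?_, ?_, ?_, ?_⟩
  · -- (1)
    intro x
    set t := ((cop m p : ZMod m) * x).val / (m / p) with ht
    -- solve `t + j u = 1` modulo `p`
    have : Fact p.Prime := ⟨hp⟩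
    have hu : ((cop m p : ℕ) : ZMod p) ≠ 0 := by
      intro h
      rw [ZMod.natCast_eq_zero_iff] at h
      exact hp.one_lt.ne' (Nat.eq_one_of_dvd_coprimes hucop h dvd_rfl)
    have hmod : ∀ j : ℕ, ((t + j * cop m p) % p = 1) ↔ ((t : ZMod p) + j * (cop m p : ℕ) = 1) := by
      intro j
      have h1 : (t : ZMod p) + j * (cop m p : ℕ) = ((t + j * cop m p : ℕ) : ZMod p) := by push_cast; ring
      rw [h1]
      have h2 : (1 : ZMod p) = ((1 : ℕ) : ZMod p) := by simp
      rw [h2, ZMod.natCast_eq_natCast_iff', Nat.mod_eq_of_lt hp.one_lt]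
    refine ⟨(((1 - (t : ZMod p)) * ((cop m p : ℕ) : ZMod p)⁻¹)).val, ZMod.val_lt _, ?_, ?_⟩
    · rw [spc_iff hp hpm, hmod, ZMod.natCast_zmod_val]
      field_simp
      ring
    · intro i hi hs
      rw [spc_iff hp hpm, hmod] at hs
      have h3 : (i : ZMod p) = (1 - (t : ZMod p)) * ((cop m p : ℕ) : ZMod p)⁻¹ := by
        rw [eq_mul_inv_iff_mul_eq₀ hu, ← hs]
        ring
      rw [← h3, ZMod.val_natCast, Nat.mod_eq_of_lt hi]
  · -- (2)
    intro x hx
    have hux : (cop m p : ZMod m) * x ≠ 0 := by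
      intro h
      have h1 := hx.1
      rw [h, ZMod.val_zero, mul_zero] at h1
      omega
    have hd : addOrderOf x ∣ m := by
      rw [addOrderOf_dvd_iff_nsmul_eq_zero, nsmul_eq_mul, ZMod.natCast_self, zero_mul]
    have hd0 : 0 < addOrderOf x := Nat.pos_of_dvd_of_pos hd hm
    have hpd : p ∣ addOrderOf x := by
      by_contra hnd
      have h2 : (addOrderOf x).Coprime (p ^ m.factorization p) :=
        (Nat.Coprime.pow_left _ ((Nat.Prime.coprime_iff_not_dvd hp).mpr hnd)).symm
      have h3 : addOrderOf x ∣ cop m p := by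
        apply h2.dvd_of_dvd_mul_left
        rw [cop_mul]
        exact hd
      apply hux
      rw [← nsmul_eq_mul]
      exact addOrderOf_dvd_iff_nsmul_eq_zero.mp h3
    refine ⟨hpd, ?_, ?_⟩
    · have h4 : addOrderOf ((p : ZMod m) * x) ∣ addOrderOf x / p := by
        rw [addOrderOf_dvd_iff_nsmul_eq_zero, nsmul_eq_mul, ← mul_assoc, ← Nat.cast_mul,
          Nat.div_mul_cancel hpd, ← nsmul_eq_mul, addOrderOf_nsmul_eq_zero]
      have h5 : 0 < addOrderOf x / p := Nat.div_pos (Nat.le_of_dvd hd0 hpd) hp.pos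
      exact lt_of_le_of_lt (Nat.le_of_dvd h5 h4) (Nat.div_lt_self hd0 hp.one_lt)
    · intro j
      apply Nat.le_of_dvd hd0
      rw [addOrderOf_dvd_iff_nsmul_eq_zero, smul_add, addOrderOf_nsmul_eq_zero, zero_add, nsmul_eq_mul,
        mul_left_comm, mul_div_zero hpm hpd, mul_zero]
  · -- (3)
    intro p' hp'f hne x j
    have hp' : p'.Prime := Nat.prime_of_mem_primeFactors hp'f
    have hpc : p ∣ cop m p' := by
      have h1 : p ∣ p' ^ m.factorization p' * cop m p' := by rw [cop_mul]; exact hpm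
      rcases hp.dvd_mul.mp h1 with h | h
      · exact absurd ((Nat.prime_dvd_prime_iff_eq hp hp').mp (hp.dvd_of_dvd_pow h)).symm hne
      · exact h
    unfold Spc
    have h2 : (cop m p' : ZMod m) * (x + j * ((m / p : ℕ) : ZMod m)) = (cop m p' : ZMod m) * x := by
      rw [mul_add, mul_left_comm, mul_div_zero hpm hpc, mul_zero, add_zero]
    rw [h2]
  · -- (4)
    intro q hqf hne x j
    have hq : q.Prime := Nat.prime_of_mem_primeFactors hqf
    have hqm : q ∣ m := Nat.dvd_of_mem_primeFactors hqf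
    have hpc : p ∣ m / q := by
      have h1 : p ∣ q * (m / q) := by rw [Nat.mul_div_cancel' hqm]; exact hpm
      rcases hp.dvd_mul.mp h1 with h | h
      · exact absurd ((Nat.prime_dvd_prime_iff_eq hp hq).mp h).symm hne
      · exact h
    rw [mul_add, mul_left_comm, mul_div_zero hpm hpc, mul_zero, add_zero]
  · -- (5)
    intro x y
    constructor
    · intro h
      have h1 : (p : ZMod m) * (x - y) = 0 := by rw [mul_sub, h, sub_self]
      set z := x - y with hz
      have h2 : ((p * z.val : ℕ) : ZMod m) = 0 := by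
        push_cast
        rw [ZMod.natCast_zmod_val]
        exact h1
      rw [ZMod.natCast_eq_zero_iff] at h2
      have h3 : m / p ∣ z.val := by
        apply Nat.dvd_of_mul_dvd_mul_left hp.pos
        rw [Nat.mul_div_cancel' hpm]
        exact h2
      obtain ⟨j, hj⟩ := h3
      have hM0 : 0 < m / p := Nat.div_pos (Nat.le_of_dvd hm hpm) hp.pos
      refine ⟨j, ?_, ?_⟩
      · have h4 : z.val < m := ZMod.val_lt z
        rw [hj] at h4
        apply Nat.lt_of_mul_lt_mul_left (a := m / p)
        calc m / p * j < m := h4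
          _ = m / p * p := (Nat.div_mul_cancel hpm).symm
      · have h5 : z = ((z.val : ℕ) : ZMod m) := (ZMod.natCast_zmod_val z).symm
        rw [hj] at h5
        have h6 : x = y + z := by rw [hz]; ring
        rw [h6, h5]
        push_cast
        ring
    · rintro ⟨j, _, rfl⟩
      rw [mul_add, mul_left_comm, mul_div_zero hpm dvd_rfl, mul_zero, add_zero]
  · -- (6)
    intro q hqf hne x hx h
    have hq : q.Prime := Nat.prime_of_mem_primeFactors hqf
    have hqm : q ∣ m := Nat.dvd_of_mem_primeFactors hqf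
    apply hx
    have h1 : (p : ZMod m) * (((m / q : ℕ) : ZMod m) * x) = 0 := by rw [mul_left_comm]; exact h
    have h2 : (q : ZMod m) * (((m / q : ℕ) : ZMod m) * x) = 0 := by
      rw [← mul_assoc, mul_div_zero hqm dvd_rfl, zero_mul]
    rw [← nsmul_eq_mul] at h1 h2
    rw [← addOrderOf_dvd_iff_nsmul_eq_zero] at h1 h2
    have h3 : addOrderOf (((m / q : ℕ) : ZMod m) * x) = 1 :=
      Nat.eq_one_of_dvd_coprimes ((Nat.coprime_primes hp hq).mpr (fun h => hne h.symm)) h1 h2
    exact AddMonoid.addOrderOf_eq_one_iff.mp h3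

end Pool.Agent.FO
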