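import Pool.Agent.Lib.MP_640417_ag.FO.SpecL

/-!
# Theorem FO, module StepA: the reduction step for `d` odd or `4 ∣ d` (helper26)
-/

set_option autoImplicit false

open Finset Pool.Agent.FC

namespace Pool.Agent.FO

namespace StepAAux

private lemma W_pos (n : ℕ) : 0 < W n := by
  unfold W
  split_ifs <;> norm_num

private lemma V_nonneg {m : ℕ} [NeZero m] (f : ZMod m → ℤ) : 0 ≤ V f :=
  Finset.sum_nonneg fun _ _ => mul_nonneg (abs_nonneg _) (W_pos _).le

private lemma nm_nonneg {G : Type} [Fintype G] (F : G → ℤ) : 0 ≤ nm F :=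
  Finset.sum_nonneg fun _ _ => abs_nonneg _

/-- The part of level `d` is bounded by the potential. -/
private lemma top_le (hEl : S_El) (hVBk : S_VBk) {m d : ℕ} [NeZero m] [NeZero d] (hdm : d ∣ m)
    (f : ZMod m → ℤ) : nm (fun u : (ZMod d)ˣ => f (el m d u)) * W d ≤ V f := by
  classical
  obtain ⟨e1, _, _, _, _, _⟩ := hEl m d hdm
  have h1 := hVBk m d hdm f (fun x => if addOrderOf x = d then f x else 0) (fun u => by
    show (if addOrderOf (el m d u) = d then f (el m d u) else 0) = f (el m d u)
    rw [if_pos (e1 u)])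
  have h2 : ∑ x ∈ univ.filter (fun x : ZMod m => addOrderOf x ≠ d),
      |if addOrderOf x = d then f x else 0| * W (addOrderOf x) = 0 := by
    refine Finset.sum_eq_zero fun x hx => ?_
    rw [if_neg (mem_filter.1 hx).2, abs_zero, zero_mul]
  have h3 := V_nonneg (fun x : ZMod m => f x - if addOrderOf x = d then f x else 0)
  rw [h2, add_zero] at h1
  linarith

end StepAAux

open StepAAux in
theorem pStepA (hTop : S_Top) (hFou : S_Fou) (hEl : S_El) (hElP : S_ElP) (hKpBas : S_KpBas)
    (hDec : S_Dec) (hLift : S_Lift) (hNew : S_New) (hAriW : S_AriW) (hAri : S_Ari)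
    (hVBk : S_VBk) (hHoHd : S_HoHd) : S_StepA := by
  classical
  intro m d m' N' _ hdm hd4 hm' hdm' hcond f hodd hRl hord hV
  have hm0 : m ≠ 0 := NeZero.ne m
  have hd0 : d ≠ 0 := by
    rintro rfl
    exact hm0 (Nat.eq_zero_of_zero_dvd hdm)
  have hdne : NeZero d := ⟨hd0⟩
  have hdpos : 0 < d := Nat.pos_of_ne_zero hd0
  obtain ⟨e1, e2, e3, _, e5, _⟩ := hEl m d hdm
  obtain ⟨k1, k2⟩ := hKpBas d
  obtain ⟨F, hF⟩ : ∃ F : (ZMod d)ˣ → ℤ, F = fun u => f (el m d u) := ⟨_, rfl⟩
  have hFa : ∀ u, F u = f (el m d u) := fun u => by rw [hF]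
  -- `F` is killed by the operators
  have hTl : Tl (Kp d) d.primeFactors.toList F = 0 := by
    apply hFou d F _ _ (fun p => Finset.mem_toList)
    intro χ hχ
    have h1 := hTop m d hdm f hodd hRl hord χ hχ
    simp only [← hFa] at h1
    exact h1
  have hFodd : ∀ u, F (-1 * u) = -F u := by
    intro u
    rw [hFa, hFa, neg_one_mul, e5, hodd]
  have hnm : nm F * W d ≤ V f := by
    rw [hF]
    exact top_le hEl hVBk hdm f
  have hari := hAri m' N' d (nm F) hm' hcond hdm' hd4 (nm_nonneg F) (hnm.trans hV)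
  have hP0 : 5 ≤ P0 d := le_max_left _ _
  obtain ⟨E, hE1, hE2, hE3⟩ := hDec (ZMod d)ˣ (Kp d) d.primeFactors.toList (Finset.nodup_toList _)
    (k1 _ (Finset.nodup_toList _) (fun p hp => Finset.mem_toList.1 hp)) (-1) (P0 d - 3)
    (by linarith) F hFodd hTl (by
      intro i hi j hj hij
      have hi' := Finset.mem_toList.1 hi
      have hj' := Finset.mem_toList.1 hj
      rw [k2 i hi', k2 j hj']
      have h1 := hari i hi' j hj' hij
      have h2 : P0 d - 3 + 2 = P0 d - 1 := by ring
      rw [h2]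
      exact h1)
  rw [Finset.toList_toFinset] at hE2 hE3
  have hE1' : ∀ p ∈ d.primeFactors, (∀ u, E p (-1 * u) = -E p u) ∧
      ∀ k ∈ Kp d p, ∀ u, E p (k * u) = E p u := fun p hp => hE1 p (Finset.mem_toList.2 hp)
  -- the lifts
  have hex : ∀ p : ℕ, ∃ G : ZMod m → ℤ, p ∈ d.primeFactors → (IsOdd G ∧
      (∀ z, G z ≠ 0 → addOrderOf z = d / p ∧ ∃ x, z = p * x) ∧
      (∀ u, G (p * el m d u) = E p u) ∧ ((sK (Kp d p)).card : ℤ) * ∑ z, |G z| = nm (E p)) := by
    intro p
    by_cases hp : p ∈ d.primeFactors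
    · obtain ⟨G, h1⟩ := hLift m d p hdm (Nat.prime_of_mem_primeFactors hp)
        (Nat.dvd_of_mem_primeFactors hp) (E p) (hE1' p hp).1 (hE1' p hp).2
      exact ⟨G, fun _ => h1⟩
    · exact ⟨0, fun h => absurd h hp⟩
  choose G hG using hex
  have hdiv : ∀ p ∈ d.primeFactors, d / p < d := fun p hp =>
    Nat.div_lt_self hdpos (Nat.prime_of_mem_primeFactors hp).one_lt
  have hGel : ∀ p ∈ d.primeFactors, ∀ u, G p (el m d u) = 0 := by
    intro p hp u
    by_contra h
    have h1 := ((hG p hp).2.1 _ h).1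
    rw [e1 u] at h1
    have := hdiv p hp
    omega
  obtain ⟨h, hh⟩ : ∃ h : ZMod m → ℤ, h = fun x => ∑ p ∈ d.primeFactors, hD p (G p) x := ⟨_, rfl⟩
  have hha : ∀ x, h x = ∑ p ∈ d.primeFactors, hD p (G p) x := fun x => by rw [hh]
  have hval : ∀ u : (ZMod d)ˣ, h (el m d u) = f (el m d u) := by
    intro u
    rw [hha, ← hFa, hE2]
    refine Finset.sum_congr rfl fun p hp => ?_
    unfold hD
    rw [hGel p hp, sub_zero]
    exact (hG p hp).2.2.1 u
  refine ⟨h, ?_, ?_, ?_⟩
  · rw [hh]
    apply hHoHd m d.primeFactors G (Nat.primeFactors_mono hdm hm0)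
    intro p hp
    exact ⟨(hG p hp).1, fun z hz => ((hG p hp).2.1 z hz).2⟩
  · intro x hx
    by_contra hlt
    rw [not_lt] at hlt
    rcases eq_or_lt_of_le hlt with h1 | h1
    · obtain ⟨u, rfl⟩ := e3 x h1.symm
      rw [hval, sub_self] at hx
      exact hx rfl
    · have hfx : f x = 0 := by
        by_contra h2
        have := hord x h2
        omega
      have hhx : h x = 0 := by
        rw [hha]
        refine Finset.sum_eq_zero fun p hp => ?_
        have hpd := hdiv p hp
        have hGx : G p x = 0 := by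
          by_contra h2
          have := ((hG p hp).2.1 _ h2).1
          omega
        have hGpx : G p ((p : ZMod m) * x) = 0 := by
          by_contra h2
          have h3 := ((hG p hp).2.1 _ h2).1
          obtain ⟨_, _, _, p4, _⟩ := hElP m d p hdm (Nat.prime_of_mem_primeFactors hp)
            (Nat.dvd_of_mem_primeFactors hp)
          rcases p4 x h3 with h4 | ⟨h4, _⟩ <;> omega
        unfold hD
        rw [hGx, hGpx, sub_zero]
      rw [hfx, hhx] at hx
      exact hx rfl
  · have h1 := hVBk m d hdm f h hval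
    have h2 : (fun u : (ZMod d)ˣ => f (el m d u)) = F := by rw [hF]
    rw [h2] at h1
    have h3 : ∑ x ∈ univ.filter (fun x : ZMod m => addOrderOf x ≠ d),
        |h x| * W (addOrderOf x) ≤
        ∑ p ∈ d.primeFactors, (if p ^ 2 ∣ d then 1 else 2) * W (d / p) * ∑ z, |G p z| := by
      calc ∑ x ∈ univ.filter (fun x : ZMod m => addOrderOf x ≠ d), |h x| * W (addOrderOf x)
          ≤ ∑ x ∈ univ.filter (fun x : ZMod m => addOrderOf x ≠ d),
              ∑ p ∈ d.primeFactors, |hD p (G p) x| * W (addOrderOf x) := by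
            refine Finset.sum_le_sum fun x _ => ?_
            rw [← Finset.sum_mul, hha]
            exact mul_le_mul_of_nonneg_right (Finset.abs_sum_le_sum_abs _ _) (W_pos _).le
        _ = ∑ p ∈ d.primeFactors, ∑ x ∈ univ.filter (fun x : ZMod m => addOrderOf x ≠ d),
              |hD p (G p) x| * W (addOrderOf x) := Finset.sum_comm
        _ ≤ _ := by
            refine Finset.sum_le_sum fun p hp => ?_
            exact hNew m d p hdm (Nat.prime_of_mem_primeFactors hp)
              (Nat.dvd_of_mem_primeFactors hp) (G p) (fun z hz => ((hG p hp).2.1 z hz).1)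
    have h4 : (P0 d - 1) * ∑ p ∈ d.primeFactors,
        (if p ^ 2 ∣ d then 1 else 2) * W (d / p) * ∑ z, |G p z| ≤
        (P0 d - 1) * (W d * nm F) := by
      calc (P0 d - 1) * ∑ p ∈ d.primeFactors,
          (if p ^ 2 ∣ d then 1 else 2) * W (d / p) * ∑ z, |G p z|
          = ∑ p ∈ d.primeFactors, ((P0 d - 1) *
              ((if p ^ 2 ∣ d then 1 else 2) * W (d / p))) * ∑ z, |G p z| := by
            rw [Finset.mul_sum]
            refine Finset.sum_congr rfl fun p _ => ?_
            ring
        _ ≤ ∑ p ∈ d.primeFactors, 2 * W d * nm (E p) := by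
            refine Finset.sum_le_sum fun p hp => ?_
            have h5 := hAriW d p hdpos hd4 (Nat.prime_of_mem_primeFactors hp)
              (Nat.dvd_of_mem_primeFactors hp)
            have h6 : 0 ≤ ∑ z, |G p z| := Finset.sum_nonneg fun _ _ => abs_nonneg _
            have h7 := mul_le_mul_of_nonneg_right h5 h6
            have h8 := (hG p hp).2.2.2
            rw [k2 p hp] at h8
            rw [← h8]
            refine h7.trans (le_of_eq ?_)
            ring
        _ = W d * (2 * ∑ p ∈ d.primeFactors, nm (E p)) := by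
            rw [← Finset.mul_sum]
            ring
        _ ≤ W d * ((P0 d - 3 + 2) * nm F) :=
            mul_le_mul_of_nonneg_left hE3 (W_pos d).le
        _ = (P0 d - 1) * (W d * nm F) := by ring
    have h5 := le_of_mul_le_mul_left h4 (by linarith)
    linarith

end Pool.Agent.FO
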