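import Pool.Agent.Lib.MP_640417_ag.FO.SpecL

/-!
# Theorem FO, module StepB: the reduction step for `d = 2` mod `4` (helper26)
-/

set_option autoImplicit false

open Finset Pool.Agent.FC

namespace Pool.Agent.FO

namespace StepBAux

private lemma mem_sK {G : Type} [Group G] [Fintype G] (K : Subgroup G) (k : G) :
    k ∈ sK K ↔ k ∈ K := by
  unfold sK
  simp

end StepBAux

theorem pStepB (hEl : S_El) (hElP : S_ElP) (hKpBas : S_KpBas) (hLift : S_Lift) (hNew : S_New)
    (hVBk : S_VBk) (hHoHd : S_HoHd) : S_StepB := by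
  intro m d _ hdm hd4 f hodd hord
  have hm0 : m ≠ 0 := NeZero.ne m
  have hd0 : d ≠ 0 := by
    rintro rfl
    simp at hd4
  have hdne : NeZero d := ⟨hd0⟩
  have h2d : 2 ∣ d := by omega
  have h4d : ¬ 2 ^ 2 ∣ d := by
    intro h
    obtain ⟨k, hk⟩ := h
    omega
  have h2m : 2 ∈ d.primeFactors := Nat.mem_primeFactors.2 ⟨Nat.prime_two, h2d, hd0⟩
  obtain ⟨e1, e2, e3, _, e5, _⟩ := hEl m d hdm
  obtain ⟨_, _, _, p4, _⟩ := hElP m d 2 hdm Nat.prime_two h2d
  have hcard : ((sK (Kp d 2)).card : ℤ) = 1 := by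
    rw [(hKpBas d).2 2 h2m, if_neg h4d]
    norm_num
  have hcard' : (sK (Kp d 2)).card = 1 := by exact_mod_cast hcard
  have htriv : ∀ k ∈ Kp d 2, k = 1 := by
    intro k hk
    obtain ⟨c, hc⟩ := Finset.card_eq_one.1 hcard'
    have h1 : k ∈ sK (Kp d 2) := (StepBAux.mem_sK _ _).2 hk
    have h2 : (1 : (ZMod d)ˣ) ∈ sK (Kp d 2) := (StepBAux.mem_sK _ _).2 (Kp d 2).one_mem
    rw [hc, Finset.mem_singleton] at h1 h2
    rw [h1, h2]
  obtain ⟨G, hG1, hG2, hG3, hG4⟩ := hLift m d 2 hdm Nat.prime_two h2d (fun u => f (el m d u)) (by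
    intro u
    show f (el m d (-1 * u)) = -f (el m d u)
    rw [neg_one_mul, e5, hodd]) (by
    intro k hk u
    rw [htriv k hk, one_mul])
  rw [hcard, one_mul] at hG4
  have hhalf : d / 2 ≠ d := by omega
  have hGel : ∀ u, G (el m d u) = 0 := by
    intro u
    by_contra h
    have h1 := (hG2 _ h).1
    rw [e1 u] at h1
    exact hhalf h1.symm
  have hval : ∀ u : (ZMod d)ˣ, hD 2 G (el m d u) = f (el m d u) := by
    intro u
    unfold hD
    rw [hGel, sub_zero]
    exact hG3 u
  refine ⟨hD 2 G, ?_, ?_, ?_⟩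
  · have h1 := hHoHd m {2} (fun _ => G) (by
      intro p hp
      rw [Finset.mem_singleton] at hp
      rw [hp]
      exact Nat.mem_primeFactors.2 ⟨Nat.prime_two, h2d.trans hdm, hm0⟩) (by
      intro p hp
      rw [Finset.mem_singleton] at hp
      rw [hp]
      exact ⟨hG1, fun z hz => (hG2 z hz).2⟩)
    simp only [Finset.sum_singleton] at h1
    exact h1
  · intro x hx
    by_contra hlt
    rw [not_lt] at hlt
    rcases eq_or_lt_of_le hlt with h | h
    · obtain ⟨u, rfl⟩ := e3 x h.symm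
      rw [hval, sub_self] at hx
      exact hx rfl
    · have hfx : f x = 0 := by
        by_contra h1
        have := hord x h1
        omega
      have hGx : G x = 0 := by
        by_contra h1
        have := (hG2 _ h1).1
        omega
      have hG2x : G ((2 : ℕ) * x) = 0 := by
        by_contra h1
        have h2 := (hG2 _ h1).1
        rcases p4 x h2 with h3 | ⟨h3, _⟩ <;> omega
      apply hx
      unfold hD
      rw [hfx, hGx, hG2x]
      ring
  · have h1 := hVBk m d hdm f (hD 2 G) hval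
    have h2 := hNew m d 2 hdm Nat.prime_two h2d G (fun z hz => (hG2 z hz).1)
    rw [if_neg h4d, hG4] at h2
    have h3 : W d = 2 * W (d / 2) := by
      unfold W
      have a1 : ¬ 2 ∣ d / 2 := by omega
      have a2 : 3 ∣ d / 2 ↔ 3 ∣ d := by omega
      rw [if_pos h2d, if_neg a1]
      by_cases a3 : 3 ∣ d
      · rw [if_pos a3, if_pos (a2.2 a3)]
        norm_num
      · rw [if_neg a3, if_neg (fun h => a3 (a2.1 h))]
        norm_num
    rw [← h3] at h2
    linarith

end Pool.Agent.FO
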