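import Pool.Agent.Lib.MP_640417_ag.FO.SpecB

set_option autoImplicit false

open Finset Pool.Agent.FC

namespace Pool.Agent.FO

private theorem mem_sK {G : Type} [Group G] [Fintype G] {K : Subgroup G} {x : G} :
    x ∈ sK K ↔ x ∈ K := by
  classical
  unfold sK
  rw [Finset.mem_filter]
  exact ⟨fun h => h.2, fun h => ⟨Finset.mem_univ x, h⟩⟩

theorem pSumKK : S_SumKK := by
  classical
  intro G _ _ K L hd F
  rw [← Finset.sum_product']
  symm
  refine Finset.sum_bij (fun (p : G × G) _ => p.1 * p.2) ?_ ?_ ?_ ?_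
  · intro p hp
    rw [Finset.mem_product, mem_sK, mem_sK] at hp
    rw [mem_sK]
    exact Subgroup.mul_mem_sup hp.1 hp.2
  · intro p hp q hq h
    rw [Finset.mem_product, mem_sK, mem_sK] at hp hq
    have h1 : q.1⁻¹ * p.1 = q.2 * p.2⁻¹ := by
      rw [inv_mul_eq_iff_eq_mul, ← mul_assoc, eq_mul_inv_iff_mul_eq]
      exact h
    have h2 : q.1⁻¹ * p.1 ∈ K := K.mul_mem (K.inv_mem hq.1) hp.1
    have h3 : q.1⁻¹ * p.1 ∈ L := by
      rw [h1]
      exact L.mul_mem hq.2 (L.inv_mem hp.2)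
    have h4 : q.1⁻¹ * p.1 = 1 := Subgroup.disjoint_def.1 hd h2 h3
    have h5 : q.1 = p.1 := inv_mul_eq_one.1 h4
    rw [h1] at h4
    have h6 : q.2 = p.2 := mul_inv_eq_one.1 h4
    exact Prod.ext h5.symm h6.symm
  · intro b hb
    rw [mem_sK, Subgroup.mem_sup] at hb
    obtain ⟨x, hx, y, hy, hxy⟩ := hb
    exact ⟨(x, y), by rw [Finset.mem_product, mem_sK, mem_sK]; exact ⟨hx, hy⟩, hxy⟩
  · intro p _
    rfl

end Pool.Agent.FO
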