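import Pool.Agent.Lib.MP_640417_ag.FO.SpecL

/-!
# Theorem FO: character sums, vanishing
-/

set_option autoImplicit false

noncomputable section

namespace Pool.Agent.FO

open Finset Pool.Agent.FC

namespace SvAux

/-- A primitive character is not trivial on the kernel of the reduction to a proper divisor. -/
theorem exists_u {d : ℕ} [NeZero d] (χ : DirichletCharacter ℂ d) (hχ : χ.IsPrimitive) (e : ℕ)
    (he : e ∣ d) (hed : e < d) :
    ∃ u : (ZMod d)ˣ, ZMod.unitsMap he u = 1 ∧ χ (u : ZMod d) ≠ 1 := by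
  by_contra hcon
  push Not at hcon
  have h1 : χ.FactorsThrough e := by
    rw [DirichletCharacter.factorsThrough_iff_ker_unitsMap he]
    intro u hu
    rw [MonoidHom.mem_ker] at hu ⊢
    apply Units.ext
    rw [MulChar.coe_toUnitHom, hcon u hu, Units.val_one]
  have h2 : χ.conductor ≤ e := Nat.sInf_le h1
  rw [(DirichletCharacter.isPrimitive_def χ).1 hχ] at h2
  omega

/-- The unit `t0`. -/
theorem exists_t {m d : ℕ} [NeZero m] [NeZero d] (hd : d ∣ m) (n : ℕ) (hn : n ∣ m) (u : (ZMod d)ˣ)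
    (hu : ZMod.unitsMap (Nat.gcd_dvd_right n d) u = 1) :
    ∃ t : (ZMod m)ˣ, ZMod.unitsMap hd t = u ∧ (t : ZMod m).val ≡ 1 [MOD n] := by
  have hm0 : m ≠ 0 := NeZero.ne m
  have hn0 : n ≠ 0 := fun h => hm0 (by rw [h] at hn; exact Nat.eq_zero_of_zero_dvd hn)
  have hd0 : d ≠ 0 := NeZero.ne d
  have hg : 1 ≡ (u : ZMod d).val [MOD Nat.gcd n d] := by
    rw [← ZMod.natCast_eq_natCast_iff]
    have h1 := congrArg (fun v : (ZMod (Nat.gcd n d))ˣ => (v : ZMod (Nat.gcd n d))) hu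
    rw [ZMod.unitsMap_val, Units.val_one] at h1
    rw [Nat.cast_one, ← h1, ZMod.natCast_val]
  obtain ⟨a, ha1, ha2⟩ := Nat.chineseRemainder' hg
  have hcn : Nat.Coprime a n := by
    have := ha1.gcd_eq
    rw [Nat.gcd_one_left] at this
    exact this
  have hcd : Nat.Coprime a d := by
    have := ha2.gcd_eq
    rw [(ZMod.val_coe_unit_coprime u).gcd_eq_one] at this
    exact this
  have hcl : Nat.Coprime a (Nat.lcm n d) :=
    Nat.Coprime.coprime_dvd_right (Nat.lcm_dvd_mul n d) (Nat.Coprime.mul_right hcn hcd)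
  have hL : Nat.lcm n d ∣ m := Nat.lcm_dvd hn hd
  obtain ⟨t, ht⟩ := ZMod.unitsMap_surjective hL (ZMod.unitOfCoprime a hcl)
  have h1 : (t : ZMod m).val ≡ a [MOD Nat.lcm n d] := by
    rw [← ZMod.natCast_eq_natCast_iff]
    have h2 := congrArg (fun v : (ZMod (Nat.lcm n d))ˣ => (v : ZMod (Nat.lcm n d))) ht
    rw [ZMod.unitsMap_val, ZMod.coe_unitOfCoprime] at h2
    rw [← h2, ZMod.natCast_val]
  refine ⟨t, ?_, (h1.of_dvd (Nat.dvd_lcm_left n d)).trans ha1⟩
  apply Units.ext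
  rw [ZMod.unitsMap_val, ← ZMod.natCast_val]
  have h3 := (h1.of_dvd (Nat.dvd_lcm_right n d)).trans ha2
  rw [← ZMod.natCast_eq_natCast_iff] at h3
  rw [h3, ZMod.natCast_val, ZMod.cast_id]

end SvAux

theorem pSv : S_Sv := by
  intro m d _ _ hd χ hχ x hx
  have hdpos : 0 < d := Nat.pos_of_ne_zero (NeZero.ne d)
  have hn : addOrderOf x ∣ m := by
    have := addOrderOf_dvd_card (x := x)
    rwa [ZMod.card] at this
  have he : Nat.gcd (addOrderOf x) d < d := by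
    refine lt_of_le_of_ne (Nat.gcd_le_right _ hdpos) fun h => hx ?_
    rw [← h]
    exact Nat.gcd_dvd_left _ _
  obtain ⟨u, hu1, hu2⟩ := SvAux.exists_u χ hχ _ (Nat.gcd_dvd_right _ d) he
  obtain ⟨t0, ht1, ht2⟩ := SvAux.exists_t hd _ hn u hu1
  have ht3 : (t0 : ZMod m) * x = x := by
    have h1 : ((t0 : ZMod m).val) • x = (1 : ℕ) • x :=
      (nsmul_eq_nsmul_iff_modEq).2 ht2
    rw [one_smul, nsmul_eq_mul, ZMod.natCast_val, ZMod.cast_id] at h1
    exact h1
  obtain ⟨S, hS⟩ : ∃ S : ℂ, S = ∑ t : (ZMod m)ˣ, χ ((ZMod.unitsMap hd t : (ZMod d)ˣ) : ZMod d) *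
    ((sz ((t : ZMod m) * x) : ℚ) : ℂ) := ⟨_, rfl⟩
  rw [← hS]
  have h1 : S = χ (u : ZMod d) * S := by
    rw [hS, Finset.mul_sum]
    refine Fintype.sum_equiv (Equiv.mulRight t0⁻¹) _ _ fun t => ?_
    rw [Equiv.coe_mulRight]
    have e1 : ZMod.unitsMap hd (t * t0⁻¹) = ZMod.unitsMap hd t * u⁻¹ := by
      rw [map_mul, map_inv, ht1]
    have e2 : ((t * t0⁻¹ : (ZMod m)ˣ) : ZMod m) * x = (t : ZMod m) * x := by
      rw [Units.val_mul]
      calc (t : ZMod m) * ((t0⁻¹ : (ZMod m)ˣ) : ZMod m) * x =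
            (t : ZMod m) * ((t0⁻¹ : (ZMod m)ˣ) : ZMod m) * ((t0 : ZMod m) * x) := by rw [ht3]
        _ = (t : ZMod m) * (((t0⁻¹ : (ZMod m)ˣ) : ZMod m) * (t0 : ZMod m)) * x := by ring
        _ = _ := by rw [Units.inv_mul, mul_one]
    rw [e1, e2, ← mul_assoc]
    congr 1
    rw [← map_mul, ← Units.val_mul]
    congr 2
    rw [mul_comm u, inv_mul_cancel_right]
  have h2 : (1 - χ (u : ZMod d)) * S = 0 := by
    rw [sub_mul, one_mul, ← h1, sub_self]
  exact (mul_eq_zero.1 h2).resolve_left (sub_ne_zero.2 hu2.symm)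

end Pool.Agent.FO
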