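import Pool.Agent.Lib.MP_640417_ag.FO.SpecB

/-!
# Theorem FO, part B: basic facts on the operators `T`
-/

set_option autoImplicit false

open Finset Pool.Agent.FC

namespace Pool.Agent.FO

namespace TBasAux

variable {G : Type} [CommGroup G] [Fintype G]

theorem mem_sK (K : Subgroup G) (k : G) : k ∈ sK K ↔ k ∈ K := by
  unfold sK
  simp

theorem card_pos (K : Subgroup G) : 0 < (sK K).card :=
  Finset.card_pos.mpr ⟨1, (mem_sK K 1).mpr K.one_mem⟩

theorem shift (K : Subgroup G) (F : G → ℤ) (k : G) (hk : k ∈ K) (a : G) :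
    ∑ x ∈ sK K, F (x * (k * a)) = ∑ x ∈ sK K, F (x * a) := by
  refine Finset.sum_bij (fun x _ => x * k) ?_ ?_ ?_ ?_
  · intro x hx
    rw [mem_sK] at hx ⊢
    exact K.mul_mem hx hk
  · intro x _ y _ h
    exact mul_right_cancel h
  · intro b hb
    rw [mem_sK] at hb
    exact ⟨b * k⁻¹, (mem_sK K _).mpr (K.mul_mem hb (K.inv_mem hk)), by simp⟩
  · intro x _
    rw [mul_assoc]

theorem t_add (K : Subgroup G) (F F' : G → ℤ) :
    T K (fun a => F a + F' a) = fun a => T K F a + T K F' a := by
  funext a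
  unfold T
  rw [Finset.sum_add_distrib]
  ring

theorem t_sub (K : Subgroup G) (F F' : G → ℤ) :
    T K (fun a => F a - F' a) = fun a => T K F a - T K F' a := by
  funext a
  unfold T
  rw [Finset.sum_sub_distrib]
  ring

theorem t_trans (K : Subgroup G) (F : G → ℤ) (g : G) :
    T K (fun a => F (g * a)) = fun a => T K F (g * a) := by
  funext a
  unfold T
  have h : ∑ k ∈ sK K, F (g * (k * a)) = ∑ k ∈ sK K, F (k * (g * a)) :=
    Finset.sum_congr rfl fun k _ => by rw [mul_left_comm]
  rw [h]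

theorem t_comm (K L : Subgroup G) (F : G → ℤ) : T K (T L F) = T L (T K F) := by
  funext a
  unfold T
  rw [Finset.sum_sub_distrib, Finset.sum_sub_distrib, ← Finset.mul_sum, ← Finset.mul_sum]
  have h : ∑ k ∈ sK K, ∑ l ∈ sK L, F (l * (k * a)) = ∑ l ∈ sK L, ∑ k ∈ sK K, F (k * (l * a)) := by
    rw [Finset.sum_comm]
    exact Finset.sum_congr rfl fun l _ => Finset.sum_congr rfl fun k _ => by rw [mul_left_comm]
  rw [h]
  ring

theorem t_zero_iff (K : Subgroup G) (F : G → ℤ) :
    T K F = 0 ↔ ∀ k ∈ K, ∀ a, F (k * a) = F a := by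
  have hc : ((sK K).card : ℤ) ≠ 0 := by
    have := card_pos K
    exact_mod_cast this.ne'
  constructor
  · intro h k hk a
    have h1 : ∀ b, ((sK K).card : ℤ) * F b = ∑ x ∈ sK K, F (x * b) := by
      intro b
      have h2 := congrFun h b
      unfold T at h2
      exact sub_eq_zero.mp h2
    have h3 := h1 (k * a)
    rw [shift K F k hk a, ← h1 a] at h3
    exact mul_left_cancel₀ hc h3
  · intro h
    funext a
    unfold T
    have h1 : ∑ k ∈ sK K, F (k * a) = ∑ _k ∈ sK K, F a :=
      Finset.sum_congr rfl fun k hk => h k ((mem_sK K k).mp hk) a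
    rw [h1, Finset.sum_const, nsmul_eq_mul, sub_self]
    rfl

theorem t_smul (K : Subgroup G) (F : G → ℤ) (c : ℤ) :
    T K (fun a => c * F a) = fun a => c * T K F a := by
  funext a
  unfold T
  rw [← Finset.mul_sum]
  ring

theorem t_zero (K : Subgroup G) : T K (fun _ : G => (0 : ℤ)) = fun _ => 0 := by
  funext a
  unfold T
  rw [Finset.sum_const_zero, mul_zero, sub_zero]

end TBasAux

open TBasAux in
theorem pTBas : S_TBas := by
  intro G _ _ K L F F'
  exact ⟨mem_sK K, card_pos K, fun k hk a => shift K F k hk a, t_add K F F', t_sub K F F',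
    fun g => t_trans K F g, t_comm K L F, t_zero_iff K F, fun c => t_smul K F c, t_zero K⟩

end Pool.Agent.FO
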