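import Pool.Agent.Lib.MP_640417_ag.FO.SpecB

/-!
# Theorem FO, part B, module TlBas: products of the operators `T_K`
-/

set_option autoImplicit false

noncomputable section

open Finset Pool.Agent.FC

namespace Pool.Agent.FO

theorem pTlBas (hTBas : S_TBas) : S_TlBas := by
  intro G _ _ K l L F F'
  induction l generalizing F F' with
  | nil => exact ⟨rfl, rfl, fun _ => rfl, rfl, fun _ => rfl, rfl⟩
  | cons i l ih =>
    obtain ⟨-, -, -, h4, h5, h6, h7, -, h9, h10⟩ := hTBas G (K i) L F F'
    obtain ⟨i1, i2, -, -, -, i6⟩ := ih (T (K i) F) (T (K i) F')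
    obtain ⟨-, -, i3, i4, i5, -⟩ := ih (T (K i) F) F
    refine ⟨?_, ?_, fun g => ?_, ?_, fun c => ?_, ?_⟩
    · change Tl K l (T (K i) fun a => F a + F' a) = _
      rw [h4]
      exact i1
    · change Tl K l (T (K i) fun a => F a - F' a) = _
      rw [h5]
      exact i2
    · change Tl K l (T (K i) fun a => F (g * a)) = _
      rw [h6]
      exact i3 g
    · change Tl K l (T (K i) (T L F)) = _
      rw [h7]
      exact i4
    · change Tl K l (T (K i) fun a => c * F a) = _
      rw [h9]
      exact i5 c
    · change Tl K l (T (K i) fun _ => 0) = _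
      rw [h10]
      exact i6

end Pool.Agent.FO
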