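import Pool.Agent.Lib.MP_640417_ag.FO.SpecB

set_option autoImplicit false

noncomputable section

open Finset Pool.Agent.FC

namespace Pool.Agent.FO

/-- `Tl K l F a` depends only on the values of `F` on the coset `KS K l * a`. -/
theorem pTlLoc (hTBas : S_TBas) : S_TlLoc := by
  intro G _ _ K l
  induction l with
  | nil =>
      intro F F' a h
      have h1 := h 1 (one_mem _)
      rw [one_mul] at h1
      exact h1
  | cons i l ih =>
      intro F F' a h
      change Tl K l (T (K i) F) a = Tl K l (T (K i) F') a
      apply ih
      intro b hb
      have hb1 : b ∈ KS K (i :: l) := by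
        change b ∈ K i ⊔ KS K l
        exact Subgroup.mem_sup_right hb
      unfold T
      rw [h b hb1]
      congr 1
      refine Finset.sum_congr rfl fun k hk => ?_
      have hk1 : k ∈ K i := ((hTBas G (K i) (K i) F F').1 k).1 hk
      rw [← mul_assoc]
      apply h
      change k * b ∈ K i ⊔ KS K l
      exact mul_mem (Subgroup.mem_sup_left hk1) (Subgroup.mem_sup_right hb)

end Pool.Agent.FO
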