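import Pool.Agent.Lib.MP_640417_ag.FO.SpecR

set_option autoImplicit false

open Finset Pool.Agent.FC

namespace Pool.Agent.FO

private theorem TopHD_sub {m : ℕ} [NeZero m] (f g : ZMod m → ℤ) (t : ZMod m) :
    P (fun x => f x - g x) t = P f t - P g t := by
  unfold P
  rw [← Finset.sum_sub_distrib]
  refine Finset.sum_congr rfl fun x _ => ?_
  push_cast
  ring

private theorem TopHD_neg (hSzBas : S_SzBas) {m : ℕ} [NeZero m] (f : ZMod m → ℤ) (t : ZMod m) :
    P (fun x => f (-x)) t = - P f t := by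
  unfold P
  rw [← Finset.sum_neg_distrib, ← Equiv.sum_comp (Equiv.neg (ZMod m))]
  refine Finset.sum_congr rfl fun x _ => ?_
  show ((f (- -x) : ℤ) : ℚ) * sz (t * -x) = -((f x : ℚ) * sz (t * x))
  rw [neg_neg, mul_neg, (hSzBas m (t * x)).1]
  ring

theorem pTopHD (hSzBas : S_SzBas) (hAuxEx : S_AuxEx) (hSpanF : S_SpanF) (hDGBas : S_DGBas)
    (hIndOdd : S_IndOdd) : S_TopHD := by
  intro m q _ hq hq2 g hg hP
  obtain ⟨r, ψ, hψ⟩ := hAuxEx m
  have hr : NeZero r := ⟨hψ.1.ne_zero⟩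
  obtain ⟨D1, -, D3, -, D5, -⟩ := hDGBas m q r ψ hψ hq
  obtain ⟨-, gb, hgb, hgb2⟩ := hSpanF m q hq hq2 g hg
  have hgb0 : gb = 0 := by
    refine hIndOdd m q hq hq2 gb hgb fun t ht => ?_
    have h1 := (D1 _ (D3 _ hgb2) t ht).1
    have h2 : (fun x => (g - gb) x - (g - gb) (-x)) =
        fun x => (fun x => g x - g (-x)) x - (fun x => gb x - gb (-x)) x := by
      funext x
      simp only [Pi.sub_apply]
      ring
    rw [h2, TopHD_sub, hP t ht, TopHD_sub gb (fun x => gb (-x)), TopHD_neg hSzBas] at h1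
    linarith
  have h3 := D5 _ hgb2
  rwa [hgb0, sub_zero] at h3

end Pool.Agent.FO
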