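import Pool.Agent.Lib.MP_640417_ag.FO.SpecR

set_option autoImplicit false

open Finset Pool.Agent.FC

namespace Pool.Agent.FO

namespace TopRelAux

private lemma P_bound (hSzBas : S_SzBas) {m : ℕ} [NeZero m] (N : ℕ) (f ft : ZMod m → ℤ)
    (h : ∑ x, |f x| ≤ 2 * (N : ℤ)) (hft : ∀ x, |ft x| ≤ |f x|) (t : ZMod m) : |P ft t| ≤ N := by
  have h1 : |P ft t| ≤ ∑ x, (|f x| : ℚ) * (1 / 2) := by
    unfold P
    refine (Finset.abs_sum_le_sum_abs _ _).trans ?_
    apply Finset.sum_le_sum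
    intro x _
    rw [abs_mul]
    apply mul_le_mul
    · have := hft x
      exact_mod_cast this
    · exact (hSzBas m (t * x)).2.1
    · exact abs_nonneg _
    · exact abs_nonneg _
  rw [← Finset.sum_mul] at h1
  have h2 : (∑ x, (|f x| : ℚ)) ≤ 2 * N := by exact_mod_cast h
  linarith

end TopRelAux

open TopRelAux

theorem pTopRel (hSzBas : S_SzBas) (hAuxEx : S_AuxEx) (hSpanF : S_SpanF) (hDGBas : S_DGBas)
    (hKInv : S_KInv) (hOrb : S_Orb) (hFib : S_Fib) (hInt : S_Int) : S_TopRel := by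
  classical
  intro m q N _ hq hN f ft hf hRl hsum hft1 hft0 t ht
  have hqp := Nat.prime_of_mem_primeFactors hq
  have hle : ∀ x, |ft x| ≤ |f x| := by
    intro x
    by_cases hx : Tp m q x
    · rw [hft1 x hx]
    · rw [hft0 x hx, abs_zero]
      exact abs_nonneg _
  rcases Nat.eq_zero_or_pos N with hN0 | hN0
  · have h1 := P_bound hSzBas N f ft hsum hle (t : ZMod m)
    rw [hN0, Nat.cast_zero] at h1
    exact abs_eq_zero.1 (le_antisymm h1 (abs_nonneg _))
  have hq2 : q ≠ 2 := by omega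
  obtain ⟨⟨g, hg, hgD⟩, -⟩ := hSpanF m q hq hq2 ft (by
    intro x hx
    by_contra hT
    exact hx (hft0 x hT))
  have hinv := hKInv m q hq hq2 f ft g hf hRl hft1 hft0 hg hgD
  have hgT : ∀ x, g x ≠ 0 → Tp m q x := fun x hx => (hg x hx).1
  obtain ⟨f0, hf0, hf1⟩ := hOrb m q hq g hgT hinv
  obtain ⟨F1, F2⟩ := hFib m q hq g f0 hf0 (by
    intro x hx
    by_contra h
    exact hx (hgT x h)) hf1
  obtain ⟨r, ψ, hA⟩ := hAuxEx m
  haveI : NeZero r := ⟨hA.1.ne_zero⟩
  have hPP : ∀ t : ℕ, Pq m q t → P ft (t : ZMod m) = P g (t : ZMod m) := by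
    intro t ht
    have h1 := ((hDGBas m q r ψ hA hq).1 _ hgD t ht).1
    have h2 : P (ft - g) (t : ZMod m) = P ft (t : ZMod m) - P g (t : ZMod m) := by
      unfold P
      rw [← Finset.sum_sub_distrib]
      apply Finset.sum_congr rfl
      intro x _
      rw [Pi.sub_apply]
      push_cast
      ring
    linarith
  rw [hPP t ht]
  apply F2 _ t ht
  apply hInt m q f0
  intro t' ht'
  have hq' : Pq m q (q * t') := by
    intro p hp hpq
    apply Nat.Coprime.mul_left _ (ht' p hp hpq)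
    exact (Nat.coprime_primes hqp (Nat.prime_of_mem_primeFactors hp)).2 hpq.symm
  have h1 := P_bound hSzBas N f ft hsum hle ((q * t' : ℕ) : ZMod m)
  rw [hPP _ hq', Nat.cast_mul, F1, abs_mul] at h1
  have hqQ : (6 * (N : ℚ) + 1) < q := by exact_mod_cast hN
  have hNQ : (0 : ℚ) < N := by exact_mod_cast hN0
  have hc : (6 * (N : ℚ)) < |(if q ^ 2 ∣ m then (q : ℚ) else q - 1)| := by
    split_ifs
    · rw [abs_of_pos (by linarith)]
      linarith
    · rw [abs_of_pos (by linarith)]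
      linarith
  by_contra hcon
  push Not at hcon
  have h2 : (6 * (N : ℚ)) * (1 / 6) <
      |(if q ^ 2 ∣ m then (q : ℚ) else q - 1)| * |P f0 (t' : ZMod m)| := by
    apply mul_lt_mul hc hcon (by norm_num) (abs_nonneg _)
  linarith

end Pool.Agent.FO
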