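import Pool.Agent.Lib.MP_640417_ag.FO.SpecR

/-!
# Theorem FR: top representatives
-/

set_option autoImplicit false

open Finset Pool.Agent.FC

namespace Pool.Agent.FO

theorem pTopRep : S_TopRep := by
  intro m q _ hq hqm k
  have hm : 0 < m := Nat.pos_of_ne_zero (NeZero.ne m)
  obtain ⟨j, y, hy, hK⟩ := Nat.exists_eq_pow_mul_and_not_dvd (n := k.val + m) (by omega) q hq.ne_one
  refine ⟨j, (y : ZMod m), ?_, ?_⟩
  · intro h0
    rw [← Nat.cast_mul, ZMod.natCast_eq_zero_iff] at h0
    apply hy
    obtain ⟨c, hc⟩ := hqm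
    have hc0 : 0 < c := by
      rcases Nat.eq_zero_or_pos c with h | h
      · rw [h] at hc
        omega
      · exact h
    have h1 : m / q = c := by
      rw [hc]
      exact Nat.mul_div_cancel_left c hq.pos
    rw [h1, hc, mul_comm q c] at h0
    exact Nat.dvd_of_mul_dvd_mul_left hc0 h0
  · rw [← Nat.cast_mul, ← hK, Nat.cast_add, ZMod.natCast_self, add_zero, ZMod.natCast_zmod_val]

end Pool.Agent.FO
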