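import Pool.Agent.Lib.MP_640417_ag.FO.SpecL

/-!
# Theorem FO, module Tra: transfer from odd functions to the group `HD` (helper26)
-/

set_option autoImplicit false

open Finset Pool.Agent.FC

namespace Pool.Agent.FO

namespace TraAux

private lemma cl_add {m : ℕ} [NeZero m] (f g : ZMod m → ℤ) :
    cl (fun x => f x + g x) = cl f + cl g := by
  unfold cl
  rw [← Finset.sum_add_distrib]
  refine Finset.sum_congr rfl fun x _ => ?_
  rw [Finsupp.single_add]

private lemma cl_sum {m : ℕ} [NeZero m] (s : Finset ℕ) (h : ℕ → ZMod m → ℤ) :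
    cl (fun x => ∑ p ∈ s, h p x) = ∑ p ∈ s, cl (h p) := by
  classical
  induction s using Finset.induction_on with
  | empty =>
    rw [Finset.sum_empty]
    unfold cl
    simp
  | insert p s hp ih =>
    rw [Finset.sum_insert hp, ← ih, ← cl_add]
    congr 1
    funext x
    exact Finset.sum_insert hp

private lemma max_sub (a : ℤ) : max a 0 - max (-a) 0 = a := by
  omega

end TraAux

theorem pTra (hClHd : S_ClHd) (hClEven : S_ClEven) : S_Tra := by
  intro m _ g hg0 hIn
  obtain ⟨G, hG, hGe⟩ := hIn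
  obtain ⟨G', hG'⟩ : ∃ G' : ℕ → ZMod m → ℤ, G' = fun p z => max (G p z) 0 := ⟨_, rfl⟩
  have hG'a : ∀ p z, G' p z = max (G p z) 0 := fun p z => by rw [hG']
  have hsub : ∀ p ∈ m.primeFactors, ∀ z, G' p z - G' p (-z) = G p z := by
    intro p hp z
    rw [hG'a, hG'a, (hG p hp).1 z]
    exact TraAux.max_sub _
  obtain ⟨e, he⟩ : ∃ e : ZMod m → ℤ, e = fun x => g x - ∑ p ∈ m.primeFactors, hD p (G' p) x :=
    ⟨_, rfl⟩
  have hea : ∀ x, e x = g x - ∑ p ∈ m.primeFactors, hD p (G' p) x := fun x => by rw [he]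
  have he0 : e 0 = 0 := by
    rw [hea, hg0, Finset.sum_eq_zero, sub_zero]
    intro p _
    unfold hD
    rw [mul_zero, sub_self]
  have heven : ∀ x, e (-x) = e x := by
    intro x
    have h1 : e x - e (-x) = 0 := by
      rw [hea, hea]
      have h2 : ∑ p ∈ m.primeFactors, hD p (G' p) x - ∑ p ∈ m.primeFactors, hD p (G' p) (-x) =
          ∑ p ∈ m.primeFactors, hD p (G p) x := by
        rw [← Finset.sum_sub_distrib]
        refine Finset.sum_congr rfl fun p hp => ?_
        unfold hD
        rw [← hsub p hp, ← hsub p hp x, mul_neg]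
        ring
      have h3 := hGe x
      simp only at h3
      linarith
    linarith
  have hcl : cl g = cl e + ∑ p ∈ m.primeFactors, cl (hD p (G' p)) := by
    rw [← TraAux.cl_sum, ← TraAux.cl_add]
    congr 1
    funext x
    rw [hea]
    ring
  rw [hcl]
  refine HD.add_mem (hClEven m e he0 heven) (HD.sum_mem fun p hp => ?_)
  refine hClHd m p (Nat.dvd_of_mem_primeFactors hp) (G' p) ?_ ?_
  · have h1 := (hG p hp).1 0
    rw [neg_zero] at h1
    rw [hG'a]
    omega
  · intro z hz
    refine (hG p hp).2 z fun h => hz ?_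
    rw [hG'a, h, max_self]

end Pool.Agent.FO
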