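import Pool.Agent.Lib.MP_640417_ag.FO.SpecL

/-!
# Theorem FO, part L: the counting function of a tuple
-/

set_option autoImplicit false

noncomputable section

namespace Pool.Agent.FO

open Finset Pool.Agent.FC

namespace TupAux

theorem cnt_sum {m : ℕ} [NeZero m] {ι : Type} [Fintype ι] (a : ι → ZMod m) {M : Type}
    [AddCommGroup M] (g : ZMod m → M) : ∑ x, cnt a x • g x = ∑ i, g (a i) := by
  classical
  rw [← Finset.sum_fiberwise univ a (fun i => g (a i))]
  refine Finset.sum_congr rfl fun x _ => ?_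
  have h1 : ∑ i ∈ univ.filter (fun i => a i = x), g (a i) =
      ∑ i ∈ univ.filter (fun i => a i = x), g x :=
    Finset.sum_congr rfl fun i hi => by rw [(Finset.mem_filter.1 hi).2]
  rw [h1, Finset.sum_const, cnt, natCast_zsmul]

theorem cnt_nonneg {m : ℕ} {ι : Type} [Fintype ι] (a : ι → ZMod m) (x : ZMod m) : 0 ≤ cnt a x := by
  unfold cnt
  exact Int.natCast_nonneg _

theorem cnt_tot {m : ℕ} [NeZero m] {ι : Type} [Fintype ι] (a : ι → ZMod m) :
    ∑ x, cnt a x = Fintype.card ι := by
  have h1 := cnt_sum a (fun _ => (1 : ℤ))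
  simpa using h1

theorem sneg {m : ℕ} [NeZero m] {M : Type} [AddCommMonoid M] (g : ZMod m → M) :
    ∑ x, g (-x) = ∑ x, g x := Equiv.sum_comp (Equiv.neg (ZMod m)) g

theorem W_mono {m n : ℕ} (h : n ∣ m) : W n ≤ W m := by
  unfold W
  have h2 : (if 2 ∣ n then (2 : ℤ) else 1) ≤ if 2 ∣ m then 2 else 1 := by
    by_cases h4 : 2 ∣ n
    · rw [if_pos h4, if_pos (h4.trans h)]
    · rw [if_neg h4]
      split_ifs <;> norm_num
  have h3 : (if 3 ∣ n then (2 : ℤ) else 1) ≤ if 3 ∣ m then 2 else 1 := by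
    by_cases h4 : 3 ∣ n
    · rw [if_pos h4, if_pos (h4.trans h)]
    · rw [if_neg h4]
      split_ifs <;> norm_num
  refine mul_le_mul h2 h3 ?_ ?_ <;> split_ifs <;> norm_num

theorem W_pos (n : ℕ) : 0 < W n := by
  unfold W
  split_ifs <;> norm_num

end TupAux

open TupAux

theorem pTup (hSzBas : S_SzBas) : S_Tup := by
  classical
  intro m _ ι _ a
  have h3 : ∑ x, |cnt a x - cnt a (-x)| ≤ 2 * Fintype.card ι := by
    calc ∑ x, |cnt a x - cnt a (-x)| ≤ ∑ x, (cnt a x + cnt a (-x)) := by
          refine Finset.sum_le_sum fun x _ => ?_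
          have h1 := cnt_nonneg a x
          have h2 := cnt_nonneg a (-x)
          rw [abs_le]
          constructor <;> linarith
      _ = 2 * Fintype.card ι := by
          rw [Finset.sum_add_distrib, sneg (fun x => cnt a x), cnt_tot]
          ring
  refine ⟨fun x => ?_, fun t => ?_, h3, ?_, ?_, fun h => ?_⟩
  · simp only [neg_neg]
    ring
  · unfold P
    have h1 : ∑ x, (cnt a x : ℚ) * sz (t * x) = ∑ i, sz (t * a i) := by
      rw [← cnt_sum a (fun x => sz (t * x))]
      exact Finset.sum_congr rfl fun x _ => by rw [zsmul_eq_mul]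
    have h2 : ∑ x, (cnt a (-x) : ℚ) * sz (t * x) = -∑ i, sz (t * a i) := by
      rw [← h1, ← sneg, ← Finset.sum_neg_distrib]
      refine Finset.sum_congr rfl fun x _ => ?_
      rw [neg_neg, mul_neg, (hSzBas m (t * x)).1, mul_neg]
    calc ∑ x, (((cnt a x - cnt a (-x) : ℤ)) : ℚ) * sz (t * x)
        = ∑ x, (cnt a x : ℚ) * sz (t * x) - ∑ x, (cnt a (-x) : ℚ) * sz (t * x) := by
          rw [← Finset.sum_sub_distrib]
          exact Finset.sum_congr rfl fun x _ => by push_cast; ring
      _ = _ := by rw [h1, h2]; ring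
  · unfold V
    calc ∑ x, |cnt a x - cnt a (-x)| * W (addOrderOf x) ≤
          ∑ x, |cnt a x - cnt a (-x)| * W m := by
          refine Finset.sum_le_sum fun x _ => mul_le_mul_of_nonneg_left (W_mono ?_) (abs_nonneg _)
          have := addOrderOf_dvd_card (x := x)
          rwa [ZMod.card] at this
      _ = (∑ x, |cnt a x - cnt a (-x)|) * W m := (Finset.sum_mul _ _ _).symm
      _ ≤ _ := mul_le_mul_of_nonneg_right h3 (W_pos m).le
  · unfold clt cl
    rw [← cnt_sum a (fun x => Finsupp.single (ZMod.toAddCircle x) (1 : ℤ))]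
    refine Finset.sum_congr rfl fun x _ => ?_
    rw [Finsupp.smul_single, smul_eq_mul, mul_one]
  · unfold cnt
    rw [Nat.cast_eq_zero, Finset.card_eq_zero]
    exact Finset.filter_eq_empty_iff.2 fun i _ => h i

end Pool.Agent.FO
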