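import Pool.Agent.Lib.MP_640417_ag.FO.SpecL

/-!
# Theorem FO, part L, module VBk: bookkeeping for the potential
-/

set_option autoImplicit false

noncomputable section

open Finset Pool.Agent.FC

namespace Pool.Agent.FO

private theorem VBk_W (n : ℕ) : 0 ≤ W n := by
  unfold W
  split_ifs <;> norm_num

theorem pVBk (hEl : S_El) : S_VBk := by
  intro m d _ _ hd f h hf
  obtain ⟨e1, e2, e3, -⟩ := hEl m d hd
  have hsum : ∑ x ∈ univ.filter (fun x : ZMod m => addOrderOf x = d), |f x| * W (addOrderOf x) =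
      W d * nm (fun u : (ZMod d)ˣ => f (el m d u)) := by
    unfold nm
    rw [Finset.mul_sum]
    symm
    refine Finset.sum_bij (fun u _ => el m d u) ?_ ?_ ?_ ?_
    · intro u _
      rw [Finset.mem_filter]
      exact ⟨Finset.mem_univ _, e1 u⟩
    · intro u _ v _ huv
      exact e2 u v huv
    · intro x hx
      obtain ⟨u, hu⟩ := e3 x (Finset.mem_filter.1 hx).2
      exact ⟨u, Finset.mem_univ _, hu⟩
    · intro u _
      rw [e1 u, mul_comm]
  have hV : ∀ g : ZMod m → ℤ, V g =
      ∑ x ∈ univ.filter (fun x : ZMod m => addOrderOf x = d), |g x| * W (addOrderOf x) +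
      ∑ x ∈ univ.filter (fun x : ZMod m => addOrderOf x ≠ d), |g x| * W (addOrderOf x) := by
    intro g
    unfold V
    rw [Finset.sum_filter_add_sum_filter_not]
  have h0 : ∑ x ∈ univ.filter (fun x : ZMod m => addOrderOf x = d),
      |f x - h x| * W (addOrderOf x) = 0 := by
    refine Finset.sum_eq_zero fun x hx => ?_
    obtain ⟨u, rfl⟩ := e3 x (Finset.mem_filter.1 hx).2
    rw [hf u, sub_self, abs_zero, zero_mul]
  have h1 : ∑ x ∈ univ.filter (fun x : ZMod m => addOrderOf x ≠ d),
      |f x - h x| * W (addOrderOf x) ≤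
      ∑ x ∈ univ.filter (fun x : ZMod m => addOrderOf x ≠ d), |f x| * W (addOrderOf x) +
      ∑ x ∈ univ.filter (fun x : ZMod m => addOrderOf x ≠ d), |h x| * W (addOrderOf x) := by
    rw [← Finset.sum_add_distrib]
    refine Finset.sum_le_sum fun x _ => ?_
    rw [← add_mul]
    exact mul_le_mul_of_nonneg_right (abs_sub (f x) (h x)) (VBk_W _)
  have h2 := hV (fun x => f x - h x)
  rw [h0] at h2
  have h3 := hV f
  rw [hsum] at h3
  rw [h2, h3]
  linarith

end Pool.Agent.FO
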