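import Pool.Agent.Lib.MP_640417_ag.FT.Main
import Pool.Agent.Lib.MP_640417_ag.FO.TBas
import Pool.Agent.Lib.MP_640417_ag.FO.TlBas
import Pool.Agent.Lib.MP_640417_ag.FO.TlLoc
import Pool.Agent.Lib.MP_640417_ag.FO.SumKK
import Pool.Agent.Lib.MP_640417_ag.FO.Min
import Pool.Agent.Lib.MP_640417_ag.FO.Slice
import Pool.Agent.Lib.MP_640417_ag.FO.NormIneq
import Pool.Agent.Lib.MP_640417_ag.FO.Maj
import Pool.Agent.Lib.MP_640417_ag.FO.Dec
import Pool.Agent.Lib.MP_640417_ag.FO.SzBas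
import Pool.Agent.Lib.MP_640417_ag.FO.Dist
import Pool.Agent.Lib.MP_640417_ag.FO.HdP
import Pool.Agent.Lib.MP_640417_ag.FO.HoBas
import Pool.Agent.Lib.MP_640417_ag.FO.HoHd
import Pool.Agent.Lib.MP_640417_ag.FO.El
import Pool.Agent.Lib.MP_640417_ag.FO.ElP
import Pool.Agent.Lib.MP_640417_ag.FO.KpBas
import Pool.Agent.Lib.MP_640417_ag.FO.Sv
import Pool.Agent.Lib.MP_640417_ag.FO.Se
import Pool.Agent.Lib.MP_640417_ag.FO.Bne
import Pool.Agent.Lib.MP_640417_ag.FO.Top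
import Pool.Agent.Lib.MP_640417_ag.FO.Fou
import Pool.Agent.Lib.MP_640417_ag.FO.Lift
import Pool.Agent.Lib.MP_640417_ag.FO.New
import Pool.Agent.Lib.MP_640417_ag.FO.AriW
import Pool.Agent.Lib.MP_640417_ag.FO.Ari
import Pool.Agent.Lib.MP_640417_ag.FO.VBk
import Pool.Agent.Lib.MP_640417_ag.FO.StepA
import Pool.Agent.Lib.MP_640417_ag.FO.StepB
import Pool.Agent.Lib.MP_640417_ag.FO.Ite
import Pool.Agent.Lib.MP_640417_ag.FO.ClHd
import Pool.Agent.Lib.MP_640417_ag.FO.ClEven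
import Pool.Agent.Lib.MP_640417_ag.FO.Tra
import Pool.Agent.Lib.MP_640417_ag.FO.Tup
import Pool.Agent.Lib.MP_640417_ag.FO.FO
import Pool.Agent.Lib.MP_640417_ag.FO.Brg
import Pool.Agent.Lib.MP_640417_ag.FO.Anv
import Pool.Agent.Lib.MP_640417_ag.FO.AuxEx
import Pool.Agent.Lib.MP_640417_ag.FO.PsiBas
import Pool.Agent.Lib.MP_640417_ag.FO.TopRep
import Pool.Agent.Lib.MP_640417_ag.FO.NvO
import Pool.Agent.Lib.MP_640417_ag.FO.NvE
import Pool.Agent.Lib.MP_640417_ag.FO.RankG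
import Pool.Agent.Lib.MP_640417_ag.FO.SpcBas
import Pool.Agent.Lib.MP_640417_ag.FO.CntNS
import Pool.Agent.Lib.MP_640417_ag.FO.Span
import Pool.Agent.Lib.MP_640417_ag.FO.SpanF
import Pool.Agent.Lib.MP_640417_ag.FO.DGBas
import Pool.Agent.Lib.MP_640417_ag.FO.IndAll
import Pool.Agent.Lib.MP_640417_ag.FO.IndOdd
import Pool.Agent.Lib.MP_640417_ag.FO.KInv
import Pool.Agent.Lib.MP_640417_ag.FO.Orb
import Pool.Agent.Lib.MP_640417_ag.FO.Fib
import Pool.Agent.Lib.MP_640417_ag.FO.Arc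
import Pool.Agent.Lib.MP_640417_ag.FO.Int
import Pool.Agent.Lib.MP_640417_ag.FO.TopRel
import Pool.Agent.Lib.MP_640417_ag.FO.TopHD
import Pool.Agent.Lib.MP_640417_ag.FO.FR1
import Pool.Agent.Lib.MP_640417_ag.FO.FR
import Pool.Agent.Lib.MP_640417_ag.FO.Fin

/-!
# Theorems FO, FR and FermatDegrees, without hypotheses
-/

set_option autoImplicit false

noncomputable section

namespace Pool.Agent.FO

open Finset Pool.Agent.FC

theorem hTBas : S_TBas := pTBas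
theorem hTlBas : S_TlBas := pTlBas hTBas
theorem hTlLoc : S_TlLoc := pTlLoc hTBas
theorem hMin : S_Min := pMin hTBas hTlBas hTlLoc pSumKK
theorem hSlice : S_Slice := pSlice hTBas hTlBas pSumKK hMin
theorem hMaj : S_Maj := pMaj hTBas hTlBas hTlLoc hSlice pNormIneq
theorem hDec : S_Dec := pDec hTBas hMaj
theorem hSzBas : S_SzBas := pSzBas
theorem hDist : S_Dist := pDist hSzBas
theorem hHdP : S_HdP := pHdP hDist
theorem hHoBas : S_HoBas := pHoBas hHdP
theorem hEl : S_El := pEl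
theorem hElP : S_ElP := pElP hEl
theorem hAnv : S_Anv := pAnv hSzBas Pool.Agent.FT.hCoe
theorem hSv : S_Sv := pSv
theorem hBne : S_Bne := pBne hAnv hSv
theorem hSe : S_Se := pSe hEl
theorem hTop : S_Top := pTop hEl hSv hSe hBne
theorem hFou : S_Fou := pFou hTBas
theorem hLift : S_Lift := pLift hEl hElP
theorem hNew : S_New := pNew hElP
theorem hVBk : S_VBk := pVBk hEl
theorem hStepA : S_StepA :=
  pStepA hTop hFou hEl hElP pKpBas hDec hLift hNew pAriW pAri hVBk pHoHd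
theorem hStepB : S_StepB := pStepB hEl hElP pKpBas hLift hNew hVBk pHoHd
theorem hIte : S_Ite := pIte hHoBas hStepA hStepB
theorem hTra : S_Tra := pTra pClHd pClEven
theorem hTup : S_Tup := pTup hSzBas

/-- **THEOREM FO.** -/
theorem hFO : S_FO := pFO hIte hTra hTup

theorem hPsiBas : S_PsiBas := pPsiBas hSzBas hDist
theorem hNvO : S_NvO := pNvO hAnv pTopRep
theorem hNvE : S_NvE := pNvE hAnv pTopRep
theorem hSpcBas : S_SpcBas := pSpcBas
theorem hCntNS : S_CntNS := pCntNS hSpcBas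
theorem hSpan : S_Span := pSpan hSpcBas
theorem hSpanF : S_SpanF := pSpanF hSpan
theorem hDGBas : S_DGBas := pDGBas hSzBas hDist hPsiBas hSpcBas
theorem hIndAll : S_IndAll := pIndAll pRankG hNvO hNvE hCntNS hSpan hDGBas
theorem hIndOdd : S_IndOdd :=
  pIndOdd pRankG hNvO Pool.Agent.FT.hOdd hCntNS hSpan hDGBas pAuxEx hSzBas
theorem hKInv : S_KInv := pKInv pAuxEx hPsiBas hDGBas hIndAll
theorem hFib : S_Fib := pFib hDist
theorem hInt : S_Int := pInt pArc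
theorem hTopRel : S_TopRel := pTopRel hSzBas pAuxEx hSpanF hDGBas hKInv pOrb hFib hInt
theorem hTopHD : S_TopHD := pTopHD hSzBas pAuxEx hSpanF hDGBas hIndOdd
theorem hFR1 : S_FR1 := pFR1 hSzBas hTup hTopRel hTopHD

/-- **THEOREM FR.** -/
theorem hFR : S_FR := pFR hFR1

/-- **THEOREM FermatDegrees.** -/
theorem main (m N s : ℕ) [NeZero m] [NeZero s] (a : Fin N → ZMod m) (ha : IsTate m a)
    (hs : s ∣ m) (hq : ∀ q : ℕ, q.Prime → q ∣ m / s → 6 * N + 1 < q) :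
    (∃ (n : ℕ) (b : Fin n → ZMod s), n ≤ N ∧ IsTate s b ∧ clt a - clt b ∈ HD) ∧
    (CondF s N → clt a ∈ HD) ∧ (Pool.Agent.FT.Deg s → clt a ∈ Pool.Agent.FT.GG) :=
  fin hSzBas pClEven (pBrg hSzBas) hFO hFR Pool.Agent.FT.hEndT m N s a ha hs hq

end Pool.Agent.FO
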