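import Pool.Agent.Lib.MP_640417_ag.FO.SpecG

/-!
# Theorem FG, part G: the strict majority value
-/

set_option autoImplicit false

noncomputable section

open Finset Pool.Agent.FC

namespace Pool.Agent.FO

namespace MajGAux

private theorem avoid {G : Type} [Group G] [Fintype G] [DecidableEq G] (K : Subgroup G)
    (hm : ∀ k, k ∈ sK K ↔ k ∈ K) (B B' : Finset G)
    (hB : 2 * B.card < (sK K).card) (hB' : 2 * B'.card < (sK K).card) :
    ∃ x ∈ K, x ∉ B ∧ x ∉ B' := by
  by_contra hc
  push Not at hc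
  have h1 : sK K ⊆ B ∪ B' := by
    intro x hx
    rw [Finset.mem_union]
    by_cases h : x ∈ B
    · exact Or.inl h
    · exact Or.inr (hc x ((hm x).1 hx) h)
  have h2 : (sK K).card ≤ B.card + B'.card :=
    (Finset.card_le_card h1).trans (Finset.card_union_le _ _)
  omega

private theorem co_le (κ w : ℕ) (h : 2 * w < κ) : co κ ≤ (κ : ℤ) - 2 * w := by
  unfold co
  split_ifs with h1
  · omega
  · omega

end MajGAux

open MajGAux

theorem pMajG (hSliceG : S_SliceG) : S_MajG := by
  classical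
  intro G _ _ K r l hl hI F hT hK
  have hm : ∀ k, k ∈ sK (K r) ↔ k ∈ K r := (gTBas G (K r) (K r) F F).1
  choose x0 hx0 B hBs hBc hB hN using fun a => hSliceG G K r l hl hI F hT a (hK a)
  set E : G → ℤ := fun a => F (x0 a * a) with hE
  have hone : ∀ a, ∀ x ∈ K r, x ∉ B a → F (x * a) = E a := by
    intro a x hx hxB
    have h := hB a x hx hxB 1 (one_mem _)
    rw [mul_one, mul_one] at h
    exact h
  have huniq : ∀ (a : G) (B' : Finset G) (v : ℤ), 2 * B'.card < (sK (K r)).card →
      (∀ x ∈ K r, x ∉ B' → F (x * a) = v) → E a = v := by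
    intro a B' v hB' hv
    obtain ⟨x, hx, h1, h2⟩ := avoid (K r) hm (B a) B' (hBc a) hB'
    rw [← hone a x hx h1, hv x hx h2]
  have hEk : ∀ k ∈ K r, ∀ a, E (k * a) = E a := by
    intro k hk a
    refine huniq (k * a) ((B a).image fun x => x * k⁻¹) _ ?_ fun x hx hxB => ?_
    · rw [Finset.card_image_of_injective _ (mul_left_injective k⁻¹)]
      exact hBc a
    · rw [← mul_assoc]
      refine hone a (x * k) (mul_mem hx hk) fun h => hxB ?_
      rw [Finset.mem_image]
      exact ⟨x * k, h, by rw [mul_inv_cancel_right]⟩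
  have hEb : ∀ a, ∀ b ∈ KS K l, E (b * a) = F (x0 a * (b * a)) := by
    intro a b hb
    refine huniq (b * a) (B a) _ (hBc a) fun x hx hxB => ?_
    rw [← mul_assoc, ← mul_assoc]
    exact hB a x hx hxB b hb
  have hinv : ∀ k ∈ K r, ∀ a, Tl K l F (k * a) = Tl K l F a := by
    have h1 : T (K r) (Tl K l F) = 0 := by
      rw [← (gTlBas G K l (K r) F F).2.2.2.1]
      exact hT
    exact ((gTBas G (K r) (K r) (Tl K l F) F).2.2.2.2.2.2.2.1).1 h1
  have hTE : ∀ a, Tl K l E a = Tl K l F a := by
    intro a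
    rw [gTlLoc G K l E (fun c => F (x0 a * c)) a (fun b hb => hEb a b hb),
      (gTlBas G K l (K r) F F).2.2.1 (x0 a)]
    exact hinv (x0 a) (hx0 a) a
  refine ⟨E, hEk, ?_, ?_, ?_, ?_⟩
  · rw [(gTlBas G K l (K r) F E).2.1]
    funext a
    rw [hTE a, sub_self]
    rfl
  · intro a
    have h1 : ∀ x ∈ sK (K r), |F (x * a) - E (x * a)| +
        (|E a| - 2 * (if x ∈ B a then |E a| else 0)) ≤ |F (x * a)| := by
      intro x hx
      have hxK := (hm x).1 hx
      rw [hEk x hxK a]
      by_cases hxB : x ∈ B a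
      · rw [if_pos hxB]
        have h2 := abs_sub (F (x * a)) (E a)
        linarith
      · rw [if_neg hxB, hone a x hxK hxB, sub_self, abs_zero]
        linarith
    have h2 := Finset.sum_le_sum h1
    have h3 : ∑ x ∈ sK (K r), (if x ∈ B a then |E a| else 0) = (B a).card * |E a| := by
      rw [← Finset.sum_filter, Finset.filter_mem_eq_inter, Finset.inter_eq_right.2 (hBs a),
        Finset.sum_const, nsmul_eq_mul]
    rw [Finset.sum_add_distrib, Finset.sum_sub_distrib, ← Finset.mul_sum, h3, Finset.sum_const,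
      nsmul_eq_mul] at h2
    have h4 := mul_le_mul_of_nonneg_right (co_le (sK (K r)).card (B a).card (hBc a))
      (abs_nonneg (E a))
    change co (sK (K r)).card * |E a| + ∑ x ∈ sK (K r), |F (x * a) - E (x * a)| ≤
      ∑ x ∈ sK (K r), |F (x * a)|
    linarith
  · intro a
    refine le_trans (le_of_eq ?_) (hN a)
    have h1 := pSumKK G (K r) (KS K l) hI.1 (fun c => |E (c * a)|)
    change ∑ b ∈ sK (K r ⊔ KS K l), |E (b * a)| = _
    rw [h1]
    have h2 : ∀ x ∈ sK (K r), ∑ b ∈ sK (KS K l), |E (x * b * a)| =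
        ∑ b ∈ sK (KS K l), |F (x0 a * b * a)| := by
      intro x hx
      refine Finset.sum_congr rfl fun b hb => ?_
      have hb' : b ∈ KS K l := ((gTBas G (KS K l) (KS K l) F F).1 b).1 hb
      rw [mul_assoc x b a, hEk x ((hm x).1 hx), hEb a b hb', mul_assoc]
    rw [Finset.sum_congr rfl h2, Finset.sum_const, nsmul_eq_mul]
  · intro τ s hτ a
    refine huniq (τ * a) (B a) _ (hBc a) fun x hx hxB => ?_
    rw [← hone a x hx hxB, ← hτ (x * a)]
    congr 1
    rw [← mul_assoc, ← mul_assoc, mul_comm x τ]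

end Pool.Agent.FO
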