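import Pool.Agent.Lib.MP_640417_ag.FO.SpecG

/-!
# Two subgroups which generate the group, parity condition
-/

set_option autoImplicit false

namespace Pool.Agent.FO

open Finset Pool.Agent.FC

namespace PairRAux

variable {G : Type} [CommGroup G] [Fintype G]

private theorem add4 (K L : Subgroup G) (F : G → ℤ) (h : T K (T L F) = 0) (x : G) (hx : x ∈ K)
    (y : G) (hy : y ∈ L) (c : G) : F (x * (y * c)) = F (y * c) + F (x * c) - F c := by
  have h1 := ((gTBas G K L (T L F) F).2.2.2.2.2.2.2.1).1 h x hx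
  have h2 : T L (fun a => F (x * a) - F a) = 0 := by
    rw [(gTBas G L K (fun a => F (x * a)) F).2.2.2.2.1]
    have h3 := (gTBas G L K F F).2.2.2.2.2.1 x
    funext a
    have h4 : T L (fun a => F (x * a)) a = T L F (x * a) := congrFun h3 a
    change T L (fun a => F (x * a)) a - T L F a = 0
    rw [h4, h1 a, sub_self]
  have h5 : F (x * (y * c)) - F (y * c) = F (x * c) - F c :=
    ((gTBas G L K (fun a => F (x * a) - F a) F).2.2.2.2.2.2.2.1).1 h2 y hy c
  linarith

end PairRAux

open PairRAux in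
theorem pPairR : S_PairR := by
  intro G _ _ K L hd hs e1 he1 e2 he2 h11 h22 F hF hT hpar
  have hadd := add4 K L F hT
  obtain ⟨s, hs2⟩ := hpar
  have hex : ∀ a : G, ∃ x y : G, x ∈ K ∧ y ∈ L ∧ x * y = a := by
    intro a
    have ha : a ∈ K ⊔ L := by rw [hs]; exact Subgroup.mem_top a
    obtain ⟨x, hx, y, hy, h⟩ := Subgroup.mem_sup.1 ha
    exact ⟨x, y, hx, hy, h⟩
  choose X Y hX hY hXY using hex
  have huni : ∀ x ∈ K, ∀ y ∈ L, X (x * y) = x ∧ Y (x * y) = y := by
    intro x hx y hy
    have h := hXY (x * y)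
    have h1 : (X (x * y))⁻¹ * x = Y (x * y) * y⁻¹ := by
      rw [eq_mul_inv_iff_mul_eq, mul_assoc, inv_mul_eq_iff_eq_mul]
      exact h.symm
    have h2 : (X (x * y))⁻¹ * x ∈ K := K.mul_mem (K.inv_mem (hX _)) hx
    have h3 : (X (x * y))⁻¹ * x ∈ L := by rw [h1]; exact L.mul_mem (hY _) (L.inv_mem hy)
    have h4 : (X (x * y))⁻¹ * x = 1 := Subgroup.disjoint_def.1 hd h2 h3
    refine ⟨?_, ?_⟩
    · exact inv_mul_eq_one.1 h4
    · rw [h4] at h1
      exact (mul_inv_eq_one.1 h1.symm)
  -- values at `e1`, `e2`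
  have hF1 : F e1 = -F e2 := by
    have h := hF e2
    have h2 : e1 * e2 * e2 = e1 := by rw [mul_assoc, h22, mul_one]
    rw [h2] at h
    exact h
  refine ⟨fun a => F (Y a) - F 1 + s, fun a => F (X a) - s, ?_, ?_, ?_, ?_, ?_⟩
  · intro a
    have h1 : e1 * e2 * a = (e1 * X a) * (e2 * Y a) := by
      conv_lhs => rw [← hXY a]
      exact mul_mul_mul_comm _ _ _ _
    have h2 := (huni (e1 * X a) (K.mul_mem he1 (hX a)) (e2 * Y a) (L.mul_mem he2 (hY a))).2
    simp only
    rw [h1, h2]
    have h3 := hF (e1 * Y a)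
    have h4 : e1 * e2 * (e1 * Y a) = e2 * Y a := by
      calc e1 * e2 * (e1 * Y a) = (e1 * e1) * (e2 * Y a) := by
            rw [mul_mul_mul_comm]
        _ = e2 * Y a := by rw [h11, one_mul]
    rw [h4] at h3
    have h5 := hadd e1 he1 (Y a) (hY a) 1
    simp only [mul_one] at h5
    linarith
  · intro a
    have h1 : e1 * e2 * a = (e1 * X a) * (e2 * Y a) := by
      conv_lhs => rw [← hXY a]
      exact mul_mul_mul_comm _ _ _ _
    have h2 := (huni (e1 * X a) (K.mul_mem he1 (hX a)) (e2 * Y a) (L.mul_mem he2 (hY a))).1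
    simp only
    rw [h1, h2]
    have h3 := hF (X a * e2)
    have h4 : e1 * e2 * (X a * e2) = e1 * X a := by
      calc e1 * e2 * (X a * e2) = (e1 * X a) * (e2 * e2) := by
            rw [mul_mul_mul_comm]
        _ = e1 * X a := by rw [h22, mul_one]
    rw [h4] at h3
    have h5 := hadd (X a) (hX a) e2 he2 1
    simp only [mul_one] at h5
    linarith
  · intro k hk a
    have h1 : k * a = (k * X a) * Y a := by rw [mul_assoc, hXY a]
    have h2 := (huni (k * X a) (K.mul_mem hk (hX a)) (Y a) (hY a)).2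
    simp only
    rw [h1, h2]
  · intro k hk a
    have h1 : k * a = X a * (k * Y a) := by
      conv_lhs => rw [← hXY a]
      rw [← mul_assoc, ← mul_assoc, mul_comm k (X a)]
    have h2 := (huni (X a) (hX a) (k * Y a) (L.mul_mem hk (hY a))).1
    simp only
    rw [h1, h2]
  · intro a
    have h5 := hadd (X a) (hX a) (Y a) (hY a) 1
    simp only [mul_one, hXY a] at h5
    simp only
    linarith

end Pool.Agent.FO
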