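import Pool.Agent.Lib.MP_640417_ag.FO.SpecH

/-!
# Theorem FG, part H, module Ph1: phase 1 (induction)
-/

set_option autoImplicit false

noncomputable section

open Finset Pool.Agent.FC

namespace Pool.Agent.FO

namespace Ph1Aux

theorem rl_add {m : ℕ} [NeZero m] {f g : ZMod m → ℤ} (hf : Rl f) (hg : Rl g) :
    Rl (fun x => f x + g x) := by
  intro t
  have h1 := hf t
  have h2 := hg t
  unfold P at h1 h2 ⊢
  have e : ∑ x, ((f x + g x : ℤ) : ℚ) * sz ((t : ZMod m) * x) =
      ∑ x, (f x : ℚ) * sz ((t : ZMod m) * x) + ∑ x, (g x : ℚ) * sz ((t : ZMod m) * x) := by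
    rw [← sum_add_distrib]
    refine sum_congr rfl fun x _ => ?_
    push_cast
    ring
  rw [e, h1, h2, add_zero]

theorem rl_sub {m : ℕ} [NeZero m] {f g : ZMod m → ℤ} (hf : Rl f) (hg : Rl g) :
    Rl (fun x => f x - g x) := by
  intro t
  have h1 := hf t
  have h2 := hg t
  unfold P at h1 h2 ⊢
  have e : ∑ x, ((f x - g x : ℤ) : ℚ) * sz ((t : ZMod m) * x) =
      ∑ x, (f x : ℚ) * sz ((t : ZMod m) * x) - ∑ x, (g x : ℚ) * sz ((t : ZMod m) * x) := by
    rw [← sum_sub_distrib]
    refine sum_congr rfl fun x _ => ?_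
    push_cast
    ring
  rw [e, h1, h2, sub_zero]

theorem odd_add {m : ℕ} {f g : ZMod m → ℤ} (hf : IsOdd f) (hg : IsOdd g) :
    IsOdd (fun x => f x + g x) := by
  intro x
  show f (-x) + g (-x) = -(f x + g x)
  rw [hf x, hg x]
  ring

theorem odd_sub {m : ℕ} {f g : ZMod m → ℤ} (hf : IsOdd f) (hg : IsOdd g) :
    IsOdd (fun x => f x - g x) := by
  intro x
  show f (-x) - g (-x) = -(f x - g x)
  rw [hf x, hg x]
  ring

theorem wb0 (n : ℕ) : 0 ≤ wb n := by
  unfold wb
  split_ifs <;> norm_num

theorem w30 (n : ℕ) : 0 ≤ w3 n := by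
  unfold w3
  split_ifs <;> norm_num

theorem w10 (n : ℕ) : 0 ≤ w1 n := by
  unfold w1
  split_ifs <;> norm_num

theorem w1b (n : ℕ) : w1 n ≤ 3 * wb n := by
  unfold w1 wb
  split_ifs <;> norm_num

theorem small_dvd {n d : ℕ} (hn : n ∣ d) (hd0 : 0 < d) (hd : d ≤ 39 ∨ d = 105) :
    n ≤ 39 ∨ n = 105 := by
  rcases hd with h | h
  · exact Or.inl ((Nat.le_of_dvd hd0 hn).trans h)
  · obtain ⟨k, hk⟩ := hn
    rw [h] at hk
    rcases k with _ | _ | _ | k
    · omega
    · omega
    · omega
    · left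
      have h1 : n * (k + 1 + 1 + 1) = n * k + 3 * n := by ring
      have h2 : 0 ≤ n * k := Nat.zero_le _
      omega

theorem ord_dvd {m : ℕ} [NeZero m] (x : ZMod m) : addOrderOf x ∣ m := by
  have h := addOrderOf_dvd_card (x := x)
  rwa [ZMod.card] at h

theorem ord_pos {m : ℕ} [NeZero m] (x : ZMod m) : 0 < addOrderOf x := addOrderOf_pos x

end Ph1Aux

open Ph1Aux

theorem pPh1 (hVVBas : S_VVBas) (hInG : S_InG) (hSmStep : S_SmStep) (hBigStep3 : S_BigStep3) :
    S_Ph1 := by
  intro m _ h2m
  have key : ∀ D : ℕ, ∀ f : ZMod m → ℤ, IsOdd f → Rl f → Inv f →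
      (∀ x, f x ≠ 0 → 3 ∣ addOrderOf x → addOrderOf x ≤ D) →
      ∃ h : ZMod m → ℤ, InG h ∧ IsOdd h ∧ Rl h ∧ (∀ x, f x - h x ≠ 0 → ¬ 3 ∣ addOrderOf x) ∧
        VV w1 (fun x => f x - h x) ≤ 36 := by
    intro D
    induction D with
    | zero =>
      intro f hodd hRl hInv hD
      have hz := (hHoBas m (fun _ => 0) (fun _ => 0)).1 (hHoBas m (fun _ => 0) (fun _ => 0)).2.2
      refine ⟨fun _ => 0, (hInG m (fun _ => 0) (fun _ => 0)).2.2.1, hz.1, hz.2, ?_, ?_⟩
      · intro x hx h3
        rw [sub_zero] at hx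
        have := hD x hx h3
        have := ord_pos x
        omega
      · simp only [sub_zero]
        rcases hInv with h | h
        · have h1 := (hVVBas m w1 wb f f w10 wb0).2.1 3 (fun n _ => w1b n)
          linarith
        · exact h.2
    | succ D ih =>
      intro f hodd hRl hInv hD
      -- adding up
      have fin : ∀ h : ZMod m → ℤ, InG h → IsOdd h → Rl h → Inv (fun x => f x - h x) →
          (∀ x, f x - h x ≠ 0 → 3 ∣ addOrderOf x → addOrderOf x ≤ D) →
          ∃ h : ZMod m → ℤ, InG h ∧ IsOdd h ∧ Rl h ∧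
            (∀ x, f x - h x ≠ 0 → ¬ 3 ∣ addOrderOf x) ∧ VV w1 (fun x => f x - h x) ≤ 36 := by
        intro h hG ho hR hI hb
        obtain ⟨h', hG', ho', hR', hb', hV'⟩ := ih (fun x => f x - h x) (odd_sub hodd ho)
          (rl_sub hRl hR) hI hb
        have e : ∀ x, f x - (h x + h' x) = f x - h x - h' x := fun x => by ring
        refine ⟨fun x => h x + h' x, (hInG m h h').2.1 hG hG', odd_add ho ho', rl_add hR hR',
          ?_, ?_⟩
        · intro x hx
          exact hb' x (by rw [← e x]; exact hx)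
        · simp only [e]
          exact hV'
      by_cases hex : ∃ x, f x ≠ 0 ∧ 3 ∣ addOrderOf x ∧ addOrderOf x = D + 1
      · obtain ⟨x0, -, hx3, hxD⟩ := hex
        have hdm : D + 1 ∣ m := hxD ▸ ord_dvd x0
        have h3d : 3 ∣ D + 1 := hxD ▸ hx3
        have h2d : ¬ 2 ∣ D + 1 := fun h => h2m (h.trans hdm)
        have h1d : 1 < D + 1 := by
          have := Nat.le_of_dvd (Nat.succ_pos D) h3d
          omega
        by_cases hs : D + 1 ≤ 39 ∨ D + 1 = 105
        · obtain ⟨h, hG, ho, hR, hfd, hsup⟩ := hSmStep m (D + 1) hdm h2d h1d hs f hodd hRl (by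
            intro x hx hdx
            exact le_antisymm (hD x hx (h3d.trans hdx)) (Nat.le_of_dvd (ord_pos x) hdx))
          have hsm : ∀ x, h x ≠ 0 → addOrderOf x ≤ 39 ∨ addOrderOf x = 105 := fun x hx =>
            small_dvd (hsup x hx) (Nat.succ_pos D) hs
          refine fin h hG ho hR ?_ ?_
          · have v1 := (hVVBas m wb wb f h wb0 wb0).2.2.2.1 (fun x hx => if_pos (hsm x hx))
            have v2 := (hVVBas m w3 w3 f h w30 w30).2.2.2.1 (fun x hx => if_pos (hsm x hx))
            have v3 := (hVVBas m w1 w1 f h w10 w10).2.2.2.1 (fun x hx => if_pos (hsm x hx))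
            unfold Inv
            rw [v1, v2, v3]
            exact hInv
          · intro x hx h3
            have hle : addOrderOf x ≤ D + 1 := by
              by_cases hfx : f x = 0
              · have hhx : h x ≠ 0 := by
                  rintro h0
                  rw [hfx, h0] at hx
                  exact hx (sub_zero 0)
                exact Nat.le_of_dvd (Nat.succ_pos D) (hsup x hhx)
              · exact hD x hfx h3
            have hne : addOrderOf x ≠ D + 1 := by
              intro h0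
              rw [hfd x h0, sub_self] at hx
              exact hx rfl
            omega
        · push Not at hs
          obtain ⟨h, hG, ho, hR, hI, hb⟩ := hBigStep3 m (D + 1) hdm h2d h3d hs.1 hs.2 f hodd hRl
            hInv hD
          exact fin h hG ho hR hI (fun x hx h3 => Nat.lt_succ_iff.1 (hb x hx h3))
      · push Not at hex
        refine ih f hodd hRl hInv fun x hx h3 => ?_
        have h1 := hD x hx h3
        have h2 := hex x hx h3
        omega
  intro f hodd hRl hInv
  exact key m f hodd hRl hInv fun x _ _ => Nat.le_of_dvd (Nat.pos_of_ne_zero (NeZero.ne m)) (ord_dvd x)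

end Pool.Agent.FO
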