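import Pool.Agent.Lib.MP_640417_ag.FO.SpecH

/-!
# Theorem FG, part H, module Ph2: phase 2 (induction)
-/

set_option autoImplicit false

noncomputable section

open Finset Pool.Agent.FC

namespace Pool.Agent.FO

namespace Ph2Aux

theorem rl_sub {m : ℕ} [NeZero m] {f g : ZMod m → ℤ} (hf : Rl f) (hg : Rl g) :
    Rl (fun x => f x - g x) := by
  intro t
  have h1 := hf t
  have h2 := hg t
  unfold P at h1 h2 ⊢
  have e : ∑ x, ((f x - g x : ℤ) : ℚ) * sz ((t : ZMod m) * x) =
      ∑ x, (f x : ℚ) * sz ((t : ZMod m) * x) - ∑ x, (g x : ℚ) * sz ((t : ZMod m) * x) := by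
    rw [← sum_sub_distrib]
    refine sum_congr rfl fun x _ => ?_
    push_cast
    ring
  rw [e, h1, h2, sub_zero]

theorem odd_sub {m : ℕ} {f g : ZMod m → ℤ} (hf : IsOdd f) (hg : IsOdd g) :
    IsOdd (fun x => f x - g x) := by
  intro x
  show f (-x) - g (-x) = -(f x - g x)
  rw [hf x, hg x]
  ring

theorem w10 (n : ℕ) : 0 ≤ w1 n := by
  unfold w1
  split_ifs <;> norm_num

theorem w1_le {n : ℕ} (h3 : ¬ 3 ∣ n) : w1 n ≤ 2 := by
  have h15 : ¬ 15 ∣ n := fun h => h3 (dvd_trans (by norm_num) h)
  unfold w1
  rw [if_neg h15]
  split_ifs <;> norm_num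

theorem w1_eq {n : ℕ} (h3 : ¬ 3 ∣ n) (h39 : 39 < n) : w1 n = 2 := by
  have h15 : ¬ 15 ∣ n := fun h => h3 (dvd_trans (by norm_num) h)
  have h105 : n ≠ 105 := by
    rintro rfl
    exact h3 (by norm_num)
  unfold w1
  rw [if_neg h15, if_neg]
  rintro (h | h)
  · omega
  · exact h105 h

theorem ord_dvd {m : ℕ} [NeZero m] (x : ZMod m) : addOrderOf x ∣ m := by
  have h := addOrderOf_dvd_card (x := x)
  rwa [ZMod.card] at h

theorem ord_pos {m : ℕ} [NeZero m] (x : ZMod m) : 0 < addOrderOf x := addOrderOf_pos x

end Ph2Aux

open Ph2Aux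

theorem pPh2 (hVVBas : S_VVBas) (hTopG : S_TopG) (hStepGen : S_StepGen) (hCxBas : S_CxBas)
    (hD5 : S_D5) (hInG : S_InG) (hSmStep : S_SmStep) : S_Ph2 := by
  intro m _ h2m
  have key : ∀ D : ℕ, ∀ f : ZMod m → ℤ, IsOdd f → Rl f → (∀ x, f x ≠ 0 → ¬ 3 ∣ addOrderOf x) →
      VV w1 f ≤ 36 → (∀ x, f x ≠ 0 → addOrderOf x ≤ D) → InG f := by
    intro D
    induction D with
    | zero =>
      intro f hodd hRl h3 hV hD
      have e : f = fun _ => 0 := by
        funext x
        by_contra hx
        have := hD x hx
        have := ord_pos x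
        omega
      rw [e]
      exact (hInG m (fun _ => 0) (fun _ => 0)).2.2.1
    | succ D ih =>
      intro f hodd hRl h3 hV hD
      -- adding up
      have fin : ∀ h : ZMod m → ℤ, InG h → IsOdd h → Rl h → VV w1 (fun x => f x - h x) ≤ 36 →
          (∀ x, f x - h x ≠ 0 → ¬ 3 ∣ addOrderOf x ∧ addOrderOf x ≤ D) → InG f := by
        intro h hG ho hR hI hb
        have h1 := ih (fun x => f x - h x) (odd_sub hodd ho) (rl_sub hRl hR)
          (fun x hx => (hb x hx).1) hI (fun x hx => (hb x hx).2)
        have h2 := (hInG m (fun x => f x - h x) h).2.1 h1 hG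
        have e : (fun x => f x - h x + h x) = f := by
          funext x
          ring
        rwa [e] at h2
      by_cases hex : ∃ x, f x ≠ 0 ∧ addOrderOf x = D + 1
      · obtain ⟨x0, hx0, hxD⟩ := hex
        have hdm : D + 1 ∣ m := hxD ▸ ord_dvd x0
        have h3d : ¬ 3 ∣ D + 1 := hxD ▸ h3 x0 hx0
        have h2d : ¬ 2 ∣ D + 1 := fun h => h2m (h.trans hdm)
        have h1d : 1 < D + 1 := by
          rcases Nat.eq_zero_or_pos D with h0 | h0
          · exfalso
            rw [h0, zero_add, AddMonoid.addOrderOf_eq_one_iff] at hxD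
            have h4 := hodd 0
            rw [neg_zero] at h4
            rw [hxD] at hx0
            exact hx0 (by linarith)
          · omega
        have htop : ∀ x, f x ≠ 0 → D + 1 ∣ addOrderOf x → addOrderOf x = D + 1 := fun x hx hdx =>
          le_antisymm (hD x hx) (Nat.le_of_dvd (ord_pos x) hdx)
        by_cases hs : D + 1 ≤ 39
        · obtain ⟨h, hG, ho, hR, hfd, hsup⟩ := hSmStep m (D + 1) hdm h2d h1d (Or.inl hs) f hodd
            hRl htop
          have hsm : ∀ x, h x ≠ 0 → addOrderOf x ≤ 39 ∨ addOrderOf x = 105 := fun x hx =>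
            Or.inl ((Nat.le_of_dvd (Nat.succ_pos D) (hsup x hx)).trans hs)
          refine fin h hG ho hR ?_ ?_
          · rw [(hVVBas m w1 w1 f h w10 w10).2.2.2.1 (fun x hx => if_pos (hsm x hx))]
            exact hV
          · intro x hx
            have hne : addOrderOf x ≠ D + 1 := by
              intro h0
              rw [hfd x h0, sub_self] at hx
              exact hx rfl
            by_cases hfx : f x = 0
            · have hhx : h x ≠ 0 := by
                rintro h0
                rw [hfx, h0] at hx
                exact hx (sub_zero 0)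
              have h5 := Nat.le_of_dvd (Nat.succ_pos D) (hsup x hhx)
              exact ⟨fun h => h3d (h.trans (hsup x hhx)), by omega⟩
            · have h5 := hD x hfx
              exact ⟨h3 x hfx, by omega⟩
        · have h39 : 39 < D + 1 := not_le.1 hs
          have hwd := w1_eq h3d h39
          have hF := (hVVBas m w1 w1 f f w10 w10).2.2.2.2.2 (D + 1) hdm
          rw [hwd] at hF
          have hnm : nm (fun u : (ZMod (D + 1))ˣ => f (el m (D + 1) u)) ≤ 18 := by linarith
          have hFodd : ∀ u : (ZMod (D + 1))ˣ, f (el m (D + 1) (-1 * u)) = -f (el m (D + 1) u) := by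
            intro u
            rw [neg_one_mul, (hEl m (D + 1) hdm).2.2.2.2.1 u, hodd]
          obtain ⟨E, hE, hct⟩ := hD5 (D + 1) h2d h3d h39 (fun u => f (el m (D + 1) u)) hFodd
            (hTopG m (D + 1) hdm f hodd hRl htop) hnm
          obtain ⟨h, hHo, hfd, hsup, hw⟩ := hStepGen m (D + 1) hdm (Or.inl h2d) f E hE
          have hOR := (hHoBas m h h).1 hHo
          refine fin h ((hInG m h h).1 hHo) hOR.1 hOR.2 ?_ ?_
          · have hw' := hw w1 w10
            rw [hwd] at hw'
            have hsum : ∑ p ∈ (D + 1).primeFactors, (w1 ((D + 1) / p) : ℚ) * cx (D + 1) p (E p) ≤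
                2 * ∑ p ∈ (D + 1).primeFactors, (ct (Kp (D + 1) p) (E p) : ℚ) := by
              rw [mul_sum]
              refine sum_le_sum fun p hp => ?_
              have hpd : p ∣ D + 1 := Nat.dvd_of_mem_primeFactors hp
              have hp2 : p ≠ 2 := by
                rintro rfl
                exact h2d hpd
              have hcx := hCxBas (D + 1) p hp (E p)
              have h5 : (w1 ((D + 1) / p) : ℚ) ≤ 2 := by
                exact_mod_cast w1_le (fun h => h3d (h.trans (Nat.div_dvd_of_dvd hpd)))
              rw [← hcx.2.2.1 hp2]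
              exact mul_le_mul_of_nonneg_right h5 hcx.1
            have h6 : (VV w1 (fun x => f x - h x) : ℚ) ≤ VV w1 f := by
              push_cast at hw' hct hsum
              linarith
            have h7 : VV w1 (fun x => f x - h x) ≤ VV w1 f := by exact_mod_cast h6
            exact h7.trans hV
          · intro x hx
            have hne : addOrderOf x ≠ D + 1 := by
              intro h0
              rw [hfd x h0, sub_self] at hx
              exact hx rfl
            by_cases hfx : f x = 0
            · have hhx : h x ≠ 0 := by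
                rintro h0
                rw [hfx, h0] at hx
                exact hx (sub_zero 0)
              rcases hsup x hhx with h0 | ⟨p, hp, h0⟩
              · exact absurd h0 hne
              · have hpd : p ∣ D + 1 := Nat.dvd_of_mem_primeFactors hp
                have h5 : (D + 1) / p < D + 1 :=
                  Nat.div_lt_self (Nat.succ_pos D) (Nat.prime_of_mem_primeFactors hp).one_lt
                rw [h0]
                exact ⟨fun h => h3d (h.trans (Nat.div_dvd_of_dvd hpd)), by omega⟩
            · have h5 := hD x hfx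
              exact ⟨h3 x hfx, by omega⟩
      · push Not at hex
        refine ih f hodd hRl h3 hV fun x hx => ?_
        have h1 := hD x hx
        have h2 := hex x hx
        omega
  intro f hodd hRl h3 hV
  exact key m f hodd hRl h3 hV fun x _ =>
    Nat.le_of_dvd (Nat.pos_of_ne_zero (NeZero.ne m)) (ord_dvd x)

end Pool.Agent.FO
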