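import Pool.Agent.Lib.MP_640417_ag.FO.SpecR

/-!
# Rank lemma (Theorem FR)
-/

set_option autoImplicit false

noncomputable section

namespace Pool.Agent.FO

open Finset Pool.Agent.FC

namespace RankGAux

/-- Dirichlet characters are linearly independent on the units -/
theorem chi_indep {m : ℕ} [NeZero m] (C : Finset (DirichletCharacter ℂ m)) (a : DirichletCharacter ℂ m → ℂ)
    (h : ∀ s : (ZMod m)ˣ, ∑ χ ∈ C, a χ * χ (s : ZMod m) = 0) : ∀ χ ∈ C, a χ = 0 := by
  have hli := linearIndependent_monoidHom (ZMod m) ℂ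
  have hinj : Function.Injective (fun χ : DirichletCharacter ℂ m => χ.toMonoidHom) := by
    intro χ ψ hh
    ext a
    exact congrArg (fun f : ZMod m →* ℂ => f (a : ZMod m)) hh
  have h2 := hli.comp _ hinj
  rw [linearIndependent_iff'] at h2
  apply h2 C a
  funext x
  simp only [Finset.sum_apply, Pi.smul_apply, smul_eq_mul, Function.comp_apply, Pi.zero_apply]
  by_cases hx : IsUnit x
  · obtain ⟨s, rfl⟩ := hx
    exact h s
  · apply Finset.sum_eq_zero
    intro χ _
    have : χ.toMonoidHom x = 0 := χ.map_nonunit hx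
    rw [this, mul_zero]

end RankGAux

open RankGAux in
theorem pRankG : S_RankG := by
  intro m _ κ Φ τ X B C hτ hX hB hC hcard c hc
  classical
  choose! x hxX hx using hC
  -- the vectors `E χ`
  set E : DirichletCharacter ℂ m → κ → ℂ := fun χ i =>
    ∑ s : (ZMod m)ˣ, χ (s : ZMod m) * Φ ((s : ZMod m) * x χ) i with hE
  have hEτ : ∀ (χ : DirichletCharacter ℂ m) (s0 : (ZMod m)ˣ) (i : κ),
      E χ (τ s0 i) = χ ((s0⁻¹ : (ZMod m)ˣ) : ZMod m) * E χ i := by
    intro χ s0 i
    simp only [hE]
    rw [Finset.mul_sum]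
    refine Fintype.sum_equiv (Equiv.mulLeft s0) _ _ (fun s => ?_)
    rw [← hτ]
    simp only [Equiv.coe_mulLeft, Units.val_mul]
    rw [← mul_assoc (χ _), ← map_mul, ← mul_assoc (s0 : ZMod m)]
    congr 2
    rw [← mul_assoc, Units.inv_mul, one_mul]
  have hne : ∀ χ ∈ C, ∃ i, E χ i ≠ 0 := fun χ hχ => hx χ hχ
  -- independence
  have hindep : LinearIndependent ℂ (fun χ : C => E χ.1) := by
    rw [Fintype.linearIndependent_iff]
    intro g hg
    set a : DirichletCharacter ℂ m → ℂ := fun χ => if h : χ ∈ C then g ⟨χ, h⟩ else 0 with ha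
    have hsum : ∀ i, ∑ χ ∈ C, a χ * E χ i = 0 := by
      intro i
      have h1 := congrFun hg i
      simp only [Finset.sum_apply, Pi.smul_apply, smul_eq_mul, Pi.zero_apply] at h1
      rw [← Finset.sum_coe_sort C]
      rw [← h1]
      refine Finset.sum_congr rfl (fun χ _ => ?_)
      simp only [ha, χ.2, dif_pos]
    have key : ∀ χ ∈ C, ∀ i, a χ * E χ i = 0 := by
      intro χ hχ i
      refine chi_indep C (fun χ => a χ * E χ i) (fun s => ?_) χ hχ
      have h2 := hsum (τ s⁻¹ i)
      rw [← h2]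
      refine Finset.sum_congr rfl (fun ψ _ => ?_)
      rw [hEτ, inv_inv]
      ring
    intro χ
    obtain ⟨i, hi⟩ := hne χ.1 χ.2
    have h3 := key χ.1 χ.2 i
    have h4 : a χ.1 = 0 := by
      rcases mul_eq_zero.mp h3 with h | h
      · exact h
      · exact absurd h hi
    simpa only [ha, χ.2, dif_pos] using h4
  -- the span
  set v : B → κ → ℂ := fun b => Φ b.1 with hv
  have hmemΦ : ∀ y ∈ X, Φ y ∈ Submodule.span ℂ (Set.range v) := by
    intro y hy
    obtain ⟨d, hd⟩ := hB y hy
    have : Φ y = ∑ b : B, d b.1 • v b := by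
      funext i
      rw [hd i, Finset.sum_apply, ← Finset.sum_coe_sort B]
      rfl
    rw [this]
    exact Submodule.sum_mem _ (fun b _ => Submodule.smul_mem _ _ (Submodule.subset_span ⟨b, rfl⟩))
  have hmemE : ∀ χ : C, E χ.1 ∈ Submodule.span ℂ (Set.range v) := by
    intro χ
    have : E χ.1 = ∑ s : (ZMod m)ˣ, (χ.1 (s : ZMod m)) • Φ ((s : ZMod m) * x χ.1) := by
      funext i
      simp only [hE, Finset.sum_apply, Pi.smul_apply, smul_eq_mul]
    rw [this]
    exact Submodule.sum_mem _ (fun s _ => Submodule.smul_mem _ _ (hmemΦ _ (hX _ (hxX χ.1 χ.2) s)))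
  have hfin : Module.Finite ℂ (Submodule.span ℂ (Set.range v)) :=
    Module.Finite.span_of_finite ℂ (Set.finite_range v)
  have hle : Fintype.card C ≤ Module.finrank ℂ (Submodule.span ℂ (Set.range v)) := by
    have h5 : LinearIndependent ℂ (fun χ : C => (⟨E χ.1, hmemE χ⟩ : Submodule.span ℂ (Set.range v))) :=
      LinearIndependent.of_comp (Submodule.span ℂ (Set.range v)).subtype hindep
    exact h5.fintype_card_le_finrank
  have hvi : LinearIndependent ℂ v := by
    rw [linearIndependent_iff_card_le_finrank_span]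
    refine le_trans ?_ hle
    simpa using hcard
  rw [Fintype.linearIndependent_iff] at hvi
  intro b hb
  refine hvi (fun b => c b.1) ?_ ⟨b, hb⟩
  funext i
  rw [Finset.sum_apply, Pi.zero_apply, ← hc i, ← Finset.sum_coe_sort B]
  rfl

end Pool.Agent.FO
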