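import Pool.Agent.Lib.MP_640417_ag.FO.SpecH

/-!
# Theorem FG, part H: the small step
-/

set_option autoImplicit false

noncomputable section

namespace Pool.Agent.FO

open Finset Pool.Agent.FC

namespace SmStepAux

theorem P_sub {m : ℕ} [NeZero m] (f g : ZMod m → ℤ) (t : ZMod m) :
    P (fun x => f x - g x) t = P f t - P g t := by
  unfold P
  rw [← Finset.sum_sub_distrib]
  refine Finset.sum_congr rfl fun x _ => ?_
  push_cast
  ring

theorem P_add {m : ℕ} [NeZero m] (f g : ZMod m → ℤ) (t : ZMod m) :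
    P (fun x => f x + g x) t = P f t + P g t := by
  unfold P
  rw [← Finset.sum_add_distrib]
  refine Finset.sum_congr rfl fun x _ => ?_
  push_cast
  ring

/-- the step if the parity condition holds -/
theorem core (hTopG : S_TopG) (hDSm : S_DSm) (hStepGen : S_StepGen)
    (m d : ℕ) [NeZero m] [NeZero d] (hdm : d ∣ m) (h2 : ¬ 2 ∣ d) (h1 : 1 < d) (hd : d ≤ 39 ∨ d = 105)
    (f : ZMod m → ℤ) (hf : IsOdd f) (hR : Rl f)
    (hs : ∀ x, f x ≠ 0 → d ∣ addOrderOf x → addOrderOf x = d)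
    (hpar : ∀ p q : ℕ, p.Prime → q.Prime → p < q → d = p * q → ∀ e ∈ Kp d p, -1 * e ∈ Kp d q →
      (2 : ℤ) ∣ f (el m d 1) + f (el m d e)) :
    ∃ h : ZMod m → ℤ, InHo h ∧ (∀ x, addOrderOf x = d → h x = f x) ∧
      ∀ x, h x ≠ 0 → addOrderOf x ∣ d := by
  have hT := hTopG m d hdm f hf hR hs
  have hodd : ∀ u : (ZMod d)ˣ, f (el m d (-1 * u)) = -f (el m d u) := by
    intro u
    rw [neg_one_mul, (hEl m d hdm).2.2.2.2.1 u, hf]
  obtain ⟨E, hE⟩ := hDSm d h2 h1 hd (fun u => f (el m d u)) hodd hT hpar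
  obtain ⟨h, hh, heq, hsup, -⟩ := hStepGen m d hdm (Or.inl h2) f E hE
  refine ⟨h, hh, heq, fun x hx => ?_⟩
  rcases hsup x hx with h | ⟨p, hp, h⟩
  · exact h ▸ dvd_rfl
  · rw [h]
    exact Nat.div_dvd_of_dvd (Nat.dvd_of_mem_primeFactors hp)

theorem five (p q : ℕ) (hp : p.Prime) (hq : q.Prime) (hpq : p < q) (h2 : ¬ 2 ∣ p * q)
    (hd : p * q ≤ 39 ∨ p * q = 105) :
    p * q = 15 ∨ p * q = 21 ∨ p * q = 33 ∨ p * q = 35 ∨ p * q = 39 := by
  have hp10 : p ≤ 10 := by
    by_contra hcon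
    have : 11 * 12 ≤ p * q := Nat.mul_le_mul (by omega) (by omega)
    omega
  interval_cases p
  · exact absurd hp (by norm_num)
  · exact absurd hp (by norm_num)
  · exact absurd (Dvd.intro q rfl) h2
  · have hq2 : q ≤ 13 ∨ q = 35 := by omega
    rcases hq2 with hq2 | rfl
    · interval_cases q <;> first | omega | (exact absurd hq (by norm_num))
    · exact absurd hq (by norm_num)
  · exact absurd hp (by norm_num)
  · have hq2 : q ≤ 7 ∨ q = 21 := by omega
    rcases hq2 with hq2 | rfl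
    · interval_cases q <;> first | omega | (exact absurd hq (by norm_num))
    · exact absurd hq (by norm_num)
  · exact absurd hp (by norm_num)
  · have hq2 : q = 15 := by omega
    subst hq2
    exact absurd hq (by norm_num)
  · exact absurd hp (by norm_num)
  · exact absurd hp (by norm_num)
  · exact absurd hp (by norm_num)

theorem uniq (p q p' q' : ℕ) (hp : p.Prime) (hq : q.Prime) (hpq : p < q) (hp' : p'.Prime)
    (hpq' : p' < q') (h : p * q = p' * q') : p' = p ∧ q' = q := by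
  have hdv : p' ∣ p * q := h ▸ Dvd.intro q' rfl
  rcases (Nat.Prime.dvd_mul hp').1 hdv with h1 | h1
  · have e1 : p' = p := (Nat.prime_dvd_prime_iff_eq hp' hp).1 h1
    subst e1
    exact ⟨rfl, (Nat.eq_of_mul_eq_mul_left hp'.pos h).symm⟩
  · have e1 : p' = q := (Nat.prime_dvd_prime_iff_eq hp' hq).1 h1
    subst e1
    rw [mul_comm] at h
    have e2 := Nat.eq_of_mul_eq_mul_left hp'.pos h
    omega

theorem euniq (d p q : ℕ) [NeZero d] (hp : p.Prime) (hq : q.Prime) (hpq : p < q) (hd : d = p * q)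
    (e e' : (ZMod d)ˣ) (he : e ∈ Kp d p) (heq : -1 * e ∈ Kp d q) (he' : e' ∈ Kp d p)
    (heq' : -1 * e' ∈ Kp d q) : e' = e := by
  have hd0 : d ≠ 0 := NeZero.ne d
  have hpd : p ∈ d.primeFactors := Nat.mem_primeFactors.2 ⟨hp, hd ▸ Dvd.intro q rfl, hd0⟩
  have hqd : q ∈ d.primeFactors := Nat.mem_primeFactors.2 ⟨hq, hd ▸ Dvd.intro_left p rfl, hd0⟩
  have hI := (pKpBas d).1 [p, q] (by simp [hpq.ne]) (by
    intro x hx
    simp only [List.mem_cons, List.not_mem_nil, or_false] at hx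
    rcases hx with rfl | rfl <;> assumption)
  have hD : Disjoint (Kp d p) (Kp d q) := by
    have := hI.1
    simpa [KS] using this
  have h1 : e' * e⁻¹ ∈ Kp d p := (Kp d p).mul_mem he' ((Kp d p).inv_mem he)
  have h2 : e' * e⁻¹ ∈ Kp d q := by
    have h3 := (Kp d q).mul_mem heq' ((Kp d q).inv_mem heq)
    have h4 : -1 * e' * (-1 * e)⁻¹ = e' * e⁻¹ := by
      rw [mul_inv]
      rw [mul_mul_mul_comm]
      rw [mul_inv_cancel, one_mul]
    rwa [h4] at h3
  have h5 : e' * e⁻¹ = 1 := by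
    have := (Subgroup.disjoint_def.1 hD) h1 h2
    exact this
  exact mul_inv_eq_one.1 h5

end SmStepAux

open SmStepAux in
theorem pSmStep (hTopG : S_TopG) (hDSm : S_DSm) (hStepGen : S_StepGen) (hInG : S_InG)
    (hGam : S_Gam) : S_SmStep := by
  intro m d _ hdm h2 h1 hd f hf hR hs
  haveI : NeZero d := ⟨by omega⟩
  by_cases hpar : ∀ p q : ℕ, p.Prime → q.Prime → p < q → d = p * q → ∀ e ∈ Kp d p,
      -1 * e ∈ Kp d q → (2 : ℤ) ∣ f (el m d 1) + f (el m d e)
  · obtain ⟨h, hh, heq, hsup⟩ := core hTopG hDSm hStepGen m d hdm h2 h1 hd f hf hR hs hpar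
    have hb := (hHoBas m h h).1 hh
    exact ⟨h, (hInG m h h).1 hh, hb.1, hb.2, heq, hsup⟩
  · have hex : ∃ p q : ℕ, p.Prime ∧ q.Prime ∧ p < q ∧ d = p * q ∧ ∃ e ∈ Kp d p,
        -1 * e ∈ Kp d q ∧ ¬ (2 : ℤ) ∣ f (el m d 1) + f (el m d e) := by
      by_contra hcon
      apply hpar
      intro p q hp hq hpq hdpq e he he'
      by_contra hne
      exact hcon ⟨p, q, hp, hq, hpq, hdpq, e, he, he', hne⟩
    obtain ⟨p, q, hp, hq, hpq, hdpq, e, he, he', hne⟩ := hex
    have hM : d = 15 ∨ d = 21 ∨ d = 33 ∨ d = 35 ∨ d = 39 := by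
      rw [hdpq] at h2 hd ⊢
      exact five p q hp hq hpq h2 hd
    obtain ⟨g, hg1, hg2, hg3, hg4, hg5⟩ := hGam m d hdm hM
    have hgn := hg5 p q hp hq hpq hdpq e he he'
    obtain ⟨h, hh, heq, hsup⟩ := core hTopG hDSm hStepGen m d hdm h2 h1 hd (fun x => f x - g x)
      (fun x => by
        show f (-x) - g (-x) = -(f x - g x)
        rw [hf, hg2]; ring)
      (fun t => by rw [P_sub, hR t, hg3 t, sub_zero])
      (fun x hx hdx => by
        by_cases hfx : f x = 0
        · have hgx : g x ≠ 0 := by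
            intro h0
            apply hx
            show f x - g x = 0
            rw [hfx, h0, sub_zero]
          exact Nat.dvd_antisymm (hg4 x hgx) hdx
        · exact hs x hfx hdx)
      (fun p' q' hp' hq' hpq' hdpq' e1 he1 he1' => by
        obtain ⟨rfl, rfl⟩ := uniq p q p' q' hp hq hpq hp' hpq' (hdpq ▸ hdpq')
        have hee := euniq d p' q' hp hq hpq hdpq e e1 he he' he1 he1'
        subst hee
        show (2 : ℤ) ∣ f (el m d 1) - g (el m d 1) + (f (el m d e1) - g (el m d e1))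
        omega)
    have hb := (hHoBas m h h).1 hh
    refine ⟨fun x => h x + g x, (hInG m h g).2.1 ((hInG m h h).1 hh) hg1, ?_, ?_, ?_, ?_⟩
    · intro x
      show h (-x) + g (-x) = -(h x + g x)
      rw [hb.1, hg2]; ring
    · intro t
      rw [P_add, hb.2 t, hg3 t, add_zero]
    · intro x hx
      show h x + g x = f x
      rw [heq x hx]
      ring
    · intro x hx
      by_cases hhx : h x = 0
      · apply hg4 x
        intro h0
        apply hx
        show h x + g x = 0
        rw [hhx, h0, add_zero]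
      · exact hsup x hhx

end Pool.Agent.FO
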