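import Pool.Agent.Lib.MP_640417_ag.FO.Defs

/-!
# Theorem FO, part B: finite abelian groups (note 4086, B1 and B2)

Every `S_X : Prop` is to be proved as `theorem pX : S_X` or from the stated hypotheses.
-/

set_option autoImplicit false

noncomputable section

namespace Pool.Agent.FO

open Finset Pool.Agent.FC

/-- Basic facts on `sK` and `T`: membership; sums over a subgroup are invariant under translation by elements of the
subgroup; `T` is additive, commutes with translations and with the other operators `T`; `T_K F = 0` if and only if `F` is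
`K`-invariant (if `T_K F = 0` then `|K| F(a) = ∑_{x ∈ K} F(x a)` for all `a`, and the right side is `K`-invariant; `|K| > 0`).
All proofs are direct (`Finset.sum_bij` with `x ↦ x k`, `Finset.sum_comm`). -/
def S_TBas : Prop := ∀ (G : Type) [CommGroup G] [Fintype G] (K L : Subgroup G) (F F' : G → ℤ),
  (∀ k, k ∈ sK K ↔ k ∈ K) ∧
  (0 < (sK K).card) ∧
  (∀ k ∈ K, ∀ a, ∑ x ∈ sK K, F (x * (k * a)) = ∑ x ∈ sK K, F (x * a)) ∧
  (T K (fun a => F a + F' a) = fun a => T K F a + T K F' a) ∧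
  (T K (fun a => F a - F' a) = fun a => T K F a - T K F' a) ∧
  (∀ g : G, T K (fun a => F (g * a)) = fun a => T K F (g * a)) ∧
  (T K (T L F) = T L (T K F)) ∧
  (T K F = 0 ↔ ∀ k ∈ K, ∀ a, F (k * a) = F a) ∧
  (∀ c : ℤ, T K (fun a => c * F a) = fun a => c * T K F a) ∧
  (T K (fun _ => 0) = fun _ => 0)

/-- The same for `Tl` (induction on the list, generalizing the function, from `S_TBas`). -/
def S_TlBas : Prop := ∀ (G : Type) [CommGroup G] [Fintype G] (K : ℕ → Subgroup G) (l : List ℕ) (L : Subgroup G)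
    (F F' : G → ℤ),
  (Tl K l (fun a => F a + F' a) = fun a => Tl K l F a + Tl K l F' a) ∧
  (Tl K l (fun a => F a - F' a) = fun a => Tl K l F a - Tl K l F' a) ∧
  (∀ g : G, Tl K l (fun a => F (g * a)) = fun a => Tl K l F (g * a)) ∧
  (Tl K l (T L F) = T L (Tl K l F)) ∧
  (∀ c : ℤ, Tl K l (fun a => c * F a) = fun a => c * Tl K l F a) ∧
  (Tl K l (fun _ => 0) = fun _ => 0)

/-- `Tl K l F (a)` depends only on the values of `F` on the coset `KS K l * a`. (Induction on `l`, generalizing `F, F', a`: for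
`i :: l` the functions `T (K i) F` and `T (K i) F'` agree on `KS K l * a` because `K i * KS K l ⊆ KS K (i :: l)`.) -/
def S_TlLoc : Prop := ∀ (G : Type) [CommGroup G] [Fintype G] (K : ℕ → Subgroup G) (l : List ℕ)
    (F F' : G → ℤ) (a : G), (∀ b ∈ KS K l, F (b * a) = F' (b * a)) → Tl K l F a = Tl K l F' a

/-- Sums over the product of two subgroups with trivial intersection. (`(x, b) ↦ x b` is a bijection from `K × L` to
`K ⊔ L`: `Subgroup.mem_sup`, and `x b = x' b'` gives `x'⁻¹ x = b' b⁻¹ ∈ K ⊓ L = ⊥`.) -/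
def S_SumKK : Prop := ∀ (G : Type) [CommGroup G] [Fintype G] (K L : Subgroup G), Disjoint K L →
  ∀ F : G → ℤ, ∑ b ∈ sK (K ⊔ L), F b = ∑ x ∈ sK K, ∑ b ∈ sK L, F (x * b)

/-- **Lemma Min** (B1).  Induction on `l`, generalizing `a` (and `H`).
`l = []`: `KS = ⊥`, the hypothesis at `b = 1` gives `H a = 0`, contradiction.
`l = r :: l'`, `D = Tl K l'`, `K_r = K r`, `L = KS K l'`. By `S_SumKK` the sum is `∑_{x ∈ K_r} ∑_{b ∈ L} |H(x b a)|`.
Case 1: for every `x ∈ K_r` there is `b ∈ L` with `H(x b a) ≠ 0`. Then every inner sum is `≥ 1`, so the sum is `≥ |K_r|`; take `i = r`.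
Case 2: there is `k0 ∈ K_r` with `H(k0 b a) = 0` for all `b ∈ L`. Put `A(c) = ∑_{k ∈ K_r} H(k c)`, a `K_r`-invariant function, so
`T_{K_r} H = |K_r| H - A`. The hypothesis is `D(T_{K_r} H)(c) = 0` for all `c ∈ K_r L a`, that is (linearity)
`|K_r| D H (c) = D A (c)`.  At `c = k0 b a`, `b ∈ L`: `D H (c) = 0` by `S_TlLoc` (as `H` vanishes on `L c`), so `D A (k0 b a) = 0`, and
`D A (b a) = D A (k0 b a) = 0` (`D` commutes with translations and `A` is `K_r`-invariant). So `|K_r| D H (b a) = 0` for `b ∈ L`, and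
the induction hypothesis for `l'`, `H`, `a` gives `i ∈ l'` with `|K i| ≤ ∑_{b ∈ L} |H(b a)| ≤` the whole sum (the term `x = 1`).
Hypotheses you may use: `S_TBas`, `S_TlBas`, `S_TlLoc`, `S_SumKK`. -/
def S_Min : Prop := ∀ (G : Type) [CommGroup G] [Fintype G] (K : ℕ → Subgroup G) (l : List ℕ), Ind K l →
  ∀ (H : G → ℤ) (a : G), (∀ b ∈ KS K l, Tl K l H (b * a) = 0) → H a ≠ 0 →
    ∃ i ∈ l, ((sK (K i)).card : ℤ) ≤ ∑ b ∈ sK (KS K l), |H (b * a)|

/-- **Slices** (first half of B2).  Let `s = |K r|`, `L = KS K l`, `ν(x) = ∑_{b ∈ L} |F(x b a)|` for `x ∈ K r`. By `S_SumKK`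
`∑_{x ∈ K r} ν(x) = ∑_{c ∈ K r ⊔ L} |F(c a)| ≤ nm F` (the map `c ↦ c a` is injective). Choose `x0 ∈ K r` with minimal `e = ν(x0)`:
`s e ≤ nm F`. Let `B` be the set of the `x ∈ K r` with `F(x b a) ≠ F(x0 b a)` for some `b ∈ L`. For `x ∈ B` put
`H(c) = F(x c) - F(x0 c)`. `Tl K l F` is `K r`-invariant (`T_{K r} (Tl K l F) = Tl K (r :: l) F = 0`, `S_TBas`), so `Tl K l H = 0`, and by
`S_Min` (at the point `b a`, with `KS K l (b a) = KS K l a`) there is `j ∈ l` with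
`|K j| ≤ ∑_{b ∈ L} |H(b a)| ≤ ν(x) + e`. Let `σ` be the least `|K j|`, `j ∈ l` (attained at `j0`). So `ν(x) ≥ σ - e` on `B` and `≥ e` elsewhere:
`|B| (σ - e) + (s - |B|) e ≤ nm F`, and `2 (n+2) nm F < n s σ`. From `2 (n+2) s e ≤ 2 (n+2) nm F < n s σ`: `2 (n+2) e < n σ`, so
`2 e < σ`. If `2 (n+2) |B| ≥ n s` then `n s (σ - 2 e) + 2 (n+2) s e ≤ 2 (n+2) (|B| (σ - 2e) + s e) ≤ 2 (n+2) nm F < n s σ`, so
`4 s e < 0`, a contradiction.
Hypotheses you may use: `S_TBas`, `S_TlBas`, `S_SumKK`, `S_Min`. -/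
def S_Slice : Prop := ∀ (G : Type) [CommGroup G] [Fintype G] (K : ℕ → Subgroup G) (r : ℕ) (l : List ℕ), l ≠ [] →
  Ind K (r :: l) → ∀ (n : ℤ), 1 ≤ n → ∀ F : G → ℤ, Tl K (r :: l) F = 0 →
    (∀ j ∈ l, 2 * (n + 2) * nm F < n * ((sK (K r)).card * (sK (K j)).card)) →
    ∀ a : G, ∃ x0 ∈ K r, ∃ B : Finset G, B ⊆ sK (K r) ∧ 2 * (n + 2) * (B.card : ℤ) < n * (sK (K r)).card ∧
      ∀ x ∈ K r, x ∉ B → ∀ b ∈ KS K l, F (x * b * a) = F (x0 * b * a)

/-- **Norm inequality** (B2): if `E` is `K`-invariant and agrees with `F` at most points of every `K`-orbit then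
`2 |E| + (n+2) |F - E| ≤ (n+2) |F|`.  Proof: fix `a`, `v = E a = E(x a)` for `x ∈ K`, `s = |K|`, `w = |B|`. For `x ∉ B`:
`|F(x a)| = |v|` and `F(x a) - E(x a) = 0`; for `x ∈ B`: `|F(x a)| ≥ |F(x a) - v| - |v|`. So
`∑_{x ∈ K} |F(x a)| ≥ (s - 2 w) |v| + ∑_{x ∈ K} |F(x a) - E(x a)|`, and `(n+2) (s - 2 w) ≥ 2 s`. Hence
`2 ∑_x |E(x a)| + (n+2) ∑_x |F(x a) - E(x a)| ≤ (n+2) ∑_x |F(x a)|`; sum over all `a ∈ G` (`∑_a ∑_{x ∈ K} g(x a) = |K| ∑_a g(a)`) and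
divide by `|K|`. -/
def S_NormIneq : Prop := ∀ (G : Type) [CommGroup G] [Fintype G] (K : Subgroup G) (n : ℤ), 1 ≤ n →
  ∀ F E : G → ℤ, (∀ k ∈ K, ∀ a, E (k * a) = E a) →
    (∀ a, ∃ B : Finset G, B ⊆ sK K ∧ 2 * (n + 2) * (B.card : ℤ) < n * (sK K).card ∧
      ∀ x ∈ K, x ∉ B → F (x * a) = E a) →
    2 * nm E + (n + 2) * nm (fun a => F a - E a) ≤ (n + 2) * nm F

/-- **Majority value** (B2).  By `S_Slice` choose for every `a` an element `x0(a) ∈ K r` and `B(a)`; put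
`E(a) = F(x0(a) a)` (`b = 1` in `S_Slice`). `E(a)` is the unique `v` such that `F(x a) = v` for all `x ∈ K r` outside a set `B` with
`2 (n+2) |B| < n |K r|` (two such sets do not cover `K r` because `2 |B| < |K r|`).  By uniqueness `E(k a) = E(a)` for `k ∈ K r` (translate `B`) and
`E(ε a) = -E(a)`.  For `b ∈ KS K l`: `F(x b a) = F(x0(a) b a)` for `x ∉ B(a)`, so `E(b a) = F(x0(a) b a)`. Hence by `S_TlLoc`
`Tl K l E (a) = Tl K l (F(x0(a) .)) (a) = Tl K l F (x0(a) a) = Tl K l F (a)`, the last step because `Tl K l F` is `K r`-invariant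
(`T_{K r} (Tl K l F) = Tl K (r :: l) F = 0`).  The inequality is `S_NormIneq`.
Hypotheses you may use: `S_TBas`, `S_TlBas`, `S_TlLoc`, `S_Slice`, `S_NormIneq`. -/
def S_Maj : Prop := ∀ (G : Type) [CommGroup G] [Fintype G] (K : ℕ → Subgroup G) (r : ℕ) (l : List ℕ), l ≠ [] →
  Ind K (r :: l) → ∀ (ε : G) (n : ℤ), 1 ≤ n → ∀ F : G → ℤ, (∀ a, F (ε * a) = -F a) → Tl K (r :: l) F = 0 →
    (∀ j ∈ l, 2 * (n + 2) * nm F < n * ((sK (K r)).card * (sK (K j)).card)) →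
    ∃ E : G → ℤ, (∀ a, E (ε * a) = -E a) ∧ (∀ k ∈ K r, ∀ a, E (k * a) = E a) ∧
      Tl K l (fun a => F a - E a) = 0 ∧
      2 * nm E + (n + 2) * nm (fun a => F a - E a) ≤ (n + 2) * nm F

/-- **Lemma Dec** (B2).  Induction on `l`, generalizing `F`. `l = []`: `F = 0`, `E = 0`. `l = [r]`: `T_{K r} F = 0`, so `F` is
`K r`-invariant, `E r = F`, and `2 |F| ≤ (n+2) |F|`. `l = r :: l'` with `l' ≠ []`: `S_Maj` gives `E r`; `H = F - E r` is odd,
`Tl K l' H = 0`, `nm H ≤ nm F` (from the last inequality of `S_Maj`), so the induction hypothesis gives the `E i`, `i ∈ l'`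
(`r ∉ l'` by `Nodup`), and `2 nm (E r) + 2 ∑ nm (E i) ≤ (n+2) nm F - (n+2) nm H + (n+2) nm H`.
Hypotheses you may use: `S_TBas`, `S_Maj`. -/
def S_Dec : Prop := ∀ (G : Type) [CommGroup G] [Fintype G] (K : ℕ → Subgroup G) (l : List ℕ), l.Nodup → Ind K l →
  ∀ (ε : G) (n : ℤ), 1 ≤ n → ∀ F : G → ℤ, (∀ a, F (ε * a) = -F a) → Tl K l F = 0 →
    (∀ i ∈ l, ∀ j ∈ l, i ≠ j → 2 * (n + 2) * nm F < n * ((sK (K i)).card * (sK (K j)).card)) →
    ∃ E : ℕ → G → ℤ, (∀ i ∈ l, (∀ a, E i (ε * a) = -E i a) ∧ ∀ k ∈ K i, ∀ a, E i (k * a) = E i a) ∧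
      (∀ a, F a = ∑ i ∈ l.toFinset, E i a) ∧ 2 * ∑ i ∈ l.toFinset, nm (E i) ≤ (n + 2) * nm F

end Pool.Agent.FO
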