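import Pool.Agent.Lib.MP_640417_ag.FO.TBas
import Pool.Agent.Lib.MP_640417_ag.FO.TlBas
import Pool.Agent.Lib.MP_640417_ag.FO.TlLoc
import Pool.Agent.Lib.MP_640417_ag.FO.SumKK
import Pool.Agent.Lib.MP_640417_ag.FO.Min

/-!
# Theorem FG (sharp form of FO, odd degrees), part G: finite abelian groups

Every `S_X : Prop` is to be proved as `theorem pX : S_X` or from the stated hypotheses. The proved facts
`gTBas, gTlBas, gTlLoc, pSumKK, gMin` may be used directly.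
-/

set_option autoImplicit false

noncomputable section

namespace Pool.Agent.FO

open Finset Pool.Agent.FC

theorem gTBas : S_TBas := pTBas
theorem gTlBas : S_TlBas := pTlBas gTBas
theorem gTlLoc : S_TlLoc := pTlLoc gTBas
theorem gMin : S_Min := pMin gTBas gTlBas gTlLoc pSumKK

/-- the sum of `|F|` over the coset `K a` -/
def cn {G : Type} [Group G] [Fintype G] (K : Subgroup G) (F : G → ℤ) (a : G) : ℤ := ∑ b ∈ sK K, |F (b * a)|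

/-- `1` for odd `k`, `2` for even `k` -/
def co (k : ℕ) : ℤ := if k % 2 = 1 then 1 else 2

/-- the cost of a `K`-invariant function -/
def ct {G : Type} [Group G] [Fintype G] (K : Subgroup G) (E : G → ℤ) : ℚ :=
  (co (sK K).card : ℚ) / (sK K).card * nm E

/-- the indicator function of the coset `K a` -/
def ix {G : Type} [Group G] (K : Subgroup G) (a x : G) : ℤ := by
  classical
  exact if x * a⁻¹ ∈ K then 1 else 0

/-! ## Coset norms -/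

/-- Basic facts on `cn`.  (3) translate by `k ∈ K` (`S_TBas`, third part). (4) `sK K ⊆ sK L`. (5) injectivity of `b ↦ b a`.
(6) `∑_a ∑_{b ∈ K} |F(b a)| = ∑_{b ∈ K} ∑_a |F(b a)|`. (7) `cn L F a = (1 / |K|) ∑_{c ∈ L} cn K F (c a)` because
`∑_{c ∈ L} ∑_{b ∈ K} |F(b c a)| = ∑_{b ∈ K} ∑_{c ∈ L} |F(b c a)| = |K| ∑_{c ∈ L} |F(c a)|` (`b ∈ L`, translation). (8) from (6) (or (7) for
`L = ⊤`). (9) `F(τ a)`: `b τ a = τ b a`. -/
def S_CnBas : Prop := ∀ (G : Type) [CommGroup G] [Fintype G] (K L : Subgroup G) (F H : G → ℤ),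
  (∀ a, 0 ≤ cn K F a) ∧
  (∀ a, |F a| ≤ cn K F a) ∧
  (∀ k ∈ K, ∀ a, cn K F (k * a) = cn K F a) ∧
  (K ≤ L → ∀ a, cn K F a ≤ cn L F a) ∧
  (∀ a, cn K F a ≤ nm F) ∧
  (∑ a, cn K F a = (sK K).card * nm F) ∧
  (K ≤ L → (∀ a, cn K H a ≤ cn K F a) → ∀ a, cn L H a ≤ cn L F a) ∧
  ((∀ a, cn K H a ≤ cn K F a) → nm H ≤ nm F) ∧
  (∀ (τ : G) (s : ℤ), |s| = 1 → (∀ a, F (τ * a) = s * F a) → ∀ a, cn K F (τ * a) = cn K F a)

/-- **Sums over different cosets.**  First part: the sets `K a`, `a ∈ A`, are disjoint subsets of `G` (if `b a = b' a'` with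
`b, b' ∈ K` then `a' a⁻¹ ∈ K`). Second part: the same inside the coset `L c`: the `K a`, `a ∈ A`, are disjoint subsets of `L c`
(`a = a c⁻¹ c`). -/
def S_CnSum : Prop := ∀ (G : Type) [CommGroup G] [Fintype G] (K : Subgroup G) (F : G → ℤ) (A : Finset G),
  (∀ a ∈ A, ∀ b ∈ A, a ≠ b → b * a⁻¹ ∉ K) →
  ∑ a ∈ A, cn K F a ≤ nm F ∧
  ∀ (L : Subgroup G) (c : G), K ≤ L → (∀ a ∈ A, a * c⁻¹ ∈ L) → ∑ a ∈ A, cn K F a ≤ cn L F c

/-! ## The strict majority -/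

/-- **Slices.**  Adapt the proof of `pSlice` (file `FO/Slice.lean`): there the hypothesis is with the parameter `n` and the total norm
`nm F`. Let `s = |K r|`, `L = KS K l`, `ν(x) = ∑_{b ∈ L} |F(x b a)|` for `x ∈ K r`. By `pSumKK` `∑_{x ∈ K r} ν(x) = cn (K r ⊔ L) F a =: N`
(`KS K (r :: l) = K r ⊔ KS K l`). Choose `x0 ∈ K r` with minimal `e = ν(x0)`: `s e ≤ N`. Let `B` be the set of the `x ∈ K r` with
`F(x b a) ≠ F(x0 b a)` for some `b ∈ L`, and `σ` the least `|K j|`, `j ∈ l`. As in `pSlice` (`gMin`): `σ ≤ ν(x) + e` for `x ∈ B`. So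
`|B| (σ - 2 e) + s e ≤ N`, `2 N < s σ`. From `2 s e ≤ 2 N < s σ`: `2 e < σ`. If `2 |B| ≥ s` then
`s (σ - 2 e) + 2 s e ≤ 2 |B| (σ - 2 e) + 2 s e ≤ 2 N < s σ`, a contradiction. -/
def S_SliceG : Prop := ∀ (G : Type) [CommGroup G] [Fintype G] (K : ℕ → Subgroup G) (r : ℕ) (l : List ℕ), l ≠ [] →
  Ind K (r :: l) → ∀ F : G → ℤ, Tl K (r :: l) F = 0 → ∀ a : G,
    (∀ j ∈ l, 2 * cn (KS K (r :: l)) F a < (sK (K r)).card * (sK (K j)).card) →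
    ∃ x0 ∈ K r, ∃ B : Finset G, B ⊆ sK (K r) ∧ 2 * B.card < (sK (K r)).card ∧
      (∀ x ∈ K r, x ∉ B → ∀ b ∈ KS K l, F (x * b * a) = F (x0 * b * a)) ∧
      ((sK (K r)).card : ℤ) * ∑ b ∈ sK (KS K l), |F (x0 * b * a)| ≤ cn (KS K (r :: l)) F a

/-- **Strict majority value.**  Adapt the proof of `pMaj` (file `FO/Maj.lean`). By `S_SliceG` choose for every `a` an element
`x0(a)` and `B(a)`, put `E(a) = F(x0(a) a)`: the unique `v` such that `F(x a) = v` for all `x ∈ K r` outside a set `B` with `2 |B| < |K r|` (two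
such sets do not cover `K r`). Uniqueness gives the `K r`-invariance, `E(b a) = F(x0(a) b a)` for `b ∈ KS K l`, and `E(τ a) = s E(a)` if
`F(τ a) = s F(a)` for all `a`. `Tl K l E (a) = Tl K l F (a)` as in `pMaj`.
Third conclusion: let `v = E a = E(x a)`, `w = |B(a)|`, `κ = |K r|`: for `x ∉ B`: `|F(x a)| = |v|`, `F(x a) - E(x a) = 0`; for `x ∈ B`:
`|F(x a)| ≥ |F(x a) - v| - |v|`. So `cn (K r) F a ≥ (κ - 2 w) |v| + cn (K r) (F - E) a`, and `κ - 2 w ≥ co κ` (it is `≥ 1` and has the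
parity of `κ`).
Fourth conclusion: `cn (K r ⊔ KS K l) E a = ∑_{x ∈ K r} ∑_{b ∈ KS K l} |E(x b a)| = |K r| ∑_b |E(b a)| = |K r| ∑_b |F(x0 b a)|`
(`pSumKK`). Hypotheses you may use: `S_SliceG`. -/
def S_MajG : Prop := ∀ (G : Type) [CommGroup G] [Fintype G] (K : ℕ → Subgroup G) (r : ℕ) (l : List ℕ), l ≠ [] →
  Ind K (r :: l) → ∀ F : G → ℤ, Tl K (r :: l) F = 0 →
    (∀ a, ∀ j ∈ l, 2 * cn (KS K (r :: l)) F a < (sK (K r)).card * (sK (K j)).card) →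
    ∃ E : G → ℤ, (∀ k ∈ K r, ∀ a, E (k * a) = E a) ∧
      Tl K l (fun a => F a - E a) = 0 ∧
      (∀ a, co (sK (K r)).card * |E a| + cn (K r) (fun x => F x - E x) a ≤ cn (K r) F a) ∧
      (∀ a, cn (KS K (r :: l)) E a ≤ cn (KS K (r :: l)) F a) ∧
      ∀ (τ : G) (s : ℤ), (∀ a, F (τ * a) = s * F a) → ∀ a, E (τ * a) = s * E a

/-- **Stripping.**  Induction on `lb`, generalizing `F`. `lb = []`: `H = F`, `E = 0`. `lb = r :: lb'`, `rest = lb' ++ ls`. If `rest = []`: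
`T_{K r} F = 0`, so `F` is `K r`-invariant; `E r = F`, `H = 0`, and `ct (K r) F ≤ nm F` because `co κ ≤ κ` for `κ ≥ 1`. If `rest ≠ []`:
`S_MajG` (`2 cn ≤ 2 B < |K r| |K j|`) gives `E r`, `F1 = F - E r` is odd, `Tl K rest F1 = 0`. The third conclusion of `S_MajG` gives
`cn (K r) F1 a ≤ cn (K r) F a`, so (`S_CnBas`) `cn (KS K (r :: rest)) F1 a ≤ cn (KS K (r :: rest)) F a ≤ B` and
`cn (KS K rest) F1 a ≤ B`; its sum over all `a` (`S_CnBas` (6)) gives `co κ nm (E r) + κ nm F1 ≤ κ nm F`, that is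
`ct (K r) (E r) + nm F1 ≤ nm F`. Induction hypothesis for `F1`; put the functions together (`r ∉ lb'`). `ε`-oddness of `E r`: the last
conclusion of `S_MajG` with `s = -1`.
Hypotheses you may use: `S_CnBas`, `S_MajG`. -/
def S_StripG : Prop := ∀ (G : Type) [CommGroup G] [Fintype G] (K : ℕ → Subgroup G) (lb ls : List ℕ),
  (lb ++ ls).Nodup → Ind K (lb ++ ls) → ∀ (ε : G) (B : ℤ) (F : G → ℤ), (∀ a, F (ε * a) = -F a) →
    Tl K (lb ++ ls) F = 0 → (∀ a, cn (KS K (lb ++ ls)) F a ≤ B) →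
    (∀ r ∈ lb, ∀ j ∈ lb ++ ls, r ≠ j → 2 * B < (sK (K r)).card * (sK (K j)).card) →
    ∃ (E : ℕ → G → ℤ) (H : G → ℤ),
      (∀ i ∈ lb, (∀ a, E i (ε * a) = -E i a) ∧ ∀ k ∈ K i, ∀ a, E i (k * a) = E i a) ∧
      (∀ a, H (ε * a) = -H a) ∧ Tl K ls H = 0 ∧
      (∀ a, F a = ∑ i ∈ lb.toFinset, E i a + H a) ∧
      ∑ i ∈ lb.toFinset, ct (K i) (E i) + nm H ≤ nm F

/-! ## Two subgroups -/

/-- **Glueing.**  Let `M' = M ⊔ ⟨ε⟩`; since `ε² = 1`, `x ∈ M'` if and only if `x ∈ M` or `ε x ∈ M`, and not both because `ε ∉ M`. Let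
`r(a)` be a representative of the class of `a` in `G ⧸ M'` (`Quotient.out`), so `r(ε a) = r(a)`, `r(b a) = r(a)` for `b ∈ M`. Put
`E(a) = e (r a) a` if `a (r a)⁻¹ ∈ M`, and `E(a) = -e (r a) (ε a)` otherwise (then `ε a (r a)⁻¹ ∈ M`). -/
def S_Glue : Prop := ∀ (G : Type) [CommGroup G] [Fintype G] (M : Subgroup G) (ε : G), ε * ε = 1 → ε ∉ M →
  ∀ e : G → G → ℤ × ℤ, ∃ E : G → ℤ × ℤ, (∀ a, E (ε * a) = -E a) ∧
    ∀ a, ∃ r : G, (a * r⁻¹ ∈ M ∧ ∀ b ∈ M, E (b * a) = e r (b * a)) ∨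
      (ε * a * r⁻¹ ∈ M ∧ ∀ b ∈ M, E (b * a) = -e r (ε * (b * a)))

/-- **Two subgroups, one coset.**  `T_K (T_L H) = 0`, so `T_L H` is `K`-invariant, so for `x ∈ K` the function
`c ↦ H(x c) - H(c)` is `L`-invariant (`S_TBas`). Let `ν(x) = ∑_{b ∈ L} |H(x b a)|`, `∑_{x ∈ K} ν(x) = cn (K ⊔ L) H a` (`pSumKK`). For `x0 ∈ K` put
`E1(x b a) = H(x0 b a)`, `E2(x b a) = c_x := H(x b a) - H(x0 b a)` (independent of
`b ∈ L`) for `x ∈ K`, `b ∈ L` (`x`, `b` are determined by `x b a`: `Disjoint K L`), and `0` outside of the coset. Then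
`cn (K ⊔ L) E1 a = |K| ν(x0)`, `cn (K ⊔ L) E2 a = |L| ∑_x |c_x|`. It remains to choose `x0` such that
`co |K| ν(x0) + co |L| ∑_x |c_x| ≤ ∑_x ν(x)`.  Let `x0` have minimal `e = ν(x0)`; `|K| e ≤ 2 |K|`, so `e ≤ 2`.
`ν(x) ≥ |L| |c_x| - e` (triangle inequality), `ν(x) ≥ e`. If `e = 0`: `ν(x) = |L| |c_x| ≥ co |L| |c_x|`. If `e = 1`:
`ν(x) ≥ co |L| |c_x| + 1` (clear for `c_x = 0`; for `c_x ≠ 0`: `|L| |c_x| - 1 ≥ (co |L| + 2) |c_x| - 1`), and the sum over `x` is at least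
`co |L| ∑ |c_x| + |K|`, `|K| ≥ 4 ≥ co |K|`. If `e = 2`: all `ν(x) = 2`. If `c_x ≠ 0` then `|L| |c_x| ≤ 4`, `|L| ≥ 3`, so `|c_x| = 1`; `|L| = 3` is impossible
(`ν(x) = ∑_b |g(b) + c_x|` has the parity of `ν(x0) + 3 c_x`), so `|L| = 4`, `g` takes the value `-c_x` at two points and `0` at the two others (`g(b) = H(x0 b a)`, `∑ |g| = 2`, `∑ |g + c_x| = 2`; four
integers), so `c_x` has the same value `c = ± 1` for all `x` with `c_x ≠ 0`; let `w` be the number of these `x`. If `2 w ≤ |K|`: the cost is at most `2 * 2 + 2 w ≤ 4 + |K| ≤ 2 |K|`. If `2 w > |K|`: take one of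
these `x` in place of `x0`: the new number is `|K| - w`. -/
def S_TwoL : Prop := ∀ (G : Type) [CommGroup G] [Fintype G] (K L : Subgroup G), Disjoint K L → 4 ≤ (sK K).card →
  co (sK L).card + 2 ≤ (sK L).card → ∀ H : G → ℤ, T K (T L H) = 0 → ∀ a, cn (K ⊔ L) H a ≤ 2 * (sK K).card →
    ∃ E1 E2 : G → ℤ, (∀ k ∈ K, ∀ b ∈ K ⊔ L, E1 (k * (b * a)) = E1 (b * a)) ∧
      (∀ k ∈ L, ∀ b ∈ K ⊔ L, E2 (k * (b * a)) = E2 (b * a)) ∧
      (∀ b ∈ K ⊔ L, H (b * a) = E1 (b * a) + E2 (b * a)) ∧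
      (co (sK K).card : ℚ) / (sK K).card * cn (K ⊔ L) E1 a +
        (co (sK L).card : ℚ) / (sK L).card * cn (K ⊔ L) E2 a ≤ cn (K ⊔ L) H a

/-- **Two subgroups.**  `S_TwoL` gives for every `r : G` a pair `e r = (E1, E2)`; glue them with `S_Glue` (`M = K ⊔ L`). The properties
hold on every coset `M a`: in the second case of `S_Glue` on `M a` the functions are `x ↦ -E_i(ε x)` with `ε x ∈ M r`, and
`H(x) = -H(ε x)`. For the costs: `cn M E a` and `cn M H a` are equal to those at `r` (translation by elements of `M` and by `ε`), so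
the inequality of `S_TwoL` holds for all `a`; sum over all `a` and `S_CnBas` (6), divide by `|M|`.
Hypotheses you may use: `S_CnBas`, `S_Glue`, `S_TwoL`. -/
def S_TwoP : Prop := ∀ (G : Type) [CommGroup G] [Fintype G] (K L : Subgroup G), Disjoint K L → 4 ≤ (sK K).card →
  co (sK L).card + 2 ≤ (sK L).card → ∀ ε : G, ε * ε = 1 → ε ∉ K ⊔ L → ∀ H : G → ℤ, (∀ a, H (ε * a) = -H a) →
    T K (T L H) = 0 → (∀ a, cn (K ⊔ L) H a ≤ 2 * (sK K).card) →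
    ∃ E1 E2 : G → ℤ, (∀ a, E1 (ε * a) = -E1 a) ∧ (∀ a, E2 (ε * a) = -E2 a) ∧
      (∀ k ∈ K, ∀ a, E1 (k * a) = E1 a) ∧ (∀ k ∈ L, ∀ a, E2 (k * a) = E2 a) ∧
      (∀ a, H a = E1 a + E2 a) ∧ ct K E1 + ct L E2 ≤ nm H

/-- **Two subgroups which generate the group.**  `-1 = ε = e1 e2`. `T_K (T_L F) = 0` gives `F(x y) = F(x) + F(y) - F(1)` for `x ∈ K`,
`y ∈ L` (`T_L F` is `K`-invariant, so `c ↦ F(x c) - F(c)` is `L`-invariant: its values at `y` and `1`). Put `2 s = F(1) + F(e1)`;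
`F(e1) = F(ε e2) = -F(e2)` (`e2² = 1`), so `2 s = F(1) - F(e2)`. Every element is `x y` with unique `x ∈ K`, `y ∈ L`; put
`E1(x y) = F(y) - F(1) + s`, `E2(x y) = F(x) - s`. Oddness: `ε x y = (e1 x)(e2 y)`;
`F(e1 x) = F(ε x e2) = -F(x e2) = -(F(x) + F(e2) - F(1))`, so `E2(ε x y) = -F(x) + 2 s - s = -E2(x y)`;
`F(e2 y) = -F(e1 y) = -(F(e1) + F(y) - F(1))`, so `E1(ε x y) = -F(e1) - F(y) + s = -F(y) + F(1) - s = -E1(x y)`. -/
def S_PairR : Prop := ∀ (G : Type) [CommGroup G] [Fintype G] (K L : Subgroup G), Disjoint K L → K ⊔ L = ⊤ →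
  ∀ e1 ∈ K, ∀ e2 ∈ L, e1 * e1 = 1 → e2 * e2 = 1 → ∀ F : G → ℤ, (∀ a, F (e1 * e2 * a) = -F a) →
    T K (T L F) = 0 → (2 : ℤ) ∣ F 1 + F e1 →
    ∃ E1 E2 : G → ℤ, (∀ a, E1 (e1 * e2 * a) = -E1 a) ∧ (∀ a, E2 (e1 * e2 * a) = -E2 a) ∧
      (∀ k ∈ K, ∀ a, E1 (k * a) = E1 a) ∧ (∀ k ∈ L, ∀ a, E2 (k * a) = E2 a) ∧ ∀ a, F a = E1 a + E2 a

/-- **Three subgroups.**  `ε = e1 e2 e3`, `K1 = {1, e1}`. Put `h(a) = F(a) - F(e1 a) = T_{K1} F (a)`; `h(ε a) = -h(a)`, `h(e1 a) = -h(a)`, so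
`h(τ a) = h(a)` for `τ = e2 e3`. `T_{K2} (T_{K3} h) = 0` (the operators commute), so `h(x y) = h(x) + h(y) - h(1)` for `x ∈ K2`, `y ∈ K3`.
For `x ∈ K2`: `h(x) = h(τ x) = h((e2 x) e3) = h(e2 x) + h(e3) - h(1)`; the same for `e2 x` in place of `x` gives `h(e3) = h(1)` and
`h(e2 x) = h(x)`. In the same way `h(e3 y) = h(y)` for `y ∈ K3`. Let `χ : G → {0, 1}` with `χ(x) + χ(e2 x) = 1` (`e2 ≠ 1`: with an injection
`φ` of `G` in `ℕ` put `χ(x) = 1` if `φ(x) < φ(e2 x)`), `χ'` the same for `e3`. Every element is `k x y` with unique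
`k ∈ K1 = {1, e1}`, `x ∈ K2`, `y ∈ K3`. Put `E3(x y) = χ(x) h(x)`, `E3(e1 x y) = -χ(e2 x) h(x)` (invariant under `K3`), and
`E2(x y) = χ'(y) (h(y) - h(1))`, `E2(e1 x y) = -χ'(e3 y) (h(y) - h(1))` (invariant under `K2`). They are odd:
`E3(ε x y) = E3(e1 (e2 x) (e3 y)) = -χ(x) h(e2 x) = -χ(x) h(x)`, and the same for the other cases. `E3(a) - E3(e1 a) = h(x)` and
`E2(a) - E2(e1 a) = h(y) - h(1)` for `a = x y`, so `E1 = F - E2 - E3` satisfies `E1(a) = E1(e1 a)`. -/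
def S_Three : Prop := ∀ (G : Type) [CommGroup G] [Fintype G] (K1 K2 K3 : Subgroup G), Disjoint K1 (K2 ⊔ K3) →
  Disjoint K2 K3 → K1 ⊔ (K2 ⊔ K3) = ⊤ → ∀ e1 e2 e3 : G, (∀ x, x ∈ K1 ↔ x = 1 ∨ x = e1) → e2 ∈ K2 → e3 ∈ K3 →
    e1 * e1 = 1 → e2 * e2 = 1 → e3 * e3 = 1 → e1 ≠ 1 → e2 ≠ 1 → e3 ≠ 1 →
    ∀ F : G → ℤ, (∀ a, F (e1 * (e2 * e3) * a) = -F a) → T K1 (T K2 (T K3 F)) = 0 →
    ∃ E1 E2 E3 : G → ℤ, (∀ a, E1 (e1 * (e2 * e3) * a) = -E1 a) ∧ (∀ a, E2 (e1 * (e2 * e3) * a) = -E2 a) ∧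
      (∀ a, E3 (e1 * (e2 * e3) * a) = -E3 a) ∧
      (∀ k ∈ K1, ∀ a, E1 (k * a) = E1 a) ∧ (∀ k ∈ K2, ∀ a, E2 (k * a) = E2 a) ∧
      (∀ k ∈ K3, ∀ a, E3 (k * a) = E3 a) ∧ ∀ a, F a = E1 a + E2 a + E3 a

/-! ## A subgroup of order two -/

/-- **Stripping without cost.**  Induction on `lb` (the hypotheses are those for `lb ++ ls`). `lb = r :: lb'`, `rest = lb' ++ ls`,
`M = KS K (r :: rest)`. CLAIM: if `E` is `K r`-invariant, `E(τ a) = E(a)`, `cn M E a ≤ 12` for all `a`, and `τ ∈ M` or `cn M E a ≤ 6` for all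
`a`, then `E = 0`. Suppose `E(a) ≠ 0`. Then `cn (K r) E a ≥ |K r| ≥ 10`. If `cn M E a ≤ 6`: contradiction (`S_CnBas` (4)). So `τ ∈ M`. If
`12 < |K r|`: contradiction. So `τ ∉ K r`, and the cosets `K r a`, `K r τ a` are different subsets of `M a`, so
`cn M E a ≥ cn (K r) E a + cn (K r) E (τ a) ≥ 20` (`S_CnSum` with `A = {a, τ a}`, `L = M`), a contradiction.
If `rest = []`: `T_{K r} h = 0`, `h` is `K r`-invariant, `h = 0` by the claim; `ls = []` and `Tl K [] h = h`. If `rest ≠ []`: `S_MajG`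
(`2 * 12 < 10 * 4`) gives `E` with `E(τ a) = E(a)` (`s = 1`) and `cn M E a ≤ cn M h a`; so `E = 0` and `Tl K rest h = 0`. For the induction: `cn (KS K rest) h a ≤
cn M h a ≤ 12`; if `τ ∉ KS K rest`: if `τ ∉ M` then `cn ≤ 6`; if `τ ∈ M`: the cosets of `a` and `τ a` with respect to `KS K rest` are different
subsets of `M a` with the same `cn` (`S_CnBas` (9)), so `2 cn (KS K rest) h a ≤ 12`.
Hypotheses you may use: `S_CnBas`, `S_CnSum`, `S_MajG`. -/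
def S_HBig : Prop := ∀ (G : Type) [CommGroup G] [Fintype G] (K : ℕ → Subgroup G) (τ : G) (lb ls : List ℕ),
  (lb ++ ls).Nodup → Ind K (lb ++ ls) → (∀ r ∈ lb, 10 ≤ (sK (K r)).card ∧ (τ ∉ K r ∨ 12 < (sK (K r)).card)) →
    (∀ j ∈ ls, 4 ≤ (sK (K j)).card) → ∀ h : G → ℤ, (∀ a, h (τ * a) = h a) → Tl K (lb ++ ls) h = 0 →
    (∀ a, cn (KS K (lb ++ ls)) h a ≤ 12) → (τ ∈ KS K (lb ++ ls) ∨ ∀ a, cn (KS K (lb ++ ls)) h a ≤ 6) →
    Tl K ls h = 0 ∧ (τ ∈ KS K ls ∨ ∀ a, cn (KS K ls) h a ≤ 6)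

/-- **Small relations.**  For `ls = []`: `h = 0`. For `ls = [j]`: `T_{K j} h = 0`, `h` is `K j`-invariant, `|h a| |K j| ≤ 6`, `|K j| ≥ 4`, so
`h a ∈ {0, ± 1}` and in the second case `h(b a) = ± 1` for `b ∈ K j`: `c = 1`. For `ls = [i, j]`, `6 ≤ |K i|`, `4 ≤ |K j|`: `T_{K j}(T_{K i} h) = 0`, `T_{K j} h` is `K i`-invariant, so for
`x, x' ∈ K i` the function `b ↦ h(x b a) - h(x' b a)` is constant on `K j`, its norm is a multiple of `|K j| ≥ 4`. Let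
`ν(x) = ∑_{b ∈ K j} |h(x b a)|`, `∑_{x ∈ K i} ν(x) = cn (K i ⊔ K j) h a ≤ 6`. CASE 1: `ν(x0) = 0` for some `x0`. Then `h(x b a) = c_x` for all `b ∈ K j`,
`|K j| ∑ |c_x| ≤ 6`, so at most one `c_x` is not zero, and it is `± 1`: `h(b a) = ± ix (K j) (x a) (b a)` on the coset. CASE 2: all
`ν(x) ≥ 1`; then `|K i| = 6` and all `ν(x) = 1`. The difference of two slices has norm `≤ 2 < 4`, so all slices are equal:
`h(x b a) = ± 1` for `b = b0` and `0` otherwise: `h(b a) = ± ix (K i) (b0 a) (b a)`. -/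
def S_HLoc : Prop := ∀ (G : Type) [CommGroup G] [Fintype G] (K : ℕ → Subgroup G) (ls : List ℕ), Ind K ls →
  (ls = [] ∨ (∃ j, ls = [j] ∧ 4 ≤ (sK (K j)).card) ∨
    ∃ i j, ls = [i, j] ∧ 6 ≤ (sK (K i)).card ∧ 4 ≤ (sK (K j)).card) →
    ∀ h : G → ℤ, Tl K ls h = 0 → ∀ a, cn (KS K ls) h a ≤ 6 →
    (∀ b ∈ KS K ls, h (b * a) = 0) ∨ ∃ p ∈ ls, ∃ c ∈ KS K ls, ∃ s : ℤ, |s| = 1 ∧
      ∀ b ∈ KS K ls, h (b * a) = s * ix (K p) (c * a) (b * a)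

/-- **Classification.**  `M = KS K ls`; `ε, κ, ε κ ∉ M`, so for every `a` the cosets of `a, ε a, κ a, ε κ a` are different (`ε² = κ² = 1`).
`|h|` is invariant under `ε` and `κ`, so `4 cn M h a ≤ nm h ≤ 24` (`S_CnSum`), `cn M h a ≤ 6`, and `S_HLoc` applies to all `a`. If `h ≠ 0` choose
`a` with `h a ≠ 0`: second case, `h = s ix (K p) a1` on `M a` with `a1 = c a`. On `M ε a`, `M κ a`, `M ε κ a` by
`h(ε x) = -h(x)`, `h(κ x) = -h(x)` (for `x ∈ M a`: `ix K (ε a1) (ε x) = ix K a1 x`). If `h b ≠ 0` for a `b` in another coset, then also for the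
four cosets of `b`, different from the first four, and all eight have `cn ≥ 4` (`S_HLoc`: `cn = |K p| ≥ 4`), so `nm h ≥ 32`, a
contradiction. So `h` is the function in the statement everywhere (its four terms vanish outside of the four cosets; `K p ≤ M`).
`nm h = 4 |K p|`.
Hypotheses you may use: `S_CnBas`, `S_CnSum`, `S_HLoc`. -/
def S_HCls : Prop := ∀ (G : Type) [CommGroup G] [Fintype G] (K : ℕ → Subgroup G) (ls : List ℕ), Ind K ls →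
  (ls = [] ∨ (∃ j, ls = [j] ∧ 4 ≤ (sK (K j)).card) ∨
    ∃ i j, ls = [i, j] ∧ 6 ≤ (sK (K i)).card ∧ 4 ≤ (sK (K j)).card) →
    ∀ ε κ : G, ε * ε = 1 → κ * κ = 1 → ε ∉ KS K ls → κ ∉ KS K ls → ε * κ ∉ KS K ls →
    ∀ h : G → ℤ, (∀ a, h (ε * a) = -h a) → (∀ a, h (κ * a) = -h a) → Tl K ls h = 0 → nm h ≤ 24 →
    h = 0 ∨ ∃ p ∈ ls, ∃ (a : G) (s : ℤ), |s| = 1 ∧ nm h = 4 * (sK (K p)).card ∧
      ∀ x, h x = s * (ix (K p) a x - ix (K p) (ε * a) x - ix (K p) (κ * a) x + ix (K p) (ε * κ * a) x)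

/-- **Subgroup of order two.**  `T_{K3} F (a) = F(a) - F(κ a) =: h(a)`. `nm h ≤ 2 nm F ≤ 24`. If `h = 0` take `E = 0` (first case). Otherwise
`h x = s (ix a x - ix (ε a) x - ix (κ a) x + ix (ε κ a) x)` (`ix = ix (K p)`). Let `E' x = s (ix a x - ix (ε a) x)`,
`E'' x = -s (ix (κ a) x - ix (ε κ a) x)`. Both are `K p`-invariant and odd (`ε² = 1`), `E'(x) - E'(κ x) = h(x)` and the same for `E''`
(`ix b (κ x) = ix (κ b) x`), so `F - E'`, `F - E''` are `K3`-invariant; `nm E' = nm E'' = 2 |K p|` (the cosets of `a` and `ε a` are different).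
CLAIM: `nm (F - E') + nm (F - E'') ≤ 2 nm F`. Outside of the four cosets `E' = E'' = 0`. The four cosets are different. For `x` in
the coset of `a` (`h x = s`): `(F - E')(x) = F(x) - s = F(κ x)`, `(F - E')(κ x) = F(κ x)`, `(F - E'')(x) = F(x)`,
`(F - E'')(κ x) = F(κ x) + s = F(x)`; so the four absolute values add up to `2 |F(x)| + 2 |F(κ x)|`. The same for the coset of `ε a` (by
oddness). So one of the two has `nm (F - E) ≤ nm F`. `4 |K p| = nm h ≤ 2 nm F`. -/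
def S_HLem : Prop := ∀ (G : Type) [CommGroup G] [Fintype G] (K : ℕ → Subgroup G) (K3 : Subgroup G) (ls : List ℕ)
    (ε κ : G), (∀ x, x ∈ K3 ↔ x = 1 ∨ x = κ) → κ ≠ 1 → ε * ε = 1 → κ * κ = 1 →
    (∀ p ∈ ls, ε ∉ K p ∧ κ ∉ K p ∧ ε * κ ∉ K p) → ∀ F : G → ℤ, (∀ a, F (ε * a) = -F a) →
    (T K3 F = 0 ∨ ∃ p ∈ ls, ∃ (a : G) (s : ℤ), |s| = 1 ∧ nm (T K3 F) = 4 * (sK (K p)).card ∧
      ∀ x, T K3 F x = s * (ix (K p) a x - ix (K p) (ε * a) x - ix (K p) (κ * a) x + ix (K p) (ε * κ * a) x)) →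
    (∀ k ∈ K3, ∀ a, F (k * a) = F a) ∨
      ∃ p ∈ ls, ∃ E : G → ℤ, (∀ a, E (ε * a) = -E a) ∧ (∀ k ∈ K p, ∀ a, E (k * a) = E a) ∧
        nm E = 2 * (sK (K p)).card ∧ 2 * ((sK (K p)).card : ℤ) ≤ nm F ∧ nm (fun a => F a - E a) ≤ nm F ∧
        ∀ k ∈ K3, ∀ a, F (k * a) - E (k * a) = F a - E a

end Pool.Agent.FO
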