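import Pool.Agent.Lib.MP_640417_ag.FO.Main
import Pool.Agent.Lib.MP_640417_ag.FO.SpecG

/-!
# Theorem FG (sharp form of FO, odd degrees), part H: levels

Every `S_X : Prop` is to be proved as `theorem pX : S_X` or from the stated hypotheses. All theorems of `FO/Main.lean`
(`hTBas, hTop, hFou, hEl, hElP, pKpBas, hLift, hNew, hVBk, pHoHd, hHoBas, hSzBas, pClHd, pClEven, hTra, hTup, hSv, hSe, hBne`
and so on) may be used directly.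
-/

set_option autoImplicit false

noncomputable section

namespace Pool.Agent.FO

open Finset Pool.Agent.FC

/-- the potential with weights `w` -/
def VV {m : ℕ} [NeZero m] (w : ℕ → ℤ) (f : ZMod m → ℤ) : ℤ := ∑ x, |f x| * w (addOrderOf x)

/-- the exact cost of the function `E` for the prime `p` at the level `d` -/
def cx (d p : ℕ) [NeZero d] (E : (ZMod d)ˣ → ℤ) : ℚ :=
  (if p ^ 2 ∣ d then 1 else 2) / (sK (Kp d p)).card * nm E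

/-- `F` is the sum of the functions `E p`, odd and `Kp d p`-invariant -/
def Dcm (d : ℕ) [NeZero d] (F : (ZMod d)ˣ → ℤ) (E : ℕ → (ZMod d)ˣ → ℤ) : Prop :=
  (∀ p ∈ d.primeFactors, (∀ u, E p (-1 * u) = -E p u) ∧ ∀ k ∈ Kp d p, ∀ u, E p (k * u) = E p u) ∧
    ∀ u, F u = ∑ p ∈ d.primeFactors, E p u

/-- `F` is killed by the product of the operators `T_p`, `p ∣ d` -/
def TlA (d : ℕ) [NeZero d] (F : (ZMod d)ˣ → ℤ) : Prop :=
  ∀ l : List ℕ, (∀ p, p ∈ l ↔ p ∈ d.primeFactors) → Tl (Kp d) l F = 0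

/-- weight: orders which are not small -/
def wb (n : ℕ) : ℤ := if n ≤ 39 ∨ n = 105 then 0 else 1

/-- weight: orders divisible by `3` which are not small -/
def w3 (n : ℕ) : ℤ := if n ≤ 39 ∨ n = 105 then 0 else if 3 ∣ n then 1 else 0

/-- weight `3` for the orders divisible by `15`, weight `2` for the others, which are not small -/
def w1 (n : ℕ) : ℤ := if n ≤ 39 ∨ n = 105 then 0 else if 15 ∣ n then 3 else 2

/-- weight `2` for even orders -/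
def W2 (n : ℕ) : ℤ := if 2 ∣ n then 2 else 1

/-- the invariant of the first phase -/
def Inv {m : ℕ} [NeZero m] (f : ZMod m → ℤ) : Prop := VV wb f ≤ 12 ∨ (VV w3 f ≤ 10 ∧ VV w1 f ≤ 36)

/-- `f` is the odd part of a function with class in `GG` -/
def InG {m : ℕ} [NeZero m] (f : ZMod m → ℤ) : Prop :=
  ∃ g : ZMod m → ℤ, g 0 = 0 ∧ (∀ x, f x = g x - g (-x)) ∧ cl g ∈ Pool.Agent.FT.GG

/-- the sharp condition for two primes: `4 N < max(2, p - 1) (q - 1)` -/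
def CondS (m N : ℕ) : Prop :=
  ∀ p ∈ m.primeFactors, ∀ q ∈ m.primeFactors, p < q → 4 * N < max 2 (p - 1) * (q - 1)

/-- the sharp condition of Theorem FO -/
def CondSF (m N : ℕ) : Prop := if m % 4 = 2 then CondS (m / 2) (2 * N) else CondS m N

/-- the odd degrees and lengths of the theorem -/
def OddDeg (m N : ℕ) : Prop := ¬ 2 ∣ m ∧ (N ≤ 6 ∨ ¬ 3 ∣ m ∧ N ≤ 9)

/-! ## Levels: common facts -/

/-- Facts on `VV` (`w ≥ 0`).  (4): pointwise, if `h x ≠ 0` then both sides are `0`. (5) and (6) as in the proof of `pVBk` and `top_le` (file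
`FO/StepA.lean`): the elements of order `d` are the `el m d u` (`hEl`). -/
def S_VVBas : Prop := ∀ (m : ℕ) [NeZero m] (w w' : ℕ → ℤ) (f h : ZMod m → ℤ), (∀ n, 0 ≤ w n) → (∀ n, 0 ≤ w' n) →
  0 ≤ VV w f ∧
  (∀ c : ℤ, (∀ n, n ∣ m → w n ≤ c * w' n) → VV w f ≤ c * VV w' f) ∧
  (∀ c : ℤ, (∀ x, f x ≠ 0 → w (addOrderOf x) ≤ c) → VV w f ≤ c * ∑ x, |f x|) ∧
  ((∀ x, h x ≠ 0 → w (addOrderOf x) = 0) → VV w (fun x => f x - h x) = VV w f) ∧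
  (∀ (d : ℕ) [NeZero d], d ∣ m → VV w f = w d * nm (fun u : (ZMod d)ˣ => f (el m d u)) +
    ∑ x ∈ univ.filter (fun x : ZMod m => addOrderOf x ≠ d), |f x| * w (addOrderOf x)) ∧
  (∀ (d : ℕ) [NeZero d], d ∣ m → w d * nm (fun u : (ZMod d)ˣ => f (el m d u)) ≤ VV w f)

/-- **Top level.**  First part: as `pTop` (file `FO/Top.lean`): there `∀ x, f x ≠ 0 → addOrderOf x ≤ d` is only used to see that an `x` with
`f x ≠ 0` and `d ∣ addOrderOf x` has order `d` (`hSv`). Then `hFou`. -/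
def S_TopG : Prop := ∀ (m d : ℕ) [NeZero m] [NeZero d], d ∣ m → ∀ f : ZMod m → ℤ, IsOdd f → Rl f →
  (∀ x, f x ≠ 0 → d ∣ addOrderOf x → addOrderOf x = d) → TlA d (fun u => f (el m d u))

/-- **The general step.**  Adapt the proof of `pStepA` (file `FO/StepA.lean`) and `pNew` (file `FO/New.lean`): lifts `G p` of the `E p` (`hLift`), `h = ∑_{p ∣ d} hD p (G p)`,
`InHo h` (`pHoHd`), `h (el m d u) = ∑_p E p u = f (el m d u)`. If `h x ≠ 0` and `ord x ≠ d` then `G p (p x) ≠ 0` or `G p x ≠ 0` for some `p`, so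
`ord x = d / p` (`hElP`, fourth part). Potential: `|f x - h x| ≤ |f x| + |h x|` for `ord x ≠ d`, and the difference is `0` for `ord x = d`. The new terms: as in `pNew` with a general
weight `w ≥ 0` (all new terms for `p` have order `d / p`): `∑_{ord x ≠ d} |hD p (G p) x| w(ord x) ≤ c_p w(d/p) ∑_z |G p z|`, `c_p = 1` if `p² ∣ d` and `2` otherwise, and
`κ_p ∑_z |G p z| = nm (E p)`, so this is `w(d/p) cx d p (E p)`. -/
def S_StepGen : Prop := ∀ (m d : ℕ) [NeZero m] [NeZero d], d ∣ m → (¬ 2 ∣ d ∨ 4 ∣ d) →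
  ∀ (f : ZMod m → ℤ) (E : ℕ → (ZMod d)ˣ → ℤ), Dcm d (fun u => f (el m d u)) E →
    ∃ h : ZMod m → ℤ, InHo h ∧ (∀ x, addOrderOf x = d → h x = f x) ∧
      (∀ x, h x ≠ 0 → addOrderOf x = d ∨ ∃ p ∈ d.primeFactors, addOrderOf x = d / p) ∧
      ∀ w : ℕ → ℤ, (∀ n, 0 ≤ w n) →
        (VV w (fun x => f x - h x) : ℚ) + w d * nm (fun u : (ZMod d)ˣ => f (el m d u)) ≤
          VV w f + ∑ p ∈ d.primeFactors, (w (d / p) : ℚ) * cx d p (E p)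

/-- **Costs.**  `pKpBas`: `κ_p = p` if `p² ∣ d`, otherwise `κ_p = p - 1`. First part: `0 ≤ cx`, `cx ≤ ct` (if `p² ∣ d`: `1 ≤ co κ`; otherwise `p` is odd because `d` is odd or `4 ∣ d`, `κ = p - 1` is even, `co κ = 2`). Second part: `p` odd:
equality (`κ = p` odd, `co = 1`, or `κ = p - 1` even, `co = 2`). Third part: `co κ ≤ κ`. -/
def S_CxBas : Prop := ∀ (d : ℕ) [NeZero d] (p : ℕ), p ∈ d.primeFactors → ∀ E : (ZMod d)ˣ → ℤ,
  0 ≤ cx d p E ∧ ((¬ 2 ∣ d ∨ 4 ∣ d) → cx d p E ≤ ct (Kp d p) E) ∧ (p ≠ 2 → cx d p E = ct (Kp d p) E) ∧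
  ct (Kp d p) E ≤ nm E ∧ 0 ≤ ct (Kp d p) E

/-- **Congruences.**  The elements of `Kp d p` are `1` modulo `d / p`, so modulo `n` (`ZMod.unitsMap`), hence so are the elements of `KS (Kp d) l`
(`Subgroup.mem_sup`, induction on `l`, or `KS K l ≤ ker (ZMod.unitsMap)`). But `-1` and `-κ` are `-1` modulo `n`, and `-1 ≠ 1` modulo `n` for `n ≥ 3`. -/
def S_KsNeg : Prop := ∀ (d : ℕ) [NeZero d] (l : List ℕ), (∀ p ∈ l, p ∈ d.primeFactors) → ∀ n, 3 ≤ n → n ∣ d →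
  (∀ p ∈ l, n ∣ d / p) → (-1 : (ZMod d)ˣ) ∉ KS (Kp d) l ∧
    ∀ κ ∈ Kp d 3, 3 ∣ d → n ∣ d / 3 → -1 * κ ∉ KS (Kp d) l

/-! ## Decompositions -/

/-- **Sharp decomposition.**  `S_StripG` with `lb = d.primeFactors.toList`, `ls = []`, `B = nm F` (`cn ≤ nm`), `ε = -1`; `Tl K [] H = H = 0`.
Hypotheses you may use: `S_CnBas`, `S_StripG`. -/
def S_DS : Prop := ∀ (d : ℕ) [NeZero d] (F : (ZMod d)ˣ → ℤ), (∀ u, F (-1 * u) = -F u) → TlA d F →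
  (∀ p ∈ d.primeFactors, ∀ q ∈ d.primeFactors, p ≠ q →
    2 * nm F < (sK (Kp d p)).card * (sK (Kp d q)).card) →
  ∃ E, Dcm d F E ∧ ∑ p ∈ d.primeFactors, ct (Kp d p) (E p) ≤ nm F

/-- **Levels prime to 6.**  `lb` = the primes `≥ 11` of `d`, `ls` = the list of `7`, `5` (in this order) restricted to the primes of `d`. `S_StripG` with
`B = nm F ≤ 18`: `κ_r ≥ 10`, `κ_j ≥ 4` (`pKpBas`), `2 * 18 < 40`. Rest `H`, `Tl ls H = 0`, `nm H ≤ nm F ≤ 18` (costs are `≥ 0`). `ls = []`: `H = 0`. `ls = [p]`: `H` is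
`Kp d p`-invariant, `ct ≤ nm H` (`co κ ≤ κ`). `ls = [7, 5]`: `S_TwoP` with `K = Kp d 7` (`κ ≥ 6`), `L = Kp d 5` (`κ = 4`, `co = 2` or `κ = 5`, `co = 1`), `ε = -1`; `-1 ∉ K ⊔ L`: `S_KsNeg` with
`n = d / 35 ≥ 3` (`d > 39`, `35 ∣ d`, `d` odd; `d / 35` divides `d / 5` and `d / 7`), so `2 cn (K ⊔ L) H a ≤ nm H ≤ 18 ≤ 24` (`S_CnSum` with `A = {a, -a}`). `Tl K [7, 5] H = T_5 (T_7 H)`; the
operators commute (`S_TBas`).
Hypotheses you may use: `S_CnBas`, `S_CnSum`, `S_StripG`, `S_TwoP`, `S_KsNeg`. -/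
def S_D5 : Prop := ∀ (d : ℕ) [NeZero d], ¬ 2 ∣ d → ¬ 3 ∣ d → 39 < d → ∀ F : (ZMod d)ˣ → ℤ,
  (∀ u, F (-1 * u) = -F u) → TlA d F → nm F ≤ 18 →
  ∃ E, Dcm d F E ∧ ∑ p ∈ d.primeFactors, ct (Kp d p) (E p) ≤ nm F

/-- **Levels divisible by 9.**  `lb` = the primes `≥ 7` of `d`, `ls` = `[5, 3]` or `[3]`. `-1 ∉ KS (Kp d) l` for all lists of primes of `d` (`S_KsNeg` with `n = 3`: `3 ∣ d / p`
because `9 ∣ d`), so `2 cn (KS (Kp d) l) F a ≤ nm F ≤ 12` (`S_CnSum` with `A = {a, -a}`). `S_StripG` with `B = 6`: `κ_r ≥ 6`, `κ_j ≥ 3` (`κ_3 = 3`), `12 < 18`. Rest `H`,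
`nm H ≤ 12`. `ls = [3]`: `ct ≤ nm H`. `ls = [5, 3]`: `S_TwoP` with `K = Kp d 5` (`κ ≥ 4`), `L = Kp d 3` (`κ = 3`, `co = 1`): `2 cn (K ⊔ L) H a ≤ 12`, so `cn ≤ 6 ≤ 8`.
Hypotheses you may use: `S_CnBas`, `S_CnSum`, `S_StripG`, `S_TwoP`, `S_KsNeg`. -/
def S_D9 : Prop := ∀ (d : ℕ) [NeZero d], ¬ 2 ∣ d → 9 ∣ d → ∀ F : (ZMod d)ˣ → ℤ,
  (∀ u, F (-1 * u) = -F u) → TlA d F → nm F ≤ 12 →
  ∃ E, Dcm d F E ∧ ∑ p ∈ d.primeFactors, ct (Kp d p) (E p) ≤ nm F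

/-- **Levels exactly divisible by 3, relation for the difference.**  `K = Kp d`, `κ` the element `≠ 1` of `Kp d 3` (`κ_3 = 2`), `κ² = 1`,
`h = T_3 F`, `h(u) = F(u) - F(κ u)`, `h(-u) = -h(u)`, `h(κ u) = -h(u)`, `nm h ≤ 2 nm F ≤ 24`, `τ = -κ`, `h(τ u) = h(u)`. `lb` = the primes `≥ 11` of `d`, `ls` = `[7, 5]` restricted
to the primes of `d`; `Tl (lb ++ ls) h = Tl (3 :: lb ++ ls) F = 0`. `M = KS (Kp d) (lb ++ ls)`. `-1 ∉ M` (`S_KsNeg`, `n = 3`), `κ ∉ M` (independence, `pKpBas` for the list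
`3 :: lb ++ ls`). So `2 cn M h u ≤ 24` (`S_CnSum`, `A = {u, -u}`), and if `τ ∉ M`: `4 cn M h u ≤ 24` (`A = {u, -u, κ u, τ u}`). For `r ∈ lb`: `κ_r ≥ 10`; `τ ∉ Kp d r` by `S_KsNeg` with
`l = [r]` and `n = q` if `d` has a prime `q ∉ {3, r}`, `n = r` if `r² ∣ d`; otherwise `d = 3 r`, so `r > 13`, `κ_r = r - 1 > 12`. `S_HBig`: `Tl ls h = 0`. If `ls = []`: `h = 0`.
Otherwise `τ ∉ KS (Kp d) ls` by `S_KsNeg` with `n = r` if `lb ≠ []` (`r ∈ lb`), otherwise `d = 3 * 5 ^ a * 7 ^ b` and `n = 5` if `a ≥ 2`, `n = 7` if `b ≥ 2`; one of these holds because `39 < d`,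
`d ≠ 105`. `-1, κ ∉ KS ls` as before, and `S_HCls`.
Hypotheses you may use: `S_CnBas`, `S_CnSum`, `S_HBig`, `S_HCls`, `S_KsNeg`. -/
def S_D3h : Prop := ∀ (d : ℕ) [NeZero d], ¬ 2 ∣ d → 3 ∣ d → ¬ 9 ∣ d → 39 < d → d ≠ 105 → ∀ F : (ZMod d)ˣ → ℤ,
  (∀ u, F (-1 * u) = -F u) → TlA d F → nm F ≤ 12 →
  ∃ κ : (ZMod d)ˣ, (∀ x, x ∈ Kp d 3 ↔ x = 1 ∨ x = κ) ∧ κ ≠ 1 ∧ κ * κ = 1 ∧
    (T (Kp d 3) F = 0 ∨ ∃ p ∈ d.primeFactors, (p = 5 ∨ p = 7) ∧ ∃ (a : (ZMod d)ˣ) (s : ℤ), |s| = 1 ∧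
      nm (T (Kp d 3) F) = 4 * (sK (Kp d p)).card ∧
      -1 ∉ Kp d p ∧ κ ∉ Kp d p ∧ -1 * κ ∉ Kp d p ∧
      ∀ x, T (Kp d 3) F x = s * (ix (Kp d p) a x - ix (Kp d p) (-1 * a) x - ix (Kp d p) (κ * a) x +
        ix (Kp d p) (-1 * κ * a) x))

/-- **Levels exactly divisible by 3.**  `S_D3h` and `S_HLem` (`ls = [p]`, or `ls = []` in the first case; `ε = -1`). In the first case `F` is `Kp d 3`-invariant: `E 3 = F`, the others `0`. In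
the second case `E p = E`, `E 3 = F - E`, the others `0`. (`3 ∈ d.primeFactors`.)
Hypotheses you may use: `S_D3h`, `S_HLem`. -/
def S_D3 : Prop := ∀ (d : ℕ) [NeZero d], ¬ 2 ∣ d → 3 ∣ d → ¬ 9 ∣ d → 39 < d → d ≠ 105 → ∀ F : (ZMod d)ˣ → ℤ,
  (∀ u, F (-1 * u) = -F u) → TlA d F → nm F ≤ 12 →
  ∃ E, Dcm d F E ∧ nm (E 3) ≤ nm F ∧
    ((∀ p ∈ d.primeFactors, p ≠ 3 → E p = 0) ∨
      ∃ p ∈ d.primeFactors, (p = 5 ∨ p = 7) ∧ (∀ q ∈ d.primeFactors, q ≠ 3 → q ≠ p → E q = 0) ∧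
        nm (E p) = 2 * (sK (Kp d p)).card ∧ 2 * ((sK (Kp d p)).card : ℤ) ≤ nm F)

/-- **Small levels.**  If `d` is a power of a prime `p` (all odd `d`, `1 < d ≤ 39`, except `15, 21, 33, 35, 39`): `T_p F = 0`, `E p = F`. If `d = p q`, `p < q` primes:
`K = Kp d p`, `L = Kp d q`, `Disjoint K L` (`pKpBas`), `K ⊔ L = ⊤` (cardinalities: `(p - 1)(q - 1) = φ(d)`, `pSumKK` for the constant function `1`, or the Chinese remainder theorem), so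
`-1 = e1 e2` with `e1 ∈ K`, `e2 ∈ L`; `e1² = (e2⁻¹)²`
is in both, so it is `1`, and `e2² = 1`, `e2 = -e1`; `S_PairR` (the last hypothesis is the parity condition for `e = e1`). If `d = 105`: `K1 = Kp 105 3 = {1, e1}`, `K2 = Kp 105 5`, `K3 = Kp 105 7`, independent, their
product is everything (`2 * 4 * 6 = φ(105)`), `-1 = e1 e2 e3`, `e_i² = 1` by independence, `e_i ≠ 1` because `-1 ≠ 1` modulo `3`, `5`, `7`; `S_Three`.
Hypotheses you may use: `S_PairR`, `S_Three`. -/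
def S_DSm : Prop := ∀ (d : ℕ) [NeZero d], ¬ 2 ∣ d → 1 < d → (d ≤ 39 ∨ d = 105) → ∀ F : (ZMod d)ˣ → ℤ,
  (∀ u, F (-1 * u) = -F u) → TlA d F →
  (∀ p q : ℕ, p.Prime → q.Prime → p < q → d = p * q → ∀ e ∈ Kp d p, -1 * e ∈ Kp d q → (2 : ℤ) ∣ F 1 + F e) →
  ∃ E, Dcm d F E

/-! ## Sharp form of FO -/

/-- **The step for `2 ∥ d`.**  As `pStepB` (file `FO/StepB.lean`) with the weights `W2`: `Kp d 2` is trivial, `G` a lift of `F`, `h = hD 2 G`; new terms of order `d / 2` (odd, weight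
`1`): at most `2 ∑ |G| = 2 nm F = W2(d) nm F`. -/
def S_StepBG : Prop := ∀ (m d : ℕ) [NeZero m], d ∣ m → d % 4 = 2 →
  ∀ f : ZMod m → ℤ, IsOdd f → (∀ x, f x ≠ 0 → addOrderOf x ≤ d) →
    ∃ h : ZMod m → ℤ, InHo h ∧ (∀ x, f x - h x ≠ 0 → addOrderOf x < d) ∧
      VV W2 (fun x => f x - h x) ≤ VV W2 f

/-- **Arithmetic.**  `κ_2 = 2` if `4 ∣ d`, `κ_p ≥ p - 1`, so `κ_p κ_q ≥ max(2, p-1) (q-1)` for `p < q`. If `W2 d = W2 m'`: `nm ≤ 2 N'`, `2 nm ≤ 4 N' < κ_p κ_q`. Otherwise `m'` is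
even and `d` is odd: `nm ≤ 4 N'`, `p, q` odd. If `N' = 0`: `nm = 0` and the right side is positive. If `N' ≥ 1`: `3 ∤ m'` (`CondS` for `2 < 3` would give `4 N' < 4`), so `p ≥ 5`, and
`CondS` for `2 < q`: `4 N' < 2 (q - 1)`, so `κ_p κ_q ≥ 4 (q - 1) > 8 N'`. -/
def S_AriS : Prop := ∀ (m' N' d : ℕ) (ν : ℤ), 0 < m' → CondS m' N' → d ∣ m' → (¬ 2 ∣ d ∨ 4 ∣ d) → 0 ≤ ν →
  ν * W2 d ≤ 2 * N' * W2 m' → ∀ p ∈ d.primeFactors, ∀ q ∈ d.primeFactors, p ≠ q →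
    2 * ν < (if p ^ 2 ∣ d then (p : ℤ) else p - 1) * (if q ^ 2 ∣ d then (q : ℤ) else q - 1)

/-- **The step for `d` odd or `4 ∣ d`.**  `S_TopG` (the orders in the support are `≤ d`, so those divisible by `d` are `d`), `S_DS` with `S_AriS` (`nm F * W2 d ≤ VV W2 f`, `S_VVBas` (6);
`pKpBas`), `S_StepGen` with `w = W2`; `W2 (d / p) ≤ W2 d`, so `VV W2 (f - h) + W2 d nm F ≤ VV W2 f + W2 d ∑ ct ≤ VV W2 f + W2 d nm F`. The new orders are `d / p < d`.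
(`cx ≤ ct`, `S_CxBas`.)
Hypotheses you may use: `S_VVBas`, `S_TopG`, `S_StepGen`, `S_CxBas`, `S_DS`, `S_AriS`. -/
def S_StepAG : Prop := ∀ (m d m' N' : ℕ) [NeZero m], d ∣ m → (¬ 2 ∣ d ∨ 4 ∣ d) → 0 < m' → d ∣ m' → CondS m' N' →
  ∀ f : ZMod m → ℤ, IsOdd f → Rl f → (∀ x, f x ≠ 0 → addOrderOf x ≤ d) → VV W2 f ≤ 2 * N' * W2 m' →
    ∃ h : ZMod m → ℤ, InHo h ∧ (∀ x, f x - h x ≠ 0 → addOrderOf x < d) ∧
      VV W2 (fun x => f x - h x) ≤ VV W2 f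

/-- **THEOREM FO, sharp form.**  Induction as in `pIte` (file `FO/Ite.lean`) with `S_StepAG`, `S_StepBG`, and the end as in `pFO` (file `FO/FO.lean`): `f(x) = cnt a x - cnt a (-x)`,
`∑ |f| ≤ 2 card` (`hTup`), `VV W2 f ≤ 2 N W2(m)` (`S_VVBas` (3): `W2 n ≤ W2 m` for `n ∣ m`); if `m % 4 = 2` use `m' = m / 2`, `N' = 2 N` (`W2 m = 2`, `W2 m' = 1`), otherwise `m' = m`, `N' = N`; `hTra`.
Hypotheses you may use: `S_VVBas`, `S_StepAG`, `S_StepBG`. -/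
def S_FOS : Prop := ∀ (m N : ℕ) [NeZero m] (ι : Type) [Fintype ι] (a : ι → ZMod m), Fintype.card ι ≤ N →
  (∀ i, a i ≠ 0) → St a → CondSF m N → clt a ∈ HD

/-! ## Odd degrees -/

/-- **Odd parts of classes in `GG`.**  (1): `f = ∑_p hD p (G p)` with `G p` odd; put `G' p z = max (G p z) 0`, `g = ∑_p hD p (G' p)`; `f(x) = g(x) - g(-x)`, `g 0 = 0`, `cl g ∈ HD` (`pClHd`, `G' p 0 = 0`, `G' p` is
supported on multiples of `p`), `HD ≤ GG`. (4): `g x - g (-x) = g' x - g' (-x)` with `cl g' ∈ GG`, so `e = g - g'` is even, `e 0 = 0`, `cl e ∈ HD` (`pClEven`), `cl` is additive. -/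
def S_InG : Prop := ∀ (m : ℕ) [NeZero m] (f g : ZMod m → ℤ),
  (InHo f → InG f) ∧ (InG f → InG g → InG (fun x => f x + g x)) ∧ InG (fun _ : ZMod m => 0) ∧
  (g 0 = 0 → InG (fun x => g x - g (-x)) → cl g ∈ Pool.Agent.FT.GG)

/-- **The five tuples of odd level.**  Let `k : Fin n → ℕ` be the tuple of level `M` in `FT.tup` (`M = 15, 21, 33, 35, 39`), `a i = (m / M) k_i` in `ZMod m`, `g(x) = cnt a x - cnt a (-x)`. `hTup`: odd, `P g t = 2 ∑ sz(t a_i)`,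
`clt a = cl (cnt a)`. `St a` for units `t`: `sz` at level `m` of `(m / M) y` is `sz` at level `M` of `y` (compare `hEl`), and `∑_i sz(t k_i) = 0` for the units `t` modulo `M`: finite check (or from
`Pool.Agent.FT.hGPh` or the check in `FT/GPh.lean`). `cl (cnt a) ∈ GG`: generator with `t = 1` (`toAddCircle ((m / M) k) = pt M k`); `cnt a 0 = 0`. Orders divide `M` because `M a_i = 0`. Last clause: `(p, q) = (3,5), (3,7), (3,11), (5,7), (3,13)`, and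
`e` is `1` modulo `q` and `-1` modulo `p`, that is `e = 11, 8, 23, 29, 14` (a unit modulo `M` in `Kp M p` is `1` modulo `M / p = q`; `-e ∈ Kp M q` is `1` modulo `p`); the values of `g` at the elements
`(m / M) 1` and `(m / M) e` are `1` and `0` (`M = 35`: `2 - 1` and `0`). -/
def S_Gam : Prop := ∀ (m M : ℕ) [NeZero m] [NeZero M], M ∣ m → (M = 15 ∨ M = 21 ∨ M = 33 ∨ M = 35 ∨ M = 39) →
  ∃ g : ZMod m → ℤ, InG g ∧ IsOdd g ∧ Rl g ∧ (∀ x, g x ≠ 0 → addOrderOf x ∣ M) ∧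
    ∀ p q : ℕ, p.Prime → q.Prime → p < q → M = p * q → ∀ e ∈ Kp M p, -1 * e ∈ Kp M q →
      ¬ (2 : ℤ) ∣ g (el m M 1) + g (el m M e)

/-- **Small step.**  `F u = f (el m d u)`. If `d = p q` is one of `15, 21, 33, 35, 39` and `F 1 + F e` is odd for the `e` with `e ∈ Kp d p`, `-e ∈ Kp d q` (there is at most one such `e`: the quotient of two of them is in `Kp d p ⊓ Kp d q = ⊥`), put `f1 = f - g` with `g` of
`S_Gam` (`M = d`), otherwise `f1 = f`. `f1` is odd, satisfies `Rl`, and if `f1 x ≠ 0`, `d ∣ ord x` then `ord x = d` (the orders of `g` divide `d`). `S_TopG`, `S_DSm`, `S_StepGen` for `f1`: `h1` with `InHo h1`,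
`h1 = f1` at the order `d`, and orders `d` or `d / p`. `h = h1` or `h1 + g` (`S_InG`, `hHoBas`).
Hypotheses you may use: `S_TopG`, `S_DSm`, `S_StepGen`, `S_InG`, `S_Gam`. -/
def S_SmStep : Prop := ∀ (m d : ℕ) [NeZero m], d ∣ m → ¬ 2 ∣ d → 1 < d → (d ≤ 39 ∨ d = 105) →
  ∀ f : ZMod m → ℤ, IsOdd f → Rl f → (∀ x, f x ≠ 0 → d ∣ addOrderOf x → addOrderOf x = d) →
    ∃ h : ZMod m → ℤ, InG h ∧ IsOdd h ∧ Rl h ∧ (∀ x, addOrderOf x = d → h x = f x) ∧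
      ∀ x, h x ≠ 0 → addOrderOf x ∣ d

/-- **Large step, levels divisible by 3.**  `F u = f (el m d u)`; `wb d = w3 d = 1`. `nm F ≤ 12` in both cases of `Inv` (`S_VVBas` (6) with `wb` or `w3`). `S_TopG`. CASE `9 ∣ d`: `S_D9`, `S_StepGen`; `w(d / p) ≤ w(d)` for `w = wb, w3, w1`, so
`VV w (f - h) ≤ VV w f` for the three weights. CASE `9 ∤ d`: `S_D3`, `S_StepGen`. (A) `E p = 0` for `p ≠ 3`: `ct (Kp d 3) (E 3) = nm (E 3) ≤ nm F` (`κ_3 = 2`), as before. (B) `p = 5`: `ct (Kp d 5) (E 5) = 2 co κ_5`: it is `4` if `κ_5 = 4` (`25 ∤ d`) and `2` if `κ_5 = 5`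
(`25 ∣ d`); `2 κ_5 ≤ nm F`. `w3 (d / 3) = 0`, so `VV w3 (f - h) ≤ VV w3 f - nm F + ct ≤ 12 - 8 + 4` or `12 - 10 + 2` (`VV w3 f ≤ 12` because `w3 ≤ wb`). `w1 d = 3`, `w1 (d / 3) ≤ 2`, `w1 (d / 5) ≤ 2` if `25 ∤ d`, `≤ 3` otherwise:
`VV w1 (f - h) ≤ VV w1 f - 3 nm F + 2 nm F + 8` (or `+ 6`) `≤ VV w1 f ≤ 36` (`w1 ≤ 3 wb`). (C) `p = 7`: `2 κ_7 ≥ 12`, so `nm F = 12`, `κ_7 = 6`, so `VV w3 f ≥ 12` and `VV wb f ≤ 12`: by `S_VVBas` (5) all `x` with `f x ≠ 0` and `wb (ord x) ≠ 0` have order `d`, so `VV w1 f = w1(d) * 12`, and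
`VV w1 (f - h) ≤ 2 nm (E 3) + 3 * 4 ≤ 36` (`ct = 4`), `VV w3 (f - h) ≤ 12 - 12 + 4`. In (B), (C): `Inv (f - h)` by the second case. The new orders are `d / p < d`; at order `d` the difference is `0`.
`InHo h` gives `InG h` (`S_InG`) and `IsOdd h`, `Rl h` (`hHoBas`).
(`cx = ct`, `S_CxBas`.)
Hypotheses you may use: `S_VVBas`, `S_TopG`, `S_StepGen`, `S_CxBas`, `S_D9`, `S_D3`, `S_InG`. -/
def S_BigStep3 : Prop := ∀ (m d : ℕ) [NeZero m], d ∣ m → ¬ 2 ∣ d → 3 ∣ d → 39 < d → d ≠ 105 →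
  ∀ f : ZMod m → ℤ, IsOdd f → Rl f → Inv f → (∀ x, f x ≠ 0 → 3 ∣ addOrderOf x → addOrderOf x ≤ d) →
    ∃ h : ZMod m → ℤ, InG h ∧ IsOdd h ∧ Rl h ∧ Inv (fun x => f x - h x) ∧
      ∀ x, f x - h x ≠ 0 → 3 ∣ addOrderOf x → addOrderOf x < d

/-- **Phase 1.**  Induction on `D`, a bound for the orders divisible by `3` of the elements of the support (for all `f`): if no such element has order `D` the bound `D - 1` holds; otherwise `D ∣ m`, `3 ∣ D`, and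
`S_BigStep3` (`D > 39`, `D ≠ 105`) or `S_SmStep` (then all `x` with `D ∣ ord x`, `f x ≠ 0` have `3 ∣ ord x`, so `ord x ≤ D`; the `h` is supported on orders dividing `D`, which are `≤ 39` or `105`, so `VV w (f - h) = VV w f` for the three
weights by `S_VVBas` (4)). `D = 0`: `h = 0`; at the end `VV w1 f ≤ 36` in both cases of `Inv` (`w1 ≤ 3 wb`). Add up the `h` (`S_InG`; sums of odd functions, of `Rl` functions).
Hypotheses you may use: `S_VVBas`, `S_InG`, `S_SmStep`, `S_BigStep3`. -/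
def S_Ph1 : Prop := ∀ (m : ℕ) [NeZero m], ¬ 2 ∣ m → ∀ f : ZMod m → ℤ, IsOdd f → Rl f → Inv f →
  ∃ h : ZMod m → ℤ, InG h ∧ IsOdd h ∧ Rl h ∧ (∀ x, f x - h x ≠ 0 → ¬ 3 ∣ addOrderOf x) ∧
    VV w1 (fun x => f x - h x) ≤ 36

/-- **Phase 2.**  Induction on a bound `D` for the orders of the elements of the support. If the order `D` does not occur: `D - 1`. Otherwise `D ∣ m`, `3 ∤ D`, `2 ∤ D`. `D = 1`: `f 0 = 0` by oddness. `1 < D ≤ 39`: `S_SmStep`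
(`h` is supported on orders dividing `D`, so not divisible by `3`, and `VV w1` does not change). `D > 39` (so `D ≠ 105`): `F u = f (el m D u)`, `w1 D = 2`, `2 nm F ≤ VV w1 f ≤ 36`, `S_TopG`, `S_D5`, `S_StepGen`, `w1 (D / p) ≤ 2`: `VV w1 (f - h) ≤ VV w1 f`; the new orders
`D / p` are not divisible by `3`.
(`cx = ct`, `S_CxBas`.)
Hypotheses you may use: `S_VVBas`, `S_TopG`, `S_StepGen`, `S_CxBas`, `S_D5`, `S_InG`, `S_SmStep`. -/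
def S_Ph2 : Prop := ∀ (m : ℕ) [NeZero m], ¬ 2 ∣ m → ∀ f : ZMod m → ℤ, IsOdd f → Rl f →
  (∀ x, f x ≠ 0 → ¬ 3 ∣ addOrderOf x) → VV w1 f ≤ 36 → InG f

/-- **THEOREM FG.**  `f(x) = cnt a x - cnt a (-x)` (`hTup`): odd, `Rl f`, `∑ |f| ≤ 2 card`. If `N ≤ 6`: `VV wb f ≤ 12`, `S_Ph1`, `S_Ph2` for `f - h`, `S_InG` (2). If `3 ∤ m`, `N ≤ 9`: the orders are prime to `3`, `w1 ≤ 2` there, so
`VV w1 f ≤ 36`, `S_Ph2`. Then `S_InG` (4) with `g = cnt a` (`cnt a 0 = 0`), `clt a = cl (cnt a)`.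
Hypotheses you may use: `S_VVBas`, `S_InG`, `S_Ph1`, `S_Ph2`. -/
def S_FG : Prop := ∀ (m N : ℕ) [NeZero m] (ι : Type) [Fintype ι] (a : ι → ZMod m), Fintype.card ι ≤ N →
  (∀ i, a i ≠ 0) → St a → OddDeg m N → clt a ∈ Pool.Agent.FT.GG

end Pool.Agent.FO
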