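import Pool.Agent.Lib.MP_640417_ag.FO.SpecB

/-!
# Theorem FO, part L: levels, the reduction steps, the induction (note 4086, A2, A3, B3 - B7)

Every `S_X : Prop` is to be proved as `theorem pX : S_X` or from the stated hypotheses.
-/

set_option autoImplicit false

noncomputable section

namespace Pool.Agent.FO

open Finset Pool.Agent.FC

/-! ## Basic facts -/

/-- Basic facts on `sz`: odd, at most `1/2`, equal to `sw` outside `0`. -/
def S_SzBas : Prop := ∀ (m : ℕ) [NeZero m] (x : ZMod m),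
  sz (-x) = -sz x ∧ |sz x| ≤ 1 / 2 ∧ (x ≠ 0 → ((sz x : ℚ) : ℝ) = sw (ZMod.toAddCircle x))

/-- **Distribution relation.**  Put `M = m / p` and `v = y.val % M`. The solutions `x` of `p x = p y` are the elements with
`x.val = v + j M`, `0 ≤ j < p`, and `(p y).val = p v`. If `v ≠ 0`:
`∑_j ((v + j M)/m - 1/2) = p v / m + (p - 1)/2 - p/2 = p v / m - 1/2`. If `v = 0` the term `j = 0` is `0` and the others add up to
`(p-1)/2 - (p-1)/2 = 0`. Second part: if `t` is prime to `p` then `x ↦ t x` is a bijection from `{x | p x = p y}` to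
`{x | p x = p (t y)}` (both sets are cosets of `{x | p x = 0}`, a cyclic group of order `p`, on which `t` acts injectively). -/
def S_Dist : Prop := ∀ (m p : ℕ) [NeZero m], p ∣ m →
  (∀ y : ZMod m, ∑ x ∈ univ.filter (fun x : ZMod m => (p : ZMod m) * x = p * y), sz x = sz ((p : ZMod m) * y)) ∧
  ∀ (t : ℕ), t.Coprime p → ∀ y : ZMod m,
    ∑ x ∈ univ.filter (fun x : ZMod m => (p : ZMod m) * x = p * y), sz ((t : ZMod m) * x) =
      sz ((p : ZMod m) * ((t : ZMod m) * y))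

/-- `hD p G` satisfies all relations for `t` prime to `p`.  `∑_x G(p x) sz(t x) = ∑_z G(z) ∑_{p x = z} sz(t x)` and for `z = p y` the
inner sum is `sz(t z)` by `S_Dist`; `G(z) = 0` for the other `z`. -/
def S_HdP : Prop := ∀ (m p : ℕ) [NeZero m], p ∣ m → ∀ G : ZMod m → ℤ, (∀ z, G z ≠ 0 → ∃ x, z = p * x) →
  ∀ t : ℕ, t.Coprime p → P (hD p G) (t : ZMod m) = 0

/-- `InHo` functions are odd and satisfy Stickelberger's relation (`S_HdP`: a unit `t` is `((t : ZMod m).val : ZMod m)` with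
`t.val` prime to `m`), and they form a group. -/
def S_HoBas : Prop := ∀ (m : ℕ) [NeZero m] (f g : ZMod m → ℤ),
  (InHo f → IsOdd f ∧ Rl f) ∧ (InHo f → InHo g → InHo (fun x => f x + g x)) ∧ InHo (fun _ : ZMod m => 0)

/-- `hD p G` is `InHo` if `G` is odd and supported on multiples of `p`; finite sums. -/
def S_HoHd : Prop := ∀ (m : ℕ) [NeZero m] (s : Finset ℕ) (G : ℕ → ZMod m → ℤ), s ⊆ m.primeFactors →
  (∀ p ∈ s, IsOdd (G p) ∧ ∀ z, G p z ≠ 0 → ∃ x, z = p * x) → InHo (fun x => ∑ p ∈ s, hD p (G p) x)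

/-- Facts on the elements `el m d u` of order `d`. -/
def S_El : Prop := ∀ (m d : ℕ) [NeZero m] [NeZero d] (hd : d ∣ m),
  (∀ u : (ZMod d)ˣ, addOrderOf (el m d u) = d) ∧
  (∀ u v : (ZMod d)ˣ, el m d u = el m d v → u = v) ∧
  (∀ x : ZMod m, addOrderOf x = d → ∃ u : (ZMod d)ˣ, el m d u = x) ∧
  (∀ (t : (ZMod m)ˣ) (u : (ZMod d)ˣ), (t : ZMod m) * el m d u = el m d (ZMod.unitsMap hd t * u)) ∧
  (∀ u : (ZMod d)ˣ, el m d (-u) = -el m d u) ∧
  (∀ u : (ZMod d)ˣ, sz (el m d u) = sz (u : ZMod d))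

/-- Multiplication of the elements of order `d` by a prime `p ∣ d`.  (`el m d u = (m/d) u.val`, so
`p * el m d u = (m/(d/p)) u.val`; every unit mod `d/p` lifts to a unit mod `d`.  Fourth part: `ord (p x)` is `ord x / p` or `ord x`.
Fifth part: if `p ∤ d/p` then multiplication by `p` permutes the elements of order `d/p`.) -/
def S_ElP : Prop := ∀ (m d p : ℕ) [NeZero m] [NeZero d], d ∣ m → p.Prime → p ∣ d →
  (∀ u : (ZMod d)ˣ, addOrderOf ((p : ZMod m) * el m d u) = d / p) ∧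
  (∀ u v : (ZMod d)ˣ, (p : ZMod m) * el m d u = p * el m d v ↔ ∃ k ∈ Kp d p, v = k * u) ∧
  (∀ z : ZMod m, addOrderOf z = d / p → ∃ u : (ZMod d)ˣ, z = p * el m d u) ∧
  (∀ x : ZMod m, addOrderOf ((p : ZMod m) * x) = d / p → addOrderOf x = d ∨ (addOrderOf x = d / p ∧ ¬ p ∣ d / p)) ∧
  (¬ p ∣ d / p → ∀ x y : ZMod m, addOrderOf x = d / p → addOrderOf y = d / p → (p : ZMod m) * x = p * y → x = y)

/-- The groups `K_p`: independence and size.  `K_p` consists of the `u` with `u ≡ 1` mod `d/p`. Independence: an element of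
`KS (Kp d) l` is `≡ 1` mod the power of `p` dividing `d` if `p ∉ l` (all generators are), an element of `K_p` is `≡ 1` mod `d/p`; so an
element of both is `≡ 1` mod `d`. Size: the kernel of the surjection `(ZMod d)ˣ → (ZMod (d/p))ˣ` has `φ(d)/φ(d/p)` elements. -/
def S_KpBas : Prop := ∀ (d : ℕ) [NeZero d],
  (∀ l : List ℕ, l.Nodup → (∀ p ∈ l, p ∈ d.primeFactors) → Ind (Kp d) l) ∧
  ∀ p ∈ d.primeFactors, ((sK (Kp d p)).card : ℤ) = if p ^ 2 ∣ d then (p : ℤ) else p - 1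

/-! ## The top level -/

/-- **Vanishing** (A2).  Let `n = ord x`, `e = gcd(n, d) < d`.  As `χ` is primitive it does not factor through `e`, so there is
`u ∈ (ZMod d)ˣ`, `u ≡ 1` mod `e`, with `χ(u) ≠ 1` (`DirichletCharacter.factorsThrough_iff_ker_unitsMap`). There is an integer `t0` with
`t0 ≡ u` mod `d` and `t0 ≡ 1` mod `n` (Chinese remainder theorem, `u ≡ 1` mod `gcd(n, d)`); it is prime to `lcm(n, d)`, so it can be
changed to be prime to `m` (surjectivity of `(ZMod m)ˣ → (ZMod lcm(n,d))ˣ`). Then `t0 x = x`, and `t ↦ t t0` multiplies the sum by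
`χ(u) ≠ 1`. -/
def S_Sv : Prop := ∀ (m d : ℕ) [NeZero m] [NeZero d] (hd : d ∣ m) (χ : DirichletCharacter ℂ d), χ.IsPrimitive →
  ∀ x : ZMod m, ¬ d ∣ addOrderOf x →
    ∑ t : (ZMod m)ˣ, χ ((ZMod.unitsMap hd t : (ZMod d)ˣ) : ZMod d) * ((sz ((t : ZMod m) * x) : ℚ) : ℂ) = 0

/-- **Value at the level `d`** (A2), from `S_El` and the surjectivity of `ZMod.unitsMap` (all fibres have `φ(m)/φ(d)` elements). -/
def S_Se : Prop := ∀ (m d : ℕ) [NeZero m] [NeZero d] (hd : d ∣ m) (χ : DirichletCharacter ℂ d) (u : (ZMod d)ˣ),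
  (d.totient : ℂ) * ∑ t : (ZMod m)ˣ, χ ((ZMod.unitsMap hd t : (ZMod d)ˣ) : ZMod d) *
      ((sz ((t : ZMod m) * el m d u) : ℚ) : ℂ) =
    (m.totient : ℂ) * χ ((u⁻¹ : (ZMod d)ˣ) : ZMod d) * ∑ t : (ZMod d)ˣ, χ (t : ZMod d) * ((sz (t : ZMod d) : ℚ) : ℂ)

/-- `B_{1,χ} ≠ 0` for primitive odd characters. -/
def S_Bne : Prop := ∀ (d : ℕ) [NeZero d] (χ : DirichletCharacter ℂ d), χ.IsPrimitive → χ.Odd →
  ∑ t : (ZMod d)ˣ, χ (t : ZMod d) * ((sz (t : ZMod d) : ℚ) : ℂ) ≠ 0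

/-- **Top level** (A2).  For even `χ` the sum is `0` by oddness (`u ↦ -u`, `el m d (-u) = -el m d u`, `χ(-u⁻¹) = χ(u⁻¹)`). For odd `χ`:
`0 = ∑_t χ(t) P(f; t) = ∑_x f(x) ∑_t χ(t) sz(t x)`; by `S_Sv` only the `x` with `d ∣ ord x` contribute, so `ord x = d` and
`x = el m d u` (`S_El`), and `S_Se`, `S_Bne` give the claim. (Every character mod `d` is even or odd: `χ(-1) = ± 1`.) -/
def S_Top : Prop := ∀ (m d : ℕ) [NeZero m] [NeZero d], d ∣ m → ∀ f : ZMod m → ℤ, IsOdd f → Rl f →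
  (∀ x, f x ≠ 0 → addOrderOf x ≤ d) → ∀ χ : DirichletCharacter ℂ d, χ.IsPrimitive →
    ∑ u : (ZMod d)ˣ, (f (el m d u) : ℂ) * χ ((u⁻¹ : (ZMod d)ˣ) : ZMod d) = 0

/-- **Fourier** (A3).  For a character `χ` mod `d` put `F^(χ) = ∑_u F(u) χ(u⁻¹)`. Then `(T K F)^(χ) = c F^(χ)` with
`c = |K| - ∑_{k ∈ K} χ(k)`, which is `0` if `χ` is trivial on `K`. If `χ` is not primitive its conductor divides `d/p` for some
prime `p ∣ d`, so `χ` is trivial on `Kp d p`. So all `(Tl (Kp d) l F)^(χ)` vanish, and a function on a finite abelian group with zero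
Fourier coefficients is zero (the characters mod `d` separate: `DirichletCharacter.sum_char_inv_mul_char_eq`:
`∑_χ χ(a⁻¹) χ(b) = φ(d)` if `a = b` and `0` otherwise). -/
def S_Fou : Prop := ∀ (d : ℕ) [NeZero d] (F : (ZMod d)ˣ → ℤ),
  (∀ χ : DirichletCharacter ℂ d, χ.IsPrimitive →
    ∑ u : (ZMod d)ˣ, (F u : ℂ) * χ ((u⁻¹ : (ZMod d)ˣ) : ZMod d) = 0) →
  ∀ l : List ℕ, (∀ p, p ∈ l ↔ p ∈ d.primeFactors) → Tl (Kp d) l F = 0

/-! ## The step -/

/-- **Lift** (B3).  `G(z) = E(u)` if `z = p * el m d u` for some `u` (well defined by `S_ElP` and the invariance of `E`), `G(z) = 0`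
otherwise.  The map `u ↦ p * el m d u` is onto the elements of order `d/p` and all fibres are cosets of `Kp d p`. -/
def S_Lift : Prop := ∀ (m d p : ℕ) [NeZero m] [NeZero d], d ∣ m → p.Prime → p ∣ d → ∀ E : (ZMod d)ˣ → ℤ,
  (∀ u, E (-1 * u) = -E u) → (∀ k ∈ Kp d p, ∀ u, E (k * u) = E u) →
  ∃ G : ZMod m → ℤ, IsOdd G ∧ (∀ z, G z ≠ 0 → addOrderOf z = d / p ∧ ∃ x, z = p * x) ∧
    (∀ u, G (p * el m d u) = E u) ∧ ((sK (Kp d p)).card : ℤ) * ∑ z, |G z| = nm E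

/-- **New terms** (B4).  `|hD p G x| ≤ |G(p x)| + |G x|`. `∑_x |G x| W(ord x) = W(d/p) ∑ |G|`. If `G(p x) ≠ 0` and `ord x ≠ d` then by
`S_ElP` (fourth part) `ord x = d/p` and `p ∤ d/p` (so `p² ∤ d`), and on these elements `x ↦ p x` is injective (fifth part), so these
terms add up to at most `W(d/p) ∑ |G|`. -/
def S_New : Prop := ∀ (m d p : ℕ) [NeZero m], d ∣ m → p.Prime → p ∣ d → ∀ G : ZMod m → ℤ,
  (∀ z, G z ≠ 0 → addOrderOf z = d / p) →
    ∑ x ∈ univ.filter (fun x : ZMod m => addOrderOf x ≠ d), |hD p G x| * W (addOrderOf x) ≤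
      (if p ^ 2 ∣ d then 1 else 2) * W (d / p) * ∑ z, |G z|

/-- **Weights** (B4).  `p = 2` (so `4 ∣ d`): `P0 = 5`, `W(d/2) = W(d)`: `4 W ≤ 4 W`.  `p = 3`: `P0 = 5`; `9 ∣ d`: `4 W ≤ 6 W`; otherwise
`W(d) = 2 W(d/3)`: `8 W(d/3) ≤ 8 W(d/3)`.  `p ≥ 5`: `P0 d ≤ p` and `W(d/p) = W(d)`. -/
def S_AriW : Prop := ∀ d p : ℕ, 0 < d → (Odd d ∨ 4 ∣ d) → p.Prime → p ∣ d →
  (P0 d - 1) * ((if p ^ 2 ∣ d then 1 else 2) * W (d / p)) ≤ 2 * W d * (if p ^ 2 ∣ d then (p : ℤ) else p - 1)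

/-- **Arithmetic** (B5).  Write `κ_p` for the two factors; `κ_p ≥ p - 1`, and `κ_2 = 2` (`4 ∣ d`). `N = 0`: `ν = 0` and the right side is
positive.  `N ≥ 1`: not both `2` and `3` divide `m` (`Cond` would give `4 N < 2`), so `W m ≤ 2`.
(a) `2 ∣ d` or `3 ∣ d`, say `s ∈ {2, 3}`, `s ∣ d`: `W d = W m = 2`, `ν ≤ 2 N`, `P0 d = 5`: to show `4 ν < κ_p κ_q`. If one of the two
primes is `s`, the other one `q ≥ 5` has `q - 1 > 4 N` (`Cond` for `s < q`), `κ_s ≥ 2`: `κ_s κ_q ≥ 2 (q-1) > 8 N`.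
Otherwise both are `≥ 5`: `κ_p κ_q ≥ 4 (q-1) > 16 N`.
(b) `d` prime to `6`, `W m = 1`: `ν ≤ 2 N`, `p0 = minFac d = P0 d ≥ 5`; say `p < q`: `p0 ≤ p < q`, `Cond` for `p0 < q`:
`4 N < (p0 - 3)(q - 1)`, so `2 (p0 - 1) ν ≤ 4 N (p0 - 1) < (p0 - 3)(q - 1)(p0 - 1) ≤ (p0 - 3) κ_p κ_q`.
(c) `d` prime to `6`, `W m = 2` (so `s ∈ {2, 3}` divides `m`): `ν ≤ 4 N`, `Cond` for `s < q`: `q - 1 > 4 N`, `κ_p ≥ p0 - 1`, `p0 - 3 ≥ 2`:
`(p0-3) κ_p κ_q ≥ 2 (p0 - 1)(q - 1) > 8 N (p0 - 1) ≥ 2 (p0 - 1) ν`. -/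
def S_Ari : Prop := ∀ (m N d : ℕ) (ν : ℤ), 0 < m → Cond m N → d ∣ m → (Odd d ∨ 4 ∣ d) → 0 ≤ ν →
  ν * W d ≤ 2 * N * W m → ∀ p ∈ d.primeFactors, ∀ q ∈ d.primeFactors, p ≠ q →
    2 * (P0 d - 1) * ν <
      (P0 d - 3) * ((if p ^ 2 ∣ d then (p : ℤ) else p - 1) * (if q ^ 2 ∣ d then (q : ℤ) else q - 1))

/-- **Bookkeeping** (B4): if `f` and `h` agree on the elements of order `d` then
`V(f - h) + W(d) ∑_{ord x = d} |f x| ≤ V(f) + ∑_{ord x ≠ d} |h x| W(ord x)`, and `∑_{ord x = d} |f x| = nm (f ∘ el m d)` (`S_El`). -/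
def S_VBk : Prop := ∀ (m d : ℕ) [NeZero m] [NeZero d], d ∣ m → ∀ f h : ZMod m → ℤ, (∀ u : (ZMod d)ˣ, h (el m d u) = f (el m d u)) →
  V (fun x => f x - h x) + W d * nm (fun u : (ZMod d)ˣ => f (el m d u)) ≤
    V f + ∑ x ∈ univ.filter (fun x : ZMod m => addOrderOf x ≠ d), |h x| * W (addOrderOf x)

/-- **The step for `d` odd or `4 ∣ d`** (B3, B4).  Let `F u = f (el m d u)`, `l = d.primeFactors.toList`. By `S_Top`, `S_Fou`
`Tl (Kp d) l F = 0`; `F` is odd (`ε = -1`, `S_El`). `nm F * W d ≤ V f` (the terms of order `d`), so by `S_Ari` (applied to `m'`, `N'`) and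
`S_KpBas` the hypothesis of `S_Dec` holds with `n = P0 d - 3 ≥ 2`. Let `E p` be the functions of `S_Dec`, `G p` their lifts (`S_Lift`),
`h = ∑_{p ∣ d} hD p (G p)`.  `InHo h` by `S_HoHd`. `h (el m d u) = ∑_p E p u = F u`, because `G p (el m d u) = 0` (the order is `d ≠ d/p`).
If `f x - h x ≠ 0` then `ord x ≠ d` (`S_El`) and either `f x ≠ 0`, `ord x < d`, or `G p (p x) ≠ 0` or `G p x ≠ 0`, then `ord x = d/p` by `S_ElP`
(fourth part).  Potential: by `S_VBk` it suffices that `∑_{ord x ≠ d} |h x| W(ord x) ≤ W(d) nm F`; the left side is by `S_New` at most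
`∑_p c_p W(d/p) ∑_z |G p z|`, `c_p ∈ {1, 2}`, and `(P0 - 1) c_p W(d/p) ∑_z |G p z| ≤ 2 W(d) κ_p ∑_z |G p z| = 2 W(d) nm (E p)` by `S_AriW`,
`S_KpBas`, `S_Lift`; the sum over `p` is at most `W(d) (P0 - 1) nm F` by `S_Dec`. -/
def S_StepA : Prop := ∀ (m d m' N' : ℕ) [NeZero m], d ∣ m → (Odd d ∨ 4 ∣ d) → 0 < m' → d ∣ m' → Cond m' N' →
  ∀ f : ZMod m → ℤ, IsOdd f → Rl f → (∀ x, f x ≠ 0 → addOrderOf x ≤ d) → V f ≤ 2 * N' * W m' →
    ∃ h : ZMod m → ℤ, InHo h ∧ (∀ x, f x - h x ≠ 0 → addOrderOf x < d) ∧ V (fun x => f x - h x) ≤ V f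

/-- **The step for `d = 2` mod `4`** (B3, B4).  `Kp d 2` is trivial (size `2 - 1`), so `F u = f (el m d u)` is invariant; `G` its lift for
`p = 2`, `h = hD 2 G`. As in `S_StepA`; potential: `S_New` gives `2 W(d/2) ∑ |G| = W(d) nm F` (`W(d/2) = W(d)/2` since `d/2` is odd). -/
def S_StepB : Prop := ∀ (m d : ℕ) [NeZero m], d ∣ m → d % 4 = 2 →
  ∀ f : ZMod m → ℤ, IsOdd f → (∀ x, f x ≠ 0 → addOrderOf x ≤ d) →
    ∃ h : ZMod m → ℤ, InHo h ∧ (∀ x, f x - h x ≠ 0 → addOrderOf x < d) ∧ V (fun x => f x - h x) ≤ V f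

/-- **Induction** (B6) on a bound `D` for the orders of the elements of the support: if no element of order `D` is in the support the
bound `D - 1` holds; otherwise `D ∣ m` and `S_StepA` or `S_StepB` (for `d = D`) replaces `f` by `f - h`, which is odd, satisfies
Stickelberger's relation (`S_HoBas`), has the bound `D - 1` and a potential which is not larger. `D = 0`: `f = 0`. -/
def S_Ite : Prop := ∀ (m m' N' : ℕ) [NeZero m], 0 < m' → Cond m' N' →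
  (∀ d, d ∣ m → (Odd d ∨ 4 ∣ d) → d ∣ m') → ∀ f : ZMod m → ℤ, IsOdd f → Rl f → V f ≤ 2 * N' * W m' → InHo f

/-! ## Transfer to the group `HD` -/

/-- **Relations** (B7).  `cl (hD p G) = ∑_z G(z) (∑_{p x = z} [x] - [z])`; for `z = p y ≠ 0` the solutions of `p x = z` are
`y + j (m/p)`, `0 ≤ j < p`, and `toAddCircle (y + j (m/p)) = toAddCircle y + j/p`: a generator of `HD` (`n = p`). -/
def S_ClHd : Prop := ∀ (m p : ℕ) [NeZero m], p ∣ m → ∀ G : ZMod m → ℤ, G 0 = 0 → (∀ z, G z ≠ 0 → ∃ x, z = p * x) →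
  cl (hD p G) ∈ HD

/-- **Even functions** (B7).  `[1/2] ∈ HD`: the relation for `n = 2`, `y = 1/4` and the pair `[1/4] + [-1/4]`
(`1/4 + 1/2 = -1/4`). `cl e` is the sum of the `e(x) ([x] + [-x])`, `x.val < (-x).val`, and of `e(x) [x]`, `x = -x ≠ 0`, where
`toAddCircle x = 1/2`. -/
def S_ClEven : Prop := ∀ (m : ℕ) [NeZero m] (e : ZMod m → ℤ), e 0 = 0 → (∀ x, e (-x) = e x) → cl e ∈ HD

/-- **Transfer** (B7).  Let `g(x) - g(-x) = ∑_p hD p (G p) x` with `G p` odd. Put `G' p z = max (G p z) 0`, so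
`G p z = G' p z - G' p (-z)`, and `e(x) = g(x) - ∑_p hD p (G' p) x`. Then `e(x) = e(-x)`, `e(0) = 0`, and `S_ClHd`, `S_ClEven`
apply (`cl` is additive). -/
def S_Tra : Prop := ∀ (m : ℕ) [NeZero m] (g : ZMod m → ℤ), g 0 = 0 → InHo (fun x => g x - g (-x)) → cl g ∈ HD

/-- **Tuples.**  For a tuple `a` the odd function `f(x) = cnt a x - cnt a (-x)` satisfies `P(f; t) = 2 ∑ sz(t a_i)`,
`∑ |f| ≤ 2 N`, `V f ≤ 2 N W(m)`, and `clt a = cl (cnt a)`, `cnt a 0 = 0` if all entries are nonzero. -/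
def S_Tup : Prop := ∀ (m : ℕ) [NeZero m] (ι : Type) [Fintype ι] (a : ι → ZMod m),
  IsOdd (fun x => cnt a x - cnt a (-x)) ∧
  (∀ t, P (fun x => cnt a x - cnt a (-x)) t = 2 * ∑ i, sz (t * a i)) ∧
  ∑ x, |cnt a x - cnt a (-x)| ≤ 2 * Fintype.card ι ∧
  V (fun x => cnt a x - cnt a (-x)) ≤ 2 * Fintype.card ι * W m ∧
  clt a = cl (cnt a) ∧ ((∀ i, a i ≠ 0) → cnt a 0 = 0)

/-- **THEOREM FO**, from `S_Ite`, `S_Tra`, `S_Tup`.  If `m % 4 = 2` use `m' = m/2`, `N' = 2 N` and `W(m) = 2 W(m/2)`; a divisor `d` of `m`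
which is odd or divisible by `4` is odd and divides `m/2`. Otherwise `m' = m`, `N' = N`. -/
def S_FO : Prop := ∀ (m N : ℕ) [NeZero m] (ι : Type) [Fintype ι] (a : ι → ZMod m), Fintype.card ι ≤ N →
  (∀ i, a i ≠ 0) → St a → CondF m N → clt a ∈ HD

/-- **Bridge** to the landed results: from `Pool.Agent.FC.final` (first part: `IsTate m a` if and only if all entries are nonzero, the
sum is zero and `RelOn univ (fun i => ZMod.toAddCircle (a i))`). -/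
def S_Brg : Prop := ∀ (m N : ℕ) [NeZero m] (a : Fin N → ZMod m), IsTate m a → (∀ i, a i ≠ 0) ∧ ∑ i, a i = 0 ∧ St a

end Pool.Agent.FO
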