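import Pool.Agent.Lib.MP_640417_ag.FO.SpecL

/-!
# Theorem FR: large primes can be split off (note 4086, part C)

`m : ℕ`, `q` an odd prime dividing `m`. The top part consists of the `x : ZMod m` not killed by `m / q`.
Every `S_X : Prop` is to be proved as `theorem pX : S_X` or from the stated hypotheses.
-/

set_option autoImplicit false

noncomputable section

namespace Pool.Agent.FO

open Finset Pool.Agent.FC

/-- top elements: not killed by `m / q` -/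
def Tp (m q : ℕ) (x : ZMod m) : Prop := ((m / q : ℕ) : ZMod m) * x ≠ 0

/-- `t` is prime to all prime divisors of `m` except perhaps `q` -/
def Pq (m q t : ℕ) : Prop := ∀ p ∈ m.primeFactors, p ≠ q → t.Coprime p

/-- `m / p ^ v_p(m)` -/
def cop (m p : ℕ) : ℕ := m / p ^ m.factorization p

/-- special at `p`: the representative in `[0, 1)` of `cop m p * x` (divided by `m`) is in `[1/p, 2/p)` -/
def Spc (m p : ℕ) (x : ZMod m) : Prop :=
  m ≤ p * ((cop m p : ZMod m) * x).val ∧ p * ((cop m p : ZMod m) * x).val < 2 * m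

/-- top elements which are not special for any prime `p ≠ q` -/
def NS (m q : ℕ) (x : ZMod m) : Prop := Tp m q x ∧ ∀ p ∈ m.primeFactors, p ≠ q → ¬ Spc m p x

/-- the sign of a top element -/
def Pos (m q : ℕ) (x : ZMod m) : Prop := 0 < sz (((m / q : ℕ) : ZMod m) * x)

/-- the relation `∑_{p x = p y} [x] - [p y]` -/
def rl (m p : ℕ) (y : ZMod m) (x : ZMod m) : ℤ :=
  (if (p : ZMod m) * x = p * y then 1 else 0) - (if x = (p : ZMod m) * y then 1 else 0)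

/-- the group generated by the relations of the top level for the primes `p ≠ q` -/
def DG (m q : ℕ) : AddSubgroup (ZMod m → ℤ) :=
  AddSubgroup.closure {f | ∃ p ∈ m.primeFactors, p ≠ q ∧ ∃ y : ZMod m, Tp m q y ∧ f = rl m p y}

/-- the group generated by `DG m q` and the pairs `[y] + [-y]`, `y` top -/
def DGp (m q : ℕ) : AddSubgroup (ZMod m → ℤ) :=
  DG m q ⊔ AddSubgroup.closure {f | ∃ y : ZMod m, Tp m q y ∧ f = Pi.single y 1 + Pi.single (-y) 1}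

/-- the even distribution `∑_j ψ(j) sz(x/m + j/r)` -/
def spsi (m r : ℕ) [NeZero r] (ψ : MulChar (ZMod r) ℤ) (x : ZMod m) : ℚ :=
  ∑ j : ZMod r, (ψ j : ℚ) * sz (((x.val * r + j.val * m : ℕ) : ZMod (m * r)))

/-- the conditions on the auxiliary character -/
def Aux (m r : ℕ) (ψ : MulChar (ZMod r) ℤ) : Prop :=
  r.Prime ∧ ¬ r ∣ m ∧ ψ (-1) = -1 ∧ ∀ p ∈ m.primeFactors, ψ (p : ZMod r) = 1

/-- `∑ f(x) spsi(t x)` -/
def Q {m r : ℕ} [NeZero m] [NeZero r] (ψ : MulChar (ZMod r) ℤ) (f : ZMod m → ℤ) (t : ZMod m) : ℚ :=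
  ∑ x, (f x : ℚ) * spsi m r ψ (t * x)

/-! ## Nonvanishing -/

/-- From `Pool.Agent.FT.S_Coe` (import `Pool.Agent.Lib.MP_640417_ag.FT.Spec`, hypothesis `(h : Pool.Agent.FT.S_Coe)`): `k ≠ 0`, so `s k ≠ 0`
for units `s` and `sz = sw` (`S_SzBas`). -/
def S_Anv : Prop := ∀ (M : ℕ) [NeZero M] (χ : DirichletCharacter ℂ M), χ.Odd →
  ∃ k : ZMod M, ∑ s : (ZMod M)ˣ, χ (s : ZMod M) * ((sz ((s : ZMod M) * k) : ℚ) : ℂ) ≠ 0

/-- `S_Bne` from `S_Anv` and `S_Sv`: take `M = d`; by `S_Sv` (`m = d`) `d ∣ ord k`, so `k` is a unit, and the sum is `χ(k)⁻¹` times the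
sum of `S_Bne`.  Deliver `theorem pBne (hAnv : S_Anv) (hSv : S_Sv) : S_Bne`. -/
def S_Bne' : Prop := S_Anv → S_Sv → S_Bne

/-- **Auxiliary character.**  By Dirichlet's theorem (`Nat.forall_exists_prime_gt_and_eq_mod`, or
`Nat.forall_exists_prime_gt_and_modEq`) there is a prime `r > m` with `r ≡ -1` mod `8 m`. Let `ψ` be `quadraticChar (ZMod r)`. `ψ(-1) = -1`
as `r ≡ 3` mod `4`. For odd `p ∣ m`: `r ≡ -1` mod `p`, so by quadratic reciprocity
`(p/r) = (r/p) (-1)^((p-1)/2 (r-1)/2) = (-1/p) (-1)^((p-1)/2) = 1`. For `p = 2 ∣ m`: `r ≡ 7` mod `8`, `(2/r) = 1`. -/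
def S_AuxEx : Prop := ∀ (m : ℕ) [NeZero m], ∃ (r : ℕ) (ψ : MulChar (ZMod r) ℤ), Aux m r ψ

/-- **Properties of `spsi`.** (1) even: `j ↦ -j`, `((-x).val) r + ((-j).val) m ≡ -(x.val r + j.val m)` mod `m r`, `sz` is odd.
(2) For `p ∣ m`, `t` prime to `p`: for every `j` the elements `((t x).val r + j.val m : ZMod (m r))`, `p x = p y`, are exactly the
solutions `X` of `p X = p Y`, `Y = (t y).val r + j.val m` (`x = y + i m/p`, `t x = t y + t i m/p`, `t` prime to `p`); so by `S_Dist` for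
`m r` the sum over `x` is `sz(p Y)`, and `p Y = (p t y).val r + (p j).val m` mod `m r`; replace `j` by `p j` (`ψ(p) = 1`). -/
def S_PsiBas : Prop := ∀ (m r : ℕ) [NeZero m] [NeZero r] (ψ : MulChar (ZMod r) ℤ), Aux m r ψ →
  (∀ x : ZMod m, spsi m r ψ (-x) = spsi m r ψ x) ∧
  ∀ p ∈ m.primeFactors, ∀ t : ℕ, t.Coprime p → ∀ y : ZMod m,
    ∑ x ∈ univ.filter (fun x : ZMod m => (p : ZMod m) * x = p * y), spsi m r ψ ((t : ZMod m) * x) =
      spsi m r ψ ((p : ZMod m) * ((t : ZMod m) * y))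

/-- **Top representative**: every `k` is `q^j x` with `x` top. Let `K = k.val + m > 0`, `K = q^j y`, `q ∤ y`
(`Nat.exists_eq_pow_mul_and_not_dvd`), `x = y`: `(m/q) y = 0` in `ZMod m` would give `q ∣ y`. -/
def S_TopRep : Prop := ∀ (m q : ℕ) [NeZero m], q.Prime → q ∣ m → ∀ k : ZMod m,
  ∃ (j : ℕ) (x : ZMod m), Tp m q x ∧ k = ((q ^ j : ℕ) : ZMod m) * x

/-- **Odd characters**, from `S_Anv`, `S_TopRep` (`t = q^j` satisfies `Pq m q t`). -/
def S_NvO : Prop := ∀ (m q : ℕ) [NeZero m], q.Prime → q ∣ m → ∀ χ : DirichletCharacter ℂ m, χ.Odd →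
  ∃ (x : ZMod m) (t : ℕ), Tp m q x ∧ Pq m q t ∧
    ∑ s : (ZMod m)ˣ, χ (s : ZMod m) * ((sz ((t : ZMod m) * ((s : ZMod m) * x)) : ℚ) : ℂ) ≠ 0

/-- **Even characters.**  Let `Ψ = χ ψ` mod `m r` (`χ.changeLevel` times the complex version of `ψ`, `DirichletCharacter.changeLevel`); it is
odd. `S_Anv` for `M = m r` gives `K : ZMod (m r)` with `∑_S Ψ(S) sz(S K) ≠ 0`. As `m`, `r` are coprime, `K = x r + j m` for unique
`x : ZMod m`, `j : ZMod r`, and `(ZMod (m r))ˣ = (ZMod m)ˣ × (ZMod r)ˣ` (`ZMod.chineseRemainder`), `S = (s, i)`: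
`S K = (s x).val r + (i j).val m`. So the sum is `∑_s χ(s) ∑_i ψ(i) sz((s x).val r + (i j).val m)`. If `j = 0` the inner sum is
`∑_i ψ(i) · const = 0`. So `j` is a unit, the inner sum is `ψ(j)⁻¹ spsi(s x)`, and `∑_s χ(s) spsi(s x) ≠ 0`. Now `S_TopRep` for `x`. -/
def S_NvE : Prop := ∀ (m q r : ℕ) [NeZero m] [NeZero r] (ψ : MulChar (ZMod r) ℤ), Aux m r ψ → q.Prime → q ∣ m →
  ∀ χ : DirichletCharacter ℂ m, χ.Even →
    ∃ (x : ZMod m) (t : ℕ), Tp m q x ∧ Pq m q t ∧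
      ∑ s : (ZMod m)ˣ, χ (s : ZMod m) * ((spsi m r ψ ((t : ZMod m) * ((s : ZMod m) * x)) : ℚ) : ℂ) ≠ 0

/-! ## Rank -/

/-- **Rank lemma.**  `Φ x : κ → ℂ` are vectors, `τ s : κ → κ` with `Φ (s x) i = Φ x (τ s i)` for units `s`; every `Φ x`, `x ∈ X` is a
combination of the `Φ b`, `b ∈ B`; `X` is stable under units; for every `χ ∈ C` there is `x ∈ X` with `∑_s χ(s) Φ(s x) ≠ 0`; and
`|B| ≤ |C|`. Then the `Φ b`, `b ∈ B`, are linearly independent.
Proof: let `V` be the span of the `Φ b`. The vectors `E_χ = ∑_s χ(s) Φ(s x_χ)` are in `V`, and `E_χ (τ s0 i) = χ(s0)⁻¹ E_χ (i)`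
(`Φ(s x)(τ s0 i) = Φ(s0 s x)(i)`, substitute `s ↦ s0⁻¹ s`). If `∑_χ a_χ E_χ = 0` then evaluate at `τ s0 i`, multiply by
`χ0(s0)` and sum over `s0` (`∑_{s0} χ0(s0) χ(s0)⁻¹ = φ(m)` or `0`): `φ(m) a_{χ0} E_{χ0}(i) = 0` for all `i`, so `a_{χ0} = 0`. So the
`E_χ`, `χ ∈ C`, are linearly independent and `finrank V ≥ |C| ≥ |B|`; a family of `|B|` vectors with span of dimension `≥ |B|` is
independent (`linearIndependent_iff_card_le_finrank_span`). -/
def S_RankG : Prop := ∀ (m : ℕ) [NeZero m] (κ : Type) (Φ : ZMod m → κ → ℂ) (τ : (ZMod m)ˣ → κ → κ) (X : Set (ZMod m))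
    (B : Finset (ZMod m)) (C : Finset (DirichletCharacter ℂ m)),
  (∀ (s : (ZMod m)ˣ) (x : ZMod m) (i : κ), Φ ((s : ZMod m) * x) i = Φ x (τ s i)) →
  (∀ x ∈ X, ∀ s : (ZMod m)ˣ, (s : ZMod m) * x ∈ X) →
  (∀ x ∈ X, ∃ c : ZMod m → ℂ, ∀ i, Φ x i = ∑ b ∈ B, c b * Φ b i) →
  (∀ χ ∈ C, ∃ x ∈ X, ∃ i, ∑ s : (ZMod m)ˣ, χ (s : ZMod m) * Φ ((s : ZMod m) * x) i ≠ 0) →
  B.card ≤ C.card →
  ∀ c : ZMod m → ℂ, (∀ i, ∑ b ∈ B, c b * Φ b i = 0) → ∀ b ∈ B, c b = 0

/-- **Special elements**, `p ≠ q` two primes dividing `m`.  Let `M = m/p`, `u = cop m p`. (1) `u (x + j M) = u x + (j u) M`, `u` is prime to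
`p`, so `j ↦ j u` permutes the residues mod `p`, and exactly one of the `(u x).val` mod `M` `+ i M`, `i < p`, is in `[M, 2M)`.
(2) `u x ≠ 0` is killed by `p^v`, so `p` divides the order of `u x` and of `x`. (3) `cop m p' * M = 0` in `ZMod m` for primes
`p' ≠ p` dividing `m` (`p ∣ cop m p'`). (4) `(m/q) M = 0`. (5) the order of `p x`. -/
def S_SpcBas : Prop := ∀ (m p : ℕ) [NeZero m], p ∈ m.primeFactors →
  (∀ x : ZMod m, ∃ j < p, Spc m p (x + j * ((m / p : ℕ) : ZMod m)) ∧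
    ∀ i < p, Spc m p (x + i * ((m / p : ℕ) : ZMod m)) → i = j) ∧
  (∀ x : ZMod m, Spc m p x → p ∣ addOrderOf x ∧ addOrderOf ((p : ZMod m) * x) < addOrderOf x ∧
    ∀ j : ℕ, addOrderOf (x + j * ((m / p : ℕ) : ZMod m)) ≤ addOrderOf x) ∧
  (∀ p' ∈ m.primeFactors, p' ≠ p → ∀ (x : ZMod m) (j : ℕ), Spc m p' (x + j * ((m / p : ℕ) : ZMod m)) ↔ Spc m p' x) ∧
  (∀ q ∈ m.primeFactors, q ≠ p → ∀ (x : ZMod m) (j : ℕ),
    ((m / q : ℕ) : ZMod m) * (x + j * ((m / p : ℕ) : ZMod m)) = ((m / q : ℕ) : ZMod m) * x) ∧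
  (∀ x y : ZMod m, (p : ZMod m) * x = p * y ↔ ∃ j < p, x = y + j * ((m / p : ℕ) : ZMod m)) ∧
  (∀ q ∈ m.primeFactors, q ≠ p → ∀ x : ZMod m, Tp m q x → Tp m q ((p : ZMod m) * x))

/-- **Counting.**  For a set `S` of primes `p ≠ q` dividing `m` let `N_S` be the number of the top (positive) `x` which are not
special for the `p ∈ S`. For `p ∉ S` (`S ∪ {p}` allowed) the set is stable under translation by `j m/p` (`S_SpcBas` (3), (4)) and every
orbit `{x + j m/p | j < p}` contains exactly one special element (1), so `p N_{S ∪ {p}} = (p - 1) N_S`. `N_∅ = m - m/q` (top: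
`x.val` not divisible by `q`), and half of it for positive elements (`x ↦ -x` exchanges the signs; `(m/q) x ≠ 0` is killed by the odd prime
`q`, so it is not `1/2` and `sz ≠ 0`). Finally `φ(m) ∏_{p ∣ m} p = m ∏_{p ∣ m} (p - 1)` (`Nat.totient_mul_prod_primeFactors` or similar). -/
def S_CntNS : Prop := ∀ (m q : ℕ) [NeZero m], q ∈ m.primeFactors → q ≠ 2 →
  {x : ZMod m | NS m q x}.ncard ≤ m.totient ∧ 2 * {x : ZMod m | NS m q x ∧ Pos m q x}.ncard ≤ m.totient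

/-! ## Reduction -/

/-- **Spanning** (C1).  Strong induction on `addOrderOf x`, inside it on the number of the primes `p ≠ q` with `Spc m p x`. If there is none:
`g = Pi.single x 1`. Otherwise for such a `p`: `Pi.single x 1 = rl m p x + Pi.single (p x) 1 - ∑_{0 < j < p} Pi.single (x + j m/p) 1`
(`S_SpcBas` (5)): `p x` is top (6) and has smaller order (2); `x + j m/p` is top (4), has order `≤ addOrderOf x` (2), is not special at `p` (1), and
at the other primes nothing changes (3).  Second part: the same for positive `x` (`x + j m/p` is positive (4); if `p x` is not positive, it is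
modulo a pair `-[-(p x)]`, and `-(p x)` is positive of the same order); a negative `x` is replaced by `-x` first.
(`Tp m q (-x)`; for top `x` exactly one of `x`, `-x` is positive, `q ≠ 2`.) -/
def S_Span : Prop := ∀ (m q : ℕ) [NeZero m], q ∈ m.primeFactors → q ≠ 2 → ∀ x : ZMod m, Tp m q x →
  (∃ g : ZMod m → ℤ, (∀ z, g z ≠ 0 → NS m q z) ∧ (Pi.single x 1 - g : ZMod m → ℤ) ∈ DG m q) ∧
  ∃ g : ZMod m → ℤ, (∀ z, g z ≠ 0 → NS m q z ∧ Pos m q z) ∧ (Pi.single x 1 - g : ZMod m → ℤ) ∈ DGp m q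

/-- The same for functions supported on top elements (sum over `x`, from `S_Span`). -/
def S_SpanF : Prop := ∀ (m q : ℕ) [NeZero m], q ∈ m.primeFactors → q ≠ 2 → ∀ f : ZMod m → ℤ, (∀ x, f x ≠ 0 → Tp m q x) →
  (∃ g : ZMod m → ℤ, (∀ z, g z ≠ 0 → NS m q z) ∧ (f - g) ∈ DG m q) ∧
  ∃ g : ZMod m → ℤ, (∀ z, g z ≠ 0 → NS m q z ∧ Pos m q z) ∧ (f - g) ∈ DGp m q

/-- **The functionals kill the relations** (closure induction; `S_Dist`, `S_PsiBas` with `t` prime to `p`):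
(1) `P h t = 0` and `Q ψ h t = 0` for `h ∈ DG m q`, `Pq m q t`; (2) for a unit `k` the function `x ↦ h(k x)` is in `DG m q`
(`rl m p y (k x) = rl m p (k⁻¹ y) x`) and `x ↦ h(-x)` too; (3) for `h ∈ DGp m q` the function `x ↦ h(x) - h(-x)` is in `DG m q`
(for a pair it is `0`); (4) `h ∈ DG m q` or `DGp m q` is zero outside the top elements; (5) `cl h ∈ HD` for `h ∈ DGp m q`: `cl (rl m p y)` is the generator
of `HD` for `n = p` (`p y ≠ 0` as `p y` is top; `S_SpcBas` (5), as in `S_ClHd`), `cl` of a pair is a generator. -/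
def S_DGBas : Prop := ∀ (m q r : ℕ) [NeZero m] [NeZero r] (ψ : MulChar (ZMod r) ℤ), Aux m r ψ → q ∈ m.primeFactors →
  (∀ h ∈ DG m q, ∀ t : ℕ, Pq m q t → P h (t : ZMod m) = 0 ∧ Q ψ h (t : ZMod m) = 0) ∧
  (∀ h ∈ DG m q, ∀ k : (ZMod m)ˣ, (fun x => h ((k : ZMod m) * x)) ∈ DG m q) ∧
  (∀ h ∈ DGp m q, (fun x => h x - h (-x)) ∈ DG m q) ∧
  (∀ h ∈ DGp m q, ∀ x, h x ≠ 0 → Tp m q x) ∧
  (∀ h ∈ DGp m q, cl h ∈ HD) ∧ DG m q ≤ DGp m q

/-- **Independence of the non special elements** (C3).  `S_RankG` with `κ = {t // Pq m q t} × Bool`,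
`Φ x (t, false) = sz (t x)`, `Φ x (t, true) = spsi (t x)`, `τ s (t, b) = (t s.val, b)` (`Pq m q (t s.val)`), `X` = top elements,
`B = {x | NS m q x}` (`S_CntNS`), `C` = all characters mod `m` (`φ(m)` many:
`DirichletCharacter.card_eq_totient_of_hasEnoughRootsOfUnity`, even or odd: `S_NvO`, `S_NvE`); the third hypothesis is `S_Span` with
`S_DGBas` (1) (`P (Pi.single x 1) t = sz (t x)`). -/
def S_IndAll : Prop := ∀ (m q r : ℕ) [NeZero m] [NeZero r] (ψ : MulChar (ZMod r) ℤ), Aux m r ψ → q ∈ m.primeFactors → q ≠ 2 →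
  ∀ c : ZMod m → ℤ, (∀ x, c x ≠ 0 → NS m q x) →
    (∀ t : ℕ, Pq m q t → P c (t : ZMod m) = 0 ∧ Q ψ c (t : ZMod m) = 0) → c = 0

/-- **Independence of the positive non special elements** (C8).  `S_RankG` with `κ = {t // Pq m q t}`, `Φ x t = sz (t x)`, `B = {x | NS, Pos}`,
`C` = odd characters: at least `φ(m)/2` (`Pool.Agent.FT.S_Odd`, import `Pool.Agent.Lib.MP_640417_ag.FT.Spec`; `m ≥ q ≥ 3`). Third hypothesis: `S_Span` second part:
`Pi.single x 1 - g = h ∈ DGp m q`; `h(x) - h(-x)` is in `DG m q`, so `P` of it is `0`; `P (h(-·)) t = -P h t`, so `P h t = 0`. -/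
def S_IndOdd : Prop := ∀ (m q : ℕ) [NeZero m], q ∈ m.primeFactors → q ≠ 2 →
  ∀ c : ZMod m → ℤ, (∀ x, c x ≠ 0 → NS m q x ∧ Pos m q x) →
    (∀ t : ℕ, Pq m q t → P c (t : ZMod m) = 0) → c = 0

/-! ## Large primes -/

/-- **Invariance** (C4).  `ft x = f x` for top `x`, `0` otherwise; `g` non special with `ft - g ∈ DG m q`. Let `k` be a unit, `k ≡ 1` mod `m/q`
(stated as `(m/q) ∣ (k - 1).val`, i.e. `k x = x` for all non top `x`). Put `c(x) = g(k x) - g(x)`. It is supported on `NS`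
(`Tp m q (k x) ↔ Tp m q x`; `cop m p' * (k - 1) = 0` for `p' ≠ q`). `c` and `ft(k x) - ft(x)` differ by an element of `DG m q` (`S_DGBas` (2)). The
function `ft(k x) - ft(x) = f(k x) - f(x)` is odd, so `Q` of it is `0` (`S_PsiBas` (1)). `P` of it at `t`, `Pq m q t`: if `q ∤ t` then `t` is
a unit and `Rl f` gives `0 - 0`; if `q ∣ t` then `t k x = t x` for all `x`, so it is `0` after the substitution `x ↦ k⁻¹ x`. So by `S_IndAll` `c = 0`.
The auxiliary character exists by `S_AuxEx`. -/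
def S_KInv : Prop := ∀ (m q : ℕ) [NeZero m], q ∈ m.primeFactors → q ≠ 2 → ∀ f ft g : ZMod m → ℤ, IsOdd f → Rl f →
  (∀ x, Tp m q x → ft x = f x) → (∀ x, ¬ Tp m q x → ft x = 0) → (∀ x, g x ≠ 0 → NS m q x) → (ft - g) ∈ DG m q →
  ∀ k : (ZMod m)ˣ, (∀ x : ZMod m, ¬ Tp m q x → (k : ZMod m) * x = x) → ∀ x, g ((k : ZMod m) * x) = g x

/-- **Orbits** (C4).  If `x`, `x'` are top and `q x = q x'` there is a unit `k` which fixes all non top elements with `x' = k x`: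
`x' = x + i (m/q)`, `(m/q) x` has order `q` and is a multiple of `m/q`, so `i (m/q) = j (m/q) x` for some `j < q`, `k = 1 + j (m/q)`; `k x = x'`;
`k` is a unit: it is prime to all `p ∣ m/q`; if `q ∤ m/q` and `q ∣ k` then `(m/q) x' = k (m/q) x = 0`, a contradiction.
Non top elements `y` are killed by `m/q`. Consequence: a function `g` supported on top elements and invariant under these `k` has the form
`g x = f0 (q x)` for top `x`, with `f0 z = 0` if `z` is not `q x` with `x` top. -/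
def S_Orb : Prop := ∀ (m q : ℕ) [NeZero m], q ∈ m.primeFactors → ∀ g : ZMod m → ℤ, (∀ x, g x ≠ 0 → Tp m q x) →
  (∀ k : (ZMod m)ˣ, (∀ x : ZMod m, ¬ Tp m q x → (k : ZMod m) * x = x) → ∀ x, g ((k : ZMod m) * x) = g x) →
  ∃ f0 : ZMod m → ℤ, (∀ x, Tp m q x → g x = f0 ((q : ZMod m) * x)) ∧ ∀ z, f0 z ≠ 0 → ∃ x, Tp m q x ∧ z = (q : ZMod m) * x

/-- **Fibres** (C5, C7).  Let `g x = f0 (q x)` for top `x`, `g x = 0` otherwise, `f0` supported on `{q x | x top}`. (1) For all `t'`: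
`P g (q t') = c ∑_z f0(z) sz(t' z)`, `c = q` if `q² ∣ m`, `c = q - 1` otherwise: the number of the top `x` with `q x = z` (the solutions are
`x0 + i (m/q)`; `(m/q)(x0 + i m/q) = (m/q) x0` if `q² ∣ m`; otherwise exactly one of them is not top). (2) If `∑_z f0(z) sz(t' z) = 0` for all
`t'` with `Pq m q t'`, then `P g t = 0` for all `t` with `Pq m q t`: for `q ∣ t` this is (1). For `q ∤ t`:
`P g t = ∑_z f0(z) ∑_{x top, q x = z} sz(t x)`. If `q² ∣ m` the inner sum is `sz(t z)` (`S_Dist`). Otherwise let `e = q e'` with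
`q e ≡ 1` mod `m/q`; for `z = q x0` the only non top solution of `q x = z` is `e z`, the inner sum is `sz(t z) - sz(t e z)`, and
`t e` satisfies `Pq`. -/
def S_Fib : Prop := ∀ (m q : ℕ) [NeZero m], q ∈ m.primeFactors → ∀ g f0 : ZMod m → ℤ,
  (∀ x, Tp m q x → g x = f0 ((q : ZMod m) * x)) → (∀ x, ¬ Tp m q x → g x = 0) →
  (∀ z, f0 z ≠ 0 → ∃ x, Tp m q x ∧ z = (q : ZMod m) * x) →
  (∀ t' : ZMod m, P g ((q : ZMod m) * t') = (if q ^ 2 ∣ m then (q : ℚ) else q - 1) * P f0 t') ∧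
  ((∀ t' : ℕ, Pq m q t' → P f0 (t' : ZMod m) = 0) → ∀ t : ℕ, Pq m q t → P g (t : ZMod m) = 0)

/-- **Arithmetic lemma** (C6).  `n = m / gcd(Z, m)`, `Z/m = Z'/n` with `Z'` prime to `n`. Suppose `n ≥ 3`. Every unit mod `n` is `t Z'` mod `n` for some
`t` prime to `m`. `κ` odd: choose `t Z' ≡ 1` mod `n`: `|1/n - 1/2 - integer| ≥ 1/6`. `κ` even: choose `t Z' ≡ (n-1)/2` (`n` odd), `n/2 - 1` (`4 ∣ n`),
`n/2 - 2` (`n ≡ 2` mod `4`, `n ≥ 6`): the quotient by `n` is in `[1/6, 1/2]`. So `n ≤ 2`. -/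
def S_Arc : Prop := ∀ (m : ℕ) (Z κ : ℤ), 0 < m →
  (∀ t : ℕ, t.Coprime m → ∃ w : ℤ, |(t : ℚ) * Z / m - κ / 2 - w| < 1 / 6) → (m : ℤ) ∣ 2 * Z

/-- **Integrality** (C5).  Suppose `|P f0 t| < 1/6` for all `t` with `Pq m q t`. Then `P f0 t = 0` for these `t`.  Put `Z = ∑_z f0(z) z.val`,
`κ = ∑_{z ≠ 0} f0(z)`. `sz(x) = x.val/m - 1/2` for `x ≠ 0` and `(t z).val ≡ t z.val` mod `m`. For `t` prime to `m`: `t z = 0` iff `z = 0`, so
`P f0 t = t Z/m - κ/2 - integer` and `S_Arc` gives `m ∣ 2 Z`. Then for all `t`: `2 P f0 t` is an integer (`2 P f0 t ≡ 2 t Z/m` mod `1`), and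
`|2 P f0 t| < 1/3`. -/
def S_Int : Prop := ∀ (m q : ℕ) [NeZero m] (f0 : ZMod m → ℤ),
  (∀ t : ℕ, Pq m q t → |P f0 (t : ZMod m)| < 1 / 6) → ∀ t : ℕ, Pq m q t → P f0 (t : ZMod m) = 0

/-- **The top part satisfies the relations** (C7).  `f` odd, `Rl f`, `∑ |f| ≤ 2 N`, `6 N < q - 1`. `S_SpanF` (first part) for `ft` gives `g`;
`S_KInv`, `S_Orb`: `f0`. For `t'` with `Pq m q t'`: `Pq m q (q t')`, `P ft (q t') = P g (q t')` (`S_DGBas` (1)) `= c P f0 t'` (`S_Fib`),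
`|P ft (q t')| ≤ (1/2) ∑ |f| ≤ N` (`S_SzBas`), `c ≥ q - 1 > 6 N`, so `|P f0 t'| < 1/6` (`N = 0`: it is `0`). `S_Int`, `S_Fib` (2), `P ft t = P g t`.
(If `N = 0` then `f = 0` and `ft = 0`; if `N ≥ 1` then `q ≠ 2`.) -/
def S_TopRel : Prop := ∀ (m q N : ℕ) [NeZero m], q ∈ m.primeFactors → 6 * N + 1 < q → ∀ f ft : ZMod m → ℤ, IsOdd f → Rl f →
  ∑ x, |f x| ≤ 2 * (N : ℤ) → (∀ x, Tp m q x → ft x = f x) → (∀ x, ¬ Tp m q x → ft x = 0) →
  ∀ t : ℕ, Pq m q t → P ft (t : ZMod m) = 0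

/-- **The top part is in `HD`** (C8).  `g` counts the top entries; `ft(x) = g(x) - g(-x)` satisfies `P ft t = 0` for `Pq m q t`. `S_SpanF` (second part):
`g - gb ∈ DGp m q`. `S_DGBas` (3): `(g - gb)(x) - (g - gb)(-x) ∈ DG m q`, so `P (gb(x) - gb(-x)) t = 0`, and this is `2 P gb t`. By `S_IndOdd` `gb = 0`,
and `S_DGBas` (5). -/
def S_TopHD : Prop := ∀ (m q : ℕ) [NeZero m], q ∈ m.primeFactors → q ≠ 2 → ∀ g : ZMod m → ℤ, (∀ x, g x ≠ 0 → Tp m q x) →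
  (∀ t : ℕ, Pq m q t → P (fun x => g x - g (-x)) (t : ZMod m) = 0) → cl g ∈ HD

/-- **THEOREM FR, one prime.**  `m = q m1`. Let `f(x) = cnt a x - cnt a (-x)` (`S_Tup`), `ft` its top part, `g` the top part of `cnt a`. By `S_TopRel`
`P ft t = 0` for `Pq m q t`; `S_TopHD`: the sum of the `[a_i]`, `a_i` top, is in `HD`. The other `a_i` (`¬ Tp`) satisfy
Stickelberger's relation (`P (f - ft) t = 0` for units `t`) and are killed by `m1`: `a_i.val = q w_i`, `b_i = w_i` mod `m1`,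
`toAddCircle b_i = toAddCircle a_i`, `b_i ≠ 0`; units mod `m1` lift to units mod `m`, `sz (t b_i) = sz (t' a_i)`. Number them with `Fin n`
(`Fintype.equivFin` of the subtype). If `N = 0` then `ι` is empty and `n = 0`; if `N ≥ 1` then `q ≠ 2`. -/
def S_FR1 : Prop := ∀ (m1 q N : ℕ) [NeZero m1] [NeZero (q * m1)] (ι : Type) [Fintype ι] (a : ι → ZMod (q * m1)), q.Prime →
  6 * N + 1 < q → Fintype.card ι ≤ N → (∀ i, a i ≠ 0) → St a →
  ∃ (n : ℕ) (b : Fin n → ZMod m1), n ≤ Fintype.card ι ∧ (∀ i, b i ≠ 0) ∧ St b ∧ clt a - clt b ∈ HD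

/-- **THEOREM FR.**  Induction on `m / s`: if `m = s` nothing is to be shown; otherwise take a prime `q ∣ m / s`, `m = q m1`, `s ∣ m1`, use `S_FR1` and the
induction hypothesis for `m1` (`m1 / s = (m / s) / q`). -/
def S_FR : Prop := ∀ (s m N : ℕ) [NeZero s] [NeZero m] (ι : Type) [Fintype ι] (a : ι → ZMod m), s ∣ m →
  (∀ q : ℕ, q.Prime → q ∣ m / s → 6 * N + 1 < q) → Fintype.card ι ≤ N → (∀ i, a i ≠ 0) → St a →
  ∃ (n : ℕ) (b : Fin n → ZMod s), n ≤ Fintype.card ι ∧ (∀ i, b i ≠ 0) ∧ St b ∧ clt a - clt b ∈ HD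

end Pool.Agent.FO
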