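import Pool.Agent.Lib.MP_640417_ag.FO.SpecH

/-!
# Theorem FO, sharp form: the reduction step for `d` odd or `4 ∣ d` (helper24)
-/

set_option autoImplicit false

open Finset Pool.Agent.FC

namespace Pool.Agent.FO

namespace StepAGAux

private lemma W2_nonneg (n : ℕ) : 0 ≤ W2 n := by
  unfold W2
  split_ifs <;> norm_num

private lemma W2_div_le (d p : ℕ) (hp : p ∣ d) : W2 (d / p) ≤ W2 d := by
  unfold W2
  by_cases h1 : 2 ∣ d / p
  · have h2 : 2 ∣ d := h1.trans (Nat.div_dvd_of_dvd hp)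
    rw [if_pos h1, if_pos h2]
  · rw [if_neg h1]
    split_ifs <;> norm_num

private lemma nm_nonneg {G : Type} [Fintype G] (F : G → ℤ) : 0 ≤ nm F :=
  Finset.sum_nonneg fun _ _ => abs_nonneg _

end StepAGAux

open StepAGAux in
theorem pStepAG (hVVBas : S_VVBas) (hTopG : S_TopG) (hStepGen : S_StepGen) (hCxBas : S_CxBas)
    (hDS : S_DS) (hAriS : S_AriS) : S_StepAG := by
  classical
  intro m d m' N' _ hdm hd4 hm' hdm' hcond f hodd hRl hord hV
  have hm0 : m ≠ 0 := NeZero.ne m
  have hd0 : d ≠ 0 := by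
    rintro rfl
    exact hm0 (Nat.eq_zero_of_zero_dvd hdm)
  have hdne : NeZero d := ⟨hd0⟩
  have hdpos : 0 < d := Nat.pos_of_ne_zero hd0
  obtain ⟨e1, e2, e3, _, e5, _⟩ := hEl m d hdm
  obtain ⟨k1, k2⟩ := pKpBas d
  obtain ⟨F, hF⟩ : ∃ F : (ZMod d)ˣ → ℤ, F = fun u => f (el m d u) := ⟨_, rfl⟩
  have hFa : ∀ u, F u = f (el m d u) := fun u => by rw [hF]
  have hTl : TlA d F := by
    rw [hF]
    refine hTopG m d hdm f hodd hRl fun x hx hdv => ?_
    exact le_antisymm (hord x hx) (Nat.le_of_dvd (addOrderOf_pos x) hdv)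
  have hFodd : ∀ u, F (-1 * u) = -F u := by
    intro u
    rw [hFa, hFa, neg_one_mul, e5, hodd]
  have hnm : W2 d * nm F ≤ VV W2 f := by
    rw [hF]
    exact (hVVBas m W2 W2 f f W2_nonneg W2_nonneg).2.2.2.2.2 d hdm
  have hari := hAriS m' N' d (nm F) hm' hcond hdm' hd4 (nm_nonneg F)
    (by rw [mul_comm]; exact hnm.trans hV)
  obtain ⟨E, hE1, hE2⟩ := hDS d F hFodd hTl (by
    intro p hp q hq hpq
    rw [k2 p hp, k2 q hq]
    exact hari p hp q hq hpq)
  have hE1' : Dcm d (fun u => f (el m d u)) E := by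
    rw [← hF]
    exact hE1
  obtain ⟨h, h1, h2, h3, h4⟩ := hStepGen m d hdm hd4 f E hE1'
  refine ⟨h, h1, ?_, ?_⟩
  · intro x hx
    by_contra hlt
    rw [not_lt] at hlt
    rcases eq_or_lt_of_le hlt with h5 | h5
    · apply hx
      rw [h2 x h5.symm, sub_self]
    · have hfx : f x = 0 := by
        by_contra h6
        have := hord x h6
        omega
      have hhx : h x = 0 := by
        by_contra h6
        rcases h3 x h6 with h7 | ⟨p, hp, h7⟩
        · omega
        · have : d / p ≤ d := Nat.div_le_self d p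
          omega
      apply hx
      rw [hfx, hhx, sub_zero]
  · have h5 := h4 W2 W2_nonneg
    rw [← hF] at h5
    have h6 : ∑ p ∈ d.primeFactors, (W2 (d / p) : ℚ) * cx d p (E p) ≤ (W2 d : ℚ) * nm F := by
      calc ∑ p ∈ d.primeFactors, (W2 (d / p) : ℚ) * cx d p (E p)
          ≤ ∑ p ∈ d.primeFactors, (W2 d : ℚ) * ct (Kp d p) (E p) := by
            refine Finset.sum_le_sum fun p hp => ?_
            obtain ⟨c1, c2, _⟩ := hCxBas d p hp (E p)
            have h7 : (W2 (d / p) : ℚ) ≤ W2 d := by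
              exact_mod_cast W2_div_le d p (Nat.dvd_of_mem_primeFactors hp)
            have h8 : (0 : ℚ) ≤ W2 d := by exact_mod_cast W2_nonneg d
            exact (mul_le_mul_of_nonneg_right h7 c1).trans
              (mul_le_mul_of_nonneg_left (c2 hd4) h8)
        _ = (W2 d : ℚ) * ∑ p ∈ d.primeFactors, ct (Kp d p) (E p) := by rw [Finset.mul_sum]
        _ ≤ (W2 d : ℚ) * nm F := by
            have h8 : (0 : ℚ) ≤ W2 d := by exact_mod_cast W2_nonneg d
            exact mul_le_mul_of_nonneg_left hE2 h8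
    have h7 : (VV W2 (fun x => f x - h x) : ℚ) ≤ VV W2 f := by linarith
    exact_mod_cast h7

end Pool.Agent.FO
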