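import Pool.Agent.Lib.MP_640417_ag.FO.SpecH

/-!
# Theorem FG, part H, module StepBG: the step for `d = 2` mod `4` with the weights `W2`
-/

set_option autoImplicit false

noncomputable section

open Finset Pool.Agent.FC

namespace Pool.Agent.FO

namespace StepBGAux

private lemma mem_sK {G : Type} [Group G] [Fintype G] (K : Subgroup G) (k : G) :
    k ∈ sK K ↔ k ∈ K := by
  unfold sK
  simp

private theorem w20 (n : ℕ) : 0 ≤ W2 n := by
  unfold W2
  split_ifs <;> norm_num

/-- Bookkeeping (as `pVBk`). -/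
private theorem bk (m d : ℕ) [NeZero m] [NeZero d] (hd : d ∣ m) (w : ℕ → ℤ) (hw : ∀ n, 0 ≤ w n)
    (f h : ZMod m → ℤ) (hf : ∀ u : (ZMod d)ˣ, h (el m d u) = f (el m d u)) :
    VV w (fun x => f x - h x) + w d * nm (fun u : (ZMod d)ˣ => f (el m d u)) ≤
      VV w f + ∑ x ∈ univ.filter (fun x : ZMod m => addOrderOf x ≠ d), |h x| * w (addOrderOf x) := by
  obtain ⟨e1, e2, e3, -⟩ := hEl m d hd
  have hsum : ∑ x ∈ univ.filter (fun x : ZMod m => addOrderOf x = d), |f x| * w (addOrderOf x) =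
      w d * nm (fun u : (ZMod d)ˣ => f (el m d u)) := by
    unfold nm
    rw [Finset.mul_sum]
    symm
    refine Finset.sum_bij (fun u _ => el m d u) ?_ ?_ ?_ ?_
    · intro u _
      rw [Finset.mem_filter]
      exact ⟨Finset.mem_univ _, e1 u⟩
    · intro u _ v _ huv
      exact e2 u v huv
    · intro x hx
      obtain ⟨u, hu⟩ := e3 x (Finset.mem_filter.1 hx).2
      exact ⟨u, Finset.mem_univ _, hu⟩
    · intro u _
      rw [e1 u, mul_comm]
  have hV : ∀ g : ZMod m → ℤ, VV w g =
      ∑ x ∈ univ.filter (fun x : ZMod m => addOrderOf x = d), |g x| * w (addOrderOf x) +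
      ∑ x ∈ univ.filter (fun x : ZMod m => addOrderOf x ≠ d), |g x| * w (addOrderOf x) := by
    intro g
    unfold VV
    rw [Finset.sum_filter_add_sum_filter_not]
  have h0 : ∑ x ∈ univ.filter (fun x : ZMod m => addOrderOf x = d),
      |f x - h x| * w (addOrderOf x) = 0 := by
    refine Finset.sum_eq_zero fun x hx => ?_
    obtain ⟨u, rfl⟩ := e3 x (Finset.mem_filter.1 hx).2
    rw [hf u, sub_self, abs_zero, zero_mul]
  have h1 : ∑ x ∈ univ.filter (fun x : ZMod m => addOrderOf x ≠ d),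
      |f x - h x| * w (addOrderOf x) ≤
      ∑ x ∈ univ.filter (fun x : ZMod m => addOrderOf x ≠ d), |f x| * w (addOrderOf x) +
      ∑ x ∈ univ.filter (fun x : ZMod m => addOrderOf x ≠ d), |h x| * w (addOrderOf x) := by
    rw [← Finset.sum_add_distrib]
    refine Finset.sum_le_sum fun x _ => ?_
    rw [← add_mul]
    exact mul_le_mul_of_nonneg_right (abs_sub (f x) (h x)) (hw _)
  have h2 := hV (fun x => f x - h x)
  rw [h0] at h2
  have h3 := hV f
  rw [hsum] at h3
  rw [h2, h3]
  linarith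

/-- New terms for `p = 2` (as `pNew`, second case). -/
private theorem new2 (m d : ℕ) [NeZero m] [NeZero d] (hdm : d ∣ m) (h2d : 2 ∣ d) (hnp : ¬ 2 ∣ d / 2)
    (w : ℕ → ℤ) (hw : ∀ n, 0 ≤ w n) (G : ZMod m → ℤ) (hG : ∀ z, G z ≠ 0 → addOrderOf z = d / 2) :
    ∑ x ∈ univ.filter (fun x : ZMod m => addOrderOf x ≠ d), |hD 2 G x| * w (addOrderOf x) ≤
      2 * w (d / 2) * ∑ z, |G z| := by
  obtain ⟨-, -, -, h4, h5⟩ := hElP m d 2 hdm Nat.prime_two h2d
  have hGx : ∀ x : ZMod m, |G x| * w (addOrderOf x) = w (d / 2) * |G x| := by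
    intro x
    by_cases h : G x = 0
    · rw [h, abs_zero, zero_mul, mul_zero]
    · rw [hG x h, mul_comm]
  have hsum : ∑ x ∈ univ.filter (fun x : ZMod m => addOrderOf x ≠ d), w (d / 2) * |G x| ≤
      w (d / 2) * ∑ z, |G z| := by
    rw [← mul_sum]
    refine mul_le_mul_of_nonneg_left ?_ (hw _)
    exact sum_le_sum_of_subset_of_nonneg (filter_subset _ _) fun x _ _ => abs_nonneg _
  have hsum2 : ∑ x ∈ univ.filter (fun x : ZMod m => addOrderOf x ≠ d),
      w (d / 2) * (if addOrderOf x = d / 2 then |G (((2 : ℕ) : ZMod m) * x)| else 0) ≤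
      w (d / 2) * ∑ z, |G z| := by
    rw [← mul_sum]
    refine mul_le_mul_of_nonneg_left ?_ (hw _)
    calc ∑ x ∈ univ.filter (fun x : ZMod m => addOrderOf x ≠ d),
          (if addOrderOf x = d / 2 then |G (((2 : ℕ) : ZMod m) * x)| else 0)
        ≤ ∑ x : ZMod m, (if addOrderOf x = d / 2 then |G (((2 : ℕ) : ZMod m) * x)| else 0) := by
          refine sum_le_sum_of_subset_of_nonneg (filter_subset _ _) fun x _ _ => ?_
          split_ifs
          · exact abs_nonneg _
          · exact le_rfl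
      _ = ∑ x ∈ univ.filter (fun x : ZMod m => addOrderOf x = d / 2),
          |G (((2 : ℕ) : ZMod m) * x)| := (sum_filter _ _).symm
      _ = ∑ z ∈ (univ.filter (fun x : ZMod m => addOrderOf x = d / 2)).image
          (fun x => ((2 : ℕ) : ZMod m) * x), |G z| := by
          rw [sum_image]
          intro x hx y hy hxy
          exact h5 hnp x y (mem_filter.1 (mem_coe.1 hx)).2 (mem_filter.1 (mem_coe.1 hy)).2 hxy
      _ ≤ ∑ z, |G z| :=
          sum_le_sum_of_subset_of_nonneg (subset_univ _) fun x _ _ => abs_nonneg _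
  have hle : ∀ x ∈ univ.filter (fun x : ZMod m => addOrderOf x ≠ d),
      |hD 2 G x| * w (addOrderOf x) ≤
      w (d / 2) * (if addOrderOf x = d / 2 then |G (((2 : ℕ) : ZMod m) * x)| else 0) +
        w (d / 2) * |G x| := by
    intro x hx
    have hx' : addOrderOf x ≠ d := (mem_filter.1 hx).2
    have h1 : |hD 2 G x| ≤ |G (((2 : ℕ) : ZMod m) * x)| + |G x| := by
      rw [hD]
      exact abs_sub _ _
    have h2 : |G (((2 : ℕ) : ZMod m) * x)| * w (addOrderOf x) =
        w (d / 2) * (if addOrderOf x = d / 2 then |G (((2 : ℕ) : ZMod m) * x)| else 0) := by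
      by_cases h : G (((2 : ℕ) : ZMod m) * x) = 0
      · rw [h, abs_zero, zero_mul]
        split_ifs <;> rw [mul_zero]
      · rcases h4 x (hG _ h) with h6 | h6
        · exact absurd h6 hx'
        · rw [if_pos h6.1, h6.1, mul_comm]
    calc |hD 2 G x| * w (addOrderOf x)
        ≤ (|G (((2 : ℕ) : ZMod m) * x)| + |G x|) * w (addOrderOf x) :=
          mul_le_mul_of_nonneg_right h1 (hw _)
      _ = _ := by rw [add_mul, h2, hGx x]
  refine le_trans (sum_le_sum hle) ?_
  rw [sum_add_distrib]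
  calc _ ≤ w (d / 2) * ∑ z, |G z| + w (d / 2) * ∑ z, |G z| := add_le_add hsum2 hsum
    _ = 2 * w (d / 2) * ∑ z, |G z| := by ring

end StepBGAux

open StepBGAux

theorem pStepBG : S_StepBG := by
  intro m d _ hdm hd4 f hodd hord
  have hm0 : m ≠ 0 := NeZero.ne m
  have hd0 : d ≠ 0 := by
    rintro rfl
    simp at hd4
  have hdne : NeZero d := ⟨hd0⟩
  have h2d : 2 ∣ d := by omega
  have h4d : ¬ 2 ^ 2 ∣ d := by
    intro h
    obtain ⟨k, hk⟩ := h
    omega
  have h2m : 2 ∈ d.primeFactors := Nat.mem_primeFactors.2 ⟨Nat.prime_two, h2d, hd0⟩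
  obtain ⟨e1, e2, e3, _, e5, _⟩ := hEl m d hdm
  obtain ⟨_, _, _, p4, _⟩ := hElP m d 2 hdm Nat.prime_two h2d
  have hcard : ((sK (Kp d 2)).card : ℤ) = 1 := by
    rw [(pKpBas d).2 2 h2m, if_neg h4d]
    norm_num
  have hcard' : (sK (Kp d 2)).card = 1 := by exact_mod_cast hcard
  have htriv : ∀ k ∈ Kp d 2, k = 1 := by
    intro k hk
    obtain ⟨c, hc⟩ := Finset.card_eq_one.1 hcard'
    have h1 : k ∈ sK (Kp d 2) := (mem_sK _ _).2 hk
    have h2 : (1 : (ZMod d)ˣ) ∈ sK (Kp d 2) := (mem_sK _ _).2 (Kp d 2).one_mem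
    rw [hc, Finset.mem_singleton] at h1 h2
    rw [h1, h2]
  obtain ⟨G, hG1, hG2, hG3, hG4⟩ := hLift m d 2 hdm Nat.prime_two h2d (fun u => f (el m d u)) (by
    intro u
    show f (el m d (-1 * u)) = -f (el m d u)
    rw [neg_one_mul, e5, hodd]) (by
    intro k hk u
    rw [htriv k hk, one_mul])
  rw [hcard, one_mul] at hG4
  have hhalf : d / 2 ≠ d := by omega
  have hGel : ∀ u, G (el m d u) = 0 := by
    intro u
    by_contra h
    have h1 := (hG2 _ h).1
    rw [e1 u] at h1
    exact hhalf h1.symm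
  have hval : ∀ u : (ZMod d)ˣ, hD 2 G (el m d u) = f (el m d u) := by
    intro u
    unfold hD
    rw [hGel, sub_zero]
    exact hG3 u
  refine ⟨hD 2 G, ?_, ?_, ?_⟩
  · have h1 := pHoHd m {2} (fun _ => G) (by
      intro p hp
      rw [Finset.mem_singleton] at hp
      rw [hp]
      exact Nat.mem_primeFactors.2 ⟨Nat.prime_two, h2d.trans hdm, hm0⟩) (by
      intro p hp
      rw [Finset.mem_singleton] at hp
      rw [hp]
      exact ⟨hG1, fun z hz => (hG2 z hz).2⟩)
    simp only [Finset.sum_singleton] at h1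
    exact h1
  · intro x hx
    by_contra hlt
    rw [not_lt] at hlt
    rcases eq_or_lt_of_le hlt with h | h
    · obtain ⟨u, rfl⟩ := e3 x h.symm
      rw [hval, sub_self] at hx
      exact hx rfl
    · have hfx : f x = 0 := by
        by_contra h1
        have := hord x h1
        omega
      have hGx : G x = 0 := by
        by_contra h1
        have := (hG2 _ h1).1
        omega
      have hG2x : G ((2 : ℕ) * x) = 0 := by
        by_contra h1
        have h2 := (hG2 _ h1).1
        rcases p4 x h2 with h3 | ⟨h3, _⟩ <;> omega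
      apply hx
      unfold hD
      rw [hfx, hGx, hG2x]
      ring
  · have h1 := bk m d hdm W2 w20 f (hD 2 G) hval
    have h2 := new2 m d hdm h2d (by omega) W2 w20 G (fun z hz => (hG2 z hz).1)
    rw [hG4] at h2
    have h3 : W2 d = 2 * W2 (d / 2) := by
      unfold W2
      have a1 : ¬ 2 ∣ d / 2 := by omega
      rw [if_pos h2d, if_neg a1]
      norm_num
    rw [← h3] at h2
    linarith

end Pool.Agent.FO
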