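import Pool.Agent.Lib.MP_640417_ag.FO.SpecH

/-!
# Theorem FG, module StepGen: the general reduction step (helper56)
-/

set_option autoImplicit false

open Finset Pool.Agent.FC

namespace Pool.Agent.FO

namespace StepGenAux

/-- New terms with a general weight (adapted from `pNew`). -/
private theorem newW {m d p : ℕ} [NeZero m] (hdm : d ∣ m) (hp : p.Prime) (hpd : p ∣ d)
    (w : ℕ → ℤ) (hw : ∀ n, 0 ≤ w n) (G : ZMod m → ℤ) (hG : ∀ z, G z ≠ 0 → addOrderOf z = d / p) :
    ∑ x ∈ univ.filter (fun x : ZMod m => addOrderOf x ≠ d), |hD p G x| * w (addOrderOf x) ≤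
      (if p ^ 2 ∣ d then 1 else 2) * w (d / p) * ∑ z, |G z| := by
  classical
  have : NeZero d := ⟨fun h => NeZero.ne m (Nat.eq_zero_of_zero_dvd (h ▸ hdm))⟩
  obtain ⟨-, -, -, h4, h5⟩ := hElP m d p hdm hp hpd
  have hiff : p ^ 2 ∣ d ↔ p ∣ d / p := by
    rw [Nat.dvd_div_iff_mul_dvd hpd, sq]
  have hGx : ∀ x : ZMod m, |G x| * w (addOrderOf x) = w (d / p) * |G x| := by
    intro x
    by_cases h : G x = 0
    · rw [h, abs_zero, zero_mul, mul_zero]
    · rw [hG x h, mul_comm]
  have hsum : ∑ x ∈ univ.filter (fun x : ZMod m => addOrderOf x ≠ d), w (d / p) * |G x| ≤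
      w (d / p) * ∑ z, |G z| := by
    rw [← mul_sum]
    refine mul_le_mul_of_nonneg_left ?_ (hw _)
    exact sum_le_sum_of_subset_of_nonneg (filter_subset _ _) fun x _ _ => abs_nonneg _
  by_cases hpp : p ^ 2 ∣ d
  · rw [if_pos hpp, one_mul]
    refine le_trans (sum_le_sum fun x hx => ?_) hsum
    have hx' : addOrderOf x ≠ d := (mem_filter.1 hx).2
    have h0 : G ((p : ZMod m) * x) = 0 := by
      by_contra h
      rcases h4 x (hG _ h) with h6 | h6
      · exact hx' h6
      · exact h6.2 (hiff.1 hpp)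
    rw [← hGx x, hD, h0, zero_sub, abs_neg]
  · rw [if_neg hpp]
    have hnp : ¬ p ∣ d / p := fun h => hpp (hiff.2 h)
    have hsum2 : ∑ x ∈ univ.filter (fun x : ZMod m => addOrderOf x ≠ d),
        w (d / p) * (if addOrderOf x = d / p then |G ((p : ZMod m) * x)| else 0) ≤
        w (d / p) * ∑ z, |G z| := by
      rw [← mul_sum]
      refine mul_le_mul_of_nonneg_left ?_ (hw _)
      calc ∑ x ∈ univ.filter (fun x : ZMod m => addOrderOf x ≠ d),
            (if addOrderOf x = d / p then |G ((p : ZMod m) * x)| else 0)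
          ≤ ∑ x : ZMod m, (if addOrderOf x = d / p then |G ((p : ZMod m) * x)| else 0) := by
            refine sum_le_sum_of_subset_of_nonneg (filter_subset _ _) fun x _ _ => ?_
            split_ifs
            · exact abs_nonneg _
            · exact le_rfl
        _ = ∑ x ∈ univ.filter (fun x : ZMod m => addOrderOf x = d / p),
            |G ((p : ZMod m) * x)| := (sum_filter _ _).symm
        _ = ∑ z ∈ (univ.filter (fun x : ZMod m => addOrderOf x = d / p)).image
            (fun x => (p : ZMod m) * x), |G z| := by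
            rw [sum_image]
            intro x hx y hy hxy
            exact h5 hnp x y (mem_filter.1 (mem_coe.1 hx)).2 (mem_filter.1 (mem_coe.1 hy)).2 hxy
        _ ≤ ∑ z, |G z| :=
            sum_le_sum_of_subset_of_nonneg (subset_univ _) fun x _ _ => abs_nonneg _
    have hle : ∀ x ∈ univ.filter (fun x : ZMod m => addOrderOf x ≠ d),
        |hD p G x| * w (addOrderOf x) ≤
        w (d / p) * (if addOrderOf x = d / p then |G ((p : ZMod m) * x)| else 0) +
          w (d / p) * |G x| := by
      intro x hx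
      have hx' : addOrderOf x ≠ d := (mem_filter.1 hx).2
      have h1 : |hD p G x| ≤ |G ((p : ZMod m) * x)| + |G x| := by
        rw [hD]
        exact abs_sub _ _
      have h2 : |G ((p : ZMod m) * x)| * w (addOrderOf x) =
          w (d / p) * (if addOrderOf x = d / p then |G ((p : ZMod m) * x)| else 0) := by
        by_cases h : G ((p : ZMod m) * x) = 0
        · rw [h, abs_zero, zero_mul]
          split_ifs <;> rw [mul_zero]
        · rcases h4 x (hG _ h) with h6 | h6
          · exact absurd h6 hx'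
          · rw [if_pos h6.1, h6.1, mul_comm]
      calc |hD p G x| * w (addOrderOf x)
          ≤ (|G ((p : ZMod m) * x)| + |G x|) * w (addOrderOf x) :=
            mul_le_mul_of_nonneg_right h1 (hw _)
        _ = _ := by rw [add_mul, h2, hGx x]
    refine le_trans (sum_le_sum hle) ?_
    rw [sum_add_distrib]
    calc _ ≤ w (d / p) * ∑ z, |G z| + w (d / p) * ∑ z, |G z| := add_le_add hsum2 hsum
      _ = 2 * w (d / p) * ∑ z, |G z| := by ring

/-- Potential bookkeeping: the terms of order `d` disappear, the others grow by at most `|h x|`. -/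
private theorem vvBk {m d : ℕ} [NeZero m] [NeZero d] (hdm : d ∣ m) (w : ℕ → ℤ) (hw : ∀ n, 0 ≤ w n)
    (f h : ZMod m → ℤ) (hval : ∀ u : (ZMod d)ˣ, h (el m d u) = f (el m d u)) :
    VV w (fun x => f x - h x) + w d * nm (fun u : (ZMod d)ˣ => f (el m d u)) ≤
      VV w f + ∑ x ∈ univ.filter (fun x : ZMod m => addOrderOf x ≠ d), |h x| * w (addOrderOf x) := by
  classical
  obtain ⟨e1, e2, e3, _, _, _⟩ := hEl m d hdm
  -- split the sums
  have hsp : ∀ g : ZMod m → ℤ, ∑ x, |g x| * w (addOrderOf x) =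
      ∑ x ∈ univ.filter (fun x : ZMod m => addOrderOf x = d), |g x| * w (addOrderOf x) +
      ∑ x ∈ univ.filter (fun x : ZMod m => addOrderOf x ≠ d), |g x| * w (addOrderOf x) := fun g =>
    (sum_filter_add_sum_filter_not univ (fun x : ZMod m => addOrderOf x = d) _).symm
  have htop : ∑ x ∈ univ.filter (fun x : ZMod m => addOrderOf x = d), |f x| * w (addOrderOf x) =
      w d * nm (fun u : (ZMod d)ˣ => f (el m d u)) := by
    have himg : univ.filter (fun x : ZMod m => addOrderOf x = d) =
        (univ : Finset (ZMod d)ˣ).image (fun u => el m d u) := by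
      ext x
      simp only [mem_filter, mem_univ, true_and, mem_image]
      constructor
      · intro hx
        exact e3 x hx
      · rintro ⟨u, rfl⟩
        exact e1 u
    rw [himg, sum_image (fun u _ v _ huv => e2 u v huv), nm, mul_sum]
    refine sum_congr rfl fun u _ => ?_
    rw [e1 u, mul_comm]
  have hzero : ∑ x ∈ univ.filter (fun x : ZMod m => addOrderOf x = d),
      |f x - h x| * w (addOrderOf x) = 0 := by
    refine sum_eq_zero fun x hx => ?_
    obtain ⟨u, rfl⟩ := e3 x (mem_filter.1 hx).2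
    rw [hval, sub_self, abs_zero, zero_mul]
  have hrest : ∑ x ∈ univ.filter (fun x : ZMod m => addOrderOf x ≠ d),
      |f x - h x| * w (addOrderOf x) ≤
      ∑ x ∈ univ.filter (fun x : ZMod m => addOrderOf x ≠ d), |f x| * w (addOrderOf x) +
      ∑ x ∈ univ.filter (fun x : ZMod m => addOrderOf x ≠ d), |h x| * w (addOrderOf x) := by
    rw [← sum_add_distrib]
    refine sum_le_sum fun x _ => ?_
    rw [← add_mul]
    exact mul_le_mul_of_nonneg_right (abs_sub _ _) (hw _)
  have h1 : VV w (fun x => f x - h x) = ∑ x ∈ univ.filter (fun x : ZMod m => addOrderOf x ≠ d),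
      |f x - h x| * w (addOrderOf x) := by
    unfold VV
    rw [hsp (fun x => f x - h x), hzero, zero_add]
  have h2 : VV w f = w d * nm (fun u : (ZMod d)ˣ => f (el m d u)) +
      ∑ x ∈ univ.filter (fun x : ZMod m => addOrderOf x ≠ d), |f x| * w (addOrderOf x) := by
    unfold VV
    rw [hsp f, htop]
  rw [h1, h2]
  linarith

end StepGenAux

open StepGenAux in
theorem pStepGen : S_StepGen := by
  classical
  intro m d _ _ hdm _ f E hDcm
  obtain ⟨hE1, hE2⟩ := hDcm
  have hm0 : m ≠ 0 := NeZero.ne m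
  have hd0 : d ≠ 0 := NeZero.ne d
  have hdpos : 0 < d := Nat.pos_of_ne_zero hd0
  obtain ⟨e1, _, e3, _, _, _⟩ := hEl m d hdm
  obtain ⟨_, k2⟩ := pKpBas d
  -- the lifts
  have hex : ∀ p : ℕ, ∃ G : ZMod m → ℤ, p ∈ d.primeFactors → (IsOdd G ∧
      (∀ z, G z ≠ 0 → addOrderOf z = d / p ∧ ∃ x, z = p * x) ∧
      (∀ u, G (p * el m d u) = E p u) ∧ ((sK (Kp d p)).card : ℤ) * ∑ z, |G z| = nm (E p)) := by
    intro p
    by_cases hp : p ∈ d.primeFactors
    · obtain ⟨G, h1⟩ := hLift m d p hdm (Nat.prime_of_mem_primeFactors hp)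
        (Nat.dvd_of_mem_primeFactors hp) (E p) (hE1 p hp).1 (hE1 p hp).2
      exact ⟨G, fun _ => h1⟩
    · exact ⟨0, fun h => absurd h hp⟩
  choose G hG using hex
  have hdiv : ∀ p ∈ d.primeFactors, d / p < d := fun p hp =>
    Nat.div_lt_self hdpos (Nat.prime_of_mem_primeFactors hp).one_lt
  have hGel : ∀ p ∈ d.primeFactors, ∀ u, G p (el m d u) = 0 := by
    intro p hp u
    by_contra h
    have h1 := ((hG p hp).2.1 _ h).1
    rw [e1 u] at h1
    have := hdiv p hp
    omega
  obtain ⟨h, hh⟩ : ∃ h : ZMod m → ℤ, h = fun x => ∑ p ∈ d.primeFactors, hD p (G p) x := ⟨_, rfl⟩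
  have hha : ∀ x, h x = ∑ p ∈ d.primeFactors, hD p (G p) x := fun x => by rw [hh]
  have hval : ∀ u : (ZMod d)ˣ, h (el m d u) = f (el m d u) := by
    intro u
    have h0 : f (el m d u) = ∑ p ∈ d.primeFactors, E p u := hE2 u
    rw [hha, h0]
    refine Finset.sum_congr rfl fun p hp => ?_
    unfold hD
    rw [hGel p hp, sub_zero]
    exact (hG p hp).2.2.1 u
  refine ⟨h, ?_, ?_, ?_, ?_⟩
  · rw [hh]
    apply pHoHd m d.primeFactors G (Nat.primeFactors_mono hdm hm0)
    intro p hp
    exact ⟨(hG p hp).1, fun z hz => ((hG p hp).2.1 z hz).2⟩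
  · intro x hx
    obtain ⟨u, rfl⟩ := e3 x hx
    exact hval u
  · intro x hx
    by_contra hcon
    rw [not_or] at hcon
    obtain ⟨hc1, hc2⟩ := hcon
    have hc3 : ∀ p ∈ d.primeFactors, addOrderOf x ≠ d / p := fun p hp h1 => hc2 ⟨p, hp, h1⟩
    apply hx
    rw [hha]
    refine Finset.sum_eq_zero fun p hp => ?_
    have hGx : G p x = 0 := by
      by_contra h2
      exact hc3 p hp ((hG p hp).2.1 _ h2).1
    have hGpx : G p ((p : ZMod m) * x) = 0 := by
      by_contra h2
      have h3 := ((hG p hp).2.1 _ h2).1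
      obtain ⟨_, _, _, p4, _⟩ := hElP m d p hdm (Nat.prime_of_mem_primeFactors hp)
        (Nat.dvd_of_mem_primeFactors hp)
      rcases p4 x h3 with h4 | ⟨h4, _⟩
      · exact hc1 h4
      · exact hc3 p hp h4
    unfold hD
    rw [hGx, hGpx, sub_zero]
  · intro w hw
    have h1 := vvBk hdm w hw f h hval
    have h3 : ∑ x ∈ univ.filter (fun x : ZMod m => addOrderOf x ≠ d),
        |h x| * w (addOrderOf x) ≤
        ∑ p ∈ d.primeFactors, (if p ^ 2 ∣ d then 1 else 2) * w (d / p) * ∑ z, |G p z| := by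
      calc ∑ x ∈ univ.filter (fun x : ZMod m => addOrderOf x ≠ d), |h x| * w (addOrderOf x)
          ≤ ∑ x ∈ univ.filter (fun x : ZMod m => addOrderOf x ≠ d),
              ∑ p ∈ d.primeFactors, |hD p (G p) x| * w (addOrderOf x) := by
            refine Finset.sum_le_sum fun x _ => ?_
            rw [← Finset.sum_mul, hha]
            exact mul_le_mul_of_nonneg_right (Finset.abs_sum_le_sum_abs _ _) (hw _)
        _ = ∑ p ∈ d.primeFactors, ∑ x ∈ univ.filter (fun x : ZMod m => addOrderOf x ≠ d),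
              |hD p (G p) x| * w (addOrderOf x) := Finset.sum_comm
        _ ≤ _ := by
            refine Finset.sum_le_sum fun p hp => ?_
            exact newW hdm (Nat.prime_of_mem_primeFactors hp)
              (Nat.dvd_of_mem_primeFactors hp) w hw (G p) (fun z hz => ((hG p hp).2.1 z hz).1)
    have h4 : ∀ p ∈ d.primeFactors,
        (((if p ^ 2 ∣ d then 1 else 2) * w (d / p) * ∑ z, |G p z| : ℤ) : ℚ) =
          (w (d / p) : ℚ) * cx d p (E p) := by
      intro p hp
      have hkpos : (0 : ℚ) < ((sK (Kp d p)).card : ℚ) := by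
        have hc : 0 < (sK (Kp d p)).card := by
          refine Finset.card_pos.2 ⟨1, ?_⟩
          simp [sK, one_mem]
        exact_mod_cast hc
      have h5 : ((sK (Kp d p)).card : ℚ) * ((∑ z, |G p z| : ℤ) : ℚ) = (nm (E p) : ℚ) := by
        exact_mod_cast (hG p hp).2.2.2
      unfold cx
      rw [← h5]
      by_cases hpp : p ^ 2 ∣ d
      · rw [if_pos hpp, if_pos hpp, Int.cast_mul, Int.cast_mul]
        field_simp
        push_cast
        ring
      · rw [if_neg hpp, if_neg hpp, Int.cast_mul, Int.cast_mul]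
        field_simp
        push_cast
        ring
    have h6 : (((∑ p ∈ d.primeFactors, (if p ^ 2 ∣ d then 1 else 2) * w (d / p) *
        ∑ z, |G p z| : ℤ)) : ℚ) = ∑ p ∈ d.primeFactors, (w (d / p) : ℚ) * cx d p (E p) := by
      rw [Int.cast_sum]
      exact Finset.sum_congr rfl h4
    have h7 : VV w (fun x => f x - h x) + w d * nm (fun u : (ZMod d)ˣ => f (el m d u)) ≤
        VV w f + ∑ p ∈ d.primeFactors, (if p ^ 2 ∣ d then 1 else 2) * w (d / p) * ∑ z, |G p z| := by
      linarith
    rw [← h6]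
    exact_mod_cast h7

end Pool.Agent.FO
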