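import Pool.Agent.Lib.MP_640417_ag.FO.SpecG

/-!
# Theorem FG, part G: stripping
-/

set_option autoImplicit false

noncomputable section

open Finset Pool.Agent.FC

namespace Pool.Agent.FO

namespace StripGAux

variable {G : Type} [CommGroup G] [Fintype G]

omit [CommGroup G] in
private theorem nm0 (F : G → ℤ) : 0 ≤ nm F := Finset.sum_nonneg fun _ _ => abs_nonneg _

private theorem co_nonneg (k : ℕ) : 0 ≤ co k := by
  unfold co
  split_ifs <;> norm_num

private theorem co_le (k : ℕ) (hk : 0 < k) : co k ≤ k := by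
  unfold co
  split_ifs with h
  · exact_mod_cast hk
  · have : 2 ≤ k := by omega
    exact_mod_cast this

private theorem ct_le (K : Subgroup G) (F : G → ℤ) : ct K F ≤ nm F := by
  have h1 : 0 < (sK K).card := (gTBas G K K F F).2.1
  have h2 : ((sK K).card : ℚ) ≠ 0 := by exact_mod_cast h1.ne'
  have h3 : (0 : ℚ) < (sK K).card := by exact_mod_cast h1
  have h4 : (co (sK K).card : ℚ) ≤ (sK K).card := by exact_mod_cast co_le _ h1
  have h5 : (0 : ℚ) ≤ nm F := by exact_mod_cast nm0 F
  unfold ct
  have h6 : (co (sK K).card : ℚ) / (sK K).card ≤ 1 := by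
    rw [div_le_one h3]
    exact h4
  calc (co (sK K).card : ℚ) / (sK K).card * nm F ≤ 1 * nm F := mul_le_mul_of_nonneg_right h6 h5
    _ = nm F := one_mul _

/-- The inequality for one step. -/
private theorem ct_step (K : Subgroup G) (F E : G → ℤ) (hs : ∀ H : G → ℤ, ∑ a, cn K H a = (sK K).card * nm H)
    (h : ∀ a, co (sK K).card * |E a| + cn K (fun x => F x - E x) a ≤ cn K F a) :
    ct K E + nm (fun x => F x - E x) ≤ nm F := by
  have h1 : 0 < (sK K).card := (gTBas G K K F F).2.1
  have h3 : (0 : ℚ) < (sK K).card := by exact_mod_cast h1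
  have h4 : co (sK K).card * nm E + (sK K).card * nm (fun x => F x - E x) ≤ (sK K).card * nm F := by
    rw [← hs, ← hs]
    unfold nm
    rw [Finset.mul_sum, ← Finset.sum_add_distrib]
    exact Finset.sum_le_sum fun a _ => h a
  have h5 : (co (sK K).card : ℚ) * nm E + (sK K).card * nm (fun x => F x - E x) ≤
      (sK K).card * nm F := by exact_mod_cast h4
  unfold ct
  have h6 : (co (sK K).card : ℚ) / (sK K).card * nm E = (co (sK K).card : ℚ) * nm E / (sK K).card := by
    ring
  rw [h6, ← le_sub_iff_add_le, div_le_iff₀ h3]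
  linarith

end StripGAux

open StripGAux in
theorem pStripG (hCnBas : S_CnBas) (hMajG : S_MajG) : S_StripG := by
  intro G _ _ K lb
  induction lb with
  | nil =>
    intro ls _ _ ε B F hodd hT _ _
    refine ⟨fun _ _ => 0, F, fun i hi => absurd hi List.not_mem_nil, hodd, hT, fun a => ?_, ?_⟩
    · simp
    · simp
  | cons r lb ih =>
    intro ls hnd hI ε B F hodd hT hB hK
    obtain ⟨hr, hnd'⟩ : r ∉ lb ++ ls ∧ (lb ++ ls).Nodup := List.nodup_cons.1 hnd
    by_cases hrest : lb ++ ls = []
    · obtain ⟨h1, h2⟩ := List.append_eq_nil_iff.1 hrest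
      subst h1
      subst h2
      refine ⟨fun _ => F, fun _ => 0, fun i hi => ⟨hodd, ?_⟩, fun a => by simp, rfl, fun a => ?_, ?_⟩
      · have h1 : i = r := List.mem_singleton.1 hi
        subst h1
        have h2 : T (K i) F = 0 := hT
        exact ((gTBas G (K i) (K i) F F).2.2.2.2.2.2.2.1).1 h2
      · simp
      · have h1 := ct_le (K r) F
        have h2 : nm (fun _ : G => (0 : ℤ)) = 0 := by simp [nm]
        rw [h2]
        simpa using h1
    · have hnr : ∀ j ∈ lb ++ ls, r ≠ j := fun j hj h => hr (h ▸ hj)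
      obtain ⟨E0, hE2, hE3, hE4, _, hE6⟩ := hMajG G K r (lb ++ ls) hrest hI F hT
        (fun a j hj => by
          have h1 := hK r List.mem_cons_self j (List.mem_cons_of_mem _ hj) (hnr j hj)
          have h2 : cn (KS K (r :: (lb ++ ls))) F a ≤ B := hB a
          linarith)
      have hE1 : ∀ a, E0 (ε * a) = -E0 a := by
        intro a
        have h1 := hE6 ε (-1) (fun a => by rw [hodd]; ring) a
        rw [h1]
        ring
      obtain ⟨_, _, _, _, _, hc6, _, _, _⟩ := hCnBas G (K r) (K r) F F
      have hs : ∀ H : G → ℤ, ∑ a, cn (K r) H a = (sK (K r)).card * nm H := fun H =>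
        (hCnBas G (K r) (K r) H H).2.2.2.2.2.1
      have hstep := ct_step (K r) F E0 hs hE4
      have hle : ∀ a, cn (K r) (fun x => F x - E0 x) a ≤ cn (K r) F a := by
        intro a
        have h1 := hE4 a
        have h2 : 0 ≤ co (sK (K r)).card * |E0 a| := mul_nonneg (co_nonneg _) (abs_nonneg _)
        linarith
      have hKle : K r ≤ KS K (r :: (lb ++ ls)) := le_sup_left
      have hKle2 : KS K (lb ++ ls) ≤ KS K (r :: (lb ++ ls)) := le_sup_right
      have hle2 : ∀ a, cn (KS K (r :: (lb ++ ls))) (fun x => F x - E0 x) a ≤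
          cn (KS K (r :: (lb ++ ls))) F a :=
        (hCnBas G (K r) (KS K (r :: (lb ++ ls))) F (fun x => F x - E0 x)).2.2.2.2.2.2.1 hKle hle
      have hle3 : ∀ a, cn (KS K (lb ++ ls)) (fun x => F x - E0 x) a ≤ B := by
        intro a
        have h1 := (hCnBas G (KS K (lb ++ ls)) (KS K (r :: (lb ++ ls))) (fun x => F x - E0 x) F).2.2.2.1
          hKle2 a
        have h2 : cn (KS K (r :: (lb ++ ls))) F a ≤ B := hB a
        exact h1.trans ((hle2 a).trans h2)
      obtain ⟨E', H, h1, h2, h3, h4, h5⟩ := ih ls hnd' hI.2 ε B (fun a => F a - E0 a)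
        (fun a => by rw [hodd, hE1]; ring) hE3 hle3
        (fun i hi k hk hik => hK i (List.mem_cons_of_mem _ hi) k (List.mem_cons_of_mem _ hk) hik)
      have hrF : r ∉ lb.toFinset := by
        rw [List.mem_toFinset]
        exact fun h => hr (List.mem_append_left _ h)
      have hne : ∀ i ∈ lb, i ≠ r := fun i hi h => hr (List.mem_append_left _ (h ▸ hi))
      classical
      refine ⟨fun i => if i = r then E0 else E' i, H, fun i hi => ?_, h2, h3, fun a => ?_, ?_⟩
      · rcases List.mem_cons.1 hi with h | h
        · simp only [h, if_true]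
          exact ⟨hE1, hE2⟩
        · simp only [if_neg (hne i h)]
          exact h1 i h
      · rw [List.toFinset_cons, Finset.sum_insert hrF]
        have h6 : ∑ i ∈ lb.toFinset, (if i = r then E0 else E' i) a = ∑ i ∈ lb.toFinset, E' i a := by
          refine Finset.sum_congr rfl fun i hi => ?_
          rw [if_neg (hne i (List.mem_toFinset.1 hi))]
        have h7 : (fun i => if i = r then E0 else E' i) r = E0 := if_pos rfl
        rw [h6, h7, add_assoc, ← h4 a]
        ring
      · rw [List.toFinset_cons, Finset.sum_insert hrF]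
        have h6 : ∑ i ∈ lb.toFinset, ct (K i) (if i = r then E0 else E' i) =
            ∑ i ∈ lb.toFinset, ct (K i) (E' i) := by
          refine Finset.sum_congr rfl fun i hi => ?_
          rw [if_neg (hne i (List.mem_toFinset.1 hi))]
        have h7 : (fun i => if i = r then E0 else E' i) r = E0 := if_pos rfl
        rw [h6, h7]
        linarith

end Pool.Agent.FO
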