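import Pool.Agent.Lib.MP_640417_ag.FO.SpecL

set_option autoImplicit false

open Finset Pool.Agent.FC

namespace Pool.Agent.FO

theorem pSzBas : S_SzBas := by
  intro m _ x
  have hm : (0 : ℚ) < m := by exact_mod_cast Nat.pos_of_ne_zero (NeZero.ne m)
  have hv : ((x.val : ℕ) : ℚ) < m := by exact_mod_cast ZMod.val_lt x
  have hv0 : (0 : ℚ) ≤ ((x.val : ℕ) : ℚ) := Nat.cast_nonneg _
  refine ⟨?_, ?_, ?_⟩
  · by_cases hx : x = 0
    · rw [hx, neg_zero]
      unfold sz
      rw [if_pos rfl, neg_zero]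
    · unfold sz
      rw [if_neg hx, if_neg (fun h => hx (neg_eq_zero.1 h)), ZMod.neg_val, if_neg hx,
        Nat.cast_sub (ZMod.val_lt x).le]
      field_simp
      ring
  · unfold sz
    by_cases hx : x = 0
    · rw [if_pos hx, abs_zero]
      norm_num
    · rw [if_neg hx, abs_le]
      have h1 : (x.val : ℚ) / m < 1 := (div_lt_one hm).2 hv
      have h2 : 0 ≤ (x.val : ℚ) / m := div_nonneg hv0 hm.le
      constructor
      · linarith
      · linarith
  · intro hx
    have hm' : (0 : ℝ) < m := by exact_mod_cast Nat.pos_of_ne_zero (NeZero.ne m)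
    have hv' : ((x.val : ℕ) : ℝ) < m := by exact_mod_cast ZMod.val_lt x
    have h3 : (x.val : ℝ) / m ∈ Set.Ico (0 : ℝ) (0 + 1) := by
      rw [zero_add]
      exact ⟨div_nonneg (Nat.cast_nonneg _) hm'.le, (div_lt_one hm').2 hv'⟩
    unfold sz sw
    rw [if_neg hx, ZMod.toAddCircle_apply]
    have h4 := AddCircle.equivIco_coe_eq (p := (1 : ℝ)) (a := 0) h3
    rw [h4]
    push_cast
    rfl

end Pool.Agent.FO
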