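import Pool.Agent.Lib.MP_640417_ag.FO.SpecG

/-!
# Theorem FG, part G: three subgroups, decomposition in odd invariant functions
-/

set_option autoImplicit false

noncomputable section

open Finset Pool.Agent.FC

namespace Pool.Agent.FO

namespace ThreeAux

variable {G : Type} [CommGroup G] [Fintype G]

theorem diffc (K L : Subgroup G) (h : G → ℤ) (hT : T L (T K h) = 0)
    {x : G} (hx : x ∈ K) {b : G} (hb : b ∈ L) : h (x * b) - h b = h x - h 1 := by
  have hc : T K (T L h) = 0 := by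
    rw [TBasAux.t_comm]
    exact hT
  have hi := (TBasAux.t_zero_iff K (T L h)).1 hc
  have hg : T L (fun c => h (x * c) - h (1 * c)) = 0 := by
    rw [TBasAux.t_sub L (fun c => h (x * c)) (fun c => h (1 * c)), TBasAux.t_trans L h x,
      TBasAux.t_trans L h 1]
    funext c
    show T L h (x * c) - T L h (1 * c) = 0
    rw [hi x hx c, one_mul, sub_self]
  have h1 := (TBasAux.t_zero_iff L _).1 hg b hb 1
  simp only [one_mul, mul_one] at h1
  exact h1

theorem uniq2 {K L : Subgroup G} (hd : Disjoint K L) {x x' y y' : G} (hx : x ∈ K) (hx' : x' ∈ K) (hy : y ∈ L)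
    (hy' : y' ∈ L) (h : x * y = x' * y') : x = x' ∧ y = y' := by
  have h1 : x'⁻¹ * x = y' * y⁻¹ := by
    rw [inv_mul_eq_iff_eq_mul, ← mul_assoc, eq_mul_inv_iff_mul_eq]
    exact h
  have h2 : x'⁻¹ * x ∈ K := K.mul_mem (K.inv_mem hx') hx
  have h3 : x'⁻¹ * x ∈ L := by
    rw [h1]
    exact L.mul_mem hy' (L.inv_mem hy)
  have h4 : x'⁻¹ * x = 1 := Subgroup.disjoint_def.1 hd h2 h3
  have h5 : x' = x := inv_mul_eq_one.1 h4
  rw [h1] at h4
  have h6 : y' = y := mul_inv_eq_one.1 h4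
  exact ⟨h5.symm, h6.symm⟩

theorem dec {K1 K2 K3 : Subgroup G} (hd1 : Disjoint K1 (K2 ⊔ K3)) (hd2 : Disjoint K2 K3)
    (htop : K1 ⊔ (K2 ⊔ K3) = ⊤) : ∃ k x y : G → G, (∀ a, k a ∈ K1) ∧ (∀ a, x a ∈ K2) ∧ (∀ a, y a ∈ K3) ∧
      (∀ a, a = k a * (x a * y a)) ∧
      (∀ u ∈ K1, ∀ v ∈ K2, ∀ w ∈ K3, ∀ a, k (u * (v * w) * a) = u * k a ∧ x (u * (v * w) * a) = v * x a ∧
        y (u * (v * w) * a) = w * y a) := by
  have h1 : ∀ a : G, ∃ k ∈ K1, ∃ x ∈ K2, ∃ y ∈ K3, a = k * (x * y) := by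
    intro a
    have ha : a ∈ K1 ⊔ (K2 ⊔ K3) := by
      rw [htop]
      exact Subgroup.mem_top a
    rw [Subgroup.mem_sup] at ha
    obtain ⟨k, hk, z, hz, rfl⟩ := ha
    rw [Subgroup.mem_sup] at hz
    obtain ⟨x, hx, y, hy, rfl⟩ := hz
    exact ⟨k, hk, x, hx, y, hy, rfl⟩
  choose k hk x hx y hy ha using h1
  refine ⟨k, x, y, hk, hx, hy, ha, ?_⟩
  intro u hu v hv w hw a
  have e1 : k (u * (v * w) * a) * (x (u * (v * w) * a) * y (u * (v * w) * a)) =
      (u * k a) * ((v * x a) * (w * y a)) := by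
    rw [← ha (u * (v * w) * a)]
    calc u * (v * w) * a = u * (v * w) * (k a * (x a * y a)) := by rw [← ha a]
      _ = (u * k a) * ((v * w) * (x a * y a)) := mul_mul_mul_comm _ _ _ _
      _ = (u * k a) * ((v * x a) * (w * y a)) := by rw [mul_mul_mul_comm v w (x a) (y a)]
  obtain ⟨h2, h3⟩ := uniq2 hd1 (hk _) (K1.mul_mem hu (hk a)) (Subgroup.mul_mem_sup (hx _) (hy _))
    (Subgroup.mul_mem_sup (K2.mul_mem hv (hx a)) (K3.mul_mem hw (hy a))) e1
  obtain ⟨h4, h5⟩ := uniq2 hd2 (hx _) (K2.mul_mem hv (hx a)) (hy _) (K3.mul_mem hw (hy a)) h3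
  exact ⟨h2, h4, h5⟩

theorem chi (e : G) (he : e ≠ 1) (hee : e * e = 1) : ∃ χ : G → ℤ, ∀ x, χ x + χ (e * x) = 1 := by
  classical
  refine ⟨fun x => if (Fintype.equivFin G x) < (Fintype.equivFin G (e * x)) then 1 else 0, ?_⟩
  intro x
  have h1 : e * (e * x) = x := by rw [← mul_assoc, hee, one_mul]
  have h2 : e * x ≠ x := fun h => he (mul_eq_right.1 h)
  have h3 : Fintype.equivFin G (e * x) ≠ Fintype.equivFin G x :=
    fun h => h2 ((Fintype.equivFin G).injective h)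
  simp only [h1]
  rcases lt_or_gt_of_ne h3 with h4 | h4
  · rw [if_neg (not_lt.2 h4.le), if_pos h4, zero_add]
  · rw [if_pos h4, if_neg (not_lt.2 h4.le), add_zero]

/-- one odd function -/
def Ef (k x : G → G) (e : G) (χ g : G → ℤ) (a : G) : ℤ := by
  classical
  exact if k a = 1 then χ (x a) * g (x a) else -(χ (e * x a) * g (x a))

theorem Ef_one (k x : G → G) (e : G) (χ g : G → ℤ) (a : G) (h : k a = 1) :
    Ef k x e χ g a = χ (x a) * g (x a) := by
  unfold Ef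
  rw [if_pos h]

theorem Ef_ne (k x : G → G) (e : G) (χ g : G → ℤ) (a : G) (h : k a ≠ 1) :
    Ef k x e χ g a = -(χ (e * x a) * g (x a)) := by
  unfold Ef
  rw [if_neg h]

theorem Ef_odd (k x : G → G) (e e1 ε : G) (χ g : G → ℤ) (hee : e * e = 1) (h11 : e1 * e1 = 1) (h1 : e1 ≠ 1)
    (hk : ∀ a, k a = 1 ∨ k a = e1) (hke : ∀ a, k (ε * a) = e1 * k a) (hxe : ∀ a, x (ε * a) = e * x a)
    (hg : ∀ a, g (e * x a) = g (x a)) (a : G) : Ef k x e χ g (ε * a) = -Ef k x e χ g a := by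
  rcases hk a with h | h
  · rw [Ef_one k x e χ g a h, Ef_ne k x e χ g (ε * a) (by rw [hke, h, mul_one]; exact h1), hxe, hg, ← mul_assoc,
      hee, one_mul]
  · rw [Ef_ne k x e χ g a (by rw [h]; exact h1), Ef_one k x e χ g (ε * a) (by rw [hke, h, h11]), hxe, hg,
      neg_neg]

theorem Ef_dif (k x : G → G) (e e1 : G) (χ g : G → ℤ) (h1 : e1 ≠ 1) (hχ : ∀ x, χ x + χ (e * x) = 1)
    (hke : ∀ a, k (e1 * a) = e1 * k a) (hxe : ∀ a, x (e1 * a) = x a) (a : G) (h : k a = 1) :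
    Ef k x e χ g a - Ef k x e χ g (e1 * a) = g (x a) := by
  rw [Ef_one k x e χ g a h, Ef_ne k x e χ g (e1 * a) (by rw [hke, h, mul_one]; exact h1), hxe]
  linear_combination g (x a) * hχ (x a)

theorem Ef_inv (k x : G → G) (e : G) (χ g : G → ℤ) (b a : G) (hk : k (b * a) = k a) (hx : x (b * a) = x a) :
    Ef k x e χ g (b * a) = Ef k x e χ g a := by
  by_cases h : k a = 1
  · rw [Ef_one k x e χ g a h, Ef_one k x e χ g (b * a) (by rw [hk, h]), hx]
  · rw [Ef_ne k x e χ g a h, Ef_ne k x e χ g (b * a) (by rw [hk]; exact h), hx]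

end ThreeAux

open ThreeAux in
theorem pThree : S_Three := by
  classical
  intro G _ _ K1 K2 K3 hd1 hd2 htop e1 e2 e3 hK1 he2 he3 h11 h22 h33 hn1 hn2 hn3 F hodd hT
  obtain ⟨k, x, y, hk, hx, hy, ha, hu⟩ := dec hd1 hd2 htop
  obtain ⟨χ, hχ⟩ := chi e2 hn2 h22
  obtain ⟨χ', hχ'⟩ := chi e3 hn3 h33
  have he1 : e1 ∈ K1 := (hK1 e1).2 (Or.inr rfl)
  -- the function `h`
  have hsK : sK K1 = {1, e1} := by
    ext z
    rw [TBasAux.mem_sK, hK1, Finset.mem_insert, Finset.mem_singleton]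
  set h : G → ℤ := fun a => F a - F (e1 * a) with hh
  have hTh : T K1 F = h := by
    funext a
    unfold T
    rw [hsK, Finset.sum_pair hn1.symm, Finset.card_pair hn1.symm, one_mul]
    show ((2 : ℕ) : ℤ) * F a - (F a + F (e1 * a)) = F a - F (e1 * a)
    push_cast
    ring
  have hT2 : T K2 (T K3 h) = 0 := by
    rw [← hTh, TBasAux.t_comm K3 K1 F, TBasAux.t_comm K2 K1 (T K3 F)]
    exact hT
  have hadd : ∀ x ∈ K2, ∀ y ∈ K3, h (x * y) = h x + h y - h 1 := by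
    intro x hx y hy
    have := diffc K3 K2 h hT2 hy hx
    rw [mul_comm y x] at this
    linarith
  have hτ : ∀ a, h (e2 * e3 * a) = h a := by
    intro a
    have h1 := hodd a
    have h2 := hodd (e1 * a)
    have e : e1 * (e2 * e3) * (e1 * a) = e2 * e3 * a := by
      rw [mul_mul_mul_comm, h11, one_mul]
    rw [e] at h2
    show F (e2 * e3 * a) - F (e1 * (e2 * e3 * a)) = F a - F (e1 * a)
    rw [← mul_assoc e1 (e2 * e3) a, h1, h2]
    ring
  have h2a : ∀ x ∈ K2, h x = h (e2 * x) + h e3 - h 1 := by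
    intro x hx
    have h1 := hadd (e2 * x) (K2.mul_mem he2 hx) e3 he3
    rw [mul_right_comm, hτ x] at h1
    exact h1
  have h2b : h e3 = h 1 := by
    have h1 := h2a 1 (one_mem K2)
    have h2 := h2a e2 he2
    rw [mul_one] at h1
    rw [h22] at h2
    linarith
  have h2c : ∀ x ∈ K2, h (e2 * x) = h x := by
    intro x hx
    have h1 := h2a x hx
    linarith
  have h3c : ∀ y ∈ K3, h (e3 * y) = h y := by
    intro y hy
    have h1 := hadd e2 he2 (e3 * y) (K3.mul_mem he3 hy)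
    rw [← mul_assoc, hτ y] at h1
    have h2 := h2c 1 (one_mem K2)
    rw [mul_one] at h2
    linarith
  -- the functions
  have hk1 : ∀ a, k a = 1 ∨ k a = e1 := fun a => (hK1 (k a)).1 (hk a)
  have hε : ∀ a, k (e1 * (e2 * e3) * a) = e1 * k a ∧ x (e1 * (e2 * e3) * a) = e2 * x a ∧
      y (e1 * (e2 * e3) * a) = e3 * y a := hu e1 he1 e2 he2 e3 he3
  have hE1 : ∀ a, k (e1 * a) = e1 * k a ∧ x (e1 * a) = x a ∧ y (e1 * a) = y a := by
    intro a
    have h1 := hu e1 he1 1 (one_mem K2) 1 (one_mem K3) a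
    simp only [mul_one, one_mul] at h1
    exact h1
  have hE2 : ∀ b ∈ K2, ∀ a, k (b * a) = k a ∧ x (b * a) = b * x a ∧ y (b * a) = y a := by
    intro b hb a
    have h1 := hu 1 (one_mem K1) b hb 1 (one_mem K3) a
    simp only [mul_one, one_mul] at h1
    exact h1
  have hE3 : ∀ b ∈ K3, ∀ a, k (b * a) = k a ∧ x (b * a) = x a ∧ y (b * a) = b * y a := by
    intro b hb a
    have h1 := hu 1 (one_mem K1) 1 (one_mem K2) b hb a
    simp only [one_mul] at h1
    exact h1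
  set E3 : G → ℤ := Ef k x e2 χ h with hE3d
  set E2 : G → ℤ := Ef k y e3 χ' (fun z => h z - h 1) with hE2d
  have ho3 : ∀ a, E3 (e1 * (e2 * e3) * a) = -E3 a :=
    Ef_odd k x e2 e1 (e1 * (e2 * e3)) χ h h22 h11 hn1 hk1 (fun a => (hε a).1) (fun a => (hε a).2.1)
      (fun a => h2c (x a) (hx a))
  have ho2 : ∀ a, E2 (e1 * (e2 * e3) * a) = -E2 a :=
    Ef_odd k y e3 e1 (e1 * (e2 * e3)) χ' (fun z => h z - h 1) h33 h11 hn1 hk1 (fun a => (hε a).1)
      (fun a => (hε a).2.2) (fun a => by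
        show h (e3 * y a) - h 1 = h (y a) - h 1
        rw [h3c (y a) (hy a)])
  have hbase : ∀ a, k a = 1 → F a - E2 a - E3 a = F (e1 * a) - E2 (e1 * a) - E3 (e1 * a) := by
    intro a hka
    have h1 := Ef_dif k x e2 e1 χ h hn1 hχ (fun a => (hE1 a).1) (fun a => (hE1 a).2.1) a hka
    have h2 := Ef_dif k y e3 e1 χ' (fun z => h z - h 1) hn1 hχ' (fun a => (hE1 a).1) (fun a => (hE1 a).2.2) a hka
    have h3 := hadd (x a) (hx a) (y a) (hy a)
    have h4 := ha a
    rw [hka, one_mul] at h4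
    rw [← h4] at h3
    have h5 : h a = F a - F (e1 * a) := rfl
    have h1' : E3 a - E3 (e1 * a) = h (x a) := h1
    have h2' : E2 a - E2 (e1 * a) = h (y a) - h 1 := h2
    linarith
  have hinv1 : ∀ a, F (e1 * a) - E2 (e1 * a) - E3 (e1 * a) = F a - E2 a - E3 a := by
    intro a
    rcases hk1 a with h1 | h1
    · exact (hbase a h1).symm
    · have h2 := hbase (e1 * a) (by rw [(hE1 a).1, h1, h11])
      rw [← mul_assoc, h11, one_mul] at h2
      exact h2
  refine ⟨fun a => F a - E2 a - E3 a, E2, E3, ?_, ho2, ho3, ?_, ?_, ?_, ?_⟩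
  · intro a
    show F _ - E2 _ - E3 _ = -(F a - E2 a - E3 a)
    rw [hodd a, ho2 a, ho3 a]
    ring
  · intro b hb a
    rcases (hK1 b).1 hb with rfl | rfl
    · rw [one_mul]
    · exact hinv1 a
  · intro b hb a
    exact Ef_inv k y e3 χ' _ b a (hE2 b hb a).1 (hE2 b hb a).2.2
  · intro b hb a
    exact Ef_inv k x e2 χ _ b a (hE3 b hb a).1 (hE3 b hb a).2.1
  · intro a
    show F a = F a - E2 a - E3 a + E2 a + E3 a
    ring

end Pool.Agent.FO
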