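import Pool.Agent.Lib.MP_640417_ag.FO.SpecH

/-!
# Theorem FG, part H: the top level
-/

set_option autoImplicit false

noncomputable section

namespace Pool.Agent.FO

open Finset Pool.Agent.FC

theorem pTopG : S_TopG := by
  intro m d _ _ hd f hodd hRl hsupp
  refine hFou d (fun u => f (el m d u)) fun χ hχ => ?_
  classical
  obtain ⟨h1, h2, h3, h4, h5, h6⟩ := hEl m d hd
  have hdpos : 0 < d := Nat.pos_of_ne_zero (NeZero.ne d)
  have hmpos : 0 < m := Nat.pos_of_ne_zero (NeZero.ne m)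
  rcases χ.even_or_odd with hev | hod
  · -- even characters
    obtain ⟨S, hS⟩ : ∃ S : ℂ, S = ∑ u : (ZMod d)ˣ, (f (el m d u) : ℂ) *
      χ ((u⁻¹ : (ZMod d)ˣ) : ZMod d) := ⟨_, rfl⟩
    rw [← hS]
    have e1 : S = -S := by
      rw [hS, ← Finset.sum_neg_distrib]
      refine Fintype.sum_equiv (Equiv.neg (ZMod d)ˣ) _ _ fun u => ?_
      rw [Equiv.neg_apply, h5, hodd]
      have e2 : (((-u)⁻¹ : (ZMod d)ˣ) : ZMod d) = -((u⁻¹ : (ZMod d)ˣ) : ZMod d) := by
        rw [← Units.val_neg, inv_neg]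
      rw [e2, hev.eval_neg]
      push_cast
      ring
    have e3 : 2 * S = 0 := by
      rw [two_mul]
      nth_rewrite 1 [e1]
      exact neg_add_cancel S
    exact (mul_eq_zero.1 e3).resolve_left two_ne_zero
  · -- odd characters
    obtain ⟨inner, hin⟩ : ∃ inner : ZMod m → ℂ, ∀ x, inner x = ∑ t : (ZMod m)ˣ,
      χ ((ZMod.unitsMap hd t : (ZMod d)ˣ) : ZMod d) * ((sz ((t : ZMod m) * x) : ℚ) : ℂ) :=
      ⟨_, fun _ => rfl⟩
    have e1 : ∑ x : ZMod m, (f x : ℂ) * inner x = 0 := by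
      have e2 : ∑ t : (ZMod m)ˣ, χ ((ZMod.unitsMap hd t : (ZMod d)ˣ) : ZMod d) *
          ((P f (t : ZMod m) : ℚ) : ℂ) = 0 := by
        refine Finset.sum_eq_zero fun t _ => ?_
        rw [hRl t, Rat.cast_zero, mul_zero]
      rw [← e2]
      have e3 : ∀ x : ZMod m, (f x : ℂ) * inner x = ∑ t : (ZMod m)ˣ,
          χ ((ZMod.unitsMap hd t : (ZMod d)ˣ) : ZMod d) *
            ((f x : ℂ) * ((sz ((t : ZMod m) * x) : ℚ) : ℂ)) := by
        intro x
        rw [hin, Finset.mul_sum]
        refine Finset.sum_congr rfl fun t _ => ?_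
        ring
      rw [Finset.sum_congr rfl fun x _ => e3 x, Finset.sum_comm]
      refine Finset.sum_congr rfl fun t _ => ?_
      rw [← Finset.mul_sum]
      congr 1
      unfold P
      push_cast
      rfl
    have e4 : ∑ x : ZMod m, (f x : ℂ) * inner x =
        ∑ u : (ZMod d)ˣ, (f (el m d u) : ℂ) * inner (el m d u) := by
      have e5 : ∑ u : (ZMod d)ˣ, (f (el m d u) : ℂ) * inner (el m d u) =
          ∑ x ∈ (univ : Finset (ZMod d)ˣ).image (el m d), (f x : ℂ) * inner x := by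
        rw [Finset.sum_image]
        intro u _ v _ huv
        exact h2 u v huv
      rw [e5]
      symm
      refine Finset.sum_subset (Finset.subset_univ _) fun x _ hx => ?_
      by_cases hfx : f x = 0
      · rw [hfx, Int.cast_zero, zero_mul]
      · have e6 : inner x = 0 := by
          rw [hin]
          refine hSv m d hd χ hχ x fun hdx => hx ?_
          have e7 : addOrderOf x = d := hsupp x hfx hdx
          obtain ⟨u, hu⟩ := h3 x e7
          exact Finset.mem_image.2 ⟨u, Finset.mem_univ _, hu⟩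
        rw [e6, mul_zero]
    rw [e1] at e4
    obtain ⟨B, hB⟩ : ∃ B : ℂ, B = ∑ t : (ZMod d)ˣ, χ (t : ZMod d) * ((sz (t : ZMod d) : ℚ) : ℂ) :=
      ⟨_, rfl⟩
    have hB0 : B ≠ 0 := by
      rw [hB]
      exact hBne d χ hχ hod
    have e8 : (m.totient : ℂ) * B * ∑ u : (ZMod d)ˣ, (f (el m d u) : ℂ) *
        χ ((u⁻¹ : (ZMod d)ˣ) : ZMod d) = 0 := by
      calc (m.totient : ℂ) * B * ∑ u : (ZMod d)ˣ, (f (el m d u) : ℂ) *
            χ ((u⁻¹ : (ZMod d)ˣ) : ZMod d) =
            ∑ u : (ZMod d)ˣ, (f (el m d u) : ℂ) * ((d.totient : ℂ) * inner (el m d u)) := by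
            rw [Finset.mul_sum]
            refine Finset.sum_congr rfl fun u _ => ?_
            rw [hin, hSe m d hd χ u, ← hB]
            ring
        _ = (d.totient : ℂ) * ∑ u : (ZMod d)ˣ, (f (el m d u) : ℂ) * inner (el m d u) := by
            rw [Finset.mul_sum]
            refine Finset.sum_congr rfl fun u _ => ?_
            ring
        _ = 0 := by rw [← e4, mul_zero]
    have hm0 : (m.totient : ℂ) ≠ 0 := by
      exact_mod_cast (Nat.totient_pos.2 hmpos).ne'
    exact (mul_eq_zero.1 e8).resolve_left (mul_ne_zero hm0 hB0)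

end Pool.Agent.FO
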