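import Pool.Agent.Lib.MP_640417_ag.FO.SpecG

/-!
# Theorem FG, part G: two subgroups, one coset
-/

set_option autoImplicit false

open Finset Pool.Agent.FC

namespace Pool.Agent.FO

namespace TwoLAux

theorem mem_sK {G : Type} [Group G] [Fintype G] (K : Subgroup G) (k : G) : k ∈ sK K ↔ k ∈ K := by
  unfold sK
  simp

theorem co_le (k : ℕ) : co k ≤ 2 := by
  unfold co
  split <;> norm_num

theorem co_pos (k : ℕ) : 1 ≤ co k := by
  unfold co
  split <;> norm_num

/-- the case of the minimal slice norm two -/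
theorem two {α β : Type} (X : Finset α) (Y : Finset β) (g : β → ℤ) (c : α → ℤ)
    (hY : co Y.card + 2 ≤ Y.card) (hg : ∑ b ∈ Y, |g b| = 2)
    (hν : ∀ x ∈ X, ∑ b ∈ Y, |g b + c x| = 2) :
    ∀ x ∈ X, c x = 0 ∨ (Y.card = 4 ∧ |c x| = 1 ∧ 2 * c x = -∑ b ∈ Y, g b) := by
  intro x hx
  by_cases hc : c x = 0
  · exact Or.inl hc
  refine Or.inr ?_
  have hYc : (3 : ℤ) ≤ Y.card := by
    have := co_pos Y.card
    linarith
  have h1 : (Y.card : ℤ) * |c x| ≤ 4 := by
    have h2 : ∑ b ∈ Y, |c x| ≤ ∑ b ∈ Y, (|g b + c x| + |g b|) := by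
      refine Finset.sum_le_sum fun b _ => ?_
      have h3 : c x = (g b + c x) - g b := by ring
      calc |c x| = |(g b + c x) - g b| := by rw [← h3]
        _ ≤ |g b + c x| + |g b| := abs_sub _ _
    rw [Finset.sum_add_distrib, hg, hν x hx, Finset.sum_const, nsmul_eq_mul] at h2
    linarith
  have hc1 : 1 ≤ |c x| := Int.one_le_abs hc
  have hcx : |c x| = 1 := by nlinarith
  have hY4 : (Y.card : ℤ) ≤ 4 := by
    rw [hcx] at h1
    linarith
  have hpar : (2 : ℤ) ∣ Y.card := by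
    -- the parity of the norms
    have hz : ∀ z : ℤ, (2 : ℤ) ∣ |z| - z := by
      intro z
      rcases abs_choice z with h | h <;> rw [h] <;> omega
    have h3 : (2 : ℤ) ∣ ∑ b ∈ Y, (|g b| - g b) := Finset.dvd_sum fun b _ => hz _
    have h4 : (2 : ℤ) ∣ ∑ b ∈ Y, (|g b + c x| - (g b + c x)) := Finset.dvd_sum fun b _ => hz _
    rw [Finset.sum_sub_distrib, hg] at h3
    rw [Finset.sum_sub_distrib, hν x hx, Finset.sum_add_distrib, Finset.sum_const,
      nsmul_eq_mul] at h4
    have h5 : (2 : ℤ) ∣ (Y.card : ℤ) * c x := by omega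
    rcases abs_choice (c x) with h | h <;> rw [hcx] at h
    · rwa [← h, mul_one] at h5
    · have h6 : c x = -1 := by linarith
      rw [h6] at h5
      have h7 : (Y.card : ℤ) * -1 = -Y.card := by ring
      rwa [h7, dvd_neg] at h5
  have hY4' : Y.card = 4 := by omega
  refine ⟨hY4', hcx, ?_⟩
  -- every value of `g` is `0` or `-c x`
  have hge : ∀ b ∈ Y, 1 ≤ |g b + c x| + |g b| := by
    intro b _
    have h3 : c x = (g b + c x) - g b := by ring
    calc 1 = |c x| := hcx.symm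
      _ = |(g b + c x) - g b| := by rw [← h3]
      _ ≤ |g b + c x| + |g b| := abs_sub _ _
  have hs : ∑ b ∈ Y, (|g b + c x| + |g b|) = ∑ b ∈ Y, (1 : ℤ) := by
    rw [Finset.sum_add_distrib, hg, hν x hx, Finset.sum_const, hY4']
    norm_num
  have heq : ∀ b ∈ Y, 1 = |g b + c x| + |g b| :=
    (Finset.sum_eq_sum_iff_of_le hge).1 hs.symm
  have hval : ∀ b ∈ Y, |g b| = -(g b * c x) := by
    intro b hb
    have h3 := heq b hb
    rcases abs_choice (c x) with h | h <;> rw [hcx] at h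
    · rw [← h] at h3 ⊢
      rcases abs_choice (g b) with h5 | h5 <;> rcases abs_choice (g b + 1) with h6 | h6 <;>
        rw [h5, h6] at h3 <;> rw [h5]
      · have := abs_nonneg (g b)
        omega
      · omega
      · omega
      · omega
    · have h4 : c x = -1 := by linarith
      rw [h4] at h3 ⊢
      rcases abs_choice (g b) with h5 | h5 <;> rcases abs_choice (g b + -1) with h6 | h6 <;>
        rw [h5, h6] at h3 <;> rw [h5]
      · omega
      · omega
      · omega
      · have := abs_nonneg (g b)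
        omega
  have h3 : (2 : ℤ) = -((∑ b ∈ Y, g b) * c x) := by
    rw [← hg, Finset.sum_congr rfl hval, Finset.sum_neg_distrib, Finset.sum_mul]
  have h4 : c x * c x = 1 := by
    rw [← abs_mul_abs_self, hcx, one_mul]
  calc 2 * c x = -((∑ b ∈ Y, g b) * c x) * c x := by rw [← h3]
    _ = -((∑ b ∈ Y, g b) * (c x * c x)) := by ring
    _ = -∑ b ∈ Y, g b := by rw [h4, mul_one]

theorem core {α β : Type} (X : Finset α) (Y : Finset β) (g : β → ℤ) (d : α → ℤ)
    (hX : 4 ≤ X.card) (hY : co Y.card + 2 ≤ Y.card)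
    (hN : ∑ x ∈ X, ∑ b ∈ Y, |g b + d x| ≤ 2 * X.card) :
    ∃ x0 ∈ X, co X.card * ∑ b ∈ Y, |g b + d x0| + co Y.card * ∑ x ∈ X, |d x - d x0| ≤
      ∑ x ∈ X, ∑ b ∈ Y, |g b + d x| := by
  classical
  have hne : X.Nonempty := Finset.card_pos.1 (by omega)
  obtain ⟨x0, hx0, hmin⟩ := Finset.exists_min_image X (fun x => ∑ b ∈ Y, |g b + d x|) hne
  obtain ⟨e, he⟩ : ∃ e : ℤ, e = ∑ b ∈ Y, |g b + d x0| := ⟨_, rfl⟩
  have hXc : (4 : ℤ) ≤ X.card := by exact_mod_cast hX
  have he0 : 0 ≤ e := by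
    rw [he]
    exact Finset.sum_nonneg fun _ _ => abs_nonneg _
  have hmin' : ∀ x ∈ X, e ≤ ∑ b ∈ Y, |g b + d x| := by
    intro x hx
    rw [he]
    exact hmin x hx
  have htri : ∀ x ∈ X, (Y.card : ℤ) * |d x - d x0| - e ≤ ∑ b ∈ Y, |g b + d x| := by
    intro x _
    have h2 : ∑ b ∈ Y, |d x - d x0| ≤ ∑ b ∈ Y, (|g b + d x| + |g b + d x0|) := by
      refine Finset.sum_le_sum fun b _ => ?_
      have h3 : d x - d x0 = (g b + d x) - (g b + d x0) := by ring
      rw [h3]
      exact abs_sub _ _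
    rw [Finset.sum_add_distrib, ← he, Finset.sum_const, nsmul_eq_mul] at h2
    linarith
  have he2 : e ≤ 2 := by
    have h1 : ∑ x ∈ X, e ≤ ∑ x ∈ X, ∑ b ∈ Y, |g b + d x| := Finset.sum_le_sum hmin'
    rw [Finset.sum_const, nsmul_eq_mul] at h1
    by_contra hcon
    push Not at hcon
    nlinarith
  have hcX := co_le X.card
  have hcX0 := co_pos X.card
  have hcY := co_le Y.card
  have hcY0 := co_pos Y.card
  have hcases : e = 0 ∨ e = 1 ∨ e = 2 := by omega
  rcases hcases with h | h | h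
  · -- `e = 0`
    refine ⟨x0, hx0, ?_⟩
    rw [← he, h, mul_zero, zero_add, Finset.mul_sum]
    refine Finset.sum_le_sum fun x hx => ?_
    have h1 := htri x hx
    rw [h, sub_zero] at h1
    refine le_trans ?_ h1
    exact mul_le_mul_of_nonneg_right (by linarith) (abs_nonneg _)
  · -- `e = 1`
    refine ⟨x0, hx0, ?_⟩
    rw [← he, h, mul_one]
    have h1 : ∀ x ∈ X, co Y.card * |d x - d x0| + 1 ≤ ∑ b ∈ Y, |g b + d x| := by
      intro x hx
      by_cases hz : d x - d x0 = 0
      · have h2 := hmin' x hx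
        rw [hz, abs_zero, mul_zero]
        linarith
      · have h2 := htri x hx
        have h3 : 1 ≤ |d x - d x0| := Int.one_le_abs hz
        rw [h] at h2
        have h4 : (co Y.card + 2) * |d x - d x0| ≤ Y.card * |d x - d x0| :=
          mul_le_mul_of_nonneg_right hY (abs_nonneg _)
        nlinarith
    have h2 := Finset.sum_le_sum h1
    rw [Finset.sum_add_distrib, ← Finset.mul_sum, Finset.sum_const, nsmul_eq_mul, mul_one] at h2
    linarith
  · -- `e = 2`
    have hall : ∀ x ∈ X, ∑ b ∈ Y, |g b + d x| = 2 := by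
      have h1 : ∑ x ∈ X, (∑ b ∈ Y, |g b + d x| - 2) = 0 := by
        refine le_antisymm ?_ (Finset.sum_nonneg fun x hx => ?_)
        · rw [Finset.sum_sub_distrib, Finset.sum_const, nsmul_eq_mul]
          linarith
        · have := hmin' x hx
          linarith
      intro x hx
      have h2 := (Finset.sum_eq_zero_iff_of_nonneg fun x hx => by
        have := hmin' x hx
        linarith).1 h1 x hx
      linarith
    have hNe : ∑ x ∈ X, ∑ b ∈ Y, |g b + d x| = 2 * X.card := by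
      rw [Finset.sum_congr rfl hall, Finset.sum_const, nsmul_eq_mul, mul_comm]
    have htwo := two X Y (fun b => g b + d x0) (fun x => d x - d x0) hY (by rw [← he, h])
      (fun x hx => by
        rw [← hall x hx]
        refine Finset.sum_congr rfl fun b _ => ?_
        congr 1
        ring)
    rw [hNe]
    obtain ⟨W, hW⟩ : ∃ W : Finset α, W = X.filter fun x => d x - d x0 ≠ 0 := ⟨_, rfl⟩
    have hWX : W ⊆ X := by
      rw [hW]
      exact Finset.filter_subset _ _
    have hmemW : ∀ x, x ∈ W ↔ x ∈ X ∧ d x - d x0 ≠ 0 := by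
      intro x
      rw [hW, Finset.mem_filter]
    rcases Finset.eq_empty_or_nonempty W with hWe | ⟨x1, hx1⟩
    · refine ⟨x0, hx0, ?_⟩
      have h1 : ∑ x ∈ X, |d x - d x0| = 0 := by
        refine Finset.sum_eq_zero fun x hx => ?_
        by_cases hz : d x - d x0 = 0
        · rw [hz, abs_zero]
        · exfalso
          have h2 := (hmemW x).2 ⟨hx, hz⟩
          rw [hWe] at h2
          exact absurd h2 (Finset.notMem_empty x)
      rw [← he, h, h1, mul_zero, add_zero]
      linarith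
    · obtain ⟨hx1X, hx1n⟩ := (hmemW x1).1 hx1
      obtain ⟨hY4, hx1a, hx1v⟩ := (htwo x1 hx1X).resolve_left hx1n
      have hco : co Y.card = 2 := by
        rw [hY4]
        rfl
      -- all nonzero differences are equal
      have hval : ∀ x ∈ X, x ∈ W → d x - d x0 = d x1 - d x0 := by
        intro x hx hxW
        obtain ⟨-, -, h3⟩ := (htwo x hx).resolve_left ((hmemW x).1 hxW).2
        have h4 := h3.trans hx1v.symm
        linarith
      have hval0 : ∀ x ∈ X, x ∉ W → d x - d x0 = 0 := by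
        intro x hx hxW
        by_contra hz
        exact hxW ((hmemW x).2 ⟨hx, hz⟩)
      have hsplit : ∀ f : α → ℤ, ∑ x ∈ X, f x = ∑ x ∈ W, f x + ∑ x ∈ X \ W, f x := by
        intro f
        rw [add_comm, Finset.sum_sdiff hWX]
      have hcard : ((X \ W).card : ℤ) = X.card - W.card := by
        rw [Finset.card_sdiff_of_subset hWX, Nat.cast_sub (Finset.card_le_card hWX)]
      by_cases hw : 2 * (W.card : ℤ) ≤ X.card
      · refine ⟨x0, hx0, ?_⟩
        have h1 : ∑ x ∈ X, |d x - d x0| = W.card := by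
          rw [hsplit]
          have h2 : ∑ x ∈ W, |d x - d x0| = ∑ x ∈ W, (1 : ℤ) := by
            refine Finset.sum_congr rfl fun x hx => ?_
            rw [hval x (hWX hx) hx, hx1a]
          have h3 : ∑ x ∈ X \ W, |d x - d x0| = 0 := by
            refine Finset.sum_eq_zero fun x hx => ?_
            rw [Finset.mem_sdiff] at hx
            rw [hval0 x hx.1 hx.2, abs_zero]
          rw [h2, h3, add_zero, Finset.sum_const, nsmul_eq_mul, mul_one]
        rw [← he, h, h1, hco]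
        linarith
      · push Not at hw
        refine ⟨x1, hx1X, ?_⟩
        have h1 : ∑ x ∈ X, |d x - d x1| = X.card - W.card := by
          rw [hsplit, ← hcard]
          have h2 : ∑ x ∈ W, |d x - d x1| = 0 := by
            refine Finset.sum_eq_zero fun x hx => ?_
            have h4 := hval x (hWX hx) hx
            have h5 : d x - d x1 = 0 := by linarith
            rw [h5, abs_zero]
          have h3 : ∑ x ∈ X \ W, |d x - d x1| = ∑ x ∈ X \ W, (1 : ℤ) := by
            refine Finset.sum_congr rfl fun x hx => ?_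
            rw [Finset.mem_sdiff] at hx
            have h4 := hval0 x hx.1 hx.2
            have h5 : d x - d x1 = -(d x1 - d x0) := by linarith
            rw [h5, abs_neg, hx1a]
          rw [h2, h3, zero_add, Finset.sum_const, nsmul_eq_mul, mul_one]
        rw [hall x1 hx1X, h1, hco]
        linarith

theorem uniq {G : Type} [CommGroup G] {K L : Subgroup G} (hd : Disjoint K L) {x y b c : G}
    (hx : x ∈ K) (hy : y ∈ K) (hb : b ∈ L) (hc : c ∈ L) (h : x * b = y * c) : x = y ∧ b = c := by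
  have h1 : y⁻¹ * x = c * b⁻¹ := by
    rw [inv_mul_eq_iff_eq_mul, ← mul_assoc, eq_mul_inv_iff_mul_eq]
    exact h
  have h2 : y⁻¹ * x ∈ K := K.mul_mem (K.inv_mem hy) hx
  have h3 : y⁻¹ * x ∈ L := by
    rw [h1]
    exact L.mul_mem hc (L.inv_mem hb)
  have h4 : y⁻¹ * x = 1 := Subgroup.disjoint_def.1 hd h2 h3
  have h5 : y = x := inv_mul_eq_one.1 h4
  rw [h1] at h4
  exact ⟨h5.symm, (mul_inv_eq_one.1 h4).symm⟩

theorem proj {G : Type} [CommGroup G] {K L : Subgroup G} (hd : Disjoint K L) :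
    ∃ p : G → G × G, ∀ x ∈ K, ∀ b ∈ L, p (x * b) = (x, b) := by
  classical
  refine ⟨fun z => if h : ∃ q : G × G, q.1 ∈ K ∧ q.2 ∈ L ∧ q.1 * q.2 = z then h.choose else 1,
    fun x hx b hb => ?_⟩
  have h : ∃ q : G × G, q.1 ∈ K ∧ q.2 ∈ L ∧ q.1 * q.2 = x * b := ⟨(x, b), hx, hb, rfl⟩
  change (if h : ∃ q : G × G, q.1 ∈ K ∧ q.2 ∈ L ∧ q.1 * q.2 = x * b then h.choose else 1) = _
  rw [dif_pos h]
  obtain ⟨h1, h2, h3⟩ := h.choose_spec
  obtain ⟨h4, h5⟩ := uniq hd h1 hx h2 hb h3
  exact Prod.ext h4 h5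

end TwoLAux

open TwoLAux in
theorem pTwoL : S_TwoL := by
  classical
  intro G _ _ K L hd hK hL H hT a hN
  have hinv : ∀ k ∈ K, ∀ c, T L H (k * c) = T L H c :=
    (gTBas G K L (T L H) H).2.2.2.2.2.2.2.1.1 hT
  have hdiff : ∀ x ∈ K, ∀ b ∈ L, H (x * b * a) = H (b * a) + (H (x * a) - H a) := by
    intro x hx b hb
    have h1 : T L (fun c => H (x * c) - H c) = 0 := by
      have h2 := (gTBas G L L (fun c => H (x * c)) H).2.2.2.2.1
      have h3 := (gTBas G L L H H).2.2.2.2.2.1 x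
      rw [h2, h3]
      funext c
      change T L H (x * c) - T L H c = 0
      rw [hinv x hx c, sub_self]
    have h4 := (gTBas G L L (fun c => H (x * c) - H c) H).2.2.2.2.2.2.2.1.1 h1 b hb a
    change H (x * (b * a)) - H (b * a) = H (x * a) - H a at h4
    rw [mul_assoc]
    linarith
  obtain ⟨g, hg⟩ : ∃ g : G → ℤ, g = fun b => H (b * a) := ⟨_, rfl⟩
  obtain ⟨d, hdd⟩ : ∃ d : G → ℤ, d = fun x => H (x * a) - H a := ⟨_, rfl⟩
  have hH : ∀ x ∈ K, ∀ b ∈ L, H (x * b * a) = g b + d x := by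
    intro x hx b hb
    rw [hdiff x hx b hb, hg, hdd]
  have hcn : ∀ (F : G → ℤ) (F' : G → G → ℤ), (∀ x ∈ K, ∀ b ∈ L, F (x * b * a) = F' x b) →
      cn (K ⊔ L) F a = ∑ x ∈ sK K, ∑ b ∈ sK L, |F' x b| := by
    intro F F' h
    unfold cn
    rw [pSumKK G K L hd fun b => |F (b * a)|]
    refine Finset.sum_congr rfl fun x hx => Finset.sum_congr rfl fun b hb => ?_
    rw [h x ((mem_sK K x).1 hx) b ((mem_sK L b).1 hb)]
  have hcH : cn (K ⊔ L) H a = ∑ x ∈ sK K, ∑ b ∈ sK L, |g b + d x| := hcn H _ hH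
  obtain ⟨x0, hx0, hcore⟩ := core (sK K) (sK L) g d hK hL (by rw [← hcH]; exact hN)
  rw [← hcH] at hcore
  have hx0K := (mem_sK K x0).1 hx0
  obtain ⟨p, hp⟩ := proj hd
  obtain ⟨E1, hE1⟩ : ∃ E1 : G → ℤ, E1 = fun y => g (p (y * a⁻¹)).2 + d x0 := ⟨_, rfl⟩
  obtain ⟨E2, hE2⟩ : ∃ E2 : G → ℤ, E2 = fun y => d (p (y * a⁻¹)).1 - d x0 := ⟨_, rfl⟩
  have hv1 : ∀ x ∈ K, ∀ b ∈ L, E1 (x * b * a) = g b + d x0 := by
    intro x hx b hb
    rw [hE1]
    change g (p (x * b * a * a⁻¹)).2 + d x0 = _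
    rw [mul_inv_cancel_right, hp x hx b hb]
  have hv2 : ∀ x ∈ K, ∀ b ∈ L, E2 (x * b * a) = d x - d x0 := by
    intro x hx b hb
    rw [hE2]
    change d (p (x * b * a * a⁻¹)).1 - d x0 = _
    rw [mul_inv_cancel_right, hp x hx b hb]
  refine ⟨E1, E2, ?_, ?_, ?_, ?_⟩
  · intro k hk z hz
    obtain ⟨x, hx, b, hb, rfl⟩ := Subgroup.mem_sup.1 hz
    have h1 : k * (x * b * a) = k * x * b * a := by
      rw [← mul_assoc, ← mul_assoc]
    rw [h1, hv1 (k * x) (K.mul_mem hk hx) b hb, hv1 x hx b hb]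
  · intro k hk z hz
    obtain ⟨x, hx, b, hb, rfl⟩ := Subgroup.mem_sup.1 hz
    have h1 : k * (x * b * a) = x * (k * b) * a := by
      rw [← mul_assoc, mul_left_comm k x b]
    rw [h1, hv2 x hx (k * b) (L.mul_mem hk hb), hv2 x hx b hb]
  · intro z hz
    obtain ⟨x, hx, b, hb, rfl⟩ := Subgroup.mem_sup.1 hz
    rw [hH x hx b hb, hv1 x hx b hb, hv2 x hx b hb]
    ring
  · have hKp : (0 : ℚ) < ((sK K).card : ℚ) := by
      have h1 : 0 < (sK K).card := (gTBas G K K H H).2.1
      exact_mod_cast h1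
    have hLp : (0 : ℚ) < ((sK L).card : ℚ) := by
      have h1 : 0 < (sK L).card := (gTBas G L L H H).2.1
      exact_mod_cast h1
    have hc1 : cn (K ⊔ L) E1 a = (sK K).card * ∑ b ∈ sK L, |g b + d x0| := by
      rw [hcn E1 (fun _ b => g b + d x0) hv1, Finset.sum_const, nsmul_eq_mul]
    have hc2 : cn (K ⊔ L) E2 a = (sK L).card * ∑ x ∈ sK K, |d x - d x0| := by
      rw [hcn E2 (fun x _ => d x - d x0) hv2, Finset.mul_sum]
      refine Finset.sum_congr rfl fun x _ => ?_
      rw [Finset.sum_const, nsmul_eq_mul]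
    rw [hc1, hc2]
    have h1 : (co (sK K).card : ℚ) / (sK K).card *
        (((sK K).card * ∑ b ∈ sK L, |g b + d x0| : ℤ) : ℚ) =
          ((co (sK K).card * ∑ b ∈ sK L, |g b + d x0| : ℤ) : ℚ) := by
      push_cast
      field_simp
    have h2 : (co (sK L).card : ℚ) / (sK L).card *
        (((sK L).card * ∑ x ∈ sK K, |d x - d x0| : ℤ) : ℚ) =
          ((co (sK L).card * ∑ x ∈ sK K, |d x - d x0| : ℤ) : ℚ) := by
      push_cast
      field_simp
    rw [h1, h2]
    exact_mod_cast hcore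

end Pool.Agent.FO
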