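import Pool.Agent.Lib.MP_640417_ag.FO.SpecG

/-!
# Theorem FG, part G: two subgroups
-/

set_option autoImplicit false

open Finset Pool.Agent.FC

namespace Pool.Agent.FO

namespace TwoPAux

theorem mem_sK {G : Type} [Group G] [Fintype G] (K : Subgroup G) (k : G) : k ∈ sK K ↔ k ∈ K := by
  unfold sK
  simp

/-- the coset norm of a function which is a translate of another up to sign -/
theorem cn_tr (hCn : S_CnBas) {G : Type} [CommGroup G] [Fintype G] (M : Subgroup G) (f g : G → ℤ)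
    (a r c : G) (s : ℤ) (hs : |s| = 1) (hc : c ∈ M)
    (h : ∀ b ∈ M, f (b * a) = s * g (b * (c * r))) : cn M f a = cn M g r := by
  have h1 : cn M f a = cn M g (c * r) := by
    unfold cn
    refine Finset.sum_congr rfl fun b hb => ?_
    rw [h b ((mem_sK M b).1 hb), abs_mul, hs, one_mul]
  rw [h1]
  exact (hCn G M M g g).2.2.1 c hc r

end TwoPAux

open TwoPAux in
theorem pTwoP (hCnBas : S_CnBas) (hGlue : S_Glue) (hTwoL : S_TwoL) : S_TwoP := by
  classical
  intro G _ _ K L hd hK hL ε hε hεM H hH hT hB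
  choose e1 e2 p1 p2 p3 p4 using fun r => hTwoL G K L hd hK hL H hT r (hB r)
  obtain ⟨E, hE1, hE2⟩ := hGlue G (K ⊔ L) ε hε hεM fun r x => (e1 r x, e2 r x)
  -- the local form
  have hloc : ∀ a, ∃ r, ∃ c ∈ K ⊔ L, ∃ s : ℤ, |s| = 1 ∧
      (∀ b ∈ K ⊔ L, (E (b * a)).1 = s * e1 r (b * (c * r))) ∧
      (∀ b ∈ K ⊔ L, (E (b * a)).2 = s * e2 r (b * (c * r))) ∧
      (∀ b ∈ K ⊔ L, H (b * a) = s * H (b * (c * r))) := by
    intro a
    obtain ⟨r, h⟩ := hE2 a
    rcases h with ⟨hr, hb⟩ | ⟨hr, hb⟩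
    · refine ⟨r, a * r⁻¹, hr, 1, by norm_num, fun b hbM => ?_, fun b hbM => ?_, fun b hbM => ?_⟩
      · rw [hb b hbM, inv_mul_cancel_right, one_mul]
      · rw [hb b hbM, inv_mul_cancel_right, one_mul]
      · rw [inv_mul_cancel_right, one_mul]
    · have hcomm : ∀ b, b * (ε * a) = ε * (b * a) := fun b => mul_left_comm b ε a
      refine ⟨r, ε * a * r⁻¹, hr, -1, by norm_num, fun b hbM => ?_, fun b hbM => ?_,
        fun b hbM => ?_⟩
      · rw [hb b hbM, inv_mul_cancel_right, hcomm, Prod.fst_neg, neg_one_mul]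
      · rw [hb b hbM, inv_mul_cancel_right, hcomm, Prod.snd_neg, neg_one_mul]
      · rw [inv_mul_cancel_right, hcomm, hH, neg_one_mul, neg_neg]
  refine ⟨fun a => (E a).1, fun a => (E a).2, ?_, ?_, ?_, ?_, ?_, ?_⟩
  · intro a
    change (E (ε * a)).1 = -(E a).1
    rw [hE1, Prod.fst_neg]
  · intro a
    change (E (ε * a)).2 = -(E a).2
    rw [hE1, Prod.snd_neg]
  · intro k hk a
    obtain ⟨r, c, hc, s, -, h1, -, -⟩ := hloc a
    have hkM : k ∈ K ⊔ L := (le_sup_left : K ≤ K ⊔ L) hk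
    have h2 := h1 k hkM
    have h3 := h1 1 (one_mem _)
    rw [one_mul, one_mul] at h3
    change (E (k * a)).1 = (E a).1
    rw [h2, h3, p1 r k hk c hc]
  · intro k hk a
    obtain ⟨r, c, hc, s, -, -, h1, -⟩ := hloc a
    have hkM : k ∈ K ⊔ L := (le_sup_right : L ≤ K ⊔ L) hk
    have h2 := h1 k hkM
    have h3 := h1 1 (one_mem _)
    rw [one_mul, one_mul] at h3
    change (E (k * a)).2 = (E a).2
    rw [h2, h3, p2 r k hk c hc]
  · intro a
    obtain ⟨r, c, hc, s, -, h1, h2, h3⟩ := hloc a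
    have h4 := h1 1 (one_mem _)
    have h5 := h2 1 (one_mem _)
    have h6 := h3 1 (one_mem _)
    rw [one_mul, one_mul] at h4 h5 h6
    change H a = (E a).1 + (E a).2
    rw [h4, h5, h6, p3 r c hc]
    ring
  · have hM : (0 : ℚ) < ((sK (K ⊔ L)).card : ℚ) := by
      have h1 : 0 < (sK (K ⊔ L)).card := (gTBas G (K ⊔ L) (K ⊔ L) H H).2.1
      exact_mod_cast h1
    have hineq : ∀ a, (co (sK K).card : ℚ) / (sK K).card * cn (K ⊔ L) (fun a => (E a).1) a +
        (co (sK L).card : ℚ) / (sK L).card * cn (K ⊔ L) (fun a => (E a).2) a ≤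
          cn (K ⊔ L) H a := by
      intro a
      obtain ⟨r, c, hc, s, hs, h1, h2, h3⟩ := hloc a
      rw [cn_tr hCnBas (K ⊔ L) (fun a => (E a).1) (e1 r) a r c s hs hc h1,
        cn_tr hCnBas (K ⊔ L) (fun a => (E a).2) (e2 r) a r c s hs hc h2,
        cn_tr hCnBas (K ⊔ L) H H a r c s hs hc h3]
      exact p4 r
    have hsum := Finset.sum_le_sum (s := (Finset.univ : Finset G)) fun a _ => hineq a
    rw [Finset.sum_add_distrib, ← Finset.mul_sum, ← Finset.mul_sum] at hsum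
    have s1 : (∑ a, (cn (K ⊔ L) (fun a => (E a).1) a : ℚ)) =
        (sK (K ⊔ L)).card * nm (fun a => (E a).1) := by
      have := (hCnBas G (K ⊔ L) (K ⊔ L) (fun a => (E a).1) H).2.2.2.2.2.1
      exact_mod_cast this
    have s2 : (∑ a, (cn (K ⊔ L) (fun a => (E a).2) a : ℚ)) =
        (sK (K ⊔ L)).card * nm (fun a => (E a).2) := by
      have := (hCnBas G (K ⊔ L) (K ⊔ L) (fun a => (E a).2) H).2.2.2.2.2.1
      exact_mod_cast this
    have s3 : (∑ a, (cn (K ⊔ L) H a : ℚ)) = (sK (K ⊔ L)).card * nm H := by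
      have := (hCnBas G (K ⊔ L) (K ⊔ L) H H).2.2.2.2.2.1
      exact_mod_cast this
    rw [s1, s2, s3] at hsum
    unfold ct
    refine le_of_mul_le_mul_left ?_ hM
    refine le_trans (le_of_eq ?_) hsum
    ring

end Pool.Agent.FO
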