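import Pool.Agent.Lib.MP_640417_ag.FO.SpecH

/-!
# Theorem FG, part H, module VVBas: basic facts on the potentials
-/

set_option autoImplicit false

open Finset Pool.Agent.FC

namespace Pool.Agent.FO

private lemma VVBas_ord {m : ℕ} (x : ZMod m) : addOrderOf x ∣ m := by
  rw [addOrderOf_dvd_iff_nsmul_eq_zero, nsmul_eq_mul, ZMod.natCast_self, zero_mul]

private lemma VVBas_nn {m : ℕ} (w : ℕ → ℤ) (hw : ∀ n, 0 ≤ w n) (f : ZMod m → ℤ) (x : ZMod m) :
    0 ≤ |f x| * w (addOrderOf x) := mul_nonneg (abs_nonneg _) (hw _)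

/-- The part of the potential of level `d`. -/
private lemma VVBas_lev {m : ℕ} [NeZero m] (w : ℕ → ℤ) (f : ZMod m → ℤ) (d : ℕ) [NeZero d]
    (hd : d ∣ m) : VV w f = w d * nm (fun u : (ZMod d)ˣ => f (el m d u)) +
      ∑ x ∈ univ.filter (fun x : ZMod m => addOrderOf x ≠ d), |f x| * w (addOrderOf x) := by
  obtain ⟨e1, e2, e3, -⟩ := hEl m d hd
  have hsum : ∑ x ∈ univ.filter (fun x : ZMod m => addOrderOf x = d), |f x| * w (addOrderOf x) =
      w d * nm (fun u : (ZMod d)ˣ => f (el m d u)) := by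
    unfold nm
    rw [Finset.mul_sum]
    symm
    refine Finset.sum_bij (fun u _ => el m d u) ?_ ?_ ?_ ?_
    · intro u _
      rw [Finset.mem_filter]
      exact ⟨Finset.mem_univ _, e1 u⟩
    · intro u _ v _ huv
      exact e2 u v huv
    · intro x hx
      obtain ⟨u, hu⟩ := e3 x (Finset.mem_filter.1 hx).2
      exact ⟨u, Finset.mem_univ _, hu⟩
    · intro u _
      rw [e1 u, mul_comm]
  rw [← hsum]
  unfold VV
  rw [Finset.sum_filter_add_sum_filter_not]

/-- **Basic facts on the potentials.** -/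
theorem pVVBas : S_VVBas := by
  intro m _ w w' f h hw hw'
  refine ⟨?_, ?_, ?_, ?_, ?_, ?_⟩
  · exact Finset.sum_nonneg fun x _ => VVBas_nn w hw f x
  · intro c hc
    unfold VV
    rw [Finset.mul_sum]
    refine Finset.sum_le_sum fun x _ => ?_
    have h1 := mul_le_mul_of_nonneg_left (hc _ (VVBas_ord x)) (abs_nonneg (f x))
    calc |f x| * w (addOrderOf x) ≤ |f x| * (c * w' (addOrderOf x)) := h1
      _ = c * (|f x| * w' (addOrderOf x)) := by ring
  · intro c hc
    unfold VV
    rw [Finset.mul_sum]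
    refine Finset.sum_le_sum fun x _ => ?_
    by_cases hx : f x = 0
    · rw [hx, abs_zero, zero_mul, mul_zero]
    · rw [mul_comm c]
      exact mul_le_mul_of_nonneg_left (hc x hx) (abs_nonneg (f x))
  · intro hh
    unfold VV
    refine Finset.sum_congr rfl fun x _ => ?_
    change |f x - h x| * w (addOrderOf x) = |f x| * w (addOrderOf x)
    by_cases hx : h x = 0
    · rw [hx, sub_zero]
    · rw [hh x hx, mul_zero, mul_zero]
  · intro d _ hd
    exact VVBas_lev w f d hd
  · intro d _ hd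
    rw [VVBas_lev w f d hd]
    exact le_add_of_nonneg_right (Finset.sum_nonneg fun x _ => VVBas_nn w hw f x)

end Pool.Agent.FO
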